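import Pool.Agent.Lib.MP_26a019_lc.Ex.HSpec

set_option autoImplicit false
set_option linter.unusedVariables false

/-!
# Assembly of the three-replica inequality from the blow-up (MP_26a019_lc)
-/

open Finset Classical

namespace Pool.Agent.H26

open Pool.Agent.Kempe Pool.Agent.Gas26

namespace HAsmAux

variable {V : Type} [Fintype V]

/-- the weight of a family of patterns -/
noncomputable def wg (w : V → ℝ) (g : V → Fin 3 → Fin 4) : ℝ :=
  ∏ v, (w v) ^ (npr (g v)) * ((Nat.factorial (3 - npr (g v)) : ℝ) / 6)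

/-- the same weight as a function of the present copies -/
noncomputable def wX (w : V → ℝ) (X : Finset (V × Fin 3)) : ℝ :=
  ∏ v, (w v) ^ ((univ.filter (fun i : Fin 3 => (v, i) ∈ X)).card) *
    ((Nat.factorial (3 - (univ.filter (fun i : Fin 3 => (v, i) ∈ X)).card) : ℝ) / 6)

theorem wg_eq (w : V → ℝ) (g : V → Fin 3 → Fin 4) : wg w g = wX w (sup g) := by
  unfold wg wX npr
  refine Finset.prod_congr rfl fun v _ => ?_
  have : univ.filter (fun i => g v i ≠ 3) = univ.filter (fun i : Fin 3 => (v, i) ∈ sup g) := by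
    ext i
    simp [sup]
  rw [this]

theorem wX_nonneg (w : V → ℝ) (hw : ∀ v, 0 ≤ w v) (X : Finset (V × Fin 3)) : 0 ≤ wX w X := by
  unfold wX
  exact Finset.prod_nonneg fun v _ => mul_nonneg (pow_nonneg (hw v) _) (by positivity)

theorem wg_nonneg (w : V → ℝ) (hw : ∀ v, 0 ≤ w v) (g : V → Fin 3 → Fin 4) : 0 ≤ wg w g := by
  rw [wg_eq]
  exact wX_nonneg w hw _

theorem T_nonneg (h3 : HThree) (G : SimpleGraph V) (w : V → ℝ) (hw : ∀ v, 0 ≤ w v)
    (P : Finset (V × Fin 4)) :
    0 ≤ ∑ g ∈ univ.filter (fun g : V → Fin 3 → Fin 4 => BProper G P g),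
      wg w g * (PsiB G P g : ℝ) := by
  rw [← Finset.sum_fiberwise (univ.filter (fun g : V → Fin 3 → Fin 4 => BProper G P g))
    (fun g => sup g)]
  refine Finset.sum_nonneg fun X _ => ?_
  have h := h3 V G P X
  have h' : (0 : ℝ) ≤ ∑ g ∈ univ.filter (fun g => sup g = X ∧ BProper G P g),
      (PsiB G P g : ℝ) := by
    exact_mod_cast h
  have e : ∑ g ∈ (univ.filter (fun g : V → Fin 3 → Fin 4 => BProper G P g)).filter
      (fun g => sup g = X), wg w g * (PsiB G P g : ℝ) =
      wX w X * ∑ g ∈ univ.filter (fun g => sup g = X ∧ BProper G P g), (PsiB G P g : ℝ) := by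
    rw [Finset.mul_sum]
    refine Finset.sum_congr ?_ ?_
    · ext g
      simp only [Finset.mem_filter, Finset.mem_univ, true_and]
      exact and_comm
    · intro g hg
      rw [wg_eq, (Finset.mem_filter.1 hg).2.1]
  rw [e]
  exact mul_nonneg (wX_nonneg w hw X) h'

/-- the integrand of the three replica inequality -/
noncomputable def Xi (G : SimpleGraph V) (z : V → ℝ) (D S T J : Finset V) : ℝ :=
  (∑ u ∈ Ks G S T D, (((cn G u ∩ J).card : ℝ) + (if z u = 0 then 1 else 0) - 1)) +
    ((J ∩ D).card : ℝ)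

theorem psi_le (hpsi : HPsi) (G : SimpleGraph V) (z : V → ℝ) (Da Db Ph F : Finset V)
    (hPh : ∀ u, u ∈ Ph ↔ z u = 0) (hd : Disjoint Da Db) (g : V → Fin 3 → Fin 4)
    (hg : BProper G (pin Da Db Ph F) g) :
    (PsiB G (pin Da Db Ph F) g : ℝ) ≤
      Xi G z (Da ∪ Db) (lb g 0) (lb g 1) (lb g 2 ∪ F) := by
  rw [hpsi V G Da Db Ph F g hd hg]
  unfold Xi
  push_cast
  simp only [hPh]
  refine add_le_add le_rfl ?_
  have : (lb g 2 ∩ (Da ∪ Db)).card ≤ ((lb g 2 ∪ F) ∩ (Da ∪ Db)).card :=
    Finset.card_le_card (Finset.inter_subset_inter_right Finset.subset_union_left)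
  exact_mod_cast this

theorem lb_eq (g : V → Fin 3 → Fin 4) (y : Fin 4) (hy : y ≠ 3) :
    lb g y = univ.filter (fun z => y ∈ lab (g z)) := by
  ext z
  simp [lb, lab, hy]

/-- the conditions on the three sets -/
def Cond (G : SimpleGraph V) (Da Db Ph F S T J : Finset V) : Prop :=
  S ∈ IS G ∧ T ∈ IS G ∧ J ∈ IS G ∧ Disjoint J (CN G F) ∧ Disjoint S Da ∧ Disjoint T Db ∧
    Disjoint J Ph

theorem sum_patterns (hprop : HProper) (hpat : HPat) (htr : HTriple) (G : SimpleGraph V)
    (w : V → ℝ) (Da Db Ph F : Finset V) (Θ : Finset V → Finset V → Finset V → ℝ) :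
    ∑ g ∈ univ.filter (fun g : V → Fin 3 → Fin 4 => BProper G (pin Da Db Ph F) g),
      wg w g * Θ (lb g 0) (lb g 1) (lb g 2) =
    ∑ S : Finset V, ∑ T : Finset V, ∑ J : Finset V, gw w S * gw w T * gw w J *
      (if Cond G Da Db Ph F S T J then Θ S T J else 0) := by
  rw [← htr V w (fun S T J => if Cond G Da Db Ph F S T J then Θ S T J else 0)]
  have h := hpat V w (fun ℓ => (fun S T J => if Cond G Da Db Ph F S T J then Θ S T J else 0)
    (univ.filter (fun z => (0 : Fin 4) ∈ ℓ z)) (univ.filter (fun z => (1 : Fin 4) ∈ ℓ z))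
    (univ.filter (fun z => (2 : Fin 4) ∈ ℓ z)))
  refine Eq.trans ?_ h
  rw [Finset.sum_filter, Finset.sum_filter]
  refine Finset.sum_congr rfl fun g _ => ?_
  rw [← lb_eq g 0 (by decide), ← lb_eq g 1 (by decide), ← lb_eq g 2 (by decide)]
  change _ = if (∀ z, LInj (g z)) then wg w g *
    (if Cond G Da Db Ph F (lb g 0) (lb g 1) (lb g 2) then Θ (lb g 0) (lb g 1) (lb g 2) else 0)
    else 0
  have hp := hprop V G Da Db Ph F g
  by_cases hL : ∀ z, LInj (g z)
  · rw [if_pos hL]
    by_cases hC : Cond G Da Db Ph F (lb g 0) (lb g 1) (lb g 2)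
    · rw [if_pos hC, if_pos (hp.2 ⟨hL, hC⟩)]
    · rw [if_neg hC, if_neg (fun h => hC (hp.1 h).2), mul_zero]
  · rw [if_neg hL, if_neg (fun h => hL (hp.1 h).1)]

theorem sum_IS (G : SimpleGraph V) (f : Finset V → ℝ) :
    ∑ S ∈ IS G, f S = ∑ S, if S ∈ IS G then f S else 0 := by
  rw [Finset.sum_ite_mem, Finset.univ_inter]

theorem sum_triples (G : SimpleGraph V) (w : V → ℝ) (Da Db Ph F : Finset V)
    (Θ : Finset V → Finset V → Finset V → ℝ) :
    ∑ S : Finset V, ∑ T : Finset V, ∑ J : Finset V, gw w S * gw w T * gw w J *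
      (if Cond G Da Db Ph F S T J then Θ S T J else 0) =
    ∑ S ∈ IS G, ∑ T ∈ IS G, gw (off w Da) S * gw (off w Db) T *
      ∑ J ∈ IS G, gw (off (off w Ph) (CN G F)) J * Θ S T J := by
  rw [sum_IS]
  refine Finset.sum_congr rfl fun S _ => ?_
  by_cases hS : S ∈ IS G
  · rw [if_pos hS, sum_IS]
    refine Finset.sum_congr rfl fun T _ => ?_
    by_cases hT : T ∈ IS G
    · rw [if_pos hT, sum_IS, Finset.mul_sum]
      refine Finset.sum_congr rfl fun J _ => ?_
      by_cases hJ : J ∈ IS G
      · rw [if_pos hJ, gw_off, gw_off, gw_off, gw_off]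
        by_cases h1 : Disjoint J (CN G F) <;> by_cases h2 : Disjoint S Da <;>
          by_cases h3 : Disjoint T Db <;> by_cases h4 : Disjoint J Ph <;>
          simp [Cond, hS, hT, hJ, h1, h2, h3, h4]
        ring
      · rw [if_neg hJ, mul_zero, if_neg (fun h => hJ h.2.2.1), mul_zero]
    · rw [if_neg hT]
      refine Finset.sum_eq_zero fun J _ => ?_
      rw [if_neg (fun h => hT h.2.1), mul_zero]
  · rw [if_neg hS]
    refine Finset.sum_eq_zero fun T _ => Finset.sum_eq_zero fun J _ => ?_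
    rw [if_neg (fun h => hS h.1), mul_zero]

/-- the inequality for one frozen set -/
theorem R_nonneg (h3 : HThree) (hprop : HProper) (hpsi : HPsi) (hpat : HPat) (htr : HTriple)
    (G : SimpleGraph V) (w z : V → ℝ) (hw : ∀ v, 0 ≤ w v) (Da Db Ph F : Finset V)
    (hPh : ∀ u, u ∈ Ph ↔ z u = 0) (hd : Disjoint Da Db) :
    0 ≤ ∑ S ∈ IS G, ∑ T ∈ IS G, gw (off w Da) S * gw (off w Db) T *
      ∑ J ∈ IS G, gw (off (off w Ph) (CN G F)) J * Xi G z (Da ∪ Db) S T (F ∪ J) := by
  rw [← sum_triples G w Da Db Ph F (fun S T J => Xi G z (Da ∪ Db) S T (F ∪ J)),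
    ← sum_patterns hprop hpat htr]
  refine (T_nonneg h3 G w hw (pin Da Db Ph F)).trans (Finset.sum_le_sum fun g hg => ?_)
  refine mul_le_mul_of_nonneg_left ?_ (wg_nonneg w hw g)
  have := psi_le hpsi G z Da Db Ph F hPh hd g (Finset.mem_filter.1 hg).2
  rwa [Finset.union_comm (lb g 2) F] at this

/-- expectation of the integrand over the third gas -/
theorem Eg_Xi (G : SimpleGraph V) (z : V → ℝ) (hz : ∀ v, 0 ≤ z v) (D S T : Finset V) :
    Eg G z (fun J => Xi G z D S T J) =
      Eg G z (fun J => ((J ∩ D).card : ℝ)) -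
        ∑ u ∈ Ks G S T D, ((if z u = 0 then 0 else 1) -
          Eg G z (fun J => ((cn G u ∩ J).card : ℝ))) := by
  unfold Xi
  rw [Eg_add, Eg_sum]
  have : ∀ u ∈ Ks G S T D, Eg G z (fun J => ((cn G u ∩ J).card : ℝ) +
      (if z u = 0 then 1 else 0) - 1) =
      -((if z u = 0 then 0 else 1) - Eg G z (fun J => ((cn G u ∩ J).card : ℝ))) := by
    intro u _
    have e1 : (fun J : Finset V => ((cn G u ∩ J).card : ℝ) + (if z u = 0 then 1 else 0) - 1) =
        fun J : Finset V => ((cn G u ∩ J).card : ℝ) + ((if z u = 0 then 1 else 0) - 1) := by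
      funext J
      ring
    rw [e1, Eg_add, Eg_const hz]
    split_ifs <;> ring
  rw [Finset.sum_congr rfl this, Finset.sum_neg_distrib]
  ring

theorem sum_mul_div {ι : Type} (s : Finset ι) (a b : ι → ℝ) (c : ℝ) :
    ∑ i ∈ s, a i * (b i / c) = (∑ i ∈ s, a i * b i) / c := by
  rw [Finset.sum_div]
  exact Finset.sum_congr rfl fun i _ => (mul_div_assoc _ _ _).symm

end HAsmAux

open HAsmAux in
theorem hAsm_proof : HAsm := by
  intro hthin h3 hprop hpsi hpat htr V _ G x y z hx hy hz hpair hxyz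
  set w : V → ℝ := fun v => max (x v) (y v) with hwdef
  have hw : ∀ v, 0 ≤ w v := fun v => (hx v).trans (le_max_left _ _)
  set Da : Finset V := univ.filter (fun v => x v = 0 ∧ y v ≠ 0) with hDa
  set Db : Finset V := univ.filter (fun v => y v = 0 ∧ x v ≠ 0) with hDb
  set Ph : Finset V := univ.filter (fun v => z v = 0) with hPhdef
  have hPh : ∀ u, u ∈ Ph ↔ z u = 0 := fun u => by simp [hPhdef]
  have hd : Disjoint Da Db := by
    rw [Finset.disjoint_left]
    intro v h1 h2
    simp only [hDa, hDb, Finset.mem_filter, Finset.mem_univ, true_and] at h1 h2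
    exact h2.2 h1.1
  have hDD : Da ∪ Db = DD x y := by
    ext v
    simp only [hDa, hDb, Finset.mem_union, Finset.mem_filter, Finset.mem_univ, true_and, mem_DD]
    constructor
    · rintro (h | h)
      · rw [h.1]; exact fun h' => h.2 h'.symm
      · rw [h.1]; exact h.2
    · intro h
      rcases hpair v with h' | h' | h'
      · exact absurd h' h
      · exact Or.inl ⟨h', fun h'' => h (h'.trans h''.symm)⟩
      · exact Or.inr ⟨h', fun h'' => h (h''.trans h'.symm)⟩
  have hxo : off w Da = x := by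
    funext v
    unfold off
    by_cases hv : v ∈ Da
    · rw [if_pos hv]
      exact (Finset.mem_filter.1 hv).2.1.symm
    · rw [if_neg hv]
      simp only [hDa, Finset.mem_filter, Finset.mem_univ, true_and, not_and, not_not] at hv
      simp only [hwdef]
      rcases hpair v with h | h | h
      · rw [h, max_self]
      · rw [h, hv h, max_self]
      · rw [h]; exact max_eq_left (hx v)
  have hyo : off w Db = y := by
    funext v
    unfold off
    by_cases hv : v ∈ Db
    · rw [if_pos hv]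
      exact (Finset.mem_filter.1 hv).2.1.symm
    · rw [if_neg hv]
      simp only [hDb, Finset.mem_filter, Finset.mem_univ, true_and, not_and, not_not] at hv
      simp only [hwdef]
      rcases hpair v with h | h | h
      · rw [h, max_self]
      · rw [h]; exact max_eq_right (hy v)
      · rw [h, hv h, max_self]
  set β : V → ℝ := off w Ph with hβ
  have hβz : ∀ v, 0 ≤ z v - β v := by
    intro v
    simp only [hβ, off]
    by_cases hv : v ∈ Ph
    · rw [if_pos hv, sub_zero]; exact hz v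
    · rw [if_neg hv]
      rcases hxyz v with h | h
      · exact absurd ((hPh v).2 h) hv
      · exact sub_nonneg.2 (max_le h.1 h.2)
  -- sum over the frozen sets
  have key : 0 ≤ ∑ F ∈ IS G, gw (fun v => z v - β v) F *
      ∑ S ∈ IS G, ∑ T ∈ IS G, gw x S * gw y T *
        ∑ J ∈ IS G, gw (off β (CN G F)) J * Xi G z (DD x y) S T (F ∪ J) := by
    refine Finset.sum_nonneg fun F _ => mul_nonneg (gw_nonneg hβz F) ?_
    have := R_nonneg h3 hprop hpsi hpat htr G w z hw Da Db Ph F hPh hd
    rwa [hxo, hyo, hDD] at this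
  have hzβ : (fun v => β v + (z v - β v)) = z := by
    funext v
    ring
  have key2 : ∑ F ∈ IS G, gw (fun v => z v - β v) F *
      ∑ S ∈ IS G, ∑ T ∈ IS G, gw x S * gw y T *
        ∑ J ∈ IS G, gw (off β (CN G F)) J * Xi G z (DD x y) S T (F ∪ J) =
      ∑ S ∈ IS G, gw x S * ∑ T ∈ IS G, gw y T * ∑ J ∈ IS G, gw z J * Xi G z (DD x y) S T J := by
    have e : ∀ S T : Finset V, ∑ J ∈ IS G, gw z J * Xi G z (DD x y) S T J =
        ∑ F ∈ IS G, gw (fun v => z v - β v) F * ∑ J ∈ IS G,
          gw (off β (CN G F)) J * Xi G z (DD x y) S T (F ∪ J) := by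
      intro S T
      have := hthin V G β (fun v => z v - β v) (fun J => Xi G z (DD x y) S T J)
      rwa [hzβ] at this
    simp only [e, Finset.mul_sum]
    rw [Finset.sum_comm]
    refine Finset.sum_congr rfl fun S _ => ?_
    rw [Finset.sum_comm]
    refine Finset.sum_congr rfl fun T _ => Finset.sum_congr rfl fun F _ =>
      Finset.sum_congr rfl fun J _ => ?_
    ring
  rw [key2] at key
  have key3 : 0 ≤ E2 G x y (fun S T => Eg G z (fun J => Xi G z (DD x y) S T J)) := by
    have e : E2 G x y (fun S T => Eg G z (fun J => Xi G z (DD x y) S T J)) =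
        (∑ S ∈ IS G, gw x S * ∑ T ∈ IS G, gw y T * ∑ J ∈ IS G, gw z J * Xi G z (DD x y) S T J) /
          (Zp G z * Zp G y * Zp G x) := by
      unfold E2 Eg
      simp only [sum_mul_div, div_div]
    rw [e]
    exact div_nonneg key (mul_nonneg (mul_nonneg (Zp_pos hz).le (Zp_pos hy).le) (Zp_pos hx).le)
  simp only [Eg_Xi G z hz] at key3
  have e4 : E2 G x y (fun S T => Eg G z (fun J => ((J ∩ DD x y).card : ℝ)) -
      ∑ u ∈ Ks G S T (DD x y), ((if z u = 0 then 0 else 1) -
        Eg G z (fun J => ((cn G u ∩ J).card : ℝ)))) =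
      Eg G z (fun J => ((J ∩ DD x y).card : ℝ)) -
      KF G x y (fun u => (if z u = 0 then 0 else 1) -
        Eg G z (fun J => ((cn G u ∩ J).card : ℝ))) := by
    unfold KF E2
    simp only [Eg_sub, Eg_const hy, Eg_const hx]
  rw [e4] at key3
  linarith

end Pool.Agent.H26
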