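import Pool.Agent.Lib.MP_26a019_lc.Ex.HSpec

set_option autoImplicit false

/-!
# Pattern counting for the three-replica inequality
-/

namespace Pool.Agent.H26.HPatAux

open Finset

/-- number of patterns with a given set of labels -/
lemma count_pat : ∀ L : Finset (Fin 4),
    ((univ : Finset (Fin 3 → Fin 4)).filter (fun h =>
      (∀ i j, h i = h j → h i ≠ 3 → i = j) ∧
        ((univ : Finset (Fin 4)).filter (fun y => y ≠ 3 ∧ ∃ i, h i = y)) = L)).card *
      (3 - L.card).factorial = if (3 : Fin 4) ∈ L then 0 else 6 := by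
  decide +kernel

/-- number of present copies of an injective pattern -/
lemma npr_pat : ∀ h : Fin 3 → Fin 4, (∀ i j, h i = h j → h i ≠ 3 → i = j) →
    ((univ : Finset (Fin 3)).filter (fun i => h i ≠ 3)).card =
      ((univ : Finset (Fin 4)).filter (fun y => y ≠ 3 ∧ ∃ i, h i = y)).card := by
  decide +kernel

end Pool.Agent.H26.HPatAux

open Finset Classical

namespace Pool.Agent.H26

open Pool.Agent.Kempe Pool.Agent.Gas26

namespace HPatAux

lemma npr_eq_card {h : Fin 3 → Fin 4} (hh : LInj h) : npr h = (lab h).card := by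
  have h1 := npr_pat h hh
  unfold npr lab
  convert h1

lemma card_lab (L : Finset (Fin 4)) :
    ((univ.filter (fun h : Fin 3 → Fin 4 => LInj h ∧ lab h = L)).card *
      (3 - L.card).factorial) = if (3 : Fin 4) ∈ L then 0 else 6 := by
  have h1 := count_pat L
  have h2 : (univ.filter (fun h : Fin 3 → Fin 4 => LInj h ∧ lab h = L)) =
      ((univ : Finset (Fin 3 → Fin 4)).filter (fun h =>
      (∀ i j, h i = h j → h i ≠ 3 → i = j) ∧
        ((univ : Finset (Fin 4)).filter (fun y => y ≠ 3 ∧ ∃ i, h i = y)) = L)) := by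
    ext h
    rw [mem_filter, mem_filter]
    have h3 : lab h = (univ : Finset (Fin 4)).filter (fun y => y ≠ 3 ∧ ∃ i, h i = y) := by
      unfold lab
      congr
    rw [h3]
    rfl
  rw [h2]
  convert h1

/-- the one vertex sum -/
lemma one_vertex (w : ℝ) (L : Finset (Fin 4)) :
    ∑ h ∈ univ.filter (fun h : Fin 3 → Fin 4 => LInj h ∧ lab h = L),
      w ^ (npr h) * ((Nat.factorial (3 - npr h) : ℝ) / 6) =
    if (3 : Fin 4) ∉ L then w ^ L.card else 0 := by
  have h1 : ∀ h ∈ univ.filter (fun h : Fin 3 → Fin 4 => LInj h ∧ lab h = L),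
      w ^ (npr h) * ((Nat.factorial (3 - npr h) : ℝ) / 6) =
        w ^ L.card * ((Nat.factorial (3 - L.card) : ℝ) / 6) := by
    intro h hh
    rw [mem_filter] at hh
    rw [npr_eq_card hh.2.1, hh.2.2]
  rw [Finset.sum_congr rfl h1, Finset.sum_const, nsmul_eq_mul]
  have h2 := card_lab L
  have h3 : ((univ.filter (fun h : Fin 3 → Fin 4 => LInj h ∧ lab h = L)).card : ℝ) *
      (Nat.factorial (3 - L.card) : ℝ) = if (3 : Fin 4) ∈ L then 0 else 6 := by
    have := congrArg (Nat.cast : ℕ → ℝ) h2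
    rw [Nat.cast_mul] at this
    rw [this]
    split_ifs <;> simp
  have h4 : ((univ.filter (fun h : Fin 3 → Fin 4 => LInj h ∧ lab h = L)).card : ℝ) *
      (w ^ L.card * ((Nat.factorial (3 - L.card) : ℝ) / 6)) =
      (((univ.filter (fun h : Fin 3 → Fin 4 => LInj h ∧ lab h = L)).card : ℝ) *
      (Nat.factorial (3 - L.card) : ℝ)) * (w ^ L.card / 6) := by ring
  rw [h4, h3]
  by_cases hL : (3 : Fin 4) ∈ L
  · simp [hL]
  · simp only [hL, if_false, not_false_eq_true, if_true]
    ring

end HPatAux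

open HPatAux in
/-- pattern counting -/
theorem hPat_proof : HPat := by
  intro V _ w Θ
  rw [← Finset.sum_fiberwise (univ.filter (fun g : V → Fin 3 → Fin 4 => ∀ z, LInj (g z)))
    (fun g : V → Fin 3 → Fin 4 => fun z => lab (g z))]
  have hkey : ∀ ℓ : V → Finset (Fin 4),
      ∑ g ∈ (univ.filter (fun g : V → Fin 3 → Fin 4 => ∀ z, LInj (g z))).filter
        (fun g => (fun z => lab (g z)) = ℓ),
        (∏ z, (w z) ^ (npr (g z)) * ((Nat.factorial (3 - npr (g z)) : ℝ) / 6)) *
          Θ (fun z => lab (g z)) =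
      if (∀ z, (3 : Fin 4) ∉ ℓ z) then (∏ z, (w z) ^ ((ℓ z).card)) * Θ ℓ else 0 := by
    intro ℓ
    have h1 : (univ.filter (fun g : V → Fin 3 → Fin 4 => ∀ z, LInj (g z))).filter
        (fun g => (fun z => lab (g z)) = ℓ) =
        Fintype.piFinset (fun z => univ.filter (fun h : Fin 3 → Fin 4 => LInj h ∧ lab h = ℓ z)) := by
      ext g
      simp only [mem_filter, mem_univ, true_and, Fintype.mem_piFinset]
      constructor
      · rintro ⟨ha, hb⟩ z
        exact ⟨ha z, congrFun hb z⟩
      · intro ha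
        exact ⟨fun z => (ha z).1, funext fun z => (ha z).2⟩
    have h2 : ∀ g ∈ (univ.filter (fun g : V → Fin 3 → Fin 4 => ∀ z, LInj (g z))).filter
        (fun g => (fun z => lab (g z)) = ℓ),
        (∏ z, (w z) ^ (npr (g z)) * ((Nat.factorial (3 - npr (g z)) : ℝ) / 6)) *
          Θ (fun z => lab (g z)) =
        (∏ z, (w z) ^ (npr (g z)) * ((Nat.factorial (3 - npr (g z)) : ℝ) / 6)) * Θ ℓ := by
      intro g hg
      rw [(mem_filter.mp hg).2]
    rw [Finset.sum_congr rfl h2, ← Finset.sum_mul, h1]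
    have h3 := Finset.prod_univ_sum
      (fun z => univ.filter (fun h : Fin 3 → Fin 4 => LInj h ∧ lab h = ℓ z))
      (fun z h => (w z) ^ (npr h) * ((Nat.factorial (3 - npr h) : ℝ) / 6))
    rw [← h3]
    have h4 : ∏ z, ∑ h ∈ univ.filter (fun h : Fin 3 → Fin 4 => LInj h ∧ lab h = ℓ z),
        (w z) ^ (npr h) * ((Nat.factorial (3 - npr h) : ℝ) / 6) =
        ∏ z, (if (3 : Fin 4) ∉ ℓ z then (w z) ^ ((ℓ z).card) else 0) :=
      Finset.prod_congr rfl (fun z _ => one_vertex (w z) (ℓ z))
    rw [h4]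
    by_cases hall : ∀ z, (3 : Fin 4) ∉ ℓ z
    · rw [if_pos hall]
      congr 1
      exact Finset.prod_congr rfl (fun z _ => if_pos (hall z))
    · rw [if_neg hall]
      push Not at hall
      obtain ⟨z, hz⟩ := hall
      rw [Finset.prod_eq_zero (mem_univ z) (by simp [hz]), zero_mul]
  rw [Finset.sum_congr rfl (fun ℓ _ => hkey ℓ), ← Finset.sum_filter]

end Pool.Agent.H26
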