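import Pool.Agent.Lib.MP_26a019_lc.Ex.HSpec

set_option autoImplicit false

open Finset Classical

namespace Pool.Agent.H26

open Pool.Agent.Kempe Pool.Agent.Gas26

namespace HProperAux

variable {V : Type} [Fintype V]

lemma mem_lb {g : V → Fin 3 → Fin 4} {y : Fin 4} {z : V} : z ∈ lb g y ↔ ∃ i, g z i = y := by
  unfold lb; simp

lemma mem_sup {g : V → Fin 3 → Fin 4} {x : V × Fin 3} : x ∈ sup g ↔ g x.1 x.2 ≠ 3 := by
  unfold sup; simp

lemma mem_pin {Da Db Ph F : Finset V} {b : V × Fin 4} : b ∈ pin Da Db Ph F ↔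
    ((b.2 = 0 ∧ b.1 ∈ Da) ∨ (b.2 = 1 ∧ b.1 ∈ Db) ∨ (b.2 = 2 ∧ b.1 ∈ Ph) ∨ (b.2 = 3 ∧ b.1 ∈ F)) := by
  unfold pin; simp

lemma mem_CN {G : SimpleGraph V} {F : Finset V} {v : V} :
    v ∈ CN G F ↔ ∃ f ∈ F, v = f ∨ G.Adj f v := by
  unfold CN cn; simp

lemma bcol_inl (P : Finset (V × Fin 4)) (g : V → Fin 3 → Fin 4) (a : V × Fin 3) :
    bcol P g (Sum.inl a) = g a.1 a.2 := rfl

lemma bcol_inr {P : Finset (V × Fin 4)} (g : V → Fin 3 → Fin 4) {b : V × Fin 4} (hb : b ∈ P) :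
    bcol P g (Sum.inr b) = if b.2 = 3 then 2 else b.2 := by
  unfold bcol
  simp only [hb, if_true]

/-- the edges to the pinned vertices -/
lemma cross {G : SimpleGraph V} {Da Db Ph F : Finset V} {g : V → Fin 3 → Fin 4}
    (h5 : Disjoint (lb g 2) (CN G F)) (h6 : Disjoint (lb g 0) Da) (h7 : Disjoint (lb g 1) Db)
    (h8 : Disjoint (lb g 2) Ph) (a : V × Fin 3) (b : V × Fin 4) (hb : b ∈ pin Da Db Ph F)
    (hab : a.1 = b.1 ∨ (b.2 = 3 ∧ G.Adj a.1 b.1)) :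
    g a.1 a.2 ≠ if b.2 = 3 then 2 else b.2 := by
  intro he
  rcases mem_pin.1 hb with ⟨h1, h2⟩ | ⟨h1, h2⟩ | ⟨h1, h2⟩ | ⟨h1, h2⟩
  · rw [h1] at he hab
    simp only [Fin.reduceEq, if_false, false_and, or_false] at he hab
    rw [← hab] at h2
    exact Finset.disjoint_left.1 h6 (mem_lb.2 ⟨a.2, he⟩) h2
  · rw [h1] at he hab
    simp only [Fin.reduceEq, if_false, false_and, or_false] at he hab
    rw [← hab] at h2
    exact Finset.disjoint_left.1 h7 (mem_lb.2 ⟨a.2, he⟩) h2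
  · rw [h1] at he hab
    simp only [Fin.reduceEq, if_false, false_and, or_false] at he hab
    rw [← hab] at h2
    exact Finset.disjoint_left.1 h8 (mem_lb.2 ⟨a.2, he⟩) h2
  · rw [if_pos h1] at he
    refine Finset.disjoint_left.1 h5 (mem_lb.2 ⟨a.2, he⟩) (mem_CN.2 ⟨b.1, h2, ?_⟩)
    rcases hab with h | h
    · exact Or.inl h
    · exact Or.inr h.2.symm

end HProperAux

open HProperAux in
theorem hProper_proof : HProper := by
  intro V _ G Da Db Ph F g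
  unfold BProper Proper
  constructor
  · intro h
    have hIS : ∀ y : Fin 4, y ≠ 3 → lb g y ∈ IS G := by
      intro y hy
      rw [mem_IS]
      intro u hu w hw hadj
      obtain ⟨i, hi⟩ := mem_lb.1 hu
      obtain ⟨j, hj⟩ := mem_lb.1 hw
      refine h (Sum.inl (u, i)) (Sum.inl (w, j)) ?_ (by rw [bcol_inl, bcol_inl]; simp [hi, hj])
      exact ⟨mem_sup.2 (by simp only [hi]; exact hy), mem_sup.2 (by simp only [hj]; exact hy),
        Or.inr hadj⟩
    have hpen : ∀ (y : Fin 4) (D : Finset V), y ≠ 3 →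
        (∀ v ∈ D, (v, y) ∈ pin Da Db Ph F) → Disjoint (lb g y) D := by
      intro y D hy hD
      rw [Finset.disjoint_left]
      intro v hv hvD
      obtain ⟨i, hi⟩ := mem_lb.1 hv
      refine h (Sum.inl (v, i)) (Sum.inr (v, y)) ?_ ?_
      · exact ⟨mem_sup.2 (by simp only [hi]; exact hy), hD v hvD, Or.inl rfl⟩
      · rw [bcol_inl, bcol_inr g (hD v hvD)]
        simp only [hi, if_neg hy]
    refine ⟨?_, hIS 0 (by decide), hIS 1 (by decide), hIS 2 (by decide), ?_, ?_, ?_, ?_⟩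
    · intro z i j hij hne
      by_contra hc
      refine h (Sum.inl (z, i)) (Sum.inl (z, j)) ?_ (by rw [bcol_inl, bcol_inl]; exact hij)
      exact ⟨mem_sup.2 hne, mem_sup.2 (by simp only [← hij]; exact hne), Or.inl ⟨rfl, hc⟩⟩
    · rw [Finset.disjoint_left]
      intro v hv hvC
      obtain ⟨i, hi⟩ := mem_lb.1 hv
      obtain ⟨f, hf, hfv⟩ := mem_CN.1 hvC
      have hm : (f, (3 : Fin 4)) ∈ pin Da Db Ph F :=
        mem_pin.2 (Or.inr (Or.inr (Or.inr ⟨rfl, hf⟩)))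
      refine h (Sum.inl (v, i)) (Sum.inr (f, 3)) ?_ ?_
      · refine ⟨mem_sup.2 (by simp only [hi]; decide), hm, ?_⟩
        rcases hfv with h1 | h1
        · exact Or.inl h1
        · exact Or.inr ⟨rfl, h1.symm⟩
      · rw [bcol_inl, bcol_inr g hm]
        simp only [hi, if_true]
    · exact hpen 0 Da (by decide) fun v hv => mem_pin.2 (Or.inl ⟨rfl, hv⟩)
    · exact hpen 1 Db (by decide) fun v hv => mem_pin.2 (Or.inr (Or.inl ⟨rfl, hv⟩))
    · exact hpen 2 Ph (by decide) fun v hv => mem_pin.2 (Or.inr (Or.inr (Or.inl ⟨rfl, hv⟩)))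
  · rintro ⟨h1, h2, h3, h4, h5, h6, h7, h8⟩
    rintro (a | a) (b | b) hab
    · obtain ⟨ha, hb, hc⟩ := hab
      rw [bcol_inl, bcol_inl]
      intro he
      have ha3 := mem_sup.1 ha
      rcases hc with ⟨hc1, hc2⟩ | hc
      · rw [← hc1] at he
        exact hc2 (h1 a.1 a.2 b.2 he ha3)
      · have hall : ∀ y : Fin 4, y = 0 ∨ y = 1 ∨ y = 2 ∨ y = 3 := by decide
        rcases hall (g a.1 a.2) with h | h | h | h
        · exact mem_IS.1 h2 a.1 (mem_lb.2 ⟨a.2, h⟩) b.1 (mem_lb.2 ⟨b.2, by rw [← he, h]⟩) hc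
        · exact mem_IS.1 h3 a.1 (mem_lb.2 ⟨a.2, h⟩) b.1 (mem_lb.2 ⟨b.2, by rw [← he, h]⟩) hc
        · exact mem_IS.1 h4 a.1 (mem_lb.2 ⟨a.2, h⟩) b.1 (mem_lb.2 ⟨b.2, by rw [← he, h]⟩) hc
        · exact ha3 h
    · obtain ⟨ha, hb, hc⟩ := hab
      rw [bcol_inl, bcol_inr g hb]
      exact cross h5 h6 h7 h8 a b hb hc
    · obtain ⟨hb, ha, hc⟩ := hab
      rw [bcol_inl, bcol_inr g ha]
      exact (cross h5 h6 h7 h8 b a ha hc).symm
    · exact absurd hab (fun h => h)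

end Pool.Agent.H26
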