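import Pool.Agent.Lib.MP_26a019_lc.Ex.HSpec

set_option autoImplicit false
set_option linter.unusedVariables false
set_option linter.unusedSectionVars false

/-!
# Components of the blow-up
-/

open Finset Classical

namespace Pool.Agent.H26

open Pool.Agent.Kempe Pool.Agent.Gas26

namespace HPsiAux

variable {V : Type} [Fintype V] {G : SimpleGraph V} {Da Db Ph F : Finset V}
  {g : V → Fin 3 → Fin 4}

lemma mem_sup {a : V × Fin 3} : a ∈ sup g ↔ g a.1 a.2 ≠ 3 := by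
  simp [sup]

lemma mem_lb {y : Fin 4} {z : V} : z ∈ lb g y ↔ ∃ i, g z i = y := by
  simp [lb]

lemma inl_mem_Wb {X : Finset (V × Fin 3)} {a : V × Fin 3} : (Sum.inl a : BV V) ∈ Wb X ↔ a ∉ X := by
  unfold Wb
  rw [mem_filter]
  constructor
  · rintro ⟨-, h⟩ ha
    exact h a ha rfl
  · intro h
    refine ⟨mem_univ _, fun x hx he => h ?_⟩
    rw [Sum.inl.injEq] at he
    rwa [he]

lemma inr_mem_Wb {X : Finset (V × Fin 3)} {b : V × Fin 4} : (Sum.inr b : BV V) ∈ Wb X := by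
  unfold Wb
  rw [mem_filter]
  exact ⟨mem_univ _, fun x _ he => by simp at he⟩

lemma mem_pin0 {v : V} : (v, (0 : Fin 4)) ∈ pin Da Db Ph F ↔ v ∈ Da := by
  simp [pin]

lemma mem_pin1 {v : V} : (v, (1 : Fin 4)) ∈ pin Da Db Ph F ↔ v ∈ Db := by
  simp [pin]

lemma mem_pin2 {v : V} : (v, (2 : Fin 4)) ∈ pin Da Db Ph F ↔ v ∈ Ph := by
  simp [pin]

lemma mem_pin3 {v : V} : (v, (3 : Fin 4)) ∈ pin Da Db Ph F ↔ v ∈ F := by
  simp [pin]

lemma adj_ll {X : Finset (V × Fin 3)} {P : Finset (V × Fin 4)} {a b : V × Fin 3} :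
    (BG G X P).Adj (Sum.inl a) (Sum.inl b) ↔
      a ∈ X ∧ b ∈ X ∧ ((a.1 = b.1 ∧ a.2 ≠ b.2) ∨ G.Adj a.1 b.1) := Iff.rfl

lemma adj_lr {X : Finset (V × Fin 3)} {P : Finset (V × Fin 4)} {a : V × Fin 3} {b : V × Fin 4} :
    (BG G X P).Adj (Sum.inl a) (Sum.inr b) ↔
      a ∈ X ∧ b ∈ P ∧ (a.1 = b.1 ∨ (b.2 = 3 ∧ G.Adj a.1 b.1)) := Iff.rfl

lemma adj_rr {X : Finset (V × Fin 3)} {P : Finset (V × Fin 4)} {a b : V × Fin 4} :
    ¬ (BG G X P).Adj (Sum.inr a) (Sum.inr b) := fun h => h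

lemma col_l {P : Finset (V × Fin 4)} {a : V × Fin 3} : bcol P g (Sum.inl a) = g a.1 a.2 := rfl

lemma col_r {P : Finset (V × Fin 4)} {b : V × Fin 4} :
    bcol P g (Sum.inr b) = if b ∈ P then (if b.2 = 3 then 2 else b.2) else 3 := rfl

section

variable (hP : BProper G (pin Da Db Ph F) g)
include hP

lemma linj (z : V) : LInj (g z) := by
  intro i j hij h3
  by_contra hne
  have h := hP (Sum.inl (z, i)) (Sum.inl (z, j)) (adj_ll.2 ⟨mem_sup.2 h3,
    mem_sup.2 (by simpa [← hij] using h3), Or.inl ⟨rfl, hne⟩⟩)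
  exact h hij

lemma uniq {z : V} {i j : Fin 3} (h : g z i = g z j) (h3 : g z i ≠ 3) : i = j := linj hP z i j h h3

lemma indep {y : Fin 4} (hy : y ≠ 3) {z w : V} (h : G.Adj z w) (hz : z ∈ lb g y) : w ∉ lb g y := by
  intro hw
  obtain ⟨i, hi⟩ := mem_lb.1 hz
  obtain ⟨j, hj⟩ := mem_lb.1 hw
  have := hP (Sum.inl (z, i)) (Sum.inl (w, j)) (adj_ll.2 ⟨mem_sup.2 (by simpa [hi] using hy),
    mem_sup.2 (by simpa [hj] using hy), Or.inr h⟩)
  exact this (by rw [col_l, col_l]; exact hi.trans hj.symm)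

lemma da {v : V} (hv : v ∈ Da) : v ∉ lb g 0 := by
  intro h
  obtain ⟨i, hi⟩ := mem_lb.1 h
  have := hP (Sum.inl (v, i)) (Sum.inr (v, 0)) (adj_lr.2 ⟨mem_sup.2 (by simp [hi]),
    mem_pin0.2 hv, Or.inl rfl⟩)
  apply this
  rw [col_l, col_r, if_pos (mem_pin0.2 hv)]
  simpa using hi

lemma db {v : V} (hv : v ∈ Db) : v ∉ lb g 1 := by
  intro h
  obtain ⟨i, hi⟩ := mem_lb.1 h
  have := hP (Sum.inl (v, i)) (Sum.inr (v, 1)) (adj_lr.2 ⟨mem_sup.2 (by simp [hi]),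
    mem_pin1.2 hv, Or.inl rfl⟩)
  apply this
  rw [col_l, col_r, if_pos (mem_pin1.2 hv)]
  simpa using hi

lemma fr {v : V} (hv : v ∈ F) : v ∉ lb g 2 := by
  intro h
  obtain ⟨i, hi⟩ := mem_lb.1 h
  have := hP (Sum.inl (v, i)) (Sum.inr (v, 3)) (adj_lr.2 ⟨mem_sup.2 (by simp [hi]),
    mem_pin3.2 hv, Or.inl rfl⟩)
  apply this
  rw [col_l, col_r, if_pos (mem_pin3.2 hv)]
  simpa using hi

/-- edges of `HH` -/
lemma edge {x x' : BV V}
    (h : (HH (BG G (sup g) (pin Da Db Ph F)) (bcol (pin Da Db Ph F) g) 0 1).Adj x x') :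
    (∃ a b : V × Fin 3, x = Sum.inl a ∧ x' = Sum.inl b ∧ (a.1 = b.1 ∨ G.Adj a.1 b.1) ∧
      ((g a.1 a.2 = 0 ∧ g b.1 b.2 = 1) ∨ (g a.1 a.2 = 1 ∧ g b.1 b.2 = 0))) ∨
    (∃ (a : V × Fin 3) (b : V × Fin 4), ((x = Sum.inl a ∧ x' = Sum.inr b) ∨
      (x = Sum.inr b ∧ x' = Sum.inl a)) ∧ a.1 = b.1 ∧
      ((g a.1 a.2 = 0 ∧ a.1 ∈ Db) ∨ (g a.1 a.2 = 1 ∧ a.1 ∈ Da))) := by
  obtain ⟨h1, h2⟩ := h
  have key : ∀ (a : V × Fin 3) (b : V × Fin 4),
      (BG G (sup g) (pin Da Db Ph F)).Adj (Sum.inl a) (Sum.inr b) →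
      ((g a.1 a.2 = 0 ∧ bcol (pin Da Db Ph F) g (Sum.inr b) = 1) ∨
        (g a.1 a.2 = 1 ∧ bcol (pin Da Db Ph F) g (Sum.inr b) = 0)) → a.1 = b.1 ∧
      ((g a.1 a.2 = 0 ∧ a.1 ∈ Db) ∨ (g a.1 a.2 = 1 ∧ a.1 ∈ Da)) := by
    rintro a ⟨v, k⟩ hadj hc
    obtain ⟨ha, hb, hab⟩ := adj_lr.1 hadj
    rw [col_r, if_pos hb] at hc
    have hk3 : k ≠ 3 := by
      rintro rfl
      simp at hc
    simp only [hk3, if_false, false_and, or_false] at hc hab
    refine ⟨hab, ?_⟩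
    rcases hc with ⟨hc1, hc2⟩ | ⟨hc1, hc2⟩
    · subst hc2
      exact Or.inl ⟨hc1, hab ▸ mem_pin1.1 hb⟩
    · subst hc2
      exact Or.inr ⟨hc1, hab ▸ mem_pin0.1 hb⟩
  rcases x with a | a <;> rcases x' with b | b
  · left
    obtain ⟨ha, hb, hab⟩ := adj_ll.1 h1
    exact ⟨a, b, rfl, rfl, hab.imp (fun h => h.1) id, h2⟩
  · right
    obtain ⟨e1, e2⟩ := key a b h1 h2
    exact ⟨a, b, Or.inl ⟨rfl, rfl⟩, e1, e2⟩
  · right
    obtain ⟨e1, e2⟩ := key b a h1.symm (by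
      rcases h2 with ⟨h3, h4⟩ | ⟨h3, h4⟩
      · exact Or.inr ⟨h4, h3⟩
      · exact Or.inl ⟨h4, h3⟩)
    exact ⟨b, a, Or.inr ⟨rfl, rfl⟩, e1, e2⟩
  · exact absurd h1 adj_rr

/-- an end of a pendant edge is in `Ks` -/
lemma pend {v : V} {i : Fin 3} (h : (g v i = 0 ∧ v ∈ Db) ∨ (g v i = 1 ∧ v ∈ Da)) :
    v ∈ Ks G (lb g 0) (lb g 1) (Da ∪ Db) := by
  have h1 : v ∈ symmDiff (lb g 0) (lb g 1) := by
    rw [mem_symmDiff]
    rcases h with ⟨h1, h2⟩ | ⟨h1, h2⟩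
    · exact Or.inl ⟨mem_lb.2 ⟨i, h1⟩, db hP h2⟩
    · exact Or.inr ⟨mem_lb.2 ⟨i, h1⟩, da hP h2⟩
  unfold Ks
  rw [mem_filter]
  refine ⟨h1, v, ?_, h1, SimpleGraph.Reachable.refl _⟩
  rw [mem_union]
  rcases h with ⟨_, h2⟩ | ⟨_, h2⟩
  · exact Or.inr h2
  · exact Or.inl h2

/-- projection -/
def pr : BV V → V
  | Sum.inl a => a.1
  | Sum.inr b => b.1

lemma walk_to {x y : BV V}
    (p : (HH (BG G (sup g) (pin Da Db Ph F)) (bcol (pin Da Db Ph F) g) 0 1).Walk x y)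
    (hy : y ∈ Wb (sup g)) : x ∈ Wb (sup g) ∨ pr x ∈ Ks G (lb g 0) (lb g 1) (Da ∪ Db) := by
  induction p with
  | nil => exact Or.inl hy
  | cons h p ih =>
    rename_i x x' y
    right
    rcases edge hP h with ⟨a, b, rfl, rfl, hab, hc⟩ | ⟨a, b, hx, hab, hc⟩
    · have hb3 : g b.1 b.2 ≠ 3 := by
        rcases hc with ⟨_, h2⟩ | ⟨_, h2⟩ <;> simp [h2]
      have hbK : b.1 ∈ Ks G (lb g 0) (lb g 1) (Da ∪ Db) := by
        rcases ih hy with h1 | h1
        · exact absurd (mem_sup.2 hb3) (inl_mem_Wb.1 h1)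
        · exact h1
      have hbS : b.1 ∈ symmDiff (lb g 0) (lb g 1) := (mem_filter.1 hbK).1
      have hadj : G.Adj a.1 b.1 := by
        rcases hab with he | h
        · exfalso
          rw [mem_symmDiff] at hbS
          rcases hc with ⟨h1, h2⟩ | ⟨h1, h2⟩
          · have h3 : b.1 ∈ lb g 0 := mem_lb.2 ⟨a.2, he ▸ h1⟩
            have h4 : b.1 ∈ lb g 1 := mem_lb.2 ⟨b.2, h2⟩
            tauto
          · have h3 : b.1 ∈ lb g 1 := mem_lb.2 ⟨a.2, he ▸ h1⟩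
            have h4 : b.1 ∈ lb g 0 := mem_lb.2 ⟨b.2, h2⟩
            tauto
        · exact h
      have haS : a.1 ∈ symmDiff (lb g 0) (lb g 1) := by
        rw [mem_symmDiff]
        rcases hc with ⟨h1, h2⟩ | ⟨h1, h2⟩
        · exact Or.inl ⟨mem_lb.2 ⟨a.2, h1⟩,
            indep hP (by decide) hadj.symm (mem_lb.2 ⟨b.2, h2⟩)⟩
        · exact Or.inr ⟨mem_lb.2 ⟨a.2, h1⟩,
            indep hP (by decide) hadj.symm (mem_lb.2 ⟨b.2, h2⟩)⟩
      obtain ⟨-, o, ho, hoS, hr⟩ := mem_filter.1 hbK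
      refine mem_filter.2 ⟨haS, o, ho, hoS, ?_⟩
      have : (SG G (lb g 0) (lb g 1)).Adj a.1 b.1 := ⟨hadj, haS, hbS⟩
      exact this.reachable.trans hr
    · have h1 := pend hP hc
      rcases hx with ⟨rfl, rfl⟩ | ⟨rfl, rfl⟩
      · exact h1
      · change b.1 ∈ _
        rw [← hab]
        exact h1

lemma same {z : V} (hz : z ∈ symmDiff (lb g 0) (lb g 1)) {i j : Fin 3}
    (hi : g z i = 0 ∨ g z i = 1) (hj : g z j = 0 ∨ g z j = 1) : i = j := by
  rw [mem_symmDiff] at hz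
  have h0 : ∀ k, g z k = 0 → z ∈ lb g 0 := fun k hk => mem_lb.2 ⟨k, hk⟩
  have h1 : ∀ k, g z k = 1 → z ∈ lb g 1 := fun k hk => mem_lb.2 ⟨k, hk⟩
  rcases hi with hi | hi <;> rcases hj with hj | hj
  · exact uniq hP (hi.trans hj.symm) (by simp [hi])
  · have := h0 i hi
    have := h1 j hj
    tauto
  · have := h1 i hi
    have := h0 j hj
    tauto
  · exact uniq hP (hi.trans hj.symm) (by simp [hi])

lemma walk_from {p q : V} (w : (SG G (lb g 0) (lb g 1)).Walk p q)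
    (hp : p ∈ symmDiff (lb g 0) (lb g 1)) {i j : Fin 3} (hi : g p i = 0 ∨ g p i = 1)
    (hj : g q j = 0 ∨ g q j = 1) :
    (HH (BG G (sup g) (pin Da Db Ph F)) (bcol (pin Da Db Ph F) g) 0 1).Reachable
      (Sum.inl (p, i)) (Sum.inl (q, j)) := by
  induction w generalizing i with
  | nil =>
    rw [same hP hp hi hj]
  | cons h w ih =>
    rename_i p p' q
    obtain ⟨hadj, -, hp'⟩ := h
    have hk : ∃ k, g p' k = 0 ∨ g p' k = 1 := by
      rcases mem_symmDiff.1 hp' with ⟨h1, -⟩ | ⟨h1, -⟩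
      · obtain ⟨k, hk⟩ := mem_lb.1 h1
        exact ⟨k, Or.inl hk⟩
      · obtain ⟨k, hk⟩ := mem_lb.1 h1
        exact ⟨k, Or.inr hk⟩
    obtain ⟨k, hk⟩ := hk
    have hcol : (g p i = 0 ∧ g p' k = 1) ∨ (g p i = 1 ∧ g p' k = 0) := by
      rcases hi with hi | hi <;> rcases hk with hk | hk
      · exact absurd (mem_lb.2 ⟨k, hk⟩) (indep hP (by decide) hadj (mem_lb.2 ⟨i, hi⟩))
      · exact Or.inl ⟨hi, hk⟩
      · exact Or.inr ⟨hi, hk⟩
      · exact absurd (mem_lb.2 ⟨k, hk⟩) (indep hP (by decide) hadj (mem_lb.2 ⟨i, hi⟩))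
    have hadj' : (HH (BG G (sup g) (pin Da Db Ph F)) (bcol (pin Da Db Ph F) g) 0 1).Adj
        (Sum.inl (p, i)) (Sum.inl (p', k)) := by
      refine ⟨adj_ll.2 ⟨mem_sup.2 ?_, mem_sup.2 ?_, Or.inr hadj⟩, hcol⟩
      · rcases hi with hi | hi <;> simp [hi]
      · rcases hk with hk | hk <;> simp [hk]
    exact hadj'.reachable.trans (ih hp' hk hj)

lemma kk_iff {z : V} {i : Fin 3} :
    (Sum.inl (z, i) : BV V) ∈ KK (BG G (sup g) (pin Da Db Ph F)) (bcol (pin Da Db Ph F) g)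
      (Wb (sup g)) 0 1 ↔ (g z i = 0 ∨ g z i = 1) ∧ z ∈ Ks G (lb g 0) (lb g 1) (Da ∪ Db) := by
  simp only [KK, mem_filter, mem_univ, true_and]
  constructor
  · rintro ⟨h1, w, hw, hr⟩
    obtain ⟨p⟩ := hr
    refine ⟨?_, ?_⟩
    · cases p with
      | nil => exact absurd hw h1
      | cons h p =>
        rcases h.2 with h | h
        · exact Or.inl h.1
        · exact Or.inr h.1
    · rcases walk_to hP p hw with h | h
      · exact absurd h h1
      · exact h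
  · rintro ⟨hc, hK⟩
    have h3 : g z i ≠ 3 := by rcases hc with h | h <;> simp [h]
    obtain ⟨hS, o, ho, hoS, hr⟩ := mem_filter.1 hK
    obtain ⟨p⟩ := hr
    refine ⟨?_, ?_⟩
    · rw [inl_mem_Wb, not_not]
      exact mem_sup.2 h3
    · rcases mem_union.1 ho with hoa | hob
      · have h0 := da hP hoa
        have h1 : o ∈ lb g 1 := by
          rw [mem_symmDiff] at hoS
          tauto
        obtain ⟨j, hj⟩ := mem_lb.1 h1
        refine ⟨Sum.inr (o, 0), inr_mem_Wb, (walk_from hP p hS hc (Or.inr hj)).trans ?_⟩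
        have : (HH (BG G (sup g) (pin Da Db Ph F)) (bcol (pin Da Db Ph F) g) 0 1).Adj
            (Sum.inl (o, j)) (Sum.inr (o, 0)) := by
          refine ⟨adj_lr.2 ⟨mem_sup.2 (by simp [hj]), mem_pin0.2 hoa, Or.inl rfl⟩, Or.inr ⟨hj, ?_⟩⟩
          rw [col_r, if_pos (mem_pin0.2 hoa)]
          simp
        exact this.reachable
      · have h0 := db hP hob
        have h1 : o ∈ lb g 0 := by
          rw [mem_symmDiff] at hoS
          tauto
        obtain ⟨j, hj⟩ := mem_lb.1 h1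
        refine ⟨Sum.inr (o, 1), inr_mem_Wb, (walk_from hP p hS hc (Or.inl hj)).trans ?_⟩
        have : (HH (BG G (sup g) (pin Da Db Ph F)) (bcol (pin Da Db Ph F) g) 0 1).Adj
            (Sum.inl (o, j)) (Sum.inr (o, 1)) := by
          refine ⟨adj_lr.2 ⟨mem_sup.2 (by simp [hj]), mem_pin1.2 hob, Or.inl rfl⟩, Or.inl ⟨hj, ?_⟩⟩
          rw [col_r, if_pos (mem_pin1.2 hob)]
          simp
        exact this.reachable

lemma sumJ (w : V) : (∑ j : Fin 3, if g w j = 2 then (1 : ℤ) else 0) = if w ∈ lb g 2 then 1 else 0 := by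
  by_cases h : w ∈ lb g 2
  · rw [if_pos h]
    obtain ⟨j, hj⟩ := mem_lb.1 h
    rw [Finset.sum_eq_single j]
    · rw [if_pos hj]
    · intro k _ hk
      rw [if_neg]
      intro hk2
      exact hk (uniq hP (hk2.trans hj.symm) (by simp [hk2]))
    · intro h
      exact absurd (mem_univ j) h
  · rw [if_neg h]
    refine Finset.sum_eq_zero fun j _ => ?_
    rw [if_neg]
    intro hj
    exact h (mem_lb.2 ⟨j, hj⟩)

lemma cdeg_eq {u : V} {i : Fin 3} (hc : g u i = 0 ∨ g u i = 1) :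
    ((cdeg (BG G (sup g) (pin Da Db Ph F)) (bcol (pin Da Db Ph F) g) 2 (Sum.inl (u, i)) : ℕ) : ℤ) =
      ((cn G u ∩ (lb g 2 ∪ F)).card : ℤ) + (if u ∈ Ph then 1 else 0) := by
  have hi3 : g u i ≠ 3 := by rcases hc with h | h <;> simp [h]
  have hi2 : g u i ≠ 2 := by rcases hc with h | h <;> simp [h]
  unfold cdeg
  rw [Finset.card_filter]
  push_cast
  rw [Fintype.sum_sum_type, Fintype.sum_prod_type, Fintype.sum_prod_type]
  have e1 : ∀ w : V, (∑ j : Fin 3, if (BG G (sup g) (pin Da Db Ph F)).Adj (Sum.inl (u, i))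
      (Sum.inl (w, j)) ∧ bcol (pin Da Db Ph F) g (Sum.inl (w, j)) = 2 then (1 : ℤ) else 0) =
      if w ∈ cn G u ∧ w ∈ lb g 2 then 1 else 0 := by
    intro w
    have h1 : ∀ j : Fin 3, (if (BG G (sup g) (pin Da Db Ph F)).Adj (Sum.inl (u, i))
        (Sum.inl (w, j)) ∧ bcol (pin Da Db Ph F) g (Sum.inl (w, j)) = 2 then (1 : ℤ) else 0) =
        if w ∈ cn G u then (if g w j = 2 then 1 else 0) else 0 := by
      intro j
      by_cases hj : g w j = 2
      · have h3 : (w, j) ∈ sup g := mem_sup.2 (by simp [hj])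
        have h4 : (u, i) ∈ sup g := mem_sup.2 hi3
        have h5 : (BG G (sup g) (pin Da Db Ph F)).Adj (Sum.inl (u, i)) (Sum.inl (w, j)) ↔
            w ∈ cn G u := by
          rw [adj_ll]
          unfold cn
          rw [mem_filter]
          constructor
          · rintro ⟨-, -, h | h⟩
            · exact ⟨mem_univ _, Or.inl h.1.symm⟩
            · exact ⟨mem_univ _, Or.inr h⟩
          · rintro ⟨-, h | h⟩
            · refine ⟨h4, h3, Or.inl ⟨h.symm, ?_⟩⟩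
              rintro rfl
              rw [h] at hj
              exact hi2 hj
            · exact ⟨h4, h3, Or.inr h⟩
        simp only [h5, col_l, hj, and_true, if_true]
      · simp only [col_l, hj, and_false, if_false, ite_self]
    rw [Finset.sum_congr rfl fun j _ => h1 j]
    by_cases hw : w ∈ cn G u
    · simp only [hw, if_true, true_and]
      exact sumJ hP w
    · simp [hw]
  have e2 : ∀ w : V, (∑ k : Fin 4, if (BG G (sup g) (pin Da Db Ph F)).Adj (Sum.inl (u, i))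
      (Sum.inr (w, k)) ∧ bcol (pin Da Db Ph F) g (Sum.inr (w, k)) = 2 then (1 : ℤ) else 0) =
      (if w = u ∧ w ∈ Ph then 1 else 0) + if w ∈ cn G u ∧ w ∈ F then 1 else 0 := by
    intro w
    have h4 : (u, i) ∈ sup g := mem_sup.2 hi3
    rw [Fin.sum_univ_four]
    have k0 : ¬ bcol (pin Da Db Ph F) g (Sum.inr (w, 0)) = 2 := by
      rw [col_r]
      by_cases h : (w, (0 : Fin 4)) ∈ pin Da Db Ph F <;> simp [h]
    have k1 : ¬ bcol (pin Da Db Ph F) g (Sum.inr (w, 1)) = 2 := by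
      rw [col_r]
      by_cases h : (w, (1 : Fin 4)) ∈ pin Da Db Ph F <;> simp [h]
    have k2 : bcol (pin Da Db Ph F) g (Sum.inr (w, 2)) = 2 ↔ w ∈ Ph := by
      rw [col_r, ← mem_pin2 (Da := Da) (Db := Db) (Ph := Ph) (F := F)]
      by_cases h : (w, (2 : Fin 4)) ∈ pin Da Db Ph F <;> simp [h]
    have k3 : bcol (pin Da Db Ph F) g (Sum.inr (w, 3)) = 2 ↔ w ∈ F := by
      rw [col_r, ← mem_pin3 (Da := Da) (Db := Db) (Ph := Ph) (F := F)]
      by_cases h : (w, (3 : Fin 4)) ∈ pin Da Db Ph F <;> simp [h]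
    have a2 : (BG G (sup g) (pin Da Db Ph F)).Adj (Sum.inl (u, i)) (Sum.inr (w, 2)) ∧ w ∈ Ph ↔
        w = u ∧ w ∈ Ph := by
      rw [adj_lr, mem_pin2]
      constructor
      · rintro ⟨⟨-, -, h | h⟩, h2⟩
        · exact ⟨h.symm, h2⟩
        · exact absurd h.1 (by simp)
      · rintro ⟨h, h2⟩
        exact ⟨⟨h4, h2, Or.inl h.symm⟩, h2⟩
    have a3 : (BG G (sup g) (pin Da Db Ph F)).Adj (Sum.inl (u, i)) (Sum.inr (w, 3)) ∧ w ∈ F ↔
        w ∈ cn G u ∧ w ∈ F := by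
      rw [adj_lr, mem_pin3]
      unfold cn
      rw [mem_filter]
      constructor
      · rintro ⟨⟨-, -, h | h⟩, h2⟩
        · exact ⟨⟨mem_univ _, Or.inl h.symm⟩, h2⟩
        · exact ⟨⟨mem_univ _, Or.inr h.2⟩, h2⟩
      · rintro ⟨⟨-, h | h⟩, h2⟩
        · exact ⟨⟨h4, h2, Or.inl h.symm⟩, h2⟩
        · exact ⟨⟨h4, h2, Or.inr ⟨rfl, h⟩⟩, h2⟩
    simp only [k0, k1, k2, k3, a2, a3, and_false, if_false, zero_add]
  rw [Finset.sum_congr rfl fun w _ => e1 w, Finset.sum_congr rfl fun w _ => e2 w,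
    Finset.sum_add_distrib]
  have s1 : (∑ w : V, if w ∈ cn G u ∧ w ∈ lb g 2 then (1 : ℤ) else 0) =
      ((cn G u ∩ lb g 2).card : ℤ) := by
    rw [← Finset.sum_filter, Finset.sum_const, nsmul_eq_mul, mul_one]
    congr 2
    ext w
    simp
  have s2 : (∑ w : V, if w ∈ cn G u ∧ w ∈ F then (1 : ℤ) else 0) = ((cn G u ∩ F).card : ℤ) := by
    rw [← Finset.sum_filter, Finset.sum_const, nsmul_eq_mul, mul_one]
    congr 2
    ext w
    simp
  have s3 : (∑ w : V, if w = u ∧ w ∈ Ph then (1 : ℤ) else 0) = if u ∈ Ph then 1 else 0 := by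
    rw [Finset.sum_eq_single u]
    · simp
    · intro w _ hw
      simp [hw]
    · intro h
      exact absurd (mem_univ u) h
  have s4 : (cn G u ∩ (lb g 2 ∪ F)).card = (cn G u ∩ lb g 2).card + (cn G u ∩ F).card := by
    rw [Finset.inter_union_distrib_left, Finset.card_union_of_disjoint]
    rw [Finset.disjoint_left]
    intro w h1 h2
    exact fr hP (mem_inter.1 h2).2 (mem_inter.1 h1).2
  rw [s1, s2, s3, s4]
  push_cast
  ring

end

/-- the index of a copy with property `p` -/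
noncomputable def ix (g : V → Fin 3 → Fin 4) (p : Fin 4 → Prop) (w : V) : Fin 3 :=
  if h : ∃ i, p (g w i) then h.choose else 0

lemma ix_spec {p : Fin 4 → Prop} {w : V} (h : ∃ i, p (g w i)) : p (g w (ix g p w)) := by
  unfold ix
  rw [dif_pos h]
  exact h.choose_spec

lemma sum_eq (hP : BProper G (pin Da Db Ph F) g) :
    (∑ z ∈ KK (BG G (sup g) (pin Da Db Ph F)) (bcol (pin Da Db Ph F) g) (Wb (sup g)) 0 1,
      ((cdeg (BG G (sup g) (pin Da Db Ph F)) (bcol (pin Da Db Ph F) g) 2 z : ℤ) - 1)) =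
    ∑ u ∈ Ks G (lb g 0) (lb g 1) (Da ∪ Db), (((cn G u ∩ (lb g 2 ∪ F)).card : ℤ) +
        (if u ∈ Ph then 1 else 0) - 1) := by
  symm
  have hex : ∀ u ∈ Ks G (lb g 0) (lb g 1) (Da ∪ Db), ∃ i, g u i = 0 ∨ g u i = 1 := by
    intro u hu
    rcases mem_symmDiff.1 (mem_filter.1 hu).1 with ⟨h1, -⟩ | ⟨h1, -⟩
    · obtain ⟨k, hk⟩ := mem_lb.1 h1
      exact ⟨k, Or.inl hk⟩
    · obtain ⟨k, hk⟩ := mem_lb.1 h1
      exact ⟨k, Or.inr hk⟩
  have hsp : ∀ u ∈ Ks G (lb g 0) (lb g 1) (Da ∪ Db),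
      g u (ix g (fun y => y = 0 ∨ y = 1) u) = 0 ∨ g u (ix g (fun y => y = 0 ∨ y = 1) u) = 1 := by
    intro u hu
    exact ix_spec (p := fun y => y = 0 ∨ y = 1) (hex u hu)
  refine Finset.sum_nbij (fun u => (Sum.inl (u, ix g (fun y => y = 0 ∨ y = 1) u) : BV V))
    ?_ ?_ ?_ ?_
  · intro u hu
    exact (kk_iff hP).2 ⟨hsp u hu, hu⟩
  · intro u _ v _ h
    simp only [Sum.inl.injEq, Prod.mk.injEq] at h
    exact h.1
  · intro x hx
    rcases x with ⟨z, i⟩ | b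
    · obtain ⟨h1, h2⟩ := (kk_iff hP).1 hx
      refine ⟨z, h2, ?_⟩
      have : ix g (fun y => y = 0 ∨ y = 1) z = i := same hP (mem_filter.1 h2).1 (hsp z h2) h1
      simp only [this]
    · exfalso
      have hx' : (Sum.inr b : BV V) ∈ KK (BG G (sup g) (pin Da Db Ph F))
        (bcol (pin Da Db Ph F) g) (Wb (sup g)) 0 1 := hx
      simp only [KK, mem_filter, mem_univ, true_and] at hx'
      exact hx'.1 inr_mem_Wb
  · intro u hu
    rw [cdeg_eq hP (hsp u hu)]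

lemma ecross_eq (hD : Disjoint Da Db) (hP : BProper G (pin Da Db Ph F) g) :
    ecross (BG G (sup g) (pin Da Db Ph F)) (bcol (pin Da Db Ph F) g) (Wb (sup g)) 0 1 2 =
      ((lb g 2) ∩ (Da ∪ Db)).card := by
  symm
  unfold ecross
  have hsp : ∀ v ∈ (lb g 2) ∩ (Da ∪ Db), g v (ix g (fun y => y = 2) v) = 2 := by
    intro v hv
    exact ix_spec (p := fun y => y = 2) (mem_lb.1 (mem_inter.1 hv).1)
  refine Finset.card_nbij (fun v => ((Sum.inr (v, if v ∈ Da then (0 : Fin 4) else 1),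
    Sum.inl (v, ix g (fun y => y = 2) v)) : BV V × BV V)) ?_ ?_ ?_
  · intro v hv
    have h2 := hsp v hv
    have hvD := (mem_inter.1 hv).2
    have hX : (v, ix g (fun y => y = 2) v) ∈ sup g := mem_sup.2 (by simp [h2])
    simp only [coe_filter, mem_univ, true_and]
    refine ⟨inr_mem_Wb, ?_, ?_, ?_, ?_⟩
    · by_cases hv0 : v ∈ Da
      · left
        rw [if_pos hv0, col_r, if_pos (mem_pin0.2 hv0)]
        simp
      · right
        have hv1 : v ∈ Db := (mem_union.1 hvD).resolve_left hv0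
        rw [if_neg hv0, col_r, if_pos (mem_pin1.2 hv1)]
        simp
    · rw [inl_mem_Wb, not_not]
      exact hX
    · rw [col_l]
      exact h2
    · refine SimpleGraph.Adj.symm (adj_lr.2 ⟨hX, ?_, Or.inl rfl⟩)
      by_cases hv0 : v ∈ Da
      · rw [if_pos hv0]
        exact mem_pin0.2 hv0
      · rw [if_neg hv0]
        exact mem_pin1.2 ((mem_union.1 hvD).resolve_left hv0)
  · intro u _ v _ h
    simp only [Prod.mk.injEq, Sum.inl.injEq] at h
    exact h.2.1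
  · rintro ⟨x1, x2⟩ hx
    have hx' : x1 ∈ Wb (sup g) ∧ (bcol (pin Da Db Ph F) g x1 = 0 ∨ bcol (pin Da Db Ph F) g x1 = 1) ∧
        x2 ∉ Wb (sup g) ∧ bcol (pin Da Db Ph F) g x2 = 2 ∧
        (BG G (sup g) (pin Da Db Ph F)).Adj x1 x2 := by
      have h := hx
      simp only [coe_filter, mem_univ, true_and] at h
      exact h
    obtain ⟨h1, h2, h3, h4, h5⟩ := hx'
    rcases x2 with ⟨v, i⟩ | b2
    swap
    · exact absurd inr_mem_Wb h3
    rcases x1 with a | ⟨w, k⟩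
    · exfalso
      have h6 := (adj_ll.1 h5).1
      exact inl_mem_Wb.1 h1 h6
    obtain ⟨hX, hb, hab⟩ := adj_lr.1 h5.symm
    rw [col_r, if_pos hb] at h2
    have hk3 : k ≠ 3 := by
      rintro rfl
      simp at h2
    simp only [hk3, if_false, false_and, or_false] at h2 hab
    subst hab
    have hi : g v i = 2 := h4
    have hJ : v ∈ lb g 2 := mem_lb.2 ⟨i, hi⟩
    have hvD : v ∈ Da ∪ Db := by
      rw [mem_union]
      rcases h2 with rfl | rfl
      · exact Or.inl (mem_pin0.1 hb)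
      · exact Or.inr (mem_pin1.1 hb)
    have hmem : v ∈ (lb g 2) ∩ (Da ∪ Db) := mem_inter.2 ⟨hJ, hvD⟩
    refine ⟨v, hmem, ?_⟩
    have e1 : ix g (fun y => y = 2) v = i :=
      uniq hP ((hsp v hmem).trans hi.symm) (by rw [hsp v hmem]; decide)
    have e2 : (if v ∈ Da then (0 : Fin 4) else 1) = k := by
      rcases h2 with rfl | rfl
      · rw [if_pos (mem_pin0.1 hb)]
      · rw [if_neg]
        intro h
        exact Finset.disjoint_left.1 hD h (mem_pin1.1 hb)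
    simp only [e1, e2]

end HPsiAux

open HPsiAux in
theorem hPsi_proof : HPsi := by
  intro V _ G Da Db Ph F g hD hP
  unfold PsiB
  rw [sum_eq hP, ecross_eq hD hP]

end Pool.Agent.H26
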