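import Pool.Agent.Lib.MP_26a019_lc.Ex.HSpec

/-!
# `HThree`: the three colour inequality in the blow-up
-/

set_option autoImplicit false

open Finset Classical

namespace Pool.Agent.H26

open Pool.Agent.Kempe Pool.Agent.Gas26

namespace HThreeAux

variable {V : Type} [Fintype V]

lemma inl_mem_Wb (X : Finset (V × Fin 3)) (x : V × Fin 3) :
    (Sum.inl x : BV V) ∈ Wb X ↔ x ∉ X := by
  unfold Wb
  simp only [mem_filter, mem_univ, true_and]
  constructor
  · intro h hx
    exact h x hx rfl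
  · intro h y hy he
    rw [Sum.inl.injEq] at he
    rw [he] at h
    exact h hy

lemma inr_mem_Wb (X : Finset (V × Fin 3)) (b : V × Fin 4) : (Sum.inr b : BV V) ∈ Wb X := by
  unfold Wb
  simp

lemma mem_sup (g : V → Fin 3 → Fin 4) (x : V × Fin 3) : x ∈ sup g ↔ g x.1 x.2 ≠ 3 := by
  unfold sup
  simp

lemma fin4 (y : Fin 4) (h : y ≠ 3) : y = 0 ∨ y = 1 ∨ y = 2 := by
  revert h
  revert y
  decide

lemma fin4' (y : Fin 4) (h : y = 0 ∨ y = 1 ∨ y = 2) : y ≠ 3 := by
  revert h
  revert y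
  decide

/-- the inverse map -/
def back (f : BV V → Fin 4) : V → Fin 3 → Fin 4 := fun v i => f (Sum.inl (v, i))

lemma mem_Om3 (G : SimpleGraph V) (P : Finset (V × Fin 4)) (X : Finset (V × Fin 3))
    (f : BV V → Fin 4) : f ∈ Om3 (BG G X P) (Wb X) (bcol P (fun _ _ => 3)) 0 1 2 ↔
      (Proper (BG G X P) f ∧ (∀ z ∈ Wb X, f z = bcol P (fun _ _ => 3) z) ∧
    ∀ z, z ∉ Wb X → (f z = 0 ∨ f z = 1 ∨ f z = 2)) := by
  unfold Om3
  simp only [mem_filter, mem_univ, true_and]

lemma bcol_back (G : SimpleGraph V) (P : Finset (V × Fin 4)) (X : Finset (V × Fin 3))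
    (f : BV V → Fin 4) (hf : f ∈ Om3 (BG G X P) (Wb X) (bcol P (fun _ _ => 3)) 0 1 2) :
    bcol P (back f) = f := by
  rw [mem_Om3] at hf
  funext z
  rcases z with x | b
  · rfl
  · rw [hf.2.1 _ (inr_mem_Wb X b)]
    rfl

lemma sup_back (G : SimpleGraph V) (P : Finset (V × Fin 4)) (X : Finset (V × Fin 3))
    (f : BV V → Fin 4) (hf : f ∈ Om3 (BG G X P) (Wb X) (bcol P (fun _ _ => 3)) 0 1 2) :
    sup (back f) = X := by
  rw [mem_Om3] at hf
  ext x
  rw [mem_sup]
  have h0 : back f x.1 x.2 = f (Sum.inl x) := rfl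
  rw [h0]
  by_cases hx : x ∈ X
  · have h1 : (Sum.inl x : BV V) ∉ Wb X := by
      rw [inl_mem_Wb]
      exact fun h => h hx
    have h2 := fin4' _ (hf.2.2 _ h1)
    exact ⟨fun _ => hx, fun _ => h2⟩
  · have h1 : (Sum.inl x : BV V) ∈ Wb X := by
      rw [inl_mem_Wb]
      exact hx
    have h2 := hf.2.1 _ h1
    exact ⟨fun h => absurd h2 h, fun h => absurd h hx⟩

lemma bcol_mem (G : SimpleGraph V) (P : Finset (V × Fin 4)) (X : Finset (V × Fin 3))
    (g : V → Fin 3 → Fin 4) (hs : sup g = X) (hp : BProper G P g) :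
    bcol P g ∈ Om3 (BG G X P) (Wb X) (bcol P (fun _ _ => 3)) 0 1 2 := by
  rw [mem_Om3]
  refine ⟨?_, ?_, ?_⟩
  · unfold BProper at hp
    rw [hs] at hp
    exact hp
  · rintro (x | b) hz
    · rw [inl_mem_Wb, ← hs, mem_sup, not_not] at hz
      exact hz
    · rfl
  · rintro (x | b) hz
    · rw [inl_mem_Wb, not_not, ← hs, mem_sup] at hz
      exact fin4 _ hz
    · exact absurd (inr_mem_Wb X b) hz

end HThreeAux

open HThreeAux in
theorem hThree_proof : HThree := by
  intro V _ G P X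
  have h := three_colour (V := BV V) (C := Fin 4) (G := BG G X P) (W := Wb X) (a := 0) (b := 1)
    (c := 2) (bcol P (fun _ _ => 3)) (by decide) (by decide) (by decide)
  have e : ∑ g ∈ univ.filter (fun g => sup g = X ∧ BProper G P g), PsiB G P g =
      ∑ f ∈ Om3 (BG G X P) (Wb X) (bcol P (fun _ _ => 3)) 0 1 2,
      ((∑ z ∈ KK (BG G X P) f (Wb X) 0 1, ((cdeg (BG G X P) f 2 z : ℤ) - 1)) +
        (ecross (BG G X P) f (Wb X) 0 1 2 : ℤ)) := by
    refine Finset.sum_bij' (fun g _ => bcol P g) (fun f _ => back f) ?_ ?_ ?_ ?_ ?_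
    · intro g hg
      rw [mem_filter] at hg
      exact bcol_mem G P X g hg.2.1 hg.2.2
    · intro f hf
      rw [mem_filter]
      refine ⟨mem_univ _, sup_back G P X f hf, ?_⟩
      unfold BProper
      rw [sup_back G P X f hf, bcol_back G P X f hf]
      exact ((mem_Om3 G P X f).mp hf).1
    · intro g _
      rfl
    · intro f hf
      exact bcol_back G P X f hf
    · intro g hg
      rw [mem_filter] at hg
      unfold PsiB
      rw [hg.2.1]
  rw [e]
  exact h

end Pool.Agent.H26
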