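import Pool.Agent.Lib.MP_26a019_lc.Ex.HSpec

set_option autoImplicit false
set_option linter.unusedVariables false
set_option linter.unusedSectionVars false

/-!
# The three-replica inequality: label families are triples of sets
-/

open Finset Classical

namespace Pool.Agent.H26

open Pool.Agent.Kempe Pool.Agent.Gas26

namespace HTripleAux

variable {V : Type} [Fintype V]

lemma card4 (A : Finset (Fin 4)) (h : (3 : Fin 4) ∉ A) :
    A.card = (if (0 : Fin 4) ∈ A then 1 else 0) + (if (1 : Fin 4) ∈ A then 1 else 0) +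
      (if (2 : Fin 4) ∈ A then 1 else 0) := by
  have h1 : A.card = ∑ y : Fin 4, (if y ∈ A then 1 else 0) := by
    rw [← Finset.card_filter]
    congr 1
    ext y
    simp
  rw [h1, Fin.sum_univ_four, if_neg h, add_zero]

/-- the label family of three sets -/
noncomputable def mk (S T J : Finset V) (z : V) : Finset (Fin 4) :=
  univ.filter (fun y => (y = 0 ∧ z ∈ S) ∨ (y = 1 ∧ z ∈ T) ∨ (y = 2 ∧ z ∈ J))

lemma gw_filter (w : V → ℝ) (p : V → Prop) :
    gw w (univ.filter p) = ∏ z, (if p z then w z else 1) := by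
  unfold gw
  rw [Finset.prod_filter]

lemma prod_eq (w : V → ℝ) (ℓ : V → Finset (Fin 4)) (h : ∀ z, (3 : Fin 4) ∉ ℓ z) :
    ∏ z, (w z) ^ ((ℓ z).card) =
      gw w (univ.filter (fun z => (0 : Fin 4) ∈ ℓ z)) *
      gw w (univ.filter (fun z => (1 : Fin 4) ∈ ℓ z)) *
      gw w (univ.filter (fun z => (2 : Fin 4) ∈ ℓ z)) := by
  have e0 := gw_filter w (fun z => (0 : Fin 4) ∈ ℓ z)
  have e1 := gw_filter w (fun z => (1 : Fin 4) ∈ ℓ z)
  have e2 := gw_filter w (fun z => (2 : Fin 4) ∈ ℓ z)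
  have e : gw w (univ.filter (fun z => (0 : Fin 4) ∈ ℓ z)) *
      gw w (univ.filter (fun z => (1 : Fin 4) ∈ ℓ z)) *
      gw w (univ.filter (fun z => (2 : Fin 4) ∈ ℓ z)) =
      (∏ z, (if (0 : Fin 4) ∈ ℓ z then w z else 1)) *
      (∏ z, (if (1 : Fin 4) ∈ ℓ z then w z else 1)) *
      (∏ z, (if (2 : Fin 4) ∈ ℓ z then w z else 1)) := by
    rw [show gw w (univ.filter (fun z => (0 : Fin 4) ∈ ℓ z)) =
        (∏ z, (if (0 : Fin 4) ∈ ℓ z then w z else 1)) by convert e0,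
      show gw w (univ.filter (fun z => (1 : Fin 4) ∈ ℓ z)) =
        (∏ z, (if (1 : Fin 4) ∈ ℓ z then w z else 1)) by convert e1,
      show gw w (univ.filter (fun z => (2 : Fin 4) ∈ ℓ z)) =
        (∏ z, (if (2 : Fin 4) ∈ ℓ z then w z else 1)) by convert e2]
  rw [e, ← Finset.prod_mul_distrib, ← Finset.prod_mul_distrib]
  refine Finset.prod_congr rfl fun z _ => ?_
  rw [card4 (ℓ z) (h z)]
  by_cases h0 : (0 : Fin 4) ∈ ℓ z <;> by_cases h1 : (1 : Fin 4) ∈ ℓ z <;>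
    by_cases h2 : (2 : Fin 4) ∈ ℓ z <;> simp [h0, h1, h2] <;> ring

lemma mk0 (S T J : Finset V) : univ.filter (fun z => (0 : Fin 4) ∈ mk S T J z) = S := by
  ext z
  simp [mk]

lemma mk1 (S T J : Finset V) : univ.filter (fun z => (1 : Fin 4) ∈ mk S T J z) = T := by
  ext z
  simp [mk]

lemma mk2 (S T J : Finset V) : univ.filter (fun z => (2 : Fin 4) ∈ mk S T J z) = J := by
  ext z
  simp [mk]

lemma mk3 (S T J : Finset V) (z : V) : (3 : Fin 4) ∉ mk S T J z := by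
  simp [mk]

lemma mk_inv (ℓ : V → Finset (Fin 4)) (h : ∀ z, (3 : Fin 4) ∉ ℓ z) :
    mk (univ.filter (fun z => (0 : Fin 4) ∈ ℓ z)) (univ.filter (fun z => (1 : Fin 4) ∈ ℓ z))
      (univ.filter (fun z => (2 : Fin 4) ∈ ℓ z)) = ℓ := by
  funext z
  ext y
  have hz := h z
  simp only [mk, Finset.mem_filter, Finset.mem_univ, true_and]
  constructor
  · rintro (⟨rfl, h⟩ | ⟨rfl, h⟩ | ⟨rfl, h⟩) <;> exact h
  · intro hy
    have h4 : y = 0 ∨ y = 1 ∨ y = 2 ∨ y = 3 := by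
      revert y
      intro y _
      fin_cases y <;> simp
    rcases h4 with rfl | rfl | rfl | rfl
    · exact Or.inl ⟨rfl, hy⟩
    · exact Or.inr (Or.inl ⟨rfl, hy⟩)
    · exact Or.inr (Or.inr ⟨rfl, hy⟩)
    · exact absurd hy hz

end HTripleAux

open HTripleAux in
theorem hTriple_proof : HTriple := by
  intro V _ w Θ
  have e : ∑ S : Finset V, ∑ T : Finset V, ∑ J : Finset V,
      gw w S * gw w T * gw w J * Θ S T J =
      ∑ p : Finset V × Finset V × Finset V,
        gw w p.1 * gw w p.2.1 * gw w p.2.2 * Θ p.1 p.2.1 p.2.2 := by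
    rw [Fintype.sum_prod_type]
    refine Finset.sum_congr rfl fun S _ => ?_
    rw [Fintype.sum_prod_type]
  rw [e]
  refine Finset.sum_bij'
    (fun ℓ _ => (univ.filter (fun z => (0 : Fin 4) ∈ ℓ z), univ.filter (fun z => (1 : Fin 4) ∈ ℓ z),
      univ.filter (fun z => (2 : Fin 4) ∈ ℓ z)))
    (fun p _ => mk p.1 p.2.1 p.2.2) ?_ ?_ ?_ ?_ ?_
  · intro ℓ _
    exact Finset.mem_univ _
  · intro p _
    rw [Finset.mem_filter]
    exact ⟨Finset.mem_univ _, mk3 _ _ _⟩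
  · intro ℓ hℓ
    exact mk_inv ℓ (Finset.mem_filter.mp hℓ).2
  · intro p _
    obtain ⟨S, T, J⟩ := p
    simp only [mk0, mk1, mk2]
  · intro ℓ hℓ
    rw [prod_eq w ℓ (Finset.mem_filter.mp hℓ).2]

end Pool.Agent.H26
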