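import Pool.Agent.Lib.MP_26a019_lc.Ex.g_Thin
import Pool.Agent.Lib.MP_26a019_lc.Ex.HThree
import Pool.Agent.Lib.MP_26a019_lc.Ex.HProper
import Pool.Agent.Lib.MP_26a019_lc.Ex.HPsi
import Pool.Agent.Lib.MP_26a019_lc.Ex.HPat
import Pool.Agent.Lib.MP_26a019_lc.Ex.HTriple
import Pool.Agent.Lib.MP_26a019_lc.Ex.HAsm

set_option autoImplicit false

/-!
# The three-replica inequality
-/

namespace Pool.Agent.H26

open Pool.Agent.Gas26

/-- the three-replica inequality in state form -/
theorem hineq (V : Type) [Fintype V] : Hineq V :=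
  hAsm_proof s_Thin hThree_proof hProper_proof hPsi_proof hPat_proof hTriple_proof V

end Pool.Agent.H26
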