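import Pool.Agent.Lib.MP_26a019_lc.Ex.LocSpec

set_option autoImplicit false
set_option linter.unusedVariables false

/-! # AdmP: the first moment bound for the gases of colourings (MP_26a019_lc) -/

open Finset Classical

namespace Pool.Agent.Loc26

open Pool.Agent.Kempe Pool.Agent.KempeMix Pool.Agent.Eps26 Pool.Agent.Gas26
open Pool.Agent.Ex26 (rst ev2 cl)

/-- choice of the deleted colours -/
theorem l_AdmP_choice {V C : Type} [Fintype V] [Fintype C] (G : SimpleGraph V) (U : Finset V)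
    (L : V → Finset C) (s n0 : ℕ) (hG : Good G U L s) (hn : n0 ≤ s) (u : V) :
    ∃ D : Finset C, D ⊆ L u ∧ D.card ≤ n0 ∧ (u ∈ U → D.card = n0) := by
  by_cases hu : u ∈ U
  · have h1 := hG.2 u hu
    obtain ⟨D, hD1, hD2⟩ := Finset.exists_subset_card_eq (s := L u) (n := n0) (by omega)
    exact ⟨D, hD1, hD2.le, fun _ => hD2⟩
  · exact ⟨∅, Finset.empty_subset _, by simp, fun h => absurd h hu⟩

theorem s_AdmP (h1 : SumC) (h2 : Cheb) : AdmP := by
  intro hH ε hε hε1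
  have hc1 : 0 < Real.exp (-(2 / ε)) := Real.exp_pos _
  have hc1' : Real.exp (-(2 / ε)) ≤ 1 := by
    rw [Real.exp_le_one_iff]
    have : 0 < 2 / ε := by positivity
    linarith
  obtain ⟨c1, hc1d⟩ : ∃ c1 : ℝ, c1 = Real.exp (-(2 / ε)) := ⟨_, rfl⟩
  rw [← hc1d] at hc1 hc1'
  obtain ⟨γ, hγd⟩ : ∃ γ : ℝ, γ = ε ^ 2 / 8 := ⟨_, rfl⟩
  have hγ : 0 < γ := by rw [hγd]; positivity
  have hε2 : ε ^ 2 ≤ 1 := by nlinarith
  have hγ1 : γ ≤ 1 / 8 := by rw [hγd]; linarith
  obtain ⟨δ, hδd⟩ : ∃ δ : ℝ, δ = c1 * γ / 8 := ⟨_, rfl⟩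
  obtain ⟨τ, hτd⟩ : ∃ τ : ℝ, τ = c1 * γ / 4 := ⟨_, rfl⟩
  have hδ : 0 < δ := by rw [hδd]; positivity
  have hτ : 0 < τ := by rw [hτd]; positivity
  have hcγ : c1 * γ ≤ 1 := by nlinarith
  refine ⟨δ, hδ, by rw [hδd]; linarith, ?_⟩
  intro P hP
  have hτ2 : 0 < τ ^ 2 := by positivity
  refine ⟨⌈8 / ε + 2 / γ + 8 * (P / τ ^ 2) / ε⌉₊ + 1, ?_⟩
  intro V C _ _ G U L p s hq0 hqs hG hPoin c
  obtain ⟨q, hqd⟩ : ∃ q : ℝ, q = (Fintype.card C : ℝ) := ⟨_, rfl⟩
  rw [← hqd] at hqs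
  have hq1 : 8 / ε + 2 / γ + 8 * (P / τ ^ 2) / ε ≤ q := by
    rw [hqd]
    have h3 := Nat.le_ceil (8 / ε + 2 / γ + 8 * (P / τ ^ 2) / ε)
    have h4 : ((⌈8 / ε + 2 / γ + 8 * (P / τ ^ 2) / ε⌉₊ + 1 : ℕ) : ℝ) ≤ (Fintype.card C : ℝ) := by
      exact_mod_cast hq0
    push_cast at h4
    linarith
  have hP2 : 0 < P / τ ^ 2 := by positivity
  have ha : 0 < 8 / ε := by positivity
  have hb : 0 < 2 / γ := by positivity
  have hc : 0 < 8 * (P / τ ^ 2) / ε := by positivity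
  have hq : 0 < q := by linarith
  have hs8 : (8 : ℝ) ≤ s := by
    have h3 : 8 / ε ≤ q := by linarith
    rw [div_le_iff₀ hε] at h3
    linarith
  have hγq : 2 ≤ γ * q := by
    have h3 : 2 / γ ≤ q := by linarith
    rw [div_le_iff₀ hγ] at h3
    linarith
  have hPs : P / τ ^ 2 ≤ s / 8 := by
    have h3 : 8 * (P / τ ^ 2) / ε ≤ q := by linarith
    rw [div_le_iff₀ hε] at h3
    linarith
  have hspos : (0 : ℝ) < s := by linarith
  -- the number of deleted colours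
  obtain ⟨n0, hn0⟩ : ∃ n0 : ℕ, n0 = ⌊γ * q⌋₊ := ⟨_, rfl⟩
  have hn0le : (n0 : ℝ) ≤ γ * q := by
    rw [hn0]; exact Nat.floor_le (by positivity)
  have hn0ge : γ * q / 2 ≤ (n0 : ℝ) := by
    have := Nat.lt_floor_add_one (γ * q)
    rw [← hn0] at this
    linarith
  have hγs : γ * q * q ≤ s * s / 8 := by
    have h3 : (ε * q) * (ε * q) ≤ (s : ℝ) * s := mul_le_mul hqs hqs (by positivity) hspos.le
    rw [hγd]
    nlinarith
  have hγs1 : γ * q ≤ s / 8 := by
    have h3 : γ * q = ε * (ε * q) / 8 := by rw [hγd]; ring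
    have h4 : ε * (ε * q) ≤ 1 * s := mul_le_mul hε1 hqs (by positivity) zero_le_one
    rw [h3]
    linarith
  have hn0s : n0 + 2 ≤ s := by
    have : (n0 : ℝ) + 2 ≤ s := by linarith
    exact_mod_cast this
  choose Dl hDl1 hDl2 hDl3 using l_AdmP_choice G U L s n0 hG (by omega)
  have hDs : ∀ u ∈ U, (Dl u).card + 2 ≤ s := fun u hu => by
    have := hDl2 u
    omega
  intro x y hx hy hxy
  have hκU : ∀ v, 0 < cap G U L p c δ v → v ∈ U := by
    intro v hv
    unfold cap at hv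
    by_contra hvU
    rw [if_neg (fun h => hvU h.1)] at hv
    exact lt_irrefl _ hv
  have hs3 : 3 ≤ s := by
    have : (3 : ℝ) ≤ s := by linarith
    exact_mod_cast this
  have hS := h1 hH V C G U L p s Dl (cap G U L p c δ) x y hs3 hG hDs hx hy hxy hκU
  have hx0 : ∀ v, 0 ≤ x v := fun v => (hx v).1
  have hy0 : ∀ v, 0 ≤ y v := fun v => (hy v).1
  have hmain : KF (rst G U) x y (fun _ => (s : ℝ) / 2 * 1) ≤ ((DD x y).card : ℝ) := by
    refine le_trans (KF_mono_supp hx0 hy0 ?_) hS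
    intro u hu
    have hκ : 0 < cap G U L p c δ u := by
      rcases hu with hu | hu
      · exact lt_of_lt_of_le (lt_of_le_of_ne (hx u).1 (Ne.symm hu)) (hx u).2
      · exact lt_of_lt_of_le (lt_of_le_of_ne (hy u).1 (Ne.symm hu)) (hy u).2
    have huU : u ∈ U := hκU u hκ
    have hcap : 1 / cap G U L p c δ u = bt G U L p u / (1 + δ) := by
      unfold cap at hκ ⊢
      by_cases hcl : u ∈ U ∧ c ∈ L u
      · rw [if_pos hcl, one_div_div]
      · rw [if_neg hcl] at hκ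
        exact absurd hκ (lt_irrefl _)
    have hDc : (Dl u).card = n0 := hDl3 u huU
    have hCh := h2 V C G U L p s ε δ τ P hε hδ.le hτ hP hs3 (by rw [← hqd]; exact hqs) hG hPoin u
      huU (Dl u) (hDl1 u) (by
        rw [← hqd, ← hc1d, hDc, hτd, hδd]
        have : c1 * (γ * q / 2) ≤ c1 * n0 := mul_le_mul_of_nonneg_left hn0ge hc1.le
        nlinarith [mul_pos (mul_pos hc1 hγ) hq])
    rw [hcap, hDc, ← hqd]
    rw [← hqd] at hCh
    have hL : ((nb G U u).card : ℝ) + s ≤ ((L u).card : ℝ) := by exact_mod_cast hG.2 u huU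
    have e1 : q * (n0 : ℝ) / s ≤ s / 8 := by
      rw [div_le_iff₀ hspos]
      have : q * (n0 : ℝ) ≤ q * (γ * q) := mul_le_mul_of_nonneg_left hn0le hq.le
      nlinarith
    have e2 : q * ev (Col G U L p) (fun f => if bt G U L p u / (1 + δ) <
        ((av G U L f u \ Dl u).card : ℝ) then 1 else 0) ≤ s / 8 := by
      refine le_trans (mul_le_mul_of_nonneg_left hCh hq.le) ?_
      have : q * (P / (τ ^ 2 * q)) = P / τ ^ 2 := by field_simp
      rw [this]
      exact hPs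
    linarith
  rw [KF_mul_left, KF_one] at hmain
  have hE : 0 ≤ E2 (rst G U) x y (fun a b => ((Ks (rst G U) a b (DD x y)).card : ℝ)) := by
    rw [← KF_one]
    exact KF_nonneg hx0 hy0 (fun _ => zero_le_one)
  rw [← hqd]
  have hsD : E2 (rst G U) x y (fun a b => ((Ks (rst G U) a b (DD x y)).card : ℝ)) ≤
      2 / s * ((DD x y).card : ℝ) := by
    rw [div_mul_eq_mul_div, le_div_iff₀ hspos]
    linarith
  refine le_trans hsD (mul_le_mul_of_nonneg_right ?_ (Nat.cast_nonneg _))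
  rw [div_div]
  exact div_le_div_of_nonneg_left (by norm_num) (by positivity) hqs

end Pool.Agent.Loc26
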