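import Pool.Agent.Lib.MP_26a019_lc.Ex.LocSpec

set_option autoImplicit false

/-!
# The three replica inequality, averaged over the colourings without one colour
-/

open Finset Classical

namespace Pool.Agent.Loc26

open Pool.Agent.Kempe Pool.Agent.KempeMix Pool.Agent.Eps26 Pool.Agent.Gas26
open Pool.Agent.Ex26 (rst ev2 cl)

theorem l_AvC_rep (h : Ext) (V C : Type) [Fintype V] [Fintype C] (G : SimpleGraph V)
    (U : Finset V) (L : V → Finset C) (p : V → C) (s : ℕ) (c : C) (Dl : V → Finset C)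
    (hG : Good G U L s) (hD : ∀ u ∈ U, (Dl u).card + 2 ≤ s) (Φ : Finset V → ℝ) :
    ev (Col G U L p) (fun f => Φ (Ic U c f)) =
      ms G U L p c Dl (fun σ => Eg (rst G U) (wD G U L c Dl σ) Φ) := by
  rw [h V C G U L p s c Dl hG hD (fun f => Φ (Ic U c f))]
  refine ms_congr fun σ hσ => Eg_congr fun S _ hS => ?_
  have := Ic_rc hσ (S := S) (fun v hv => (of_wD hS v hv).1)
  simp only [this]

/-- **AvC** -/
theorem s_AvC (h : Ext) : AvC := by
  intro hH V C _ _ G U L p s c Dl κ x y hG hD hx hy hp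
  have hx0 : ∀ v, 0 ≤ x v := fun v => (hx v).1
  have hy0 : ∀ v, 0 ≤ y v := fun v => (hy v).1
  -- the inequality for one colouring
  have key : ∀ σ : V → C,
      KF (rst G U) x y (fun u => (if u ∈ U ∧ c ∈ L u ∧ σ u ∉ Dl u ∧ 0 < κ u ∧
        κ u * Bn G U L c Dl σ u ≤ 1 then 1 else 0) -
        Eg (rst G U) (wD G U L c Dl σ) (fun S => ((cn (rst G U) u ∩ S).card : ℝ))) ≤
      Eg (rst G U) (wD G U L c Dl σ) (fun S => ((S ∩ DD x y).card : ℝ)) := by
    intro σ
    have h1 := gHJ V (hH V) (rst G U) x y κ (wD G U L c Dl σ)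
      (univ.filter (fun u => u ∈ U ∧ c ∈ L u ∧ σ u ∉ Dl u ∧ 0 < κ u ∧
        κ u * Bn G U L c Dl σ u ≤ 1)) hx0 hy0 wD_nonneg hp (by
        intro v hv
        obtain ⟨hU, hc, hDv, hk, hB⟩ := (Finset.mem_filter.1 hv).2
        have hBn : 1 ≤ Bn G U L c Dl σ v := Bn_pos hG hU (hD v hU)
        refine ⟨hk, ?_, (hx v).2, (hy v).2⟩
        unfold wD
        rw [if_pos ⟨hU, hc, hDv⟩, le_div_iff₀ (by linarith)]
        exact hB)
    simpa only [Finset.mem_filter, Finset.mem_univ, true_and] using h1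
  rw [l_AvC_rep h V C G U L p s c Dl hG hD (fun S => ((S ∩ DD x y).card : ℝ))]
  have hcn : ∀ u : V, ev (Col G U L p) (fun f => ((cn (rst G U) u ∩ Ic U c f).card : ℝ)) =
      ms G U L p c Dl (fun σ => Eg (rst G U) (wD G U L c Dl σ)
        (fun S => ((cn (rst G U) u ∩ S).card : ℝ))) := fun u =>
    l_AvC_rep h V C G U L p s c Dl hG hD (fun S => ((cn (rst G U) u ∩ S).card : ℝ))
  have hm := ms_mono (G := G) (U := U) (L := L) (p := p) (c := c) (Dl := Dl)
    (fun σ (_ : σ ∈ Col G U (Lc L c) p) => key σ)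
  refine le_trans (le_of_eq ?_) hm
  simp only [KF_eq_sum]
  rw [ms_sum]
  refine Finset.sum_congr rfl fun u _ => ?_
  rw [hcn u, ← ms_sub, mul_comm, ← ms_mul_left]
  refine ms_congr fun σ _ => ?_
  ring

end Pool.Agent.Loc26
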