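import Pool.Agent.Lib.MP_26a019_lc.Ex.LocSpec

set_option autoImplicit false
set_option linter.unusedVariables false

/-!
# Part AB, colourings: activities are close to `1/β` with high probability
-/

open Finset Classical

namespace Pool.Agent.Loc26

open Pool.Agent.Kempe Pool.Agent.KempeMix Pool.Agent.Eps26 Pool.Agent.Gas26
open Pool.Agent.Ex26 (rst ev2 cl)

section l_Bad_aux

variable {V C : Type} [Fintype V] [Fintype C]

/-- the numbers of available colours for `σ` and for `rc σ S c` -/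
theorem l_Bad_count {G : SimpleGraph V} {U : Finset V} {L : V → Finset C} {p : V → C} {c : C}
    {σ : V → C} (hσ : σ ∈ Col G U (Lc L c) p) {S : Finset V} (hS : ∀ u ∈ S, u ∈ U) (v : V) :
    Bn G U L c (fun _ => ∅) σ v ≤ ((av G U L (rc σ S c) v).card : ℝ) ∧
    ((av G U L (rc σ S c) v).card : ℝ) ≤ Bn G U L c (fun _ => ∅) σ v + 1 +
      ((nb G U v ∩ Ic U c (rc σ S c)).card : ℝ) := by
  have hrc1 : ∀ u ∈ S, rc σ S c u = c := fun u hu => by unfold rc; rw [if_pos hu]
  have hrc0 : ∀ u, u ∉ S → rc σ S c u = σ u := fun u hu => by unfold rc; rw [if_neg hu]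
  unfold Bn
  rw [Finset.sdiff_empty, Ic_rc hσ hS]
  constructor
  · have h1 : av G U (Lc L c) σ v ⊆ av G U L (rc σ S c) v := by
      intro a ha
      rw [mem_av] at ha ⊢
      obtain ⟨h1, h2⟩ := ha
      unfold Lc at h1
      rw [Finset.mem_erase] at h1
      refine ⟨h1.2, fun u hu => ?_⟩
      by_cases huS : u ∈ S
      · rw [hrc1 u huS]; exact h1.1.symm
      · rw [hrc0 u huS]; exact h2 u hu
    exact_mod_cast Finset.card_le_card h1
  · have h1 : av G U L (rc σ S c) v ⊆
        (av G U (Lc L c) σ v ∪ {c}) ∪ (nb G U v ∩ S).image σ := by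
      intro a ha
      rw [mem_av] at ha
      obtain ⟨h1, h2⟩ := ha
      rw [Finset.mem_union, Finset.mem_union, Finset.mem_singleton, Finset.mem_image]
      by_cases hac : a = c
      · exact Or.inl (Or.inr hac)
      by_cases hav : a ∈ av G U (Lc L c) σ v
      · exact Or.inl (Or.inl hav)
      right
      rw [mem_av] at hav
      push Not at hav
      obtain ⟨u, hu, hua⟩ := hav (Finset.mem_erase.2 ⟨hac, h1⟩)
      refine ⟨u, Finset.mem_inter.2 ⟨hu, ?_⟩, hua⟩
      by_contra huS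
      exact h2 u hu (by rw [hrc0 u huS]; exact hua)
    have h2 := Finset.card_le_card h1
    have h3 := Finset.card_union_le (av G U (Lc L c) σ v ∪ {c}) ((nb G U v ∩ S).image σ)
    have h4 := Finset.card_union_le (av G U (Lc L c) σ v) {c}
    have h5 : ((nb G U v ∩ S).image σ).card ≤ (nb G U v ∩ S).card := Finset.card_image_le
    rw [Finset.card_singleton] at h4
    exact_mod_cast (by omega : (av G U L (rc σ S c) v).card ≤
      (av G U (Lc L c) σ v).card + 1 + (nb G U v ∩ S).card)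

/-- the mean number of neighbours of colour `c` -/
theorem l_Bad_mean {G : SimpleGraph V} {U : Finset V} {L : V → Finset C} {s : ℕ} {p : V → C}
    (hG : Good G U L s) {ε : ℝ} (hε : 0 < ε) (hs : ε * (Fintype.card C : ℝ) ≤ s) (c : C) {v : V}
    (hv : v ∈ U) :
    ev (Col G U L p) (fun f => ((nb G U v ∩ Ic U c f).card : ℝ)) ≤ 1 / ε := by
  have h1 : ∀ f ∈ Col G U L p, ((nb G U v ∩ Ic U c f).card : ℝ) =
      ∑ w ∈ nb G U v, (if f w = c then (1 : ℝ) else 0) := by
    intro f _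
    rw [Finset.sum_boole]
    congr 2
    ext w
    rw [Finset.mem_inter, Finset.mem_filter, mem_Ic]
    constructor
    · rintro ⟨a, b⟩; exact ⟨a, b.2⟩
    · rintro ⟨a, b⟩; exact ⟨a, (mem_nb.1 a).1, b⟩
  have hs2 : (2 : ℝ) ≤ s := by exact_mod_cast hG.1
  have hs0 : (0 : ℝ) < s := by linarith
  rw [ev_congr _ h1, ev_sum]
  have h2 : ∀ w ∈ nb G U v, ev (Col G U L p) (fun f => if f w = c then (1 : ℝ) else 0) ≤
      1 / (s : ℝ) := fun w hw => mg_le hG p (mem_nb.1 hw).1 c
  refine (Finset.sum_le_sum h2).trans ?_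
  rw [Finset.sum_const, nsmul_eq_mul]
  have h3 : ((nb G U v).card : ℝ) ≤ (Fintype.card C : ℝ) := by
    have := card_nb_le_card hG hv
    exact_mod_cast (by omega : (nb G U v).card ≤ Fintype.card C)
  rw [mul_one_div, div_le_div_iff₀ hs0 hε]
  calc ((nb G U v).card : ℝ) * ε ≤ (Fintype.card C : ℝ) * ε :=
        mul_le_mul_of_nonneg_right h3 hε.le
    _ = ε * (Fintype.card C : ℝ) := mul_comm _ _
    _ ≤ 1 * (s : ℝ) := by rw [one_mul]; exact hs

/-- numerical part -/
theorem l_Bad_num {B β g1 g2 m2 t q δ ε : ℝ} (hβ : 0 < β) (hB : 0 < B)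
    (hBs : ε * q / 2 ≤ B) (hδ : 0 < δ) (h1 : B ≤ g1) (h2 : g1 ≤ B + 1 + g2) (hm : m2 ≤ 1 / ε)
    (ht : t = δ * ε / 8) (hq : 1 + 1 / ε ≤ δ * ε * q / 4)
    (hbad : δ / β < |1 / B - 1 / β|) : t * q ≤ |g1 - β| ∨ t * q ≤ |g2 - m2| := by
  by_contra hcon
  push Not at hcon
  obtain ⟨ha, hb⟩ := hcon
  have h3 : |1 / B - 1 / β| = |β - B| / (B * β) := by
    have : 1 / B - 1 / β = (β - B) / (B * β) := by field_simp
    rw [this, abs_div, abs_of_pos (mul_pos hB hβ)]
  rw [h3, div_lt_div_iff₀ hβ (mul_pos hB hβ)] at hbad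
  have h4 : δ * B < |β - B| := by
    have : (δ * B) * β < |β - B| * β := by nlinarith
    exact lt_of_mul_lt_mul_right this hβ.le
  have h5 : |β - B| ≤ |g1 - β| + (g1 - B) := by
    have := abs_sub_le β g1 B
    rw [abs_sub_comm β g1, abs_of_nonneg (sub_nonneg.2 h1)] at this
    exact this
  have h6 := (abs_lt.1 hb).2
  have h7 : δ * (ε * q / 2) ≤ δ * B := mul_le_mul_of_nonneg_left hBs hδ.le
  subst ht
  nlinarith

end l_Bad_aux

/-- **Bad** -/
theorem s_Bad (h1 : Ext) (h2 : LLav) (h3 : TailG) : Bad := by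
  intro ε P δ a hε hP hδ
  obtain ⟨K, hK, hT⟩ := h3 P (δ * ε / 8) a hP (by positivity)
  refine ⟨2 * K, ⌈4 * (1 + 1 / ε) / (δ * ε)⌉₊, by positivity, ?_⟩
  intro V C _ _ G U L p s hq hs hG hPoin c v hv hcv
  have hq' : 4 * (1 + 1 / ε) / (δ * ε) ≤ (Fintype.card C : ℝ) :=
    (Nat.le_ceil _).trans (by exact_mod_cast hq)
  have hqq : 1 + 1 / ε ≤ δ * ε * (Fintype.card C : ℝ) / 4 := by
    rw [div_le_iff₀ (by positivity)] at hq'
    linarith
  have hs2 : (2 : ℝ) ≤ s := by exact_mod_cast hG.1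
  have hL1 : LL G U v (fun f => ((av G U L f v).card : ℝ)) := by
    have := (h2 V C G U L v ∅ c).1
    simpa only [Finset.sdiff_empty] using this
  have hL2 := (h2 V C G U L v ∅ c).2
  have hD : ∀ u ∈ U, ((fun _ => (∅ : Finset C)) u).card + 2 ≤ s := fun u _ => by
    simpa using hG.1
  have t1 := hT V C G U L p s hG hPoin v hv _ hL1
  have t2 := hT V C G U L p s hG hPoin v hv _ hL2
  have hβ : 0 < bt G U L p v := lt_of_lt_of_le (by linarith) (bt_ge hG hv)
  have hext := h1 V C G U L p s c (fun _ => ∅) hG hD (fun f =>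
    (if δ * ε / 8 * (Fintype.card C : ℝ) ≤ |((av G U L f v).card : ℝ) -
      ev (Col G U L p) (fun f => ((av G U L f v).card : ℝ))| then (1 : ℝ) else 0) +
    (if δ * ε / 8 * (Fintype.card C : ℝ) ≤ |((nb G U v ∩ Ic U c f).card : ℝ) -
      ev (Col G U L p) (fun f => ((nb G U v ∩ Ic U c f).card : ℝ))| then (1 : ℝ) else 0))
  rw [ev_add] at hext
  have hfin : 2 * K / (Fintype.card C : ℝ) ^ a = K / (Fintype.card C : ℝ) ^ a +
      K / (Fintype.card C : ℝ) ^ a := by ring
  rw [hfin]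
  refine le_trans ?_ (add_le_add t1 t2)
  rw [hext]
  refine ms_mono fun σ hσ => ?_
  split_ifs with hbad
  · have hwv : wD G U L c (fun _ => ∅) σ v = 1 / Bn G U L c (fun _ => ∅) σ v := by
      unfold wD
      rw [if_pos ⟨hv, hcv, Finset.notMem_empty _⟩]
    rw [hwv] at hbad
    have hB1 := Bn_pos (σ := σ) (c := c) (Dl := fun _ => (∅ : Finset C)) hG hv (hD v hv)
    have hB2 := Bn_ge (σ := σ) (c := c) (Dl := fun _ => (∅ : Finset C)) hG hv
      (by rw [Finset.card_empty]; have := hG.1; omega)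
    simp only [Finset.card_empty, Nat.cast_zero, sub_zero] at hB2
    refine (Eg_const (G := rst G U) (z := wD G U L c (fun _ => ∅) σ) wD_nonneg
      (1 : ℝ)).symm.le.trans ?_
    refine Eg_mono wD_nonneg fun S hS hw => ?_
    have hSU : ∀ u ∈ S, u ∈ U := fun u hu => (of_wD hw u hu).1
    obtain ⟨c1, c2⟩ := l_Bad_count hσ hSU v
    have key := l_Bad_num (B := Bn G U L c (fun _ => ∅) σ v) (β := bt G U L p v)
      (g1 := ((av G U L (rc σ S c) v).card : ℝ))
      (g2 := ((nb G U v ∩ Ic U c (rc σ S c)).card : ℝ))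
      (m2 := ev (Col G U L p) (fun f => ((nb G U v ∩ Ic U c f).card : ℝ)))
      (t := δ * ε / 8) (q := (Fintype.card C : ℝ)) (δ := δ) (ε := ε) hβ (by linarith)
      (by linarith) hδ c1 c2 (l_Bad_mean hG hε hs c hv) rfl hqq hbad
    have e1 : (0 : ℝ) ≤ (if δ * ε / 8 * (Fintype.card C : ℝ) ≤
        |((av G U L (rc σ S c) v).card : ℝ) -
          ev (Col G U L p) (fun f => ((av G U L f v).card : ℝ))| then (1 : ℝ) else 0) := by
      split_ifs <;> norm_num
    have e2 : (0 : ℝ) ≤ (if δ * ε / 8 * (Fintype.card C : ℝ) ≤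
        |((nb G U v ∩ Ic U c (rc σ S c)).card : ℝ) -
          ev (Col G U L p) (fun f => ((nb G U v ∩ Ic U c f).card : ℝ))| then (1 : ℝ) else 0) := by
      split_ifs <;> norm_num
    rcases key with hk | hk
    · have hk' : δ * ε / 8 * (Fintype.card C : ℝ) ≤ |((av G U L (rc σ S c) v).card : ℝ) -
          ev (Col G U L p) (fun f => ((av G U L f v).card : ℝ))| := hk
      rw [if_pos hk']
      linarith
    · rw [if_pos hk]
      linarith
  · refine Eg_nonneg wD_nonneg fun S _ _ => ?_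
    refine add_nonneg ?_ ?_
    · split_ifs <;> norm_num
    · split_ifs <;> norm_num

end Pool.Agent.Loc26
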