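import Pool.Agent.Lib.MP_26a019_lc.Ex.LocSpec

set_option autoImplicit false

/-!
# Balls and levels
-/

open Finset Classical

namespace Pool.Agent.Loc26

open Pool.Agent.Kempe Pool.Agent.KempeMix Pool.Agent.Eps26 Pool.Agent.Gas26
open Pool.Agent.Ex26 (rst ev2)

theorem l_Ball_mem {V : Type} [Fintype V] {G : SimpleGraph V} {X : Finset V} {v w : V}
    (hv : v ∈ X) (hw : w ∈ cn G v) : w ∈ CN G X := by
  unfold CN
  exact Finset.mem_biUnion.2 ⟨v, hv, hw⟩

theorem l_Ball_sub {V : Type} [Fintype V] {G : SimpleGraph V} (X : Finset V) : X ⊆ CN G X :=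
  fun _ hv => l_Ball_mem hv (self_mem_cn _)

theorem l_Ball_mono {V : Type} [Fintype V] {G : SimpleGraph V} {k : Finset V} {i j : ℕ}
    (h : i ≤ j) : Bl G k i ⊆ Bl G k j := by
  induction h with
  | refl => exact Finset.Subset.refl _
  | step _ ih => exact ih.trans (l_Ball_sub _)

theorem l_Ball_card {V : Type} [Fintype V] {G : SimpleGraph V} {q : ℝ}
    (hc : ∀ v, ((cn G v).card : ℝ) ≤ q) (X : Finset V) :
    ((CN G X).card : ℝ) ≤ q * (X.card : ℝ) := by
  have h1 : ((CN G X).card : ℝ) ≤ ∑ v ∈ X, ((cn G v).card : ℝ) := by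
    unfold CN
    exact_mod_cast Finset.card_biUnion_le
  refine h1.trans ?_
  calc ∑ v ∈ X, ((cn G v).card : ℝ) ≤ ∑ _v ∈ X, q := Finset.sum_le_sum fun v _ => hc v
    _ = q * (X.card : ℝ) := by rw [Finset.sum_const, nsmul_eq_mul, mul_comm]

theorem l_Ball_lv {V : Type} [Fintype V] {G : SimpleGraph V} {k : Finset V} {n i : ℕ}
    (hi : i < n) (v : V) : lv G k n v ≤ i ↔ v ∈ Bl G k i := by
  constructor
  · intro h
    by_contra hv
    have hsub : Finset.range (i + 1) ⊆ (Finset.range n).filter (fun j => v ∉ Bl G k j) := by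
      intro j hj
      rw [Finset.mem_range] at hj
      rw [Finset.mem_filter, Finset.mem_range]
      exact ⟨by omega, fun hvj => hv (l_Ball_mono (by omega) hvj)⟩
    have := Finset.card_le_card hsub
    rw [Finset.card_range] at this
    unfold lv at h
    omega
  · intro h
    have hsub : (Finset.range n).filter (fun j => v ∉ Bl G k j) ⊆ Finset.range i := by
      intro j hj
      rw [Finset.mem_filter] at hj
      rw [Finset.mem_range]
      by_contra hij
      exact hj.2 (l_Ball_mono (by omega) h)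
    have := Finset.card_le_card hsub
    rw [Finset.card_range] at this
    exact this

theorem l_Ball_lv_le {V : Type} [Fintype V] {G : SimpleGraph V} {k : Finset V} {n : ℕ} (v : V) :
    lv G k n v ≤ n := by
  unfold lv
  exact (Finset.card_filter_le _ _).trans (by rw [Finset.card_range])

theorem s_Ball : Ball := by
  intro V _ G k n q hq hc
  have hstep : ∀ i v w, v ∈ Bl G k i → w ∈ cn G v → w ∈ Bl G k (i + 1) := fun i v w hv hw =>
    l_Ball_mem hv hw
  refine ⟨?_, ?_, fun i hi v => l_Ball_lv hi v, ?_, fun i j h => l_Ball_mono h, hstep⟩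
  · intro u w hadj
    by_cases h : lv G k n u + 1 < n
    · rw [l_Ball_lv h]
      refine hstep _ u w ?_ (mem_cn.2 (Or.inr hadj))
      exact (l_Ball_lv (by omega) u).1 le_rfl
    · exact (l_Ball_lv_le w).trans (by omega)
  · intro v hv
    unfold lv
    rw [Finset.card_eq_zero, Finset.filter_eq_empty_iff]
    intro i _ hvi
    exact hvi (l_Ball_mono (Nat.zero_le i) hv)
  · intro i
    induction i with
    | zero =>
      rw [zero_add, pow_one]
      exact l_Ball_card hc k
    | succ i ih =>
      refine (l_Ball_card hc (Bl G k i)).trans ?_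
      calc q * ((Bl G k i).card : ℝ) ≤ q * (q ^ (i + 1) * (k.card : ℝ)) :=
            mul_le_mul_of_nonneg_left ih hq
        _ = q ^ (i + 1 + 1) * (k.card : ℝ) := by ring

end Pool.Agent.Loc26
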