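import Pool.Agent.Lib.MP_26a019_lc.Ex.LocSpec

set_option autoImplicit false
set_option linter.unusedVariables false

/-!
# Chebyshev bound for the number of available colours outside a set
-/

open Finset Classical

namespace Pool.Agent.Loc26

open Pool.Agent.Kempe Pool.Agent.KempeMix Pool.Agent.Eps26 Pool.Agent.Gas26
open Pool.Agent.Ex26 (rst ev2 cl)

theorem l_Cheb_card {C : Type} (S D : Finset C) :
    ((S \ D).card : ℝ) = (S.card : ℝ) - ∑ a ∈ D, (if a ∈ S then (1 : ℝ) else 0) := by
  have h1 : ∑ a ∈ D, (if a ∈ S then (1 : ℝ) else 0) = ((D ∩ S).card : ℝ) := by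
    rw [← Finset.sum_filter, Finset.sum_const, nsmul_eq_mul, mul_one, Finset.filter_mem_eq_inter]
  have h2 : (S \ D).card + (D ∩ S).card = S.card := by
    rw [Finset.inter_comm]
    exact Finset.card_sdiff_add_card_inter S D
  have h3 : ((S \ D).card : ℝ) + ((D ∩ S).card : ℝ) = (S.card : ℝ) := by exact_mod_cast h2
  rw [h1]
  linarith

theorem s_Cheb (h1 : LLav) (h2 : DirL) (h3 : Low) : Cheb := by
  intro V C _ _ G U L p s ε δ τ P hε hδ hτ hP hs hεs hG hPoin u hu D hD hτD
  have hA : (Col G U L p).Nonempty := Col_nonempty hG p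
  set q : ℝ := (Fintype.card C : ℝ) with hq
  have hq0 : 0 < q := by
    have k1 := hG.2 u hu
    have k2 := card_L_le (L := L) u
    have k3 : 0 < Fintype.card C := by omega
    rw [hq]
    exact_mod_cast k3
  set g : (V → C) → ℝ := fun f => ((av G U L f u \ D).card : ℝ) with hg
  -- the variance
  have hLL : LL G U u g := by
    by_cases hC : Nonempty C
    · obtain ⟨c⟩ := hC
      exact (h1 V C G U L u D c).1
    · exfalso
      have : Fintype.card C = 0 := Fintype.card_eq_zero_iff.2 (not_nonempty_iff.1 hC)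
      rw [hq, this] at hq0
      simp at hq0
  have hdir : dir G U L p g ≤ q := by
    have h := h2 V C G U L p s hG u hu g hLL 1 le_rfl
    simp only [pow_one, Nat.cast_one, one_pow, one_mul, Nat.sub_self, mul_zero, pow_zero] at h
    rw [ev_const hA, mul_one] at h
    exact h
  have hvr : vr (Col G U L p) g ≤ P * q :=
    (hPoin g).trans (mul_le_mul_of_nonneg_left hdir hP.le)
  -- the mean
  have hev : ev (Col G U L p) g ≤ bt G U L p u - Real.exp (-(2 / ε)) * (D.card : ℝ) := by
    have e1 : ev (Col G U L p) g = ev (Col G U L p) (fun f => ((av G U L f u).card : ℝ) -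
        ∑ a ∈ D, (if a ∈ av G U L f u then (1 : ℝ) else 0)) :=
      ev_congr _ fun f _ => l_Cheb_card _ _
    rw [e1, ev_sub, ev_sum]
    have e2 : ∑ a ∈ D, Real.exp (-(2 / ε)) ≤
        ∑ a ∈ D, ev (Col G U L p) (fun f => if a ∈ av G U L f u then (1 : ℝ) else 0) :=
      Finset.sum_le_sum fun a ha => h3 V C G U L p s ε hε hs hεs hG u hu a (hD ha)
    rw [Finset.sum_const, nsmul_eq_mul] at e2
    have e3 : ev (Col G U L p) (fun f => ((av G U L f u).card : ℝ)) = bt G U L p u := rfl
    rw [e3]
    linarith [mul_comm (D.card : ℝ) (Real.exp (-(2 / ε)))]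
  -- comparison of the thresholds
  have hbt0 : 0 ≤ bt G U L p u := le_trans (by positivity) (bt_ge hG hu)
  have hbtq : bt G U L p u ≤ q := bt_le hG u
  have hthr : bt G U L p u - δ * q ≤ bt G U L p u / (1 + δ) := by
    rw [le_div_iff₀ (by linarith)]
    have k1 : bt G U L p u * δ ≤ q * δ := mul_le_mul_of_nonneg_right hbtq hδ
    have k2 : 0 ≤ δ * q * δ := by positivity
    nlinarith
  have hpt : ∀ f ∈ Col G U L p,
      (if bt G U L p u / (1 + δ) < ((av G U L f u \ D).card : ℝ) then (1 : ℝ) else 0) ≤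
        1 / (τ * q) ^ 2 * (g f - ev (Col G U L p) g) ^ 2 := by
    intro f _
    split_ifs with hlt
    · have hlt' : bt G U L p u / (1 + δ) < g f := hlt
      have hge : τ * q ≤ g f - ev (Col G U L p) g := by linarith
      have hτq : 0 < τ * q := mul_pos hτ hq0
      rw [one_div_mul_eq_div, le_div_iff₀ (by positivity), one_mul]
      exact pow_le_pow_left₀ hτq.le hge 2
    · positivity
  calc ev (Col G U L p)
        (fun f => if bt G U L p u / (1 + δ) < ((av G U L f u \ D).card : ℝ) then 1 else 0)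
      ≤ ev (Col G U L p) (fun f => 1 / (τ * q) ^ 2 * (g f - ev (Col G U L p) g) ^ 2) :=
        ev_mono _ hpt
    _ = 1 / (τ * q) ^ 2 * vr (Col G U L p) g := by rw [ev_mul_left]; rfl
    _ ≤ 1 / (τ * q) ^ 2 * (P * q) := mul_le_mul_of_nonneg_left hvr (by positivity)
    _ = P / (τ ^ 2 * q) := by
        field_simp

end Pool.Agent.Loc26
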