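import Pool.Agent.Lib.MP_26a019_lc.Ex.LocSpec

set_option autoImplicit false
set_option linter.unusedVariables false
set_option linter.unusedSectionVars false

/-!
# Sum over the clusters, colourings (statement `ClC`)
-/

open Finset Classical

namespace Pool.Agent.Loc26

open Pool.Agent.Kempe Pool.Agent.KempeMix Pool.Agent.Eps26 Pool.Agent.Gas26
open Pool.Agent.Ex26 (rst ev2 cl)

section

variable {V C : Type} [Fintype V] [Fintype C]

/-- the law of the colour class -/
noncomputable def l_ClC_om (G : SimpleGraph V) (U : Finset V) (L : V → Finset C) (p : V → C)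
    (c : C) (S : Finset V) : ℝ :=
  ev (Col G U L p) (fun f => if Ic U c f = S then 1 else 0)

theorem l_ClC_indep {G : SimpleGraph V} {U : Finset V} {L : V → Finset C} {p : V → C} {f : V → C}
    (hf : f ∈ Col G U L p) (c : C) : Ic U c f ∈ IS (rst G U) := by
  rw [mem_IS]
  intro u hu w hw hadj
  rw [mem_Ic] at hu hw
  have h := (mem_Col.1 hf).2.2 u hu.1 w hw.1 (rst_adj.1 hadj).1
  exact h (hu.2.trans hw.2.symm)

theorem l_ClC_zero {G : SimpleGraph V} {U : Finset V} {L : V → Finset C} {p : V → C} {c : C}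
    {S : Finset V} (hS : S ∉ IS (rst G U)) : l_ClC_om G U L p c S = 0 := by
  unfold l_ClC_om
  rw [ev_congr (Col G U L p) (h := fun _ => (0 : ℝ)) (fun f hf => ?_)]
  · unfold ev; simp
  · have h1 : Ic U c f ≠ S := fun h => hS (h ▸ l_ClC_indep hf c)
    show (if Ic U c f = S then (1 : ℝ) else 0) = 0
    rw [if_neg h1]

theorem l_ClC_sum (G : SimpleGraph V) (U : Finset V) (L : V → Finset C) (p : V → C) (c : C)
    (H : Finset V → ℝ) :
    ∑ a : Finset V, l_ClC_om G U L p c a * H a = ev (Col G U L p) (fun f => H (Ic U c f)) := by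
  have h1 : ∀ a : Finset V, l_ClC_om G U L p c a * H a =
      ev (Col G U L p) (fun f => (if Ic U c f = a then 1 else 0) * H a) := by
    intro a
    unfold l_ClC_om
    rw [ev_mul_right]
  rw [Finset.sum_congr rfl (fun a _ => h1 a), ← ev_sum]
  refine ev_congr _ (fun f _ => ?_)
  simp

end

theorem s_ClC (h1 : ClSum) (h2 : ClKs) : ClC := by
  intro V C _ _ G U L p c v Φ hΦ
  have key := h1 V (rst G U) v (l_ClC_om G U L p c) Φ hΦ (fun S hS => l_ClC_zero hS)
  have hL : ev2 (Col G U L p) (fun f f' => Φ (cl G U c v f f').card) =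
      ∑ a : Finset V, ∑ b : Finset V, l_ClC_om G U L p c a * l_ClC_om G U L p c b *
        Φ (Ks (rst G U) a b {v}).card := by
    have e1 : ∀ a : Finset V, ∑ b : Finset V, l_ClC_om G U L p c a * l_ClC_om G U L p c b *
        Φ (Ks (rst G U) a b {v}).card = l_ClC_om G U L p c a *
          ev (Col G U L p) (fun f' => Φ (Ks (rst G U) a (Ic U c f') {v}).card) := by
      intro a
      rw [← l_ClC_sum G U L p c (fun b => Φ (Ks (rst G U) a b {v}).card), Finset.mul_sum]
      exact Finset.sum_congr rfl fun b _ => by ring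
    rw [Finset.sum_congr rfl (fun a _ => e1 a),
      l_ClC_sum G U L p c
        (fun a => ev (Col G U L p) (fun f' => Φ (Ks (rst G U) a (Ic U c f') {v}).card))]
    unfold ev2
    refine ev_congr _ (fun f _ => ev_congr _ (fun f' _ => ?_))
    show Φ (cl G U c v f f').card = Φ (Ks (rst G U) (Ic U c f) (Ic U c f') {v}).card
    rw [h2 V C G U c v f f']
  have hP : ∀ k kp : Finset V,
      (∑ a : Finset V, if a ∩ CN (rst G U) k = kp then l_ClC_om G U L p c a else 0) =
        pm G U L p c k kp := by
    intro k kp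
    have e2 := l_ClC_sum G U L p c (fun a => if a ∩ CN (rst G U) k = kp then (1 : ℝ) else 0)
    unfold pm
    rw [← e2]
    refine Finset.sum_congr rfl (fun a _ => ?_)
    by_cases h : a ∩ CN (rst G U) k = kp
    · rw [if_pos h, if_pos h, mul_one]
    · rw [if_neg h, if_neg h, mul_zero]
  rw [hL, key]
  refine Finset.sum_congr rfl (fun k _ => Finset.sum_congr rfl (fun kp _ => ?_))
  rw [hP, hP]

end Pool.Agent.Loc26
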