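import Pool.Agent.Lib.MP_26a019_lc.Ex.LocSpec

set_option autoImplicit false
set_option linter.unusedVariables false
set_option linter.unusedSectionVars false

/-!
# Sum over the clusters, gases
-/

open Finset Classical

namespace Pool.Agent.Loc26

open Pool.Agent.Kempe Pool.Agent.KempeMix Pool.Agent.Eps26 Pool.Agent.Gas26
open Pool.Agent.Ex26 (rst ev2 cl)

/-- the law of the gas -/
noncomputable def l_ClG_om {V : Type} [Fintype V] (G : SimpleGraph V) (z : V → ℝ)
    (S : Finset V) : ℝ := if S ∈ IS G then gw z S / Zp G z else 0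

theorem l_ClG_Eg {V : Type} [Fintype V] (G : SimpleGraph V) (z : V → ℝ) (φ : Finset V → ℝ) :
    Eg G z φ = ∑ S : Finset V, l_ClG_om G z S * φ S := by
  unfold Eg l_ClG_om
  simp only [ite_mul, zero_mul]
  rw [← Finset.sum_filter, Finset.filter_mem_eq_inter, Finset.univ_inter, Finset.sum_div]
  exact Finset.sum_congr rfl fun S _ => by ring

theorem l_ClG_PP {V : Type} [Fintype V] (G : SimpleGraph V) (z : V → ℝ) (k kp : Finset V) :
    PP G z k kp = ∑ S : Finset V, if S ∩ CN G k = kp then l_ClG_om G z S else 0 := by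
  unfold PP
  rw [l_ClG_Eg]
  refine Finset.sum_congr rfl fun S _ => ?_
  split_ifs <;> simp

theorem s_ClG (h : ClSum) : ClG := by
  intro V _ G v z Φ hΦ
  have h1 := h V G v (l_ClG_om G z) Φ hΦ (fun S hS => by
    unfold l_ClG_om
    rw [if_neg hS])
  have h2 : E2 G z z (fun a b => Φ (Ks G a b {v}).card) =
      ∑ a : Finset V, ∑ b : Finset V, l_ClG_om G z a * l_ClG_om G z b *
        Φ (Ks G a b {v}).card := by
    unfold E2
    rw [l_ClG_Eg]
    refine Finset.sum_congr rfl fun a _ => ?_
    rw [l_ClG_Eg, Finset.mul_sum]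
    exact Finset.sum_congr rfl fun b _ => by ring
  rw [h2, h1]
  refine Finset.sum_congr rfl fun k _ => Finset.sum_congr rfl fun kp _ => ?_
  rw [l_ClG_PP, l_ClG_PP]

end Pool.Agent.Loc26
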