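import Pool.Agent.Lib.MP_26a019_lc.Ex.LocSpec

set_option autoImplicit false
set_option linter.unusedSectionVars false
set_option linter.unusedVariables false

open Finset Classical

namespace Pool.Agent.Loc26

open Pool.Agent.Kempe Pool.Agent.KempeMix Pool.Agent.Eps26 Pool.Agent.Gas26
open Pool.Agent.Ex26 (rst ev2 cl)

/-- the sum over the possible clusters for a fixed pair of sets -/
lemma l_ClSum_point {V : Type} [Fintype V] (G : SimpleGraph V) (v : V) (ω : Finset V → ℝ)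
    (Φ : ℕ → ℝ) (hΦ : Φ 0 = 0) (hω : ∀ S, S ∉ IS G → ω S = 0) (a b : Finset V) :
    ω a * ω b * Φ (Ks G a b {v}).card =
      ∑ k ∈ Tc G v, ∑ kp ∈ k.powerset, Φ k.card *
        ((if a ∩ CN G k = kp then ω a else 0) * (if b ∩ CN G k = k \ kp then ω b else 0)) := by
  by_cases ha : a ∈ IS G
  swap
  · simp [hω a ha]
  by_cases hb : b ∈ IS G
  swap
  · simp [hω b hb]
  have key : ∀ k : Finset V, k.Nonempty → ∀ kp : Finset V,
      (Ks G a b {v} = k ∧ a ∩ k = kp) ↔ (Ks G k ∅ {v} = k ∧ kp ⊆ k ∧ a ∩ CN G k = kp ∧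
        b ∩ CN G k = k \ kp) := fun k hk kp => s_CluDet V G v a b k kp ha hb hk
  have hoff : ∀ k ∈ Tc G v, ∀ kp ∈ k.powerset, ¬(Ks G a b {v} = k ∧ a ∩ k = kp) →
      Φ k.card * ((if a ∩ CN G k = kp then ω a else 0) *
        (if b ∩ CN G k = k \ kp then ω b else 0)) = 0 := by
    intro k hk kp hkp hne
    obtain ⟨hk1, hk2⟩ := (Finset.mem_filter.1 hk).2
    by_cases h1 : a ∩ CN G k = kp
    · by_cases h2 : b ∩ CN G k = k \ kp
      · exact absurd ((key k hk1 kp).2 ⟨hk2, Finset.mem_powerset.1 hkp, h1, h2⟩) hne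
      · rw [if_neg h2, mul_zero, mul_zero]
    · rw [if_neg h1, zero_mul, mul_zero]
  rcases (Ks G a b {v}).eq_empty_or_nonempty with h0 | h0
  · rw [h0, Finset.card_empty, hΦ, mul_zero]
    symm
    refine Finset.sum_eq_zero fun k hk => Finset.sum_eq_zero fun kp hkp => ?_
    apply hoff k hk kp hkp
    rintro ⟨h1, -⟩
    obtain ⟨hk1, hk2⟩ := (Finset.mem_filter.1 hk).2
    rw [← h1, h0] at hk1
    exact absurd hk1 Finset.not_nonempty_empty
  · obtain ⟨h1, h2, h3, h4⟩ := (key (Ks G a b {v}) h0 (a ∩ Ks G a b {v})).1 ⟨rfl, rfl⟩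
    have hT : Ks G a b {v} ∈ Tc G v := Finset.mem_filter.2 ⟨Finset.mem_univ _, h0, h1⟩
    rw [Finset.sum_eq_single (Ks G a b {v}), Finset.sum_eq_single (a ∩ Ks G a b {v}),
      if_pos h3, if_pos h4]
    · ring
    · intro kp hkp hne
      exact hoff _ hT kp hkp fun h => hne h.2.symm
    · intro h
      exact absurd (Finset.mem_powerset.2 h2) h
    · intro k hk hne
      refine Finset.sum_eq_zero fun kp hkp => ?_
      exact hoff k hk kp hkp fun h => hne h.1.symm
    · intro h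
      exact absurd hT h

theorem s_ClSum : ClSum := by
  intro V _ G v ω Φ hΦ hω
  have h1 : ∑ a : Finset V, ∑ b : Finset V, ω a * ω b * Φ (Ks G a b {v}).card =
      ∑ a : Finset V, ∑ b : Finset V, ∑ k ∈ Tc G v, ∑ kp ∈ k.powerset, Φ k.card *
        ((if a ∩ CN G k = kp then ω a else 0) * (if b ∩ CN G k = k \ kp then ω b else 0)) :=
    Finset.sum_congr rfl fun a _ => Finset.sum_congr rfl fun b _ =>
      l_ClSum_point G v ω Φ hΦ hω a b
  rw [h1]
  have h2 : ∀ a : Finset V, ∑ b : Finset V, ∑ k ∈ Tc G v, ∑ kp ∈ k.powerset, Φ k.card *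
        ((if a ∩ CN G k = kp then ω a else 0) * (if b ∩ CN G k = k \ kp then ω b else 0)) =
      ∑ k ∈ Tc G v, ∑ kp ∈ k.powerset, Φ k.card * ((if a ∩ CN G k = kp then ω a else 0) *
        ∑ b : Finset V, (if b ∩ CN G k = k \ kp then ω b else 0)) := by
    intro a
    rw [Finset.sum_comm]
    refine Finset.sum_congr rfl fun k _ => ?_
    rw [Finset.sum_comm]
    refine Finset.sum_congr rfl fun kp _ => ?_
    rw [Finset.mul_sum, Finset.mul_sum]
  simp only [h2]
  rw [Finset.sum_comm]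
  refine Finset.sum_congr rfl fun k _ => ?_
  rw [Finset.sum_comm]
  refine Finset.sum_congr rfl fun kp _ => ?_
  rw [← Finset.mul_sum, ← Finset.sum_mul]

end Pool.Agent.Loc26
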