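import Pool.Agent.Lib.MP_26a019_lc.Ex.LocSpec

set_option autoImplicit false
set_option linter.unusedVariables false

/-!
# Module Cmp: comparison of the cluster sums
-/

open Finset Classical

namespace Pool.Agent.Loc26

open Pool.Agent.Kempe Pool.Agent.KempeMix Pool.Agent.Eps26 Pool.Agent.Gas26
open Pool.Agent.Ex26 (rst ev2 cl ClSmall ClTail AllPoin PartAB)

theorem l_Cmp_ev2_sub {V C : Type} [Fintype V] [Fintype C] {A : Finset (V → C)}
    (F H : (V → C) → (V → C) → ℝ) :
    ev2 A (fun f f' => F f f' - H f f') = ev2 A F - ev2 A H := by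
  unfold ev2
  simp only [ev_sub]

theorem l_Cmp_ev2_congr {V C : Type} [Fintype V] [Fintype C] {A : Finset (V → C)}
    {F H : (V → C) → (V → C) → ℝ} (h : ∀ f f', F f f' = H f f') : ev2 A F = ev2 A H := by
  have : F = H := funext fun f => funext fun f' => h f f'
  rw [this]

theorem l_Cmp_pm_nonneg {V C : Type} [Fintype V] [Fintype C] (G : SimpleGraph V) (U : Finset V)
    (L : V → Finset C) (p : V → C) (c : C) (k kp : Finset V) : 0 ≤ pm G U L p c k kp := by
  unfold pm
  exact ev_nonneg _ fun f _ => by split_ifs <;> norm_num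

theorem l_Cmp_PP_nonneg {V : Type} [Fintype V] {G : SimpleGraph V} {z : V → ℝ}
    (hz : ∀ v, 0 ≤ z v) (k kp : Finset V) : 0 ≤ PP G z k kp := by
  unfold PP
  exact Eg_nonneg hz fun S _ _ => by split_ifs <;> norm_num

/-- upper and lower comparison for functions supported on small clusters -/
theorem l_Cmp_sums (h1 : ClG) (h2 : ClC) {V C : Type} [Fintype V] [Fintype C] (G : SimpleGraph V)
    (U : Finset V) (L : V → Finset C) (p : V → C) (c : C) (z : V → ℝ) (η : ℝ) (m : ℕ)
    (hz : ∀ u, 0 ≤ z u) (hη : 0 ≤ η) (hη2 : η ≤ 1 / 2)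
    (hp : ∀ k kp : Finset V, k.card ≤ m → kp ⊆ k →
      |pm G U L p c k kp - PP (rst G U) z k kp| ≤ η * PP (rst G U) z k kp) (v : V)
    (Φ : ℕ → ℝ) (hΦ0 : Φ 0 = 0) (hΦ : ∀ n, 0 ≤ Φ n) (hΦm : ∀ n, m < n → Φ n = 0) :
    ev2 (Col G U L p) (fun f f' => Φ (cl G U c v f f').card) ≤
      (1 + η) ^ 2 * E2 (rst G U) z z (fun a b => Φ (Ks (rst G U) a b {v}).card) ∧
    (1 - η) ^ 2 * E2 (rst G U) z z (fun a b => Φ (Ks (rst G U) a b {v}).card) ≤
      ev2 (Col G U L p) (fun f f' => Φ (cl G U c v f f').card) := by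
  rw [h2 V C G U L p c v Φ hΦ0, h1 V (rst G U) v z Φ hΦ0, Finset.mul_sum, Finset.mul_sum]
  have key : ∀ k kp : Finset V, kp ⊆ k → k.card ≤ m →
      (1 - η) * PP (rst G U) z k kp ≤ pm G U L p c k kp ∧
        pm G U L p c k kp ≤ (1 + η) * PP (rst G U) z k kp := by
    intro k kp hkp hk
    have := abs_le.1 (hp k kp hk hkp)
    constructor <;> nlinarith [this.1, this.2]
  constructor
  · refine Finset.sum_le_sum fun k _ => ?_
    rw [Finset.mul_sum]
    refine Finset.sum_le_sum fun kp hkp => ?_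
    have hkp := Finset.mem_powerset.1 hkp
    by_cases hk : k.card ≤ m
    · have e1 := (key k kp hkp hk).2
      have e2 := (key k (k \ kp) Finset.sdiff_subset hk).2
      have e3 : pm G U L p c k kp * pm G U L p c k (k \ kp) ≤
          ((1 + η) * PP (rst G U) z k kp) * ((1 + η) * PP (rst G U) z k (k \ kp)) :=
        mul_le_mul e1 e2 (l_Cmp_pm_nonneg _ _ _ _ _ _ _)
          (mul_nonneg (by linarith) (l_Cmp_PP_nonneg hz _ _))
      calc Φ k.card * (pm G U L p c k kp * pm G U L p c k (k \ kp)) ≤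
          Φ k.card * (((1 + η) * PP (rst G U) z k kp) * ((1 + η) * PP (rst G U) z k (k \ kp))) :=
            mul_le_mul_of_nonneg_left e3 (hΦ _)
        _ = _ := by ring
    · rw [hΦm _ (not_le.1 hk)]
      simp
  · refine Finset.sum_le_sum fun k _ => ?_
    rw [Finset.mul_sum]
    refine Finset.sum_le_sum fun kp hkp => ?_
    have hkp := Finset.mem_powerset.1 hkp
    by_cases hk : k.card ≤ m
    · have e1 := (key k kp hkp hk).1
      have e2 := (key k (k \ kp) Finset.sdiff_subset hk).1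
      have e3 : ((1 - η) * PP (rst G U) z k kp) * ((1 - η) * PP (rst G U) z k (k \ kp)) ≤
          pm G U L p c k kp * pm G U L p c k (k \ kp) :=
        mul_le_mul e1 e2 (mul_nonneg (by linarith) (l_Cmp_PP_nonneg hz _ _))
          (l_Cmp_pm_nonneg _ _ _ _ _ _ _)
      calc (1 - η) ^ 2 * (Φ k.card * (PP (rst G U) z k kp * PP (rst G U) z k (k \ kp))) =
          Φ k.card * (((1 - η) * PP (rst G U) z k kp) * ((1 - η) * PP (rst G U) z k (k \ kp))) := by
            ring
        _ ≤ _ := mul_le_mul_of_nonneg_left e3 (hΦ _)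
    · rw [hΦm _ (not_le.1 hk)]
      simp

/-- the final estimate with numbers -/
theorem l_Cmp_num {μ g η T x y : ℝ} (hη : 0 ≤ η) (hη2 : η ≤ 1 / 2) (hT : 0 ≤ T) (hg0 : 0 ≤ g)
    (hg1 : g ≤ 1) (hμ0 : 0 ≤ μ) (hμ1 : μ ≤ 1) (hd : |μ - g| ≤ η * g)
    (hx : (1 - η) ^ 2 * x ≤ y) (hx2 : 2 * g * (1 - g) - T * g ≤ x) :
    2 * μ * (1 - μ) - y ≤ (12 * η + 2 * T) * μ := by
  obtain ⟨d1, d2⟩ := abs_le.1 hd
  have hg2 : g ≤ 2 * μ := by nlinarith
  have hTg : 0 ≤ T * g := mul_nonneg hT hg0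
  have e1 : (1 - η) ^ 2 * (2 * g * (1 - g) - T * g) ≤ y :=
    (mul_le_mul_of_nonneg_left hx2 (sq_nonneg _)).trans hx
  have hgg : 0 ≤ g * (1 - g) := mul_nonneg hg0 (by linarith)
  have e2 : (1 - η) ^ 2 ≤ 1 := by nlinarith
  have e3 : 1 - 2 * η ≤ (1 - η) ^ 2 := by nlinarith [sq_nonneg η]
  have e4 : 2 * g * (1 - g) - 4 * η * g - T * g ≤ (1 - η) ^ 2 * (2 * g * (1 - g) - T * g) := by
    have f1 : (1 - η) ^ 2 * (T * g) ≤ T * g := mul_le_of_le_one_left hTg e2
    have f2 : (1 - 2 * η) * (2 * (g * (1 - g))) ≤ (1 - η) ^ 2 * (2 * (g * (1 - g))) :=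
      mul_le_mul_of_nonneg_right e3 (by linarith)
    have f3 : η * (g * (1 - g)) ≤ η * g := mul_le_mul_of_nonneg_left (by nlinarith) hη
    nlinarith
  have e5 : 2 * μ * (1 - μ) - 2 * g * (1 - g) ≤ 2 * (η * g) := by
    have f1 : 2 * μ * (1 - μ) - 2 * g * (1 - g) = 2 * ((μ - g) * (1 - μ - g)) := by ring
    have f2 : |(μ - g) * (1 - μ - g)| ≤ (η * g) * 1 := by
      rw [abs_mul]
      refine mul_le_mul hd ?_ (abs_nonneg _) (mul_nonneg hη hg0)
      rw [abs_le]
      constructor <;> linarith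
    rw [f1]
    linarith [le_abs_self ((μ - g) * (1 - μ - g))]
  have e6 : 2 * μ * (1 - μ) - y ≤ (6 * η + T) * g := by nlinarith
  have e7 : (6 * η + T) * g ≤ (6 * η + T) * (2 * μ) :=
    mul_le_mul_of_nonneg_left hg2 (by linarith)
  linarith

theorem s_Cmp (h1 : ClG) (h2 : ClC) (h3 : Sing) : Cmp := by
  intro V C _ _ G U L p s c z η E T m hG hz hη hη2 hm hE hT hp v hv hE2 hT2
  obtain ⟨g1, g2, g3, g4⟩ := h3 V C G U L p s c z hG hz v hv
  have hs : (2 : ℝ) ≤ s := by exact_mod_cast hG.1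
  have hμ0 : 0 ≤ mg (Col G U L p) v c := mg_nonneg _ _ _
  have hμ1 : mg (Col G U L p) v c ≤ 1 := by
    refine (mg_le hG p hv c).trans ?_
    rw [div_le_one (by linarith)]
    linarith
  have hg0 : 0 ≤ dn (rst G U) z v := dn_nonneg hz v
  have hg1 : dn (rst G U) z v ≤ 1 := dn_le_one hz v
  have hd : |mg (Col G U L p) v c - dn (rst G U) z v| ≤ η * dn (rst G U) z v := by
    have := hp {v} {v} (by rw [Finset.card_singleton]; exact hm) (Finset.Subset.refl _)
    rwa [g1, g2] at this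
  have hg2 : dn (rst G U) z v ≤ 2 * mg (Col G U L p) v c := by
    have := abs_le.1 hd
    nlinarith [this.1, this.2]
  constructor
  · -- small clusters
    have e1 := (l_Cmp_sums h1 h2 G U L p c z η m hz hη hη2 hp v
      (fun n => if n ≤ m then (n : ℝ) else 0) (by simp)
      (fun n => by
        show 0 ≤ (if n ≤ m then (n : ℝ) else 0)
        split_ifs
        · positivity
        · exact le_rfl)
      (fun n hn => if_neg (not_le.2 hn))).1
    refine e1.trans ?_
    have e2 : E2 (rst G U) z z (fun a b => if (Ks (rst G U) a b {v}).card ≤ m then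
        ((Ks (rst G U) a b {v}).card : ℝ) else 0) ≤ E * dn (rst G U) z v := by
      refine le_trans (E2_mono hz hz fun a _ _ b _ _ => ?_) hE2
      split_ifs
      · exact le_rfl
      · positivity
    have e3 : (1 + η) ^ 2 ≤ 4 := by nlinarith
    have e4 : (0 : ℝ) ≤ E * dn (rst G U) z v := mul_nonneg hE hg0
    have e5 : E * dn (rst G U) z v ≤ E * (2 * mg (Col G U L p) v c) :=
      mul_le_mul_of_nonneg_left hg2 hE
    calc (1 + η) ^ 2 * E2 (rst G U) z z (fun a b => if (Ks (rst G U) a b {v}).card ≤ m then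
        ((Ks (rst G U) a b {v}).card : ℝ) else 0) ≤ (1 + η) ^ 2 * (E * dn (rst G U) z v) :=
          mul_le_mul_of_nonneg_left e2 (sq_nonneg _)
      _ ≤ 4 * (E * dn (rst G U) z v) := mul_le_mul_of_nonneg_right e3 e4
      _ ≤ _ := by linarith
  · -- large clusters
    have e1 := (l_Cmp_sums h1 h2 G U L p c z η m hz hη hη2 hp v
      (fun n => if 0 < n ∧ n ≤ m then (1 : ℝ) else 0) (by simp)
      (fun n => by
        show (0 : ℝ) ≤ (if 0 < n ∧ n ≤ m then (1 : ℝ) else 0)
        split_ifs <;> norm_num)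
      (fun n hn => if_neg fun h => absurd h.2 (not_le.2 hn))).2
    have hsp : ∀ n : ℕ, (if m < n then (1 : ℝ) else 0) =
        (if 0 < n then (1 : ℝ) else 0) - (if 0 < n ∧ n ≤ m then (1 : ℝ) else 0) := by
      intro n
      by_cases h1 : m < n
      · have h2 : 0 < n := lt_of_le_of_lt (Nat.zero_le _) h1
        rw [if_pos h1, if_pos h2, if_neg fun h => absurd h.2 (not_le.2 h1)]
        norm_num
      · by_cases h2 : 0 < n
        · rw [if_neg h1, if_pos h2, if_pos ⟨h2, not_lt.1 h1⟩]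
          norm_num
        · rw [if_neg h1, if_neg h2, if_neg fun h => h2 h.1]
          norm_num
    have e2 : ev2 (Col G U L p) (fun f f' => if m < (cl G U c v f f').card then (1 : ℝ) else 0) =
        2 * mg (Col G U L p) v c * (1 - mg (Col G U L p) v c) -
          ev2 (Col G U L p) (fun f f' => if 0 < (cl G U c v f f').card ∧
            (cl G U c v f f').card ≤ m then (1 : ℝ) else 0) := by
      rw [← g3, ← l_Cmp_ev2_sub]
      exact l_Cmp_ev2_congr fun f f' => hsp _
    have e3 : E2 (rst G U) z z (fun a b => if 0 < (Ks (rst G U) a b {v}).card ∧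
        (Ks (rst G U) a b {v}).card ≤ m then (1 : ℝ) else 0) =
        2 * dn (rst G U) z v * (1 - dn (rst G U) z v) -
          E2 (rst G U) z z (fun a b => if m < (Ks (rst G U) a b {v}).card then (1 : ℝ) else 0) := by
      rw [← g4, ← E2_sub]
      refine E2_congr fun a _ _ b _ _ => ?_
      rw [hsp]
      ring
    rw [e2]
    refine l_Cmp_num hη hη2 hT hg0 hg1 hμ0 hμ1 hd e1 ?_
    show _ ≤ E2 (rst G U) z z (fun a b => if 0 < (Ks (rst G U) a b {v}).card ∧
        (Ks (rst G U) a b {v}).card ≤ m then (1 : ℝ) else 0)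
    rw [e3]
    linarith

end Pool.Agent.Loc26
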