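import Pool.Agent.Lib.MP_26a019_lc.Ex.LocSpec

set_option autoImplicit false
set_option linter.unusedVariables false
set_option linter.unusedSectionVars false

/-!
# DirL: Dirichlet form of powers of local functions
-/

open Finset Classical

namespace Pool.Agent.Loc26

open Pool.Agent.Kempe Pool.Agent.KempeMix Pool.Agent.Eps26 Pool.Agent.Gas26
open Pool.Agent.Ex26 (rst ev2 cl)

theorem l_DirL_pow (x y : ℝ) (k : ℕ) (h : |y - x| ≤ 1) :
    (x ^ k - y ^ k) ^ 2 ≤ (k : ℝ) ^ 2 * (|x| + 1) ^ (2 * (k - 1)) := by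
  have h1 : |x ^ k - y ^ k| ≤ |x - y| * k * max |x| |y| ^ (k - 1) := abs_pow_sub_pow_le x y k
  have hy : |y| ≤ |x| + 1 := by
    have := abs_sub_abs_le_abs_sub y x
    linarith
  have h2 : max |x| |y| ≤ |x| + 1 := max_le (by linarith) hy
  have h3 : max |x| |y| ^ (k - 1) ≤ (|x| + 1) ^ (k - 1) :=
    pow_le_pow_left₀ (le_trans (abs_nonneg x) (le_max_left _ _)) h2 _
  have h4 : |x - y| ≤ 1 := by rw [abs_sub_comm]; exact h
  have h5 : |x ^ k - y ^ k| ≤ k * (|x| + 1) ^ (k - 1) := by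
    refine h1.trans ?_
    have h6 : |x - y| * (k : ℝ) ≤ k := by
      calc |x - y| * (k : ℝ) ≤ 1 * k := mul_le_mul_of_nonneg_right h4 (Nat.cast_nonneg _)
        _ = k := one_mul _
    exact mul_le_mul h6 h3 (pow_nonneg (le_trans (abs_nonneg x) (le_max_left _ _)) _)
      (Nat.cast_nonneg _)
  rw [← sq_abs]
  calc |x ^ k - y ^ k| ^ 2 ≤ (k * (|x| + 1) ^ (k - 1)) ^ 2 :=
        pow_le_pow_left₀ (abs_nonneg _) h5 2
    _ = (k : ℝ) ^ 2 * (|x| + 1) ^ (2 * (k - 1)) := by rw [mul_pow, ← pow_mul, mul_comm (k - 1) 2]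

theorem s_DirL : DirL := by
  intro V C _ _ G U L p s hG u hu h hL k hk
  set B : ℝ := ev (Col G U L p) (fun f => (|h f| + 1) ^ (2 * (k - 1))) with hB
  have hB0 : 0 ≤ B := ev_nonneg _ fun f _ => by positivity
  unfold dir
  have h1 : ∀ v ∈ U, ev (Col G U L p)
      (fun f => ((fun f => h f ^ k) f - hb G U L v (fun f => h f ^ k) f) ^ 2) ≤
      if v ∈ nb G U u then (k : ℝ) ^ 2 * B else 0 := by
    intro v hv
    split_ifs with hvn
    · refine (ev_sub_hb_sq_le_avg hG p hv (fun f => h f ^ k)).trans ?_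
      rw [hB, ← ev_mul_left]
      refine ev_mono _ fun f _ => ?_
      have hp := av_pos hG hv f
      rw [div_le_iff₀ hp]
      calc ∑ c ∈ av G U L f v, (h f ^ k - h (Function.update f v c) ^ k) ^ 2
          ≤ ∑ c ∈ av G U L f v, (k : ℝ) ^ 2 * (|h f| + 1) ^ (2 * (k - 1)) :=
            Finset.sum_le_sum fun c _ => l_DirL_pow _ _ k (hL.1 f v c)
        _ = _ := by rw [Finset.sum_const, nsmul_eq_mul]; ring
    · have hi : Ind v (fun f => h f ^ k) := fun f a => by
        simp only [hL.2 f v a hvn]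
      refine le_of_eq ?_
      have : ev (Col G U L p)
          (fun f => ((fun f => h f ^ k) f - hb G U L v (fun f => h f ^ k) f) ^ 2) =
          ev (Col G U L p) (fun f => 0 * h f) := ev_congr _ fun f _ => by
            rw [hb_ind hG hv hi]; ring
      rw [this, ev_mul_left, zero_mul]
  refine (Finset.sum_le_sum h1).trans ?_
  rw [← Finset.sum_filter, Finset.sum_const, nsmul_eq_mul]
  have h2 : ((U.filter (fun v => v ∈ nb G U u)).card : ℝ) ≤ (Fintype.card C : ℝ) := by
    have h3 : U.filter (fun v => v ∈ nb G U u) ⊆ nb G U u := fun v hv => (Finset.mem_filter.1 hv).2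
    have h4 := Finset.card_le_card h3
    have h5 := hG.2 u hu
    have h6 : (L u).card ≤ Fintype.card C := Finset.card_le_univ _
    exact_mod_cast (by omega : (U.filter (fun v => v ∈ nb G U u)).card ≤ Fintype.card C)
  calc ((U.filter (fun v => v ∈ nb G U u)).card : ℝ) * ((k : ℝ) ^ 2 * B)
      ≤ (Fintype.card C : ℝ) * ((k : ℝ) ^ 2 * B) :=
        mul_le_mul_of_nonneg_right h2 (by positivity)
    _ = _ := by ring

end Pool.Agent.Loc26
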