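import Pool.Agent.Lib.MP_26a019_lc.Ex.LocSpec

set_option autoImplicit false
set_option linter.unusedVariables false

/-!
# Part AB, module Err1: removed colours are rare
-/

open Finset Classical

namespace Pool.Agent.Loc26

open Pool.Agent.Kempe Pool.Agent.KempeMix Pool.Agent.Eps26 Pool.Agent.Gas26
open Pool.Agent.Ex26 (rst ev2 cl)

theorem s_Err1 (h : Ext) : Err1 := by
  intro V C _ _ G U L p s c Dl hG hD u hu
  have h1 := h V C G U L p s c Dl hG hD (fun f => if f u ∈ Dl u then (1 : ℝ) else 0)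
  have h2 : ms G U L p c Dl (fun σ => if σ u ∈ Dl u then (1 : ℝ) else 0) ≤
      ms G U L p c Dl (fun σ => Eg (rst G U) (wD G U L c Dl σ)
        (fun S => if rc σ S c u ∈ Dl u then (1 : ℝ) else 0)) := by
    refine ms_mono fun σ hσ => ?_
    by_cases hσu : σ u ∈ Dl u
    · rw [if_pos hσu]
      have h3 : Eg (rst G U) (wD G U L c Dl σ)
          (fun S => if rc σ S c u ∈ Dl u then (1 : ℝ) else 0) =
          Eg (rst G U) (wD G U L c Dl σ) (fun _ => (1 : ℝ)) := Eg_congr fun S _ hS => by
        have hu' : u ∉ S := fun huS => (of_wD hS u huS).2.2 hσu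
        have h4 : rc σ S c u = σ u := if_neg hu'
        rw [h4, if_pos hσu]
      rw [h3, Eg_const wD_nonneg]
    · rw [if_neg hσu]
      exact Eg_nonneg wD_nonneg (fun S _ _ => by split_ifs <;> norm_num)
  rw [← h1] at h2
  refine h2.trans ?_
  have h4 : ev (Col G U L p) (fun f => if f u ∈ Dl u then (1 : ℝ) else 0) =
      ∑ a ∈ Dl u, mg (Col G U L p) u a := by
    unfold mg
    rw [← ev_sum]
    refine ev_congr _ fun f _ => ?_
    rw [Finset.sum_ite_eq]
  rw [h4]
  calc ∑ a ∈ Dl u, mg (Col G U L p) u a ≤ ∑ a ∈ Dl u, 1 / (s : ℝ) :=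
        Finset.sum_le_sum fun a _ => mg_le hG p hu a
    _ = ((Dl u).card : ℝ) / s := by
        rw [Finset.sum_const, nsmul_eq_mul]
        ring

end Pool.Agent.Loc26
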