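import Pool.Agent.Lib.MP_26a019_lc.Ex.LocSpec

set_option autoImplicit false
set_option linter.unusedVariables false
set_option linter.unusedSectionVars false

open Finset Classical

namespace Pool.Agent.Loc26

open Pool.Agent.Kempe Pool.Agent.KempeMix Pool.Agent.Eps26 Pool.Agent.Gas26
open Pool.Agent.Ex26 (rst ev2 cl)

theorem l_Err2_sub {V C : Type} [Fintype V] [Fintype C] (G : SimpleGraph V) (U : Finset V)
    (L : V → Finset C) (c : C) (σ : V → C) (S : Finset V) (u : V) :
    av G U (Lc L c) σ u ⊆ av G U L (rc σ S c) u := by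
  intro a ha
  rw [mem_av] at ha ⊢
  unfold Lc at ha
  rw [Finset.mem_erase] at ha
  refine ⟨ha.1.2, fun w hw h => ?_⟩
  unfold rc at h
  split_ifs at h with hS
  · exact ha.1.1 h.symm
  · exact ha.2 w hw h

theorem s_Err2 (h : Ext) : Err2 := by
  intro V C _ _ G U L p s c Dl hG hD u hu t
  rw [h V C G U L p s c Dl hG hD]
  refine ms_mono fun σ hσ => ?_
  rw [← Eg_const (G := rst G U) (z := wD G U L c Dl σ) wD_nonneg
    (if t < Bn G U L c Dl σ u then (1 : ℝ) else 0)]
  refine Eg_mono wD_nonneg fun S _ _ => ?_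
  have h1 : av G U (Lc L c) σ u \ Dl u ⊆ av G U L (rc σ S c) u \ Dl u :=
    Finset.sdiff_subset_sdiff (l_Err2_sub G U L c σ S u) (Finset.Subset.refl _)
  have h2 : Bn G U L c Dl σ u ≤ ((av G U L (rc σ S c) u \ Dl u).card : ℝ) := by
    unfold Bn
    exact_mod_cast Finset.card_le_card h1
  by_cases h3 : t < Bn G U L c Dl σ u
  · rw [if_pos h3, if_pos (h3.trans_le h2)]
  · rw [if_neg h3]
    split_ifs <;> norm_num

end Pool.Agent.Loc26
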