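import Pool.Agent.Lib.MP_26a019_lc.Ex.LocSpec

set_option autoImplicit false

/-!
# Uniform colourings as a mixture of gases
-/

open Finset Classical

namespace Pool.Agent.Loc26

open Pool.Agent.Kempe Pool.Agent.KempeMix Pool.Agent.Eps26 Pool.Agent.Gas26
open Pool.Agent.Ex26 (rst ev2)

theorem s_Ext (h : ExtS) : Ext := by
  intro V C _ _ G U L p s c Dl hG hD Ψ
  have h1 := h V C G U L p s c Dl hG hD Ψ
  have h2 := h V C G U L p s c Dl hG hD (fun _ => 1)
  have h3 : ((Col G U L p).card : ℝ) =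
      ∑ σ ∈ Col G U (Lc L c) p, Zp (rst G U) (wD G U L c Dl σ) := by
    rw [Finset.sum_const, nsmul_eq_mul, mul_one] at h2
    rw [h2]
    unfold Zp
    simp only [mul_one]
  unfold ev ms
  rw [h1, h3]
  congr 1
  refine Finset.sum_congr rfl fun σ _ => ?_
  unfold Eg
  rw [mul_div_cancel₀]
  exact (Zp_pos (wD_nonneg (σ := σ))).ne'

end Pool.Agent.Loc26
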