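import Pool.Agent.Lib.MP_26a019_lc.Ex.LocSpec

set_option autoImplicit false
set_option linter.unusedVariables false
set_option linter.unusedSectionVars false

open Finset Classical

namespace Pool.Agent.Loc26

open Pool.Agent.Kempe Pool.Agent.KempeMix Pool.Agent.Eps26 Pool.Agent.Gas26
open Pool.Agent.Ex26 (rst ev2 cl)

variable {V C : Type} [Fintype V] [Fintype C]

section l_ExtS_sec

variable {G : SimpleGraph V} {U : Finset V} {L : V → Finset C} {p : V → C} {c : C}
  {Dl : V → Finset C} {s : ℕ}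

theorem l_ExtS_adj {f : V → C} (hf : f ∈ Col G U L p) {u w : V} (hu : u ∈ Ic U c f)
    (hw : w ∈ Ic U c f) : ¬ G.Adj u w := by
  intro h
  rw [mem_Ic] at hu hw
  exact (mem_Col.1 hf).2.2 u hu.1 w hw.1 h (hu.2.trans hw.2.symm)

theorem l_ExtS_avcongr {L' : V → Finset C} {f g : V → C} {u : V}
    (h : ∀ w ∈ nb G U u, f w = g w) : av G U L' f u = av G U L' g u := by
  ext a
  rw [mem_av, mem_av]
  refine and_congr_right fun _ => forall₂_congr fun w hw => ?_
  rw [h w hw]

/-- the set of choices -/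
noncomputable def l_ExtS_A (G : SimpleGraph V) (U : Finset V) (L : V → Finset C) (c : C)
    (Dl : V → Finset C) (f : V → C) (v : V) : Finset C :=
  if v ∈ Ic U c f then av G U (Lc L c) f v \ Dl v else {f v}

noncomputable def l_ExtS_P (G : SimpleGraph V) (U : Finset V) (L : V → Finset C) (c : C)
    (Dl : V → Finset C) (f : V → C) : Finset (V → C) :=
  Fintype.piFinset (l_ExtS_A G U L c Dl f)

theorem l_ExtS_mem_P {f σ : V → C} : σ ∈ l_ExtS_P G U L c Dl f ↔
    (∀ v, v ∉ Ic U c f → σ v = f v) ∧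
      ∀ v ∈ Ic U c f, σ v ∈ av G U (Lc L c) f v ∧ σ v ∉ Dl v := by
  unfold l_ExtS_P
  rw [Fintype.mem_piFinset]
  constructor
  · intro h
    refine ⟨fun v hv => ?_, fun v hv => ?_⟩
    · have := h v
      unfold l_ExtS_A at this
      rw [if_neg hv, Finset.mem_singleton] at this
      exact this
    · have := h v
      unfold l_ExtS_A at this
      rw [if_pos hv, Finset.mem_sdiff] at this
      exact this
  · rintro ⟨h1, h2⟩ v
    unfold l_ExtS_A
    split_ifs with hv
    · rw [Finset.mem_sdiff]; exact h2 v hv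
    · rw [Finset.mem_singleton]; exact h1 v hv

theorem l_ExtS_P_sub {f : V → C} (hf : f ∈ Col G U L p) :
    l_ExtS_P G U L c Dl f ⊆ Col G U (Lc L c) p := by
  intro σ hσ
  obtain ⟨h1, h2⟩ := l_ExtS_mem_P.1 hσ
  have hf' := mem_Col.1 hf
  rw [mem_Col]
  refine ⟨fun v hv => ?_, fun v hv => ?_, fun u hu w hw huw => ?_⟩
  · rw [h1 v fun h => hv (mem_Ic.1 h).1]
    exact hf'.1 v hv
  · by_cases hvS : v ∈ Ic U c f
    · exact (mem_av.1 (h2 v hvS).1).1
    · rw [h1 v hvS, Lc, Finset.mem_erase]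
      exact ⟨fun h => hvS (mem_Ic.2 ⟨hv, h⟩), hf'.2.1 v hv⟩
  · by_cases huS : u ∈ Ic U c f
    · have hwS : w ∉ Ic U c f := fun h => l_ExtS_adj hf huS h huw
      rw [h1 w hwS]
      exact ((mem_av.1 (h2 u huS).1).2 w (mem_nb.2 ⟨hw, huw⟩)).symm
    · by_cases hwS : w ∈ Ic U c f
      · rw [h1 u huS]
        exact (mem_av.1 (h2 w hwS).1).2 u (mem_nb.2 ⟨hu, huw.symm⟩)
      · rw [h1 u huS, h1 w hwS]
        exact hf'.2.2 u hu w hw huw

theorem l_ExtS_nb {f σ : V → C} (hf : f ∈ Col G U L p) (h1 : ∀ v, v ∉ Ic U c f → σ v = f v)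
    {u : V} (hu : u ∈ Ic U c f) : av G U (Lc L c) σ u = av G U (Lc L c) f u := by
  refine l_ExtS_avcongr fun w hw => h1 w fun h => ?_
  exact l_ExtS_adj hf hu h (mem_nb.1 hw).2

/-- one term -/
theorem l_ExtS_term {f σ : V → C} (hf : f ∈ Col G U L p) (hσ : σ ∈ Col G U (Lc L c) p) :
    (if rc σ (Ic U c f) c = f then gw (wD G U L c Dl σ) (Ic U c f) else 0) =
      if σ ∈ l_ExtS_P G U L c Dl f then
        ∏ u ∈ Ic U c f, (1 / ((av G U (Lc L c) f u \ Dl u).card : ℝ)) else 0 := by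
  have hf' := mem_Col.1 hf
  by_cases hP : σ ∈ l_ExtS_P G U L c Dl f
  · rw [if_pos hP]
    obtain ⟨h1, h2⟩ := l_ExtS_mem_P.1 hP
    rw [if_pos]
    · unfold gw
      refine Finset.prod_congr rfl fun u hu => ?_
      have hu' := mem_Ic.1 hu
      unfold wD
      rw [if_pos ⟨hu'.1, hu'.2 ▸ hf'.2.1 u hu'.1, (h2 u hu).2⟩]
      unfold Bn
      rw [l_ExtS_nb hf h1 hu]
    · funext v
      unfold rc
      split_ifs with hv
      · exact (mem_Ic.1 hv).2.symm
      · exact h1 v hv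
  · rw [if_neg hP]
    split_ifs with hr
    · have h1 : ∀ v, v ∉ Ic U c f → σ v = f v := by
        intro v hv
        have := congrFun hr v
        unfold rc at this
        rw [if_neg hv] at this
        exact this
      have h3 : ∃ u ∈ Ic U c f, ¬ (σ u ∈ av G U (Lc L c) f u ∧ σ u ∉ Dl u) := by
        by_contra h
        push Not at h
        exact hP (l_ExtS_mem_P.2 ⟨h1, fun v hv => h v hv⟩)
      obtain ⟨u, hu, hn⟩ := h3
      have h4 : σ u ∈ av G U (Lc L c) f u := by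
        rw [← l_ExtS_nb hf h1 hu]
        exact self_mem_av hσ (mem_Ic.1 hu).1
      have h5 : σ u ∈ Dl u := by
        by_contra h
        exact hn ⟨h4, h⟩
      unfold gw
      refine Finset.prod_eq_zero hu ?_
      unfold wD
      rw [if_neg]
      rintro ⟨_, _, h⟩
      exact h h5
    · rfl

theorem l_ExtS_Ic_IS {f : V → C} (hf : f ∈ Col G U L p) : Ic U c f ∈ IS (rst G U) := by
  rw [mem_IS]
  intro u hu w hw h
  exact l_ExtS_adj hf hu hw (rst_adj.1 h).1

/-- the inner sum -/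
theorem l_ExtS_inner {f σ : V → C} (hf : f ∈ Col G U L p) (hσ : σ ∈ Col G U (Lc L c) p) :
    ∑ S ∈ IS (rst G U), (if rc σ S c = f then gw (wD G U L c Dl σ) S else 0) =
      if rc σ (Ic U c f) c = f then gw (wD G U L c Dl σ) (Ic U c f) else 0 := by
  refine Finset.sum_eq_single_of_mem (Ic U c f) (l_ExtS_Ic_IS hf) fun S hS hne => ?_
  split_ifs with h
  · by_contra h0
    have hS' : ∀ v ∈ S, wD G U L c Dl σ v ≠ 0 := by
      unfold gw at h0
      exact fun v hv h => h0 (Finset.prod_eq_zero hv h)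
    have h2 := Ic_rc hσ (S := S) (fun v hv => (of_wD hS' v hv).1)
    rw [h] at h2
    exact hne h2.symm
  · rfl

theorem l_ExtS_N (hG : Good G U L s) (hD : ∀ u ∈ U, (Dl u).card + 2 ≤ s) {f : V → C}
    (hf : f ∈ Col G U L p) :
    ∑ σ ∈ Col G U (Lc L c) p, ∑ S ∈ IS (rst G U),
      (if rc σ S c = f then gw (wD G U L c Dl σ) S else 0) = 1 := by
  have h1 : ∀ σ ∈ Col G U (Lc L c) p, ∑ S ∈ IS (rst G U),
      (if rc σ S c = f then gw (wD G U L c Dl σ) S else 0) =
      if σ ∈ l_ExtS_P G U L c Dl f then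
        ∏ u ∈ Ic U c f, (1 / ((av G U (Lc L c) f u \ Dl u).card : ℝ)) else 0 := by
    intro σ hσ
    rw [l_ExtS_inner hf hσ, l_ExtS_term hf hσ]
  rw [Finset.sum_congr rfl h1, ← Finset.sum_filter, Finset.sum_const, nsmul_eq_mul,
    Finset.filter_mem_eq_inter, Finset.inter_eq_right.2 (l_ExtS_P_sub hf)]
  have h2 : ((l_ExtS_P G U L c Dl f).card : ℝ) =
      ∏ u ∈ Ic U c f, ((av G U (Lc L c) f u \ Dl u).card : ℝ) := by
    unfold l_ExtS_P
    rw [Fintype.card_piFinset, Nat.cast_prod]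
    have h3 : ∀ v : V, ((l_ExtS_A G U L c Dl f v).card : ℝ) =
        if v ∈ Ic U c f then ((av G U (Lc L c) f v \ Dl v).card : ℝ) else 1 := by
      intro v
      unfold l_ExtS_A
      split_ifs
      · rfl
      · simp
    rw [Finset.prod_congr rfl fun v _ => h3 v, Finset.prod_ite_mem, Finset.univ_inter]
  rw [h2, ← Finset.prod_mul_distrib]
  refine Finset.prod_eq_one fun u hu => ?_
  have h4 := Bn_pos (c := c) (σ := f) hG (mem_Ic.1 hu).1 (hD u (mem_Ic.1 hu).1)
  unfold Bn at h4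
  field_simp

/-- recolouring gives a colouring -/
theorem l_ExtS_rc_mem {σ : V → C} (hσ : σ ∈ Col G U (Lc L c) p) {S : Finset V}
    (hS : S ∈ IS (rst G U)) (h : ∀ v ∈ S, wD G U L c Dl σ v ≠ 0) :
    rc σ S c ∈ Col G U L p := by
  have h0 := of_wD h
  have hσ' := mem_Col.1 hσ
  rw [mem_IS] at hS
  have hc : ∀ v ∈ U, σ v ≠ c := by
    intro v hv
    have := hσ'.2.1 v hv
    rw [Lc, Finset.mem_erase] at this
    exact this.1
  rw [mem_Col]
  refine ⟨fun v hv => ?_, fun v hv => ?_, fun u hu w hw huw => ?_⟩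
  · unfold rc
    rw [if_neg fun h => hv (h0 v h).1]
    exact hσ'.1 v hv
  · unfold rc
    split_ifs with hvS
    · exact (h0 v hvS).2.1
    · have := hσ'.2.1 v hv
      rw [Lc, Finset.mem_erase] at this
      exact this.2
  · unfold rc
    split_ifs with h1 h2 h2
    · exact absurd (rst_adj.2 ⟨huw, hu, hw⟩) (hS u h1 w h2)
    · exact (hc w hw).symm
    · exact hc u hu
    · exact hσ'.2.2 u hu w hw huw

end l_ExtS_sec

theorem s_ExtS : ExtS := by
  intro V C _ _ G U L p s c Dl hG hD Ψ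
  have h1 : ∀ σ ∈ Col G U (Lc L c) p, ∀ S ∈ IS (rst G U),
      gw (wD G U L c Dl σ) S * Ψ (rc σ S c) =
        ∑ f ∈ Col G U L p, Ψ f * (if rc σ S c = f then gw (wD G U L c Dl σ) S else 0) := by
    intro σ hσ S hS
    by_cases hz : ∀ v ∈ S, wD G U L c Dl σ v ≠ 0
    · have h2 := l_ExtS_rc_mem hσ hS hz
      rw [Finset.sum_eq_single_of_mem _ h2]
      · rw [if_pos rfl, mul_comm]
      · intro f _ hne
        rw [if_neg hne.symm, mul_zero]
    · push Not at hz
      obtain ⟨v, hv, h0⟩ := hz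
      have h3 : gw (wD G U L c Dl σ) S = 0 := Finset.prod_eq_zero hv h0
      rw [h3, zero_mul]
      symm
      refine Finset.sum_eq_zero fun f _ => ?_
      rw [ite_self, mul_zero]
  calc ∑ f ∈ Col G U L p, Ψ f
      = ∑ f ∈ Col G U L p, Ψ f * ∑ σ ∈ Col G U (Lc L c) p, ∑ S ∈ IS (rst G U),
          (if rc σ S c = f then gw (wD G U L c Dl σ) S else 0) :=
        Finset.sum_congr rfl fun f hf => by rw [l_ExtS_N hG hD hf, mul_one]
    _ = ∑ f ∈ Col G U L p, ∑ σ ∈ Col G U (Lc L c) p, ∑ S ∈ IS (rst G U),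
          Ψ f * (if rc σ S c = f then gw (wD G U L c Dl σ) S else 0) := by
        simp only [Finset.mul_sum]
    _ = ∑ σ ∈ Col G U (Lc L c) p, ∑ S ∈ IS (rst G U), ∑ f ∈ Col G U L p,
          Ψ f * (if rc σ S c = f then gw (wD G U L c Dl σ) S else 0) := by
        rw [Finset.sum_comm]
        exact Finset.sum_congr rfl fun σ _ => Finset.sum_comm
    _ = _ := by
        refine Finset.sum_congr rfl fun σ hσ => Finset.sum_congr rfl fun S hS => ?_
        rw [h1 σ hσ S hS]

end Pool.Agent.Loc26
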