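import Pool.Agent.Lib.MP_26a019_lc.Ex.LocSpec

set_option autoImplicit false
set_option linter.unusedVariables false

/-!
# Part AB, colouring part: available colours and coloured neighbours are local functions
-/

open Finset Classical

namespace Pool.Agent.Loc26

open Pool.Agent.Kempe Pool.Agent.KempeMix Pool.Agent.Eps26 Pool.Agent.Gas26
open Pool.Agent.Ex26 (rst ev2 cl)

theorem l_LLav_card {T : Type} {X Y : Finset T} {a b : T} (h1 : X ⊆ insert b Y)
    (h2 : Y ⊆ insert a X) : |((X.card : ℕ) : ℝ) - ((Y.card : ℕ) : ℝ)| ≤ 1 := by
  have h3 := (Finset.card_le_card h1).trans (Finset.card_insert_le b Y)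
  have h4 := (Finset.card_le_card h2).trans (Finset.card_insert_le a X)
  have h5 : (X.card : ℝ) ≤ (Y.card : ℝ) + 1 := by exact_mod_cast h3
  have h6 : (Y.card : ℝ) ≤ (X.card : ℝ) + 1 := by exact_mod_cast h4
  rw [abs_le]
  constructor <;> linarith

theorem s_LLav : LLav := by
  intro V C _ _ G U L u D c
  refine ⟨⟨fun f v a => ?_, fun f v a hv => ?_⟩, ⟨fun f v a => ?_, fun f v a hv => ?_⟩⟩
  · by_cases hv : v ∈ nb G U u
    · refine l_LLav_card (a := a) (b := f v) ?_ ?_
      · intro e he
        rw [Finset.mem_sdiff] at he
        rw [Finset.mem_insert, Finset.mem_sdiff]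
        by_cases hef : e = f v
        · exact Or.inl hef
        · right
          refine ⟨?_, he.2⟩
          rw [mem_av] at he ⊢
          refine ⟨he.1.1, fun w hw h => ?_⟩
          by_cases hwv : w = v
          · subst hwv
            exact hef h.symm
          · exact he.1.2 w hw (by rw [Function.update_of_ne hwv]; exact h)
      · intro e he
        rw [Finset.mem_sdiff] at he
        rw [Finset.mem_insert, Finset.mem_sdiff]
        by_cases hea : e = a
        · exact Or.inl hea
        · right
          refine ⟨?_, he.2⟩
          rw [mem_av] at he ⊢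
          refine ⟨he.1.1, fun w hw h => ?_⟩
          by_cases hwv : w = v
          · subst hwv
            rw [Function.update_self] at h
            exact hea h.symm
          · rw [Function.update_of_ne hwv] at h
            exact he.1.2 w hw h
    · show |((av G U L (Function.update f v a) u \ D).card : ℝ) -
        ((av G U L f u \ D).card : ℝ)| ≤ 1
      rw [av_update_of_notMem G U L f u hv a, sub_self, abs_zero]
      exact zero_le_one
  · show ((av G U L (Function.update f v a) u \ D).card : ℝ) = ((av G U L f u \ D).card : ℝ)
    rw [av_update_of_notMem G U L f u hv a]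
  · refine l_LLav_card (a := v) (b := v) ?_ ?_
    · intro w hw
      rw [Finset.mem_inter, mem_Ic] at hw
      rw [Finset.mem_insert, Finset.mem_inter, mem_Ic]
      by_cases hwv : w = v
      · exact Or.inl hwv
      · right
        rw [Function.update_of_ne hwv] at hw
        exact hw
    · intro w hw
      rw [Finset.mem_inter, mem_Ic] at hw
      rw [Finset.mem_insert, Finset.mem_inter, mem_Ic]
      by_cases hwv : w = v
      · exact Or.inl hwv
      · right
        rw [Function.update_of_ne hwv]
        exact hw
  · show ((nb G U u ∩ Ic U c (Function.update f v a)).card : ℝ) =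
      ((nb G U u ∩ Ic U c f).card : ℝ)
    congr 2
    ext w
    rw [Finset.mem_inter, Finset.mem_inter, mem_Ic, mem_Ic]
    refine and_congr_right fun hw => ?_
    have : w ≠ v := fun h => hv (h ▸ hw)
    rw [Function.update_of_ne this]

end Pool.Agent.Loc26
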