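import Pool.Agent.Lib.MP_26a019_lc.Ex.LocSpec

set_option autoImplicit false

/-!
# Local law of a colour class
-/

open Finset Classical

namespace Pool.Agent.Loc26

open Pool.Agent.Kempe Pool.Agent.KempeMix Pool.Agent.Eps26 Pool.Agent.Gas26
open Pool.Agent.Ex26 (rst ev2 cl)

/-- the choice of the radius and of the accuracy -/
theorem l_LocI_choice (A B θ L δ : ℝ) (hA : 0 ≤ A) (hB : 0 ≤ B) (hθ0 : 0 ≤ θ) (hθ1 : θ < 1)
    (hL : 0 < L) (hδ : 0 < δ) :
    ∃ (δ' : ℝ) (r : ℕ), 0 < δ' ∧ δ' ≤ δ ∧ A * (δ' + θ ^ r) + B * δ' ≤ L := by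
  obtain ⟨r, hr⟩ := exists_pow_lt_of_lt_one (show 0 < L / (2 * (A + 1)) by positivity) hθ1
  refine ⟨min δ (L / (2 * (A + B + 1))), r, lt_min hδ (by positivity), min_le_left _ _, ?_⟩
  have h1 : min δ (L / (2 * (A + B + 1))) ≤ L / (2 * (A + B + 1)) := min_le_right _ _
  set t := min δ (L / (2 * (A + B + 1)))
  have h2 : (A + B) * t ≤ L / 2 := by
    calc (A + B) * t ≤ (A + B + 1) * (L / (2 * (A + B + 1))) := by
          have ht : 0 ≤ t := le_min hδ.le (by positivity)
          have : (A + B) * t ≤ (A + B + 1) * t := by nlinarith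
          exact this.trans (mul_le_mul_of_nonneg_left h1 (by positivity))
      _ = L / 2 := by field_simp
  have h3 : A * θ ^ r ≤ L / 2 := by
    calc A * θ ^ r ≤ (A + 1) * (L / (2 * (A + 1))) := by
          have hp : 0 ≤ θ ^ r := pow_nonneg hθ0 r
          have : A * θ ^ r ≤ (A + 1) * θ ^ r := by nlinarith
          exact this.trans (mul_le_mul_of_nonneg_left hr.le (by positivity))
      _ = L / 2 := by field_simp
  linarith

section inst

variable {V C : Type} [Fintype V] [Fintype C] {G : SimpleGraph V} {U : Finset V}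
  {L : V → Finset C} {p : V → C} {s : ℕ} {c : C}

theorem l_LocI_good (hG : Good G U L s) (hs : 3 ≤ s) (c : C) : Good G U (Lc L c) (s - 1) := by
  refine ⟨by omega, fun v hv => ?_⟩
  have h1 := hG.2 v hv
  have h2 : (L v).card ≤ (Lc L c v).card + 1 := by
    have := Finset.pred_card_le_card_erase (s := L v) (a := c)
    unfold Lc
    omega
  omega

theorem l_LocI_indep {f : V → C} (hf : f ∈ Col G U L p) : Ic U c f ∈ IS (rst G U) := by
  rw [mem_IS]
  intro u hu w hw hadj
  rw [mem_Ic] at hu hw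
  rw [rst_adj] at hadj
  exact (mem_Col.1 hf).2.2 u hu.1 w hw.1 hadj.1 (hu.2.trans hw.2.symm)

theorem l_LocI_zero {k kp : Finset V}
    (h : ¬ (kp ∈ IS (rst G U) ∧ ∀ v ∈ kp, v ∈ U ∧ c ∈ L v)) :
    pm G U L p c k kp = 0 ∧ PP (rst G U) (cap G U L p c 0) k kp = 0 := by
  constructor
  · unfold pm
    rw [ev_congr (h := fun _ => (0 : ℝ)) (Col G U L p)]
    · unfold ev; simp
    · intro f hf
      refine if_neg fun he => h ?_
      have hsub : kp ⊆ Ic U c f := by rw [← he]; exact Finset.inter_subset_left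
      refine ⟨?_, fun v hv => ?_⟩
      · rw [mem_IS]
        intro u hu w hw
        exact mem_IS.1 (l_LocI_indep hf) u (hsub hu) w (hsub hw)
      · have h1 := mem_Ic.1 (hsub hv)
        refine ⟨h1.1, ?_⟩
        have h2 := (mem_Col.1 hf).2.1 v h1.1
        rwa [h1.2] at h2
  · unfold PP
    have hz : Eg (rst G U) (cap G U L p c 0) (fun S => if S ∩ CN (rst G U) k = kp then (1 : ℝ) else 0)
        = Eg (rst G U) (cap G U L p c 0) (fun _ => 0) := by
      refine Eg_congr fun S hS hne => if_neg fun he => h ?_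
      have hsub : kp ⊆ S := by rw [← he]; exact Finset.inter_subset_left
      refine ⟨?_, fun v hv => ?_⟩
      · rw [mem_IS]
        intro u hu w hw
        exact mem_IS.1 hS u (hsub hu) w (hsub hw)
      · by_contra hc
        exact hne v (hsub hv) (if_neg hc)
    rw [hz]
    unfold Eg; simp

theorem l_LocI_pm (h1 : Ext) (hG : Good G U L s) (k kp : Finset V) :
    pm G U L p c k kp = ms G U L p c (fun _ => ∅)
      (fun σ => PP (rst G U) (wD G U L c (fun _ => ∅) σ) k kp) := by
  unfold pm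
  rw [h1 V C G U L p s c (fun _ => ∅) hG (fun u _ => by simpa using hG.1)]
  refine ms_congr fun σ hσ => ?_
  unfold PP
  refine Eg_congr fun S hS hne => ?_
  have := of_wD hne
  rw [Ic_rc hσ (fun v hv => (this v hv).1)]

theorem l_LocI_up (hG : Good G U L s) (ε : ℝ) (hε : 0 < ε) (hq : 1 ≤ Fintype.card C)
    (hs : ε * (Fintype.card C : ℝ) ≤ s) {k kp : Finset V} (hk : kp ⊆ k)
    (hI : kp ∈ IS (rst G U)) (σ : V → C) :
    PP (rst G U) (wD G U L c (fun _ => ∅) σ) k kp ≤
      (2 / (ε * (Fintype.card C : ℝ))) ^ kp.card := by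
  have hq' : (1 : ℝ) ≤ (Fintype.card C : ℝ) := by exact_mod_cast hq
  have hs2 : (2 : ℝ) ≤ s := by exact_mod_cast hG.1
  have hw1 : ∀ v, wD G U L c (fun _ => ∅) σ v ≤ 1 := fun v =>
    (wD_le hG v).trans (by rw [div_le_one (by linarith)]; linarith)
  have hw2 : ∀ v, wD G U L c (fun _ => ∅) σ v ≤ 2 / (ε * (Fintype.card C : ℝ)) := fun v => by
    refine (wD_le hG v).trans ?_
    rw [div_le_div_iff₀ (by linarith) (by positivity)]
    linarith
  have h := (gPPb V (rst G U) (wD G U L c (fun _ => ∅) σ) k kp (Fintype.card C : ℝ)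
    (Fintype.card C : ℝ) (by linarith) hq'
    (fun v => ⟨wD_nonneg v, by rw [div_self (by linarith)]; exact hw1 v⟩)
    (card_cn_le hG hq) hk hI).1
  refine h.trans ?_
  unfold gw
  rw [← Finset.prod_const]
  exact Finset.prod_le_prod (fun v _ => wD_nonneg v) (fun v _ => hw2 v)

theorem l_LocI_cap_le (hG : Good G U L s) (ε δ : ℝ) (hε : 0 < ε) (hδ0 : 0 ≤ δ) (hδ1 : δ ≤ 1 / 2)
    (hq : 1 ≤ Fintype.card C) (hs : ε * (Fintype.card C : ℝ) ≤ s) (v : V) :
    0 ≤ cap G U L p c δ v ∧ cap G U L p c δ v ≤ (2 / ε) / (Fintype.card C : ℝ) := by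
  have hq' : (1 : ℝ) ≤ (Fintype.card C : ℝ) := by exact_mod_cast hq
  have hs2 : (2 : ℝ) ≤ s := by exact_mod_cast hG.1
  unfold cap
  split_ifs with h
  · have hb := bt_ge (p := p) hG h.1
    refine ⟨div_nonneg (by linarith) (by linarith), ?_⟩
    rw [div_div, div_le_div_iff₀ (by linarith) (by positivity)]
    nlinarith [mul_pos hε (by linarith : (0 : ℝ) < (Fintype.card C : ℝ))]
  · exact ⟨le_rfl, by positivity⟩

theorem l_LocI_low (hG : Good G U L s) (ε : ℝ) (hε : 0 < ε) (hq : 1 ≤ Fintype.card C)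
    (hs : ε * (Fintype.card C : ℝ) ≤ s) {k kp : Finset V} (hk : kp ⊆ k)
    (hI : kp ∈ IS (rst G U)) (hV : ∀ v ∈ kp, v ∈ U ∧ c ∈ L v) {m : ℕ} (hm : k.card ≤ m) :
    (1 / (Fintype.card C : ℝ)) ^ kp.card * Real.exp (-(2 / ε * m)) ≤
      PP (rst G U) (cap G U L p c 0) k kp := by
  have hq' : (1 : ℝ) ≤ (Fintype.card C : ℝ) := by exact_mod_cast hq
  have hs2 : (2 : ℝ) ≤ s := by exact_mod_cast hG.1
  have h := (gPPb V (rst G U) (cap G U L p c 0) k kp (2 / ε)
    (Fintype.card C : ℝ) (by positivity) hq'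
    (l_LocI_cap_le hG ε 0 hε le_rfl (by norm_num) hq hs)
    (card_cn_le hG hq) hk hI).2
  refine le_trans ?_ h
  refine mul_le_mul ?_ ?_ (Real.exp_pos _).le
    (gw_nonneg (fun v => (l_LocI_cap_le hG ε 0 hε le_rfl (by norm_num) hq hs v).1) _)
  · unfold gw
    rw [← Finset.prod_const]
    refine Finset.prod_le_prod (fun v _ => by positivity) (fun v hv => ?_)
    unfold cap
    rw [if_pos (hV v hv), add_zero]
    have hb := bt_ge (p := p) hG (hV v hv).1
    exact one_div_le_one_div_of_le (by linarith) (bt_le hG v)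
  · refine Real.exp_le_exp.2 (neg_le_neg (mul_le_mul_of_nonneg_left ?_ (by positivity)))
    exact_mod_cast hm

theorem l_LocI_crude (hG : Good G U L s) (ε : ℝ) (hε : 0 < ε) (hε1 : ε ≤ 1)
    (hq : 1 ≤ Fintype.card C)
    (hs : ε * (Fintype.card C : ℝ) ≤ s) {k kp : Finset V} (hk : kp ⊆ k)
    (hI : kp ∈ IS (rst G U)) (hV : ∀ v ∈ kp, v ∈ U ∧ c ∈ L v) {m : ℕ} (hm : k.card ≤ m)
    (σ : V → C) :
    |PP (rst G U) (wD G U L c (fun _ => ∅) σ) k kp - PP (rst G U) (cap G U L p c 0) k kp| ≤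
      (1 + (2 / ε) ^ m * Real.exp (2 / ε * m)) * PP (rst G U) (cap G U L p c 0) k kp := by
  have hq' : (1 : ℝ) ≤ (Fintype.card C : ℝ) := by exact_mod_cast hq
  have h1 := l_LocI_up (c := c) hG ε hε hq hs hk hI σ
  have h2 := l_LocI_low (p := p) hG ε hε hq hs hk hI hV hm
  have h0 : 0 ≤ PP (rst G U) (wD G U L c (fun _ => ∅) σ) k kp := by
    unfold PP
    refine Eg_nonneg wD_nonneg fun S _ _ => ?_
    split_ifs
    · exact zero_le_one
    · exact le_rfl
  set P0 := PP (rst G U) (cap G U L p c 0) k kp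
  set Pw := PP (rst G U) (wD G U L c (fun _ => ∅) σ) k kp
  have hP0 : 0 ≤ P0 := le_trans (by positivity) h2
  have h3 : (2 / (ε * (Fintype.card C : ℝ))) ^ kp.card ≤
      (2 / ε) ^ m * Real.exp (2 / ε * m) *
        ((1 / (Fintype.card C : ℝ)) ^ kp.card * Real.exp (-(2 / ε * m))) := by
    have e1 : (2 / ε) ^ m * Real.exp (2 / ε * m) *
        ((1 / (Fintype.card C : ℝ)) ^ kp.card * Real.exp (-(2 / ε * m))) =
        (2 / ε) ^ m * (1 / (Fintype.card C : ℝ)) ^ kp.card := by
      rw [Real.exp_neg]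
      field_simp
    have e2 : (2 / (ε * (Fintype.card C : ℝ))) ^ kp.card =
        (2 / ε) ^ kp.card * (1 / (Fintype.card C : ℝ)) ^ kp.card := by
      rw [← mul_pow]
      congr 1
      field_simp
    rw [e1, e2]
    refine mul_le_mul_of_nonneg_right ?_ (by positivity)
    refine pow_le_pow_right₀ ?_ ((Finset.card_le_card hk).trans hm)
    rw [le_div_iff₀ hε]
    linarith
  have h4 : Pw ≤ (2 / ε) ^ m * Real.exp (2 / ε * m) * P0 :=
    h1.trans (h3.trans (mul_le_mul_of_nonneg_left h2 (by positivity)))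
  have h5 : 0 ≤ (2 / ε) ^ m * Real.exp (2 / ε * m) * P0 := by positivity
  rw [abs_le]
  constructor
  · nlinarith
  · nlinarith

end inst

theorem s_LocI (h1 : Ext) (h2 : Bad) (h3 : Ball) (h4 : LocZ) : LocI := by
  intro ε δ P η m hε hε1 hδ hδ1 hP hη
  have hM : 0 < 2 / ε := by positivity
  have hθ0 : 0 ≤ (2 / ε) / (1 + 2 / ε) := by positivity
  have hθ1 : (2 / ε) / (1 + 2 / ε) < 1 := by
    rw [div_lt_one (by positivity)]; linarith
  have hL : 0 < Real.log (1 + η / 2) := Real.log_pos (by linarith)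
  obtain ⟨δ', r, hδ'0, hδ'1, hch⟩ := l_LocI_choice (2 * (2 / ε) * (2 / ε) * m) (2 * m)
    ((2 / ε) / (1 + 2 / ε)) (Real.log (1 + η / 2)) δ (by positivity) (by positivity) hθ0 hθ1 hL hδ
  obtain ⟨K, q1, hK, hbad⟩ := h2 ε P δ' (r + 3) hε hP hδ'0
  set Bc : ℝ := 1 + (2 / ε) ^ m * Real.exp (2 / ε * m) with hBc
  have hBc0 : 0 < Bc := by positivity
  obtain ⟨q2, hq2⟩ := exists_nat_ge (3 / ε)
  obtain ⟨q3, hq3⟩ := exists_nat_ge (2 * Bc * m * K / η)
  refine ⟨q1 + q2 + q3 + 1, ?_⟩
  intro V C _ _ G U L p s hq hs hG hPo c hAdm k kp hk hkp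
  have hq1 : 1 ≤ Fintype.card C := by omega
  have hq' : (1 : ℝ) ≤ (Fintype.card C : ℝ) := by exact_mod_cast hq1
  have hq2' : (3 / ε) ≤ (Fintype.card C : ℝ) :=
    hq2.trans (by exact_mod_cast (by omega : q2 ≤ Fintype.card C))
  have hq3' : 2 * Bc * m * K / η ≤ (Fintype.card C : ℝ) :=
    hq3.trans (by exact_mod_cast (by omega : q3 ≤ Fintype.card C))
  have hs3 : 3 ≤ s := by
    have : (3 : ℝ) ≤ s := by
      rw [div_le_iff₀ hε] at hq2'
      linarith
    exact_mod_cast this
  by_cases hcase : kp ∈ IS (rst G U) ∧ ∀ v ∈ kp, v ∈ U ∧ c ∈ L v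
  swap
  · obtain ⟨e1, e2⟩ := l_LocI_zero (p := p) (k := k) hcase
    rw [e1, e2]; simp
  obtain ⟨hI, hV⟩ := hcase
  have hne : (Col G U (Lc L c) p).Nonempty := Col_nonempty (l_LocI_good hG hs3 c) p
  have hcap := l_LocI_cap_le (p := p) (c := c) hG ε δ hε hδ.le hδ1 hq1 hs
  have hcap0 := l_LocI_cap_le (p := p) (c := c) hG ε 0 hε le_rfl (by norm_num) hq1 hs
  have hCls : Cls (rst G U) (cap G U L p c δ) (2 / ε) (2 / ε) (Fintype.card C : ℝ) := by
    have h2e : 1 ≤ 2 / ε := by rw [le_div_iff₀ hε]; linarith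
    exact ⟨h2e, h2e, hq', hcap, card_cn_le hG hq1, hAdm⟩
  have hs2 : (2 : ℝ) ≤ s := by exact_mod_cast hG.1
  have hbt : ∀ v ∈ U, 0 < bt G U L p v := fun v hv =>
    lt_of_lt_of_le (by linarith) (bt_ge (p := p) hG hv)
  set P0 := PP (rst G U) (cap G U L p c 0) k kp with hP0
  have hP00 : 0 ≤ P0 := le_trans (by positivity) (l_LocI_low (p := p) hG ε hε hq1 hs hkp hI hV hk)
  set R : Finset V := (Bl (rst G U) k (r + 1)).filter (fun v => v ∈ U ∧ c ∈ L v) with hR
  set bd : V → (V → C) → ℝ := fun v σ =>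
    if δ' / bt G U L p v < |wD G U L c (fun _ => ∅) σ v - 1 / bt G U L p v| then 1 else 0 with hbd
  have hbd0 : ∀ v σ, 0 ≤ bd v σ := by
    intro v σ
    simp only [hbd]
    split_ifs
    · exact zero_le_one
    · exact le_rfl
  -- the local estimate
  have hpt : ∀ σ, |PP (rst G U) (wD G U L c (fun _ => ∅) σ) k kp - P0| ≤
      η / 2 * P0 + Bc * P0 * ∑ v ∈ R, bd v σ := by
    intro σ
    by_cases hb : ∀ v ∈ R, bd v σ = 0
    · have hsum : ∑ v ∈ R, bd v σ = 0 := Finset.sum_eq_zero hb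
      rw [hsum, mul_zero, add_zero]
      have hz := h4 V (rst G U) (cap G U L p c δ) (2 / ε) (2 / ε) (Fintype.card C : ℝ) hCls
        (cap G U L p c 0) (wD G U L c (fun _ => ∅) σ) k kp r δ' ?_ wD_nonneg hδ'0.le
        (hδ'1.trans hδ1) hkp hI ?_ ?_
      · refine hz.trans (mul_le_mul_of_nonneg_right ?_ hP00)
        have hkm : (k.card : ℝ) ≤ m := by exact_mod_cast hk
        have hexp : 2 * (2 / ε) * (2 / ε) * (k.card : ℝ) *
            (δ' + ((2 / ε) / (1 + 2 / ε)) ^ r) + 2 * δ' * (k.card : ℝ) ≤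
            Real.log (1 + η / 2) := by
          refine le_trans (add_le_add ?_ ?_) hch
          · refine mul_le_mul_of_nonneg_right ?_ (by positivity)
            exact mul_le_mul_of_nonneg_left hkm (by positivity)
          · nlinarith
        have := Real.exp_le_exp.2 hexp
        rw [Real.exp_log (by linarith)] at this
        linarith
      · intro v
        refine ⟨(hcap0 v).1, ?_⟩
        unfold cap
        split_ifs with h
        · have := hbt v h.1
          exact div_le_div_of_nonneg_right (by linarith) this.le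
        · exact le_rfl
      · intro v hv
        unfold cap
        rw [if_pos (hV v hv)]
        exact div_pos (by norm_num) (hbt v (hV v hv).1)
      · intro v hv
        by_cases hvc : v ∈ U ∧ c ∈ L v
        · have hvR : v ∈ R := Finset.mem_filter.2 ⟨hv, hvc⟩
          have h0 := hb v hvR
          have h0' : ¬ (δ' / bt G U L p v <
              |wD G U L c (fun _ => ∅) σ v - 1 / bt G U L p v|) := by
            intro hlt
            simp only [hbd] at h0
            rw [if_pos hlt] at h0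
            exact one_ne_zero h0
          have h0'' := not_lt.1 h0'
          have hb0 := hbt v hvc.1
          have ec : cap G U L p c 0 v = 1 / bt G U L p v := by
            unfold cap; rw [if_pos hvc, add_zero]
          have ec' : cap G U L p c δ v = (1 + δ) / bt G U L p v := by
            unfold cap; rw [if_pos hvc]
          rw [ec, ec']
          constructor
          · have h5 := (abs_le.1 h0'').2
            have h6 : δ' / bt G U L p v ≤ δ / bt G U L p v :=
              div_le_div_of_nonneg_right hδ'1 hb0.le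
            rw [add_div]
            linarith
          · rw [mul_one_div]; exact h0''
        · have e1 : wD G U L c (fun _ => ∅) σ v = 0 := by
            unfold wD
            exact if_neg fun h => hvc ⟨h.1, h.2.1⟩
          have e2 : cap G U L p c 0 v = 0 := if_neg hvc
          have e3 : cap G U L p c δ v = 0 := if_neg hvc
          rw [e1, e2, e3]; simp
    · push Not at hb
      obtain ⟨v, hv, hne'⟩ := hb
      have h1v : bd v σ = 1 := by
        by_contra hc
        apply hne'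
        simp only [hbd] at hc ⊢
        split_ifs with hlt
        · rw [if_pos hlt] at hc; exact absurd rfl hc
        · rfl
      have hge : 1 ≤ ∑ v ∈ R, bd v σ := by
        rw [← h1v]
        exact Finset.single_le_sum (f := fun v => bd v σ) (fun w _ => hbd0 w σ) hv
      have hcr := l_LocI_crude (p := p) hG ε hε hε1 hq1 hs hkp hI hV hk σ
      refine hcr.trans ?_
      have h6 : Bc * P0 * 1 ≤ Bc * P0 * ∑ v ∈ R, bd v σ :=
        mul_le_mul_of_nonneg_left hge (by positivity)
      have h7 : 0 ≤ η / 2 * P0 := by positivity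
      linarith
  -- the mean
  rw [l_LocI_pm h1 hG k kp]
  have hmean : ms G U L p c (fun _ => ∅)
      (fun σ => PP (rst G U) (wD G U L c (fun _ => ∅) σ) k kp) - P0 =
      ms G U L p c (fun _ => ∅)
      (fun σ => PP (rst G U) (wD G U L c (fun _ => ∅) σ) k kp - P0) := by
    rw [ms_sub, ms_const hne]
  rw [hmean]
  refine (abs_ms_le _).trans ((ms_mono fun σ _ => hpt σ).trans ?_)
  rw [ms_add, ms_const hne, ms_mul_left, ms_sum]
  have hbsum : ∑ v ∈ R, ms G U L p c (fun _ => ∅) (bd v) ≤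
      m * K / (Fintype.card C : ℝ) := by
    have hb1 : ∀ v ∈ R, ms G U L p c (fun _ => ∅) (bd v) ≤
        K / (Fintype.card C : ℝ) ^ (r + 3) := by
      intro v hv
      have hv' := (Finset.mem_filter.1 hv).2
      exact hbad V C G U L p s (by omega) hs hG hPo c v hv'.1 hv'.2
    have hb2 := Finset.sum_le_card_nsmul R _ _ hb1
    rw [nsmul_eq_mul] at hb2
    have hball := (h3 V (rst G U) k (r + 2) (Fintype.card C : ℝ) (by linarith)
      (card_cn_le hG hq1)).2.2.2.1 (r + 1)
    have hRc : (R.card : ℝ) ≤ (Fintype.card C : ℝ) ^ (r + 2) * m := by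
      have hsub : (R.card : ℝ) ≤ ((Bl (rst G U) k (r + 1)).card : ℝ) := by
        exact_mod_cast Finset.card_filter_le _ _
      refine hsub.trans (hball.trans ?_)
      refine mul_le_mul_of_nonneg_left ?_ (by positivity)
      exact_mod_cast hk
    refine hb2.trans ((mul_le_mul_of_nonneg_right hRc (by positivity)).trans (le_of_eq ?_))
    have hq0 : (Fintype.card C : ℝ) ≠ 0 := by linarith
    rw [pow_succ _ (r + 2)]
    field_simp
  have hfin : Bc * P0 * (m * K / (Fintype.card C : ℝ)) ≤ η / 2 * P0 := by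
    have h8 : Bc * (m * K / (Fintype.card C : ℝ)) ≤ η / 2 := by
      rw [div_le_iff₀ hη] at hq3'
      rw [← mul_div_assoc, div_le_iff₀ (by linarith)]
      nlinarith
    nlinarith
  have h9 : Bc * P0 * ∑ v ∈ R, ms G U L p c (fun _ => ∅) (bd v) ≤
      Bc * P0 * (m * K / (Fintype.card C : ℝ)) :=
    mul_le_mul_of_nonneg_left hbsum (by positivity)
  linarith

end Pool.Agent.Loc26
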