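import Pool.Agent.Lib.MP_26a019_lc.Ex.LocSpec

set_option autoImplicit false
set_option linter.unusedSectionVars false
set_option linter.unusedVariables false

/-!
# Every colour of the list is available with probability at least `exp (-2/ε)`
-/

open Finset Classical

namespace Pool.Agent.Loc26

open Pool.Agent.Kempe Pool.Agent.KempeMix Pool.Agent.Eps26 Pool.Agent.Gas26
open Pool.Agent.Ex26 (rst ev2 cl ClSmall ClTail AllPoin PartAB)

section lowaux

variable {V C : Type} [Fintype V] [Fintype C]

theorem l_Low_good {G : SimpleGraph V} {U : Finset V} {L : V → Finset C} {s : ℕ} (hs : 3 ≤ s)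
    (hG : Good G U L s) (c : C) : Good G U (Lc L c) (s - 1) := by
  refine ⟨by omega, fun v hv => ?_⟩
  have h1 := hG.2 v hv
  have h2 : (L v).card - 1 ≤ (Lc L c v).card := Finset.pred_card_le_card_erase
  omega

theorem l_Low_disj {G : SimpleGraph V} {w : V → ℝ} (X : Finset V) :
    Eg G w (fun S => if Disjoint S X then 1 else 0) = Zp G (off w X) / Zp G w := by
  unfold Eg
  congr 1
  unfold Zp
  refine Finset.sum_congr rfl fun S _ => ?_
  rw [gw_off]
  beta_reduce
  by_cases hd : Disjoint S X
  · rw [if_pos hd, if_pos hd, mul_one]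
  · rw [if_neg hd, if_neg hd, mul_zero]

theorem l_Low_gas {G : SimpleGraph V} {w : V → ℝ} (hw : ∀ v, 0 ≤ w v) (X : Finset V) (t : ℝ)
    (ht : ∑ v ∈ X, w v ≤ t) :
    Real.exp (-t) ≤ Eg G w (fun S => if Disjoint S X then 1 else 0) := by
  rw [l_Low_disj, le_div_iff₀ (Zp_pos hw)]
  have h1 := s_Zlow V G w X hw
  have h2 : 0 < Zp G (off w X) := Zp_pos (off_nonneg hw X)
  calc Real.exp (-t) * Zp G w ≤ Real.exp (-t) * (Real.exp (∑ v ∈ X, w v) * Zp G (off w X)) :=
        mul_le_mul_of_nonneg_left h1 (Real.exp_pos _).le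
    _ ≤ Real.exp (-t) * (Real.exp t * Zp G (off w X)) := by
        refine mul_le_mul_of_nonneg_left ?_ (Real.exp_pos _).le
        exact mul_le_mul_of_nonneg_right (Real.exp_le_exp.2 ht) h2.le
    _ = Zp G (off w X) := by
        rw [← mul_assoc, ← Real.exp_add, neg_add_cancel, Real.exp_zero, one_mul]

end lowaux

theorem s_Low (h : Ext) : Low := by
  intro V C _ _ G U L p s ε hε hs hq hG u hu a ha
  have hG' := l_Low_good hs hG a
  have hne : (Col G U (Lc L a) p).Nonempty := Col_nonempty hG' p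
  rw [h V C G U L p s a (fun _ => ∅) hG
    (fun v _ => by rw [Finset.card_empty]; omega) (fun f => if a ∈ av G U L f u then 1 else 0)]
  rw [← ms_const (G := G) (U := U) (L := L) (p := p) (c := a) (Dl := fun _ => ∅) hne
    (Real.exp (-(2 / ε)))]
  refine ms_mono fun σ hσ => ?_
  have hw : ∀ v, 0 ≤ wD G U L a (fun _ => ∅) σ v := wD_nonneg
  have hsR : (3 : ℝ) ≤ s := by exact_mod_cast hs
  -- the sum of the activities
  have hsum : ∑ v ∈ nb G U u, wD G U L a (fun _ => ∅) σ v ≤ 2 / ε := by
    have h1 : ∀ v ∈ nb G U u, wD G U L a (fun _ => ∅) σ v ≤ 2 / (s : ℝ) := by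
      intro v _
      refine (wD_le hG v).trans ?_
      rw [div_le_div_iff₀ (by linarith) (by linarith)]
      linarith
    have h2 : ((nb G U u).card : ℝ) ≤ (Fintype.card C : ℝ) := by
      have h3 := hG.2 u hu
      have h4 := card_L_le (L := L) u
      exact_mod_cast (by omega : (nb G U u).card ≤ Fintype.card C)
    calc ∑ v ∈ nb G U u, wD G U L a (fun _ => ∅) σ v ≤ ∑ v ∈ nb G U u, 2 / (s : ℝ) :=
          Finset.sum_le_sum h1
      _ = ((nb G U u).card : ℝ) * (2 / (s : ℝ)) := by rw [Finset.sum_const, nsmul_eq_mul]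
      _ ≤ (Fintype.card C : ℝ) * (2 / (s : ℝ)) := by
          refine mul_le_mul_of_nonneg_right h2 (by positivity)
      _ ≤ 2 / ε := by
          rw [mul_div_assoc', div_le_div_iff₀ (by linarith) hε]
          nlinarith
  refine (l_Low_gas (G := rst G U) hw (nb G U u) (2 / ε) hsum).trans ?_
  refine Eg_mono hw fun S _ hS => ?_
  by_cases hd : Disjoint S (nb G U u)
  · have hav : a ∈ av G U L (rc σ S a) u := by
      rw [mem_av]
      refine ⟨ha, fun w hwn => ?_⟩
      have hwS : w ∉ S := fun hwS => Finset.disjoint_left.1 hd hwS hwn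
      unfold rc
      rw [if_neg hwS]
      have h1 := (mem_Col.1 hσ).2.1 w (mem_nb.1 hwn).1
      rw [Lc, Finset.mem_erase] at h1
      exact h1.1
    rw [if_pos hd, if_pos hav]
  · rw [if_neg hd]
    split_ifs
    · exact zero_le_one
    · exact le_rfl

end Pool.Agent.Loc26
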