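import Pool.Agent.Lib.MP_26a019_lc.Ex.LocSpec

set_option autoImplicit false
set_option linter.unusedVariables false

/-!
# Part AB, colouring part: one step of the moment recursion
-/

open Finset Classical

namespace Pool.Agent.Loc26

open Pool.Agent.Kempe Pool.Agent.KempeMix Pool.Agent.Eps26 Pool.Agent.Gas26
open Pool.Agent.Ex26 (rst ev2 cl)

theorem l_MomS_pt1 (x : ℝ) (k : ℕ) :
    (|x| + 1) ^ (2 * (k - 1)) ≤ 4 ^ (k - 1) * (x ^ (2 * (k - 1)) + 1) := by
  set n := k - 1 with hn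
  have hx : 0 ≤ |x| := abs_nonneg x
  have h1 : x ^ (2 * n) = |x| ^ (2 * n) := by
    rw [pow_mul, pow_mul, sq_abs]
  rw [h1]
  have h4 : (4 : ℝ) ^ n = 2 ^ (2 * n) := by
    rw [pow_mul]; norm_num
  rw [h4]
  rcases le_total |x| 1 with h | h
  · have h2 : (|x| + 1) ^ (2 * n) ≤ 2 ^ (2 * n) :=
      pow_le_pow_left₀ (by linarith) (by linarith) _
    have h3 : 0 ≤ (2 : ℝ) ^ (2 * n) * |x| ^ (2 * n) := by positivity
    nlinarith
  · have h2 : (|x| + 1) ^ (2 * n) ≤ (2 * |x|) ^ (2 * n) :=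
      pow_le_pow_left₀ (by linarith) (by linarith) _
    rw [mul_pow] at h2
    have h3 : 0 ≤ (2 : ℝ) ^ (2 * n) := by positivity
    nlinarith

theorem l_MomS_pt2 (x T : ℝ) (hT : 0 ≤ T) (k : ℕ) (hk : 1 ≤ k) :
    T * x ^ (2 * (k - 1)) ≤ x ^ (2 * k) / 2 + (2 * T) ^ k := by
  obtain ⟨n, rfl⟩ : ∃ n, k = n + 1 := ⟨k - 1, by omega⟩
  rw [Nat.add_sub_cancel]
  have h1 : x ^ (2 * (n + 1)) = x ^ (2 * n) * x ^ 2 := by
    rw [← pow_add]; congr 1
  have h2 : 0 ≤ x ^ (2 * n) := by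
    rw [pow_mul]; positivity
  rw [h1]
  rcases le_total (2 * T) (x ^ 2) with h | h
  · have h3 : 0 ≤ (2 * T) ^ (n + 1) := by positivity
    nlinarith [mul_le_mul_of_nonneg_left h h2]
  · have h3 : x ^ (2 * n) ≤ (2 * T) ^ n := by
      rw [pow_mul]
      exact pow_le_pow_left₀ (sq_nonneg x) h n
    have h4 : T * x ^ (2 * n) ≤ T * (2 * T) ^ n := mul_le_mul_of_nonneg_left h3 hT
    have h5 : 0 ≤ (2 * T) ^ n := by positivity
    have h6 : 0 ≤ x ^ (2 * n) * x ^ 2 / 2 := by positivity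
    have h7 : (2 * T) ^ (n + 1) = 2 * (T * (2 * T) ^ n) := by
      rw [pow_succ]; ring
    have h8 : 0 ≤ T * (2 * T) ^ n := mul_nonneg hT h5
    linarith

theorem s_MomS (h : DirL) : MomS := by
  intro P k hP hk
  set c0 : ℝ := 4 ^ (k - 1) * P * (k : ℝ) ^ 2 with hc0
  have hkr : (0 : ℝ) < k := by exact_mod_cast hk
  have hc0p : 0 < c0 := by positivity
  refine ⟨2 * ((2 * c0) ^ k + c0), by positivity, ?_⟩
  intro V C _ _ G U L p s hG hPo u hu g hg
  set A := Col G U L p with hA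
  have hAne : A.Nonempty := Col_nonempty hG p
  set q : ℝ := (Fintype.card C : ℝ) with hq
  have hq1 : 1 ≤ q := by
    have h1 := hG.2 u hu
    have h2 := card_L_le (L := L) u
    have h3 := hG.1
    rw [hq]
    exact_mod_cast (by omega : 1 ≤ Fintype.card C)
  have hd := h V C G U L p s hG u hu g hg k hk
  have hv : vr A (fun f => g f ^ k) ≤ P * dir G U L p (fun f => g f ^ k) := hPo _
  have hve := vr_eq hAne (fun f => g f ^ k)
  have h1 : ev A (fun f => (g f ^ k) ^ 2) = ev A (fun f => g f ^ (2 * k)) :=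
    ev_congr _ fun f _ => by rw [← pow_mul, mul_comm k 2]
  rw [h1] at hve
  -- the pointwise bound
  have h2 : P * ((k : ℝ) ^ 2 * q * ev A (fun f => (|g f| + 1) ^ (2 * (k - 1)))) ≤
      ev A (fun f => g f ^ (2 * k) / 2 + ((2 * (c0 * q)) ^ k + c0 * q)) := by
    have h3 : P * ((k : ℝ) ^ 2 * q * ev A (fun f => (|g f| + 1) ^ (2 * (k - 1)))) =
        ev A (fun f => (P * (k : ℝ) ^ 2 * q) * (|g f| + 1) ^ (2 * (k - 1))) := by
      rw [ev_mul_left]; ring
    rw [h3]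
    refine ev_mono _ fun f _ => ?_
    have h4 := l_MomS_pt1 (g f) k
    have h5 := l_MomS_pt2 (g f) (c0 * q) (by positivity) k hk
    have h6 : 0 ≤ P * (k : ℝ) ^ 2 * q := by positivity
    have h7 := mul_le_mul_of_nonneg_left h4 h6
    have h8 : P * (k : ℝ) ^ 2 * q * (4 ^ (k - 1) * (g f ^ (2 * (k - 1)) + 1)) =
        c0 * q * g f ^ (2 * (k - 1)) + c0 * q := by
      rw [hc0]; ring
    linarith
  rw [ev_add, ev_const hAne] at h2
  have h9 : ev A (fun f => g f ^ (2 * k) / 2) = ev A (fun f => g f ^ (2 * k)) / 2 := by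
    have := ev_mul_left A (1 / 2) (fun f => g f ^ (2 * k))
    rw [show ev A (fun f => g f ^ (2 * k) / 2) = ev A (fun f => 1 / 2 * g f ^ (2 * k)) from
      ev_congr _ fun f _ => by ring, this]
    ring
  rw [h9] at h2
  have h10 : P * dir G U L p (fun f => g f ^ k) ≤
      P * ((k : ℝ) ^ 2 * q * ev A (fun f => (|g f| + 1) ^ (2 * (k - 1)))) :=
    mul_le_mul_of_nonneg_left hd hP.le
  have h11 : (2 * (c0 * q)) ^ k + c0 * q ≤ ((2 * c0) ^ k + c0) * q ^ k := by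
    have h12 : q ≤ q ^ k := le_self_pow₀ hq1 (by omega)
    have h13 : (2 * (c0 * q)) ^ k = (2 * c0) ^ k * q ^ k := by
      rw [← mul_pow]; ring
    rw [h13, add_mul]
    nlinarith [mul_le_mul_of_nonneg_left h12 hc0p.le]
  have h14 : ev A (fun f => g f ^ (2 * k)) ≤ 2 * (ev A (fun f => g f ^ k)) ^ 2 +
      2 * ((2 * (c0 * q)) ^ k + c0 * q) := by
    linarith
  refine h14.trans ?_
  have h15 : 2 * ((2 * c0) ^ k + c0) * q ^ k = 2 * (((2 * c0) ^ k + c0) * q ^ k) := by ring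
  rw [h15]
  linarith

end Pool.Agent.Loc26
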