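import Pool.Agent.Lib.MP_26a019_lc.Ex.LocSpec

set_option autoImplicit false
set_option linter.unusedVariables false
set_option linter.unusedSectionVars false

/-!
# Module Sing: one vertex
-/

open Finset Classical

namespace Pool.Agent.Loc26

open Pool.Agent.Kempe Pool.Agent.KempeMix Pool.Agent.Eps26 Pool.Agent.Gas26
open Pool.Agent.Ex26 (rst ev2 cl)

section sing

variable {V C : Type} [Fintype V] [Fintype C]

/-- the pattern of an independent set on the closed neighbourhood of one vertex -/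
theorem l_Sing_pat {H : SimpleGraph V} {S : Finset V} (hS : S ∈ IS H) (v : V) :
    S ∩ CN H {v} = {v} ↔ v ∈ S := by
  have hCN : CN H {v} = cn H v := by unfold CN; rw [Finset.singleton_biUnion]
  rw [hCN]
  constructor
  · intro h
    have h1 : v ∈ S ∩ cn H v := by rw [h]; exact Finset.mem_singleton_self v
    exact (Finset.mem_inter.1 h1).1
  · intro hv
    ext w
    rw [Finset.mem_inter, Finset.mem_singleton, mem_cn]
    constructor
    · rintro ⟨hw, h | h⟩
      · exact h
      · exact absurd h (mem_IS.1 hS v hv w hw)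
    · rintro rfl
      exact ⟨hv, Or.inl rfl⟩

theorem l_Sing_Ic_IS {G : SimpleGraph V} {U : Finset V} {L : V → Finset C} {p f : V → C} {c : C}
    (hf : f ∈ Col G U L p) : Ic U c f ∈ IS (rst G U) := by
  rw [mem_IS]
  intro u hu w hw h
  rw [mem_Ic] at hu hw
  exact (mem_Col.1 hf).2.2 u hu.1 w hw.1 h.1 (hu.2.trans hw.2.symm)

theorem l_Sing_cl (G : SimpleGraph V) {U : Finset V} (c : C) {v : V} (hv : v ∈ U) (f f' : V → C) :
    0 < (cl G U c v f f').card ↔ ¬ (f v = c ↔ f' v = c) := by
  rw [Finset.card_pos]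
  unfold cl Pool.Agent.Ex26.cmp
  constructor
  · rintro ⟨w, hw⟩
    have h1 := (Finset.mem_filter.1 hw).2.1
    exact (Finset.mem_filter.1 h1).2
  · intro h
    have hD : v ∈ Pool.Agent.Ex26.DD U c f f' := Finset.mem_filter.2 ⟨hv, h⟩
    exact ⟨v, Finset.mem_filter.2 ⟨hD, hD, SimpleGraph.Reachable.refl v⟩⟩

theorem l_Sing_Ks (H : SimpleGraph V) (v : V) (a b : Finset V) :
    0 < (Ks H a b {v}).card ↔ ¬ (v ∈ a ↔ v ∈ b) := by
  rw [Finset.card_pos]
  constructor
  · rintro ⟨w, hw⟩
    obtain ⟨-, o, ho, h1, -⟩ := mem_Ks.1 hw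
    rw [Finset.mem_singleton] at ho
    subst ho
    rw [Finset.mem_symmDiff] at h1
    tauto
  · intro h
    have h1 : v ∈ symmDiff a b := by
      rw [Finset.mem_symmDiff]
      tauto
    exact ⟨v, mem_Ks.2 ⟨h1, v, Finset.mem_singleton_self v, h1, SimpleGraph.Reachable.refl v⟩⟩

/-- the indicator of the exclusive or -/
theorem l_Sing_xor (P Q R : Prop) [Decidable P] [Decidable Q] [Decidable R]
    (h : R ↔ ¬ (P ↔ Q)) :
    (if R then (1 : ℝ) else 0) = (if P then (1 : ℝ) else 0) + (if Q then (1 : ℝ) else 0) -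
      2 * ((if P then (1 : ℝ) else 0) * (if Q then (1 : ℝ) else 0)) := by
  by_cases hP : P <;> by_cases hQ : Q
  · have hR : ¬ R := by rw [h]; tauto
    rw [if_neg hR, if_pos hP, if_pos hQ]; norm_num
  · have hR : R := by rw [h]; tauto
    rw [if_pos hR, if_pos hP, if_neg hQ]; norm_num
  · have hR : R := by rw [h]; tauto
    rw [if_pos hR, if_neg hP, if_pos hQ]; norm_num
  · have hR : ¬ R := by rw [h]; tauto
    rw [if_neg hR, if_neg hP, if_neg hQ]; norm_num

end sing

theorem s_Sing : Sing := by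
  intro V C _ _ G U L p s c z hG hz v hv
  have hA : (Col G U L p).Nonempty := Col_nonempty hG p
  refine ⟨?_, ?_, ?_, ?_⟩
  · unfold pm mg
    refine ev_congr _ fun f hf => ?_
    have h1 : Ic U c f ∩ CN (rst G U) {v} = {v} ↔ f v = c := by
      rw [l_Sing_pat (l_Sing_Ic_IS hf) v, mem_Ic]
      exact ⟨fun h => h.2, fun h => ⟨hv, h⟩⟩
    by_cases h2 : f v = c
    · rw [if_pos (h1.2 h2), if_pos h2]
    · rw [if_neg (fun h => h2 (h1.1 h)), if_neg h2]
  · unfold PP dn
    refine Eg_congr fun S hS _ => ?_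
    have h1 := l_Sing_pat hS v
    by_cases h2 : v ∈ S
    · rw [if_pos (h1.2 h2), if_pos h2]
    · rw [if_neg (fun h => h2 (h1.1 h)), if_neg h2]
  · have h1 : ev2 (Col G U L p) (fun f f' => if 0 < (cl G U c v f f').card then (1 : ℝ) else 0) =
        ev2 (Col G U L p) (fun f f' => ((if f v = c then (1 : ℝ) else 0) +
          (if f' v = c then (1 : ℝ) else 0)) -
            2 * ((if f v = c then (1 : ℝ) else 0) * (if f' v = c then (1 : ℝ) else 0))) :=
      ev_congr _ fun f _ => ev_congr _ fun f' _ => l_Sing_xor _ _ _ (l_Sing_cl G c hv f f')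
    rw [h1]
    unfold ev2
    simp only [ev_add, ev_sub, ev_mul_left, ev_mul_right, ev_const hA]
    change mg (Col G U L p) v c + mg (Col G U L p) v c -
      2 * (mg (Col G U L p) v c * mg (Col G U L p) v c) = _
    ring
  · have h1 : E2 (rst G U) z z (fun a b => if 0 < (Ks (rst G U) a b {v}).card then (1 : ℝ) else 0) =
        E2 (rst G U) z z (fun a b => ((if v ∈ a then (1 : ℝ) else 0) +
          (if v ∈ b then (1 : ℝ) else 0)) -
            2 * ((if v ∈ a then (1 : ℝ) else 0) * (if v ∈ b then (1 : ℝ) else 0))) :=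
      E2_congr fun a _ _ b _ _ => l_Sing_xor _ _ _ (l_Sing_Ks (rst G U) v a b)
    have h2 : E2 (rst G U) z z (fun a _ => if v ∈ a then (1 : ℝ) else 0) = dn (rst G U) z v := by
      unfold E2 dn
      simp only [Eg_const hz]
    have h3 : E2 (rst G U) z z (fun _ b => if v ∈ b then (1 : ℝ) else 0) = dn (rst G U) z v := by
      unfold E2
      exact Eg_const hz _
    have h4 : E2 (rst G U) z z
        (fun a b => (if v ∈ a then (1 : ℝ) else 0) * (if v ∈ b then (1 : ℝ) else 0)) =
        dn (rst G U) z v * dn (rst G U) z v := by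
      unfold E2
      simp only [Eg_mul_left, Eg_mul_right]
      rfl
    rw [h1, E2_sub, E2_add, E2_mul_left, h2, h3, h4]
    ring

end Pool.Agent.Loc26
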