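import Pool.Agent.Lib.MP_26a019_lc.Ex.LocSpec

set_option autoImplicit false
set_option linter.unusedVariables false
set_option linter.unusedSectionVars false

/-!
# Module SumC (MP_26a019_lc, part AB)
-/

open Finset Classical

namespace Pool.Agent.Loc26

open Pool.Agent.Kempe Pool.Agent.KempeMix Pool.Agent.Eps26 Pool.Agent.Gas26
open Pool.Agent.Ex26 (rst ev2 cl)

section aux

variable {V C : Type} [Fintype V] [Fintype C]

/-- every vertex has exactly one colour -/
theorem l_SumC_cls (U X : Finset V) (f : V → C) :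
    ∑ c : C, ((X ∩ Ic U c f).card : ℝ) = ((X ∩ U).card : ℝ) := by
  have h1 : (X ∩ U).card = ∑ c ∈ (univ : Finset C), ((X ∩ U).filter (fun u => f u = c)).card :=
    Finset.card_eq_sum_card_fiberwise (fun _ _ => Finset.mem_coe.2 (Finset.mem_univ _))
  rw [h1, Nat.cast_sum]
  refine Finset.sum_congr rfl fun c _ => ?_
  congr 2
  ext v
  simp only [Finset.mem_inter, mem_Ic, Finset.mem_filter]
  tauto

theorem l_SumC_good {G : SimpleGraph V} {U : Finset V} {L : V → Finset C} {s : ℕ}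
    (hs : 3 ≤ s) (hG : Good G U L s) (c : C) : Good G U (Lc L c) (s - 1) := by
  refine ⟨by omega, fun v hv => ?_⟩
  have h1 := hG.2 v hv
  have h2 : (L v).card ≤ ((L v).erase c).card + 1 := by
    have := Finset.pred_card_le_card_erase (s := L v) (a := c)
    omega
  unfold Lc
  omega

theorem l_SumC_ind {a b : ℝ} (P Q : Prop) [Decidable P] [Decidable Q] [Decidable (1 / a < b)]
    (ha : 0 < a) (hQ : Q ↔ (¬ P ∧ a * b ≤ 1)) :
    1 - (if P then (1 : ℝ) else 0) - (if 1 / a < b then (1 : ℝ) else 0) ≤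
      if Q then (1 : ℝ) else 0 := by
  by_cases hP : P
  · rw [if_pos hP]
    split_ifs <;> norm_num
  · rw [if_neg hP]
    by_cases hb : 1 / a < b
    · rw [if_pos hb]
      split_ifs <;> norm_num
    · have h := not_lt.1 hb
      rw [le_div_iff₀ ha] at h
      rw [if_neg hb, if_pos (hQ.2 ⟨hP, by linarith⟩)]
      norm_num

end aux

theorem s_SumC (h1 : Err1) (h2 : Err2) (h3 : AvC) : SumC := by
  intro hH V C _ _ G U L p s Dl κ x y hs hG hD hx hy hP hκ
  have hx0 : ∀ v, 0 ≤ x v := fun v => (hx v).1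
  have hy0 : ∀ v, 0 ≤ y v := fun v => (hy v).1
  have hA : (Col G U L p).Nonempty := Col_nonempty hG p
  have key := Finset.sum_le_sum fun (c : C) (_ : c ∈ (univ : Finset C)) =>
    h3 hH V C G U L p s c Dl κ x y hG hD hx hy hP
  rw [← KF_sum, ← ev_sum] at key
  have hR : ev (Col G U L p) (fun f => ∑ c : C, ((Ic U c f ∩ DD x y).card : ℝ)) ≤
      ((DD x y).card : ℝ) := by
    rw [← ev_const hA ((DD x y).card : ℝ)]
    refine ev_mono _ fun f _ => ?_
    have h4 : ∑ c : C, ((Ic U c f ∩ DD x y).card : ℝ) = ((DD x y ∩ U).card : ℝ) := by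
      rw [← l_SumC_cls U (DD x y) f]
      exact Finset.sum_congr rfl fun c _ => by rw [Finset.inter_comm]
    rw [h4]
    exact_mod_cast Finset.card_le_card Finset.inter_subset_left
  refine le_trans (KF_mono_supp hx0 hy0 ?_) (key.trans hR)
  intro u hu
  have hκu : 0 < κ u := by
    rcases hu with h | h
    · exact lt_of_lt_of_le (lt_of_le_of_ne (hx u).1 (Ne.symm h)) (hx u).2
    · exact lt_of_lt_of_le (lt_of_le_of_ne (hy u).1 (Ne.symm h)) (hy u).2
  have huU : u ∈ U := hκ u hκu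
  rw [Finset.sum_sub_distrib, ← ev_sum]
  have hcn : ev (Col G U L p) (fun f => ∑ c : C, ((cn (rst G U) u ∩ Ic U c f).card : ℝ)) =
      ((nb G U u).card : ℝ) + 1 := by
    have h5 : ∀ f ∈ Col G U L p, ∑ c : C, ((cn (rst G U) u ∩ Ic U c f).card : ℝ) =
        ((nb G U u).card : ℝ) + 1 := by
      intro f _
      rw [l_SumC_cls, cn_rst huU]
      have h6 : insert u (nb G U u) ∩ U = insert u (nb G U u) := by
        refine Finset.inter_eq_left.2 fun w hw => ?_
        rcases Finset.mem_insert.1 hw with h | h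
        · rw [h]; exact huU
        · exact (mem_nb.1 h).1
      have h7 : u ∉ nb G U u := by
        intro h
        exact G.loopless.irrefl u (mem_nb.1 h).2
      rw [h6, Finset.card_insert_of_notMem h7]
      push_cast
      ring
    rw [ev_congr _ h5, ev_const hA]
  rw [hcn]
  have hE0 : 0 ≤ ev (Col G U L p)
      (fun f => if 1 / κ u < ((av G U L f u \ Dl u).card : ℝ) then (1 : ℝ) else 0) :=
    ev_nonneg _ fun f _ => by split_ifs <;> norm_num
  have hD0 : 0 ≤ ((Dl u).card : ℝ) / s := by positivity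
  have hLq : ((L u).card : ℝ) ≤ (Fintype.card C : ℝ) := by exact_mod_cast card_L_le (L := L) u
  have hms : ∀ c ∈ L u, 1 - ((Dl u).card : ℝ) / s - ev (Col G U L p)
      (fun f => if 1 / κ u < ((av G U L f u \ Dl u).card : ℝ) then (1 : ℝ) else 0) ≤
      ms G U L p c Dl (fun σ => if u ∈ U ∧ c ∈ L u ∧ σ u ∉ Dl u ∧ 0 < κ u ∧
        κ u * Bn G U L c Dl σ u ≤ 1 then (1 : ℝ) else 0) := by
    intro c hc
    have hne : (Col G U (Lc L c) p).Nonempty := Col_nonempty (l_SumC_good hs hG c) p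
    have e1 := h1 V C G U L p s c Dl hG hD u huU
    have e2 := h2 V C G U L p s c Dl hG hD u huU (1 / κ u)
    have e3 : ms G U L p c Dl (fun σ => (1 - (if σ u ∈ Dl u then (1 : ℝ) else 0)) -
        (if 1 / κ u < Bn G U L c Dl σ u then (1 : ℝ) else 0)) ≤
        ms G U L p c Dl (fun σ => if u ∈ U ∧ c ∈ L u ∧ σ u ∉ Dl u ∧ 0 < κ u ∧
          κ u * Bn G U L c Dl σ u ≤ 1 then (1 : ℝ) else 0) := by
      refine ms_mono fun σ _ => l_SumC_ind _ _ hκu ?_
      constructor
      · rintro ⟨_, _, ha, _, hb⟩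
        exact ⟨ha, hb⟩
      · rintro ⟨ha, hb⟩
        exact ⟨huU, hc, ha, hκu, hb⟩
    rw [ms_sub, ms_sub, ms_const hne] at e3
    linarith
  have hsum : ((L u).card : ℝ) * (1 - ((Dl u).card : ℝ) / s - ev (Col G U L p)
      (fun f => if 1 / κ u < ((av G U L f u \ Dl u).card : ℝ) then (1 : ℝ) else 0)) ≤
      ∑ c : C, ms G U L p c Dl (fun σ => if u ∈ U ∧ c ∈ L u ∧ σ u ∉ Dl u ∧ 0 < κ u ∧
        κ u * Bn G U L c Dl σ u ≤ 1 then (1 : ℝ) else 0) := by
    rw [← nsmul_eq_mul, ← Finset.sum_const]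
    refine le_trans (Finset.sum_le_sum hms) ?_
    refine Finset.sum_le_sum_of_subset_of_nonneg (Finset.subset_univ _) fun c _ _ => ?_
    exact ms_nonneg fun σ _ => by split_ifs <;> norm_num
  obtain ⟨E, hE⟩ : ∃ E : ℝ, E = ev (Col G U L p)
      (fun f => if 1 / κ u < ((av G U L f u \ Dl u).card : ℝ) then (1 : ℝ) else 0) := ⟨_, rfl⟩
  rw [← hE] at hE0 hsum ⊢
  have hdiv : (Fintype.card C : ℝ) * ((Dl u).card : ℝ) / s =
      (Fintype.card C : ℝ) * (((Dl u).card : ℝ) / s) := by ring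
  rw [hdiv]
  nlinarith [mul_nonneg (sub_nonneg.2 hLq) hE0, mul_nonneg (sub_nonneg.2 hLq) hD0]

end Pool.Agent.Loc26
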