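import Pool.Agent.Lib.MP_26a019_lc.Ex.LocSpec

set_option autoImplicit false
set_option linter.unusedVariables false
set_option linter.unusedSectionVars false

/-!
# TailG: polynomial tails of local functions
-/

open Finset Classical

namespace Pool.Agent.Loc26

open Pool.Agent.Kempe Pool.Agent.KempeMix Pool.Agent.Eps26 Pool.Agent.Gas26
open Pool.Agent.Ex26 (rst ev2 cl)

theorem l_TailG_q {V C : Type} [Fintype V] [Fintype C] {G : SimpleGraph V} {U : Finset V}
    {L : V → Finset C} {s : ℕ} (hG : Good G U L s) {u : V} (hu : u ∈ U) :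
    (1 : ℝ) ≤ (Fintype.card C : ℝ) := by
  have h1 := card_nb_le_card hG hu
  have h2 := hG.1
  exact_mod_cast (by omega : 1 ≤ Fintype.card C)

/-- centred local functions are local -/
theorem l_TailG_sub {V C : Type} [Fintype V] [Fintype C] {G : SimpleGraph V} {U : Finset V}
    {u : V} {g : (V → C) → ℝ} (hg : LL G U u g) (x : ℝ) : LL G U u (fun f => g f - x) := by
  refine ⟨fun f v a => ?_, fun f v a hv => ?_⟩
  · have := hg.1 f v a
    have e : g (Function.update f v a) - x - (g f - x) = g (Function.update f v a) - g f := by ring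
    rw [e]
    exact this
  · show g (Function.update f v a) - x = g f - x
    rw [hg.2 f v a hv]

theorem l_TailG_mom (h : MomS) (P : ℝ) (hP : 0 < P) (j : ℕ) : ∃ K : ℝ, 0 < K ∧
    ∀ (V C : Type) [Fintype V] [Fintype C] (G : SimpleGraph V) (U : Finset V) (L : V → Finset C)
      (p : V → C) (s : ℕ), Good G U L s → Poin G U L p P → ∀ u ∈ U, ∀ g : (V → C) → ℝ, LL G U u g →
      ev (Col G U L p) g = 0 →
      ev (Col G U L p) (fun f => g f ^ (2 ^ (j + 1))) ≤ K * (Fintype.card C : ℝ) ^ (2 ^ j) := by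
  induction j with
  | zero =>
    obtain ⟨K, hK, h1⟩ := h P 1 hP le_rfl
    refine ⟨K, hK, ?_⟩
    intro V C _ _ G U L p s hG hPo u hu g hg hz
    have h2 := h1 V C G U L p s hG hPo u hu g hg
    simp only [pow_one, mul_one] at h2
    rw [hz] at h2
    simpa using h2
  | succ j ih =>
    obtain ⟨K0, hK0, h0⟩ := ih
    obtain ⟨K, hK, h1⟩ := h P (2 ^ (j + 1)) hP Nat.one_le_two_pow
    refine ⟨2 * K0 ^ 2 + K, by positivity, ?_⟩
    intro V C _ _ G U L p s hG hPo u hu g hg hz
    have h2 := h1 V C G U L p s hG hPo u hu g hg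
    have h3 := h0 V C G U L p s hG hPo u hu g hg hz
    have h4 : 0 ≤ ev (Col G U L p) (fun f => g f ^ (2 ^ (j + 1))) := by
      refine ev_nonneg _ fun f _ => ?_
      rw [pow_succ, pow_mul]
      exact sq_nonneg _
    have e1 : 2 * 2 ^ (j + 1) = 2 ^ (j + 1 + 1) := by rw [pow_succ 2 (j + 1)]; ring
    rw [e1] at h2
    refine h2.trans ?_
    have h5 : (ev (Col G U L p) (fun f => g f ^ (2 ^ (j + 1)))) ^ 2 ≤
        (K0 * (Fintype.card C : ℝ) ^ (2 ^ j)) ^ 2 := pow_le_pow_left₀ h4 h3 2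
    have e2 : (K0 * (Fintype.card C : ℝ) ^ (2 ^ j)) ^ 2 =
        K0 ^ 2 * (Fintype.card C : ℝ) ^ (2 ^ (j + 1)) := by
      rw [mul_pow, ← pow_mul, pow_succ 2 j]
    rw [e2] at h5
    nlinarith

theorem s_TailG (h : MomS) : TailG := by
  intro P t a hP ht
  obtain ⟨K, hK, h1⟩ := l_TailG_mom h P hP a
  refine ⟨K / t ^ (2 ^ (a + 1)), by positivity, ?_⟩
  intro V C _ _ G U L p s hG hPo u hu g hg
  have hA : (Col G U L p).Nonempty := Col_nonempty hG p
  have hq := l_TailG_q hG hu
  set q : ℝ := (Fintype.card C : ℝ) with hqd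
  have hq0 : 0 < q := by linarith
  set x : ℝ := ev (Col G U L p) g with hx
  have hz : ev (Col G U L p) (fun f => g f - x) = 0 := by
    rw [ev_sub, ev_const hA, ← hx, sub_self]
  have h2 := h1 V C G U L p s hG hPo u hu (fun f => g f - x) (l_TailG_sub hg x) hz
  rw [← hqd] at h2
  have h3 : ∀ f ∈ Col G U L p, (if t * q ≤ |g f - x| then (1 : ℝ) else 0) ≤
      1 / (t * q) ^ (2 ^ (a + 1)) * (g f - x) ^ (2 ^ (a + 1)) := by
    intro f _
    have h4 : (g f - x) ^ (2 ^ (a + 1)) = |g f - x| ^ (2 ^ (a + 1)) := by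
      rw [pow_succ, mul_comm, pow_mul, pow_mul, sq_abs]
    rw [h4]
    split_ifs with hc
    · rw [one_div, inv_mul_eq_div, one_le_div (by positivity)]
      exact pow_le_pow_left₀ (by positivity) hc _
    · positivity
  refine (ev_mono _ h3).trans ?_
  rw [ev_mul_left]
  refine (mul_le_mul_of_nonneg_left h2 (by positivity)).trans ?_
  have e1 : 1 / (t * q) ^ (2 ^ (a + 1)) * (K * q ^ (2 ^ a)) =
      K / t ^ (2 ^ (a + 1)) / q ^ (2 ^ a) := by
    have e2 : (t * q) ^ (2 ^ (a + 1)) = t ^ (2 ^ (a + 1)) * (q ^ (2 ^ a) * q ^ (2 ^ a)) := by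
      rw [mul_pow, ← pow_add]
      congr 2
      rw [pow_succ]
      ring
    rw [e2]
    field_simp
  rw [e1]
  refine div_le_div_of_nonneg_left (by positivity) (by positivity) ?_
  exact pow_le_pow_right₀ hq (Nat.lt_two_pow_self).le

end Pool.Agent.Loc26
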