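import Pool.Agent.Lib.MP_26a019_lc.Ex.LAsm
import Pool.Agent.Lib.MP_26a019_lc.Ex.HFin
import Pool.Agent.Lib.MP_26a019_lc.Ex.l_AdmP
import Pool.Agent.Lib.MP_26a019_lc.Ex.l_AvC
import Pool.Agent.Lib.MP_26a019_lc.Ex.l_Bad
import Pool.Agent.Lib.MP_26a019_lc.Ex.l_Ball
import Pool.Agent.Lib.MP_26a019_lc.Ex.l_Cheb
import Pool.Agent.Lib.MP_26a019_lc.Ex.l_ClC
import Pool.Agent.Lib.MP_26a019_lc.Ex.l_ClG
import Pool.Agent.Lib.MP_26a019_lc.Ex.l_ClKs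
import Pool.Agent.Lib.MP_26a019_lc.Ex.l_ClSum
import Pool.Agent.Lib.MP_26a019_lc.Ex.l_Cmp
import Pool.Agent.Lib.MP_26a019_lc.Ex.l_DirL
import Pool.Agent.Lib.MP_26a019_lc.Ex.l_Err1
import Pool.Agent.Lib.MP_26a019_lc.Ex.l_Err2
import Pool.Agent.Lib.MP_26a019_lc.Ex.l_Ext
import Pool.Agent.Lib.MP_26a019_lc.Ex.l_ExtS
import Pool.Agent.Lib.MP_26a019_lc.Ex.l_LLav
import Pool.Agent.Lib.MP_26a019_lc.Ex.l_LocI
import Pool.Agent.Lib.MP_26a019_lc.Ex.l_LocZ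
import Pool.Agent.Lib.MP_26a019_lc.Ex.l_Low
import Pool.Agent.Lib.MP_26a019_lc.Ex.l_MomS
import Pool.Agent.Lib.MP_26a019_lc.Ex.l_Sing
import Pool.Agent.Lib.MP_26a019_lc.Ex.l_SumC
import Pool.Agent.Lib.MP_26a019_lc.Ex.l_TailG

set_option autoImplicit false

/-!
# Part AB, final statement
-/

namespace Pool.Agent.Ex26

open Pool.Agent.Loc26

theorem partAB_proof : PartAB := by
  have hExt : Ext := s_Ext s_ExtS
  have hTail : TailG := s_TailG (s_MomS s_DirL)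
  exact partAB_of (fun V => Pool.Agent.H26.hineq V)
    (s_AdmP (s_SumC (s_Err1 hExt) (s_Err2 hExt) (s_AvC hExt)) (s_Cheb s_LLav s_DirL (s_Low hExt)))
    (s_LocI hExt (s_Bad hExt s_LLav hTail) s_Ball (s_LocZ s_Ball))
    (s_Cmp (s_ClG s_ClSum) (s_ClC s_ClSum s_ClKs) s_Sing) s_Sing

end Pool.Agent.Ex26
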