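import Pool.Agent.Lib.MP_26a019_lc.Ex.CSpec

set_option autoImplicit false
set_option linter.unusedVariables false
set_option linter.unusedSectionVars false

/-!
# Part C: assembly of the modules
-/

open Finset Classical

namespace Pool.Agent.Ex26

open Pool.Agent.Kempe Pool.Agent.KempeMix Pool.Agent.Eps26

namespace CAsmAux

variable {V C : Type} [Fintype V] [Fintype C]

/-- `k + h`, restricted to the lists -/
noncomputable def kt (L : V → Finset C) (k : V → C → ℝ) (h : V → ℝ) : V → C → ℝ :=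
  fun v c => if c ∈ L v then k v c + h v else 0

theorem off_kt (L : V → Finset C) (k : V → C → ℝ) (h : V → ℝ) : Off L (kt L k h) :=
  fun v c hc => if_neg hc

theorem sk_kt {G : SimpleGraph V} {U : Finset V} {L : V → Finset C} {p : V → C}
    {k : V → C → ℝ} {h : V → ℝ} {f f' : V → C} (hf : f ∈ Col G U L p) (hf' : f' ∈ Col G U L p)
    {c : C} {κ : Finset V} (hκ : κ ⊆ DO U c (so f) (so f')) :
    sk (kt L k h) c κ (so f) (so f') = sk (fun v c => k v c + h v) c κ (so f) (so f') := by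
  unfold sk
  refine Finset.sum_congr rfl fun u hu => ?_
  have hu1 := mem_DO.1 (hκ hu)
  rw [so_eq, so_eq] at hu1
  have hc : c ∈ L u := by
    by_cases h1 : f u = c
    · rw [← h1]; exact (mem_Col.1 hf).2.1 u hu1.1
    · have h2 : f' u = c := by
        by_contra h2
        exact hu1.2 ⟨fun h => absurd h h1, fun h => absurd h h2⟩
      rw [← h2]; exact (mem_Col.1 hf').2.1 u hu1.1
  unfold kt
  rw [if_pos hc]

theorem Wm_kt {G : SimpleGraph V} {U : Finset V} {L : V → Finset C} {p : V → C}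
    {k : V → C → ℝ} {h : V → ℝ} {f f' : V → C} (hf : f ∈ Col G U L p) (hf' : f' ∈ Col G U L p)
    (m : ℕ) (u : V) :
    Wm G U (kt L k h) m u (so f) (so f') =
      Wm G U (fun v c => k v c + h v) m u (so f) (so f') := by
  unfold Wm
  refine Finset.sum_congr rfl fun c _ => ?_
  rw [sk_kt hf hf' (by unfold cmp; exact Finset.filter_subset _ _)]

theorem vr_kt {G : SimpleGraph V} {U : Finset V} {L : V → Finset C} {p : V → C} {s : ℕ}
    (hG : Good G U L s) (k : V → C → ℝ) (h : V → ℝ) :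
    vr (Col G U L p) (FF U (kt L k h)) = vr (Col G U L p) (FF U k) := by
  have h1 : vr (Col G U L p) (FF U (kt L k h)) =
      vr (Col G U L p) (fun f => FF U k f + ∑ v ∈ U, h v) := by
    refine vr_congr _ fun f hf => ?_
    unfold FF
    rw [← Finset.sum_add_distrib]
    refine Finset.sum_congr rfl fun v hv => ?_
    unfold kt
    rw [if_pos ((mem_Col.1 hf).2.1 v hv)]
  rw [h1]
  exact vr_add_const (Col_nonempty hG p) _ _

theorem nrm_kt {G : SimpleGraph V} {U : Finset V} {L : V → Finset C} {p : V → C} {s : ℕ}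
    (hG : Good G U L s) (k : V → C → ℝ) (h : V → ℝ) :
    nrm (Col G U L p) U (kt L k h) ≤
      2 * nrm (Col G U L p) U k + 2 * ∑ v ∈ U, (h v) ^ 2 := by
  unfold nrm
  rw [Finset.mul_sum, Finset.mul_sum, ← Finset.sum_add_distrib]
  refine Finset.sum_le_sum fun v _ => ?_
  have h1 : (h v) ^ 2 = ∑ c, mg (Col G U L p) v c * (h v) ^ 2 := by
    rw [← Finset.sum_mul, sum_mg (Col_nonempty hG p), one_mul]
  rw [h1, Finset.mul_sum, Finset.mul_sum, ← Finset.sum_add_distrib]
  refine Finset.sum_le_sum fun c _ => ?_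
  have h2 := mg_nonneg (Col G U L p) v c
  have h3 : (kt L k h v c) ^ 2 ≤ 2 * (k v c) ^ 2 + 2 * (h v) ^ 2 := by
    unfold kt
    split_ifs
    · nlinarith [sq_nonneg (k v c - h v)]
    · nlinarith [sq_nonneg (k v c), sq_nonneg (h v)]
  nlinarith [mul_le_mul_of_nonneg_left h3 h2]

end CAsmAux

open CAsmAux in
/-- **Part C** from its modules. -/
theorem partC_of (h1 : CTensor) (h2 : CDom) (h3 : CMgLow) (h4 : CCount) (h5 : CSum)
    (h6 : CDomYZ) (h7 : CLam) (h8 : CPsiZ) (h9 : CPsiW) (h10 : CQ) (h11 : CPsiQ) (h12 : CPsiG)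
    (h13 : CCmp) (h14 : CPiece) (h15 : CDiffF) (h16 : CSwap) (h17 : CMainPt) (h18 : CMainSum)
    (h19 : CVar) (h20 : CWh) (h21 : CLow) (h22 : CUp) (h23 : CGauge) (h24 : CRho1) (h25 : CRho2)
    (h26 : CZAbs) (h27 : CZSq) (h28 : CWAbs) (h29 : CWSq) (h30 : CQCR) (h31 : CLinQ)
    (h32 : CLinVar) (h33 : CZFin) (h34 : CXCount) (h35 : CGamDiff) (h36 : CGamPt)
    (h37 : CGamFin) (h38 : CTail) : PartC := by
  intro ε M K lam hε hM hK hlam
  set KA : ℝ := M * (3 + 3 * Real.exp (2 / ε) / ε) with hKA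
  have hKA0 : 0 < KA := by rw [hKA]; positivity
  set g : ℝ := 2 + 4 * M * Real.exp (2 / ε) with hg
  have hg0 : 0 < g := by rw [hg]; positivity
  refine ⟨(KA + 1) / 2 * g, by positivity, ?_⟩
  intro P hP
  obtain ⟨m, η, hm, hη, htail⟩ := h38 ε K lam P (1 / 8) hε hK hlam hP (by norm_num)
  obtain ⟨KZ, hKZ, hZ⟩ := h33 h1 h2 h3 h4 h5 h6 h7 h8 h9 h10 h11 h13 h14 h24 h25 h26 h27 h28 h29
    h30 h31 h32 ε m hε
  refine ⟨m, η, ⌈(2 * KZ * (P + 1) ^ 2) ^ 2⌉₊ + 1, hη, ?_⟩
  intro V C _ _ s hq hs G U L p hG hPoin hsmall htl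
  have hreg : Reg ε G U L s := ⟨hε, hs, hG⟩
  have hA := Col_nonempty hG p
  have hq1 : (1 : ℝ) ≤ (Fintype.card C : ℝ) := by
    have : 1 ≤ Fintype.card C := le_trans (by omega) hq
    exact_mod_cast this
  have hq0 : (0 : ℝ) < (Fintype.card C : ℝ) := by linarith
  have hsq : 2 * KZ * (P + 1) ^ 2 ≤ Real.sqrt (Fintype.card C : ℝ) := by
    apply Real.le_sqrt_of_sq_le
    have e1 : ((⌈(2 * KZ * (P + 1) ^ 2) ^ 2⌉₊ : ℕ) : ℝ) ≤ (Fintype.card C : ℝ) := by
      exact_mod_cast le_trans (Nat.le_succ _) hq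
    exact (Nat.le_ceil _).trans e1
  have hsq0 : 0 < Real.sqrt (Fintype.card C : ℝ) := Real.sqrt_pos.2 hq0
  intro k
  obtain ⟨h, hW, hh⟩ := h23 h13 h3 h20 h21 h22 V C G U L p s ε M m k hreg hM hm hsmall
  set k' := kt L k h with hk'
  have hoff : Off L k' := off_kt L k h
  have hW' : ∀ u ∈ U, ev2 (Col G U L p) (fun f f' => Wm G U k' m u (so f) (so f')) = 0 := by
    intro u hu
    rw [← hW u hu]
    exact ev2_congr fun f hf f' hf' => Wm_kt hf hf' m u
  have hvr : vr (Col G U L p) (FF U k') = vr (Col G U L p) (FF U k) := vr_kt hG k h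
  have hnrm : nrm (Col G U L p) U k' ≤ g * nrm (Col G U L p) U k := by
    have e1 := nrm_kt (p := p) hG k h
    rw [hg]
    linarith
  have hN0 : 0 ≤ nrm (Col G U L p) U k' := nrm_nonneg _ _ _
  have hN := nrm_nonneg (Col G U L p) U k
  -- the pieces
  have e1 := h19 h13 h15 h16 h17 V C G U L p s m k' hG
  have e2 := h18 h13 h3 V C G U L p s ε M m k' hreg hM hsmall
  have e3 := h37 h1 h2 h3 h4 h5 h12 h13 h14 h34 h35 h36 V C G U L p s ε P _ m (m ^ 2) k' hreg
    hP.le hPoin hm hoff htl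
  have e4 := hZ V C G U L p s P k' hreg hP.le hPoin hm hoff hW'
  have e5 := ev2_young (A := Col G U L p) (δ := 1 / 8) (by norm_num)
    (fun f f' => FF U k' f - FF U k' f') (fun f f' => Gm G U k' m (so f) (so f'))
  have e6 := ev2_young (A := Col G U L p) (δ := 1 / 4) (by norm_num)
    (fun f f' => FF U k' f - FF U k' f') (fun f f' => Zm G U L k' m (so f) (so f'))
  have e7 := ev2_sq_sub hA (FF U k')
  have e8 : KZ * (P + 1) ^ 2 / Real.sqrt (Fintype.card C : ℝ) ≤ 1 / 2 := by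
    rw [div_le_iff₀ hsq0]; linarith
  have e9 : ev2 (Col G U L p) (fun f f' => (Gm G U k' m (so f) (so f')) ^ 2) ≤
      1 / 8 * nrm (Col G U L p) U k' := by
    refine e3.trans (mul_le_mul_of_nonneg_right ?_ hN0)
    exact htail
  have e10 : ev2 (Col G U L p) (fun f f' => (Zm G U L k' m (so f) (so f')) ^ 2) ≤
      1 / 2 * nrm (Col G U L p) U k' := e4.trans (mul_le_mul_of_nonneg_right e8 hN0)
  set V2 := ev2 (Col G U L p) (fun f f' => (FF U k' f - FF U k' f') ^ 2) with hV2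
  rw [← hKA] at e2
  norm_num at e5 e6
  rw [← hvr]
  have e11 : vr (Col G U L p) (FF U k') ≤ (KA + 1) / 2 * nrm (Col G U L p) U k' := by
    have hpos : 0 ≤ (KA + 1) * nrm (Col G U L p) U k' := by positivity
    nlinarith [e1, e2, e5, e6, e7, e9, e10]
  calc _ ≤ (KA + 1) / 2 * nrm (Col G U L p) U k' := e11
    _ ≤ (KA + 1) / 2 * (g * nrm (Col G U L p) U k) :=
      mul_le_mul_of_nonneg_left hnrm (by positivity)
    _ = _ := by ring

end Pool.Agent.Ex26
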