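import Pool.Agent.Lib.MP_26a019_lc.Ex.CSpec

set_option autoImplicit false
set_option linter.unusedVariables false

/-!
# Part C: basic facts on components
-/

open Finset Classical

namespace Pool.Agent.Ex26

open Pool.Agent.Kempe Pool.Agent.KempeMix Pool.Agent.Eps26

namespace CCmpAux

variable {V : Type} [Fintype V]

lemma mem_cmp {G : SimpleGraph V} {D : Finset V} {v u : V} :
    u ∈ cmp G D v ↔ u ∈ D ∧ v ∈ D ∧ (rst G D).Reachable v u := by
  unfold cmp
  rw [Finset.mem_filter]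

lemma self_mem {G : SimpleGraph V} {D : Finset V} {v : V} (hv : v ∈ D) : v ∈ cmp G D v :=
  mem_cmp.2 ⟨hv, hv, SimpleGraph.Reachable.refl v⟩

lemma cmp_eq {G : SimpleGraph V} {D : Finset V} {u v : V} (h : u ∈ cmp G D v) :
    cmp G D u = cmp G D v := by
  obtain ⟨hu, hv, hr⟩ := mem_cmp.1 h
  ext w
  rw [mem_cmp, mem_cmp]
  constructor
  · rintro ⟨hw, -, h'⟩
    exact ⟨hw, hv, hr.trans h'⟩
  · rintro ⟨hw, -, h'⟩
    exact ⟨hw, hu, hr.symm.trans h'⟩

lemma closed {G : SimpleGraph V} {D : Finset V} {v u w : V} (h : u ∈ cmp G D v) (hw : w ∈ D)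
    (ha : G.Adj u w) : w ∈ cmp G D v := by
  obtain ⟨hu, hv, hr⟩ := mem_cmp.1 h
  have h1 : (rst G D).Adj u w := ⟨ha, hu, hw⟩
  exact mem_cmp.2 ⟨hw, hv, hr.trans h1.reachable⟩

lemma mem_comps_iff {G : SimpleGraph V} {D κ : Finset V} :
    κ ∈ comps G D ↔ ∃ v ∈ D, cmp G D v = κ := by
  unfold comps
  rw [Finset.mem_image]

lemma eq_filter {G : SimpleGraph V} {D κ : Finset V} (h : κ ∈ comps G D) :
    κ = D.filter (fun u => cmp G D u = κ) := by
  obtain ⟨v, hv, rfl⟩ := mem_comps_iff.1 h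
  ext u
  rw [Finset.mem_filter]
  constructor
  · intro hu
    exact ⟨(mem_cmp.1 hu).1, cmp_eq hu⟩
  · rintro ⟨hu, he⟩
    rw [← he]
    exact self_mem hu

lemma walk_in {G : SimpleGraph V} {D : Finset V} {v u w : V} (p : (rst G D).Walk u w) :
    u ∈ cmp G D v → (rst G (cmp G D v)).Reachable u w := by
  induction p with
  | nil => intro _; exact SimpleGraph.Reachable.refl _
  | cons h p ih =>
    intro hu
    have hx := closed hu h.2.2 h.1
    have h1 : (rst G (cmp G D v)).Adj _ _ := ⟨h.1, hu, hx⟩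
    exact h1.reachable.trans (ih hx)

lemma cmp_cmp {G : SimpleGraph V} {D : Finset V} {v u : V} (hu : u ∈ cmp G D v) :
    cmp G (cmp G D v) u = cmp G D v := by
  ext w
  rw [mem_cmp]
  constructor
  · rintro ⟨hw, -⟩
    exact hw
  · intro hw
    refine ⟨hw, hu, ?_⟩
    have h1 : (rst G D).Reachable u w :=
      (mem_cmp.1 hu).2.2.symm.trans (mem_cmp.1 hw).2.2
    obtain ⟨p⟩ := h1
    exact walk_in p hu

end CCmpAux

open CCmpAux in
theorem cCmp_proof : CCmp := by
  intro V _ G D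
  refine ⟨fun v hv => self_mem hv, fun v => Finset.filter_subset _ _, fun u v h => cmp_eq h,
    fun v u hu w hw ha => closed hu hw ha, ?_, ?_⟩
  · intro F
    have h1 : ∀ u ∈ D, cmp G D u ∈ comps G D := fun u hu => mem_comps_iff.2 ⟨u, hu, rfl⟩
    rw [← Finset.sum_fiberwise_of_maps_to h1]
    apply Finset.sum_congr rfl
    intro κ hκ
    rw [Finset.sum_congr (eq_filter hκ) (fun _ _ => rfl)]
    apply Finset.sum_congr rfl
    intro u hu
    rw [(Finset.mem_filter.1 hu).2]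
  · intro κ hκ
    obtain ⟨v, hv, rfl⟩ := mem_comps_iff.1 hκ
    exact ⟨⟨v, self_mem hv⟩, fun u hu => cmp_eq hu, fun u hu => cmp_cmp hu⟩

end Pool.Agent.Ex26
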