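import Pool.Agent.Lib.MP_26a019_lc.Ex.CSpec

set_option autoImplicit false
set_option linter.unusedVariables false

/-!
# Part C, module CCount: number of connected sets of given size which contain a vertex
-/

open Finset Classical

namespace Pool.Agent.Ex26

open Pool.Agent.Kempe Pool.Agent.KempeMix Pool.Agent.Eps26

namespace CCountAux

variable {V : Type} [Fintype V]

/-- growing sets -/
noncomputable def Gr (G : SimpleGraph V) (U : Finset V) (w : V) : ℕ → Finset (Finset V)
  | 0 => {{w}}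
  | i + 1 => (Gr G U w i).biUnion (fun κ => (κ.biUnion (nb G U)).image (fun y => insert y κ))

theorem gr_sub (G : SimpleGraph V) (U : Finset V) (w : V) (hw : w ∈ U) (i : ℕ) :
    ∀ κ ∈ Gr G U w i, κ ⊆ U ∧ κ.card ≤ i + 1 := by
  induction i with
  | zero =>
    intro κ hκ
    have : κ = {w} := by simpa [Gr] using hκ
    subst this
    exact ⟨Finset.singleton_subset_iff.2 hw, by simp⟩
  | succ i ih =>
    intro κ hκ
    unfold Gr at hκ
    obtain ⟨κ', hκ', hκ2⟩ := Finset.mem_biUnion.1 hκ
    obtain ⟨y, hy, rfl⟩ := Finset.mem_image.1 hκ2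
    obtain ⟨u, hu, hyu⟩ := Finset.mem_biUnion.1 hy
    obtain ⟨h1, h2⟩ := ih κ' hκ'
    refine ⟨Finset.insert_subset (nb_subset G U u hyu) h1, ?_⟩
    exact (Finset.card_insert_le _ _).trans (by omega)

theorem gr_card (G : SimpleGraph V) (U : Finset V) (w : V) (hw : w ∈ U) (q m : ℕ)
    (hq : ∀ v ∈ U, (nb G U v).card ≤ q) (i : ℕ) (hi : i + 1 ≤ m) :
    (Gr G U w i).card ≤ (m * q) ^ i := by
  induction i with
  | zero => simp [Gr]
  | succ i ih =>
    have h1 := ih (by omega)
    unfold Gr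
    refine (Finset.card_biUnion_le).trans ?_
    have h2 : ∀ κ ∈ Gr G U w i, ((κ.biUnion (nb G U)).image (fun y => insert y κ)).card ≤
        m * q := by
      intro κ hκ
      obtain ⟨h3, h4⟩ := gr_sub G U w hw i κ hκ
      refine Finset.card_image_le.trans (Finset.card_biUnion_le.trans ?_)
      refine (Finset.sum_le_card_nsmul _ _ q fun u hu => hq u (h3 hu)).trans ?_
      rw [smul_eq_mul]
      exact Nat.mul_le_mul_right _ (by omega)
    refine (Finset.sum_le_card_nsmul _ _ (m * q) h2).trans ?_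
    rw [smul_eq_mul, pow_succ]
    exact Nat.mul_le_mul_right _ h1

theorem reach_closed (G : SimpleGraph V) (κ S : Finset V) {w z : V} (hw : w ∈ S)
    (hS : ∀ u ∈ S, ∀ y ∈ κ, G.Adj u y → y ∈ S) (h : (rst G κ).Reachable w z) : z ∈ S := by
  obtain ⟨p⟩ := h
  induction p with
  | nil => exact hw
  | cons hadj _ ih => exact ih (hS _ hw _ hadj.2.2 hadj.1)

theorem grow (G : SimpleGraph V) (U : Finset V) (w : V) (κ : Finset V) (hκU : κ ⊆ U)
    (hwκ : w ∈ κ) (hc : cmp G κ w = κ) (i : ℕ) (hi : i + 1 ≤ κ.card) :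
    ∃ S ∈ Gr G U w i, w ∈ S ∧ S ⊆ κ ∧ S.card = i + 1 := by
  induction i with
  | zero => exact ⟨{w}, by simp [Gr], by simp, by simpa using hwκ, by simp⟩
  | succ i ih =>
    obtain ⟨S, hS, hwS, hSκ, hScard⟩ := ih (by omega)
    have hex : ∃ u ∈ S, ∃ y ∈ κ, G.Adj u y ∧ y ∉ S := by
      by_contra hcon
      push Not at hcon
      have h1 : κ ⊆ S := by
        intro z hz
        have h2 : z ∈ cmp G κ w := by rw [hc]; exact hz
        have h3 := (Finset.mem_filter.1 h2).2.2
        exact reach_closed G κ S hwS (fun u hu y hy hadj => hcon u hu y hy hadj) h3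
      have h2 := Finset.card_le_card h1
      omega
    obtain ⟨u, hu, y, hy, hadj, hyS⟩ := hex
    refine ⟨insert y S, ?_, Finset.mem_insert_of_mem hwS, Finset.insert_subset hy hSκ, ?_⟩
    · unfold Gr
      refine Finset.mem_biUnion.2 ⟨S, hS, Finset.mem_image.2 ⟨y, ?_, rfl⟩⟩
      exact Finset.mem_biUnion.2 ⟨u, hu, mem_nb.2 ⟨hκU hy, hadj⟩⟩
    · rw [Finset.card_insert_of_notMem hyS, hScard]

end CCountAux

open CCountAux

theorem cCount_proof : CCount := by
  intro V _ G U q m j w hq hj hjm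
  by_cases hw : w ∈ U
  · have hsub : (CC G U m).filter (fun κ => w ∈ κ ∧ κ.card = j) ⊆ Gr G U w (j - 1) := by
      intro κ hκ
      obtain ⟨h1, h2, h3⟩ := Finset.mem_filter.1 hκ
      obtain ⟨h4, h5, h6, h7⟩ := Finset.mem_filter.1 h1
      obtain ⟨S, hS, -, hSκ, hScard⟩ := grow G U w κ (Finset.mem_powerset.1 h4) h2 (h7 w h2)
        (j - 1) (by omega)
      have : S = κ := Finset.eq_of_subset_of_card_le hSκ (by omega)
      rw [← this]
      exact hS
    exact (Finset.card_le_card hsub).trans (gr_card G U w hw q m hq (j - 1) (by omega))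
  · have : (CC G U m).filter (fun κ => w ∈ κ ∧ κ.card = j) = ∅ := by
      rw [Finset.filter_eq_empty_iff]
      intro κ hκ h
      obtain ⟨h4, -⟩ := Finset.mem_filter.1 hκ
      exact hw (Finset.mem_powerset.1 h4 h.1)
    rw [this]
    exact Nat.zero_le _

end Pool.Agent.Ex26
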