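import Pool.Agent.Lib.MP_26a019_lc.Ex.Top

set_option autoImplicit false
set_option linter.unusedVariables false

/-!
# Part C (cluster bounds imply spectral independence): definitions

`f`, `f'` are two independent uniform colourings. Partial colourings are functions `V → Option C`
(`none` = not coloured); `so f` is `f` as a partial colouring and `sx x f` is `f` with the colour of
`x` removed. For a colour `c` the discrepancy set `DO U c φ φ'` splits into components (`comps`).
-/

open Finset Classical

namespace Pool.Agent.Ex26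

open Pool.Agent.Kempe Pool.Agent.KempeMix Pool.Agent.Eps26

variable {V C : Type} [Fintype V] [Fintype C]

/-- a colouring as a partial colouring -/
def so (f : V → C) : V → Option C := fun v => some (f v)

/-- the colour of `x` is removed -/
noncomputable def sx (x : V) (f : V → C) : V → Option C :=
  fun v => if v = x then none else some (f v)

/-- vertices of `U` which have the colour `c` in exactly one of the partial colourings -/
noncomputable def DO (U : Finset V) (c : C) (φ φ' : V → Option C) : Finset V :=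
  U.filter (fun u => ¬ (φ u = some c ↔ φ' u = some c))

/-- the components of `G[D]` -/
noncomputable def comps (G : SimpleGraph V) (D : Finset V) : Finset (Finset V) := D.image (cmp G D)

/-- the sign: `1[φ u = c] - 1[φ' u = c]` -/
noncomputable def sg (c : C) (φ φ' : V → Option C) (u : V) : ℝ :=
  (if φ u = some c then 1 else 0) - (if φ' u = some c then 1 else 0)

/-- `s_κ`, the signed sum of `k u c` over `κ` -/
noncomputable def sk (k : V → C → ℝ) (c : C) (κ : Finset V) (φ φ' : V → Option C) : ℝ :=
  ∑ u ∈ κ, sg c φ φ' u * k u c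

/-- colours of `L u` not used by the neighbours of `u` outside `X` -/
noncomputable def avO (G : SimpleGraph V) (U : Finset V) (L : V → Finset C) (X : Finset V)
    (φ : V → Option C) (u : V) : Finset C :=
  (L u).filter (fun c => ∀ w ∈ nb G U u, w ∉ X → φ w ≠ some c)

/-- number of colours `≠ c` of `L u` not used by the neighbours of `u` outside `κ` -/
noncomputable def bO (G : SimpleGraph V) (U : Finset V) (L : V → Finset C) (κ : Finset V) (c : C)
    (φ : V → Option C) (u : V) : ℝ :=
  (((avO G U L κ φ u).erase c).card : ℝ)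

/-- `ρ_κ` -/
noncomputable def ro (G : SimpleGraph V) (U : Finset V) (L : V → Finset C) (c : C) (κ : Finset V)
    (φ φ' : V → Option C) : ℝ :=
  ∏ u ∈ κ, (if φ u = some c then bO G U L κ c φ u / bO G U L κ c φ' u
    else bO G U L κ c φ' u / bO G U L κ c φ u)

/-- `Γ`: the sum of `s_κ` over the clusters with more than `m` vertices -/
noncomputable def Gm (G : SimpleGraph V) (U : Finset V) (k : V → C → ℝ) (m : ℕ)
    (φ φ' : V → Option C) : ℝ :=
  ∑ c, ∑ κ ∈ (comps G (DO U c φ φ')).filter (fun κ => m < κ.card), sk k c κ φ φ'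

/-- `Z`: the sum of `s_κ (1 - ρ_κ)` over the clusters with at most `m` vertices -/
noncomputable def Zm (G : SimpleGraph V) (U : Finset V) (L : V → Finset C) (k : V → C → ℝ) (m : ℕ)
    (φ φ' : V → Option C) : ℝ :=
  ∑ c, ∑ κ ∈ (comps G (DO U c φ φ')).filter (fun κ => κ.card ≤ m),
    sk k c κ φ φ' * (1 - ro G U L c κ φ φ')

/-- `W_u` -/
noncomputable def Wm (G : SimpleGraph V) (U : Finset V) (k : V → C → ℝ) (m : ℕ) (u : V)
    (φ φ' : V → Option C) : ℝ :=
  ∑ c, sg c φ φ' u * (if (cmp G (DO U c φ φ') u).card ≤ m then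
    sk k c (cmp G (DO U c φ φ') u) φ φ' else 0)

/-- connected subsets of `U` with at most `m` elements -/
noncomputable def CC (G : SimpleGraph V) (U : Finset V) (m : ℕ) : Finset (Finset V) :=
  U.powerset.filter (fun κ => κ.Nonempty ∧ κ.card ≤ m ∧ ∀ v ∈ κ, cmp G κ v = κ)

/-- outer boundary -/
noncomputable def bd (G : SimpleGraph V) (U κ : Finset V) : Finset V :=
  (U \ κ).filter (fun y => ∃ u ∈ κ, G.Adj y u)

/-- the master functional: all connected sets `κ` all of whose vertices have the colour `c` in `f`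
or in `f'`, with the weight `(∑_{w ∈ κ} k_w(c)^2) Ψ` -/
noncomputable def CR (G : SimpleGraph V) (U : Finset V) (k : V → C → ℝ) (m : ℕ)
    (Ψ : C → Finset V → (V → C) → (V → C) → ℝ) (f f' : V → C) : ℝ :=
  ∑ c, ∑ κ ∈ CC G U m, (if (∀ u ∈ κ, f u = c ∨ f' u = c) then
    (∑ w ∈ κ, (k w c) ^ 2) * Ψ c κ f f' else 0)

/-- the constant of the cluster sum -/
noncomputable def Kc (ε : ℝ) (m : ℕ) : ℝ :=
  2 * m * (2 * m / ε) ^ m * Real.exp (2 / ε) / ε

/-- number of neighbours of `y` with colour `c` -/
noncomputable def NP (G : SimpleGraph V) (U : Finset V) (c : C) (y : V) (f : V → C) : ℕ :=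
  ((nb G U y).filter (fun z => f z = c)).card

/-- the factor for the vertices of colour `c` in `f` adjacent to `κ` -/
noncomputable def YZ (G : SimpleGraph V) (U : Finset V) (c : C) (κ : Finset V)
    (f f' : V → C) : ℝ :=
  1 + ∑ y ∈ bd G U κ, (if f y = c then 1 + (NP G U c y f' : ℝ) else 0)

/-- `Λ_κ` -/
noncomputable def Lam (G : SimpleGraph V) (U : Finset V) (L : V → Finset C) (κ : Finset V)
    (f f' : V → C) : ℝ :=
  (∑ u ∈ κ, |((av G U L f u).card : ℝ) - ((av G U L f' u).card : ℝ)|) / (Fintype.card C : ℝ)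

/-- indicator that the colour of `x` is also the colour (`≠ c`) of an element of `κ` -/
noncomputable def io (c : C) (κ : Finset V) (x : V) (f : V → C) : ℝ :=
  if ∃ w ∈ κ, f w ≠ c ∧ f w = f x then 1 else 0

/-- `ψ_u 1[f x ∈ 𝒜_u]`, `𝒜_u` the colours available at `u` when `x` is ignored -/
noncomputable def al (G : SimpleGraph V) (U : Finset V) (L : V → Finset C) (x u : V)
    (f : V → C) : ℝ :=
  if f x ∈ avX G U L {x} f u then 1 / ((avX G U L {x} f u).card : ℝ) else 0

/-- `Q_{u u'}`: the conditional expectation of `al x u * al x u'` given all colours but that of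
`x` -/
noncomputable def Qx (G : SimpleGraph V) (U : Finset V) (L : V → Finset C) (x u u' : V)
    (f : V → C) : ℝ :=
  (((avX G U L {x} f u) ∩ (avX G U L {x} f u') ∩ (av G U L f x)).card : ℝ) /
    (((avX G U L {x} f u).card : ℝ) * ((avX G U L {x} f u').card : ℝ) * ((av G U L f x).card : ℝ))

/-- the linear part of `Z - Z^x` -/
noncomputable def Lin (G : SimpleGraph V) (U : Finset V) (L : V → Finset C) (k : V → C → ℝ) (m : ℕ)
    (x : V) (f f' : V → C) : ℝ :=
  ∑ u ∈ nb G U x, al G U L x u f * Wm G U k m u (sx x f) (so f')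

/-- the component of `x` after `x` is added to the discrepancy set -/
noncomputable def Kh (G : SimpleGraph V) (U : Finset V) (c : C) (x : V) (f f' : V → C) : Finset V :=
  cmp G (insert x (DD U c f f')) x

/-- `∑_{w ∈ κ} |k_w(c)|` -/
noncomputable def nn (k : V → C → ℝ) (κ : Finset V) (c : C) : ℝ := ∑ w ∈ κ, |k w c|

/-- error terms of `Z - Z^x`: clusters adjacent to `x` -/
noncomputable def R1 (G : SimpleGraph V) (U : Finset V) (L : V → Finset C) (k : V → C → ℝ) (m : ℕ)
    (x : V) (f f' : V → C) : ℝ :=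
  ∑ c, ∑ κ ∈ (comps G (DO U c (sx x f) (so f'))).filter (fun κ => κ.card ≤ m ∧ x ∈ bd G U κ),
    nn k κ c * (1 / (Fintype.card C : ℝ) ^ 2 + Lam G U L κ f f' / (Fintype.card C : ℝ) +
      io c κ x f / (Fintype.card C : ℝ))

/-- error terms of `Z - Z^x`: clusters containing `x` -/
noncomputable def R2 (G : SimpleGraph V) (U : Finset V) (L : V → Finset C) (k : V → C → ℝ) (m : ℕ)
    (x : V) (f f' : V → C) : ℝ :=
  ∑ c, (if (f x = c ∨ f' x = c) ∧ (Kh G U c x f f').card ≤ m then
    nn k (Kh G U c x f f') c * (Lam G U L (Kh G U c x f f') f f' + 1 / (Fintype.card C : ℝ))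
    else 0)

/-- error terms of `Z - Z^x`: the pieces left by `x` -/
noncomputable def R3 (G : SimpleGraph V) (U : Finset V) (L : V → Finset C) (k : V → C → ℝ) (m : ℕ)
    (x : V) (f f' : V → C) : ℝ :=
  ∑ κ ∈ (comps G (DO U (f x) (sx x f) (so f'))).filter (fun κ => κ.card ≤ m ∧ x ∈ bd G U κ),
    nn k κ (f x) * (Lam G U L κ f f' + 1 / (Fintype.card C : ℝ))

/-- the weight for the squares of `R1`, `R2`, `R3` -/
noncomputable def PsiZ (G : SimpleGraph V) (U : Finset V) (L : V → Finset C) (c : C) (κ : Finset V)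
    (f f' : V → C) : ℝ :=
  ((Lam G U L κ f f') ^ 2 + 1 / (Fintype.card C : ℝ) ^ 2) * YZ G U c κ f f' +
    (Fintype.card C : ℝ) * ∑ x ∈ bd G U κ, (1 / (Fintype.card C : ℝ) ^ 4 +
      (Lam G U L κ f f') ^ 2 / (Fintype.card C : ℝ) ^ 2 + io c κ x f / (Fintype.card C : ℝ) ^ 2)

/-- the weight for the differences of `W` -/
noncomputable def PsiW (G : SimpleGraph V) (U : Finset V) (c : C) (κ : Finset V)
    (f f' : V → C) : ℝ :=
  1 / (Fintype.card C : ℝ) * YZ G U c κ f f'

/-- the weight for the fluctuations of `Qx` -/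
noncomputable def PsiQ (G : SimpleGraph V) (U : Finset V) (L : V → Finset C) (p : V → C) (c : C)
    (κ : Finset V) (f f' : V → C) : ℝ :=
  ∑ u ∈ κ, ∑ x ∈ nb G U u, ∑ u' ∈ nb G U x,
    |Qx G U L x u u' f - ev (Col G U L p) (Qx G U L x u u')|

/-- the weight for the vertices with many neighbours of colour `c` -/
noncomputable def PsiG (G : SimpleGraph V) (U : Finset V) (J : ℕ) (c : C)
    (κ : Finset V) (f f' : V → C) : ℝ :=
  ∑ x ∈ κ ∪ bd G U κ, (if f x = c then (1 / 2 : ℝ) ^ J * 4 ^ (NP G U c x f') else 0)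

/-- the colours which may be given to `u ∈ κ` in the exchange -/
noncomputable def BB (G : SimpleGraph V) (U : Finset V) (L : V → Finset C) (κ : Finset V) (c : C)
    (f f' : V → C) (u : V) : Finset C :=
  if f u = c then (avX G U L κ f u).erase c else (avX G U L κ f' u).erase c

/-- the recolourings of `κ` (equal to `f` outside `κ`) -/
noncomputable def YY (G : SimpleGraph V) (U : Finset V) (L : V → Finset C) (κ : Finset V) (c : C)
    (f f' : V → C) : Finset (V → C) :=
  Fintype.piFinset (fun u => if u ∈ κ then BB G U L κ c f f' u else {f u})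

/-- the new first colouring -/
noncomputable def t1 (κ : Finset V) (c : C) (f y : V → C) : V → C :=
  fun u => if u ∈ κ ∧ f u ≠ c then c else y u

/-- the new second colouring -/
noncomputable def t2 (κ : Finset V) (c : C) (f f' y : V → C) : V → C :=
  fun u => if u ∈ κ then (if f u = c then c else y u) else f' u

/-- mean over the exchanges -/
noncomputable def avT (G : SimpleGraph V) (U : Finset V) (L : V → Finset C) (κ : Finset V) (c : C)
    (f f' : V → C) (H : (V → C) → (V → C) → ℝ) : ℝ :=
  (∑ y ∈ YY G U L κ c f f', H (t1 κ c f y) (t2 κ c f f' y)) / ((YY G U L κ c f f').card : ℝ)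

/-- the other colour of `u` -/
noncomputable def oo (c : C) (f f' : V → C) (u : V) : C := if f u = c then f' u else f u

/-- the bound for `s_κ (Δ - avT Δ)` -/
noncomputable def mb (L : V → Finset C) (s : ℕ) (k : V → C → ℝ) (c : C) (κ : Finset V)
    (f f' : V → C) : ℝ :=
  (κ.card : ℝ) * ∑ u ∈ κ, (3 * (k u c) ^ 2 + 1 / 2 * (k u (oo c f f' u)) ^ 2 +
    1 / (s : ℝ) * ∑ a ∈ L u, (k u a) ^ 2)

/-- the main term -/
noncomputable def MT (G : SimpleGraph V) (U : Finset V) (L : V → Finset C) (s : ℕ)
    (k : V → C → ℝ) (m : ℕ) (f f' : V → C) : ℝ :=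
  ∑ c, ∑ κ ∈ (comps G (DD U c f f')).filter (fun κ => κ.card ≤ m), mb L s k c κ f f'

/-- the indicator of a pattern: `f = c` on `σ` and `f' = c` on `σ'` -/
noncomputable def pt (c : C) (σ σ' : Finset V) (f f' : V → C) : ℝ :=
  if (∀ u ∈ σ, f u = c) ∧ (∀ u ∈ σ', f' u = c) then 1 else 0

end Pool.Agent.Ex26
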