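import Pool.Agent.Lib.MP_26a019_lc.Ex.CSpec

set_option autoImplicit false

open Finset Classical

namespace Pool.Agent.Ex26

open Pool.Agent.Kempe Pool.Agent.KempeMix Pool.Agent.Eps26

theorem cDiffF_proof : CDiffF := by
  intro h1 V C _ _ G U k f f'
  have e1 : ∀ c, ∑ κ ∈ comps G (DD U c f f'), sk k c κ (so f) (so f') =
      ∑ u ∈ DD U c f f', sg c (so f) (so f') u * k u c := by
    intro c
    exact (h1 V G (DD U c f f')).2.2.2.2.1 (fun u _ => sg c (so f) (so f') u * k u c)
  simp only [e1]
  have e2 : ∀ c, ∑ u ∈ DD U c f f', sg c (so f) (so f') u * k u c =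
      ∑ u ∈ U, sg c (so f) (so f') u * k u c := by
    intro c
    refine Finset.sum_subset (Finset.filter_subset _ _) fun u hu hn => ?_
    have : (f u = c ↔ f' u = c) := by
      by_contra h
      exact hn (mem_DD.2 ⟨hu, h⟩)
    rw [sg_so]
    simp only [this, sub_self, zero_mul]
  simp only [e2]
  rw [Finset.sum_comm]
  unfold FF
  rw [← Finset.sum_sub_distrib]
  refine Finset.sum_congr rfl fun u _ => ?_
  simp only [sg_so, sub_mul, ite_mul, one_mul, zero_mul, Finset.sum_sub_distrib,
    Finset.sum_ite_eq, Finset.mem_univ, if_true]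

end Pool.Agent.Ex26
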