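import Pool.Agent.Lib.MP_26a019_lc.Ex.CSpec

set_option autoImplicit false
set_option linter.unusedVariables false

/-!
# Part C: domination (module CDom)
-/

open Finset Classical

namespace Pool.Agent.Ex26

open Pool.Agent.Kempe Pool.Agent.KempeMix Pool.Agent.Eps26

namespace CDomAux

variable {V C : Type} [Fintype V] [Fintype C]

/-- the configurations equal to `f` outside `σ` -/
noncomputable def nbh (σ : Finset V) (f : V → C) : Finset (V → C) :=
  univ.filter (fun g => ∀ v, v ∉ σ → g v = f v)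

theorem mem_nbh {σ : Finset V} {f g : V → C} : g ∈ nbh σ f ↔ ∀ v, v ∉ σ → g v = f v := by
  unfold nbh; simp

theorem self_mem_nbh (σ : Finset V) (f : V → C) : f ∈ nbh σ f := mem_nbh.2 fun _ _ => rfl

theorem nbh_update {σ : Finset V} {u : V} (hu : u ∈ σ) (f : V → C) (a : C) :
    nbh σ (Function.update f u a) = nbh σ f := by
  ext g
  rw [mem_nbh, mem_nbh]
  refine forall_congr' fun v => forall_congr' fun hv => ?_
  have : v ≠ u := fun h => hv (h ▸ hu)
  rw [Function.update_of_ne this]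

theorem prod_nonempty (σ σ' : Finset V) (f f' : V → C) : (nbh σ f ×ˢ nbh σ' f').Nonempty :=
  ⟨(f, f'), Finset.mem_product.2 ⟨self_mem_nbh σ f, self_mem_nbh σ' f'⟩⟩

/-- the maximum of `Ψ` over the configurations equal to `f`, `f'` outside `σ`, `σ'` -/
noncomputable def mx (σ σ' : Finset V) (Ψ : (V → C) → (V → C) → ℝ) (f f' : V → C) : ℝ :=
  (nbh σ f ×ˢ nbh σ' f').sup' (prod_nonempty σ σ' f f') (fun g => Ψ g.1 g.2)

theorem le_mx (σ σ' : Finset V) (Ψ : (V → C) → (V → C) → ℝ) (f f' : V → C) :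
    Ψ f f' ≤ mx σ σ' Ψ f f' :=
  Finset.le_sup' (fun g : (V → C) × (V → C) => Ψ g.1 g.2)
    (b := (f, f')) (Finset.mem_product.2 ⟨self_mem_nbh σ f, self_mem_nbh σ' f'⟩)

theorem mx_update_left {σ : Finset V} {u : V} (hu : u ∈ σ) (σ' : Finset V)
    (Ψ : (V → C) → (V → C) → ℝ) (f f' : V → C) (a : C) :
    mx σ σ' Ψ (Function.update f u a) f' = mx σ σ' Ψ f f' := by
  unfold mx
  simp only [nbh_update hu f a]

theorem mx_update_right {σ' : Finset V} {u : V} (hu : u ∈ σ') (σ : Finset V)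
    (Ψ : (V → C) → (V → C) → ℝ) (f f' : V → C) (a : C) :
    mx σ σ' Ψ f (Function.update f' u a) = mx σ σ' Ψ f f' := by
  unfold mx
  simp only [nbh_update hu f' a]

/-- the domination for one colouring -/
theorem one_sided {G : SimpleGraph V} {U : Finset V} {L : V → Finset C} {s : ℕ}
    (hG : Good G U L s) (p : V → C) (c : C) (Θ : (V → C) → ℝ) (hΘ : ∀ f, 0 ≤ Θ f)
    (σ : Finset V) : σ ⊆ U → (∀ u ∈ σ, Ind u Θ) →
    ev (Col G U L p) (fun f => (if ∀ u ∈ σ, f u = c then (1 : ℝ) else 0) * Θ f) ≤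
      (1 / (s : ℝ)) ^ σ.card * ev (Col G U L p) Θ := by
  induction σ using Finset.induction_on with
  | empty =>
    intro _ _
    simp
  | insert u σ hu ih =>
    intro hσ hI
    have hs : (0 : ℝ) ≤ 1 / (s : ℝ) := by positivity
    have huU : u ∈ U := hσ (Finset.mem_insert_self u σ)
    have hσU : σ ⊆ U := fun v hv => hσ (Finset.mem_insert_of_mem hv)
    have hI2 : Ind u (fun f => (if ∀ w ∈ σ, f w = c then (1 : ℝ) else 0) * Θ f) := by
      intro f a
      have h1 : (∀ w ∈ σ, Function.update f u a w = c) ↔ ∀ w ∈ σ, f w = c := by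
        refine forall_congr' fun w => forall_congr' fun hw => ?_
        have : w ≠ u := fun h => hu (h ▸ hw)
        rw [Function.update_of_ne this]
      simp only [h1]
      rw [hI u (Finset.mem_insert_self u σ) f a]
    have h2 : ev (Col G U L p)
        (fun f => (if ∀ w ∈ insert u σ, f w = c then (1 : ℝ) else 0) * Θ f) =
        ev (Col G U L p) (fun f => (if f u = c then (1 : ℝ) else 0) *
          ((if ∀ w ∈ σ, f w = c then (1 : ℝ) else 0) * Θ f)) := by
      refine ev_congr _ fun f _ => ?_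
      by_cases h3 : f u = c <;> by_cases h4 : ∀ w ∈ σ, f w = c
      · have h5 : ∀ w ∈ insert u σ, f w = c := fun w hw => by
          rcases Finset.mem_insert.1 hw with rfl | hw
          · exact h3
          · exact h4 w hw
        rw [if_pos h5, if_pos h3, if_pos h4]
        ring
      · have h5 : ¬ ∀ w ∈ insert u σ, f w = c := fun h =>
          h4 fun w hw => h w (Finset.mem_insert_of_mem hw)
        rw [if_neg h5, if_neg h4]
        ring
      · have h5 : ¬ ∀ w ∈ insert u σ, f w = c := fun h => h3 (h u (Finset.mem_insert_self u σ))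
        rw [if_neg h5, if_neg h3]
        ring
      · have h5 : ¬ ∀ w ∈ insert u σ, f w = c := fun h => h3 (h u (Finset.mem_insert_self u σ))
        rw [if_neg h5, if_neg h3]
        ring
    rw [h2, ev_color_mul hG p huU c hI2, Finset.card_insert_of_notMem hu, pow_succ]
    have h6 : ev (Col G U L p) (fun f => pr G U L u c f *
        ((if ∀ w ∈ σ, f w = c then (1 : ℝ) else 0) * Θ f)) ≤
        ev (Col G U L p) (fun f => (1 / (s : ℝ)) *
        ((if ∀ w ∈ σ, f w = c then (1 : ℝ) else 0) * Θ f)) := by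
      refine ev_mono _ fun f _ => mul_le_mul_of_nonneg_right (pr_le hG huU c f) ?_
      refine mul_nonneg ?_ (hΘ f)
      split_ifs <;> norm_num
    refine h6.trans ?_
    rw [ev_mul_left]
    have h7 := mul_le_mul_of_nonneg_left
      (ih hσU fun w hw => hI w (Finset.mem_insert_of_mem hw)) hs
    refine h7.trans (le_of_eq ?_)
    ring

end CDomAux

open CDomAux in
theorem cDom_proof : CDom := by
  intro V C _ _ G U L p s c σ σ' Ψ r hG hσ hσ' hr hΨ hdom
  set A := Col G U L p with hA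
  have hAne : A.Nonempty := Col_nonempty hG p
  have hmx0 : ∀ f f', 0 ≤ mx σ σ' Ψ f f' := fun f f' => (hΨ f f').trans (le_mx σ σ' Ψ f f')
  have hmx1 : ∀ f f', mx σ σ' Ψ f f' ≤ 2 * Ψ f f' + r := by
    intro f f'
    refine Finset.sup'_le _ _ fun g hg => ?_
    obtain ⟨h1, h2⟩ := Finset.mem_product.1 hg
    exact hdom g.1 g.2 f f' (fun v hv => (mem_nbh.1 h1 v hv).symm)
      (fun v hv => (mem_nbh.1 h2 v hv).symm)
  have hs : (0 : ℝ) ≤ 1 / (s : ℝ) := by positivity
  have h1 : ev2 A (fun f f' => pt c σ σ' f f' * Ψ f f') ≤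
      ev2 A (fun f f' => (if ∀ u ∈ σ, f u = c then (1 : ℝ) else 0) *
        ((if ∀ u ∈ σ', f' u = c then (1 : ℝ) else 0) * mx σ σ' Ψ f f')) := by
    refine ev2_mono fun f _ f' _ => ?_
    have h2 : pt c σ σ' f f' = (if ∀ u ∈ σ, f u = c then (1 : ℝ) else 0) *
        (if ∀ u ∈ σ', f' u = c then (1 : ℝ) else 0) := by
      unfold pt
      by_cases h3 : ∀ u ∈ σ, f u = c
      · by_cases h4 : ∀ u ∈ σ', f' u = c
        · rw [if_pos ⟨h3, h4⟩, if_pos h3, if_pos h4, one_mul]
        · rw [if_neg fun h => h4 h.2, if_neg h4, mul_zero]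
      · rw [if_neg fun h => h3 h.1, if_neg h3, zero_mul]
    rw [← mul_assoc, ← h2]
    exact mul_le_mul_of_nonneg_left (le_mx σ σ' Ψ f f') (pt_nonneg c σ σ' f f')
  refine h1.trans ?_
  have h5 : ev2 A (fun f f' => (if ∀ u ∈ σ, f u = c then (1 : ℝ) else 0) *
        ((if ∀ u ∈ σ', f' u = c then (1 : ℝ) else 0) * mx σ σ' Ψ f f')) ≤
      ev A (fun f => (if ∀ u ∈ σ, f u = c then (1 : ℝ) else 0) *
        ((1 / (s : ℝ)) ^ σ'.card * ev A (fun f' => mx σ σ' Ψ f f'))) := by
    unfold ev2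
    refine ev_mono _ fun f _ => ?_
    rw [ev_mul_left]
    refine mul_le_mul_of_nonneg_left ?_ (by split_ifs <;> norm_num)
    exact one_sided hG p c (fun f' => mx σ σ' Ψ f f') (fun f' => hmx0 f f') σ' hσ'
      fun u hu f' a => mx_update_right hu σ Ψ f f' a
  refine h5.trans ?_
  have h6 : ev A (fun f => (if ∀ u ∈ σ, f u = c then (1 : ℝ) else 0) *
        ((1 / (s : ℝ)) ^ σ'.card * ev A (fun f' => mx σ σ' Ψ f f'))) =
      (1 / (s : ℝ)) ^ σ'.card * ev A (fun f => (if ∀ u ∈ σ, f u = c then (1 : ℝ) else 0) *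
        ev A (fun f' => mx σ σ' Ψ f f')) := by
    rw [← ev_mul_left]
    exact ev_congr _ fun f _ => by ring
  rw [h6]
  have h7 := one_sided hG p c (fun f => ev A (fun f' => mx σ σ' Ψ f f'))
    (fun f => ev_nonneg _ fun f' _ => hmx0 f f') σ hσ
    (fun u hu f a => ev_congr _ fun f' _ => mx_update_left hu σ' Ψ f f' a)
  have h8 : ev A (fun f => ev A (fun f' => mx σ σ' Ψ f f')) ≤ 2 * ev2 A Ψ + r := by
    have h9 : ev2 A (fun f f' => mx σ σ' Ψ f f') ≤ ev2 A (fun f f' => 2 * Ψ f f' + r) :=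
      ev2_mono fun f _ f' _ => hmx1 f f'
    rw [ev2_add, ev2_mul_left, ev2_const hAne] at h9
    exact h9
  have h10 : (0 : ℝ) ≤ (1 / (s : ℝ)) ^ σ'.card := pow_nonneg hs _
  have h11 : (0 : ℝ) ≤ (1 / (s : ℝ)) ^ σ.card := pow_nonneg hs _
  calc (1 / (s : ℝ)) ^ σ'.card * ev A (fun f => (if ∀ u ∈ σ, f u = c then (1 : ℝ) else 0) *
        ev A (fun f' => mx σ σ' Ψ f f'))
      ≤ (1 / (s : ℝ)) ^ σ'.card * ((1 / (s : ℝ)) ^ σ.card *
        ev A (fun f => ev A (fun f' => mx σ σ' Ψ f f'))) :=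
        mul_le_mul_of_nonneg_left h7 h10
    _ ≤ (1 / (s : ℝ)) ^ σ'.card * ((1 / (s : ℝ)) ^ σ.card * (2 * ev2 A Ψ + r)) :=
        mul_le_mul_of_nonneg_left (mul_le_mul_of_nonneg_left h8 h11) h10
    _ = (1 / (s : ℝ)) ^ (σ.card + σ'.card) * (2 * ev2 A Ψ + r) := by
        rw [pow_add]; ring

end Pool.Agent.Ex26
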