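import Pool.Agent.Lib.MP_26a019_lc.Ex.CSpec

set_option autoImplicit false
set_option linter.unusedVariables false
set_option linter.unusedSectionVars false

/-!
# Module CDomYZ: expansion of the factor `YZ` and domination
-/

open Finset Classical

namespace Pool.Agent.Ex26

open Pool.Agent.Kempe Pool.Agent.KempeMix Pool.Agent.Eps26

namespace CDomYZAux

variable {V C : Type} [Fintype V] [Fintype C]

theorem pt_insert_left (c : C) (σ τ : Finset V) (y : V) (f f' : V → C) :
    pt c (insert y σ) τ f f' = (if f y = c then 1 else 0) * pt c σ τ f f' := by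
  unfold pt
  simp only [Finset.forall_mem_insert]
  by_cases h : f y = c <;> simp [h]

theorem pt_insert_right (c : C) (σ τ : Finset V) (z : V) (f f' : V → C) :
    pt c σ (insert z τ) f f' = (if f' z = c then 1 else 0) * pt c σ τ f f' := by
  unfold pt
  simp only [Finset.forall_mem_insert]
  by_cases h : f' z = c <;> simp [h]

theorem expand (G : SimpleGraph V) (U : Finset V) (c : C) (κ σ τ : Finset V) (w : ℝ)
    (f f' : V → C) :
    pt c σ τ f f' * (w * YZ G U c κ f f') =
      pt c σ τ f f' * w + ∑ y ∈ bd G U κ, (pt c (insert y σ) τ f f' * w +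
        ∑ z ∈ nb G U y, pt c (insert y σ) (insert z τ) f f' * w) := by
  have h1 : YZ G U c κ f f' = 1 + ∑ y ∈ bd G U κ, ((if f y = c then (1 : ℝ) else 0) *
      (1 + ∑ z ∈ nb G U y, (if f' z = c then (1 : ℝ) else 0))) := by
    unfold YZ NP
    congr 1
    refine Finset.sum_congr rfl fun y _ => ?_
    rw [Finset.card_filter]
    push_cast
    split_ifs <;> simp
  rw [h1, mul_add, mul_add, mul_one, Finset.mul_sum, Finset.mul_sum]
  congr 1
  refine Finset.sum_congr rfl fun y _ => ?_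
  have h2 : ∑ z ∈ nb G U y, pt c (insert y σ) (insert z τ) f f' * w =
      (pt c (insert y σ) τ f f' * w) * ∑ z ∈ nb G U y, (if f' z = c then (1 : ℝ) else 0) := by
    rw [Finset.mul_sum]
    refine Finset.sum_congr rfl fun z _ => ?_
    rw [pt_insert_right]
    ring
  rw [h2, pt_insert_left]
  ring

theorem mem_CC {G : SimpleGraph V} {U κ : Finset V} {m : ℕ} (h : κ ∈ CC G U m) :
    κ ⊆ U ∧ κ.card ≤ m := by
  unfold CC at h
  rw [Finset.mem_filter, Finset.mem_powerset] at h
  exact ⟨h.1, h.2.2.1⟩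

theorem mem_bd {G : SimpleGraph V} {U κ : Finset V} {y : V} (h : y ∈ bd G U κ) :
    y ∈ U ∧ y ∉ κ ∧ ∃ u ∈ κ, G.Adj y u := by
  unfold bd at h
  rw [Finset.mem_filter, Finset.mem_sdiff] at h
  exact ⟨h.1.1, h.1.2, h.2⟩

theorem card_bd {G : SimpleGraph V} {U κ : Finset V} {L : V → Finset C} {s m : ℕ}
    (hG : Good G U L s) (hκ : κ ⊆ U) (hm : κ.card ≤ m) :
    ((bd G U κ).card : ℝ) ≤ m * (Fintype.card C : ℝ) := by
  have h1 : bd G U κ ⊆ κ.biUnion (nb G U) := by
    intro y hy
    obtain ⟨hyU, _, u, hu, hadj⟩ := mem_bd hy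
    exact Finset.mem_biUnion.2 ⟨u, hu, mem_nb.2 ⟨hyU, hadj.symm⟩⟩
  have h2 : (bd G U κ).card ≤ κ.card * Fintype.card C := by
    refine (Finset.card_le_card h1).trans (Finset.card_biUnion_le_card_mul _ _ _ fun u hu => ?_)
    have := card_nb_le_card hG (hκ hu)
    omega
  have h3 : (bd G U κ).card ≤ m * Fintype.card C := h2.trans (Nat.mul_le_mul_right _ hm)
  exact_mod_cast h3

end CDomYZAux

open CDomYZAux in
theorem cDomYZ_proof : CDomYZ := by
  intro hDom ε m hε
  have he : (0 : ℝ) < 1 / ε := by positivity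
  refine ⟨2 * (1 + m * (1 / ε) * (1 + 1 / ε + m)), by positivity, ?_⟩
  intro V C _ _ G U L p s c κ σ Ψ r hR hκ hσ hr hΨ hX
  obtain ⟨_, hεs, hG⟩ := hR
  obtain ⟨hκU, hκm⟩ := mem_CC hκ
  have hs1 : 1 ≤ s := by have := hG.1; omega
  have hs : (0 : ℝ) < s := by exact_mod_cast (by omega : 0 < s)
  have hA : (Col G U L p).Nonempty := Col_nonempty hG p
  set t : ℝ := 1 / (s : ℝ) with ht
  have ht0 : 0 < t := by positivity
  have hE : 0 ≤ ev2 (Col G U L p) Ψ := ev2_nonneg fun f _ f' _ => hΨ f f'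
  set T : ℝ := 2 * ev2 (Col G U L p) Ψ + r with hT
  have hT0 : 0 ≤ T := by positivity
  have hqt : (Fintype.card C : ℝ) * t ≤ 1 / ε := by
    rw [ht, mul_one_div, div_le_div_iff₀ hs hε]
    linarith
  have hq0 : (0 : ℝ) ≤ (Fintype.card C : ℝ) := Nat.cast_nonneg _
  have hcard : σ.card + (κ \ σ).card = κ.card := by
    rw [add_comm]
    exact Finset.card_sdiff_add_card_eq_card hσ
  -- domination
  have hdom : ∀ σ1 σ2 : Finset V, σ1 ⊆ U → σ2 ⊆ U → (σ1 ∪ σ2).card ≤ m + 2 →
      ev2 (Col G U L p) (fun f f' => pt c σ1 σ2 f f' * Ψ f f') ≤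
        t ^ (σ1.card + σ2.card) * T := by
    intro σ1 σ2 h1 h2 h3
    refine hDom V C G U L p s c σ1 σ2 Ψ r hG h1 h2 hr hΨ ?_
    intro f f' g g' hg hg'
    refine hX (σ1 ∪ σ2) f f' g g' h3 (fun v hv => hg v fun h => hv (Finset.mem_union_left _ h))
      (fun v hv => hg' v fun h => hv (Finset.mem_union_right _ h))
  have hσU : σ ⊆ U := hσ.trans hκU
  have hτU : κ \ σ ⊆ U := Finset.sdiff_subset.trans hκU
  have hun : σ ∪ (κ \ σ) = κ := Finset.union_sdiff_of_subset hσ
  have b0 : ev2 (Col G U L p) (fun f f' => pt c σ (κ \ σ) f f' * Ψ f f') ≤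
      t ^ κ.card * T := by
    have h := hdom σ (κ \ σ) hσU hτU (by rw [hun]; omega)
    rwa [hcard] at h
  have hby : ∀ y ∈ bd G U κ, y ∈ U ∧ y ∉ κ := fun y hy => ⟨(mem_bd hy).1, (mem_bd hy).2.1⟩
  have b1 : ∀ y ∈ bd G U κ,
      ev2 (Col G U L p) (fun f f' => pt c (insert y σ) (κ \ σ) f f' * Ψ f f') ≤
        t ^ (κ.card + 1) * T := by
    intro y hy
    have hyσ : y ∉ σ := fun h => (hby y hy).2 (hσ h)
    have h := hdom (insert y σ) (κ \ σ) (Finset.insert_subset (hby y hy).1 hσU) hτU (by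
      rw [Finset.insert_union, hun]
      exact (Finset.card_insert_le _ _).trans (by omega))
    rw [Finset.card_insert_of_notMem hyσ] at h
    have e : σ.card + 1 + (κ \ σ).card = κ.card + 1 := by omega
    rwa [e] at h
  have b2 : ∀ y ∈ bd G U κ, ∀ z ∈ nb G U y,
      ev2 (Col G U L p) (fun f f' => pt c (insert y σ) (insert z (κ \ σ)) f f' * Ψ f f') ≤
        t ^ (κ.card + 1) * T * (t + (if z ∈ κ \ σ then 1 else 0)) := by
    intro y hy z hz
    have hyσ : y ∉ σ := fun h => (hby y hy).2 (hσ h)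
    have hzU : z ∈ U := (mem_nb.1 hz).1
    have h := hdom (insert y σ) (insert z (κ \ σ)) (Finset.insert_subset (hby y hy).1 hσU)
      (Finset.insert_subset hzU hτU) (by
      rw [Finset.insert_union, Finset.union_insert, hun]
      exact (Finset.card_insert_le _ _).trans
        (by have := Finset.card_insert_le z κ; omega))
    rw [Finset.card_insert_of_notMem hyσ] at h
    by_cases hzτ : z ∈ κ \ σ
    · rw [Finset.insert_eq_of_mem hzτ] at h ⊢
      have e : σ.card + 1 + (κ \ σ).card = κ.card + 1 := by omega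
      rw [e] at h
      rw [if_pos hzτ]
      refine h.trans ?_
      have : 0 ≤ t ^ (κ.card + 1) * T * t := by positivity
      nlinarith
    · rw [Finset.card_insert_of_notMem hzτ] at h
      have e : σ.card + 1 + ((κ \ σ).card + 1) = (κ.card + 1) + 1 := by omega
      rw [e] at h
      rw [if_neg hzτ, add_zero]
      refine h.trans (le_of_eq ?_)
      rw [pow_succ]
      ring
  -- expansion
  have hexp : ev2 (Col G U L p)
      (fun f f' => pt c σ (κ \ σ) f f' * (Ψ f f' * YZ G U c κ f f')) =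
      ev2 (Col G U L p) (fun f f' => pt c σ (κ \ σ) f f' * Ψ f f') +
        ∑ y ∈ bd G U κ, (ev2 (Col G U L p)
          (fun f f' => pt c (insert y σ) (κ \ σ) f f' * Ψ f f') +
          ∑ z ∈ nb G U y, ev2 (Col G U L p)
            (fun f f' => pt c (insert y σ) (insert z (κ \ σ)) f f' * Ψ f f')) := by
    have h1 : ev2 (Col G U L p)
        (fun f f' => pt c σ (κ \ σ) f f' * (Ψ f f' * YZ G U c κ f f')) =
        ev2 (Col G U L p) (fun f f' => pt c σ (κ \ σ) f f' * Ψ f f' +
          ∑ y ∈ bd G U κ, (pt c (insert y σ) (κ \ σ) f f' * Ψ f f' +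
            ∑ z ∈ nb G U y, pt c (insert y σ) (insert z (κ \ σ)) f f' * Ψ f f')) :=
      ev2_congr fun f _ f' _ => expand G U c κ σ (κ \ σ) (Ψ f f') f f'
    rw [h1, ev2_add, ev2_sum]
    congr 1
    refine Finset.sum_congr rfl fun y _ => ?_
    rw [ev2_add, ev2_sum]
  have hτm : ((κ \ σ).card : ℝ) ≤ m := by
    have h1 : (κ \ σ).card ≤ m := by omega
    exact_mod_cast h1
  have b3 : ∀ y ∈ bd G U κ, ev2 (Col G U L p)
          (fun f f' => pt c (insert y σ) (κ \ σ) f f' * Ψ f f') +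
          ∑ z ∈ nb G U y, ev2 (Col G U L p)
            (fun f f' => pt c (insert y σ) (insert z (κ \ σ)) f f' * Ψ f f') ≤
        t ^ (κ.card + 1) * T * (1 + 1 / ε + m) := by
    intro y hy
    have hP : 0 ≤ t ^ (κ.card + 1) * T := by positivity
    have h1 : ∑ z ∈ nb G U y, ev2 (Col G U L p)
            (fun f f' => pt c (insert y σ) (insert z (κ \ σ)) f f' * Ψ f f') ≤
        t ^ (κ.card + 1) * T * (1 / ε + m) := by
      refine (Finset.sum_le_sum fun z hz => b2 y hy z hz).trans ?_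
      rw [← Finset.mul_sum]
      refine mul_le_mul_of_nonneg_left ?_ hP
      rw [Finset.sum_add_distrib, Finset.sum_const, nsmul_eq_mul]
      have h2 : ((nb G U y).card : ℝ) * t ≤ 1 / ε := by
        have h3 := card_nb_le_card hG (hby y hy).1
        have h4 : ((nb G U y).card : ℝ) ≤ (Fintype.card C : ℝ) := by
          exact_mod_cast (by omega : (nb G U y).card ≤ Fintype.card C)
        exact (mul_le_mul_of_nonneg_right h4 ht0.le).trans hqt
      have h5 : ∑ z ∈ nb G U y, (if z ∈ κ \ σ then (1 : ℝ) else 0) ≤ m := by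
        rw [Finset.sum_ite_mem, Finset.sum_const, nsmul_eq_mul, mul_one]
        refine le_trans ?_ hτm
        exact_mod_cast Finset.card_le_card Finset.inter_subset_right
      linarith
    have h2 := b1 y hy
    nlinarith
  rw [hexp]
  have hP : 0 ≤ t ^ κ.card * T := by positivity
  have h1 : ∑ y ∈ bd G U κ, (ev2 (Col G U L p)
          (fun f f' => pt c (insert y σ) (κ \ σ) f f' * Ψ f f') +
          ∑ z ∈ nb G U y, ev2 (Col G U L p)
            (fun f f' => pt c (insert y σ) (insert z (κ \ σ)) f f' * Ψ f f')) ≤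
      t ^ κ.card * T * (m * (1 / ε) * (1 + 1 / ε + m)) := by
    refine (Finset.sum_le_sum fun y hy => b3 y hy).trans ?_
    rw [Finset.sum_const, nsmul_eq_mul]
    have h2 := card_bd (m := m) hG hκU hκm
    have h3 : ((bd G U κ).card : ℝ) * t ≤ m * (1 / ε) := by
      refine (mul_le_mul_of_nonneg_right h2 ht0.le).trans ?_
      rw [mul_assoc]
      exact mul_le_mul_of_nonneg_left hqt (Nat.cast_nonneg _)
    have h4 : 0 ≤ t ^ κ.card * T * (1 + 1 / ε + m) := by positivity
    have h5 := mul_le_mul_of_nonneg_left h3 h4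
    have e1 : ((bd G U κ).card : ℝ) * (t ^ (κ.card + 1) * T * (1 + 1 / ε + m)) =
        t ^ κ.card * T * (1 + 1 / ε + m) * (((bd G U κ).card : ℝ) * t) := by
      rw [pow_succ]; ring
    rw [e1]
    refine h5.trans (le_of_eq ?_)
    ring
  have hT2 : T ≤ 2 * (ev2 (Col G U L p) Ψ + r) := by
    rw [hT]; linarith
  have h6 : t ^ κ.card * T * (1 + m * (1 / ε) * (1 + 1 / ε + m)) ≤
      t ^ κ.card * (2 * (ev2 (Col G U L p) Ψ + r)) * (1 + m * (1 / ε) * (1 + 1 / ε + m)) := by
    have h7 : 0 ≤ t ^ κ.card := by positivity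
    have h8 : (0 : ℝ) ≤ 1 + m * (1 / ε) * (1 + 1 / ε + m) := by positivity
    exact mul_le_mul_of_nonneg_right (mul_le_mul_of_nonneg_left hT2 h7) h8
  calc _ ≤ t ^ κ.card * T + t ^ κ.card * T * (m * (1 / ε) * (1 + 1 / ε + m)) :=
        add_le_add b0 h1
    _ = t ^ κ.card * T * (1 + m * (1 / ε) * (1 + 1 / ε + m)) := by ring
    _ ≤ t ^ κ.card * (2 * (ev2 (Col G U L p) Ψ + r)) *
          (1 + m * (1 / ε) * (1 + 1 / ε + m)) := h6
    _ = _ := by ring

end Pool.Agent.Ex26
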