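import Pool.Agent.Lib.MP_26a019_lc.Ex.CWAbs

set_option autoImplicit false
set_option linter.unusedVariables false
set_option linter.unusedSectionVars false

open Finset Classical

namespace Pool.Agent.Ex26

open Pool.Agent.Kempe Pool.Agent.KempeMix Pool.Agent.Eps26

namespace CGamDiffAux

variable {V C : Type} [Fintype V] [Fintype C] {G : SimpleGraph V} {U : Finset V}
  {L : V → Finset C} {p : V → C}

theorem sk_sq_le (k : V → C → ℝ) (c : C) (κ : Finset V) (φ φ' : V → Option C) {m : ℕ}
    (hm : κ.card ≤ m) : (sk k c κ φ φ') ^ 2 ≤ m * ∑ u ∈ κ, (k u c) ^ 2 := by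
  unfold sk
  have e1 := sq_sum_le_card_mul_sum_sq (s := κ) (f := fun u => sg c φ φ' u * k u c)
  refine e1.trans ?_
  have hm' : (κ.card : ℝ) ≤ m := by exact_mod_cast hm
  refine mul_le_mul hm' (Finset.sum_le_sum fun u _ => ?_)
    (Finset.sum_nonneg fun _ _ => sq_nonneg _) (Nat.cast_nonneg _)
  rw [mul_pow]
  have e2 : (sg c φ φ' u) ^ 2 ≤ 1 := by
    rw [← sq_abs]
    have := abs_sg_le c φ φ' u
    have h0 := abs_nonneg (sg c φ φ' u)
    nlinarith
  exact mul_le_of_le_one_left (sq_nonneg _) e2

/-- Cauchy-Schwarz for `a + ∑ b_i` -/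
theorem cs_add {ι : Type} (t : Finset ι) (a : ℝ) (b : ι → ℝ) :
    (a + ∑ i ∈ t, b i) ^ 2 ≤ (1 + (t.card : ℝ)) * (a ^ 2 + ∑ i ∈ t, (b i) ^ 2) := by
  have h1 := sq_sum_le_card_mul_sum_sq (s := t) (f := b)
  set B := ∑ i ∈ t, b i
  set S := ∑ i ∈ t, (b i) ^ 2 with hS
  have hS0 : 0 ≤ S := Finset.sum_nonneg fun _ _ => sq_nonneg _
  rcases Nat.eq_zero_or_pos t.card with h0 | hpos
  · have hB : B ^ 2 ≤ 0 := by rw [h0] at h1; simpa using h1
    have hB0 : B = 0 := by nlinarith [sq_nonneg B]
    rw [hB0, h0]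
    simp only [add_zero, Nat.cast_zero, one_mul]
    linarith
  · have hn : (0 : ℝ) < (t.card : ℝ) := by exact_mod_cast hpos
    set n : ℝ := (t.card : ℝ) with hn'
    -- (a + B)^2 ≤ (1 + n) a^2 + (1 + 1/n) B^2
    have h2 : (a + B) ^ 2 ≤ (1 + n) * a ^ 2 + (1 + 1 / n) * B ^ 2 := by
      have h3 : 0 ≤ (n * a - B) ^ 2 / n := by positivity
      have h4 : (n * a - B) ^ 2 / n = n * a ^ 2 - 2 * a * B + 1 / n * B ^ 2 := by
        field_simp; ring
      nlinarith
    have h5 : (1 + 1 / n) * B ^ 2 ≤ (1 + 1 / n) * (n * S) :=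
      mul_le_mul_of_nonneg_left h1 (by positivity)
    have h6 : (1 + 1 / n) * (n * S) = (1 + n) * S := by field_simp; ring
    rw [mul_add]
    linarith

end CGamDiffAux

open CWAbsAux CGamDiffAux in
theorem cGamDiff_proof : CGamDiff := by
  intro h13 h14 V C _ _ G U L p k m x f f' hm hf hf' hx
  set c := f x with hc
  have e1 : Gm G U k m (so f) (so f') - Gm G U k m (sx x f) (so f') =
      (∑ κ ∈ (comps G (DD U c f f')).filter (fun κ => m < κ.card), sk k c κ (so f) (so f')) -
      ∑ κ ∈ (comps G (DO U c (sx x f) (so f'))).filter (fun κ => m < κ.card),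
        sk k c κ (sx x f) (so f') := by
    unfold Gm
    rw [← Finset.sum_sub_distrib, Finset.sum_eq_single c]
    · rw [DO_so]
    · intro c' _ hne
      rw [DO_sx_ne (by rw [← hc]; exact hne), sub_eq_zero]
      exact Finset.sum_congr rfl fun κ _ => by rw [sk_sx_ne (by rw [← hc]; exact hne)]
    · intro h; exact absurd (Finset.mem_univ _) h
  rw [e1]
  by_cases h : f' x = f x
  · -- the same colour at `x`
    rw [if_neg (by rw [← hc, ← hc] at *; exact fun hh => hh.1 h)]
    have hDO : DO U c (sx x f) (so f') = insert x (DD U c f f') := DO_sx_eq hx h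
    have hxD : x ∉ DD U c f f' := notMem_DD h
    have hnadj := not_adj_DD hf hf' hx h
    have h1 := (h14 V G (DD U c f f') x hxD)
    have hall : (comps G (DD U c f f')).filter (fun κ => ¬ ∃ u ∈ κ, G.Adj x u) =
        comps G (DD U c f f') := by
      refine Finset.filter_true_of_mem fun κ hκ => ?_
      rintro ⟨u, hu, hadj⟩
      obtain ⟨v, hv, rfl⟩ := Finset.mem_image.1 hκ
      exact hnadj u ((h13 V G (DD U c f f')).2.1 v hu) hadj
    have hnone : (comps G (DD U c f f')).filter (fun κ => ∃ u ∈ κ, G.Adj x u) = ∅ := by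
      rw [Finset.filter_eq_empty_iff]
      intro κ hκ
      rintro ⟨u, hu, hadj⟩
      obtain ⟨v, hv, rfl⟩ := Finset.mem_image.1 hκ
      exact hnadj u ((h13 V G (DD U c f f')).2.1 v hu) hadj
    have hK : cmp G (insert x (DD U c f f')) x = {x} := by
      rw [h1.2.2.1, hnone]
      simp
    have hcomps : comps G (DO U c (sx x f) (so f')) = insert {x} (comps G (DD U c f f')) := by
      rw [hDO, h1.1, hall, hK]
    have e2 : (comps G (DO U c (sx x f) (so f'))).filter (fun κ => m < κ.card) =
        (comps G (DD U c f f')).filter (fun κ => m < κ.card) := by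
      rw [hcomps, Finset.filter_insert, if_neg (by rw [Finset.card_singleton]; omega)]
    rw [e2]
    have e3 : ∑ κ ∈ (comps G (DD U c f f')).filter (fun κ => m < κ.card),
        sk k c κ (sx x f) (so f') =
        ∑ κ ∈ (comps G (DD U c f f')).filter (fun κ => m < κ.card),
        sk k c κ (so f) (so f') := by
      refine Finset.sum_congr rfl fun κ hκ => sk_sx_notMem k fun hmem => ?_
      obtain ⟨v, hv, rfl⟩ := Finset.mem_image.1 (Finset.mem_filter.1 hκ).1
      exact hxD ((h13 V G (DD U c f f')).2.1 v hmem)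
    rw [e3, sub_self]
    norm_num
  · -- different colours
    have hxD : x ∈ DD U c f f' := mem_DD' hx h
    have hDO : DO U c (sx x f) (so f') = (DD U c f f').erase x := DO_sx_in hx h
    set D' := (DD U c f f').erase x with hD'
    have hxD' : x ∉ D' := Finset.notMem_erase _ _
    have hins : insert x D' = DD U c f f' := Finset.insert_erase hxD
    have h1 := (h14 V G D' x hxD')
    set K := cmp G (DD U c f f') x with hKdef
    have hKi : cmp G (insert x D') x = K := by rw [hins]
    rw [hKi, hins] at h1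
    obtain ⟨hcomps, hxK, hKun, hdisj, hcard⟩ := h1
    rw [hDO]
    set Ad := (comps G D').filter (fun κ => ∃ u ∈ κ, G.Adj x u) with hAd
    have hnot : ∀ κ ∈ comps G D', x ∉ κ := by
      intro κ hκ hmem
      obtain ⟨v, hv, rfl⟩ := Finset.mem_image.1 hκ
      exact hxD' ((h13 V G D').2.1 v hmem)
    -- the sums
    have e2 : ∑ κ ∈ (comps G (DD U c f f')).filter (fun κ => m < κ.card),
        sk k c κ (so f) (so f') =
        (if m < K.card then sk k c K (so f) (so f') else 0) +
        ∑ κ ∈ (comps G D').filter (fun κ => ¬ ∃ u ∈ κ, G.Adj x u),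
          (if m < κ.card then sk k c κ (so f) (so f') else 0) := by
      rw [Finset.sum_filter, hcomps, Finset.sum_insert]
      intro hmem
      exact hnot K (Finset.mem_filter.1 hmem).1 hxK
    have e3 : ∑ κ ∈ (comps G D').filter (fun κ => m < κ.card), sk k c κ (sx x f) (so f') =
        (∑ κ ∈ Ad, (if m < κ.card then sk k c κ (so f) (so f') else 0)) +
        ∑ κ ∈ (comps G D').filter (fun κ => ¬ ∃ u ∈ κ, G.Adj x u),
          (if m < κ.card then sk k c κ (so f) (so f') else 0) := by
      rw [Finset.sum_filter, hAd, Finset.sum_filter_add_sum_filter_not]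
      refine Finset.sum_congr rfl fun κ hκ => ?_
      rw [sk_sx_notMem k (hnot κ hκ)]
    rw [e2, e3]
    -- sizes
    have hsubK : ∀ κ ∈ Ad, κ ⊆ K := by
      intro κ hκ
      rw [hKun]
      exact (Finset.subset_biUnion_of_mem id hκ).trans (Finset.subset_insert _ _)
    by_cases hbig : m < K.card
    · rw [if_pos hbig, if_pos ⟨h, hbig⟩]
      -- `s_K = k x c + ∑ s_κ`
      have hpd : (Ad : Set (Finset V)).PairwiseDisjoint id := by
        intro κ hκ κ' hκ' hne
        exact hdisj κ (Finset.mem_filter.1 hκ).1 κ' (Finset.mem_filter.1 hκ').1 hne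
      have hsgx : sg c (so f) (so f') x = 1 := by
        rw [sg_so, if_pos rfl, if_neg h]; norm_num
      have e4 : sk k c K (so f) (so f') = k x c + ∑ κ ∈ Ad, sk k c κ (so f) (so f') := by
        unfold sk
        rw [hKun, Finset.sum_insert, Finset.sum_biUnion hpd, hsgx, one_mul]
        · rfl
        · intro hmem
          obtain ⟨κ, hκ, hxκ⟩ := Finset.mem_biUnion.1 hmem
          exact hnot κ (Finset.mem_filter.1 hκ).1 hxκ
      set Sm := Ad.filter (fun κ => κ.card ≤ m) with hSm
      have e5 : ∑ κ ∈ Ad, sk k c κ (so f) (so f') =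
          (∑ κ ∈ Ad, (if m < κ.card then sk k c κ (so f) (so f') else 0)) +
          ∑ κ ∈ Sm, sk k c κ (so f) (so f') := by
        have hS' : ∑ κ ∈ Sm, sk k c κ (so f) (so f') =
            ∑ κ ∈ Ad, (if κ.card ≤ m then sk k c κ (so f) (so f') else 0) := by
          rw [hSm]; exact Finset.sum_filter _ _
        rw [hS', ← Finset.sum_add_distrib]
        refine Finset.sum_congr rfl fun κ _ => ?_
        by_cases hk : κ.card ≤ m
        · rw [if_neg (not_lt.2 hk), if_pos hk, zero_add]
        · rw [if_pos (not_le.1 hk), if_neg hk, add_zero]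
      have e6 : sk k c K (so f) (so f') +
          ∑ κ ∈ (comps G D').filter (fun κ => ¬ ∃ u ∈ κ, G.Adj x u),
            (if m < κ.card then sk k c κ (so f) (so f') else 0) -
          ((∑ κ ∈ Ad, (if m < κ.card then sk k c κ (so f) (so f') else 0)) +
          ∑ κ ∈ (comps G D').filter (fun κ => ¬ ∃ u ∈ κ, G.Adj x u),
            (if m < κ.card then sk k c κ (so f) (so f') else 0)) =
          k x c + ∑ κ ∈ Sm, sk k c κ (so f) (so f') := by
        rw [e4, e5]; ring
      rw [e6]
      refine (cs_add Sm (k x c) _).trans ?_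
      -- number of pieces
      have hn : (Sm.card : ℝ) ≤ (NP G U c x f' : ℝ) := by
        have i1 : Sm.card ≤ Ad.card := Finset.card_le_card (Finset.filter_subset _ _)
        have i2 : (D'.filter (fun u => G.Adj x u)).card ≤ NP G U c x f' := by
          unfold NP
          refine Finset.card_le_card fun u hu => ?_
          obtain ⟨huD, hadj⟩ := Finset.mem_filter.1 hu
          obtain ⟨huU, hu2⟩ := mem_DD.1 (Finset.mem_of_mem_erase huD)
          have hfu : f u ≠ c := fun e => (mem_Col.1 hf).2.2 x hx u huU hadj e.symm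
          have hf'u : f' u = c := by
            by_contra hne
            exact hu2 ⟨fun e => absurd e hfu, fun e => absurd e hne⟩
          exact Finset.mem_filter.2 ⟨mem_nb.2 ⟨huU, hadj⟩, hf'u⟩
        exact_mod_cast i1.trans (hcard.trans i2)
      have hsq : ∑ κ ∈ Sm, (sk k c κ (so f) (so f')) ^ 2 ≤
          m * ∑ v ∈ K.filter (fun v => v ≠ x ∧ (cmp G D' v).card ≤ m), (k v c) ^ 2 := by
        have i1 : ∑ κ ∈ Sm, (sk k c κ (so f) (so f')) ^ 2 ≤
            ∑ κ ∈ Sm, m * ∑ u ∈ κ, (k u c) ^ 2 :=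
          Finset.sum_le_sum fun κ hκ => sk_sq_le k c κ _ _ (Finset.mem_filter.1 hκ).2
        refine i1.trans ?_
        rw [← Finset.mul_sum]
        refine mul_le_mul_of_nonneg_left ?_ (Nat.cast_nonneg _)
        have hpd2 : (Sm : Set (Finset V)).PairwiseDisjoint id := by
          intro κ hκ κ' hκ' hne
          exact hpd (Finset.mem_filter.1 hκ).1 (Finset.mem_filter.1 hκ').1 hne
        have i2 : ∑ κ ∈ Sm, ∑ u ∈ κ, (k u c) ^ 2 = ∑ u ∈ Sm.biUnion id, (k u c) ^ 2 := by
          rw [Finset.sum_biUnion hpd2]; rfl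
        rw [i2]
        refine Finset.sum_le_sum_of_subset_of_nonneg ?_ fun _ _ _ => sq_nonneg _
        intro v hv
        obtain ⟨κ, hκ, hvκ⟩ := Finset.mem_biUnion.1 hv
        have hvκ : v ∈ κ := hvκ
        obtain ⟨hκA, hκm⟩ := Finset.mem_filter.1 hκ
        have hκD : κ ∈ comps G D' := (Finset.mem_filter.1 hκA).1
        refine Finset.mem_filter.2 ⟨hsubK κ hκA hvκ, ?_, ?_⟩
        · rintro rfl
          exact hnot κ hκD hvκ
        · rw [((h13 V G D').2.2.2.2.2 κ hκD).2.1 v hvκ]
          exact hκm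
      have h0 : 0 ≤ (k x c) ^ 2 + ∑ κ ∈ Sm, (sk k c κ (so f) (so f')) ^ 2 :=
        add_nonneg (sq_nonneg _) (Finset.sum_nonneg fun _ _ => sq_nonneg _)
      exact mul_le_mul (by linarith) (by linarith) h0 (by positivity)
    · rw [if_neg hbig, if_neg (fun hh => hbig hh.2)]
      have e4 : ∑ κ ∈ Ad, (if m < κ.card then sk k c κ (so f) (so f') else 0) = 0 := by
        refine Finset.sum_eq_zero fun κ hκ => if_neg ?_
        have := Finset.card_le_card (hsubK κ hκ)
        omega
      rw [e4]
      norm_num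

end Pool.Agent.Ex26
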