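import Pool.Agent.Lib.MP_26a019_lc.Ex.CSpec

set_option autoImplicit false

open Finset Classical

namespace Pool.Agent.Ex26

open Pool.Agent.Kempe Pool.Agent.KempeMix Pool.Agent.Eps26

namespace CGamFinAux

theorem sx_update {V C : Type} (x : V) (f : V → C) (c : C) :
    sx x (Function.update f x c) = sx x f := by
  funext v
  unfold sx
  split_ifs with h
  · rfl
  · rw [Function.update_of_ne h]

end CGamFinAux

open CGamFinAux in
theorem cGamFin_proof : CGamFin := by
  intro h1 h2 h3 h4 h5 h6 h7 h8 h9 h10 h11 V C _ _ G U L p s ε P t m J k hreg hP hPoin hm hoff htl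
  obtain ⟨hε, hs, hG⟩ := hreg
  have hant : ∀ f f' : V → C, Gm G U k m (so f') (so f) = -1 * Gm G U k m (so f) (so f') := by
    intro f f'
    rw [Gm_comm]; ring
  have hmean : ev2 (Col G U L p) (fun f f' => Gm G U k m (so f) (so f')) = 0 := by
    have e1 := ev2_swap (A := Col G U L p) (fun f f' => Gm G U k m (so f) (so f'))
    have e2 : ev2 (Col G U L p) (fun f f' => Gm G U k m (so f') (so f)) =
        - ev2 (Col G U L p) (fun f f' => Gm G U k m (so f) (so f')) := by
      rw [← ev2_neg]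
      exact ev2_congr fun f _ f' _ => by rw [hant]; ring
    linarith
  have e1 := h1 V C G U L p s P (-1) (fun f f' => Gm G U k m (so f) (so f'))
    (fun x f f' => Gm G U k m (sx x f) (so f')) hG hP hPoin (Or.inr rfl) hant hmean
    (fun x _ f' f c => by simp only [sx_update])
  refine e1.trans ?_
  rw [mul_assoc (2 * P)]
  refine mul_le_mul_of_nonneg_left ?_ (by positivity)
  have e2 : ∑ x ∈ U, ev2 (Col G U L p) (fun f f' =>
      (Gm G U k m (so f) (so f') - Gm G U k m (sx x f) (so f')) ^ 2) =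
      ev2 (Col G U L p) (fun f f' => ∑ x ∈ U,
        (Gm G U k m (so f) (so f') - Gm G U k m (sx x f) (so f')) ^ 2) := by
    rw [← ev2_sum]
  rw [e2]
  have e3 : ev2 (Col G U L p) (fun f f' => ∑ x ∈ U,
        (Gm G U k m (so f) (so f') - Gm G U k m (sx x f) (so f')) ^ 2) ≤
      ev2 (Col G U L p) (fun f f' => (1 + J) * (1 + (m : ℝ) ^ 2) * (∑ c, ∑ v ∈ U, (k v c) ^ 2 *
        (if m < (cl G U c v f f').card then 1 else 0)) +
      (1 + m) * CR G U k m (PsiG G U J) f f') :=
    ev2_mono fun f hf f' hf' => h11 h7 h8 h9 h10 V C G U L p k m J f f' hm hf hf'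
  refine e3.trans ?_
  rw [ev2_add, ev2_mul_left, ev2_mul_left]
  have e4 : ev2 (Col G U L p) (fun f f' => ∑ c, ∑ v ∈ U, (k v c) ^ 2 *
        (if m < (cl G U c v f f').card then (1 : ℝ) else 0)) ≤ t * nrm (Col G U L p) U k := by
    rw [ev2_sum]
    simp only [ev2_sum, ev2_mul_left]
    rw [Finset.sum_comm]
    unfold nrm
    rw [Finset.mul_sum]
    refine Finset.sum_le_sum fun v hv => ?_
    rw [Finset.mul_sum]
    refine Finset.sum_le_sum fun c _ => ?_
    have := mul_le_mul_of_nonneg_left (htl v hv c) (sq_nonneg (k v c))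
    refine this.trans (le_of_eq ?_)
    ring
  have e5 := h5 h3 h4 V C G U L p s ε k m (PsiG G U J)
    (2 * (1 / 2 : ℝ) ^ J * 4 ^ m * Real.exp (3 / ε) * m * (1 + 1 / ε)) ⟨hε, hs, hG⟩ hoff
    (by positivity) (fun c κ f f' => by
      unfold PsiG
      refine Finset.sum_nonneg fun x _ => ?_
      split_ifs <;> positivity)
    (fun c κ hκ σ hσ => h6 h2 V C G U L p s ε m J c κ σ ⟨hε, hs, hG⟩ hκ hσ)
  have e6 : ev2 (Col G U L p) (fun f f' => CR G U k m (PsiG G U J) f f') =
      ev2 (Col G U L p) (CR G U k m (PsiG G U J)) := rfl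
  rw [e6]
  have hN := nrm_nonneg (Col G U L p) U k
  have e7 := mul_le_mul_of_nonneg_left e4 (by positivity : 0 ≤ (1 + (J : ℝ)) * (1 + (m : ℝ) ^ 2))
  have e8 := mul_le_mul_of_nonneg_left e5 (by positivity : 0 ≤ 1 + (m : ℝ))
  refine (add_le_add e7 e8).trans (le_of_eq ?_)
  ring

end Pool.Agent.Ex26
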