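import Pool.Agent.Lib.MP_26a019_lc.Ex.CSpec

set_option autoImplicit false
set_option linter.unusedVariables false

/-!
# Part C, module CGamPt
-/

open Finset Classical

namespace Pool.Agent.Ex26

open Pool.Agent.Kempe Pool.Agent.KempeMix Pool.Agent.Eps26

namespace CGamPtAux

theorem num (J N : ℕ) : 1 + (N : ℝ) ≤ (1 + J) + (1 / 2 : ℝ) ^ J * 4 ^ N := by
  by_cases h : N ≤ J
  · have h1 : (N : ℝ) ≤ J := by exact_mod_cast h
    have h2 : (0 : ℝ) ≤ (1 / 2 : ℝ) ^ J * 4 ^ N := by positivity
    linarith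
  · push Not at h
    have h1 : 1 + (N : ℝ) ≤ 2 ^ N := by
      have h2 : N + 1 ≤ 2 ^ N := Nat.lt_two_pow_self
      have h3 : ((N + 1 : ℕ) : ℝ) ≤ ((2 ^ N : ℕ) : ℝ) := by exact_mod_cast h2
      push_cast at h3
      linarith
    have h2 : (2 : ℝ) ^ N ≤ (1 / 2 : ℝ) ^ J * 4 ^ N := by
      have h3 : (2 : ℝ) ^ J ≤ 2 ^ N := pow_le_pow_right₀ (by norm_num) h.le
      have h4 : (1 / 2 : ℝ) ^ J * 4 ^ N = (2 : ℝ) ^ N * (2 ^ N / 2 ^ J) := by
        rw [show (4 : ℝ) = 2 * 2 by norm_num, mul_pow, one_div, inv_pow]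
        field_simp
      rw [h4]
      have h5 : 1 ≤ (2 : ℝ) ^ N / 2 ^ J := by
        rw [one_le_div (by positivity)]
        exact h3
      nlinarith [pow_pos (show (0 : ℝ) < 2 by norm_num) N]
    have h3 : (0 : ℝ) ≤ J := Nat.cast_nonneg _
    linarith

end CGamPtAux

open CGamPtAux

theorem cGamPt_proof : CGamPt := by
  intro hCmp hPiece hX hDiff V C _ _ G U L p k m J f f' hm hf hf'
  set D : C → Finset V := fun c => DD U c f f' with hD
  have hDU : ∀ c, D c ⊆ U := fun c => Finset.filter_subset _ _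
  have hDor : ∀ c, ∀ u ∈ D c, f u = c ∨ f' u = c := by
    intro c u hu
    have h1 := (Finset.mem_filter.1 hu).2
    by_contra h
    push Not at h
    exact h1 ⟨fun h2 => absurd h2 h.1, fun h2 => absurd h2 h.2⟩
  set g : V → C → ℝ := fun x c => (1 / 2 : ℝ) ^ J * 4 ^ (NP G U c x f') with hg
  have hg0 : ∀ x c, 0 ≤ g x c := fun x c => by rw [hg]; positivity
  set S : V → C → Finset V := fun x c => (cmp G (D c) x).filter
    (fun v => v ≠ x ∧ (cmp G ((D c).erase x) v).card ≤ m) with hS
  set I : V → C → Prop := fun x c => f x = c ∧ f' x ≠ c ∧ m < (cmp G (D c) x).card with hI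
  have hID : ∀ x ∈ U, ∀ c, I x c → x ∈ D c := by
    intro x hx c h
    refine Finset.mem_filter.2 ⟨hx, fun h2 => ?_⟩
    exact h.2.1 (h2.1 h.1)
  have hJ0 : (0 : ℝ) ≤ J := Nat.cast_nonneg _
  have hm0 : (0 : ℝ) ≤ m := Nat.cast_nonneg _
  -- facts on the elements of `S`
  have hSf : ∀ x ∈ U, ∀ c, I x c → ∀ v ∈ S x c, v ∈ D c ∧ cmp G (D c) v = cmp G (D c) x ∧
      x ∈ cmp G (D c) v ∧ v ≠ x ∧ (cmp G ((D c).erase x) v).card ≤ m := by
    intro x hx c h v hv
    obtain ⟨h1, h2, h3⟩ := Finset.mem_filter.1 hv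
    obtain ⟨c1, c2, c3, -, -, -⟩ := hCmp V G (D c)
    have h4 := c3 v x h1
    exact ⟨c2 x h1, h4, h4 ▸ c1 x (hID x hx c h), h2, h3⟩
  have hbound : ∀ x ∈ U, (Gm G U k m (so f) (so f') - Gm G U k m (sx x f) (so f')) ^ 2 ≤
      ∑ c, (if I x c then ((1 + J) + g x c) * ((k x c) ^ 2 + m * ∑ v ∈ S x c, (k v c) ^ 2)
        else 0) := by
    intro x hx
    have h1 := hDiff hCmp hPiece V C G U L p k m x f f' hm hf hf' hx
    refine h1.trans ?_
    have h2 : (if I x (f x) then ((1 + J) + g x (f x)) *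
        ((k x (f x)) ^ 2 + m * ∑ v ∈ S x (f x), (k v (f x)) ^ 2) else 0) ≤
        ∑ c, (if I x c then ((1 + J) + g x c) * ((k x c) ^ 2 + m * ∑ v ∈ S x c, (k v c) ^ 2)
        else 0) := by
      refine Finset.single_le_sum (f := fun c => if I x c then ((1 + J) + g x c) *
        ((k x c) ^ 2 + m * ∑ v ∈ S x c, (k v c) ^ 2) else 0) (fun c _ => ?_)
        (Finset.mem_univ (f x))
      split_ifs
      · have := hg0 x c
        have h3 : 0 ≤ ∑ v ∈ S x c, (k v c) ^ 2 := Finset.sum_nonneg fun _ _ => sq_nonneg _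
        positivity
      · exact le_rfl
    refine le_trans ?_ h2
    by_cases hc : f' x ≠ f x ∧ m < (cmp G (DD U (f x) f f') x).card
    · rw [if_pos hc, if_pos (show I x (f x) from ⟨rfl, hc.1, hc.2⟩)]
      refine mul_le_mul_of_nonneg_right (num J _) ?_
      have h3 : 0 ≤ ∑ v ∈ S x (f x), (k v (f x)) ^ 2 := Finset.sum_nonneg fun _ _ => sq_nonneg _
      positivity
    · rw [if_neg hc]
      split_ifs
      · have := hg0 x (f x)
        have h3 : 0 ≤ ∑ v ∈ S x (f x), (k v (f x)) ^ 2 :=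
          Finset.sum_nonneg fun _ _ => sq_nonneg _
        positivity
      · exact le_rfl
  set B : C → ℝ := fun c => ∑ v ∈ U, (k v c) ^ 2 *
    (if m < (cl G U c v f f').card then (1 : ℝ) else 0) with hB
  set R : C → ℝ := fun c => ∑ κ ∈ CC G U m, (if (∀ u ∈ κ, f u = c ∨ f' u = c) then
    (∑ w ∈ κ, (k w c) ^ 2) * PsiG G U J c κ f f' else 0) with hR
  -- (1)
  have h1 : ∀ c, ∑ x ∈ U, (if I x c then (k x c) ^ 2 else 0) ≤ B c := by
    intro c
    refine Finset.sum_le_sum fun x hx => ?_
    split_ifs with h2 h3 h3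
    · rw [mul_one]
    · exact absurd h2.2.2 h3
    · positivity
    · positivity
  -- (3)
  have h3 : ∀ c, ∑ x ∈ U, (if I x c then ∑ v ∈ S x c, (k v c) ^ 2 else 0) ≤ m * B c := by
    intro c
    have e1 : ∀ x ∈ U, (if I x c then ∑ v ∈ S x c, (k v c) ^ 2 else 0) =
        ∑ v ∈ U, (if I x c ∧ v ∈ S x c then (k v c) ^ 2 else 0) := by
      intro x hx
      by_cases h : I x c
      · rw [if_pos h]
        have hsub : S x c ⊆ U := fun v hv => hDU c (hSf x hx c h v hv).1
        rw [← Finset.sum_filter]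
        refine Finset.sum_congr ?_ fun _ _ => rfl
        ext v
        constructor
        · intro hv
          exact Finset.mem_filter.2 ⟨hsub hv, h, hv⟩
        · intro hv
          exact (Finset.mem_filter.1 hv).2.2
      · rw [if_neg h]
        symm
        exact Finset.sum_eq_zero fun v _ => if_neg fun h' => h h'.1
    rw [Finset.sum_congr rfl e1, Finset.sum_comm, hB, Finset.mul_sum]
    refine Finset.sum_le_sum fun v hv => ?_
    rw [← Finset.sum_filter, Finset.sum_const, nsmul_eq_mul]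
    by_cases hne : (U.filter (fun x => I x c ∧ v ∈ S x c)).card = 0
    · rw [hne]
      have : (0 : ℝ) ≤ (if m < (cl G U c v f f').card then (1 : ℝ) else 0) := by
        split_ifs <;> norm_num
      simp only [Nat.cast_zero, zero_mul]
      positivity
    · obtain ⟨x, hx⟩ := Finset.card_pos.1 (Nat.pos_of_ne_zero hne)
      obtain ⟨hxU, hIx, hvS⟩ := Finset.mem_filter.1 hx
      obtain ⟨f1, f2, f3, f4, f5⟩ := hSf x hxU c hIx v hvS
      have hlarge : m < (cl G U c v f f').card := by
        show m < (cmp G (D c) v).card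
        rw [f2]
        exact hIx.2.2
      rw [if_pos hlarge, mul_one]
      refine mul_le_mul_of_nonneg_right ?_ (sq_nonneg _)
      have h4 : (U.filter (fun x => I x c ∧ v ∈ S x c)).card ≤ m := by
        refine le_trans (Finset.card_le_card ?_) (hX V G (D c) v m f1)
        intro y hy
        obtain ⟨hyU, hIy, hvy⟩ := Finset.mem_filter.1 hy
        obtain ⟨g1, g2, g3, g4, g5⟩ := hSf y hyU c hIy v hvy
        exact Finset.mem_filter.2 ⟨hID y hyU c hIy, fun h => g4 h.symm, g3, g5⟩
      exact_mod_cast h4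
  -- nonnegativity of `PsiG`
  have hPsi0 : ∀ c κ, 0 ≤ PsiG G U J c κ f f' := by
    intro c κ
    unfold PsiG
    refine Finset.sum_nonneg fun x _ => ?_
    split_ifs
    · positivity
    · exact le_rfl
  -- (2)
  have h2 : ∀ c, ∑ x ∈ U, (if I x c then g x c * (k x c) ^ 2 else 0) ≤ R c := by
    intro c
    have e1 : ∑ x ∈ U, (if I x c then g x c * (k x c) ^ 2 else 0) ≤
        ∑ x ∈ U, (if (∀ u ∈ ({x} : Finset V), f u = c ∨ f' u = c) then
          (∑ w ∈ ({x} : Finset V), (k w c) ^ 2) * PsiG G U J c {x} f f' else 0) := by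
      refine Finset.sum_le_sum fun x hx => ?_
      by_cases h : I x c
      · rw [if_pos h, if_pos (fun u hu => by
          rw [Finset.mem_singleton.1 hu]; exact Or.inl h.1), Finset.sum_singleton, mul_comm]
        refine mul_le_mul_of_nonneg_left ?_ (sq_nonneg _)
        unfold PsiG
        have h5 : (if f x = c then (1 / 2 : ℝ) ^ J * 4 ^ (NP G U c x f') else 0) = g x c :=
          if_pos h.1
        rw [← h5]
        refine Finset.single_le_sum (f := fun x => if f x = c then
          (1 / 2 : ℝ) ^ J * 4 ^ (NP G U c x f') else 0) (fun y _ => ?_)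
          (Finset.mem_union_left _ (Finset.mem_singleton_self x))
        split_ifs
        · positivity
        · exact le_rfl
      · rw [if_neg h]
        split_ifs
        · exact mul_nonneg (Finset.sum_nonneg fun _ _ => sq_nonneg _) (hPsi0 _ _)
        · exact le_rfl
    refine e1.trans ?_
    have e2 : ∑ x ∈ U, (if (∀ u ∈ ({x} : Finset V), f u = c ∨ f' u = c) then
          (∑ w ∈ ({x} : Finset V), (k w c) ^ 2) * PsiG G U J c {x} f f' else 0) =
        ∑ κ ∈ U.image (fun x => ({x} : Finset V)), (if (∀ u ∈ κ, f u = c ∨ f' u = c) then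
          (∑ w ∈ κ, (k w c) ^ 2) * PsiG G U J c κ f f' else 0) := by
      rw [Finset.sum_image]
      intro a _ b _ hab
      exact Finset.singleton_injective hab
    rw [e2]
    refine Finset.sum_le_sum_of_subset_of_nonneg ?_ fun κ _ _ => ?_
    · intro κ hκ
      obtain ⟨x, hx, rfl⟩ := Finset.mem_image.1 hκ
      refine Finset.mem_filter.2 ⟨Finset.mem_powerset.2 (Finset.singleton_subset_iff.2 hx),
        Finset.singleton_nonempty x, by rw [Finset.card_singleton]; exact hm, ?_⟩
      intro v hv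
      rw [Finset.mem_singleton] at hv
      subst hv
      obtain ⟨c1, c2, -, -, -, -⟩ := hCmp V G ({v} : Finset V)
      exact Finset.Subset.antisymm (c2 v)
        (Finset.singleton_subset_iff.2 (c1 v (Finset.mem_singleton_self v)))
    · split_ifs
      · exact mul_nonneg (Finset.sum_nonneg fun _ _ => sq_nonneg _) (hPsi0 _ _)
      · exact le_rfl
  -- (4)
  have h4 : ∀ c, ∑ x ∈ U, (if I x c then g x c * ∑ v ∈ S x c, (k v c) ^ 2 else 0) ≤ R c := by
    intro c
    -- the bound for fixed `x`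
    have e1 : ∀ x ∈ U, (if I x c then g x c * ∑ v ∈ S x c, (k v c) ^ 2 else 0) ≤
        ∑ κ ∈ CC G U m, (if (∀ u ∈ κ, f u = c ∨ f' u = c) then
          (∑ w ∈ κ, (k w c) ^ 2) * (if x ∈ bd G U κ then (if f x = c then g x c else 0) else 0)
          else 0) := by
      intro x hx
      by_cases h : I x c
      · rw [if_pos h, h.1]
        have hmap : ∀ v ∈ S x c, cmp G ((D c).erase x) v ∈ (CC G U m).filter
            (fun κ => (∀ u ∈ κ, f u = c ∨ f' u = c) ∧ x ∈ bd G U κ) := by
          intro v hv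
          obtain ⟨f1, f2, f3, f4, f5⟩ := hSf x hx c h v hv
          obtain ⟨c1, c2, c3, c4, c5, c6⟩ := hCmp V G ((D c).erase x)
          have hvE : v ∈ (D c).erase x := Finset.mem_erase.2 ⟨f4, f1⟩
          have hcomp : cmp G ((D c).erase x) v ∈ comps G ((D c).erase x) :=
            Finset.mem_image_of_mem _ hvE
          obtain ⟨d1, d2, d3⟩ := c6 _ hcomp
          have hsubU : cmp G ((D c).erase x) v ⊆ U := fun u hu =>
            hDU c (Finset.mem_of_mem_erase (c2 v hu))
          refine Finset.mem_filter.2 ⟨Finset.mem_filter.2 ⟨Finset.mem_powerset.2 hsubU, d1, f5,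
            d3⟩, fun u hu => hDor c u (Finset.mem_of_mem_erase (c2 v hu)), ?_⟩
          have hins : insert x ((D c).erase x) = D c := Finset.insert_erase (hID x hx c h)
          obtain ⟨-, -, p3, -, -⟩ := hPiece V G ((D c).erase x) x (Finset.notMem_erase x _)
          rw [hins] at p3
          have hvx : v ∈ cmp G (D c) x := (Finset.mem_filter.1 hv).1
          rw [p3, Finset.mem_insert] at hvx
          rcases hvx with hvx | hvx
          · exact absurd hvx f4
          · obtain ⟨κ, hκ, hvκ⟩ := Finset.mem_biUnion.1 hvx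
            obtain ⟨hκ1, u, hu, hadj⟩ := Finset.mem_filter.1 hκ
            obtain ⟨-, d2', -⟩ := c6 κ hκ1
            have hvκ' : v ∈ κ := hvκ
            have hκv : cmp G ((D c).erase x) v = κ := d2' v hvκ'
            rw [hκv]
            refine Finset.mem_filter.2 ⟨Finset.mem_sdiff.2 ⟨hx, fun hxκ => ?_⟩, u, hu, hadj⟩
            have : x ∈ (D c).erase x := by
              have := hκv ▸ hxκ
              exact c2 v this
            exact Finset.notMem_erase x _ this
        have e2 : ∑ v ∈ S x c, (k v c) ^ 2 ≤ ∑ κ ∈ (CC G U m).filter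
            (fun κ => (∀ u ∈ κ, f u = c ∨ f' u = c) ∧ x ∈ bd G U κ), ∑ w ∈ κ, (k w c) ^ 2 := by
          rw [← Finset.sum_fiberwise_of_maps_to hmap]
          refine Finset.sum_le_sum fun κ hκ => ?_
          refine Finset.sum_le_sum_of_subset_of_nonneg ?_ fun _ _ _ => sq_nonneg _
          intro v hv
          obtain ⟨hvS, hvκ⟩ := Finset.mem_filter.1 hv
          obtain ⟨f1, f2, f3, f4, f5⟩ := hSf x hx c h v hvS
          obtain ⟨c1, -, -, -, -, -⟩ := hCmp V G ((D c).erase x)
          rw [← hvκ]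
          exact c1 v (Finset.mem_erase.2 ⟨f4, f1⟩)
        refine (mul_le_mul_of_nonneg_left e2 (hg0 x c)).trans ?_
        rw [Finset.mul_sum, Finset.sum_filter]
        refine Finset.sum_le_sum fun κ _ => ?_
        by_cases h6 : ∀ u ∈ κ, f u = c ∨ f' u = c
        · by_cases h7 : x ∈ bd G U κ
          · rw [if_pos ⟨h6, h7⟩, if_pos h6, if_pos h7, if_pos rfl, mul_comm]
          · rw [if_neg (fun h' => h7 h'.2), if_pos h6, if_neg h7, mul_zero]
        · rw [if_neg (fun h' => h6 h'.1), if_neg h6]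
      · rw [if_neg h]
        refine Finset.sum_nonneg fun κ _ => ?_
        split_ifs
        · exact mul_nonneg (Finset.sum_nonneg fun _ _ => sq_nonneg _) (hg0 _ _)
        · rw [mul_zero]
        · rw [mul_zero]
        · exact le_rfl
    refine (Finset.sum_le_sum e1).trans ?_
    rw [Finset.sum_comm, hR]
    refine Finset.sum_le_sum fun κ hκ => ?_
    by_cases h6 : ∀ u ∈ κ, f u = c ∨ f' u = c
    · simp only [if_pos h6]
      rw [← Finset.mul_sum]
      refine mul_le_mul_of_nonneg_left ?_ (Finset.sum_nonneg fun _ _ => sq_nonneg _)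
      have hbdU : bd G U κ ⊆ U := fun y hy =>
        (Finset.mem_sdiff.1 (Finset.mem_filter.1 hy).1).1
      rw [← Finset.sum_filter]
      have h7 : U.filter (fun x => x ∈ bd G U κ) = bd G U κ := by
        ext y
        rw [Finset.mem_filter]
        exact ⟨fun h => h.2, fun h => ⟨hbdU h, h⟩⟩
      rw [h7]
      unfold PsiG
      refine Finset.sum_le_sum_of_subset_of_nonneg Finset.subset_union_right fun y _ _ => ?_
      split_ifs
      · positivity
      · exact le_rfl
    · simp only [if_neg h6, Finset.sum_const_zero]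
      exact le_rfl
  -- conclusion
  have hsplit : ∀ c, ∑ x ∈ U, (if I x c then ((1 + J) + g x c) *
      ((k x c) ^ 2 + m * ∑ v ∈ S x c, (k v c) ^ 2) else 0) =
      (1 + J) * (∑ x ∈ U, (if I x c then (k x c) ^ 2 else 0)) +
      (1 + J) * m * (∑ x ∈ U, (if I x c then ∑ v ∈ S x c, (k v c) ^ 2 else 0)) +
      (∑ x ∈ U, (if I x c then g x c * (k x c) ^ 2 else 0)) +
      m * (∑ x ∈ U, (if I x c then g x c * ∑ v ∈ S x c, (k v c) ^ 2 else 0)) := by
    intro c
    rw [Finset.mul_sum, Finset.mul_sum, Finset.mul_sum, ← Finset.sum_add_distrib,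
      ← Finset.sum_add_distrib, ← Finset.sum_add_distrib]
    refine Finset.sum_congr rfl fun x _ => ?_
    split_ifs
    · ring
    · ring
  have hfin : ∀ c, ∑ x ∈ U, (if I x c then ((1 + J) + g x c) *
      ((k x c) ^ 2 + m * ∑ v ∈ S x c, (k v c) ^ 2) else 0) ≤
      (1 + J) * (1 + (m : ℝ) ^ 2) * B c + (1 + m) * R c := by
    intro c
    rw [hsplit c]
    have g1 := mul_le_mul_of_nonneg_left (h1 c) (by linarith : (0 : ℝ) ≤ 1 + J)
    have g3 := mul_le_mul_of_nonneg_left (h3 c) (by positivity : (0 : ℝ) ≤ (1 + J) * m)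
    have g4 := mul_le_mul_of_nonneg_left (h4 c) hm0
    have g2 := h2 c
    have g5 : (1 + (J : ℝ)) * (1 + (m : ℝ) ^ 2) * B c + (1 + m) * R c =
        (1 + J) * B c + (1 + J) * m * (m * B c) + R c + m * R c := by ring
    rw [g5]
    linarith
  calc ∑ x ∈ U, (Gm G U k m (so f) (so f') - Gm G U k m (sx x f) (so f')) ^ 2
      ≤ ∑ x ∈ U, ∑ c, (if I x c then ((1 + J) + g x c) *
          ((k x c) ^ 2 + m * ∑ v ∈ S x c, (k v c) ^ 2) else 0) := Finset.sum_le_sum hbound
    _ = ∑ c, ∑ x ∈ U, (if I x c then ((1 + J) + g x c) *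
          ((k x c) ^ 2 + m * ∑ v ∈ S x c, (k v c) ^ 2) else 0) := Finset.sum_comm
    _ ≤ ∑ c, ((1 + J) * (1 + (m : ℝ) ^ 2) * B c + (1 + m) * R c) :=
        Finset.sum_le_sum fun c _ => hfin c
    _ = _ := by
        rw [Finset.sum_add_distrib, ← Finset.mul_sum, ← Finset.mul_sum]
        rfl

end Pool.Agent.Ex26
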