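import Pool.Agent.Lib.MP_26a019_lc.Ex.CSpec

set_option autoImplicit false
set_option linter.unusedVariables false
set_option linter.unusedSectionVars false

open Finset Classical

namespace Pool.Agent.Ex26

open Pool.Agent.Kempe Pool.Agent.KempeMix Pool.Agent.Eps26

namespace CGaugeAux

variable {V C : Type} [Fintype V] [Fintype C]

lemma sk_add (k k' : V → C → ℝ) (c : C) (κ : Finset V) (φ φ' : V → Option C) :
    sk (fun v c => k v c + k' v c) c κ φ φ' = sk k c κ φ φ' + sk k' c κ φ φ' := by
  unfold sk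
  rw [← Finset.sum_add_distrib]
  exact Finset.sum_congr rfl fun _ _ => by ring

lemma sk_smul (r : ℝ) (k : V → C → ℝ) (c : C) (κ : Finset V) (φ φ' : V → Option C) :
    sk (fun v c => r * k v c) c κ φ φ' = r * sk k c κ φ φ' := by
  unfold sk
  rw [Finset.mul_sum]
  exact Finset.sum_congr rfl fun _ _ => by ring

lemma Wm_add (G : SimpleGraph V) (U : Finset V) (k k' : V → C → ℝ) (m : ℕ) (u : V)
    (φ φ' : V → Option C) :
    Wm G U (fun v c => k v c + k' v c) m u φ φ' = Wm G U k m u φ φ' + Wm G U k' m u φ φ' := by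
  unfold Wm
  rw [← Finset.sum_add_distrib]
  refine Finset.sum_congr rfl fun c _ => ?_
  rw [sk_add]
  split_ifs <;> ring

lemma Wm_smul (G : SimpleGraph V) (U : Finset V) (r : ℝ) (k : V → C → ℝ) (m : ℕ) (u : V)
    (φ φ' : V → Option C) :
    Wm G U (fun v c => r * k v c) m u φ φ' = r * Wm G U k m u φ φ' := by
  unfold Wm
  rw [Finset.mul_sum]
  refine Finset.sum_congr rfl fun c _ => ?_
  rw [sk_smul]
  split_ifs <;> ring

/-- the mean of `Wm` -/
noncomputable def WW (G : SimpleGraph V) (U : Finset V) (L : V → Finset C) (p : V → C) (m : ℕ)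
    (k : V → C → ℝ) (u : V) : ℝ :=
  ev2 (Col G U L p) (fun f f' => Wm G U k m u (so f) (so f'))

lemma WW_add (G : SimpleGraph V) (U : Finset V) (L : V → Finset C) (p : V → C) (m : ℕ)
    (k k' : V → C → ℝ) (u : V) :
    WW G U L p m (fun v c => k v c + k' v c) u = WW G U L p m k u + WW G U L p m k' u := by
  unfold WW
  rw [← ev2_add]
  simp only [Wm_add]

lemma WW_smul (G : SimpleGraph V) (U : Finset V) (L : V → Finset C) (p : V → C) (m : ℕ)
    (r : ℝ) (k : V → C → ℝ) (u : V) :
    WW G U L p m (fun v c => r * k v c) u = r * WW G U L p m k u := by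
  unfold WW
  rw [← ev2_mul_left]
  simp only [Wm_smul]

/-- the bilinear form -/
noncomputable def BB2 (G : SimpleGraph V) (U : Finset V) (L : V → Finset C) (p : V → C) (m : ℕ)
    (k k' : V → C → ℝ) : ℝ :=
  ev2 (Col G U L p) (fun f f' =>
    ∑ c, ∑ κ ∈ (comps G (DO U c (so f) (so f'))).filter (fun κ => κ.card ≤ m),
      sk k c κ (so f) (so f') * sk k' c κ (so f) (so f'))

lemma BB2_self (G : SimpleGraph V) (U : Finset V) (L : V → Finset C) (p : V → C) (m : ℕ)
    (k : V → C → ℝ) :
    BB2 G U L p m k k = ev2 (Col G U L p) (fun f f' =>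
      ∑ c, ∑ κ ∈ (comps G (DO U c (so f) (so f'))).filter (fun κ => κ.card ≤ m),
        (sk k c κ (so f) (so f')) ^ 2) := by
  unfold BB2
  simp only [sq]

lemma BB2_pos (G : SimpleGraph V) (U : Finset V) (L : V → Finset C) (p : V → C) (m : ℕ)
    (k k' : V → C → ℝ) :
    0 ≤ BB2 G U L p m k k + 2 * BB2 G U L p m k k' + BB2 G U L p m k' k' := by
  unfold BB2
  rw [← ev2_mul_left, ← ev2_add, ← ev2_add]
  refine ev2_nonneg fun f _ f' _ => ?_
  rw [Finset.mul_sum, ← Finset.sum_add_distrib, ← Finset.sum_add_distrib]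
  refine Finset.sum_nonneg fun c _ => ?_
  rw [Finset.mul_sum, ← Finset.sum_add_distrib, ← Finset.sum_add_distrib]
  refine Finset.sum_nonneg fun κ _ => ?_
  have h : sk k c κ (so f) (so f') * sk k c κ (so f) (so f') +
      2 * (sk k c κ (so f) (so f') * sk k' c κ (so f) (so f')) +
      sk k' c κ (so f) (so f') * sk k' c κ (so f) (so f') =
      (sk k c κ (so f) (so f') + sk k' c κ (so f) (so f')) ^ 2 := by ring
  rw [h]
  positivity

/-- pairing with a function of the vertex -/
lemma pairing (h3 : CCmp → ∀ (V C : Type) [Fintype V] [Fintype C] (G : SimpleGraph V)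
    (U : Finset V) (k : V → C → ℝ) (h : V → ℝ) (m : ℕ) (φ φ' : V → Option C),
    ∑ u ∈ U, h u * Wm G U k m u φ φ' =
      ∑ c, ∑ κ ∈ (comps G (DO U c φ φ')).filter (fun κ => κ.card ≤ m),
        sk k c κ φ φ' * sk (fun v _ => h v) c κ φ φ') (h1 : CCmp)
    (G : SimpleGraph V) (U : Finset V) (L : V → Finset C) (p : V → C) (m : ℕ)
    (k : V → C → ℝ) (h : V → ℝ) :
    ∑ u ∈ U, h u * WW G U L p m k u = BB2 G U L p m k (fun v _ => h v) := by
  unfold WW BB2
  have h4 : ∑ u ∈ U, h u * ev2 (Col G U L p) (fun f f' => Wm G U k m u (so f) (so f')) =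
      ev2 (Col G U L p) (fun f f' => ∑ u ∈ U, h u * Wm G U k m u (so f) (so f')) := by
    rw [ev2_sum]
    exact Finset.sum_congr rfl fun u _ => (ev2_mul_left _ _).symm
  rw [h4]
  refine ev2_congr fun f _ f' _ => ?_
  exact h3 h1 V C G U k h m (so f) (so f')

end CGaugeAux

open CGaugeAux in
theorem cGauge_proof : CGauge := by
  intro h1 h2 h3 h4 h5 V C _ _ G U L p s ε M m k hR hM hm hS
  have hlow : ∀ h : V → ℝ, Real.exp (-(2 / ε)) / 2 * ∑ u ∈ U, (h u) ^ 2 ≤
      BB2 G U L p m (fun v _ => h v) (fun v _ => h v) := by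
    intro h
    rw [BB2_self]
    exact h4 h1 h2 V C G U L p s ε m h hR hm
  have hup : BB2 G U L p m k k ≤ M * nrm (Col G U L p) U k := by
    rw [BB2_self]
    exact h5 h1 V C G U L p M m k hM hS
  -- the linear map
  let T : (V → ℝ) →ₗ[ℝ] (V → ℝ) :=
    { toFun := fun h u => if u ∈ U then WW G U L p m (fun v _ => h v) u else h u
      map_add' := by
        intro h h'
        funext u
        simp only [Pi.add_apply]
        split_ifs
        · exact WW_add G U L p m (fun v _ => h v) (fun v _ => h' v) u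
        · rfl
      map_smul' := by
        intro r h
        funext u
        simp only [Pi.smul_apply, smul_eq_mul, RingHom.id_apply]
        split_ifs
        · exact WW_smul G U L p m r (fun v _ => h v) u
        · rfl }
  have hT : ∀ (h : V → ℝ) (u : V), T h u =
      if u ∈ U then WW G U L p m (fun v _ => h v) u else h u := fun h u => rfl
  have hinj : Function.Injective T := by
    rw [← LinearMap.ker_eq_bot, LinearMap.ker_eq_bot']
    intro h hh
    have h6 : ∀ u ∈ U, WW G U L p m (fun v _ => h v) u = 0 := by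
      intro u hu
      have h7 := congrFun hh u
      rw [hT, if_pos hu] at h7
      exact h7
    have h8 : BB2 G U L p m (fun v _ => h v) (fun v _ => h v) = 0 := by
      rw [← pairing h3 h1 G U L p m (fun v _ => h v) h]
      exact Finset.sum_eq_zero fun u hu => by rw [h6 u hu, mul_zero]
    have h9 := hlow h
    rw [h8] at h9
    have hexp : 0 < Real.exp (-(2 / ε)) / 2 := by positivity
    have h10 : ∑ u ∈ U, (h u) ^ 2 ≤ 0 := by
      by_contra hc
      push Not at hc
      have := mul_pos hexp hc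
      linarith
    funext u
    by_cases hu : u ∈ U
    · have h11 := (Finset.sum_eq_zero_iff_of_nonneg (fun u _ => sq_nonneg (h u))).1
        (le_antisymm h10 (Finset.sum_nonneg fun u _ => sq_nonneg (h u))) u hu
      exact pow_eq_zero_iff (two_ne_zero) |>.1 h11
    · have h7 := congrFun hh u
      rw [hT, if_neg hu] at h7
      exact h7
  have hsurj : Function.Surjective T := LinearMap.injective_iff_surjective.1 hinj
  obtain ⟨h, hh⟩ := hsurj (fun u => if u ∈ U then -WW G U L p m k u else 0)
  have h6 : ∀ u ∈ U, WW G U L p m (fun v _ => h v) u = -WW G U L p m k u := by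
    intro u hu
    have h7 := congrFun hh u
    rw [hT, if_pos hu, if_pos hu] at h7
    exact h7
  refine ⟨h, ?_, ?_⟩
  · intro u hu
    have h7 : WW G U L p m (fun v c => k v c + (fun v (_ : C) => h v) v c) u = 0 := by
      rw [WW_add, h6 u hu]
      ring
    exact h7
  · have h8 : BB2 G U L p m (fun v _ => h v) (fun v _ => h v) =
        -BB2 G U L p m k (fun v _ => h v) := by
      rw [← pairing h3 h1 G U L p m (fun v _ => h v) h, ← pairing h3 h1 G U L p m k h,
        ← Finset.sum_neg_distrib]
      exact Finset.sum_congr rfl fun u hu => by rw [h6 u hu]; ring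
    have h9 := BB2_pos G U L p m k (fun v _ => h v)
    have h10 := hlow h
    have h11 : Real.exp (-(2 / ε)) / 2 * ∑ u ∈ U, (h u) ^ 2 ≤
        M * nrm (Col G U L p) U k := by linarith
    have h12 : Real.exp (2 / ε) * Real.exp (-(2 / ε)) = 1 := by
      rw [← Real.exp_add]; simp
    calc ∑ u ∈ U, (h u) ^ 2
        = 2 * Real.exp (2 / ε) * (Real.exp (-(2 / ε)) / 2 * ∑ u ∈ U, (h u) ^ 2) := by
          linear_combination (-(∑ u ∈ U, (h u) ^ 2)) * h12
      _ ≤ 2 * Real.exp (2 / ε) * (M * nrm (Col G U L p) U k) := by gcongr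
      _ = 2 * M * Real.exp (2 / ε) * nrm (Col G U L p) U k := by ring

end Pool.Agent.Ex26
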