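import Pool.Agent.Lib.MP_26a019_lc.Ex.CSpec

set_option autoImplicit false
set_option linter.unusedSectionVars false
set_option linter.unusedVariables false

/-!
# CLam: the number of available colours is concentrated
-/

open Finset Classical

namespace Pool.Agent.Ex26

open Pool.Agent.Kempe Pool.Agent.KempeMix Pool.Agent.Eps26

namespace CLamAux

variable {V C : Type} [Fintype V] [Fintype C]

theorem avcard_sub (G : SimpleGraph V) (U : Finset V) (L : V → Finset C) (X : Finset V)
    (f g : V → C) (h : ∀ v, v ∉ X → g v = f v) (u : V) :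
    (av G U L f u).card ≤ (av G U L g u).card + X.card := by
  have h1 : av G U L f u ⊆ av G U L g u ∪ X.image g := by
    intro c hc
    rw [Finset.mem_union]
    by_cases hcg : c ∈ av G U L g u
    · exact Or.inl hcg
    · right
      obtain ⟨hcL, hcf⟩ := mem_av.1 hc
      have h2 : ∃ w ∈ nb G U u, g w = c := by
        by_contra hcon
        push Not at hcon
        exact hcg (mem_av.2 ⟨hcL, hcon⟩)
      obtain ⟨w, hw, hgw⟩ := h2
      refine Finset.mem_image.2 ⟨w, ?_, hgw⟩
      by_contra hwX
      exact hcf w hw ((h w hwX).symm.trans hgw)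
  refine (Finset.card_le_card h1).trans ((Finset.card_union_le _ _).trans ?_)
  exact Nat.add_le_add_left Finset.card_image_le _

theorem abs_avcard (G : SimpleGraph V) (U : Finset V) (L : V → Finset C) (X : Finset V)
    (f g : V → C) (h : ∀ v, v ∉ X → g v = f v) (u : V) :
    |((av G U L f u).card : ℝ) - ((av G U L g u).card : ℝ)| ≤ (X.card : ℝ) := by
  have h1 : ((av G U L f u).card : ℝ) ≤ ((av G U L g u).card : ℝ) + (X.card : ℝ) := by
    exact_mod_cast avcard_sub G U L X f g h u
  have h2 : ((av G U L g u).card : ℝ) ≤ ((av G U L f u).card : ℝ) + (X.card : ℝ) := by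
    exact_mod_cast avcard_sub G U L X g f (fun v hv => (h v hv).symm) u
  rw [abs_le]
  constructor <;> linarith

theorem dir_av {G : SimpleGraph V} {U : Finset V} {L : V → Finset C} {s : ℕ}
    (hG : Good G U L s) (p : V → C) {u : V} (hu : u ∈ U) :
    dir G U L p (fun f => ((av G U L f u).card : ℝ)) ≤ (Fintype.card C : ℝ) := by
  unfold dir
  have h0 : ∀ y ∈ U, ev (Col G U L p) (fun f => (((av G U L f u).card : ℝ) -
      hb G U L y (fun f => ((av G U L f u).card : ℝ)) f) ^ 2) ≤
      if y ∈ nb G U u then (1 : ℝ) else 0 := by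
    intro y hy
    by_cases hyn : y ∈ nb G U u
    · rw [if_pos hyn]
      have hind : Ind y (fun f : V → C => ((avX G U L {y} f u).card : ℝ)) := by
        intro f c
        dsimp only
        rw [avX_update_of_mem G U L f u (Finset.mem_singleton_self y) c]
      refine (ev_sub_hb_sq_le hG p hy hind _).trans ?_
      have h1 : ev (Col G U L p) (fun f => (((av G U L f u).card : ℝ) -
          ((avX G U L {y} f u).card : ℝ)) ^ 2) ≤ ev (Col G U L p) (fun _ => (1 : ℝ)) := by
        refine ev_mono _ fun f _ => ?_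
        have h2 : (av G U L f u).card ≤ (avX G U L {y} f u).card := by
          rw [av_eq_erase hyn]
          exact Finset.card_erase_le
        have h3 : (avX G U L {y} f u).card ≤ (av G U L f u).card + 1 := by
          rw [av_eq_erase hyn]
          have := Finset.pred_card_le_card_erase (s := avX G U L {y} f u) (a := f y)
          omega
        have h2' : ((av G U L f u).card : ℝ) ≤ ((avX G U L {y} f u).card : ℝ) := by
          exact_mod_cast h2
        have h3' : ((avX G U L {y} f u).card : ℝ) ≤ ((av G U L f u).card : ℝ) + 1 := by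
          exact_mod_cast h3
        nlinarith [h2', h3']
      rw [ev_const (Col_nonempty hG p)] at h1
      exact h1
    · rw [if_neg hyn]
      have hind : Ind y (fun f : V → C => ((av G U L f u).card : ℝ)) := by
        intro f c
        dsimp only
        rw [av_update_of_notMem G U L f u hyn c]
      have h1 : ev (Col G U L p) (fun f => (((av G U L f u).card : ℝ) -
          hb G U L y (fun f => ((av G U L f u).card : ℝ)) f) ^ 2) =
          ev (Col G U L p) (fun _ => (0 : ℝ)) := by
        refine ev_congr _ fun f _ => ?_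
        rw [hb_ind hG hy hind f]
        ring
      rw [h1, ev_const (Col_nonempty hG p)]
  refine (Finset.sum_le_sum h0).trans ?_
  rw [← Finset.sum_filter, Finset.sum_const, nsmul_eq_mul, mul_one]
  have h1 : (U.filter (fun y => y ∈ nb G U u)).card ≤ (nb G U u).card :=
    Finset.card_le_card fun y hy => (Finset.mem_filter.1 hy).2
  have h2 := card_nb_le_card hG hu
  exact_mod_cast (by omega : (U.filter (fun y => y ∈ nb G U u)).card ≤ Fintype.card C)

theorem ev2_av {G : SimpleGraph V} {U : Finset V} {L : V → Finset C} {s : ℕ}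
    (hG : Good G U L s) (p : V → C) {P : ℝ} (hP : 0 ≤ P) (hPo : Poin G U L p P) {u : V}
    (hu : u ∈ U) :
    ev2 (Col G U L p) (fun f f' => |((av G U L f u).card : ℝ) - ((av G U L f' u).card : ℝ)| ^ 2) ≤
      2 * P * (Fintype.card C : ℝ) := by
  have h1 : ev2 (Col G U L p)
      (fun f f' => |((av G U L f u).card : ℝ) - ((av G U L f' u).card : ℝ)| ^ 2) =
      ev2 (Col G U L p)
      (fun f f' => (((av G U L f u).card : ℝ) - ((av G U L f' u).card : ℝ)) ^ 2) :=
    ev2_congr fun f _ f' _ => sq_abs _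
  rw [h1, ev2_sq_sub (Col_nonempty hG p) (fun f => ((av G U L f u).card : ℝ))]
  have h2 := hPo (fun f => ((av G U L f u).card : ℝ))
  have h3 := mul_le_mul_of_nonneg_left (dir_av hG p hu) hP
  linarith

end CLamAux

open CLamAux in
theorem cLam_proof : CLam := by
  intro ε m hε
  refine ⟨2 * (m : ℝ) ^ 2 + 2 * (2 * m * (m + 2)) ^ 2, by positivity, ?_⟩
  intro V C _ _ G U L p s P κ hR hP hκU hκm
  obtain ⟨_, _, hG⟩ := hR
  obtain ⟨q, hq⟩ : ∃ q : ℝ, q = (Fintype.card C : ℝ) := ⟨_, rfl⟩
  have hq0 : 0 ≤ q := by rw [hq]; positivity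
  have hκm' : (κ.card : ℝ) ≤ m := by exact_mod_cast hκm
  have hm0 : (0 : ℝ) ≤ m := Nat.cast_nonneg m
  rcases eq_or_lt_of_le hq0 with hq1 | hq1
  · have hL : ∀ f f' : V → C, Lam G U L κ f f' = 0 := by
      intro f f'
      unfold Lam
      rw [← hq, ← hq1, div_zero]
    refine ⟨fun _ => ?_, fun X f f' g g' _ _ _ => ?_⟩
    · have h1 : ev2 (Col G U L p) (fun f f' => (Lam G U L κ f f') ^ 2) =
          ev2 (Col G U L p) (fun _ _ => (0 : ℝ)) := by
        refine ev2_congr fun f _ f' _ => ?_
        rw [hL]; ring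
      rw [h1, ev2_const (Col_nonempty hG p), ← hq, ← hq1, div_zero]
    · rw [hL, hL, ← hq, ← hq1]
      simp
  · refine ⟨fun hPo => ?_, fun X f f' g g' hX hg hg' => ?_⟩
    · have h1 : ev2 (Col G U L p) (fun f f' => (Lam G U L κ f f') ^ 2) ≤
          ev2 (Col G U L p) (fun f f' => ((κ.card : ℝ) / q ^ 2) * ∑ u ∈ κ,
            |((av G U L f u).card : ℝ) - ((av G U L f' u).card : ℝ)| ^ 2) := by
        refine ev2_mono fun f _ f' _ => ?_
        unfold Lam
        rw [div_pow, ← hq, div_mul_eq_mul_div]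
        refine div_le_div_of_nonneg_right ?_ (by positivity)
        exact sq_sum_le_card_mul_sum_sq
      rw [ev2_mul_left, ev2_sum] at h1
      have h2 : ∑ u ∈ κ, ev2 (Col G U L p) (fun f f' =>
          |((av G U L f u).card : ℝ) - ((av G U L f' u).card : ℝ)| ^ 2) ≤
          (κ.card : ℝ) * (2 * P * q) := by
        rw [← nsmul_eq_mul]
        refine Finset.sum_le_card_nsmul _ _ _ fun u hu => ?_
        rw [hq]
        exact ev2_av hG p hP hPo (hκU hu)
      have h3 : (κ.card : ℝ) / q ^ 2 * ((κ.card : ℝ) * (2 * P * q)) =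
          2 * (κ.card : ℝ) ^ 2 * P / q := by
        field_simp
      have h4 : (κ.card : ℝ) / q ^ 2 * ∑ u ∈ κ, ev2 (Col G U L p) (fun f f' =>
          |((av G U L f u).card : ℝ) - ((av G U L f' u).card : ℝ)| ^ 2) ≤
          (κ.card : ℝ) / q ^ 2 * ((κ.card : ℝ) * (2 * P * q)) :=
        mul_le_mul_of_nonneg_left h2 (by positivity)
      rw [h3] at h4
      refine (h1.trans h4).trans ?_
      rw [← hq]
      refine div_le_div_of_nonneg_right ?_ hq0
      refine mul_le_mul_of_nonneg_right ?_ hP
      have h5 : (κ.card : ℝ) ^ 2 ≤ (m : ℝ) ^ 2 := pow_le_pow_left₀ (Nat.cast_nonneg _) hκm' 2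
      nlinarith [sq_nonneg (2 * (m : ℝ) * (m + 2))]
    · have hXc : (X.card : ℝ) ≤ m + 2 := by exact_mod_cast hX
      have h1 : |Lam G U L κ f f' - Lam G U L κ g g'| ≤ 2 * m * (m + 2) / q := by
        unfold Lam
        rw [← hq, ← sub_div, abs_div, abs_of_pos hq1, ← Finset.sum_sub_distrib]
        refine div_le_div_of_nonneg_right ?_ hq0
        refine (Finset.abs_sum_le_sum_abs _ _).trans ?_
        have h2 : ∀ u ∈ κ, |(|((av G U L f u).card : ℝ) - ((av G U L f' u).card : ℝ)| -
            |((av G U L g u).card : ℝ) - ((av G U L g' u).card : ℝ)|)| ≤ 2 * ((m : ℝ) + 2) := by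
          intro u _
          refine (abs_abs_sub_abs_le_abs_sub _ _).trans ?_
          have h3 := abs_avcard G U L X f g hg u
          have h4 := abs_avcard G U L X f' g' hg' u
          rw [abs_le] at h3 h4 ⊢
          constructor <;> linarith [h3.1, h3.2, h4.1, h4.2]
        refine (Finset.sum_le_card_nsmul _ _ _ h2).trans ?_
        rw [nsmul_eq_mul]
        have h3 : (κ.card : ℝ) * (2 * ((m : ℝ) + 2)) ≤ m * (2 * ((m : ℝ) + 2)) :=
          mul_le_mul_of_nonneg_right hκm' (by positivity)
        linarith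
      obtain ⟨a, ha⟩ : ∃ a, a = Lam G U L κ f f' := ⟨_, rfl⟩
      obtain ⟨b, hb⟩ : ∃ b, b = Lam G U L κ g g' := ⟨_, rfl⟩
      rw [← ha, ← hb] at h1 ⊢
      have h2 : (a - b) ^ 2 ≤ (2 * m * (m + 2) / q) ^ 2 := by
        rw [← sq_abs (a - b)]
        exact pow_le_pow_left₀ (abs_nonneg _) h1 2
      have h3 : a ^ 2 ≤ 2 * b ^ 2 + 2 * (a - b) ^ 2 := by nlinarith [sq_nonneg (a - 2 * b)]
      have h4 : 2 * (2 * (m : ℝ) * (m + 2) / q) ^ 2 ≤
          (2 * (m : ℝ) ^ 2 + 2 * (2 * m * (m + 2)) ^ 2) / q ^ 2 := by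
        rw [div_pow, ← mul_div_assoc]
        refine div_le_div_of_nonneg_right ?_ (by positivity)
        nlinarith [sq_nonneg (m : ℝ)]
      rw [← hq]
      linarith

end Pool.Agent.Ex26
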