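import Pool.Agent.Lib.MP_26a019_lc.Ex.CSpec

set_option autoImplicit false
set_option linter.unusedVariables false
set_option linter.unusedSectionVars false

/-!
# Part C: heat bath averages of the linear part (`CLinQ`)
-/

open Finset Classical

namespace Pool.Agent.Ex26

open Pool.Agent.Kempe Pool.Agent.KempeMix Pool.Agent.Eps26

namespace CLinQAux

variable {V C : Type} [Fintype V] [Fintype C]

theorem al_update (G : SimpleGraph V) (U : Finset V) (L : V → Finset C) (x u : V)
    (f : V → C) (c : C) : al G U L x u (Function.update f x c) =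
      if c ∈ avX G U L {x} f u then 1 / ((avX G U L {x} f u).card : ℝ) else 0 := by
  unfold al
  rw [avX_update_of_mem G U L f u (Finset.mem_singleton_self x) c, Function.update_self]

theorem hb_al (G : SimpleGraph V) (U : Finset V) (L : V → Finset C) (x u u' : V)
    (f : V → C) : hb G U L x (fun f => al G U L x u f * al G U L x u' f) f =
      Qx G U L x u u' f := by
  unfold hb Qx
  simp only [al_update]
  have h1 : ∀ c ∈ av G U L f x,
      ((if c ∈ avX G U L {x} f u then 1 / ((avX G U L {x} f u).card : ℝ) else 0) *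
        (if c ∈ avX G U L {x} f u' then 1 / ((avX G U L {x} f u').card : ℝ) else 0)) =
      if c ∈ avX G U L {x} f u ∩ avX G U L {x} f u' then
        (1 / ((avX G U L {x} f u).card : ℝ)) * (1 / ((avX G U L {x} f u').card : ℝ)) else 0 := by
    intro c _
    by_cases ha : c ∈ avX G U L {x} f u <;> by_cases hb : c ∈ avX G U L {x} f u' <;>
      simp [ha, hb]
  rw [Finset.sum_congr rfl h1, ← Finset.sum_filter, Finset.sum_const, nsmul_eq_mul]
  have h2 : (av G U L f x).filter (fun c => c ∈ avX G U L {x} f u ∩ avX G U L {x} f u') =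
      avX G U L {x} f u ∩ avX G U L {x} f u' ∩ av G U L f x := by
    ext c
    simp only [Finset.mem_filter, Finset.mem_inter]
    tauto
  rw [h2, one_div, one_div, ← mul_inv, ← div_eq_mul_inv, div_div]

theorem sx_update (x : V) (f : V → C) (c : C) : sx x (Function.update f x c) = sx x f := by
  funext v
  unfold sx
  by_cases h : v = x
  · simp [h]
  · simp [h, Function.update_of_ne h]

theorem sq_sum (t : Finset V) (a b : V → ℝ) : (∑ u ∈ t, a u * b u) ^ 2 =
    ∑ u ∈ t, ∑ u' ∈ t, (a u * a u') * (b u * b u') := by
  rw [sq, Finset.sum_mul_sum]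
  exact Finset.sum_congr rfl fun u _ => Finset.sum_congr rfl fun u' _ => by ring

theorem ev_al {G : SimpleGraph V} {U : Finset V} {L : V → Finset C} {s : ℕ}
    (hG : Good G U L s) (p : V → C) {x : V} (hx : x ∈ U) (u u' : V) :
    ev (Col G U L p) (fun f => al G U L x u f * al G U L x u' f) =
      ev (Col G U L p) (Qx G U L x u u') := by
  rw [← ev_hb hG p hx (fun f => al G U L x u f * al G U L x u' f)]
  exact ev_congr _ fun f _ => hb_al G U L x u u' f

end CLinQAux

open CLinQAux

theorem cLinQ_proof : CLinQ := by
  intro V C _ _ G U L p s k m x hG hx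
  constructor
  · rw [← ev2_swap (fun f f' => (Lin G U L k m x f f') ^ 2),
      ← ev2_swap (fun f f' => ∑ u ∈ nb G U x, ∑ u' ∈ nb G U x,
        Wm G U k m u (sx x f) (so f') * Wm G U k m u' (sx x f) (so f') * Qx G U L x u u' f)]
    unfold ev2
    refine ev_congr _ fun f' _ => ?_
    have h1 : ev (Col G U L p) (fun f => (Lin G U L k m x f f') ^ 2) =
        ev (Col G U L p) (fun f => ∑ u ∈ nb G U x, ∑ u' ∈ nb G U x,
          (al G U L x u f * al G U L x u' f) *
            (Wm G U k m u (sx x f) (so f') * Wm G U k m u' (sx x f) (so f'))) :=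
      ev_congr _ fun f _ => by unfold Lin; rw [sq_sum]
    rw [h1]
    simp only [ev_sum]
    refine Finset.sum_congr rfl fun u _ => Finset.sum_congr rfl fun u' _ => ?_
    have hi : Ind x (fun f => Wm G U k m u (sx x f) (so f') *
        Wm G U k m u' (sx x f) (so f')) := by
      intro f c
      simp only [sx_update]
    rw [ev_ind_mul hG p hx hi]
    refine ev_congr _ fun f _ => ?_
    rw [hb_al]
    ring
  · intro g
    have h1 : ∀ h ∈ Col G U L p, ev2 (Col G U L p) (fun f f' =>
        (∑ u ∈ nb G U x, al G U L x u h * g u f f') ^ 2) =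
        ∑ u ∈ nb G U x, ∑ u' ∈ nb G U x, (al G U L x u h * al G U L x u' h) *
          ev2 (Col G U L p) (fun f f' => g u f f' * g u' f f') := by
      intro h _
      simp only [sq_sum, ev2_sum, ev2_mul_left]
    rw [ev_congr _ h1]
    simp only [ev_sum, ev_mul_right, ev2_sum, ev2_mul_right]
    refine Finset.sum_congr rfl fun u _ => Finset.sum_congr rfl fun u' _ => ?_
    rw [ev_al hG p hx, mul_comm]

end Pool.Agent.Ex26
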