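import Pool.Agent.Lib.MP_26a019_lc.Ex.CSpec

set_option autoImplicit false

open Finset Classical

namespace Pool.Agent.Ex26

open Pool.Agent.Kempe Pool.Agent.KempeMix Pool.Agent.Eps26

namespace CLinVarAux

theorem sx_update {V C : Type} (x : V) (f : V → C) (c : C) :
    sx x (Function.update f x c) = sx x f := by
  funext v
  unfold sx
  split_ifs with h
  · rfl
  · rw [Function.update_of_ne h]

end CLinVarAux

open CLinVarAux in
theorem cLinVar_proof : CLinVar := by
  intro h1 h2 h3 h4 h5 h6 h7 h8 h9 h10 h11 ε m hε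
  obtain ⟨K1, hK1, h7⟩ := h7 h2 h6 ε m hε
  obtain ⟨K2, hK2, h11⟩ := h11 h8 h9 h10 ε m hε
  have hKc : 0 ≤ Kc ε m := by unfold Kc; positivity
  refine ⟨4 * (K2 * (Kc ε m * K1)), by positivity, ?_⟩
  intro V C _ _ G U L p s P k a hreg hP hPoin hm hoff ha hW
  obtain ⟨hε', hs, hG⟩ := hreg
  have hreg : Reg ε G U L s := ⟨hε', hs, hG⟩
  set A := Col G U L p with hA
  set S : ℝ := ev2 A (fun f f' => ∑ x ∈ U, ∑ y ∈ U, (∑ u ∈ nb G U x, a x u *
    (Wm G U k m u (so f) (so f') - Wm G U k m u (sx y f) (so f'))) ^ 2) with hS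
  have hN := nrm_nonneg A U k
  -- bound for S
  have hS1 : S ≤ K2 * (Kc ε m * (K1 / (Fintype.card C : ℝ)) * nrm A U k) := by
    have e1 : S ≤ ev2 A (fun f f' => K2 * CR G U k m (PsiW G U) f f') :=
      ev2_mono fun f hf f' hf' => h11 V C G U L p s k a f f' hreg hm hf hf' ha
    refine e1.trans ?_
    rw [ev2_mul_left]
    refine mul_le_mul_of_nonneg_left ?_ hK2
    refine h5 h3 h4 V C G U L p s ε k m (PsiW G U) (K1 / (Fintype.card C : ℝ)) hreg hoff
      (by positivity) (fun c κ f f' => ?_)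
      (fun c κ hκ σ hσ => h7 V C G U L p s c κ σ hreg hκ hσ)
    unfold PsiW YZ
    refine mul_nonneg (by positivity) (add_nonneg zero_le_one (Finset.sum_nonneg fun y _ => ?_))
    split_ifs <;> positivity
  have hS0 : 0 ≤ S := ev2_nonneg fun f _ f' _ => Finset.sum_nonneg fun x _ =>
    Finset.sum_nonneg fun y _ => sq_nonneg _
  -- the diagonal part
  have e1 : ∀ x ∈ U, ev2 A
      (fun f f' => (∑ u ∈ nb G U x, a x u * Wm G U k m u (sx x f) (so f')) ^ 2) ≤
      2 * ev2 A (fun f f' => (∑ u ∈ nb G U x, a x u * Wm G U k m u (so f) (so f')) ^ 2) +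
      2 * ev2 A (fun f f' => ∑ y ∈ U, (∑ u ∈ nb G U x, a x u *
        (Wm G U k m u (so f) (so f') - Wm G U k m u (sx y f) (so f'))) ^ 2) := by
    intro x hx
    rw [← ev2_mul_left, ← ev2_mul_left, ← ev2_add]
    refine ev2_mono fun f _ f' _ => ?_
    have e2 : (∑ u ∈ nb G U x, a x u *
        (Wm G U k m u (so f) (so f') - Wm G U k m u (sx x f) (so f'))) ^ 2 ≤
        ∑ y ∈ U, (∑ u ∈ nb G U x, a x u *
        (Wm G U k m u (so f) (so f') - Wm G U k m u (sx y f) (so f'))) ^ 2 :=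
      Finset.single_le_sum (f := fun y => (∑ u ∈ nb G U x, a x u *
        (Wm G U k m u (so f) (so f') - Wm G U k m u (sx y f) (so f'))) ^ 2)
        (fun y _ => sq_nonneg _) hx
    have e3 : ∑ u ∈ nb G U x, a x u * (Wm G U k m u (so f) (so f') -
        Wm G U k m u (sx x f) (so f')) =
        (∑ u ∈ nb G U x, a x u * Wm G U k m u (so f) (so f')) -
        ∑ u ∈ nb G U x, a x u * Wm G U k m u (sx x f) (so f') := by
      rw [← Finset.sum_sub_distrib]
      exact Finset.sum_congr rfl fun u _ => by ring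
    rw [e3] at e2
    nlinarith [sq_nonneg ((∑ u ∈ nb G U x, a x u * Wm G U k m u (sx x f) (so f')) -
      2 * (∑ u ∈ nb G U x, a x u * Wm G U k m u (so f) (so f')))]
  -- Poincare for the sums
  have e2 : ∀ x ∈ U, ev2 A
      (fun f f' => (∑ u ∈ nb G U x, a x u * Wm G U k m u (so f) (so f')) ^ 2) ≤
      2 * P * ev2 A (fun f f' => ∑ y ∈ U, (∑ u ∈ nb G U x, a x u *
        (Wm G U k m u (so f) (so f') - Wm G U k m u (sx y f) (so f'))) ^ 2) := by
    intro x hx
    have hmean : ev2 A (fun f f' => ∑ u ∈ nb G U x, a x u * Wm G U k m u (so f) (so f')) = 0 := by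
      rw [ev2_sum]
      refine Finset.sum_eq_zero fun u hu => ?_
      rw [ev2_mul_left, hW u (nb_subset G U x hu), mul_zero]
    have e3 := h1 V C G U L p s P 1
      (fun f f' => ∑ u ∈ nb G U x, a x u * Wm G U k m u (so f) (so f'))
      (fun y f f' => ∑ u ∈ nb G U x, a x u * Wm G U k m u (sx y f) (so f')) hG hP hPoin
      (Or.inl rfl) (fun f f' => by
        rw [one_mul]
        exact Finset.sum_congr rfl fun u _ => by rw [Wm_comm]) hmean
      (fun y _ f' f c => by simp only [sx_update])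
    refine e3.trans (mul_le_mul_of_nonneg_left (le_of_eq ?_) (by positivity))
    rw [← ev2_sum]
    refine ev2_congr fun f _ f' _ => Finset.sum_congr rfl fun y _ => ?_
    congr 1
    rw [← Finset.sum_sub_distrib]
    exact Finset.sum_congr rfl fun u _ => by ring
  have hSx : S = ∑ x ∈ U, ev2 A (fun f f' => ∑ y ∈ U, (∑ u ∈ nb G U x, a x u *
        (Wm G U k m u (so f) (so f') - Wm G U k m u (sx y f) (so f'))) ^ 2) := by
    rw [hS, ev2_sum]
  have e3 : ∑ x ∈ U, ev2 A
      (fun f f' => (∑ u ∈ nb G U x, a x u * Wm G U k m u (sx x f) (so f')) ^ 2) ≤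
      (4 * P + 2) * S := by
    rw [hSx, Finset.mul_sum]
    refine Finset.sum_le_sum fun x hx => ?_
    have := e1 x hx
    have := e2 x hx
    linarith
  refine e3.trans ?_
  have e4 : (4 * P + 2) * S ≤ (4 * P + 4) * S := by nlinarith
  refine e4.trans ?_
  refine (mul_le_mul_of_nonneg_left hS1 (by positivity : 0 ≤ 4 * P + 4)).trans (le_of_eq ?_)
  ring

end Pool.Agent.Ex26
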