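import Pool.Agent.Lib.MP_26a019_lc.Ex.CSpec

set_option autoImplicit false
set_option linter.unusedVariables false

/-!
# Module CLow: lower bound for the quadratic form of the small clusters
-/

open Finset Classical

namespace Pool.Agent.Ex26

open Pool.Agent.Kempe Pool.Agent.KempeMix Pool.Agent.Eps26

namespace CLowAux

variable {V C : Type} [Fintype V] [Fintype C]

/-- a vertex without neighbours in `D` is a component -/
theorem cmp_singleton (G : SimpleGraph V) (D : Finset V) (u : V) (hu : u ∈ D)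
    (h : ∀ w ∈ D, ¬ G.Adj u w) : cmp G D u = {u} := by
  ext v
  unfold cmp
  rw [Finset.mem_filter, Finset.mem_singleton]
  constructor
  · rintro ⟨_, _, hr⟩
    obtain ⟨p⟩ := hr
    cases p with
    | nil => rfl
    | cons hadj _ => exact absurd hadj.1 (h _ hadj.2.2)
  · rintro rfl
    exact ⟨hu, hu, SimpleGraph.Reachable.refl _⟩

/-- the indicator of the event at `u` -/
noncomputable def wi (G : SimpleGraph V) (U : Finset V) (L : V → Finset C) (u : V) (c : C)
    (f' : V → C) : ℝ := if f' u ≠ c ∧ c ∈ av G U L f' u then 1 else 0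

theorem pointwise {G : SimpleGraph V} {U : Finset V} {L : V → Finset C} {p : V → C} {m : ℕ}
    (h : V → ℝ) (hm : 1 ≤ m) {f f' : V → C} (hf : f ∈ Col G U L p) :
    ∑ u ∈ U, (h u) ^ 2 * wi G U L u (f u) f' ≤
      ∑ c, ∑ κ ∈ (comps G (DO U c (so f) (so f'))).filter (fun κ => κ.card ≤ m),
        (sk (fun v _ => h v) c κ (so f) (so f')) ^ 2 := by
  have h1 : ∑ u ∈ U, (h u) ^ 2 * wi G U L u (f u) f' =
      ∑ c, ∑ u ∈ U.filter (fun u => f u = c ∧ f' u ≠ c ∧ c ∈ av G U L f' u), (h u) ^ 2 := by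
    simp only [Finset.sum_filter]
    rw [Finset.sum_comm]
    refine Finset.sum_congr rfl fun u _ => ?_
    rw [Finset.sum_eq_single (f u)]
    · unfold wi
      by_cases hc : f' u ≠ f u ∧ f u ∈ av G U L f' u
      · rw [if_pos hc, if_pos ⟨rfl, hc⟩, mul_one]
      · rw [if_neg hc, if_neg fun h => hc h.2, mul_zero]
    · intro c _ hc
      rw [if_neg fun h => hc h.1.symm]
    · intro h
      exact absurd (Finset.mem_univ _) h
  rw [h1]
  refine Finset.sum_le_sum fun c _ => ?_
  have hinj : ∀ u ∈ U.filter (fun u => f u = c ∧ f' u ≠ c ∧ c ∈ av G U L f' u),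
      ∀ v ∈ U.filter (fun u => f u = c ∧ f' u ≠ c ∧ c ∈ av G U L f' u),
      ({u} : Finset V) = {v} → u = v := fun u _ v _ h => Finset.singleton_injective h
  have hsum : ∑ u ∈ U.filter (fun u => f u = c ∧ f' u ≠ c ∧ c ∈ av G U L f' u), (h u) ^ 2 =
      ∑ κ ∈ (U.filter (fun u => f u = c ∧ f' u ≠ c ∧ c ∈ av G U L f' u)).image
        (fun u => ({u} : Finset V)), (sk (fun v _ => h v) c κ (so f) (so f')) ^ 2 := by
    rw [Finset.sum_image hinj]
    refine Finset.sum_congr rfl fun u hu => ?_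
    obtain ⟨_, h2, h3, _⟩ := Finset.mem_filter.1 hu
    unfold sk
    rw [Finset.sum_singleton, sg_so, if_pos h2, if_neg h3]
    ring
  rw [hsum]
  refine Finset.sum_le_sum_of_subset_of_nonneg ?_ fun _ _ _ => sq_nonneg _
  intro κ hκ
  obtain ⟨u, hu, rfl⟩ := Finset.mem_image.1 hκ
  obtain ⟨hU, h2, h3, h4⟩ := Finset.mem_filter.1 hu
  rw [Finset.mem_filter]
  refine ⟨?_, by rw [Finset.card_singleton]; exact hm⟩
  have hD : u ∈ DO U c (so f) (so f') := by
    rw [DO_so, mem_DD]
    refine ⟨hU, fun h => h3 (h.1 h2)⟩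
  unfold comps
  rw [Finset.mem_image]
  refine ⟨u, hD, cmp_singleton G _ u hD ?_⟩
  intro w hw hadj
  rw [DO_so, mem_DD] at hw
  refine hw.2 ⟨fun hfw => ?_, fun hfw => ?_⟩
  · exact absurd (h2.trans hfw.symm) ((mem_Col.1 hf).2.2 u hU w hw.1 hadj)
  · exact absurd hfw ((mem_av.1 h4).2 w (mem_nb.2 ⟨hw.1, hadj⟩))

theorem wi_low {G : SimpleGraph V} {U : Finset V} {L : V → Finset C} {p : V → C} {s : ℕ} {e : ℝ}
    {u : V} {c : C} (hG : Good G U L s) (hu : u ∈ U)
    (he : e ≤ ev (Col G U L p) (fun f => if c ∈ av G U L f u then (1 : ℝ) else 0)) :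
    e / 2 ≤ ev (Col G U L p) (wi G U L u c) := by
  have hi : Ind u (fun f : V → C => if c ∈ av G U L f u then (1 : ℝ) else 0) := by
    intro f a
    simp only [av_update_self]
  have h1 : ev (Col G U L p) (wi G U L u c) =
      ev (Col G U L p) (fun f => if c ∈ av G U L f u then (1 : ℝ) else 0) -
      ev (Col G U L p) (fun f => (if f u = c then (1 : ℝ) else 0) *
        (if c ∈ av G U L f u then (1 : ℝ) else 0)) := by
    rw [← ev_sub]
    refine ev_congr _ fun f _ => ?_
    unfold wi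
    by_cases h1 : f u = c <;> by_cases h2 : c ∈ av G U L f u <;> simp [h1, h2]
  have h2 := ev_color_mul hG p hu c hi
  have h3 : ev (Col G U L p) (fun f => pr G U L u c f *
      (if c ∈ av G U L f u then (1 : ℝ) else 0)) ≤
      1 / 2 * ev (Col G U L p) (fun f => if c ∈ av G U L f u then (1 : ℝ) else 0) := by
    rw [← ev_mul_left]
    refine ev_mono _ fun f _ => ?_
    have h4 := pr_le hG hu c f
    have hs : (2 : ℝ) ≤ s := by exact_mod_cast hG.1
    have h5 : (1 : ℝ) / s ≤ 1 / 2 := one_div_le_one_div_of_le (by norm_num) hs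
    split_ifs
    · linarith
    · simp
  rw [h1, h2]
  linarith

end CLowAux

open CLowAux in
theorem cLow_proof : CLow := by
  intro _ hMg V C _ _ G U L p s ε m h hR hm
  obtain ⟨hε, hεs, hG⟩ := hR
  have hA := Col_nonempty hG p
  have h1 : ev2 (Col G U L p) (fun f f' => ∑ u ∈ U, (h u) ^ 2 * wi G U L u (f u) f') ≤
      ev2 (Col G U L p) (fun f f' =>
        ∑ c, ∑ κ ∈ (comps G (DO U c (so f) (so f'))).filter (fun κ => κ.card ≤ m),
          (sk (fun v _ => h v) c κ (so f) (so f')) ^ 2) :=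
    ev2_mono fun f hf f' _ => pointwise h hm hf
  refine le_trans ?_ h1
  rw [ev2_sum, Finset.mul_sum]
  refine Finset.sum_le_sum fun u hu => ?_
  rw [ev2_mul_left, mul_comm]
  refine mul_le_mul_of_nonneg_left ?_ (sq_nonneg _)
  have h2 : ev2 (Col G U L p) (fun f f' => wi G U L u (f u) f') =
      ∑ c, mg (Col G U L p) u c * ev (Col G U L p) (wi G U L u c) := by
    unfold ev2
    exact ev_single (Col G U L p) u (fun c => ev (Col G U L p) (wi G U L u c))
  rw [h2]
  have h3 : Real.exp (-(2 / ε)) / 2 =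
      ∑ c, mg (Col G U L p) u c * (Real.exp (-(2 / ε)) / 2) := by
    rw [← Finset.sum_mul, sum_mg hA, one_mul]
  rw [h3]
  refine Finset.sum_le_sum fun c _ => ?_
  by_cases hc : c ∈ L u
  · exact mul_le_mul_of_nonneg_left
      (wi_low hG hu (hMg V C G U L p s ε u c ⟨hε, hεs, hG⟩ hu hc).1) (mg_nonneg _ _ _)
  · have h4 : mg (Col G U L p) u c = 0 := by
      unfold mg
      have h5 : ev (Col G U L p) (fun f => if f u = c then (1 : ℝ) else 0) =
          ev (Col G U L p) (fun _ => (0 : ℝ)) := by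
        refine ev_congr _ fun f hf => ?_
        rw [if_neg]
        rintro rfl
        exact hc ((mem_Col.1 hf).2.1 u hu)
      rw [h5, ev_const hA]
    rw [h4, zero_mul, zero_mul]

end Pool.Agent.Ex26
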