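import Pool.Agent.Lib.MP_26a019_lc.Ex.CSpec

set_option autoImplicit false
set_option linter.unusedVariables false
set_option linter.unusedSectionVars false

/-!
# CMainPt: pointwise bound for the main term
-/

open Finset Classical

namespace Pool.Agent.Ex26

open Pool.Agent.Kempe Pool.Agent.KempeMix Pool.Agent.Eps26

namespace CMainPtAux

variable {V C : Type} [Fintype V] [Fintype C]

/-- the mean over a product set of a function of one coordinate -/
theorem mean_pi (t : V → Finset C) (u : V) (g : C → ℝ) :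
    (∑ y ∈ Fintype.piFinset t, g (y u)) * ((t u).card : ℝ) =
      (∑ a ∈ t u, g a) * ((Fintype.piFinset t).card : ℝ) := by
  have h1 := Finset.prod_univ_sum t (fun i a => if i = u then g a else (1 : ℝ))
  have h2 : ∀ y ∈ Fintype.piFinset t, (∏ i, if i = u then g (y i) else (1 : ℝ)) = g (y u) := by
    intro y _
    rw [Finset.prod_ite_eq' Finset.univ u (fun i => g (y i))]
    simp
  rw [Finset.sum_congr rfl h2] at h1
  rw [← h1, Fintype.card_piFinset]
  rw [← Finset.mul_prod_erase Finset.univ _ (Finset.mem_univ u),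
    ← Finset.mul_prod_erase Finset.univ _ (Finset.mem_univ u)]
  have h3 : ∏ i ∈ Finset.univ.erase u, ∑ a ∈ t i, (if i = u then g a else (1 : ℝ)) =
      ∏ i ∈ Finset.univ.erase u, ((t i).card : ℝ) := by
    refine Finset.prod_congr rfl fun i hi => ?_
    have : i ≠ u := Finset.ne_of_mem_erase hi
    simp [this]
  rw [h3]
  simp only [if_true]
  push_cast
  ring

/-- the elementary inequality -/
theorem elem (κ : Finset V) (σ a T b e : V → ℝ) (hσ : ∀ u ∈ κ, |σ u| ≤ |a u|)
    (hT : ∀ u ∈ κ, |T u| ≤ 2 * |a u| + |b u| + |e u|) :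
    (∑ u ∈ κ, σ u) * ∑ u ∈ κ, T u ≤
      (κ.card : ℝ) * ∑ u ∈ κ, (3 * a u ^ 2 + 1 / 2 * b u ^ 2 + 1 / 2 * e u ^ 2) := by
  have h1 : (∑ u ∈ κ, σ u) * ∑ u ∈ κ, T u ≤
      (∑ u ∈ κ, |a u|) * ∑ u ∈ κ, (2 * |a u| + |b u| + |e u|) := by
    refine (le_abs_self _).trans ?_
    rw [abs_mul]
    refine mul_le_mul ?_ ?_ (abs_nonneg _) (Finset.sum_nonneg fun u _ => abs_nonneg _)
    · exact (Finset.abs_sum_le_sum_abs _ _).trans (Finset.sum_le_sum hσ)
    · exact (Finset.abs_sum_le_sum_abs _ _).trans (Finset.sum_le_sum hT)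
  refine h1.trans ?_
  rw [Finset.sum_mul_sum]
  have h2 : ∀ w ∈ κ, ∀ u ∈ κ, |a w| * (2 * |a u| + |b u| + |e u|) ≤
      2 * a w ^ 2 + (a u ^ 2 + 1 / 2 * b u ^ 2 + 1 / 2 * e u ^ 2) := by
    intro w _ u _
    have e1 := sq_abs (a w)
    have e2 := sq_abs (a u)
    have e3 := sq_abs (b u)
    have e4 := sq_abs (e u)
    nlinarith [sq_nonneg (|a w| - |a u|), sq_nonneg (|a w| - |b u|), sq_nonneg (|a w| - |e u|)]
  refine (Finset.sum_le_sum fun w hw => Finset.sum_le_sum fun u hu => h2 w hw u hu).trans ?_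
  have h3 : ∀ w ∈ κ, ∑ u ∈ κ, (2 * a w ^ 2 + (a u ^ 2 + 1 / 2 * b u ^ 2 + 1 / 2 * e u ^ 2)) =
      (κ.card : ℝ) * (2 * a w ^ 2) + ∑ u ∈ κ, (a u ^ 2 + 1 / 2 * b u ^ 2 + 1 / 2 * e u ^ 2) := by
    intro w _
    rw [Finset.sum_add_distrib, Finset.sum_const, nsmul_eq_mul]
  rw [Finset.sum_congr rfl h3, Finset.sum_add_distrib, ← Finset.mul_sum, Finset.sum_const,
    nsmul_eq_mul, ← mul_add, ← Finset.sum_add_distrib]
  refine le_of_eq ?_
  congr 1
  refine Finset.sum_congr rfl fun u _ => ?_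
  ring

/-- difference of the additive functions -/
theorem FF_diff (U κ : Finset V) (hκ : κ ⊆ U) (k : V → C → ℝ) (f g : V → C)
    (h : ∀ u, u ∉ κ → g u = f u) :
    FF U k f - FF U k g = ∑ u ∈ κ, (k u (f u) - k u (g u)) := by
  unfold FF
  rw [← Finset.sum_sub_distrib]
  symm
  refine Finset.sum_subset hκ fun u _ hu => ?_
  rw [h u hu, sub_self]

/-- bound for one exchange -/
theorem one (U κ : Finset V) (hκ : κ ⊆ U) (c : C) (k : V → C → ℝ) (f f' y : V → C)
    (hD : ∀ u ∈ κ, ¬ (f u = c ↔ f' u = c)) (hy : ∀ u, u ∉ κ → y u = f u) :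
    sk k c κ (so f) (so f') * ((FF U k f - FF U k f') -
      (FF U k (t1 κ c f y) - FF U k (t2 κ c f f' y))) ≤
      (κ.card : ℝ) * ∑ u ∈ κ, (3 * (k u c) ^ 2 + 1 / 2 * (k u (oo c f f' u)) ^ 2 +
        1 / 2 * (k u (y u)) ^ 2) := by
  have e1 := FF_diff U κ hκ k f (t1 κ c f y) (fun u hu => by
    unfold t1
    rw [if_neg (fun h => hu h.1), hy u hu])
  have e2 := FF_diff U κ hκ k f' (t2 κ c f f' y) (fun u hu => by
    unfold t2
    rw [if_neg hu])
  have e3 : (FF U k f - FF U k f') - (FF U k (t1 κ c f y) - FF U k (t2 κ c f f' y)) =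
      ∑ u ∈ κ, ((k u (f u) - k u (t1 κ c f y u)) - (k u (f' u) - k u (t2 κ c f f' y u))) := by
    rw [Finset.sum_sub_distrib, ← e1, ← e2]
    ring
  rw [e3]
  unfold sk
  refine elem κ _ (fun u => k u c) _ (fun u => k u (oo c f f' u)) (fun u => k u (y u)) ?_ ?_
  · intro u _
    rw [abs_mul]
    have := abs_sg_le c (so f) (so f') u
    have h0 := abs_nonneg (k u c)
    nlinarith
  · intro u hu
    have hd := hD u hu
    by_cases hc : f u = c
    · have hc' : f' u ≠ c := fun h => hd ⟨fun _ => h, fun _ => hc⟩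
      have a1 : t1 κ c f y u = y u := by
        unfold t1
        rw [if_neg (fun h => h.2 hc)]
      have a2 : t2 κ c f f' y u = c := by
        unfold t2
        rw [if_pos hu, if_pos hc]
      have a3 : oo c f f' u = f' u := by
        unfold oo
        rw [if_pos hc]
      rw [a1, a2, a3, hc]
      have : (k u c - k u (y u)) - (k u (f' u) - k u c) = 2 * k u c - k u (f' u) - k u (y u) := by
        ring
      rw [this]
      refine (abs_sub _ _).trans ?_
      have h4 := abs_sub (2 * k u c) (k u (f' u))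
      rw [abs_mul, abs_two] at h4
      linarith
    · have hc' : f' u = c := by
        by_contra h
        exact hd ⟨fun h' => absurd h' hc, fun h' => absurd h' h⟩
      have a1 : t1 κ c f y u = c := by
        unfold t1
        rw [if_pos ⟨hu, hc⟩]
      have a2 : t2 κ c f f' y u = y u := by
        unfold t2
        rw [if_pos hu, if_neg hc]
      have a3 : oo c f f' u = f u := by
        unfold oo
        rw [if_neg hc]
      rw [a1, a2, a3, hc']
      have : (k u (f u) - k u c) - (k u c - k u (y u)) = - (2 * k u c) + k u (f u) + k u (y u) := by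
        ring
      rw [this]
      refine (abs_add_le _ _).trans ?_
      have h4 := abs_add_le (- (2 * k u c)) (k u (f u))
      rw [abs_neg, abs_mul, abs_two] at h4
      linarith

theorem BB_sub (G : SimpleGraph V) (U : Finset V) (L : V → Finset C) (κ : Finset V) (c : C)
    (f f' : V → C) (u : V) : BB G U L κ c f f' u ⊆ L u := by
  unfold BB
  split_ifs
  · exact (Finset.erase_subset _ _).trans (Finset.filter_subset _ _)
  · exact (Finset.erase_subset _ _).trans (Finset.filter_subset _ _)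

theorem BB_card {G : SimpleGraph V} {U : Finset V} {L : V → Finset C} {s : ℕ}
    (hG : Good G U L s) (κ : Finset V) (c : C) (f f' : V → C) {u : V} (hu : u ∈ U) :
    s ≤ (BB G U L κ c f f' u).card + 1 := by
  unfold BB
  split_ifs
  · have h1 := card_avX hG hu κ f
    have h2 := Finset.pred_card_le_card_erase (s := avX G U L κ f u) (a := c)
    omega
  · have h1 := card_avX hG hu κ f'
    have h2 := Finset.pred_card_le_card_erase (s := avX G U L κ f' u) (a := c)
    omega

end CMainPtAux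

open CMainPtAux in
theorem cMainPt_proof : CMainPt := by
  intro hC V C _ _ G U L p s c κ k f f' hG hf hf' hκ
  obtain ⟨v, hv, hvκ⟩ := Finset.mem_image.1 hκ
  have hκD : κ ⊆ DD U c f f' := by
    rw [← hvκ]
    exact (hC V G (DD U c f f')).2.1 v
  have hκU : κ ⊆ U := fun u hu => (mem_DD.1 (hκD hu)).1
  have hD : ∀ u ∈ κ, ¬ (f u = c ↔ f' u = c) := fun u hu => (mem_DD.1 (hκD hu)).2
  have hs2 : 2 ≤ s := hG.1
  set t : V → Finset C := fun u => if u ∈ κ then BB G U L κ c f f' u else {f u} with ht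
  have hYY : YY G U L κ c f f' = Fintype.piFinset t := rfl
  have hne : ∀ u, (t u).Nonempty := by
    intro u
    by_cases hu : u ∈ κ
    · rw [ht]
      simp only [hu, if_true]
      have := BB_card hG κ c f f' (hκU hu)
      exact Finset.card_pos.1 (by omega)
    · rw [ht]
      simp [hu]
  have hN : 0 < ((YY G U L κ c f f').card : ℝ) := by
    have : (Fintype.piFinset t).Nonempty := Fintype.piFinset_nonempty.2 hne
    rw [hYY]
    exact_mod_cast Finset.card_pos.2 this
  set N : ℝ := ((YY G U L κ c f f').card : ℝ) with hNdef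
  set S : ℝ := sk k c κ (so f) (so f') with hS
  set Δ : ℝ := FF U k f - FF U k f' with hΔ
  -- the left side is a mean
  have e1 : S * (Δ - avT G U L κ c f f' (fun g g' => FF U k g - FF U k g')) =
      (∑ y ∈ YY G U L κ c f f', S * (Δ -
        (FF U k (t1 κ c f y) - FF U k (t2 κ c f f' y)))) / N := by
    have h1 : ∑ y ∈ YY G U L κ c f f', S * (Δ -
        (FF U k (t1 κ c f y) - FF U k (t2 κ c f f' y))) = S * (N * Δ -
        ∑ y ∈ YY G U L κ c f f', (FF U k (t1 κ c f y) - FF U k (t2 κ c f f' y))) := by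
      rw [← Finset.mul_sum, Finset.sum_sub_distrib (fun _ => Δ), Finset.sum_const, nsmul_eq_mul]
    rw [h1]
    unfold avT
    rw [← hNdef]
    field_simp
  have e2 : ∀ y ∈ YY G U L κ c f f', S * (Δ -
        (FF U k (t1 κ c f y) - FF U k (t2 κ c f f' y))) ≤
      (κ.card : ℝ) * ∑ u ∈ κ, (3 * (k u c) ^ 2 + 1 / 2 * (k u (oo c f f' u)) ^ 2 +
        1 / 2 * (k u (y u)) ^ 2) := by
    intro y hy
    refine one U κ hκU c k f f' y hD ?_
    intro u hu
    rw [hYY, Fintype.mem_piFinset] at hy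
    have := hy u
    rw [ht] at this
    simpa [hu] using this
  have e3 : ∀ u ∈ κ, (∑ y ∈ YY G U L κ c f f', (k u (y u)) ^ 2) ≤
      N * (2 / (s : ℝ) * ∑ a ∈ L u, (k u a) ^ 2) := by
    intro u hu
    have h1 := mean_pi t u (fun a => (k u a) ^ 2)
    rw [← hYY, ← hNdef] at h1
    have h2 : t u = BB G U L κ c f f' u := by
      rw [ht]
      simp [hu]
    rw [h2] at h1
    have h3 := BB_card hG κ c f f' (hκU hu)
    have h4 : ∑ a ∈ BB G U L κ c f f' u, (k u a) ^ 2 ≤ ∑ a ∈ L u, (k u a) ^ 2 :=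
      Finset.sum_le_sum_of_subset_of_nonneg (BB_sub G U L κ c f f' u) fun _ _ _ => sq_nonneg _
    have h5 : (0 : ℝ) ≤ ∑ a ∈ BB G U L κ c f f' u, (k u a) ^ 2 :=
      Finset.sum_nonneg fun _ _ => sq_nonneg _
    have h6 : (s : ℝ) ≤ 2 * ((BB G U L κ c f f' u).card : ℝ) := by
      have : s ≤ 2 * (BB G U L κ c f f' u).card := by omega
      exact_mod_cast this
    have hs0 : (0 : ℝ) < s := by
      have : 0 < s := by omega
      exact_mod_cast this
    set b : ℝ := ((BB G U L κ c f f' u).card : ℝ) with hb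
    have hb0 : 0 < b := by linarith
    have h7 : (∑ y ∈ YY G U L κ c f f', (k u (y u)) ^ 2) =
        (∑ a ∈ BB G U L κ c f f' u, (k u a) ^ 2) * N / b := by
      rw [eq_div_iff hb0.ne']
      exact h1
    rw [h7, div_le_iff₀ hb0]
    have h8 : (∑ a ∈ BB G U L κ c f f' u, (k u a) ^ 2) * N ≤ (∑ a ∈ L u, (k u a) ^ 2) * N :=
      mul_le_mul_of_nonneg_right h4 hN.le
    have h9 : N * (2 / (s : ℝ) * ∑ a ∈ L u, (k u a) ^ 2) * b =
        (∑ a ∈ L u, (k u a) ^ 2) * N * (2 * b / s) := by ring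
    rw [h9]
    have h10 : 1 ≤ 2 * b / s := by
      rw [one_le_div hs0]
      exact h6
    have h11 : 0 ≤ (∑ a ∈ L u, (k u a) ^ 2) * N := mul_nonneg (h5.trans h4) hN.le
    nlinarith
  rw [e1, div_le_iff₀ hN]
  refine (Finset.sum_le_sum e2).trans ?_
  rw [← Finset.mul_sum, Finset.sum_comm]
  unfold mb
  rw [mul_assoc]
  refine mul_le_mul_of_nonneg_left ?_ (Nat.cast_nonneg _)
  rw [Finset.sum_mul]
  refine Finset.sum_le_sum fun u hu => ?_
  rw [Finset.sum_add_distrib, Finset.sum_const, nsmul_eq_mul, ← Finset.mul_sum, ← hNdef]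
  have h := e3 u hu
  have h2 : 1 / 2 * (N * (2 / (s : ℝ) * ∑ a ∈ L u, (k u a) ^ 2)) =
      1 / (s : ℝ) * (∑ a ∈ L u, (k u a) ^ 2) * N := by ring
  nlinarith

end Pool.Agent.Ex26
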