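import Pool.Agent.Lib.MP_26a019_lc.Ex.CSpec

set_option autoImplicit false

/-!
# Part C: the mean of the main term (`CMainSum`)
-/

open Finset Classical

namespace Pool.Agent.Ex26

open Pool.Agent.Kempe Pool.Agent.KempeMix Pool.Agent.Eps26

namespace CMainSumAux

variable {V C : Type} [Fintype V] [Fintype C]

/-- the size of the cluster, if it is small -/
noncomputable def X (G : SimpleGraph V) (U : Finset V) (m : ℕ) (c : C) (u : V)
    (f f' : V → C) : ℝ :=
  if (cl G U c u f f').card ≤ m then ((cl G U c u f f').card : ℝ) else 0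

/-- the same with `u` added to the discrepancy set -/
noncomputable def Y (G : SimpleGraph V) (U : Finset V) (m : ℕ) (c : C) (u : V)
    (f f' : V → C) : ℝ :=
  if (cmp G (insert u (DD U c f f')) u).card ≤ m then
    ((cmp G (insert u (DD U c f f')) u).card : ℝ) else 0

/-- indicator of `f u = c` -/
noncomputable def I (u : V) (c : C) (f : V → C) : ℝ := if f u = c then (1 : ℝ) else 0

variable {G : SimpleGraph V} {U : Finset V} {L : V → Finset C} {p : V → C} {s m : ℕ}

theorem X_nonneg (c : C) (u : V) (f f' : V → C) : 0 ≤ X G U m c u f f' := by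
  unfold X; split_ifs <;> positivity

theorem Y_nonneg (c : C) (u : V) (f f' : V → C) : 0 ≤ Y G U m c u f f' := by
  unfold Y; split_ifs <;> positivity

theorem I_nonneg (u : V) (c : C) (f : V → C) : 0 ≤ I u c f := by
  unfold I; split_ifs <;> norm_num

theorem I_le_one (u : V) (c : C) (f : V → C) : I u c f ≤ 1 := by
  unfold I; split_ifs <;> norm_num

theorem X_zero {c : C} {u : V} {f f' : V → C} (h : u ∉ DD U c f f') : X G U m c u f f' = 0 := by
  have h1 : cl G U c u f f' = ∅ := by
    unfold cl cmp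
    ext w
    simp [h]
  unfold X
  rw [h1]
  simp

theorem X_eq {c : C} {u : V} {f f' : V → C} (h : u ∈ DD U c f f') :
    X G U m c u f f' = Y G U m c u f f' := by
  unfold X Y cl
  rw [Finset.insert_eq_of_mem h]

theorem DD_comm (c : C) (f f' : V → C) : DD U c f f' = DD U c f' f := by
  ext u
  rw [mem_DD, mem_DD]
  tauto

theorem Y_comm (c : C) (u : V) (f f' : V → C) : Y G U m c u f f' = Y G U m c u f' f := by
  unfold Y
  rw [DD_comm c f f']

theorem insert_DD_right (c a : C) (u : V) (f f' : V → C) :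
    insert u (DD U c f (Function.update f' u a)) = insert u (DD U c f f') := by
  ext w
  rw [Finset.mem_insert, Finset.mem_insert, mem_DD, mem_DD]
  by_cases h : w = u
  · simp [h]
  · rw [Function.update_of_ne h]

theorem ind_Y_right (c : C) (u : V) (f : V → C) : Ind u (fun f' => Y G U m c u f f') := by
  intro f' a
  change Y G U m c u f (Function.update f' u a) = Y G U m c u f f'
  unfold Y
  rw [insert_DD_right]

theorem MT_eq (hC : CCmp) (k : V → C → ℝ) (f f' : V → C) :
    MT G U L s k m f f' = ∑ c, ∑ u ∈ U, X G U m c u f f' *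
      (3 * (k u c) ^ 2 + 1 / 2 * (k u (oo c f f' u)) ^ 2 +
        1 / (s : ℝ) * ∑ a ∈ L u, (k u a) ^ 2) := by
  unfold MT mb
  refine Finset.sum_congr rfl fun c _ => ?_
  obtain ⟨-, -, -, -, h5, -⟩ := hC V G (DD U c f f')
  have h6 := h5 (fun u κ => if κ.card ≤ m then (κ.card : ℝ) *
    (3 * (k u c) ^ 2 + 1 / 2 * (k u (oo c f f' u)) ^ 2 +
        1 / (s : ℝ) * ∑ a ∈ L u, (k u a) ^ 2) else 0)
  rw [Finset.sum_filter]
  have h7 : ∀ κ ∈ comps G (DD U c f f'), (if κ.card ≤ m then (κ.card : ℝ) *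
      ∑ u ∈ κ, (3 * (k u c) ^ 2 + 1 / 2 * (k u (oo c f f' u)) ^ 2 +
        1 / (s : ℝ) * ∑ a ∈ L u, (k u a) ^ 2) else 0) =
      ∑ u ∈ κ, (if κ.card ≤ m then (κ.card : ℝ) *
        (3 * (k u c) ^ 2 + 1 / 2 * (k u (oo c f f' u)) ^ 2 +
          1 / (s : ℝ) * ∑ a ∈ L u, (k u a) ^ 2) else 0) := by
    intro κ _
    split_ifs with h
    · rw [Finset.mul_sum]
    · rw [Finset.sum_const_zero]
  rw [Finset.sum_congr rfl h7, h6]
  have h8 : DD U c f f' ⊆ U := Finset.filter_subset _ _
  rw [← Finset.sum_subset h8 (f := fun u => X G U m c u f f' *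
      (3 * (k u c) ^ 2 + 1 / 2 * (k u (oo c f f' u)) ^ 2 +
        1 / (s : ℝ) * ∑ a ∈ L u, (k u a) ^ 2))
    (fun u _ hu => by rw [X_zero hu, zero_mul])]
  refine Finset.sum_congr rfl fun u _ => ?_
  unfold X cl
  split_ifs with h
  · rfl
  · rw [zero_mul]

/-- the colour of `u` is spread -/
theorem ev_k_le (hG : Good G U L s) {u : V} (hu : u ∈ U) (k : V → C → ℝ) {Θ : (V → C) → ℝ}
    (hΘ : Ind u Θ) (h0 : ∀ f, 0 ≤ Θ f) :
    ev (Col G U L p) (fun f' => Θ f' * (k u (f' u)) ^ 2) ≤
      1 / (s : ℝ) * (∑ a ∈ L u, (k u a) ^ 2) * ev (Col G U L p) Θ := by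
  have h1 : ev (Col G U L p) (fun f' => Θ f' * (k u (f' u)) ^ 2) =
      ∑ a ∈ L u, ev (Col G U L p) (fun f' => (if f' u = a then (1 : ℝ) else 0) * Θ f') *
        (k u a) ^ 2 := by
    simp only [← ev_mul_right]
    rw [← ev_sum]
    refine ev_congr _ fun f' hf' => ?_
    have h2 : f' u ∈ L u := (mem_Col.1 hf').2.1 u hu
    rw [Finset.sum_eq_single (f' u)]
    · rw [if_pos rfl]; ring
    · intro b _ hb
      rw [if_neg (Ne.symm hb)]; ring
    · intro h; exact absurd h2 h
  rw [h1, Finset.mul_sum, Finset.sum_mul]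
  refine Finset.sum_le_sum fun a _ => ?_
  rw [ev_color_mul hG p hu a hΘ]
  have h3 : ev (Col G U L p) (fun f => pr G U L u a f * Θ f) ≤
      1 / (s : ℝ) * ev (Col G U L p) Θ := by
    rw [← ev_mul_left]
    exact ev_mono _ fun f _ => mul_le_mul_of_nonneg_right (pr_le hG hu a f) (h0 f)
  have h4 := mul_le_mul_of_nonneg_right h3 (sq_nonneg (k u a))
  linarith

/-- the colour of `u` is different from `c` with probability at least one half -/
theorem ev_le_two (hG : Good G U L s) {u : V} (hu : u ∈ U) (c : C) {Θ : (V → C) → ℝ}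
    (hΘ : Ind u Θ) (h0 : ∀ f, 0 ≤ Θ f) :
    ev (Col G U L p) Θ ≤ 2 * ev (Col G U L p) (fun f' => (1 - I u c f') * Θ f') := by
  have h1 : ev (Col G U L p) (fun f' => (1 - I u c f') * Θ f') =
      ev (Col G U L p) Θ - ev (Col G U L p) (fun f' => pr G U L u c f' * Θ f') := by
    rw [← ev_color_mul hG p hu c hΘ, ← ev_sub]
    exact ev_congr _ fun f' _ => by unfold I; ring
  have hs2 : (2 : ℝ) ≤ s := by exact_mod_cast hG.1
  have h3 : ev (Col G U L p) (fun f => pr G U L u c f * Θ f) ≤
      1 / 2 * ev (Col G U L p) Θ := by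
    rw [← ev_mul_left]
    refine ev_mono _ fun f _ => mul_le_mul_of_nonneg_right ((pr_le hG hu c f).trans ?_) (h0 f)
    exact one_div_le_one_div_of_le (by norm_num) hs2
  rw [h1]
  linarith

/-- the second part of the main term, one vertex and one colour -/
theorem second (hG : Good G U L s) {u : V} (hu : u ∈ U) (c : C) (k : V → C → ℝ) :
    ev2 (Col G U L p) (fun f f' => X G U m c u f f' * (k u (oo c f f' u)) ^ 2) ≤
      4 * (1 / (s : ℝ)) * (∑ a ∈ L u, (k u a) ^ 2) * ev2 (Col G U L p) (X G U m c u) := by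
  have hN : 0 ≤ ∑ a ∈ L u, (k u a) ^ 2 := Finset.sum_nonneg fun a _ => sq_nonneg _
  have hs : (0 : ℝ) ≤ 1 / (s : ℝ) := by positivity
  -- step a
  have ha : ev2 (Col G U L p) (fun f f' => X G U m c u f f' * (k u (oo c f f' u)) ^ 2) ≤
      2 * ev2 (Col G U L p) (fun f f' => I u c f * (Y G U m c u f f' * (k u (f' u)) ^ 2)) := by
    have h1 : ev2 (Col G U L p) (fun f f' => X G U m c u f f' * (k u (oo c f f' u)) ^ 2) ≤
        ev2 (Col G U L p) (fun f f' => I u c f * (Y G U m c u f f' * (k u (f' u)) ^ 2) +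
          I u c f' * (Y G U m c u f' f * (k u (f u)) ^ 2)) := by
      refine ev2_mono fun f _ f' _ => ?_
      have n1 : 0 ≤ I u c f * (Y G U m c u f f' * (k u (f' u)) ^ 2) :=
        mul_nonneg (I_nonneg _ _ _) (mul_nonneg (Y_nonneg _ _ _ _) (sq_nonneg _))
      have n2 : 0 ≤ I u c f' * (Y G U m c u f' f * (k u (f u)) ^ 2) :=
        mul_nonneg (I_nonneg _ _ _) (mul_nonneg (Y_nonneg _ _ _ _) (sq_nonneg _))
      by_cases hD : u ∈ DD U c f f'
      · rw [X_eq hD]
        have hD' := (mem_DD.1 hD).2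
        by_cases hf : f u = c
        · have e1 : I u c f = 1 := by unfold I; rw [if_pos hf]
          have e2 : oo c f f' u = f' u := by unfold oo; rw [if_pos hf]
          rw [e1, e2]
          linarith
        · have hf' : f' u = c := by
            by_contra h
            exact hD' (iff_of_false hf h)
          have e1 : I u c f' = 1 := by unfold I; rw [if_pos hf']
          have e2 : oo c f f' u = f u := by unfold oo; rw [if_neg hf]
          rw [e1, e2, Y_comm c u f f']
          rw [Y_comm c u f f'] at n1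
          linarith
      · rw [X_zero hD, zero_mul]
        linarith
    refine h1.trans (le_of_eq ?_)
    rw [ev2_add, ev2_swap (fun f f' => I u c f * (Y G U m c u f f' * (k u (f' u)) ^ 2))]
    ring
  -- step b
  have hb : ev2 (Col G U L p) (fun f f' => I u c f * (Y G U m c u f f' * (k u (f' u)) ^ 2)) ≤
      1 / (s : ℝ) * (∑ a ∈ L u, (k u a) ^ 2) *
        ev2 (Col G U L p) (fun f f' => I u c f * Y G U m c u f f') := by
    rw [← ev2_mul_left]
    unfold ev2
    refine ev_mono _ fun f _ => ?_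
    rw [ev_mul_left, ev_mul_left, ev_mul_left]
    have h2 := ev_k_le (p := p) hG hu k (ind_Y_right (G := G) (U := U) (m := m) c u f)
      (fun f' => Y_nonneg c u f f')
    have h3 := mul_le_mul_of_nonneg_left h2 (I_nonneg u c f)
    linarith
  -- step c
  have hc : ev2 (Col G U L p) (fun f f' => I u c f * Y G U m c u f f') ≤
      2 * ev2 (Col G U L p) (X G U m c u) := by
    have h1 : ev2 (Col G U L p) (fun f f' => I u c f * Y G U m c u f f') ≤
        2 * ev2 (Col G U L p) (fun f f' => I u c f * ((1 - I u c f') * Y G U m c u f f')) := by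
      rw [← ev2_mul_left]
      unfold ev2
      refine ev_mono _ fun f _ => ?_
      rw [ev_mul_left, ev_mul_left, ev_mul_left]
      have h2 := ev_le_two (p := p) hG hu c (ind_Y_right (G := G) (U := U) (m := m) c u f)
        (fun f' => Y_nonneg c u f f')
      have h3 := mul_le_mul_of_nonneg_left h2 (I_nonneg u c f)
      linarith
    refine h1.trans (mul_le_mul_of_nonneg_left ?_ (by norm_num))
    refine ev2_mono fun f _ f' _ => ?_
    by_cases hf : f u = c
    · by_cases hf' : f' u = c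
      · have e2 : I u c f' = 1 := by unfold I; rw [if_pos hf']
        rw [e2, sub_self, zero_mul, mul_zero]
        exact X_nonneg c u f f'
      · have e1 : I u c f = 1 := by unfold I; rw [if_pos hf]
        have e2 : I u c f' = 0 := by unfold I; rw [if_neg hf']
        have hD : u ∈ DD U c f f' := by
          rw [mem_DD]
          exact ⟨hu, fun h => hf' (h.1 hf)⟩
        rw [e1, e2, sub_zero, one_mul, one_mul, X_eq hD]
    · have e1 : I u c f = 0 := by unfold I; rw [if_neg hf]
      rw [e1, zero_mul]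
      exact X_nonneg c u f f'
  have hbc := mul_le_mul_of_nonneg_left hc (mul_nonneg hs hN)
  linarith

end CMainSumAux

open CMainSumAux

theorem cMainSum_proof : CMainSum := by
  intro hC hLow V C _ _ G U L p s ε M m k hReg hM hCl
  obtain ⟨hε, hεs, hG⟩ := hReg
  have hs2 : (2 : ℝ) ≤ s := by exact_mod_cast hG.1
  have hs0 : (0 : ℝ) < s := by linarith
  have hA : (Col G U L p).Nonempty := Col_nonempty hG p
  -- the mean of the main term
  have h1 : ev2 (Col G U L p) (MT G U L s k m) = ∑ c, ∑ u ∈ U,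
      (3 * (k u c) ^ 2 * ev2 (Col G U L p) (X G U m c u) +
        1 / 2 * ev2 (Col G U L p) (fun f f' => X G U m c u f f' * (k u (oo c f f' u)) ^ 2) +
        1 / (s : ℝ) * (∑ a ∈ L u, (k u a) ^ 2) * ev2 (Col G U L p) (X G U m c u)) := by
    have e1 : ev2 (Col G U L p) (MT G U L s k m) = ev2 (Col G U L p) (fun f f' =>
        ∑ c, ∑ u ∈ U, X G U m c u f f' *
          (3 * (k u c) ^ 2 + 1 / 2 * (k u (oo c f f' u)) ^ 2 +
            1 / (s : ℝ) * ∑ a ∈ L u, (k u a) ^ 2)) :=
      ev2_congr fun f _ f' _ => MT_eq hC k f f'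
    rw [e1, ev2_sum]
    refine Finset.sum_congr rfl fun c _ => ?_
    rw [ev2_sum]
    refine Finset.sum_congr rfl fun u _ => ?_
    rw [← ev2_mul_left, ← ev2_mul_left, ← ev2_mul_left, ← ev2_add, ← ev2_add]
    exact ev2_congr fun f _ f' _ => by ring
  rw [h1, Finset.sum_comm]
  -- one vertex
  have h2 : ∀ u ∈ U, ∑ c, (3 * (k u c) ^ 2 * ev2 (Col G U L p) (X G U m c u) +
        1 / 2 * ev2 (Col G U L p) (fun f f' => X G U m c u f f' * (k u (oo c f f' u)) ^ 2) +
        1 / (s : ℝ) * (∑ a ∈ L u, (k u a) ^ 2) * ev2 (Col G U L p) (X G U m c u)) ≤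
      M * (3 + 3 * Real.exp (2 / ε) / ε) * ∑ c, mg (Col G U L p) u c * (k u c) ^ 2 := by
    intro u hu
    have hN : 0 ≤ ∑ a ∈ L u, (k u a) ^ 2 := Finset.sum_nonneg fun a _ => sq_nonneg _
    have h3 : ∀ c ∈ (univ : Finset C), (3 * (k u c) ^ 2 * ev2 (Col G U L p) (X G U m c u) +
        1 / 2 * ev2 (Col G U L p) (fun f f' => X G U m c u f f' * (k u (oo c f f' u)) ^ 2) +
        1 / (s : ℝ) * (∑ a ∈ L u, (k u a) ^ 2) * ev2 (Col G U L p) (X G U m c u)) ≤
        3 * M * (mg (Col G U L p) u c * (k u c) ^ 2) +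
          3 * M * (1 / (s : ℝ)) * (∑ a ∈ L u, (k u a) ^ 2) * mg (Col G U L p) u c := by
      intro c _
      have hX : ev2 (Col G U L p) (X G U m c u) ≤ M * mg (Col G U L p) u c := hCl u hu c
      have hsec := second (p := p) (m := m) hG hu c k
      have c1 := mul_le_mul_of_nonneg_left hX (by positivity : 0 ≤ 3 * (k u c) ^ 2)
      have c2 := mul_le_mul_of_nonneg_left hX
        (mul_nonneg (by positivity : (0 : ℝ) ≤ 1 / (s : ℝ)) hN)
      linarith
    refine (Finset.sum_le_sum h3).trans ?_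
    rw [Finset.sum_add_distrib, ← Finset.mul_sum, ← Finset.mul_sum, sum_mg hA u, mul_one]
    -- the sum over the list
    have hcard : (0 : ℝ) < (Fintype.card C : ℝ) := by
      have h4 := card_nb_le_card hG hu
      have h5 := hG.1
      exact_mod_cast (by omega : 0 < Fintype.card C)
    have hT : 0 ≤ ∑ c, mg (Col G U L p) u c * (k u c) ^ 2 :=
      Finset.sum_nonneg fun c _ => mul_nonneg (mg_nonneg _ _ _) (sq_nonneg _)
    have h6 : ∑ a ∈ L u, (k u a) ^ 2 ≤ (Fintype.card C : ℝ) * Real.exp (2 / ε) *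
        ∑ c, mg (Col G U L p) u c * (k u c) ^ 2 := by
      have h7 : ∑ a ∈ L u, (k u a) ^ 2 ≤ ∑ a ∈ L u, (Fintype.card C : ℝ) * Real.exp (2 / ε) *
          (mg (Col G U L p) u a * (k u a) ^ 2) := by
        refine Finset.sum_le_sum fun a ha => ?_
        have h8 := (hLow V C G U L p s ε u a ⟨hε, hεs, hG⟩ hu ha).2
        rw [div_le_iff₀ hcard, Real.exp_neg, inv_le_iff_one_le_mul₀ (Real.exp_pos _)] at h8
        have h9 := mul_le_mul_of_nonneg_right h8 (sq_nonneg (k u a))
        linarith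
      refine h7.trans ?_
      rw [← Finset.mul_sum]
      refine mul_le_mul_of_nonneg_left ?_ (by positivity)
      exact Finset.sum_le_sum_of_subset_of_nonneg (Finset.subset_univ _)
        fun c _ _ => mul_nonneg (mg_nonneg _ _ _) (sq_nonneg _)
    have h10 : 1 / (s : ℝ) * (Fintype.card C : ℝ) ≤ 1 / ε := by
      rw [one_div_mul_eq_div, div_le_div_iff₀ hs0 hε]
      linarith
    have h11 : 3 * M * (1 / (s : ℝ)) * ∑ a ∈ L u, (k u a) ^ 2 ≤
        3 * M * (1 / (s : ℝ)) * ((Fintype.card C : ℝ) * Real.exp (2 / ε) *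
          ∑ c, mg (Col G U L p) u c * (k u c) ^ 2) :=
      mul_le_mul_of_nonneg_left h6 (by positivity)
    have h12 : (1 / (s : ℝ) * (Fintype.card C : ℝ)) * (3 * M * Real.exp (2 / ε) *
          ∑ c, mg (Col G U L p) u c * (k u c) ^ 2) ≤
        1 / ε * (3 * M * Real.exp (2 / ε) *
          ∑ c, mg (Col G U L p) u c * (k u c) ^ 2) :=
      mul_le_mul_of_nonneg_right h10 (by positivity)
    have e1 : 3 * M * (1 / (s : ℝ)) * ((Fintype.card C : ℝ) * Real.exp (2 / ε) *
          ∑ c, mg (Col G U L p) u c * (k u c) ^ 2) =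
        (1 / (s : ℝ) * (Fintype.card C : ℝ)) * (3 * M * Real.exp (2 / ε) *
          ∑ c, mg (Col G U L p) u c * (k u c) ^ 2) := by ring
    have e2 : M * (3 + 3 * Real.exp (2 / ε) / ε) *
          ∑ c, mg (Col G U L p) u c * (k u c) ^ 2 =
        3 * M * ∑ c, mg (Col G U L p) u c * (k u c) ^ 2 +
          1 / ε * (3 * M * Real.exp (2 / ε) *
            ∑ c, mg (Col G U L p) u c * (k u c) ^ 2) := by ring
    linarith
  refine (Finset.sum_le_sum h2).trans (le_of_eq ?_)
  unfold nrm
  rw [← Finset.mul_sum]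

end Pool.Agent.Ex26
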