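import Pool.Agent.Lib.MP_26a019_lc.Ex.CSpec

set_option autoImplicit false
set_option linter.unusedVariables false

/-!
# Part C: lower bound for marginals
-/

open Finset Classical

namespace Pool.Agent.Ex26

open Pool.Agent.Kempe Pool.Agent.KempeMix Pool.Agent.Eps26

namespace CMgLowAux

theorem ind_avoid {V C : Type} [Fintype V] [Fintype C] (S : Finset V) (c : C) (w : V)
    (hw : w ∉ S) : Ind w (fun f : V → C => if ∀ v ∈ S, f v ≠ c then (1 : ℝ) else 0) := by
  intro f a
  have h : (∀ v ∈ S, Function.update f w a v ≠ c) ↔ (∀ v ∈ S, f v ≠ c) := by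
    have hne : ∀ v ∈ S, v ≠ w := by
      rintro v hv rfl
      exact hw hv
    constructor
    · intro h v hv
      have h1 := h v hv
      rwa [Function.update_of_ne (hne v hv)] at h1
    · intro h v hv
      rw [Function.update_of_ne (hne v hv)]
      exact h v hv
  simp only [h]

theorem avoid_ge {V C : Type} [Fintype V] [Fintype C] (G : SimpleGraph V) (U : Finset V)
    (L : V → Finset C) (p : V → C) (s : ℕ) (c : C) (hG : Good G U L s) (S : Finset V)
    (hS : S ⊆ U) : (1 - 1 / (s : ℝ)) ^ S.card ≤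
      ev (Col G U L p) (fun f => if ∀ v ∈ S, f v ≠ c then (1 : ℝ) else 0) := by
  have hs2 : (2 : ℝ) ≤ s := by exact_mod_cast hG.1
  have hs0 : (0 : ℝ) < s := by linarith
  have hs1 : 1 / (s : ℝ) ≤ 1 := by
    rw [div_le_one hs0]; linarith
  induction S using Finset.induction_on with
  | empty =>
    have h1 : ev (Col G U L p) (fun f => if ∀ v ∈ (∅ : Finset V), f v ≠ c then (1 : ℝ) else 0) =
        1 := by
      refine Eq.trans (ev_congr _ fun f _ => ?_) (ev_const (Col_nonempty hG p) (1 : ℝ))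
      simp
    rw [h1]
    simp
  | insert w S hw ih =>
    have hwU : w ∈ U := hS (Finset.mem_insert_self w S)
    have ih' := ih ((Finset.subset_insert w S).trans hS)
    rw [Finset.card_insert_of_notMem hw, pow_succ]
    set Θ : (V → C) → ℝ := fun f => if ∀ v ∈ S, f v ≠ c then (1 : ℝ) else 0 with hΘ
    have hΘ0 : ∀ f, 0 ≤ Θ f := fun f => by
      rw [hΘ]; dsimp only; split_ifs <;> norm_num
    have h2 : ev (Col G U L p)
        (fun f => if ∀ v ∈ insert w S, f v ≠ c then (1 : ℝ) else 0) =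
        ev (Col G U L p) Θ - ev (Col G U L p) (fun f => pr G U L w c f * Θ f) := by
      rw [← ev_color_mul hG p hwU c (ind_avoid S c w hw), ← ev_sub]
      refine ev_congr _ fun f _ => ?_
      rw [hΘ]
      dsimp only
      by_cases h3 : f w = c
      · have h4 : ¬ ∀ v ∈ insert w S, f v ≠ c := fun h => h w (Finset.mem_insert_self w S) h3
        rw [if_neg h4, if_pos h3]
        ring
      · have h4 : (∀ v ∈ insert w S, f v ≠ c) ↔ ∀ v ∈ S, f v ≠ c := by
          constructor
          · intro h v hv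
            exact h v (Finset.mem_insert_of_mem hv)
          · intro h v hv
            rcases Finset.mem_insert.1 hv with rfl | hv
            · exact h3
            · exact h v hv
        rw [if_neg h3]
        simp only [h4]
        ring
    have h5 : ev (Col G U L p) (fun f => pr G U L w c f * Θ f) ≤
        1 / (s : ℝ) * ev (Col G U L p) Θ := by
      rw [← ev_mul_left]
      exact ev_mono _ fun f _ => mul_le_mul_of_nonneg_right (pr_le hG hwU c f) (hΘ0 f)
    rw [h2]
    have h6 : (1 - 1 / (s : ℝ)) ^ S.card * (1 - 1 / (s : ℝ)) ≤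
        ev (Col G U L p) Θ * (1 - 1 / (s : ℝ)) :=
      mul_le_mul_of_nonneg_right ih' (by linarith)
    linarith

theorem exp_le {t : ℝ} (h0 : 0 ≤ t) (h1 : t ≤ 1 / 2) : Real.exp (-(2 * t)) ≤ 1 - t := by
  rw [Real.exp_neg]
  have h2 : 2 * t + 1 ≤ Real.exp (2 * t) := Real.add_one_le_exp _
  have h3 : (Real.exp (2 * t))⁻¹ ≤ (2 * t + 1)⁻¹ := inv_anti₀ (by linarith) h2
  refine h3.trans ?_
  rw [inv_le_comm₀ (by linarith) (by linarith)]
  rw [inv_le_iff_one_le_mul₀ (by linarith)]
  nlinarith

theorem main {V C : Type} [Fintype V] [Fintype C] (G : SimpleGraph V) (U : Finset V)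
    (L : V → Finset C) (p : V → C) (s : ℕ) (ε : ℝ) (u : V) (c : C) (hR : Reg ε G U L s)
    (hu : u ∈ U) (hc : c ∈ L u) :
    Real.exp (-(2 / ε)) ≤
      ev (Col G U L p) (fun f => if c ∈ av G U L f u then (1 : ℝ) else 0) := by
  obtain ⟨hε, hs, hG⟩ := hR
  have hs2 : (2 : ℝ) ≤ s := by exact_mod_cast hG.1
  have hs0 : (0 : ℝ) < s := by linarith
  have h1 := avoid_ge G U L p s c hG (nb G U u) (nb_subset G U u)
  have h2 : ev (Col G U L p) (fun f => if c ∈ av G U L f u then (1 : ℝ) else 0) =
      ev (Col G U L p) (fun f => if ∀ v ∈ nb G U u, f v ≠ c then (1 : ℝ) else 0) := by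
    refine ev_congr _ fun f _ => ?_
    have h3 : c ∈ av G U L f u ↔ ∀ v ∈ nb G U u, f v ≠ c := by
      rw [mem_av]
      exact ⟨fun h => h.2, fun h => ⟨hc, h⟩⟩
    simp only [h3]
  rw [h2]
  refine le_trans ?_ h1
  have h4 : Real.exp (-(2 * (1 / (s : ℝ)))) ≤ 1 - 1 / (s : ℝ) := by
    refine exp_le (by positivity) ?_
    rw [div_le_div_iff₀ hs0 (by norm_num)]
    linarith
  have h5 : Real.exp (-(2 * (1 / (s : ℝ)))) ^ (nb G U u).card ≤
      (1 - 1 / (s : ℝ)) ^ (nb G U u).card := pow_le_pow_left₀ (Real.exp_pos _).le h4 _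
  refine le_trans ?_ h5
  rw [← Real.exp_nat_mul]
  apply Real.exp_le_exp.2
  have h6 : ((nb G U u).card : ℝ) ≤ (Fintype.card C : ℝ) := by
    have := card_nb_le_card hG hu
    exact_mod_cast (by omega : (nb G U u).card ≤ Fintype.card C)
  have h7 : ((nb G U u).card : ℝ) * (1 / (s : ℝ)) ≤ 1 / ε := by
    rw [mul_one_div, div_le_div_iff₀ hs0 hε]
    nlinarith [mul_le_mul_of_nonneg_right h6 hε.le]
  have h8 : 2 / ε = 2 * (1 / ε) := by ring
  rw [h8]
  nlinarith

end CMgLowAux

theorem cMgLow_proof : CMgLow := by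
  intro V C _ _ G U L p s ε u c hR hu hc
  have h1 := CMgLowAux.main G U L p s ε u c hR hu hc
  refine ⟨h1, ?_⟩
  have hG := hR.2.2
  have hs2 : (2 : ℝ) ≤ s := by exact_mod_cast hG.1
  rw [mg_eq hG p hu]
  have hq : (0 : ℝ) < (Fintype.card C : ℝ) := by
    have := card_nb_le_card hG hu
    have h3 := hG.1
    exact_mod_cast (by omega : 0 < Fintype.card C)
  have h2 : ev (Col G U L p) (fun f => 1 / (Fintype.card C : ℝ) *
      (if c ∈ av G U L f u then (1 : ℝ) else 0)) ≤ ev (Col G U L p) (pr G U L u c) := by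
    refine ev_mono _ fun f _ => ?_
    unfold pr
    split_ifs with h
    · rw [mul_one]
      have h4 := av_pos hG hu f
      refine one_div_le_one_div_of_le h4 ?_
      exact_mod_cast Finset.card_le_univ _
    · simp
  rw [ev_mul_left] at h2
  refine le_trans ?_ h2
  rw [div_eq_mul_one_div, mul_comm]
  exact mul_le_mul_of_nonneg_left h1 (by positivity)

end Pool.Agent.Ex26
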