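import Pool.Agent.Lib.MP_26a019_lc.Ex.CSpec

set_option autoImplicit false
set_option linter.unusedSectionVars false

/-!
# CPiece: components after adding one vertex
-/

open Finset Classical

namespace Pool.Agent.Ex26

open Pool.Agent.Kempe Pool.Agent.KempeMix Pool.Agent.Eps26

namespace CPieceAux

variable {V : Type} [Fintype V]

theorem reach_ind {G' : SimpleGraph V} (S : Set V)
    (hS : ∀ u ∈ S, ∀ w, G'.Adj u w → w ∈ S) {u v : V} (h : G'.Reachable u v) (hu : u ∈ S) :
    v ∈ S := by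
  obtain ⟨p⟩ := h
  induction p with
  | nil => exact hu
  | cons hadj _ ih => exact ih (hS _ hu _ hadj)

theorem mem_cmp {G : SimpleGraph V} {D : Finset V} {u v : V} :
    u ∈ cmp G D v ↔ u ∈ D ∧ v ∈ D ∧ (rst G D).Reachable v u := by
  unfold cmp
  rw [Finset.mem_filter]

theorem self_mem {G : SimpleGraph V} {D : Finset V} {v : V} (h : v ∈ D) : v ∈ cmp G D v :=
  mem_cmp.2 ⟨h, h, SimpleGraph.Reachable.refl v⟩

theorem cmp_eq {G : SimpleGraph V} {D : Finset V} {u v : V} (h : u ∈ cmp G D v) :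
    cmp G D u = cmp G D v := by
  obtain ⟨hu, hv, hr⟩ := mem_cmp.1 h
  ext w
  rw [mem_cmp, mem_cmp]
  constructor
  · rintro ⟨h1, _, h3⟩
    exact ⟨h1, hv, hr.trans h3⟩
  · rintro ⟨h1, _, h3⟩
    exact ⟨h1, hu, hr.symm.trans h3⟩

theorem closed {G : SimpleGraph V} {D : Finset V} {u v w : V} (h : u ∈ cmp G D v) (hw : w ∈ D)
    (hadj : G.Adj u w) : w ∈ cmp G D v := by
  obtain ⟨hu, hv, hr⟩ := mem_cmp.1 h
  refine mem_cmp.2 ⟨hw, hv, hr.trans ?_⟩
  exact SimpleGraph.Adj.reachable (G := rst G D) ⟨hadj, hu, hw⟩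

theorem cmp_sub {G : SimpleGraph V} {D : Finset V} {v : V} (S : Finset V)
    (hS : ∀ u ∈ S, ∀ w ∈ D, G.Adj u w → w ∈ S) (hv : v ∈ S) : cmp G D v ⊆ S := by
  intro w hw
  obtain ⟨_, _, hr⟩ := mem_cmp.1 hw
  have := reach_ind (G' := rst G D) (S : Set V) (fun u hu w hadj => by
    have h := hS u (Finset.mem_coe.1 hu) w hadj.2.2 hadj.1
    exact Finset.mem_coe.2 h) hr (Finset.mem_coe.2 hv)
  exact Finset.mem_coe.1 this

theorem cmp_mono {G : SimpleGraph V} {D D' : Finset V} (h : D ⊆ D') (v : V) :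
    cmp G D v ⊆ cmp G D' v := by
  intro w hw
  obtain ⟨h1, h2, hr⟩ := mem_cmp.1 hw
  refine mem_cmp.2 ⟨h h1, h h2, hr.mono ?_⟩
  intro a b hab
  exact ⟨hab.1, h hab.2.1, h hab.2.2⟩

theorem mem_comps {G : SimpleGraph V} {D : Finset V} {κ : Finset V} :
    κ ∈ comps G D ↔ ∃ v ∈ D, cmp G D v = κ := by
  unfold comps
  rw [Finset.mem_image]

theorem comps_eq {G : SimpleGraph V} {D : Finset V} {κ : Finset V} (h : κ ∈ comps G D) {z : V}
    (hz : z ∈ κ) : cmp G D z = κ := by
  obtain ⟨v, _, rfl⟩ := mem_comps.1 h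
  exact cmp_eq hz

theorem comps_sub {G : SimpleGraph V} {D : Finset V} {κ : Finset V} (h : κ ∈ comps G D) :
    κ ⊆ D := by
  obtain ⟨v, _, rfl⟩ := mem_comps.1 h
  exact fun w hw => (mem_cmp.1 hw).1

/-- a component which is not adjacent to `x` -/
theorem far_eq {G : SimpleGraph V} {D : Finset V} {x v : V} (hv : v ∈ D)
    (h : ¬ ∃ u ∈ cmp G D v, G.Adj x u) : cmp G (insert x D) v = cmp G D v := by
  refine Finset.Subset.antisymm ?_ (cmp_mono (Finset.subset_insert x D) v)
  refine cmp_sub _ ?_ (self_mem hv)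
  intro u hu w hw hadj
  rcases Finset.mem_insert.1 hw with rfl | hw
  · exact absurd ⟨u, hu, hadj.symm⟩ h
  · exact closed hu hw hadj

/-- a component which is adjacent to `x` -/
theorem near_eq {G : SimpleGraph V} {D : Finset V} {x v : V}
    (h : ∃ u ∈ cmp G D v, G.Adj x u) : cmp G (insert x D) v = cmp G (insert x D) x := by
  obtain ⟨u, hu, hadj⟩ := h
  have h1 : u ∈ cmp G (insert x D) v := cmp_mono (Finset.subset_insert x D) v hu
  have h2 : x ∈ cmp G (insert x D) v := closed h1 (Finset.mem_insert_self x D) hadj.symm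
  exact (cmp_eq h2).symm

end CPieceAux

open CPieceAux in
theorem cPiece_proof : CPiece := by
  intro V _ G D x hx
  refine ⟨?_, self_mem (Finset.mem_insert_self x D), ?_, ?_, ?_⟩
  · ext κ
    rw [Finset.mem_insert, Finset.mem_filter, mem_comps]
    constructor
    · rintro ⟨v, hv, rfl⟩
      rcases Finset.mem_insert.1 hv with rfl | hv
      · exact Or.inl rfl
      · by_cases h : ∃ u ∈ cmp G D v, G.Adj x u
        · exact Or.inl (near_eq h)
        · right
          rw [far_eq hv h]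
          exact ⟨mem_comps.2 ⟨v, hv, rfl⟩, h⟩
    · rintro (rfl | ⟨h1, h2⟩)
      · exact ⟨x, Finset.mem_insert_self x D, rfl⟩
      · obtain ⟨v, hv, rfl⟩ := mem_comps.1 h1
        exact ⟨v, Finset.mem_insert_of_mem hv, far_eq hv h2⟩
  · refine Finset.Subset.antisymm ?_ ?_
    · refine cmp_sub _ ?_ (Finset.mem_insert_self x _)
      intro u hu w hw hadj
      rcases Finset.mem_insert.1 hw with hwx | hwD
      · rw [hwx]
        exact Finset.mem_insert_self _ _
      · clear hw
        have hw := hwD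
        refine Finset.mem_insert_of_mem ?_
        rcases Finset.mem_insert.1 hu with hux | hu
        · refine Finset.mem_biUnion.2 ⟨cmp G D w, Finset.mem_filter.2
            ⟨mem_comps.2 ⟨w, hw, rfl⟩, w, self_mem hw, hux ▸ hadj⟩, ?_⟩
          exact self_mem hw
        · obtain ⟨κ, hκ, huκ⟩ := Finset.mem_biUnion.1 hu
          refine Finset.mem_biUnion.2 ⟨κ, hκ, ?_⟩
          have hκ1 := (Finset.mem_filter.1 hκ).1
          have huκ' : u ∈ κ := huκ
          have h1 : cmp G D u = κ := comps_eq hκ1 huκ'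
          have h2 : w ∈ cmp G D u := closed (self_mem (comps_sub hκ1 huκ')) hw hadj
          rw [h1] at h2
          exact h2
    · intro w hw
      rcases Finset.mem_insert.1 hw with rfl | hw
      · exact self_mem (Finset.mem_insert_self _ _)
      · obtain ⟨κ, hκ, hwκ⟩ := Finset.mem_biUnion.1 hw
        obtain ⟨hκ1, hκ2⟩ := Finset.mem_filter.1 hκ
        have hwκ' : w ∈ κ := hwκ
        have h1 : cmp G D w = κ := comps_eq hκ1 hwκ'
        have hwD : w ∈ D := comps_sub hκ1 hwκ'
        rw [← h1] at hκ2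
        have h2 := near_eq hκ2
        rw [← h2]
        exact self_mem (Finset.mem_insert_of_mem hwD)
  · intro κ hκ κ' hκ' hne
    rw [Finset.disjoint_left]
    intro z hz hz'
    exact hne ((comps_eq hκ hz).symm.trans (comps_eq hκ' hz'))
  · refine (Finset.card_le_card (t := (D.filter (fun u => G.Adj x u)).image (cmp G D)) ?_).trans
      Finset.card_image_le
    intro κ hκ
    obtain ⟨hκ1, u, hu, hadj⟩ := Finset.mem_filter.1 hκ
    exact Finset.mem_image.2 ⟨u, Finset.mem_filter.2 ⟨comps_sub hκ1 hu, hadj⟩, comps_eq hκ1 hu⟩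

end Pool.Agent.Ex26
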