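import Pool.Agent.Lib.MP_26a019_lc.Ex.CSpec

set_option autoImplicit false
set_option linter.unusedSectionVars false

/-!
# Part C: the weight for the vertices with many neighbours of one colour
-/

open Finset Classical

namespace Pool.Agent.Ex26

open Pool.Agent.Kempe Pool.Agent.KempeMix Pool.Agent.Eps26

namespace CPsiGAux

variable {V C : Type} [Fintype V] [Fintype C]

theorem pt_nonneg (c : C) (σ σ' : Finset V) (f f' : V → C) : 0 ≤ pt c σ σ' f f' := by
  unfold pt; split_ifs <;> norm_num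

/-- one term of `PsiG` -/
noncomputable def term (G : SimpleGraph V) (U : Finset V) (J : ℕ) (c : C) (x : V)
    (f f' : V → C) : ℝ :=
  if f x = c then (1 / 2 : ℝ) ^ J * 4 ^ (NP G U c x f') else 0

theorem term_nonneg (G : SimpleGraph V) (U : Finset V) (J : ℕ) (c : C) (x : V)
    (f f' : V → C) : 0 ≤ term G U J c x f f' := by
  unfold term; split_ifs
  · positivity
  · exact le_rfl

theorem four_pow (N : Finset V) (f' : V → C) (c : C) :
    (4 : ℝ) ^ (N.filter (fun z => f' z = c)).card =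
      ∑ R ∈ N.powerset, 3 ^ R.card * (if ∀ z ∈ R, f' z = c then (1 : ℝ) else 0) := by
  have h1 := Finset.sum_pow_mul_eq_add_pow (3 : ℝ) 1 (N.filter (fun z => f' z = c))
  have h2 : (N.filter (fun z => f' z = c)).powerset =
      N.powerset.filter (fun R => ∀ z ∈ R, f' z = c) := by
    ext R
    rw [Finset.mem_powerset, Finset.mem_filter, Finset.mem_powerset]
    constructor
    · intro h
      exact ⟨fun z hz => (Finset.mem_filter.1 (h hz)).1, fun z hz => (Finset.mem_filter.1 (h hz)).2⟩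
    · rintro ⟨h3, h4⟩ z hz
      exact Finset.mem_filter.2 ⟨h3 hz, h4 z hz⟩
  rw [show (3 : ℝ) + 1 = 4 by norm_num, h2] at h1
  rw [← h1, Finset.sum_filter]
  refine Finset.sum_congr rfl fun R _ => ?_
  rw [one_pow, mul_one]
  split_ifs <;> simp

theorem NP_le (G : SimpleGraph V) (U κ : Finset V) (c : C) (x : V) (f' : V → C) :
    NP G U c x f' ≤ κ.card + ((nb G U x \ κ).filter (fun z => f' z = c)).card := by
  unfold NP
  refine le_trans (Finset.card_le_card ?_) (Finset.card_union_le _ _)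
  intro z hz
  rw [Finset.mem_filter] at hz
  rw [Finset.mem_union, Finset.mem_filter, Finset.mem_sdiff]
  by_cases h : z ∈ κ
  · exact Or.inl h
  · exact Or.inr ⟨⟨hz.1, h⟩, hz.2⟩

theorem point (G : SimpleGraph V) (U : Finset V) (J m : ℕ) (c : C) (κ σ : Finset V) (x : V)
    (hm : κ.card ≤ m) (f f' : V → C) :
    pt c σ (κ \ σ) f f' * term G U J c x f f' ≤
      (1 / 2 : ℝ) ^ J * 4 ^ m * ∑ R ∈ (nb G U x \ κ).powerset,
        3 ^ R.card * pt c (insert x σ) ((κ \ σ) ∪ R) f f' := by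
  have hR0 : 0 ≤ (1 / 2 : ℝ) ^ J * 4 ^ m * ∑ R ∈ (nb G U x \ κ).powerset,
      3 ^ R.card * pt c (insert x σ) ((κ \ σ) ∪ R) f f' :=
    mul_nonneg (by positivity) (Finset.sum_nonneg fun R _ =>
      mul_nonneg (by positivity) (pt_nonneg _ _ _ _ _))
  by_cases h1 : (∀ u ∈ σ, f u = c) ∧ (∀ u ∈ κ \ σ, f' u = c)
  · by_cases h2 : f x = c
    · have e1 : pt c σ (κ \ σ) f f' = 1 := by unfold pt; rw [if_pos h1]
      have e2 : term G U J c x f f' = (1 / 2 : ℝ) ^ J * 4 ^ (NP G U c x f') := by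
        unfold term; rw [if_pos h2]
      have e3 : ∀ R, pt c (insert x σ) ((κ \ σ) ∪ R) f f' =
          if ∀ z ∈ R, f' z = c then (1 : ℝ) else 0 := by
        intro R
        unfold pt
        refine if_congr ?_ rfl rfl
        constructor
        · rintro ⟨-, h4⟩ z hz
          exact h4 z (Finset.mem_union_right _ hz)
        · intro h3
          refine ⟨fun u hu => ?_, fun u hu => ?_⟩
          · rcases Finset.mem_insert.1 hu with rfl | h4
            · exact h2
            · exact h1.1 u h4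
          · rcases Finset.mem_union.1 hu with h4 | h4
            · exact h1.2 u h4
            · exact h3 u h4
      rw [e1, e2, one_mul]
      have e4 : ∑ R ∈ (nb G U x \ κ).powerset, 3 ^ R.card * pt c (insert x σ) ((κ \ σ) ∪ R) f f' =
          (4 : ℝ) ^ ((nb G U x \ κ).filter (fun z => f' z = c)).card := by
        rw [four_pow]
        exact Finset.sum_congr rfl fun R _ => by rw [e3 R]
      rw [e4, mul_assoc, ← pow_add]
      refine mul_le_mul_of_nonneg_left ?_ (by positivity)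
      refine pow_le_pow_right₀ (by norm_num) ?_
      have := NP_le G U κ c x f'
      omega
    · have e2 : term G U J c x f f' = 0 := by unfold term; rw [if_neg h2]
      rw [e2, mul_zero]
      exact hR0
  · have e1 : pt c σ (κ \ σ) f f' = 0 := by unfold pt; rw [if_neg h1]
    rw [e1, zero_mul]
    exact hR0

theorem sum_pow_le (N : Finset V) {y a : ℝ} (hy : 0 ≤ y) (h : 3 * y * N.card ≤ a) :
    ∑ R ∈ N.powerset, (3 : ℝ) ^ R.card * y ^ R.card ≤ Real.exp a := by
  have h1 := Finset.sum_pow_mul_eq_add_pow (3 * y) 1 N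
  have h2 : ∑ R ∈ N.powerset, (3 : ℝ) ^ R.card * y ^ R.card =
      ∑ t ∈ N.powerset, (3 * y) ^ t.card * 1 ^ (N.card - t.card) :=
    Finset.sum_congr rfl fun R _ => by rw [one_pow, mul_one, mul_pow]
  rw [h2, h1]
  have h3 : 3 * y + 1 ≤ Real.exp (3 * y) := Real.add_one_le_exp _
  calc (3 * y + 1) ^ N.card ≤ Real.exp (3 * y) ^ N.card :=
        pow_le_pow_left₀ (by positivity) h3 _
    _ = Real.exp (3 * y * N.card) := by rw [← Real.exp_nat_mul]; ring_nf
    _ ≤ Real.exp a := Real.exp_le_exp.2 h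

/-- the expectation of one term -/
theorem one_term (hD : CDom) (G : SimpleGraph V) (U : Finset V) (L : V → Finset C) (p : V → C)
    (s : ℕ) (ε : ℝ) (m J : ℕ) (c : C) (κ σ : Finset V) (hR : Reg ε G U L s) (hκU : κ ⊆ U)
    (hm : κ.card ≤ m) (hσ : σ ⊆ κ) {x : V} (hx : x ∈ U) (d : ℕ)
    (hd : κ.card + d ≤ (insert x σ).card + (κ \ σ).card) :
    ev2 (Col G U L p) (fun f f' => pt c σ (κ \ σ) f f' * term G U J c x f f') ≤
      2 * (1 / 2 : ℝ) ^ J * 4 ^ m * Real.exp (3 / ε) * (1 / (s : ℝ)) ^ (κ.card + d) := by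
  obtain ⟨hε, hεs, hG⟩ := hR
  have hs2 : (2 : ℝ) ≤ s := by exact_mod_cast hG.1
  have hs0 : (0 : ℝ) < s := by linarith
  have hinv0 : 0 ≤ 1 / (s : ℝ) := by positivity
  have hinv1 : 1 / (s : ℝ) ≤ 1 := by rw [div_le_one hs0]; linarith
  have hA := Col_nonempty hG p
  refine (ev2_mono fun f _ f' _ => point G U J m c κ σ x hm f f').trans ?_
  rw [ev2_mul_left, ev2_sum]
  have h1 : ∀ R ∈ (nb G U x \ κ).powerset,
      ev2 (Col G U L p) (fun f f' => 3 ^ R.card * pt c (insert x σ) ((κ \ σ) ∪ R) f f') ≤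
        2 * (1 / (s : ℝ)) ^ (κ.card + d) * (3 ^ R.card * (1 / (s : ℝ)) ^ R.card) := by
    intro R hR
    rw [Finset.mem_powerset] at hR
    rw [ev2_mul_left]
    have h2 := hD V C G U L p s c (insert x σ) ((κ \ σ) ∪ R) (fun _ _ => 1) 0 hG
      (Finset.insert_subset hx (hσ.trans hκU))
      (Finset.union_subset (Finset.sdiff_subset.trans hκU) (fun z hz =>
        nb_subset G U x (Finset.mem_sdiff.1 (hR hz)).1)) le_rfl (fun _ _ => zero_le_one)
      (fun _ _ _ _ _ _ => by norm_num)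
    simp only [mul_one] at h2
    rw [ev2_const hA, add_zero] at h2
    have h3 : ((κ \ σ) ∪ R).card = (κ \ σ).card + R.card := by
      apply Finset.card_union_of_disjoint
      rw [Finset.disjoint_left]
      intro z hz hz'
      exact (Finset.mem_sdiff.1 (hR hz')).2 (Finset.mem_sdiff.1 hz).1
    have h4 : (1 / (s : ℝ)) ^ ((insert x σ).card + ((κ \ σ) ∪ R).card) ≤
        (1 / (s : ℝ)) ^ (κ.card + d + R.card) :=
      pow_le_pow_of_le_one hinv0 hinv1 (by omega)
    have h5 : (3 : ℝ) ^ R.card * ev2 (Col G U L p)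
        (fun f f' => pt c (insert x σ) ((κ \ σ) ∪ R) f f') ≤
        3 ^ R.card * ((1 / (s : ℝ)) ^ (κ.card + d + R.card) * (2 * 1)) := by
      refine mul_le_mul_of_nonneg_left (h2.trans ?_) (by positivity)
      have := mul_le_mul_of_nonneg_right h4 (show (0 : ℝ) ≤ 2 * 1 by norm_num)
      linarith
    refine h5.trans (le_of_eq ?_)
    rw [pow_add]
    ring
  refine (mul_le_mul_of_nonneg_left (Finset.sum_le_sum h1) (by positivity)).trans ?_
  rw [← Finset.mul_sum]
  have h6 : ∑ R ∈ (nb G U x \ κ).powerset, (3 : ℝ) ^ R.card * (1 / (s : ℝ)) ^ R.card ≤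
      Real.exp (3 / ε) := by
    refine sum_pow_le _ hinv0 ?_
    have h7 : ((nb G U x \ κ).card : ℝ) ≤ (Fintype.card C : ℝ) := by
      have h8 := card_nb_le_card hG hx
      have h9 := Finset.card_le_card (Finset.sdiff_subset (s := nb G U x) (t := κ))
      exact_mod_cast (show (nb G U x \ κ).card ≤ Fintype.card C by omega)
    have h8 : (Fintype.card C : ℝ) / s ≤ 1 / ε := by
      rw [div_le_div_iff₀ hs0 hε]
      linarith
    calc 3 * (1 / (s : ℝ)) * ((nb G U x \ κ).card : ℝ)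
        ≤ 3 * (1 / (s : ℝ)) * (Fintype.card C : ℝ) :=
          mul_le_mul_of_nonneg_left h7 (by positivity)
      _ = 3 * ((Fintype.card C : ℝ) / s) := by ring
      _ ≤ 3 * (1 / ε) := by linarith
      _ = 3 / ε := by ring
  calc (1 / 2 : ℝ) ^ J * 4 ^ m * (2 * (1 / (s : ℝ)) ^ (κ.card + d) *
        ∑ R ∈ (nb G U x \ κ).powerset, (3 : ℝ) ^ R.card * (1 / (s : ℝ)) ^ R.card)
      = (2 * (1 / 2 : ℝ) ^ J * 4 ^ m * (1 / (s : ℝ)) ^ (κ.card + d)) *
        ∑ R ∈ (nb G U x \ κ).powerset, (3 : ℝ) ^ R.card * (1 / (s : ℝ)) ^ R.card := by ring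
    _ ≤ (2 * (1 / 2 : ℝ) ^ J * 4 ^ m * (1 / (s : ℝ)) ^ (κ.card + d)) * Real.exp (3 / ε) :=
        mul_le_mul_of_nonneg_left h6 (by positivity)
    _ = _ := by ring

theorem card_bd_le (G : SimpleGraph V) (U κ : Finset V) (q : ℕ)
    (h : ∀ v ∈ κ, (nb G U v).card ≤ q) : (bd G U κ).card ≤ κ.card * q := by
  have h1 : bd G U κ ⊆ κ.biUnion (fun u => nb G U u) := by
    intro y hy
    unfold bd at hy
    rw [Finset.mem_filter, Finset.mem_sdiff] at hy
    obtain ⟨⟨hyU, -⟩, u, hu, hadj⟩ := hy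
    exact Finset.mem_biUnion.2 ⟨u, hu, mem_nb.2 ⟨hyU, hadj.symm⟩⟩
  exact (Finset.card_le_card h1).trans (Finset.card_biUnion_le_card_mul _ _ _ h)

end CPsiGAux

open CPsiGAux in
theorem cPsiG_proof : CPsiG := by
  intro hD V C _ _ G U L p s ε m J c κ σ hR hκ hσ
  have hR' := hR
  obtain ⟨hε, hεs, hG⟩ := hR
  unfold CC at hκ
  rw [Finset.mem_filter, Finset.mem_powerset] at hκ
  obtain ⟨hκU, hκne, hκm, -⟩ := hκ
  have hs2 : (2 : ℝ) ≤ s := by exact_mod_cast hG.1
  have hs0 : (0 : ℝ) < s := by linarith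
  have hinv0 : 0 ≤ 1 / (s : ℝ) := by positivity
  have hdisj : Disjoint κ (bd G U κ) := by
    rw [Finset.disjoint_left]
    intro z hz hz'
    unfold bd at hz'
    rw [Finset.mem_filter, Finset.mem_sdiff] at hz'
    exact hz'.1.2 hz
  have hbdU : ∀ x ∈ bd G U κ, x ∈ U ∧ x ∉ κ := by
    intro x hx
    unfold bd at hx
    rw [Finset.mem_filter, Finset.mem_sdiff] at hx
    exact hx.1
  have hcard : σ.card + (κ \ σ).card = κ.card := by
    rw [Finset.card_sdiff_of_subset hσ]
    have := Finset.card_le_card hσ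
    omega
  have e1 : ev2 (Col G U L p) (fun f f' => pt c σ (κ \ σ) f f' * PsiG G U J c κ f f') =
      ∑ x ∈ κ ∪ bd G U κ,
        ev2 (Col G U L p) (fun f f' => pt c σ (κ \ σ) f f' * term G U J c x f f') := by
    rw [← ev2_sum]
    refine ev2_congr fun f _ f' _ => ?_
    rw [← Finset.mul_sum]
    rfl
  rw [e1, Finset.sum_union hdisj]
  obtain ⟨B, hB⟩ : ∃ B : ℝ, B = 2 * (1 / 2 : ℝ) ^ J * 4 ^ m * Real.exp (3 / ε) := ⟨_, rfl⟩
  have hB0 : 0 ≤ B := by rw [hB]; positivity
  obtain ⟨S, hS⟩ : ∃ S : ℝ, S = (1 / (s : ℝ)) ^ κ.card := ⟨_, rfl⟩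
  have hS0 : 0 ≤ S := by rw [hS]; positivity
  have h1 : ∑ x ∈ κ, ev2 (Col G U L p) (fun f f' => pt c σ (κ \ σ) f f' * term G U J c x f f') ≤
      m * (B * S) := by
    have h2 : ∀ x ∈ κ, ev2 (Col G U L p)
        (fun f f' => pt c σ (κ \ σ) f f' * term G U J c x f f') ≤ B * S := by
      intro x hx
      rw [hB, hS]
      have h3 : σ.card ≤ (insert x σ).card := Finset.card_le_card (Finset.subset_insert _ _)
      exact one_term hD G U L p s ε m J c κ σ hR' hκU hκm hσ (hκU hx) 0 (by omega)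
    refine (Finset.sum_le_card_nsmul _ _ _ h2).trans ?_
    rw [nsmul_eq_mul]
    exact mul_le_mul_of_nonneg_right (by exact_mod_cast hκm) (mul_nonneg hB0 hS0)
  have h4 : ∑ x ∈ bd G U κ, ev2 (Col G U L p)
      (fun f f' => pt c σ (κ \ σ) f f' * term G U J c x f f') ≤ m / ε * (B * S) := by
    have h2 : ∀ x ∈ bd G U κ, ev2 (Col G U L p)
        (fun f f' => pt c σ (κ \ σ) f f' * term G U J c x f f') ≤ B * S * (1 / (s : ℝ)) := by
      intro x hx
      obtain ⟨hxU, hxκ⟩ := hbdU x hx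
      have h3 : (insert x σ).card = σ.card + 1 :=
        Finset.card_insert_of_notMem fun h => hxκ (hσ h)
      have h5 := one_term hD G U L p s ε m J c κ σ hR' hκU hκm hσ hxU 1 (by omega)
      rw [← hB, pow_succ, ← hS] at h5
      linarith
    refine (Finset.sum_le_card_nsmul _ _ _ h2).trans ?_
    rw [nsmul_eq_mul]
    have h5 : ((bd G U κ).card : ℝ) ≤ m * (Fintype.card C : ℝ) := by
      have h6 := card_bd_le G U κ (Fintype.card C) (fun v hv => by
        have := card_nb_le_card hG (hκU hv)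
        omega)
      have h7 : κ.card * Fintype.card C ≤ m * Fintype.card C := Nat.mul_le_mul_right _ hκm
      exact_mod_cast h6.trans h7
    have h8 : (Fintype.card C : ℝ) / s ≤ 1 / ε := by
      rw [div_le_div_iff₀ hs0 hε]
      linarith
    calc ((bd G U κ).card : ℝ) * (B * S * (1 / (s : ℝ)))
        ≤ m * (Fintype.card C : ℝ) * (B * S * (1 / (s : ℝ))) :=
          mul_le_mul_of_nonneg_right h5 (mul_nonneg (mul_nonneg hB0 hS0) hinv0)
      _ = m * ((Fintype.card C : ℝ) / s) * (B * S) := by ring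
      _ ≤ m * (1 / ε) * (B * S) :=
          mul_le_mul_of_nonneg_right (mul_le_mul_of_nonneg_left h8 (Nat.cast_nonneg _))
            (mul_nonneg hB0 hS0)
      _ = m / ε * (B * S) := by ring
  refine (add_le_add h1 h4).trans (le_of_eq ?_)
  rw [hB, hS]
  ring

end Pool.Agent.Ex26
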