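import Pool.Agent.Lib.MP_26a019_lc.Ex.CSpec

set_option autoImplicit false

open Finset Classical

namespace Pool.Agent.Ex26

open Pool.Agent.Kempe Pool.Agent.KempeMix Pool.Agent.Eps26

theorem cPsiQ_proof : CPsiQ := by
  intro hD hQ ε m hε
  obtain ⟨K, hK, h⟩ := hQ ε m hε
  refine ⟨3 * m * K, by positivity, ?_⟩
  intro V C _ _ G U L p s P c κ σ hreg hP hPoin hκ hσ
  have hκ' := hκ
  unfold CC at hκ'
  rw [mem_filter, mem_powerset] at hκ'
  obtain ⟨hκU, hne, hκm, _⟩ := hκ'
  obtain ⟨w0, hw0⟩ := hne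
  have hG := hreg.2.2
  have hq1 : 1 ≤ Fintype.card C := by
    exact Fintype.card_pos_iff.2 ⟨c⟩
  set q : ℝ := (Fintype.card C : ℝ) with hq
  have hq1' : (1 : ℝ) ≤ q := by rw [hq]; exact_mod_cast hq1
  have hq0 : (0 : ℝ) < q := by linarith
  have hsq : 0 < Real.sqrt q := Real.sqrt_pos.2 hq0
  have hsqle : Real.sqrt q ≤ q := by
    rw [Real.sqrt_le_left hq0.le]
    nlinarith
  set D : ℝ := (1 / (s : ℝ)) ^ κ.card with hDdef
  have hD0 : 0 ≤ D := by positivity
  have hnb : ∀ y ∈ U, ((nb G U y).card : ℝ) ≤ q := by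
    intro y hy
    have := card_nb_le_card hG hy
    rw [hq]
    exact_mod_cast (by omega : (nb G U y).card ≤ Fintype.card C)
  -- one term
  have hterm : ∀ u ∈ κ, ∀ x ∈ nb G U u, ∀ u' ∈ nb G U x,
      ev2 (Col G U L p) (fun f f' => pt c σ (κ \ σ) f f' *
        |Qx G U L x u u' f - ev (Col G U L p) (Qx G U L x u u')|) ≤
      D * (3 * K * (P + 1) / (q ^ 2 * Real.sqrt q)) := by
    intro u hu x hx u' hu'
    have hxU : x ∈ U := (mem_nb.1 hx).1
    have huX : u ∈ nb G U x := mem_nb.2 ⟨hκU hu, (mem_nb.1 hx).2.symm⟩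
    obtain ⟨hL, hE⟩ := h V C G U L p s P x u u' hreg hP hPoin hxU huX hu'
    have h1 := hD V C G U L p s c σ (κ \ σ)
      (fun f _ => |Qx G U L x u u' f - ev (Col G U L p) (Qx G U L x u u')|) (K / q ^ 3)
      hG (hσ.trans hκU) (sdiff_subset.trans hκU) (by positivity) (fun _ _ => abs_nonneg _)
      (by
        intro f f' g g' h2 _
        have h3 := hL σ f g ((card_le_card hσ).trans hκm) h2
        have h4 : |Qx G U L x u u' f - ev (Col G U L p) (Qx G U L x u u')| ≤
            |Qx G U L x u u' f - Qx G U L x u u' g| +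
            |Qx G U L x u u' g - ev (Col G U L p) (Qx G U L x u u')| :=
          abs_sub_le _ _ _
        have h5 := abs_nonneg (Qx G U L x u u' g - ev (Col G U L p) (Qx G U L x u u'))
        linarith)
    have hcard : σ.card + (κ \ σ).card = κ.card := by
      rw [card_sdiff_of_subset hσ]
      have := card_le_card hσ
      omega
    rw [hcard, ev2_left (Col_nonempty hG p)] at h1
    refine h1.trans ?_
    apply mul_le_mul_of_nonneg_left _ hD0
    have h6 : K / q ^ 3 ≤ K * (P + 1) / (q ^ 2 * Real.sqrt q) := by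
      apply div_le_div₀ (by positivity) (by nlinarith) (by positivity)
      nlinarith [mul_le_mul_of_nonneg_left hsqle (sq_nonneg q)]
    have h7 : 3 * K * (P + 1) / (q ^ 2 * Real.sqrt q) =
        2 * (K * (P + 1) / (q ^ 2 * Real.sqrt q)) + K * (P + 1) / (q ^ 2 * Real.sqrt q) := by ring
    rw [h7]
    linarith
  have hB0 : 0 ≤ D * (3 * K * (P + 1) / (q ^ 2 * Real.sqrt q)) := by positivity
  calc ev2 (Col G U L p) (fun f f' => pt c σ (κ \ σ) f f' * PsiQ G U L p c κ f f')
      = ∑ u ∈ κ, ∑ x ∈ nb G U u, ∑ u' ∈ nb G U x,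
          ev2 (Col G U L p) (fun f f' => pt c σ (κ \ σ) f f' *
          |Qx G U L x u u' f - ev (Col G U L p) (Qx G U L x u u')|) := by
        have : (fun f f' => pt c σ (κ \ σ) f f' * PsiQ G U L p c κ f f') =
            fun f f' => ∑ u ∈ κ, ∑ x ∈ nb G U u, ∑ u' ∈ nb G U x, (pt c σ (κ \ σ) f f' *
              |Qx G U L x u u' f - ev (Col G U L p) (Qx G U L x u u')|) := by
          funext f f'
          unfold PsiQ
          simp only [mul_sum]
        rw [this, ev2_sum]
        refine sum_congr rfl fun u _ => ?_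
        rw [ev2_sum]
        refine sum_congr rfl fun x _ => ?_
        rw [ev2_sum]
    _ ≤ ∑ u ∈ κ, ∑ x ∈ nb G U u, ∑ u' ∈ nb G U x,
          D * (3 * K * (P + 1) / (q ^ 2 * Real.sqrt q)) :=
        sum_le_sum fun u hu => sum_le_sum fun x hx => sum_le_sum fun u' hu' =>
          hterm u hu x hx u' hu'
    _ ≤ ∑ u ∈ κ, ∑ x ∈ nb G U u, q * (D * (3 * K * (P + 1) / (q ^ 2 * Real.sqrt q))) := by
        refine sum_le_sum fun u hu => sum_le_sum fun x hx => ?_
        rw [sum_const, nsmul_eq_mul]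
        exact mul_le_mul_of_nonneg_right (hnb x (mem_nb.1 hx).1) hB0
    _ ≤ ∑ u ∈ κ, q * (q * (D * (3 * K * (P + 1) / (q ^ 2 * Real.sqrt q)))) := by
        refine sum_le_sum fun u hu => ?_
        rw [sum_const, nsmul_eq_mul]
        exact mul_le_mul_of_nonneg_right (hnb u (hκU hu)) (by positivity)
    _ ≤ (m : ℝ) * (q * (q * (D * (3 * K * (P + 1) / (q ^ 2 * Real.sqrt q))))) := by
        rw [sum_const, nsmul_eq_mul]
        exact mul_le_mul_of_nonneg_right (by exact_mod_cast hκm) (by positivity)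
    _ = 3 * m * K * (P + 1) / Real.sqrt q * D := by
        field_simp

end Pool.Agent.Ex26
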