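import Pool.Agent.Lib.MP_26a019_lc.Ex.CSpec

set_option autoImplicit false
set_option linter.unusedVariables false

/-!
# Module CPsiZ
-/

open Finset Classical

namespace Pool.Agent.Ex26

open Pool.Agent.Kempe Pool.Agent.KempeMix Pool.Agent.Eps26

namespace CPsiZAux

variable {V C : Type} [Fintype V] [Fintype C]

theorem card_bd_le {G : SimpleGraph V} {U : Finset V} {L : V → Finset C} {s m : ℕ}
    (hG : Good G U L s) {κ : Finset V} (hκU : κ ⊆ U) (hκm : κ.card ≤ m) :
    ((bd G U κ).card : ℝ) ≤ (m : ℝ) * (Fintype.card C : ℝ) := by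
  have h1 : bd G U κ ⊆ κ.biUnion (fun u => nb G U u) := by
    intro y hy
    unfold bd at hy
    rw [Finset.mem_filter, Finset.mem_sdiff] at hy
    obtain ⟨⟨hyU, -⟩, u, hu, hadj⟩ := hy
    rw [Finset.mem_biUnion]
    exact ⟨u, hu, mem_nb.2 ⟨hyU, hadj.symm⟩⟩
  have h2 : (bd G U κ).card ≤ m * Fintype.card C := by
    calc (bd G U κ).card ≤ (κ.biUnion (fun u => nb G U u)).card := Finset.card_le_card h1
      _ ≤ ∑ u ∈ κ, (nb G U u).card := Finset.card_biUnion_le
      _ ≤ ∑ _u ∈ κ, Fintype.card C := Finset.sum_le_sum fun u hu => by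
          have := card_nb_le_card hG (hκU hu)
          omega
      _ = κ.card * Fintype.card C := by rw [Finset.sum_const, smul_eq_mul]
      _ ≤ m * Fintype.card C := Nat.mul_le_mul_right _ hκm
  exact_mod_cast h2

theorem ev_eq_color_le {G : SimpleGraph V} {U : Finset V} {L : V → Finset C} {s : ℕ}
    (hG : Good G U L s) (p : V → C) {w x : V} (hw : w ∈ U) (hx : x ≠ w) :
    ev (Col G U L p) (fun f => if f w = f x then (1 : ℝ) else 0) ≤ 1 / (s : ℝ) := by
  have hA := Col_nonempty hG p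
  have h1 : ∀ f ∈ Col G U L p, (if f w = f x then (1 : ℝ) else 0) =
      ∑ a, (if f w = a then (1 : ℝ) else 0) * (if f x = a then (1 : ℝ) else 0) := by
    intro f _
    rw [Finset.sum_eq_single (f x)]
    · simp
    · intro a _ ha
      have h0 : (if f x = a then (1 : ℝ) else 0) = 0 := if_neg fun h => ha h.symm
      rw [h0, mul_zero]
    · intro h
      exact absurd (Finset.mem_univ _) h
  rw [ev_congr _ h1, ev_sum]
  have h2 : ∀ a ∈ (Finset.univ : Finset C), ev (Col G U L p) (fun f =>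
      (if f w = a then (1 : ℝ) else 0) * (if f x = a then (1 : ℝ) else 0)) ≤
      1 / (s : ℝ) * mg (Col G U L p) x a := by
    intro a _
    have hI : Ind w (fun f : V → C => if f x = a then (1 : ℝ) else 0) := by
      intro f b
      simp only [Function.update_of_ne hx]
    rw [ev_color_mul hG p hw a hI]
    unfold mg
    rw [← ev_mul_left]
    refine ev_mono _ fun f _ => ?_
    refine mul_le_mul_of_nonneg_right (pr_le hG hw a f) ?_
    split_ifs <;> norm_num
  refine (Finset.sum_le_sum h2).trans ?_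
  rw [← Finset.mul_sum, sum_mg hA, mul_one]

end CPsiZAux

open CPsiZAux in
theorem cPsiZ_proof : CPsiZ := by
  intro hDom hYZ hLam ε m hε
  obtain ⟨K1, hK1, hYZ⟩ := hYZ hDom ε m hε
  obtain ⟨K2, hK2, hLam⟩ := hLam ε m hε
  refine ⟨K1 * (K2 + 1) + m * (2 * K2 + 2) + 2 * (m : ℝ) ^ 2 / ε, by positivity, ?_⟩
  intro V C _ _ G U L p s P c κ σ hR hP hPo hκ hσ
  have hG := hR.2.2
  have hκ' := hκ
  unfold CC at hκ'
  rw [Finset.mem_filter, Finset.mem_powerset] at hκ'
  obtain ⟨hκU, ⟨u0, hu0⟩, hκm, -⟩ := hκ'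
  have hs2 := hG.1
  have hsq : s ≤ Fintype.card C := by
    have := card_nb_le_card hG (hκU hu0)
    omega
  obtain ⟨q, hq⟩ : ∃ q : ℝ, (Fintype.card C : ℝ) = q := ⟨_, rfl⟩
  have hs0 : (0 : ℝ) < s := by exact_mod_cast (by omega : 0 < s)
  have hq1 : 1 ≤ q := by
    rw [← hq]
    exact_mod_cast (by omega : 1 ≤ Fintype.card C)
  have hq0 : 0 < q := by linarith
  have hεq : ε * q ≤ s := by
    rw [← hq]
    exact hR.2.1
  have hA := Col_nonempty hG p
  obtain ⟨a, ha⟩ : ∃ a : ℝ, (1 / (s : ℝ)) ^ κ.card = a := ⟨_, rfl⟩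
  have ha0 : 0 ≤ a := by rw [← ha]; positivity
  have hcard : σ.card + (κ \ σ).card = κ.card := by
    rw [Finset.card_sdiff_of_subset hσ]
    have := Finset.card_le_card hσ
    omega
  obtain ⟨hL1, hL2⟩ := hLam V C G U L p s P κ hR hP hκU hκm
  have hL1 := hL1 hPo
  rw [hq] at hL1
  simp only [hq] at hL2
  have hqq : 1 / q ^ 2 ≤ 1 / q :=
    one_div_le_one_div_of_le hq0 (by nlinarith)
  -- first part
  have hP1 : ev2 (Col G U L p) (fun f f' => pt c σ (κ \ σ) f f' *
      (((Lam G U L κ f f') ^ 2 + 1 / q ^ 2) * YZ G U c κ f f')) ≤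
      K1 * a * ((K2 * P + 1 + K2) / q) := by
    have h1 := hYZ V C G U L p s c κ σ (fun f f' => (Lam G U L κ f f') ^ 2 + 1 / q ^ 2)
      (K2 / q ^ 2) hR hκ hσ (by positivity) (fun f f' => by positivity)
      (fun X f f' g g' hX hg hg' => by
        have h2 := hL2 X f f' g g' hX hg hg'
        have h3 : 0 ≤ 1 / q ^ 2 := by positivity
        linarith)
    rw [ha] at h1
    refine h1.trans ?_
    refine mul_le_mul_of_nonneg_left ?_ (by positivity)
    rw [ev2_add, ev2_const hA]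
    have h4 : K2 / q ^ 2 ≤ K2 / q := by
      have := mul_le_mul_of_nonneg_left hqq hK2
      rw [mul_one_div, mul_one_div] at this
      exact this
    calc ev2 (Col G U L p) (fun f f' => (Lam G U L κ f f') ^ 2) + 1 / q ^ 2 + K2 / q ^ 2 ≤
          K2 * P / q + 1 / q + K2 / q := by linarith
      _ = (K2 * P + 1 + K2) / q := by ring
  -- second part
  have hP2 : ev2 (Col G U L p) (fun f f' => pt c σ (κ \ σ) f f' *
      (1 / q ^ 4 + (Lam G U L κ f f') ^ 2 / q ^ 2)) ≤ a * ((2 + 2 * K2 * P + K2) / q ^ 3) := by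
    have h1 := hDom V C G U L p s c σ (κ \ σ)
      (fun f f' => 1 / q ^ 4 + (Lam G U L κ f f') ^ 2 / q ^ 2) (K2 / q ^ 4) hG (hσ.trans hκU)
      (Finset.sdiff_subset.trans hκU) (by positivity) (fun f f' => by positivity)
      (fun f f' g g' hg hg' => by
        have h2 := hL2 κ f f' g g' (by omega) (fun v hv => hg v fun h => hv (hσ h))
          (fun v hv => hg' v fun h => hv (Finset.sdiff_subset h))
        have h3 : (Lam G U L κ f f') ^ 2 / q ^ 2 ≤
            (2 * (Lam G U L κ g g') ^ 2 + K2 / q ^ 2) / q ^ 2 :=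
          div_le_div_of_nonneg_right h2 (by positivity)
        have h4 : (2 * (Lam G U L κ g g') ^ 2 + K2 / q ^ 2) / q ^ 2 =
            2 * ((Lam G U L κ g g') ^ 2 / q ^ 2) + K2 / q ^ 4 := by
          field_simp
        have h5 : 0 ≤ 1 / q ^ 4 := by positivity
        linarith)
    rw [hcard, ha] at h1
    refine h1.trans ?_
    refine mul_le_mul_of_nonneg_left ?_ ha0
    have h6 : ev2 (Col G U L p) (fun f f' => 1 / q ^ 4 + (Lam G U L κ f f') ^ 2 / q ^ 2) =
        1 / q ^ 4 + 1 / q ^ 2 * ev2 (Col G U L p) (fun f f' => (Lam G U L κ f f') ^ 2) := by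
      rw [ev2_add, ev2_const hA, ← ev2_mul_left]
      congr 1
      exact ev2_congr fun f _ f' _ => by ring
    rw [h6]
    have h7 : 1 / q ^ 2 * ev2 (Col G U L p) (fun f f' => (Lam G U L κ f f') ^ 2) ≤
        1 / q ^ 2 * (K2 * P / q) := mul_le_mul_of_nonneg_left hL1 (by positivity)
    have h8 : 1 / q ^ 4 ≤ 1 / q ^ 3 :=
      one_div_le_one_div_of_le (by positivity) (pow_le_pow_right₀ hq1 (by norm_num))
    have h9 : K2 / q ^ 4 ≤ K2 / q ^ 3 := by
      have := mul_le_mul_of_nonneg_left h8 hK2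
      rw [mul_one_div, mul_one_div] at this
      exact this
    have h10 : (2 + 2 * K2 * P + K2) / q ^ 3 = 2 * (1 / q ^ 3) + 2 * (1 / q ^ 2 * (K2 * P / q)) +
        K2 / q ^ 3 := by
      field_simp
    rw [h10]
    linarith
  -- third part
  have hP3 : ∀ x ∈ bd G U κ, ev2 (Col G U L p) (fun f f' => pt c σ (κ \ σ) f f' *
      io c κ x f) ≤ (m : ℝ) * (a * (2 * (1 / (s : ℝ)))) := by
    intro x hx
    unfold bd at hx
    rw [Finset.mem_filter, Finset.mem_sdiff] at hx
    obtain ⟨⟨hxU, hxκ⟩, -⟩ := hx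
    have h1 : ∀ f ∈ Col G U L p, ∀ f' ∈ Col G U L p, pt c σ (κ \ σ) f f' * io c κ x f ≤
        ∑ w ∈ κ \ σ, pt c σ (κ \ σ) f f' * (if f w = f x then (1 : ℝ) else 0) := by
      intro f _ f' _
      have hnn : ∀ w ∈ κ \ σ, 0 ≤ pt c σ (κ \ σ) f f' * (if f w = f x then (1 : ℝ) else 0) := by
        intro w _
        refine mul_nonneg (pt_nonneg _ _ _ _ _) ?_
        split_ifs <;> norm_num
      by_cases h2 : ∃ w ∈ κ, f w ≠ c ∧ f w = f x
      · obtain ⟨w, hw, hwc, hwx⟩ := h2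
        have h3 : io c κ x f = 1 := by
          unfold io
          rw [if_pos ⟨w, hw, hwc, hwx⟩]
        rw [h3, mul_one]
        by_cases h4 : (∀ u ∈ σ, f u = c) ∧ (∀ u ∈ κ \ σ, f' u = c)
        · have hwσ : w ∈ κ \ σ := Finset.mem_sdiff.2 ⟨hw, fun h => hwc (h4.1 w h)⟩
          refine le_trans ?_ (Finset.single_le_sum hnn hwσ)
          rw [if_pos hwx, mul_one]
        · have h5 : pt c σ (κ \ σ) f f' = 0 := by
            unfold pt
            rw [if_neg h4]
          rw [h5]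
          simp
      · have h3 : io c κ x f = 0 := by
          unfold io
          rw [if_neg h2]
        rw [h3, mul_zero]
        exact Finset.sum_nonneg hnn
    refine (ev2_mono h1).trans ?_
    rw [ev2_sum]
    have h2 : ∀ w ∈ κ \ σ, ev2 (Col G U L p) (fun f f' => pt c σ (κ \ σ) f f' *
        (if f w = f x then (1 : ℝ) else 0)) ≤ a * (2 * (1 / (s : ℝ))) := by
      intro w hw
      rw [Finset.mem_sdiff] at hw
      have hxw : x ≠ w := fun h => hxκ (h ▸ hw.1)
      have h3 := hDom V C G U L p s c σ (κ \ σ)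
        (fun f f' => if f w = f x then (1 : ℝ) else 0) 0 hG (hσ.trans hκU)
        (Finset.sdiff_subset.trans hκU) le_rfl (fun f f' => by
          split_ifs <;> norm_num)
        (fun f f' g g' hg hg' => by
          rw [hg w hw.2, hg x fun h => hxκ (hσ h)]
          split_ifs <;> norm_num)
      rw [hcard, ha, add_zero] at h3
      refine h3.trans (mul_le_mul_of_nonneg_left (mul_le_mul_of_nonneg_left ?_ (by norm_num)) ha0)
      rw [ev2_left hA (fun f => if f w = f x then (1 : ℝ) else 0)]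
      exact ev_eq_color_le hG p (hκU hw.1) hxw
    refine (Finset.sum_le_sum h2).trans ?_
    rw [Finset.sum_const, nsmul_eq_mul]
    refine mul_le_mul_of_nonneg_right ?_ (by positivity)
    have h4 : (κ \ σ).card ≤ m := (Finset.card_le_card Finset.sdiff_subset).trans hκm
    exact_mod_cast h4
  -- the sum
  have hdec : ev2 (Col G U L p) (fun f f' => pt c σ (κ \ σ) f f' * PsiZ G U L c κ f f') =
      ev2 (Col G U L p) (fun f f' => pt c σ (κ \ σ) f f' *
        (((Lam G U L κ f f') ^ 2 + 1 / q ^ 2) * YZ G U c κ f f')) +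
      q * ∑ x ∈ bd G U κ, (ev2 (Col G U L p) (fun f f' => pt c σ (κ \ σ) f f' *
        (1 / q ^ 4 + (Lam G U L κ f f') ^ 2 / q ^ 2)) +
        1 / q ^ 2 * ev2 (Col G U L p) (fun f f' => pt c σ (κ \ σ) f f' * io c κ x f)) := by
    have h1 : ∀ x ∈ bd G U κ, ev2 (Col G U L p) (fun f f' => pt c σ (κ \ σ) f f' *
        (1 / q ^ 4 + (Lam G U L κ f f') ^ 2 / q ^ 2)) +
        1 / q ^ 2 * ev2 (Col G U L p) (fun f f' => pt c σ (κ \ σ) f f' * io c κ x f) =
        ev2 (Col G U L p) (fun f f' => pt c σ (κ \ σ) f f' *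
          (1 / q ^ 4 + (Lam G U L κ f f') ^ 2 / q ^ 2) +
          1 / q ^ 2 * (pt c σ (κ \ σ) f f' * io c κ x f)) := by
      intro x _
      rw [ev2_add, ev2_mul_left]
    rw [Finset.sum_congr rfl h1, ← ev2_sum, ← ev2_mul_left, ← ev2_add]
    refine ev2_congr fun f _ f' _ => ?_
    unfold PsiZ
    rw [hq, mul_add]
    congr 1
    rw [Finset.mul_sum, Finset.mul_sum, Finset.mul_sum]
    refine Finset.sum_congr rfl fun x _ => ?_
    ring
  rw [hdec, hq, ha]
  have hcb := card_bd_le hG hκU hκm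
  rw [hq] at hcb
  have hsum : ∑ x ∈ bd G U κ, (ev2 (Col G U L p) (fun f f' => pt c σ (κ \ σ) f f' *
        (1 / q ^ 4 + (Lam G U L κ f f') ^ 2 / q ^ 2)) +
        1 / q ^ 2 * ev2 (Col G U L p) (fun f f' => pt c σ (κ \ σ) f f' * io c κ x f)) ≤
      (m : ℝ) * q * (a * ((2 + 2 * K2 * P + K2) / q ^ 3) +
        1 / q ^ 2 * ((m : ℝ) * (a * (2 * (1 / (s : ℝ)))))) := by
    have h1 : ∀ x ∈ bd G U κ, ev2 (Col G U L p) (fun f f' => pt c σ (κ \ σ) f f' *
        (1 / q ^ 4 + (Lam G U L κ f f') ^ 2 / q ^ 2)) +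
        1 / q ^ 2 * ev2 (Col G U L p) (fun f f' => pt c σ (κ \ σ) f f' * io c κ x f) ≤
        a * ((2 + 2 * K2 * P + K2) / q ^ 3) +
        1 / q ^ 2 * ((m : ℝ) * (a * (2 * (1 / (s : ℝ))))) := fun x hx =>
      add_le_add hP2 (mul_le_mul_of_nonneg_left (hP3 x hx) (by positivity))
    refine (Finset.sum_le_sum h1).trans ?_
    rw [Finset.sum_const, nsmul_eq_mul]
    exact mul_le_mul_of_nonneg_right hcb (by positivity)
  have hs1 : 1 / (s : ℝ) ≤ 1 / (ε * q) := one_div_le_one_div_of_le (by positivity) hεq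
  have hfin : q * ((m : ℝ) * q * (a * ((2 + 2 * K2 * P + K2) / q ^ 3) +
        1 / q ^ 2 * ((m : ℝ) * (a * (2 * (1 / (s : ℝ))))))) ≤
      a * ((m : ℝ) * (2 + 2 * K2 * P + K2) / q) + a * (2 * (m : ℝ) ^ 2 / ε / q) := by
    have e1 : q * ((m : ℝ) * q * (a * ((2 + 2 * K2 * P + K2) / q ^ 3) +
        1 / q ^ 2 * ((m : ℝ) * (a * (2 * (1 / (s : ℝ))))))) =
        a * ((m : ℝ) * (2 + 2 * K2 * P + K2) / q) + 2 * (m : ℝ) ^ 2 * a * (1 / (s : ℝ)) := by
      field_simp
    have e2 : 2 * (m : ℝ) ^ 2 * a * (1 / (s : ℝ)) ≤ 2 * (m : ℝ) ^ 2 * a * (1 / (ε * q)) :=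
      mul_le_mul_of_nonneg_left hs1 (by positivity)
    have e3 : 2 * (m : ℝ) ^ 2 * a * (1 / (ε * q)) = a * (2 * (m : ℝ) ^ 2 / ε / q) := by
      field_simp
    rw [e1]
    linarith
  have h1 := mul_le_mul_of_nonneg_left hsum hq0.le
  have h2 : K1 * a * ((K2 * P + 1 + K2) / q) +
      (a * ((m : ℝ) * (2 + 2 * K2 * P + K2) / q) + a * (2 * (m : ℝ) ^ 2 / ε / q)) ≤
      (K1 * (K2 + 1) + m * (2 * K2 + 2) + 2 * (m : ℝ) ^ 2 / ε) * (P + 1) / q * a := by
    have hm0 : (0 : ℝ) ≤ m := Nat.cast_nonneg _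
    have e1 : (K1 * (K2 + 1) + m * (2 * K2 + 2) + 2 * (m : ℝ) ^ 2 / ε) * (P + 1) / q * a -
        (K1 * a * ((K2 * P + 1 + K2) / q) +
      (a * ((m : ℝ) * (2 + 2 * K2 * P + K2) / q) + a * (2 * (m : ℝ) ^ 2 / ε / q))) =
        (K1 * P + m * (K2 + 2 * P) + 2 * (m : ℝ) ^ 2 / ε * P) / q * a := by
      field_simp
      ring
    have e2 : 0 ≤ (K1 * P + m * (K2 + 2 * P) + 2 * (m : ℝ) ^ 2 / ε * P) / q * a := by
      positivity
    linarith
  linarith

end Pool.Agent.Ex26
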