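import Pool.Agent.Lib.MP_26a019_lc.Ex.CSpec

set_option autoImplicit false
set_option linter.unusedVariables false
set_option linter.unusedSectionVars false

open Finset Classical

namespace Pool.Agent.Ex26

open Pool.Agent.Kempe Pool.Agent.KempeMix Pool.Agent.Eps26

namespace CQAux

variable {V C : Type} [Fintype V] [Fintype C]

/-- the real estimate -/
theorem real_est {s N A B D N' A' B' D' : ℝ} (hs : 0 < s) (hA : s ≤ A) (hB : s ≤ B) (hD : s ≤ D)
    (hA' : s ≤ A') (hB' : s ≤ B') (hD' : s ≤ D') (h0 : 0 ≤ N') (h1 : N' ≤ A')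
    (hN : |N - N'| ≤ 1) (dA : |A - A'| ≤ 1) (dB : |B - B'| ≤ 1) (dD : |D - D'| ≤ 1) :
    |N / (A * B * D) - N' / (A' * B' * D')| ≤ 4 / s ^ 3 := by
  have key : ∀ x x' : ℝ, s ≤ x → s ≤ x' → |x - x'| ≤ 1 → |x⁻¹ - x'⁻¹| ≤ x⁻¹ * x'⁻¹ := by
    intro x x' hx hx' h
    have p1 : 0 < x := hs.trans_le hx
    have p2 : 0 < x' := hs.trans_le hx'
    have e : x⁻¹ - x'⁻¹ = (x' - x) * (x⁻¹ * x'⁻¹) := by field_simp
    rw [e, abs_mul, abs_of_pos (by positivity : 0 < x⁻¹ * x'⁻¹), abs_sub_comm]
    exact mul_le_of_le_one_left (by positivity) h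
  have inv_le : ∀ x : ℝ, s ≤ x → x⁻¹ ≤ s⁻¹ := fun x hx => by
    exact inv_anti₀ hs hx
  have pA : 0 < A := hs.trans_le hA
  have pB : 0 < B := hs.trans_le hB
  have pD : 0 < D := hs.trans_le hD
  have pA' : 0 < A' := hs.trans_le hA'
  have pB' : 0 < B' := hs.trans_le hB'
  have pD' : 0 < D' := hs.trans_le hD'
  have kA := key A A' hA hA' dA
  have kB := key B B' hB hB' dB
  have kD := key D D' hD hD' dD
  have iA := inv_le A hA
  have iB := inv_le B hB
  have iD := inv_le D hD
  have iA' := inv_le A' hA'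
  have iB' := inv_le B' hB'
  have iD' := inv_le D' hD'
  have hN'1 : N' * A'⁻¹ ≤ 1 := by
    rw [← div_eq_mul_inv, div_le_one pA']; exact h1
  have hN'0 : 0 ≤ N' * A'⁻¹ := by positivity
  set a := A⁻¹ with ha
  set b := B⁻¹ with hb
  set d := D⁻¹ with hd
  set a' := A'⁻¹ with ha'
  set b' := B'⁻¹ with hb'
  set d' := D'⁻¹ with hd'
  have qa : 0 < a := by positivity
  have qb : 0 < b := by positivity
  have qd : 0 < d := by positivity
  have qa' : 0 < a' := by positivity
  have qb' : 0 < b' := by positivity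
  have qd' : 0 < d' := by positivity
  set t := s⁻¹ with ht
  have qt : 0 < t := by positivity
  have e1 : N / (A * B * D) = N * a * b * d := by
    rw [ha, hb, hd]; field_simp
  have e2 : N' / (A' * B' * D') = N' * a' * b' * d' := by
    rw [ha', hb', hd']; field_simp
  have e3 : 4 / s ^ 3 = 4 * t ^ 3 := by rw [ht]; field_simp
  rw [e1, e2, e3]
  have e4 : N * a * b * d - N' * a' * b' * d' =
      (N - N') * (a * b * d) + (a - a') * (N' * (b * d)) + (b - b') * (N' * a' * d) +
        (d - d') * (N' * a' * b') := by ring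
  rw [e4]
  have t1 : |(N - N') * (a * b * d)| ≤ t ^ 3 := by
    rw [abs_mul, abs_of_pos (by positivity : 0 < a * b * d)]
    calc |N - N'| * (a * b * d) ≤ 1 * (t * t * t) := by gcongr
      _ = t ^ 3 := by ring
  have t2 : |(a - a') * (N' * (b * d))| ≤ t ^ 3 := by
    rw [abs_mul, abs_of_nonneg (by positivity : 0 ≤ N' * (b * d))]
    calc |a - a'| * (N' * (b * d)) ≤ (a * a') * (N' * (b * d)) := by gcongr
      _ = (N' * a') * (a * b * d) := by ring
      _ ≤ 1 * (t * t * t) := by gcongr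
      _ = t ^ 3 := by ring
  have t3 : |(b - b') * (N' * a' * d)| ≤ t ^ 3 := by
    rw [abs_mul, abs_of_nonneg (by positivity : 0 ≤ N' * a' * d)]
    calc |b - b'| * (N' * a' * d) ≤ (b * b') * (N' * a' * d) := by gcongr
      _ = (N' * a') * (b * b' * d) := by ring
      _ ≤ 1 * (t * t * t) := by gcongr
      _ = t ^ 3 := by ring
  have t4 : |(d - d') * (N' * a' * b')| ≤ t ^ 3 := by
    rw [abs_mul, abs_of_nonneg (by positivity : 0 ≤ N' * a' * b')]
    calc |d - d'| * (N' * a' * b') ≤ (d * d') * (N' * a' * b') := by gcongr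
      _ = (N' * a') * (d * d' * b') := by ring
      _ ≤ 1 * (t * t * t) := by gcongr
      _ = t ^ 3 := by ring
  have s1 := abs_add_le ((N - N') * (a * b * d) + (a - a') * (N' * (b * d)) +
    (b - b') * (N' * a' * d)) ((d - d') * (N' * a' * b'))
  have s2 := abs_add_le ((N - N') * (a * b * d) + (a - a') * (N' * (b * d)))
    ((b - b') * (N' * a' * d))
  have s3 := abs_add_le ((N - N') * (a * b * d)) ((a - a') * (N' * (b * d)))
  linarith

theorem avX_up1 (G : SimpleGraph V) (U : Finset V) (L : V → Finset C) (X : Finset V)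
    (f : V → C) (u y : V) (a : C) :
    avX G U L X (Function.update f y a) u ⊆ insert (f y) (avX G U L X f u) := by
  intro c hc
  rw [Finset.mem_insert, or_iff_not_imp_left]
  intro hne
  rw [mem_avX] at hc ⊢
  refine ⟨hc.1, fun w hw hX h => ?_⟩
  have h1 := hc.2 w hw hX
  by_cases hwy : w = y
  · subst hwy; exact hne h.symm
  · rw [Function.update_of_ne hwy] at h1; exact h1 h

theorem avX_up2 (G : SimpleGraph V) (U : Finset V) (L : V → Finset C) (X : Finset V)
    (f : V → C) (u y : V) (a : C) :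
    avX G U L X f u ⊆ insert a (avX G U L X (Function.update f y a) u) := by
  intro c hc
  rw [Finset.mem_insert, or_iff_not_imp_left]
  intro hne
  rw [mem_avX] at hc ⊢
  refine ⟨hc.1, fun w hw hX h => ?_⟩
  have h1 := hc.2 w hw hX
  by_cases hwy : w = y
  · subst hwy; rw [Function.update_self] at h; exact hne h.symm
  · rw [Function.update_of_ne hwy] at h; exact h1 h

theorem card_close {S T : Finset C} {a b : C} (h1 : T ⊆ insert a S) (h2 : S ⊆ insert b T) :
    |(S.card : ℝ) - (T.card : ℝ)| ≤ 1 := by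
  have c1 : T.card ≤ S.card + 1 := (Finset.card_le_card h1).trans (Finset.card_insert_le _ _)
  have c2 : S.card ≤ T.card + 1 := (Finset.card_le_card h2).trans (Finset.card_insert_le _ _)
  have d1 : (T.card : ℝ) ≤ S.card + 1 := by exact_mod_cast c1
  have d2 : (S.card : ℝ) ≤ T.card + 1 := by exact_mod_cast c2
  rw [abs_le]
  constructor <;> linarith

theorem inter3 {S1 S2 S3 T1 T2 T3 : Finset C} {a : C} (h1 : T1 ⊆ insert a S1)
    (h2 : T2 ⊆ insert a S2) (h3 : T3 ⊆ insert a S3) : T1 ∩ T2 ∩ T3 ⊆ insert a (S1 ∩ S2 ∩ S3) := by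
  intro c hc
  simp only [Finset.mem_inter, Finset.mem_insert] at hc ⊢
  have k1 := Finset.mem_insert.1 (h1 hc.1.1)
  have k2 := Finset.mem_insert.1 (h2 hc.1.2)
  have k3 := Finset.mem_insert.1 (h3 hc.2)
  tauto

/-- one step -/
theorem step {G : SimpleGraph V} {U : Finset V} {L : V → Finset C} {s : ℕ} (hG : Good G U L s)
    {x u u' : V} (hx : x ∈ U) (hu : u ∈ U) (hu' : u' ∈ U) (f : V → C) (y : V) (a : C) :
    |Qx G U L x u u' f - Qx G U L x u u' (Function.update f y a)| ≤ 4 / (s : ℝ) ^ 3 := by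
  have hs : (0 : ℝ) < s := by have := hG.1; exact_mod_cast (by omega : 0 < s)
  unfold Qx
  rw [← avX_empty G U L f x, ← avX_empty G U L (Function.update f y a) x]
  have u1 := fun (X : Finset V) (w : V) => avX_up1 G U L X f w y a
  have u2 := fun (X : Finset V) (w : V) => avX_up2 G U L X f w y a
  have cc := fun (X : Finset V) {w : V} (hw : w ∈ U) (f : V → C) =>
    (by exact_mod_cast card_avX hG hw X f : (s : ℝ) ≤ ((avX G U L X f w).card : ℝ))
  refine real_est hs (cc _ hu f) (cc _ hu' f) (cc _ hx f) (cc _ hu _) (cc _ hu' _) (cc _ hx _)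
    (Nat.cast_nonneg _) ?_ ?_ ?_ ?_ ?_
  · exact_mod_cast Finset.card_le_card (Finset.inter_subset_left.trans Finset.inter_subset_left)
  · exact card_close (inter3 (u1 _ _) (u1 _ _) (u1 _ _)) (inter3 (u2 _ _) (u2 _ _) (u2 _ _))
  · exact card_close (u1 _ _) (u2 _ _)
  · exact card_close (u1 _ _) (u2 _ _)
  · exact card_close (u1 _ _) (u2 _ _)

theorem lip {G : SimpleGraph V} {U : Finset V} {L : V → Finset C} {s : ℕ} (hG : Good G U L s)
    {x u u' : V} (hx : x ∈ U) (hu : u ∈ U) (hu' : u' ∈ U) (X : Finset V) :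
    ∀ f g : V → C, (∀ v, v ∉ X → g v = f v) →
    |Qx G U L x u u' f - Qx G U L x u u' g| ≤ (X.card : ℝ) * (4 / (s : ℝ) ^ 3) := by
  induction X using Finset.induction_on with
  | empty =>
    intro f g h
    have : g = f := funext fun v => h v (Finset.notMem_empty v)
    subst this
    simp
  | insert y X hy ih =>
    intro f g h
    have h1 := ih f (Function.update g y (f y)) (by
      intro v hv
      by_cases hvy : v = y
      · subst hvy; rw [Function.update_self]
      · rw [Function.update_of_ne hvy]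
        exact h v (by rw [Finset.mem_insert]; tauto))
    have h2 := step hG hx hu hu' g y (f y)
    rw [Finset.card_insert_of_notMem hy]
    rw [abs_sub_comm] at h2
    have h3 := abs_sub_le (Qx G U L x u u' f) (Qx G U L x u u' (Function.update g y (f y)))
      (Qx G U L x u u' g)
    push_cast
    linarith

theorem ind_Qx (G : SimpleGraph V) (U : Finset V) (L : V → Finset C) {x u u' y : V}
    (h1 : y ∉ nb G U u) (h2 : y ∉ nb G U u') (h3 : y ∉ nb G U x) : Ind y (Qx G U L x u u') := by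
  intro f c
  unfold Qx
  rw [avX_update_of_notMem G U L {x} f u h1, avX_update_of_notMem G U L {x} f u' h2,
    av_update_of_notMem G U L f x h3]

theorem sub_hb {G : SimpleGraph V} {U : Finset V} {L : V → Finset C} {s : ℕ} (hG : Good G U L s)
    {x u u' : V} (hx : x ∈ U) (hu : u ∈ U) (hu' : u' ∈ U) {y : V} (hy : y ∈ U) (f : V → C) :
    |Qx G U L x u u' f - hb G U L y (Qx G U L x u u') f| ≤ 4 / (s : ℝ) ^ 3 := by
  have hp := av_pos hG hy f
  have h1 : Qx G U L x u u' f - hb G U L y (Qx G U L x u u') f =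
      (∑ c ∈ av G U L f y, (Qx G U L x u u' f - Qx G U L x u u' (Function.update f y c))) /
        ((av G U L f y).card : ℝ) := by
    unfold hb
    rw [Finset.sum_sub_distrib, Finset.sum_const, nsmul_eq_mul]
    field_simp
  rw [h1, abs_div, abs_of_pos hp, div_le_iff₀ hp]
  refine (Finset.abs_sum_le_sum_abs _ _).trans ?_
  refine (Finset.sum_le_sum fun c _ => step hG hx hu hu' f y c).trans ?_
  rw [Finset.sum_const, nsmul_eq_mul, mul_comm]

theorem dir_le {G : SimpleGraph V} {U : Finset V} {L : V → Finset C} {s : ℕ} (hG : Good G U L s)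
    (p : V → C) {x u u' : V} (hx : x ∈ U) (hu : u ∈ U) (hu' : u' ∈ U) :
    dir G U L p (Qx G U L x u u') ≤ 3 * (Fintype.card C : ℝ) * (4 / (s : ℝ) ^ 3) ^ 2 := by
  unfold dir
  have h1 : ∀ y ∈ U, ev (Col G U L p)
      (fun f => (Qx G U L x u u' f - hb G U L y (Qx G U L x u u') f) ^ 2) ≤
      if y ∈ nb G U u ∪ nb G U u' ∪ nb G U x then (4 / (s : ℝ) ^ 3) ^ 2 else 0 := by
    intro y hy
    by_cases h : y ∈ nb G U u ∪ nb G U u' ∪ nb G U x
    · rw [if_pos h]
      refine (ev_mono _ (h := fun _ => (4 / (s : ℝ) ^ 3) ^ 2) fun f _ => ?_).trans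
        (ev_const (Col_nonempty hG p) _).le
      have h2 := sub_hb hG hx hu hu' hy f
      rw [← sq_abs]
      exact pow_le_pow_left₀ (abs_nonneg _) h2 2
    · rw [if_neg h]
      simp only [Finset.mem_union, not_or] at h
      have hi := ind_Qx G U L h.1.1 h.1.2 h.2
      refine (ev_mono _ (h := fun _ => (0 : ℝ)) fun f _ => ?_).trans
        (ev_const (Col_nonempty hG p) _).le
      rw [hb_ind hG hy hi, sub_self]
      norm_num
  refine (Finset.sum_le_sum h1).trans ?_
  rw [← Finset.sum_filter, Finset.sum_const, nsmul_eq_mul]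
  refine mul_le_mul_of_nonneg_right ?_ (by positivity)
  have c1 := card_nb_le_card hG hu
  have c2 := card_nb_le_card hG hu'
  have c3 := card_nb_le_card hG hx
  have c4 : (U.filter (fun y => y ∈ nb G U u ∪ nb G U u' ∪ nb G U x)).card ≤
      3 * Fintype.card C := by
    refine (Finset.card_le_card (t := nb G U u ∪ nb G U u' ∪ nb G U x) fun y hy =>
      (Finset.mem_filter.1 hy).2).trans ?_
    refine (Finset.card_union_le _ _).trans ?_
    have := Finset.card_union_le (nb G U u) (nb G U u')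
    omega
  exact_mod_cast c4

end CQAux

open CQAux

theorem cQ_proof : CQ := by
  intro ε m hε
  refine ⟨(4 * m + 7) / ε ^ 3, by positivity, ?_⟩
  intro V C _ _ G U L p s P x u u' hR hP hPo hx hu hu'
  obtain ⟨_, hεs, hG⟩ := hR
  have huU : u ∈ U := (mem_nb.1 hu).1
  have hu'U : u' ∈ U := (mem_nb.1 hu').1
  have hs2 : 2 ≤ s := hG.1
  have hs : (0 : ℝ) < s := by exact_mod_cast (by omega : 0 < s)
  have hq0 : 0 < Fintype.card C := by
    have := card_nb_le_card hG hx
    omega
  have hq : (0 : ℝ) < Fintype.card C := by exact_mod_cast hq0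
  set q : ℝ := (Fintype.card C : ℝ) with hqdef
  have hεq : 0 < ε * q := by positivity
  have hD : 4 / (s : ℝ) ^ 3 ≤ 4 / (ε * q) ^ 3 := by
    gcongr
  have hD0 : 0 ≤ 4 / (s : ℝ) ^ 3 := by positivity
  constructor
  · intro X f g hX hfg
    refine (lip hG hx huU hu'U X f g hfg).trans ?_
    have hX' : (X.card : ℝ) ≤ m := by exact_mod_cast hX
    calc (X.card : ℝ) * (4 / (s : ℝ) ^ 3) ≤ m * (4 / (ε * q) ^ 3) := by gcongr
      _ = (4 * m) / ε ^ 3 / q ^ 3 := by field_simp
      _ ≤ (4 * m + 7) / ε ^ 3 / q ^ 3 := by gcongr; linarith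
  · have hvr : vr (Col G U L p) (Qx G U L x u u') ≤ 48 * P / (ε ^ 6 * q ^ 5) := by
      refine (hPo _).trans ?_
      calc P * dir G U L p (Qx G U L x u u')
          ≤ P * (3 * q * (4 / (s : ℝ) ^ 3) ^ 2) :=
            mul_le_mul_of_nonneg_left (dir_le hG p hx huU hu'U) hP
        _ ≤ P * (3 * q * (4 / (ε * q) ^ 3) ^ 2) := by gcongr
        _ = 48 * P / (ε ^ 6 * q ^ 5) := by field_simp; ring
    have h1 := ev_sq_le (Col_nonempty hG p)
      (fun f => |Qx G U L x u u' f - ev (Col G U L p) (Qx G U L x u u')|)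
    have h2 : ev (Col G U L p)
        (fun f => |Qx G U L x u u' f - ev (Col G U L p) (Qx G U L x u u')| ^ 2) =
        vr (Col G U L p) (Qx G U L x u u') := by
      unfold vr
      exact ev_congr _ fun f _ => sq_abs _
    rw [h2] at h1
    have h3 := h1.trans hvr
    have hsq : 0 < Real.sqrt q := Real.sqrt_pos.2 hq
    have h4 : ((4 * m + 7) / ε ^ 3 * (P + 1) / (q ^ 2 * Real.sqrt q)) ^ 2 =
        (4 * m + 7) ^ 2 * (P + 1) ^ 2 / (ε ^ 6 * q ^ 5) := by
      rw [div_pow, mul_pow (q ^ 2), Real.sq_sqrt hq.le, mul_pow, div_pow]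
      field_simp
    have h5 : 48 * P / (ε ^ 6 * q ^ 5) ≤ (4 * m + 7) ^ 2 * (P + 1) ^ 2 / (ε ^ 6 * q ^ 5) := by
      refine div_le_div_of_nonneg_right ?_ (by positivity)
      have hm : (0 : ℝ) ≤ m := Nat.cast_nonneg m
      have a1 : (49 : ℝ) ≤ (4 * m + 7) ^ 2 := by nlinarith
      have a2 : P ≤ (P + 1) ^ 2 := by nlinarith
      calc 48 * P ≤ 49 * P := by linarith
        _ ≤ (4 * m + 7) ^ 2 * (P + 1) ^ 2 := by gcongr
    have h6 := h3.trans (h5.trans h4.symm.le)
    refine (pow_le_pow_iff_left₀ ?_ ?_ two_ne_zero).1 h6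
    · exact ev_nonneg _ fun f _ => abs_nonneg _
    · positivity

end Pool.Agent.Ex26
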