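import Pool.Agent.Lib.MP_26a019_lc.Ex.CSpec

set_option autoImplicit false
set_option linter.unusedVariables false
set_option linter.unusedSectionVars false

open Finset Classical

namespace Pool.Agent.Ex26

open Pool.Agent.Kempe Pool.Agent.KempeMix Pool.Agent.Eps26

namespace CRho1Aux

variable {V C : Type} [Fintype V] [Fintype C]

/-- `φ` is `f` as a partial colouring, possibly with the colour of `x` removed -/
def Near (f : V → C) (x : V) (φ : V → Option C) : Prop :=
  (∀ w, w ≠ x → φ w = some (f w)) ∧ ∀ w a, φ w = some a → f w = a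

theorem near_so (f : V → C) (x : V) : Near f x (so f) := by
  refine ⟨fun w _ => rfl, fun w a h => ?_⟩
  unfold so at h
  exact Option.some.inj h

theorem near_sx (f : V → C) (x : V) : Near f x (sx x f) := by
  refine ⟨fun w hw => ?_, fun w a h => ?_⟩
  · unfold sx; rw [if_neg hw]
  · unfold sx at h
    split_ifs at h with h1
    exact Option.some.inj h

theorem mem_avO {G : SimpleGraph V} {U : Finset V} {L : V → Finset C} {X : Finset V}
    {φ : V → Option C} {u : V} {c : C} :
    c ∈ avO G U L X φ u ↔ c ∈ L u ∧ ∀ w ∈ nb G U u, w ∉ X → φ w ≠ some c := by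
  unfold avO; rw [Finset.mem_filter]

theorem av_sub_avO {f : V → C} {x : V} {φ : V → Option C} (h : Near f x φ) (G : SimpleGraph V)
    (U : Finset V) (L : V → Finset C) (X : Finset V) (u : V) :
    av G U L f u ⊆ avO G U L X φ u := by
  intro a ha
  rw [mem_av] at ha
  rw [mem_avO]
  exact ⟨ha.1, fun w hw _ h1 => ha.2 w hw (h.2 w a h1)⟩

theorem avO_sub {f : V → C} {x : V} {φ : V → Option C} (h : Near f x φ) (G : SimpleGraph V)
    (U : Finset V) (L : V → Finset C) (X : Finset V) (u : V) :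
    avO G U L X φ u ⊆ av G U L f u ∪ (insert x X).image f := by
  intro a ha
  rw [mem_avO] at ha
  rw [Finset.mem_union, or_iff_not_imp_right]
  intro hn
  rw [mem_av]
  refine ⟨ha.1, fun w hw hfw => hn ?_⟩
  rw [Finset.mem_image]
  refine ⟨w, ?_, hfw⟩
  rw [Finset.mem_insert, or_iff_not_imp_left]
  intro hwx
  by_contra hwX
  refine ha.2 w hw hwX ?_
  rw [h.1 w hwx, hfw]

/-- bounds for `bO` -/
theorem bO_ge {G : SimpleGraph V} {U : Finset V} {L : V → Finset C} {s : ℕ} (hG : Good G U L s)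
    {f : V → C} {x : V} {φ : V → Option C} (h : Near f x φ) {u : V} (hu : u ∈ U) (κ : Finset V)
    (c : C) : (s : ℝ) / 2 ≤ bO G U L κ c φ u := by
  have h1 := Finset.card_le_card (av_sub_avO h G U L κ u)
  have h2 := card_av hG hu f
  have h3 := Finset.pred_card_le_card_erase (s := avO G U L κ φ u) (a := c)
  have h4 := hG.1
  have h5 : s ≤ 2 * ((avO G U L κ φ u).erase c).card := by omega
  have h6 : (s : ℝ) ≤ 2 * (((avO G U L κ φ u).erase c).card : ℝ) := by exact_mod_cast h5
  unfold bO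
  linarith

theorem bO_le_card (G : SimpleGraph V) (U : Finset V) (L : V → Finset C) (κ : Finset V) (c : C)
    (φ : V → Option C) (u : V) : bO G U L κ c φ u ≤ (Fintype.card C : ℝ) := by
  unfold bO
  exact_mod_cast Finset.card_le_univ _

theorem bO_close (G : SimpleGraph V) (U : Finset V) (L : V → Finset C)
    {f : V → C} {x : V} {φ : V → Option C} (h : Near f x φ) (u : V) {κ : Finset V} {m : ℕ}
    (hκ : κ.card ≤ m) (c : C) :
    |bO G U L κ c φ u - ((av G U L f u).card : ℝ)| ≤ (m : ℝ) + 1 := by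
  have h1 := Finset.card_le_card (av_sub_avO h G U L κ u)
  have h2 := Finset.card_le_card (avO_sub h G U L κ u)
  have h3 := Finset.card_union_le (av G U L f u) ((insert x κ).image f)
  have h4 : ((insert x κ).image f).card ≤ (insert x κ).card := Finset.card_image_le
  have h5 := Finset.card_insert_le x κ
  have h6 := Finset.pred_card_le_card_erase (s := avO G U L κ φ u) (a := c)
  have h7 := Finset.card_erase_le (s := avO G U L κ φ u) (a := c)
  have h8 : (av G U L f u).card ≤ ((avO G U L κ φ u).erase c).card + (m + 1) := by omega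
  have h9 : ((avO G U L κ φ u).erase c).card ≤ (av G U L f u).card + (m + 1) := by omega
  have h10 : ((av G U L f u).card : ℝ) ≤ (((avO G U L κ φ u).erase c).card : ℝ) + (m + 1) := by
    exact_mod_cast h8
  have h11 : (((avO G U L κ φ u).erase c).card : ℝ) ≤ ((av G U L f u).card : ℝ) + (m + 1) := by
    exact_mod_cast h9
  unfold bO
  rw [abs_le]
  constructor <;> linarith

/-- product of numbers close to `1` -/
theorem prod_close {R : ℝ} (hR : 1 ≤ R) (κ : Finset V) (r : V → ℝ)
    (h : ∀ u ∈ κ, |r u| ≤ R) : |1 - ∏ u ∈ κ, r u| ≤ R ^ κ.card * ∑ u ∈ κ, |r u - 1| := by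
  induction κ using Finset.induction_on with
  | empty => simp
  | insert v κ hv ih =>
    have ih' := ih fun u hu => h u (Finset.mem_insert_of_mem hu)
    have hr := h v (Finset.mem_insert_self v κ)
    rw [Finset.prod_insert hv, Finset.sum_insert hv, Finset.card_insert_of_notMem hv]
    have e : 1 - r v * ∏ u ∈ κ, r u = r v * (1 - ∏ u ∈ κ, r u) + (1 - r v) := by ring
    have hS : 0 ≤ ∑ u ∈ κ, |r u - 1| := Finset.sum_nonneg fun u _ => abs_nonneg _
    have hR0 : 0 ≤ R := by linarith
    have hp : 1 ≤ R ^ (κ.card + 1) := one_le_pow₀ hR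
    rw [e]
    refine (abs_add_le _ _).trans ?_
    rw [abs_mul, abs_sub_comm 1 (r v)]
    calc |r v| * |1 - ∏ u ∈ κ, r u| + |r v - 1|
        ≤ R * (R ^ κ.card * ∑ u ∈ κ, |r u - 1|) + 1 * |r v - 1| := by
          rw [one_mul]
          gcongr
      _ ≤ R * (R ^ κ.card * ∑ u ∈ κ, |r u - 1|) + R ^ (κ.card + 1) * |r v - 1| := by gcongr
      _ = R ^ (κ.card + 1) * (|r v - 1| + ∑ u ∈ κ, |r u - 1|) := by ring

/-- one quotient -/
theorem quot {s q ε b b' : ℝ} (hε : 0 < ε) (hq : 0 < q) (hs : ε * q ≤ s) (hb : s / 2 ≤ b)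
    (hb' : s / 2 ≤ b') (hbq : b ≤ q) : |b / b'| ≤ 2 / ε + 1 ∧
      |b / b' - 1| ≤ 2 / ε * (|b - b'| / q) := by
  have hs0 : 0 < s := (by positivity : 0 < ε * q).trans_le hs
  have hb0 : 0 < b := by linarith
  have hb0' : 0 < b' := by linarith
  have hinv : 1 / b' ≤ 2 / ε * (1 / q) := by
    have : ε * q / 2 ≤ b' := by linarith
    calc 1 / b' ≤ 1 / (ε * q / 2) := one_div_le_one_div_of_le (by positivity) this
      _ = 2 / ε * (1 / q) := by field_simp
  constructor
  · rw [abs_of_pos (by positivity)]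
    calc b / b' = b * (1 / b') := by ring
      _ ≤ q * (2 / ε * (1 / q)) := by gcongr
      _ = 2 / ε := by field_simp
      _ ≤ 2 / ε + 1 := by linarith
  · have e : b / b' - 1 = (b - b') * (1 / b') := by field_simp
    rw [e, abs_mul, abs_of_pos (by positivity : 0 < 1 / b')]
    calc |b - b'| * (1 / b') ≤ |b - b'| * (2 / ε * (1 / q)) := by gcongr
      _ = 2 / ε * (|b - b'| / q) := by ring

theorem Lam_nonneg (G : SimpleGraph V) (U : Finset V) (L : V → Finset C) (κ : Finset V)
    (f f' : V → C) : 0 ≤ Lam G U L κ f f' := by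
  unfold Lam
  exact div_nonneg (Finset.sum_nonneg fun u _ => abs_nonneg _) (Nat.cast_nonneg _)

theorem main {ε : ℝ} {m : ℕ} {G : SimpleGraph V} {U : Finset V} {L : V → Finset C} {s : ℕ}
    (hR : Reg ε G U L s) (c : C) {κ : Finset V} (hκ : κ ⊆ U) (hm : κ.card ≤ m) {f f' : V → C}
    {x x' : V} {φ φ' : V → Option C} (hφ : Near f x φ) (hφ' : Near f' x' φ') :
    |1 - ro G U L c κ φ φ'| ≤
      (2 / ε + 1) ^ m * (2 / ε) * (1 + 2 * m * (m + 1)) *
        (Lam G U L κ f f' + 1 / (Fintype.card C : ℝ)) := by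
  obtain ⟨hε, hεs, hG⟩ := hR
  have hLam := Lam_nonneg G U L κ f f'
  rcases κ.eq_empty_or_nonempty with h0 | ⟨v, hv⟩
  · have : ro G U L c κ φ φ' = 1 := by unfold ro; rw [h0]; simp
    rw [this, sub_self, abs_zero]
    positivity
  have hq0 : 0 < Fintype.card C := by
    have h1 := card_nb_le_card hG (hκ hv)
    have h2 := hG.1
    omega
  have hq : (0 : ℝ) < Fintype.card C := by exact_mod_cast hq0
  set q : ℝ := (Fintype.card C : ℝ) with hqdef
  set r : V → ℝ := fun u => if φ u = some c then bO G U L κ c φ u / bO G U L κ c φ' u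
    else bO G U L κ c φ' u / bO G U L κ c φ u with hr
  have hro : ro G U L c κ φ φ' = ∏ u ∈ κ, r u := rfl
  have key : ∀ u ∈ κ, |r u| ≤ 2 / ε + 1 ∧ |r u - 1| ≤
      2 / ε * (|bO G U L κ c φ u - bO G U L κ c φ' u| / q) := by
    intro u hu
    have b1 := bO_ge hG hφ (hκ hu) κ c
    have b2 := bO_ge hG hφ' (hκ hu) κ c
    have b3 := bO_le_card G U L κ c φ u
    have b4 := bO_le_card G U L κ c φ' u
    rw [hr]
    dsimp only
    split_ifs
    · exact quot hε hq hεs b1 b2 b3
    · rw [abs_sub_comm (bO G U L κ c φ u)]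
      exact quot hε hq hεs b2 b1 b4
  have hR1 : 1 ≤ 2 / ε + 1 := by
    have : 0 < 2 / ε := by positivity
    linarith
  have h1 := prod_close hR1 κ r fun u hu => (key u hu).1
  have h2 : ∑ u ∈ κ, |r u - 1| ≤
      ∑ u ∈ κ, 2 / ε * ((|((av G U L f u).card : ℝ) - ((av G U L f' u).card : ℝ)| +
        2 * (m + 1)) / q) := by
    refine Finset.sum_le_sum fun u hu => (key u hu).2.trans ?_
    have c1 := bO_close G U L hφ u hm c
    have c2 := bO_close G U L hφ' u hm c
    have c3 : |bO G U L κ c φ u - bO G U L κ c φ' u| ≤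
        |((av G U L f u).card : ℝ) - ((av G U L f' u).card : ℝ)| + 2 * (m + 1) := by
      have e : bO G U L κ c φ u - bO G U L κ c φ' u =
          (((av G U L f u).card : ℝ) - ((av G U L f' u).card : ℝ)) +
          ((bO G U L κ c φ u - ((av G U L f u).card : ℝ)) -
            (bO G U L κ c φ' u - ((av G U L f' u).card : ℝ))) := by ring
      rw [e]
      refine (abs_add_le _ _).trans ?_
      have := abs_sub (bO G U L κ c φ u - ((av G U L f u).card : ℝ))
            (bO G U L κ c φ' u - ((av G U L f' u).card : ℝ))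
      linarith
    gcongr
  have h3 : ∑ u ∈ κ, 2 / ε * ((|((av G U L f u).card : ℝ) - ((av G U L f' u).card : ℝ)| +
        2 * (m + 1)) / q) = 2 / ε * (Lam G U L κ f f' + κ.card * (2 * (m + 1)) / q) := by
    unfold Lam
    rw [← Finset.mul_sum, ← Finset.sum_div, Finset.sum_add_distrib, Finset.sum_const,
      nsmul_eq_mul]
    ring
  have hm' : (κ.card : ℝ) ≤ m := by exact_mod_cast hm
  have h4 : 2 / ε * (Lam G U L κ f f' + κ.card * (2 * (m + 1)) / q) ≤
      2 / ε * ((1 + 2 * m * (m + 1)) * (Lam G U L κ f f' + 1 / q)) := by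
    refine mul_le_mul_of_nonneg_left ?_ (by positivity)
    have i1 : κ.card * (2 * (m + 1)) / q ≤ m * (2 * ((m : ℝ) + 1)) / q := by gcongr
    have i2 : (1 + 2 * m * ((m : ℝ) + 1)) * (Lam G U L κ f f' + 1 / q) =
        Lam G U L κ f f' + m * (2 * ((m : ℝ) + 1)) / q + 1 / q +
          (2 * m * (m + 1)) * Lam G U L κ f f' := by ring
    have i3 : 0 ≤ 1 / q := by positivity
    have i4 : 0 ≤ (2 * m * ((m : ℝ) + 1)) * Lam G U L κ f f' := by positivity
    linarith
  have hS : 0 ≤ ∑ u ∈ κ, |r u - 1| := Finset.sum_nonneg fun u _ => abs_nonneg _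
  rw [hro]
  calc |1 - ∏ u ∈ κ, r u| ≤ (2 / ε + 1) ^ κ.card * ∑ u ∈ κ, |r u - 1| := h1
    _ ≤ (2 / ε + 1) ^ m * ∑ u ∈ κ, |r u - 1| := by
        refine mul_le_mul_of_nonneg_right ?_ hS
        exact pow_le_pow_right₀ hR1 hm
    _ ≤ (2 / ε + 1) ^ m * (2 / ε * ((1 + 2 * m * (m + 1)) * (Lam G U L κ f f' + 1 / q))) := by
        refine mul_le_mul_of_nonneg_left ?_ (by positivity)
        exact h2.trans (h3.le.trans h4)
    _ = _ := by ring

end CRho1Aux

open CRho1Aux

theorem cRho1_proof : CRho1 := by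
  intro ε m hε
  refine ⟨(2 / ε + 1) ^ m * (2 / ε) * (1 + 2 * m * (m + 1)), by positivity, ?_⟩
  intro V C _ _ G U L s c κ x f f' hR hκ hm
  exact ⟨main hR c hκ hm (near_so f x) (near_so f' x),
    main hR c hκ hm (near_sx f x) (near_so f' x)⟩

end Pool.Agent.Ex26
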