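import Pool.Agent.Lib.MP_26a019_lc.Ex.CSpec

set_option autoImplicit false
set_option linter.unusedSectionVars false

/-!
# Part C: linearisation of a product of quotients
-/

open Finset Classical

namespace Pool.Agent.Ex26

open Pool.Agent.Kempe Pool.Agent.KempeMix Pool.Agent.Eps26

namespace CRho2Aux

/-- expansion of a product -/
lemma prod_lin {ι : Type} (δ : ℝ) (hδ : 0 ≤ δ) (g : ι → ℝ) (A : Finset ι) :
    (∀ i ∈ A, |g i - 1| ≤ δ) →
    |∏ i ∈ A, g i - 1| ≤ A.card * δ * (1 + δ) ^ A.card ∧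
    |∏ i ∈ A, g i - 1 - ∑ i ∈ A, (g i - 1)| ≤ (A.card : ℝ) ^ 2 * δ ^ 2 * (1 + δ) ^ A.card := by
  induction A using Finset.induction_on with
  | empty => intro _; simp
  | insert a A ha ih =>
    intro h
    obtain ⟨h1, h2⟩ := ih (fun i hi => h i (Finset.mem_insert_of_mem hi))
    have h3 := h a (Finset.mem_insert_self a A)
    rw [Finset.prod_insert ha, Finset.sum_insert ha, Finset.card_insert_of_notMem ha]
    set P := ∏ i ∈ A, g i with hP
    set Sg1 := ∑ i ∈ A, (g i - 1) with hSg
    set N : ℝ := (A.card : ℝ) with hN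
    have hN0 : 0 ≤ N := Nat.cast_nonneg _
    have hp : 1 ≤ (1 + δ) ^ A.card := one_le_pow₀ (by linarith)
    have hcast : ((A.card + 1 : ℕ) : ℝ) = N + 1 := by push_cast; rfl
    rw [hcast]
    have hg : |g a| ≤ 1 + δ := by
      have : |g a| ≤ |g a - 1| + |(1 : ℝ)| := by
        have := abs_add_le (g a - 1) 1
        simpa using this
      rw [abs_one] at this
      linarith
    have hpp : (1 + δ) ^ (A.card + 1) = (1 + δ) ^ A.card * (1 + δ) := pow_succ _ _
    set E := (1 + δ) ^ A.card with hE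
    rw [hpp]
    constructor
    · have e1 : g a * P - 1 = g a * (P - 1) + (g a - 1) := by ring
      rw [e1]
      have e2 : |g a * (P - 1) + (g a - 1)| ≤ |g a| * |P - 1| + |g a - 1| := by
        rw [← abs_mul]; exact abs_add_le _ _
      have e3 : |g a| * |P - 1| ≤ (1 + δ) * (N * δ * E) :=
        mul_le_mul hg h1 (abs_nonneg _) (by linarith)
      have e4 : δ ≤ δ * (E * (1 + δ)) := by
        have : 1 ≤ E * (1 + δ) := by nlinarith
        nlinarith
      nlinarith
    · have e1 : g a * P - 1 - (g a - 1 + Sg1) = (P - 1 - Sg1) + (g a - 1) * (P - 1) := by ring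
      rw [e1]
      have e2 : |(P - 1 - Sg1) + (g a - 1) * (P - 1)| ≤ |P - 1 - Sg1| + |g a - 1| * |P - 1| := by
        rw [← abs_mul]; exact abs_add_le _ _
      have e3 : |g a - 1| * |P - 1| ≤ δ * (N * δ * E) :=
        mul_le_mul h3 h1 (abs_nonneg _) hδ
      have e4 : N ^ 2 * δ ^ 2 * E + δ * (N * δ * E) ≤ (N + 1) ^ 2 * δ ^ 2 * E := by
        have : 0 ≤ δ ^ 2 * E * (N + 1) := by positivity
        nlinarith
      have e5 : (N + 1) ^ 2 * δ ^ 2 * E ≤ (N + 1) ^ 2 * δ ^ 2 * (E * (1 + δ)) := by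
        apply mul_le_mul_of_nonneg_left _ (by positivity)
        nlinarith
      linarith

variable {V C : Type} [Fintype V] [Fintype C]

lemma avO_so (G : SimpleGraph V) (U : Finset V) (L : V → Finset C) (X : Finset V) (f : V → C)
    (u : V) : avO G U L X (so f) u = avX G U L X f u := by
  ext c
  unfold avO
  rw [Finset.mem_filter, mem_avX]
  simp only [so, ne_eq, Option.some.injEq]

lemma avO_sx (G : SimpleGraph V) (U : Finset V) (L : V → Finset C) (X : Finset V) (x : V)
    (f : V → C) (u : V) : avO G U L X (sx x f) u = avX G U L (insert x X) f u := by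
  ext c
  unfold avO
  rw [Finset.mem_filter, mem_avX]
  constructor
  · rintro ⟨h1, h2⟩
    refine ⟨h1, fun w hw hwX hfw => ?_⟩
    rw [Finset.mem_insert, not_or] at hwX
    apply h2 w hw hwX.2
    simp only [sx, if_neg hwX.1, hfw]
  · rintro ⟨h1, h2⟩
    refine ⟨h1, fun w hw hwX hfw => ?_⟩
    by_cases hwx : w = x
    · simp [sx, hwx] at hfw
    · simp only [sx, if_neg hwx, Option.some.injEq] at hfw
      exact h2 w hw (by rw [Finset.mem_insert, not_or]; exact ⟨hwx, hwX⟩) hfw

/-- adding one vertex to the forbidding ones -/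
lemma avX_insert {G : SimpleGraph V} {U : Finset V} {L : V → Finset C} {X : Finset V} {x : V}
    (hx : x ∉ X) (f : V → C) (u : V) :
    avX G U L X f u = if x ∈ nb G U u then (avX G U L (insert x X) f u).erase (f x)
      else avX G U L (insert x X) f u := by
  by_cases h : x ∈ nb G U u
  · rw [if_pos h]
    ext c
    rw [mem_avX, Finset.mem_erase, mem_avX]
    constructor
    · rintro ⟨h1, h2⟩
      refine ⟨fun e => h2 x h hx e.symm, h1, fun w hw hwX => h2 w hw ?_⟩
      exact fun hh => hwX (Finset.mem_insert_of_mem hh)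
    · rintro ⟨h0, h1, h2⟩
      refine ⟨h1, fun w hw hwX => ?_⟩
      by_cases hwx : w = x
      · rw [hwx]
        exact fun e => h0 e.symm
      · exact h2 w hw (by rw [Finset.mem_insert, not_or]; exact ⟨hwx, hwX⟩)
  · rw [if_neg h]
    ext c
    rw [mem_avX, mem_avX]
    constructor
    · rintro ⟨h1, h2⟩
      exact ⟨h1, fun w hw hwX => h2 w hw (fun hh => hwX (Finset.mem_insert_of_mem hh))⟩
    · rintro ⟨h1, h2⟩
      refine ⟨h1, fun w hw hwX => h2 w hw ?_⟩
      rw [Finset.mem_insert, not_or]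
      refine ⟨?_, hwX⟩
      rintro rfl
      exact h hw

/-- the indicator `ι_u` -/
noncomputable def io1 (G : SimpleGraph V) (U : Finset V) (L : V → Finset C) (κ : Finset V) (x : V)
    (f : V → C) (u : V) : ℝ :=
  if x ∈ nb G U u ∧ f x ∈ avX G U L (insert x κ) f u then 1 else 0

lemma io1_nonneg (G : SimpleGraph V) (U : Finset V) (L : V → Finset C) (κ : Finset V) (x : V)
    (f : V → C) (u : V) : 0 ≤ io1 G U L κ x f u := by
  unfold io1; split_ifs <;> norm_num

lemma io1_le_one (G : SimpleGraph V) (U : Finset V) (L : V → Finset C) (κ : Finset V) (x : V)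
    (f : V → C) (u : V) : io1 G U L κ x f u ≤ 1 := by
  unfold io1; split_ifs <;> norm_num

lemma bO_rel {G : SimpleGraph V} {U : Finset V} {L : V → Finset C} {κ : Finset V} {x : V}
    (hx : x ∉ κ) {c : C} {f : V → C} (ha : f x ≠ c) (u : V) :
    bO G U L κ c (so f) u = bO G U L κ c (sx x f) u - io1 G U L κ x f u := by
  unfold bO io1
  rw [avO_so, avO_sx, avX_insert hx f u]
  by_cases h : x ∈ nb G U u
  · rw [if_pos h]
    by_cases h2 : f x ∈ avX G U L (insert x κ) f u
    · rw [if_pos ⟨h, h2⟩, Finset.erase_right_comm]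
      have h3 : f x ∈ (avX G U L (insert x κ) f u).erase c := Finset.mem_erase.2 ⟨ha, h2⟩
      have h4 := Finset.card_erase_add_one h3
      have h5 : (((avX G U L (insert x κ) f u).erase c).card : ℝ) =
          ((((avX G U L (insert x κ) f u).erase c).erase (f x)).card : ℝ) + 1 := by
        exact_mod_cast h4.symm
      rw [h5]
      ring
    · rw [if_neg (fun hh => h2 hh.2), Finset.erase_eq_of_notMem h2, sub_zero]
  · rw [if_neg h, if_neg (fun hh => h hh.1), sub_zero]

/-- lower bound for the erased sets -/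
lemma card_erase_ge {G : SimpleGraph V} {U : Finset V} {L : V → Finset C} {s : ℕ}
    (hG : Good G U L s) {u : V} (hu : u ∈ U) (X : Finset V) (f : V → C) (c : C) :
    (s : ℝ) / 2 ≤ (((avX G U L X f u).erase c).card : ℝ) := by
  have h1 := card_avX_ge hG hu X f
  have h2 := Finset.pred_card_le_card_erase (s := avX G U L X f u) (a := c)
  have h3 : s ≤ ((avX G U L X f u).erase c).card + 1 := by omega
  have h4 : (s : ℝ) ≤ (((avX G U L X f u).erase c).card : ℝ) + 1 := by exact_mod_cast h3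
  have h5 : (2 : ℝ) ≤ s := by exact_mod_cast hG.1
  linarith

/-- the sets of available colours differ by at most `|κ| + 1` colours -/
lemma card_diff (G : SimpleGraph V) (U : Finset V) (L : V → Finset C) (κ : Finset V) (x : V)
    (f : V → C) (u : V) (c : C) :
    |(((avX G U L (insert x κ) f u).erase c).card : ℝ) - ((avX G U L {x} f u).card : ℝ)| ≤
      (κ.card : ℝ) + 1 := by
  have h1 : avX G U L {x} f u ⊆ avX G U L (insert x κ) f u :=
    avX_mono G U L (Finset.singleton_subset_iff.2 (Finset.mem_insert_self x κ)) f u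
  have h2 : avX G U L (insert x κ) f u ⊆ avX G U L {x} f u ∪ κ.image f := by
    intro c' hc'
    rw [Finset.mem_union]
    by_cases h : c' ∈ avX G U L {x} f u
    · exact Or.inl h
    · right
      rw [mem_avX] at hc' h
      push Not at h
      obtain ⟨w, hw, hwx, hfw⟩ := h hc'.1
      rw [Finset.mem_image]
      refine ⟨w, ?_, hfw⟩
      by_contra hwκ
      refine hc'.2 w hw ?_ hfw
      rw [Finset.mem_insert, not_or]
      exact ⟨fun e => hwx (Finset.mem_singleton.2 e), hwκ⟩
  have h3 := Finset.card_le_card h1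
  have h4 := (Finset.card_le_card h2).trans (Finset.card_union_le _ _)
  have h5 : (κ.image f).card ≤ κ.card := Finset.card_image_le
  have h6 := Finset.pred_card_le_card_erase (s := avX G U L (insert x κ) f u) (a := c)
  have h7 := Finset.card_le_card (Finset.erase_subset c (avX G U L (insert x κ) f u))
  rw [abs_le]
  constructor
  · have : (avX G U L {x} f u).card ≤ ((avX G U L (insert x κ) f u).erase c).card + (κ.card + 1) := by
      omega
    have : ((avX G U L {x} f u).card : ℝ) ≤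
        (((avX G U L (insert x κ) f u).erase c).card : ℝ) + (κ.card + 1) := by exact_mod_cast this
    linarith
  · have : ((avX G U L (insert x κ) f u).erase c).card ≤ (avX G U L {x} f u).card + (κ.card + 1) := by
      omega
    have : (((avX G U L (insert x κ) f u).erase c).card : ℝ) ≤
        ((avX G U L {x} f u).card : ℝ) + (κ.card + 1) := by exact_mod_cast this
    linarith

lemma io_nonneg (c : C) (κ : Finset V) (x : V) (f : V → C) : 0 ≤ io c κ x f := by
  unfold io; split_ifs <;> norm_num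

/-- the difference of the two indicators -/
lemma ind_diff {G : SimpleGraph V} {U : Finset V} {L : V → Finset C} {κ : Finset V} {x : V}
    {c : C} {f : V → C} (ha : f x ≠ c) {u : V} (hxu : x ∈ nb G U u) :
    |io1 G U L κ x f u - (if f x ∈ avX G U L {x} f u then (1 : ℝ) else 0)| ≤ io c κ x f := by
  unfold io1
  by_cases h1 : f x ∈ avX G U L (insert x κ) f u
  · rw [if_pos ⟨hxu, h1⟩]
    by_cases h2 : f x ∈ avX G U L {x} f u
    · rw [if_pos h2, sub_self, abs_zero]
      exact io_nonneg _ _ _ _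
    · rw [if_neg h2, sub_zero, abs_one]
      rw [mem_avX] at h1 h2
      push Not at h2
      obtain ⟨w, hw, hwx, hfw⟩ := h2 h1.1
      have hwκ : w ∈ κ := by
        by_contra hwκ
        refine h1.2 w hw ?_ hfw
        rw [Finset.mem_insert, not_or]
        exact ⟨fun e => hwx (Finset.mem_singleton.2 e), hwκ⟩
      unfold io
      rw [if_pos ⟨w, hwκ, by rw [hfw]; exact ha, hfw⟩]
  · rw [if_neg (fun hh => h1 hh.2)]
    have h2 : f x ∉ avX G U L {x} f u := fun hh => h1
      (avX_mono G U L (Finset.singleton_subset_iff.2 (Finset.mem_insert_self x κ)) f u hh)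
    rw [if_neg h2, sub_self, abs_zero]
    exact io_nonneg _ _ _ _

/-- `|t_u - al|` -/
lemma t_al {G : SimpleGraph V} {U : Finset V} {L : V → Finset C} {κ : Finset V} {x : V}
    {c : C} {f : V → C} {s : ℕ} (hG : Good G U L s) (ha : f x ≠ c) {u : V} (hu : u ∈ U)
    (hxu : x ∈ nb G U u) :
    |io1 G U L κ x f u / bO G U L κ c (sx x f) u - al G U L x u f| ≤
      io c κ x f * (2 / (s : ℝ)) + ((κ.card : ℝ) + 1) * (2 / (s : ℝ) ^ 2) := by
  have hs : (2 : ℝ) ≤ s := by exact_mod_cast hG.1
  have hb : (s : ℝ) / 2 ≤ bO G U L κ c (sx x f) u := by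
    unfold bO
    rw [avO_sx]
    exact card_erase_ge hG hu _ f c
  have hN : (s : ℝ) ≤ ((avX G U L {x} f u).card : ℝ) := by
    have := card_avX_ge hG hu {x} f
    have h2 : s ≤ (avX G U L {x} f u).card := by omega
    exact_mod_cast h2
  have hd : |bO G U L κ c (sx x f) u - ((avX G U L {x} f u).card : ℝ)| ≤ (κ.card : ℝ) + 1 := by
    unfold bO
    rw [avO_sx]
    exact card_diff G U L κ x f u c
  have hi := ind_diff (L := L) (κ := κ) ha hxu
  set b := bO G U L κ c (sx x f) u with hbdef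
  set N : ℝ := ((avX G U L {x} f u).card : ℝ) with hNdef
  set ι := io1 G U L κ x f u with hι
  set ι' : ℝ := (if f x ∈ avX G U L {x} f u then (1 : ℝ) else 0) with hι'
  have hb0 : 0 < b := by linarith
  have hN0 : 0 < N := by linarith
  have hal : al G U L x u f = ι' / N := by
    unfold al
    simp only [hι']
    split_ifs
    · rfl
    · simp
  have hι'1 : |ι'| ≤ 1 := by
    simp only [hι']
    split_ifs <;> simp
  rw [hal]
  have e1 : ι / b - ι' / N = (ι - ι') / b + ι' * ((N - b) / (b * N)) := by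
    field_simp
    ring
  rw [e1]
  refine (abs_add_le _ _).trans ?_
  have e2 : |(ι - ι') / b| ≤ io c κ x f * (2 / (s : ℝ)) := by
    rw [abs_div, abs_of_pos hb0, div_le_iff₀ hb0]
    have h3 : 1 ≤ 2 / (s : ℝ) * b := by
      rw [div_mul_eq_mul_div, le_div_iff₀ (by linarith)]
      linarith
    have h4 := io_nonneg c κ x f
    calc |ι - ι'| ≤ io c κ x f * 1 := by rw [mul_one]; exact hi
      _ ≤ io c κ x f * (2 / (s : ℝ) * b) := mul_le_mul_of_nonneg_left h3 h4
      _ = _ := by ring
  have e3 : |ι' * ((N - b) / (b * N))| ≤ ((κ.card : ℝ) + 1) * (2 / (s : ℝ) ^ 2) := by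
    rw [abs_mul, abs_div, abs_of_pos (mul_pos hb0 hN0), abs_sub_comm]
    have h5 : (s : ℝ) ^ 2 / 2 ≤ b * N := by
      have := mul_le_mul hb hN (by linarith) hb0.le
      nlinarith
    have h6 : |b - N| / (b * N) ≤ ((κ.card : ℝ) + 1) * (2 / (s : ℝ) ^ 2) := by
      rw [div_le_iff₀ (mul_pos hb0 hN0)]
      have h7 : 1 ≤ 2 / (s : ℝ) ^ 2 * (b * N) := by
        rw [div_mul_eq_mul_div, le_div_iff₀ (by positivity)]
        linarith
      have h8 : (0 : ℝ) ≤ (κ.card : ℝ) + 1 := by positivity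
      calc |b - N| ≤ ((κ.card : ℝ) + 1) * 1 := by rw [mul_one]; exact hd
        _ ≤ ((κ.card : ℝ) + 1) * (2 / (s : ℝ) ^ 2 * (b * N)) := mul_le_mul_of_nonneg_left h7 h8
        _ = _ := by ring
    calc |ι'| * (|b - N| / (b * N)) ≤ 1 * (|b - N| / (b * N)) :=
          mul_le_mul_of_nonneg_right hι'1 (by positivity)
      _ ≤ _ := by rw [one_mul]; exact h6
  linarith

end CRho2Aux

open CRho2Aux

/-- linearisation of a product of quotients -/
theorem cRho2_proof : CRho2 := by
  intro hR1 ε m hε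
  obtain ⟨K1, hK1, hR⟩ := hR1 ε m hε
  set C1 : ℝ := (m : ℝ) ^ 2 * (1 + 2 / ε) ^ m + m with hC1
  have hC1nn : 0 ≤ C1 := by positivity
  refine ⟨2 * m * K1 / ε + (1 + K1 * (m + 1)) * (C1 * (4 / ε ^ 2)) + 2 * m / ε +
    2 * m * (m + 1) / ε ^ 2, by positivity, ?_⟩
  intro V C _ _ G U L s c κ x f f' hreg hκ hκm hxU hxκ hfx
  obtain ⟨-, hεq, hG⟩ := hreg
  have hκU : κ ⊆ U := fun u hu => (Finset.mem_filter.1 (hκ hu)).1
  set Q : ℝ := (Fintype.card C : ℝ) with hQ
  have hQ0 : 0 ≤ Q := Nat.cast_nonneg _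
  have hLam0 : 0 ≤ Lam G U L κ f f' := by
    unfold Lam
    exact div_nonneg (Finset.sum_nonneg fun _ _ => abs_nonneg _) hQ0
  have hio0 := io_nonneg c κ x f
  rcases κ.eq_empty_or_nonempty with rfl | ⟨u0, hu0⟩
  · have h1 : ro G U L c ∅ (sx x f) (so f') = 1 := by simp [ro]
    have h2 : ro G U L c ∅ (so f) (so f') = 1 := by simp [ro]
    rw [h1, h2]
    simp only [Finset.empty_inter, Finset.sum_empty, sub_self, abs_zero]
    positivity
  have hS2 : (2 : ℝ) ≤ s := by exact_mod_cast hG.1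
  have hsQ : (s : ℝ) ≤ Q := by
    have h1 := card_nb_le_card hG (hκU hu0)
    have h2 : s ≤ Fintype.card C := by omega
    rw [hQ]; exact_mod_cast h2
  have hQ2 : 2 ≤ Q := by linarith
  have hQpos : 0 < Q := by linarith
  have hεQ : 0 < ε * Q := mul_pos hε hQpos
  set δ : ℝ := 2 / (ε * Q) with hδ
  have hδ0 : 0 ≤ δ := by positivity
  have hδs : 2 / (s : ℝ) ≤ δ := by
    rw [hδ]
    exact div_le_div_of_nonneg_left (by norm_num) hεQ hεq
  have hδε : δ ≤ 2 / ε := by
    rw [hδ]
    apply div_le_div_of_nonneg_left (by norm_num) hε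
    nlinarith
  have hNm : (κ.card : ℝ) ≤ m := by exact_mod_cast hκm
  -- names
  set bx : V → ℝ := fun u => bO G U L κ c (sx x f) u with hbx
  set b : V → ℝ := fun u => bO G U L κ c (so f) u with hb
  set ι : V → ℝ := fun u => io1 G U L κ x f u with hι
  set t : V → ℝ := fun u => ι u / bx u with ht
  set g : V → ℝ := fun u => if f u = c then b u / bx u else bx u / b u with hg
  set σ : V → ℝ := fun u => sg c (so f) (so f') u with hσ
  have hbrel : ∀ u, b u = bx u - ι u := fun u => bO_rel hxκ hfx u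
  have hbxge : ∀ u ∈ κ, (s : ℝ) / 2 ≤ bx u := by
    intro u hu
    simp only [hbx]
    unfold bO
    rw [avO_sx]
    exact card_erase_ge hG (hκU hu) _ f c
  have hbge : ∀ u ∈ κ, (s : ℝ) / 2 ≤ b u := by
    intro u hu
    simp only [hb]
    unfold bO
    rw [avO_so]
    exact card_erase_ge hG (hκU hu) _ f c
  have hι0 : ∀ u, 0 ≤ ι u := fun u => io1_nonneg _ _ _ _ _ _ _
  have hι1 : ∀ u, ι u ≤ 1 := fun u => io1_le_one _ _ _ _ _ _ _
  have hdivle : ∀ (u : V) (y : ℝ), (s : ℝ) / 2 ≤ y → 0 ≤ ι u / y ∧ ι u / y ≤ δ := by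
    intro u y hy
    have hy0 : 0 < y := by linarith
    refine ⟨div_nonneg (hι0 u) hy0.le, ?_⟩
    refine le_trans ?_ hδs
    rw [div_le_iff₀ hy0]
    have h3 : 1 ≤ 2 / (s : ℝ) * y := by
      rw [div_mul_eq_mul_div, le_div_iff₀ (by linarith)]
      linarith
    linarith [hι1 u]
  have ht0 : ∀ u ∈ κ, 0 ≤ t u ∧ t u ≤ δ := fun u hu => hdivle u _ (hbxge u hu)
  -- signs
  have hσ1 : ∀ u ∈ κ, (f u = c → σ u = 1) ∧ (f u ≠ c → σ u = -1) := by
    intro u hu
    have h1 := (Finset.mem_filter.1 (hκ hu)).2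
    simp only [hσ, sg, so, Option.some.injEq]
    constructor
    · intro h
      have h2 : f' u ≠ c := fun h' => h1 ⟨fun _ => h', fun _ => h⟩
      rw [if_pos h, if_neg h2, sub_zero]
    · intro h
      have h2 : f' u = c := by
        by_contra h'
        exact h1 ⟨fun hh => absurd hh h, fun hh => absurd hh h'⟩
      rw [if_neg h, if_pos h2, zero_sub]
  have hσabs : ∀ u ∈ κ, |σ u| = 1 := by
    intro u hu
    by_cases h : f u = c
    · rw [(hσ1 u hu).1 h, abs_one]
    · rw [(hσ1 u hu).2 h, abs_neg, abs_one]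
  -- the factors
  have hg1 : ∀ u ∈ κ, |g u - 1| ≤ δ ∧ |g u - 1 + σ u * t u| ≤ δ ^ 2 := by
    intro u hu
    have hbx0 : 0 < bx u := by linarith [hbxge u hu]
    have hb0 : 0 < b u := by linarith [hbge u hu]
    by_cases h : f u = c
    · have e1 : g u = 1 - t u := by
        simp only [hg, if_pos h, hbrel u, ht]
        field_simp
      rw [e1, (hσ1 u hu).1 h]
      constructor
      · rw [sub_sub_cancel_left, abs_neg, abs_of_nonneg (ht0 u hu).1]
        exact (ht0 u hu).2
      · have : 1 - t u - 1 + 1 * t u = 0 := by ring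
        rw [this, abs_zero]
        positivity
    · have e1 : g u - 1 = ι u / b u := by
        simp only [hg, if_neg h]
        have : bx u = b u + ι u := by linarith [hbrel u]
        rw [this]
        field_simp
        ring
      have hd := hdivle u (b u) (hbge u hu)
      rw [e1, (hσ1 u hu).2 h]
      constructor
      · rw [abs_of_nonneg hd.1]
        exact hd.2
      · have e2 : ι u / b u + -1 * t u = (ι u / b u) * (t u) := by
          simp only [ht]
          have : bx u = b u + ι u := by linarith [hbrel u]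
          rw [this]
          have h3 : b u + ι u ≠ 0 := by rw [← this]; exact hbx0.ne'
          field_simp
          ring
        rw [e2, abs_mul, abs_of_nonneg hd.1, abs_of_nonneg (ht0 u hu).1, sq]
        exact mul_le_mul hd.2 (ht0 u hu).2 (ht0 u hu).1 hδ0
  -- product
  have hro : ro G U L c κ (so f) (so f') = ro G U L c κ (sx x f) (so f') * ∏ u ∈ κ, g u := by
    unfold ro
    rw [← Finset.prod_mul_distrib]
    refine Finset.prod_congr rfl fun u hu => ?_
    have hux : u ≠ x := fun e => hxκ (e ▸ hu)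
    have hbx0 : 0 < bx u := by linarith [hbxge u hu]
    have hb0 : 0 < b u := by linarith [hbge u hu]
    have e1 : (sx x f u = some c) ↔ f u = c := by
      simp only [sx, if_neg hux, Option.some.injEq]
    have e2 : (so f u = some c) ↔ f u = c := by simp only [so, Option.some.injEq]
    by_cases h : f u = c
    · rw [if_pos (e2.2 h), if_pos (e1.2 h)]
      simp only [hg, if_pos h]
      change b u / _ = bx u / _ * (b u / bx u)
      rw [div_mul_div_comm, mul_comm (bx u) (b u), mul_div_mul_right _ _ hbx0.ne']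
    · rw [if_neg (fun hh => h (e2.1 hh)), if_neg (fun hh => h (e1.1 hh))]
      simp only [hg, if_neg h]
      change _ / b u = _ / bx u * (bx u / b u)
      rw [div_mul_div_cancel₀ hbx0.ne']
  set R : ℝ := ro G U L c κ (sx x f) (so f') with hRdef
  set P : ℝ := ∏ u ∈ κ, g u with hP
  set T : ℝ := ∑ u ∈ κ, σ u * t u with hT
  -- expansion
  have hP1 : |P - 1 + T| ≤ C1 * δ ^ 2 := by
    have h1 := (prod_lin δ hδ0 g κ (fun u hu => (hg1 u hu).1)).2
    have h2 : |∑ u ∈ κ, (g u - 1 + σ u * t u)| ≤ (κ.card : ℝ) * δ ^ 2 := by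
      refine (Finset.abs_sum_le_sum_abs _ _).trans ?_
      have := Finset.sum_le_card_nsmul κ (fun u => |g u - 1 + σ u * t u|) (δ ^ 2)
        (fun u hu => (hg1 u hu).2)
      rwa [nsmul_eq_mul] at this
    rw [Finset.sum_add_distrib] at h2
    have h3 : P - 1 + T = (P - 1 - ∑ u ∈ κ, (g u - 1)) + (∑ u ∈ κ, (g u - 1) + T) := by ring
    rw [h3]
    refine (abs_add_le _ _).trans ?_
    have h4 : (κ.card : ℝ) ^ 2 * δ ^ 2 * (1 + δ) ^ κ.card ≤
        (m : ℝ) ^ 2 * δ ^ 2 * (1 + 2 / ε) ^ m := by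
      have h5 : (κ.card : ℝ) ^ 2 ≤ (m : ℝ) ^ 2 := pow_le_pow_left₀ (Nat.cast_nonneg _) hNm 2
      have h6 : (1 + δ) ^ κ.card ≤ (1 + 2 / ε) ^ m :=
        (pow_le_pow_left₀ (by linarith) (by linarith) _).trans
          (pow_le_pow_right₀ (by have : 0 < 2 / ε := by positivity
                                 linarith) hκm)
      exact mul_le_mul (mul_le_mul_of_nonneg_right h5 (sq_nonneg _)) h6 (by positivity)
        (by positivity)
    have h7 : (κ.card : ℝ) * δ ^ 2 ≤ (m : ℝ) * δ ^ 2 :=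
      mul_le_mul_of_nonneg_right hNm (sq_nonneg _)
    have h8 : C1 * δ ^ 2 = (m : ℝ) ^ 2 * δ ^ 2 * (1 + 2 / ε) ^ m + (m : ℝ) * δ ^ 2 := by
      rw [hC1]; ring
    rw [h8]
    linarith
  have hTabs : |T| ≤ m * δ := by
    refine (Finset.abs_sum_le_sum_abs _ _).trans ?_
    have := Finset.sum_le_card_nsmul κ (fun u => |σ u * t u|) δ
      (fun u hu => by
        rw [abs_mul, hσabs u hu, one_mul, abs_of_nonneg (ht0 u hu).1]
        exact (ht0 u hu).2)
    rw [nsmul_eq_mul] at this
    exact this.trans (mul_le_mul_of_nonneg_right hNm hδ0)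
  -- the bound for R
  have hRb : |1 - R| ≤ K1 * (Lam G U L κ f f' + 1 / Q) :=
    (hR V C G U L s c κ x f f' ⟨hε, hεq, hG⟩ hκU hκm).2
  have hLamm : Lam G U L κ f f' ≤ m := by
    unfold Lam
    rw [div_le_iff₀ hQpos]
    have := Finset.sum_le_card_nsmul κ
      (fun u => |((av G U L f u).card : ℝ) - ((av G U L f' u).card : ℝ)|) Q
      (fun u _ => by
        have h1 : ((av G U L f u).card : ℝ) ≤ Q := by
          rw [hQ]; exact_mod_cast Finset.card_le_univ _
        have h2 : ((av G U L f' u).card : ℝ) ≤ Q := by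
          rw [hQ]; exact_mod_cast Finset.card_le_univ _
        have h3 : (0 : ℝ) ≤ ((av G U L f u).card : ℝ) := Nat.cast_nonneg _
        have h4 : (0 : ℝ) ≤ ((av G U L f' u).card : ℝ) := Nat.cast_nonneg _
        rw [abs_le]
        constructor <;> linarith)
    rw [nsmul_eq_mul] at this
    exact this.trans (mul_le_mul_of_nonneg_right hNm hQ0)
  have hinvQ : 1 / Q ≤ 1 := by
    rw [div_le_one hQpos]; linarith
  have hinvQ0 : 0 ≤ 1 / Q := by positivity
  have hRabs : |R| ≤ 1 + K1 * (m + 1) := by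
    have h1 : |R| ≤ |1 - R| + 1 := by
      have := abs_sub_abs_le_abs_sub R 1
      rw [abs_one, abs_sub_comm] at this
      linarith
    have h2 : K1 * (Lam G U L κ f f' + 1 / Q) ≤ K1 * (m + 1) :=
      mul_le_mul_of_nonneg_left (by linarith) hK1
    linarith
  -- the linear part
  have hTnb : T = ∑ u ∈ κ ∩ nb G U x, σ u * t u := by
    rw [hT]
    symm
    refine Finset.sum_subset Finset.inter_subset_left fun u hu hun => ?_
    have h1 : x ∉ nb G U u := by
      intro h
      apply hun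
      rw [Finset.mem_inter, mem_nb]
      exact ⟨hu, hκU hu, (mem_nb.1 h).2.symm⟩
    simp only [ht, hι, io1]
    rw [if_neg (fun hh => h1 hh.1)]
    simp
  have hlin : |T - ∑ u ∈ κ ∩ nb G U x, σ u * al G U L x u f| ≤
      m * (io c κ x f * δ + ((m : ℝ) + 1) * (2 / (s : ℝ) ^ 2)) := by
    rw [hTnb, ← Finset.sum_sub_distrib]
    refine (Finset.abs_sum_le_sum_abs _ _).trans ?_
    have h1 := Finset.sum_le_card_nsmul (κ ∩ nb G U x)
      (fun u => |σ u * t u - σ u * al G U L x u f|)
      (io c κ x f * δ + ((m : ℝ) + 1) * (2 / (s : ℝ) ^ 2))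
      (fun u hu => by
        rw [Finset.mem_inter] at hu
        have hxu : x ∈ nb G U u := mem_nb.2 ⟨hxU, (mem_nb.1 hu.2).2.symm⟩
        have h2 := t_al (κ := κ) hG hfx (hκU hu.1) hxu
        rw [← mul_sub, abs_mul, hσabs u hu.1, one_mul]
        refine h2.trans ?_
        have h3 : io c κ x f * (2 / (s : ℝ)) ≤ io c κ x f * δ :=
          mul_le_mul_of_nonneg_left hδs hio0
        have h4 : ((κ.card : ℝ) + 1) * (2 / (s : ℝ) ^ 2) ≤ ((m : ℝ) + 1) * (2 / (s : ℝ) ^ 2) :=
          mul_le_mul_of_nonneg_right (by linarith) (by positivity)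
        linarith)
    rw [nsmul_eq_mul] at h1
    refine h1.trans ?_
    have h5 : ((κ ∩ nb G U x).card : ℝ) ≤ m := by
      have : (κ ∩ nb G U x).card ≤ κ.card := Finset.card_le_card Finset.inter_subset_left
      have : ((κ ∩ nb G U x).card : ℝ) ≤ (κ.card : ℝ) := by exact_mod_cast this
      linarith
    exact mul_le_mul_of_nonneg_right h5 (by positivity)
  -- conclusion
  rw [hro]
  have hsplit : R - R * P - ∑ u ∈ κ ∩ nb G U x, σ u * al G U L x u f =
      (R - 1) * T - R * (P - 1 + T) + (T - ∑ u ∈ κ ∩ nb G U x, σ u * al G U L x u f) := by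
    ring
  have hgoal : |R - R * P - ∑ u ∈ κ ∩ nb G U x, σ u * al G U L x u f| ≤
      K1 * (Lam G U L κ f f' + 1 / Q) * (m * δ) + (1 + K1 * (m + 1)) * (C1 * δ ^ 2) +
        m * (io c κ x f * δ + ((m : ℝ) + 1) * (2 / (s : ℝ) ^ 2)) := by
    rw [hsplit]
    refine (abs_add_le _ _).trans ?_
    have h1 : |(R - 1) * T - R * (P - 1 + T)| ≤
        K1 * (Lam G U L κ f f' + 1 / Q) * (m * δ) + (1 + K1 * (m + 1)) * (C1 * δ ^ 2) := by
      refine (abs_sub _ _).trans ?_
      rw [abs_mul, abs_mul, abs_sub_comm R 1]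
      have h2 : |1 - R| * |T| ≤ K1 * (Lam G U L κ f f' + 1 / Q) * (m * δ) :=
        mul_le_mul hRb hTabs (abs_nonneg _) (mul_nonneg hK1 (by linarith))
      have h3 : |R| * |P - 1 + T| ≤ (1 + K1 * (m + 1)) * (C1 * δ ^ 2) :=
        mul_le_mul hRabs hP1 (abs_nonneg _) (by positivity)
      linarith
    linarith
  refine hgoal.trans ?_
  -- compare the constants
  have hs2 : 2 / (s : ℝ) ^ 2 ≤ 2 / (ε ^ 2 * Q ^ 2) := by
    apply div_le_div_of_nonneg_left (by norm_num) (by positivity)
    have : (ε * Q) ^ 2 ≤ (s : ℝ) ^ 2 := pow_le_pow_left₀ hεQ.le hεq 2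
    calc ε ^ 2 * Q ^ 2 = (ε * Q) ^ 2 := by ring
      _ ≤ _ := this
  have e1 : K1 * (Lam G U L κ f f' + 1 / Q) * (m * δ) =
      2 * m * K1 / ε * (1 / Q ^ 2 + Lam G U L κ f f' / Q) := by
    rw [hδ]
    field_simp
    ring
  have e2 : (1 + K1 * (m + 1)) * (C1 * δ ^ 2) =
      (1 + K1 * (m + 1)) * (C1 * (4 / ε ^ 2)) * (1 / Q ^ 2) := by
    rw [hδ]
    field_simp
    ring
  have e3 : (m : ℝ) * (io c κ x f * δ + ((m : ℝ) + 1) * (2 / (s : ℝ) ^ 2)) ≤
      2 * m / ε * (io c κ x f / Q) + 2 * m * (m + 1) / ε ^ 2 * (1 / Q ^ 2) := by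
    have h1 : (m : ℝ) * (io c κ x f * δ + ((m : ℝ) + 1) * (2 / (s : ℝ) ^ 2)) ≤
        (m : ℝ) * (io c κ x f * δ + ((m : ℝ) + 1) * (2 / (ε ^ 2 * Q ^ 2))) := by
      apply mul_le_mul_of_nonneg_left _ (Nat.cast_nonneg _)
      have := mul_le_mul_of_nonneg_left hs2 (by positivity : (0 : ℝ) ≤ (m : ℝ) + 1)
      linarith
    refine h1.trans (le_of_eq ?_)
    rw [hδ]
    field_simp
  rw [e1, e2]
  have hA : 0 ≤ 1 / Q ^ 2 := by positivity
  have hB : 0 ≤ Lam G U L κ f f' / Q := by positivity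
  have hD : 0 ≤ io c κ x f / Q := by positivity
  set A := 1 / Q ^ 2 with hAdef
  set B := Lam G U L κ f f' / Q with hBdef
  set D := io c κ x f / Q with hDdef
  set k1 : ℝ := 2 * m * K1 / ε with hk1
  set k2 : ℝ := (1 + K1 * (m + 1)) * (C1 * (4 / ε ^ 2)) with hk2
  set k3 : ℝ := 2 * m / ε with hk3
  set k4 : ℝ := 2 * m * (m + 1) / ε ^ 2 with hk4
  have hk1n : 0 ≤ k1 := by positivity
  have hk2n : 0 ≤ k2 := by positivity
  have hk3n : 0 ≤ k3 := by positivity
  have hk4n : 0 ≤ k4 := by positivity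
  have f1 := mul_nonneg hk1n hD
  have f2 := mul_nonneg hk2n hB
  have f3 := mul_nonneg hk2n hD
  have f4 := mul_nonneg hk3n hA
  have f5 := mul_nonneg hk3n hB
  have f6 := mul_nonneg hk4n hB
  have f7 := mul_nonneg hk4n hD
  nlinarith

end Pool.Agent.Ex26
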