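import Pool.Agent.Lib.MP_26a019_lc.Ex.CSpec

set_option autoImplicit false

/-!
Module CSum: the cluster sum.
-/

open Finset Classical

namespace Pool.Agent.Ex26

open Pool.Agent.Kempe Pool.Agent.KempeMix Pool.Agent.Eps26

namespace CSumAux

variable {V C : Type} [Fintype V] [Fintype C]

/-- the pointwise bound: sum over all patterns -/
theorem pointwise (c : C) (κ : Finset V) (f f' : V → C) (T : ℝ) (hT : 0 ≤ T) :
    (if (∀ u ∈ κ, f u = c ∨ f' u = c) then T else 0) ≤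
      ∑ σ ∈ κ.powerset, pt c σ (κ \ σ) f f' * T := by
  have hnn : ∀ σ ∈ κ.powerset, 0 ≤ pt c σ (κ \ σ) f f' * T := fun σ _ =>
    mul_nonneg (pt_nonneg c σ (κ \ σ) f f') hT
  split_ifs with h
  · have hσ : κ.filter (fun u => f u = c) ∈ κ.powerset :=
      Finset.mem_powerset.2 (Finset.filter_subset _ _)
    refine le_trans ?_ (Finset.single_le_sum hnn hσ)
    have : pt c (κ.filter (fun u => f u = c)) (κ \ κ.filter (fun u => f u = c)) f f' = 1 := by
      unfold pt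
      rw [if_pos]
      refine ⟨fun u hu => (Finset.mem_filter.1 hu).2, fun u hu => ?_⟩
      rw [Finset.mem_sdiff, Finset.mem_filter] at hu
      rcases h u hu.1 with h1 | h1
      · exact absurd ⟨hu.1, h1⟩ hu.2
      · exact h1
    rw [this, one_mul]
  · exact Finset.sum_nonneg hnn

/-- step 1 -/
theorem ev2_CR_le {G : SimpleGraph V} {U : Finset V} {L : V → Finset C} {p : V → C} {s : ℕ}
    {k : V → C → ℝ} {m : ℕ} {Ψ : C → Finset V → (V → C) → (V → C) → ℝ} {B : ℝ}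
    (hΨ : ∀ c κ f f', 0 ≤ Ψ c κ f f')
    (hB : ∀ c, ∀ κ ∈ CC G U m, ∀ σ, σ ⊆ κ →
      ev2 (Col G U L p) (fun f f' => pt c σ (κ \ σ) f f' * Ψ c κ f f') ≤
        B * (1 / (s : ℝ)) ^ κ.card) :
    ev2 (Col G U L p) (CR G U k m Ψ) ≤
      ∑ c, ∑ κ ∈ CC G U m, B * ((2 / (s : ℝ)) ^ κ.card * ∑ w ∈ κ, (k w c) ^ 2) := by
  have e1 : ev2 (Col G U L p) (CR G U k m Ψ) = ∑ c, ∑ κ ∈ CC G U m,
      ev2 (Col G U L p) (fun f f' => if (∀ u ∈ κ, f u = c ∨ f' u = c) then
        (∑ w ∈ κ, (k w c) ^ 2) * Ψ c κ f f' else 0) := by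
    unfold CR
    rw [ev2_sum]
    refine Finset.sum_congr rfl fun c _ => ?_
    rw [ev2_sum]
  rw [e1]
  refine Finset.sum_le_sum fun c _ => Finset.sum_le_sum fun κ hκ => ?_
  have hW : 0 ≤ ∑ w ∈ κ, (k w c) ^ 2 := Finset.sum_nonneg fun w _ => sq_nonneg _
  calc ev2 (Col G U L p) (fun f f' => if (∀ u ∈ κ, f u = c ∨ f' u = c) then
        (∑ w ∈ κ, (k w c) ^ 2) * Ψ c κ f f' else 0)
      ≤ ev2 (Col G U L p) (fun f f' => ∑ σ ∈ κ.powerset,
          (∑ w ∈ κ, (k w c) ^ 2) * (pt c σ (κ \ σ) f f' * Ψ c κ f f')) := by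
        refine ev2_mono fun f _ f' _ => ?_
        refine (pointwise c κ f f' _ (mul_nonneg hW (hΨ c κ f f'))).trans (le_of_eq ?_)
        refine Finset.sum_congr rfl fun σ _ => ?_
        ring
    _ = ∑ σ ∈ κ.powerset, (∑ w ∈ κ, (k w c) ^ 2) *
          ev2 (Col G U L p) (fun f f' => pt c σ (κ \ σ) f f' * Ψ c κ f f') := by
        rw [ev2_sum]
        refine Finset.sum_congr rfl fun σ _ => ?_
        rw [ev2_mul_left]
    _ ≤ ∑ σ ∈ κ.powerset, (∑ w ∈ κ, (k w c) ^ 2) * (B * (1 / (s : ℝ)) ^ κ.card) :=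
        Finset.sum_le_sum fun σ hσ => mul_le_mul_of_nonneg_left
          (hB c κ hκ σ (Finset.mem_powerset.1 hσ)) hW
    _ = B * ((2 / (s : ℝ)) ^ κ.card * ∑ w ∈ κ, (k w c) ^ 2) := by
        rw [Finset.sum_const, Finset.card_powerset, nsmul_eq_mul]
        push_cast
        rw [div_eq_mul_one_div (2 : ℝ) (s : ℝ), mul_pow]
        ring

theorem mem_CC {G : SimpleGraph V} {U : Finset V} {m : ℕ} {κ : Finset V} (h : κ ∈ CC G U m) :
    κ ⊆ U ∧ κ.Nonempty ∧ κ.card ≤ m := by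
  unfold CC at h
  rw [Finset.mem_filter, Finset.mem_powerset] at h
  exact ⟨h.1, h.2.1, h.2.2.1⟩

/-- step 3: the sum over the connected sets containing `w` -/
theorem inner_le (hCC : CCount) {G : SimpleGraph V} {U : Finset V} {m q s : ℕ} {ε : ℝ}
    (hq : ∀ v ∈ U, (nb G U v).card ≤ q) (hs : 0 < s) (hε : 0 < ε) (hε1 : ε ≤ 1)
    (hqs : ε * (q : ℝ) ≤ s) (w : V) :
    ∑ κ ∈ (CC G U m).filter (fun κ => w ∈ κ), (2 / (s : ℝ)) ^ κ.card ≤
      (2 / (s : ℝ)) * (m * (2 * m / ε) ^ m) := by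
  have hs' : (0 : ℝ) < s := by exact_mod_cast hs
  have hmaps : ∀ κ ∈ (CC G U m).filter (fun κ => w ∈ κ), κ.card ∈ Finset.Icc 1 m := by
    intro κ hκ
    rw [Finset.mem_filter] at hκ
    obtain ⟨-, h1, h2⟩ := mem_CC hκ.1
    rw [Finset.mem_Icc]
    exact ⟨Finset.card_pos.2 h1, h2⟩
  rw [← Finset.sum_fiberwise_of_maps_to hmaps]
  calc ∑ j ∈ Finset.Icc 1 m, ∑ κ ∈ ((CC G U m).filter (fun κ => w ∈ κ)).filter
        (fun κ => κ.card = j), (2 / (s : ℝ)) ^ κ.card
      ≤ ∑ j ∈ Finset.Icc 1 m, (2 / (s : ℝ)) * (2 * m / ε) ^ m := by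
        refine Finset.sum_le_sum fun j hj => ?_
        rw [Finset.mem_Icc] at hj
        have hm1 : (1 : ℝ) ≤ m := by exact_mod_cast hj.1.trans hj.2
        have e1 : ∑ κ ∈ ((CC G U m).filter (fun κ => w ∈ κ)).filter
            (fun κ => κ.card = j), (2 / (s : ℝ)) ^ κ.card =
            (((CC G U m).filter (fun κ => w ∈ κ ∧ κ.card = j)).card : ℝ) * (2 / (s : ℝ)) ^ j := by
          rw [Finset.filter_filter, ← nsmul_eq_mul, ← Finset.sum_const]
          refine Finset.sum_congr rfl fun κ hκ => ?_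
          rw [(Finset.mem_filter.1 hκ).2.2]
        rw [e1]
        have h1 : (((CC G U m).filter (fun κ => w ∈ κ ∧ κ.card = j)).card : ℝ) ≤
            ((m : ℝ) * q) ^ (j - 1) := by
          have := hCC V G U q m j w hq hj.1 hj.2
          exact_mod_cast this
        have h2 : (2 / (s : ℝ)) ^ j = (2 / (s : ℝ)) * (2 / (s : ℝ)) ^ (j - 1) := by
          rw [← pow_succ', Nat.sub_add_cancel hj.1]
        have h3 : ((m : ℝ) * q) * (2 / (s : ℝ)) ≤ 2 * m / ε := by
          rw [mul_div_assoc', div_le_div_iff₀ hs' hε]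
          nlinarith
        have h4 : (1 : ℝ) ≤ 2 * m / ε := by
          rw [le_div_iff₀ hε]
          linarith
        calc (((CC G U m).filter (fun κ => w ∈ κ ∧ κ.card = j)).card : ℝ) * (2 / (s : ℝ)) ^ j
            ≤ ((m : ℝ) * q) ^ (j - 1) * (2 / (s : ℝ)) ^ j :=
              mul_le_mul_of_nonneg_right h1 (by positivity)
          _ = (2 / (s : ℝ)) * (((m : ℝ) * q) * (2 / (s : ℝ))) ^ (j - 1) := by
              rw [h2, mul_pow]; ring
          _ ≤ (2 / (s : ℝ)) * (2 * m / ε) ^ (j - 1) :=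
              mul_le_mul_of_nonneg_left (pow_le_pow_left₀ (by positivity) h3 _) (by positivity)
          _ ≤ (2 / (s : ℝ)) * (2 * m / ε) ^ m :=
              mul_le_mul_of_nonneg_left (pow_le_pow_right₀ h4 (by omega)) (by positivity)
    _ = (2 / (s : ℝ)) * (m * (2 * m / ε) ^ m) := by
        rw [Finset.sum_const, Nat.card_Icc, nsmul_eq_mul]
        rw [Nat.add_sub_cancel]
        ring

end CSumAux

open CSumAux

theorem cSum_proof : CSum := by
  intro hMg hCC V C _ _ G U L p s ε k m Ψ B hReg hOff hB0 hΨ hB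
  obtain ⟨hε, hεq, hG⟩ := hReg
  have hs2 : 2 ≤ s := hG.1
  have hs' : (0 : ℝ) < s := by exact_mod_cast (by omega : 0 < s)
  refine (ev2_CR_le hΨ hB).trans ?_
  -- exchange of the sums
  have e1 : ∀ c : C, ∑ κ ∈ CC G U m, B * ((2 / (s : ℝ)) ^ κ.card * ∑ w ∈ κ, (k w c) ^ 2) =
      ∑ w ∈ U, B * ((k w c) ^ 2 *
        ∑ κ ∈ (CC G U m).filter (fun κ => w ∈ κ), (2 / (s : ℝ)) ^ κ.card) := by
    intro c
    have h1 : ∀ κ ∈ CC G U m, B * ((2 / (s : ℝ)) ^ κ.card * ∑ w ∈ κ, (k w c) ^ 2) =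
        ∑ w ∈ U, if w ∈ κ then B * ((k w c) ^ 2 * (2 / (s : ℝ)) ^ κ.card) else 0 := by
      intro κ hκ
      rw [← Finset.sum_filter, Finset.filter_mem_eq_inter,
        Finset.inter_eq_right.2 (mem_CC hκ).1, Finset.mul_sum, Finset.mul_sum]
      refine Finset.sum_congr rfl fun w _ => ?_
      ring
    rw [Finset.sum_congr rfl h1, Finset.sum_comm]
    refine Finset.sum_congr rfl fun w _ => ?_
    rw [← Finset.sum_filter, Finset.mul_sum, Finset.mul_sum]
  rw [Finset.sum_congr rfl fun c _ => e1 c, Finset.sum_comm]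
  unfold nrm
  rw [Finset.mul_sum]
  refine Finset.sum_le_sum fun w hw => ?_
  rw [Finset.mul_sum]
  refine Finset.sum_le_sum fun c _ => ?_
  -- numbers
  have hqs : s ≤ Fintype.card C := by
    have := card_nb_le_card hG hw
    omega
  have hq0 : (0 : ℝ) < (Fintype.card C : ℝ) := by exact_mod_cast (by omega : 0 < Fintype.card C)
  have hqs' : (s : ℝ) ≤ (Fintype.card C : ℝ) := by exact_mod_cast hqs
  have hε1 : ε ≤ 1 := by
    by_contra hcon
    push Not at hcon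
    nlinarith
  have hnb : ∀ v ∈ U, (nb G U v).card ≤ Fintype.card C := fun v hv => by
    have := card_nb_le_card hG hv
    omega
  have hin := inner_le hCC hnb (by omega : 0 < s) hε hε1 hεq (m := m) w
  by_cases hc : c ∈ L w
  · have hmg := (hMg V C G U L p s ε w c ⟨hε, hεq, hG⟩ hw hc).2
    have h1 : 1 / (s : ℝ) ≤ Real.exp (2 / ε) / ε * mg (Col G U L p) w c := by
      have h2 : Real.exp (2 / ε) / ε * (Real.exp (-(2 / ε)) / (Fintype.card C : ℝ)) =
          1 / (ε * (Fintype.card C : ℝ)) := by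
        rw [div_mul_div_comm, ← Real.exp_add]
        simp
      calc 1 / (s : ℝ) ≤ 1 / (ε * (Fintype.card C : ℝ)) :=
            one_div_le_one_div_of_le (by positivity) hεq
        _ = Real.exp (2 / ε) / ε * (Real.exp (-(2 / ε)) / (Fintype.card C : ℝ)) := h2.symm
        _ ≤ Real.exp (2 / ε) / ε * mg (Col G U L p) w c :=
            mul_le_mul_of_nonneg_left hmg (by positivity)
    calc B * ((k w c) ^ 2 * ∑ κ ∈ (CC G U m).filter (fun κ => w ∈ κ), (2 / (s : ℝ)) ^ κ.card)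
        ≤ B * ((k w c) ^ 2 * ((2 / (s : ℝ)) * (m * (2 * m / ε) ^ m))) :=
          mul_le_mul_of_nonneg_left (mul_le_mul_of_nonneg_left hin (sq_nonneg _)) hB0
      _ = B * (k w c) ^ 2 * (2 * (m * (2 * m / ε) ^ m)) * (1 / (s : ℝ)) := by ring
      _ ≤ B * (k w c) ^ 2 * (2 * (m * (2 * m / ε) ^ m)) *
          (Real.exp (2 / ε) / ε * mg (Col G U L p) w c) :=
          mul_le_mul_of_nonneg_left h1 (by positivity)
      _ = Kc ε m * B * (mg (Col G U L p) w c * (k w c) ^ 2) := by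
          unfold Kc
          ring
  · rw [hOff w c hc]
    simp

end Pool.Agent.Ex26
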