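import Pool.Agent.Lib.MP_26a019_lc.Ex.CSpec

set_option autoImplicit false
set_option linter.unusedVariables false

/-!
# Reversibility of the exchange on a cluster (MP_26a019_lc, part C)
-/

open Finset Classical

namespace Pool.Agent.Ex26

open Pool.Agent.Kempe Pool.Agent.KempeMix Pool.Agent.Eps26

namespace CSwapAux

variable {V C : Type} [Fintype V] [Fintype C]
variable {G : SimpleGraph V} {U : Finset V} {L : V → Finset C} {p : V → C} {c : C}
variable {κ : Finset V} {f f' g y : V → C}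

/-- the second component of the exchange: the old other colours -/
noncomputable def yo (κ : Finset V) (c : C) (f f' : V → C) : V → C :=
  fun u => if u ∈ κ then oo c f f' u else f u

theorem comps_facts (h : CCmp) {D : Finset V} (hκ : κ ∈ comps G D) :
    κ ⊆ D ∧ ∀ u ∈ κ, ∀ w ∈ D, G.Adj u w → w ∈ κ := by
  obtain ⟨h1, h2, h3, h4, -, -⟩ := h V G D
  unfold comps at hκ
  obtain ⟨v, hv, rfl⟩ := Finset.mem_image.1 hκ
  exact ⟨h2 v, h4 v⟩

theorem mem_YY : y ∈ YY G U L κ c f f' ↔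
    (∀ u ∈ κ, y u ∈ BB G U L κ c f f' u) ∧ ∀ u, u ∉ κ → y u = f u := by
  unfold YY
  rw [Fintype.mem_piFinset]
  constructor
  · intro h
    refine ⟨fun u hu => ?_, fun u hu => ?_⟩
    · have := h u
      rwa [if_pos hu] at this
    · have := h u
      rw [if_neg hu] at this
      exact Finset.mem_singleton.1 this
  · rintro ⟨h1, h2⟩ u
    by_cases hu : u ∈ κ
    · rw [if_pos hu]; exact h1 u hu
    · rw [if_neg hu]; exact Finset.mem_singleton.2 (h2 u hu)

theorem other {u : V} (hκ : κ ⊆ DD U c f f') (hu : u ∈ κ) : f' u = c ↔ f u ≠ c := by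
  have := (mem_DD.1 (hκ hu)).2
  tauto

theorem mem_U {u : V} (hκ : κ ⊆ DD U c f f') (hu : u ∈ κ) : u ∈ U := (mem_DD.1 (hκ hu)).1

theorem t1_out {u : V} (hu : u ∉ κ) : t1 κ c f y u = y u := by
  unfold t1
  rw [if_neg (fun h => hu h.1)]

theorem t2_out {u : V} (hu : u ∉ κ) : t2 κ c f f' y u = f' u := by
  unfold t2
  rw [if_neg hu]

theorem t1_c {u : V} (hu : u ∈ κ) (hf : f u ≠ c) : t1 κ c f y u = c := by
  unfold t1
  rw [if_pos ⟨hu, hf⟩]

theorem t1_y {u : V} (hf : f u = c) : t1 κ c f y u = y u := by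
  unfold t1
  rw [if_neg (fun h => h.2 hf)]

theorem t2_c {u : V} (hu : u ∈ κ) (hf : f u = c) : t2 κ c f f' y u = c := by
  unfold t2
  rw [if_pos hu, if_pos hf]

theorem t2_y {u : V} (hu : u ∈ κ) (hf : f u ≠ c) : t2 κ c f f' y u = y u := by
  unfold t2
  rw [if_pos hu, if_neg hf]

theorem avX_congr {u : V} (h : ∀ w, w ∉ κ → g w = f w) :
    avX G U L κ g u = avX G U L κ f u := by
  unfold avX
  ext a
  simp only [Finset.mem_filter]
  constructor
  · rintro ⟨h1, h2⟩
    exact ⟨h1, fun w hw hwκ => by rw [← h w hwκ]; exact h2 w hw hwκ⟩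
  · rintro ⟨h1, h2⟩
    exact ⟨h1, fun w hw hwκ => by rw [h w hwκ]; exact h2 w hw hwκ⟩

theorem self_avX {u : V} (hf : f ∈ Col G U L p) (hu : u ∈ U) : f u ∈ avX G U L κ f u := by
  rw [mem_Col] at hf
  rw [mem_avX]
  exact ⟨hf.2.1 u hu, fun w hw _ => hf.2.2 w (mem_nb.1 hw).1 u hu (mem_nb.1 hw).2.symm⟩

/-- the exchanged colouring is a colouring -/
theorem mem_of_swap (hf : f ∈ Col G U L p) (hf' : f' ∈ Col G U L p) (hκ : κ ⊆ DD U c f f')
    (hcl : ∀ u ∈ κ, ∀ w ∈ DD U c f f', G.Adj u w → w ∈ κ) (g : V → C)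
    (h1 : ∀ u ∈ κ, f u = c → g u ∈ (avX G U L κ f u).erase c)
    (h2 : ∀ u ∈ κ, f u ≠ c → g u = c) (h3 : ∀ u, u ∉ κ → g u = f u) : g ∈ Col G U L p := by
  have hfC := mem_Col.1 hf
  have hfC' := mem_Col.1 hf'
  have key : ∀ u ∈ κ, ∀ w ∈ U, G.Adj u w → g u ≠ g w := by
    intro u hu w hw huw
    have huU := mem_U hκ hu
    by_cases hwκ : w ∈ κ
    · by_cases hfu : f u = c
      · have hfw : f w ≠ c := fun h => hfC.2.2 u huU w hw huw (hfu.trans h.symm)
        rw [h2 w hwκ hfw]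
        exact (Finset.mem_erase.1 (h1 u hu hfu)).1
      · have hfu' : f' u = c := (other hκ hu).2 hfu
        have hfw' : f' w ≠ c := fun h => hfC'.2.2 u huU w hw huw (hfu'.trans h.symm)
        have hfw : f w = c := by
          by_contra h
          exact hfw' ((other hκ hwκ).2 h)
        rw [h2 u hu hfu]
        exact (Finset.mem_erase.1 (h1 w hwκ hfw)).1.symm
    · rw [h3 w hwκ]
      by_cases hfu : f u = c
      · have h4 := (mem_avX.1 (Finset.mem_erase.1 (h1 u hu hfu)).2).2 w (mem_nb.2 ⟨hw, huw⟩) hwκ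
        exact h4.symm
      · rw [h2 u hu hfu]
        intro h
        have hfu' : f' u = c := (other hκ hu).2 hfu
        have hfw' : f' w ≠ c := fun h' => hfC'.2.2 u huU w hw huw (hfu'.trans h'.symm)
        exact hwκ (hcl u hu w (mem_DD.2 ⟨hw, fun h' => hfw' (h'.1 h.symm)⟩) huw)
  rw [mem_Col]
  refine ⟨fun v hv => ?_, fun v hv => ?_, fun u hu w hw huw => ?_⟩
  · rw [h3 v (fun h => hv (mem_U hκ h))]
    exact hfC.1 v hv
  · by_cases hvκ : v ∈ κ
    · by_cases hfv : f v = c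
      · exact (mem_avX.1 (Finset.mem_erase.1 (h1 v hvκ hfv)).2).1
      · rw [h2 v hvκ hfv, ← (other hκ hvκ).2 hfv]
        exact hfC'.2.1 v hv
    · rw [h3 v hvκ]
      exact hfC.2.1 v hv
  · by_cases huκ : u ∈ κ
    · exact key u huκ w hw huw
    · by_cases hwκ : w ∈ κ
      · exact (key w hwκ u hu huw.symm).symm
      · rw [h3 u huκ, h3 w hwκ]
        exact hfC.2.2 u hu w hw huw

section state

variable (hκ : κ ⊆ DD U c f f') (hy : y ∈ YY G U L κ c f f')

include hκ hy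

theorem y_in_c {u : V} (hu : u ∈ κ) (hf : f u = c) : y u ∈ (avX G U L κ f u).erase c := by
  have := (mem_YY.1 hy).1 u hu
  unfold BB at this
  rwa [if_pos hf] at this

theorem y_in_n {u : V} (hu : u ∈ κ) (hf : f u ≠ c) : y u ∈ (avX G U L κ f' u).erase c := by
  have := (mem_YY.1 hy).1 u hu
  unfold BB at this
  rwa [if_neg hf] at this

theorem y_ne {u : V} (hu : u ∈ κ) : y u ≠ c := by
  by_cases hf : f u = c
  · exact (Finset.mem_erase.1 (y_in_c hκ hy hu hf)).1
  · exact (Finset.mem_erase.1 (y_in_n hκ hy hu hf)).1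

theorem t1_off {u : V} (hu : u ∉ κ) : t1 κ c f y u = f u := by
  rw [t1_out hu]
  exact (mem_YY.1 hy).2 u hu

theorem t1_iff {u : V} (hu : u ∈ κ) : t1 κ c f y u = c ↔ f u ≠ c := by
  constructor
  · intro h hf
    rw [t1_y hf] at h
    exact y_ne hκ hy hu h
  · exact fun h => t1_c hu h

theorem t2_iff {u : V} (hu : u ∈ κ) : t2 κ c f f' y u = c ↔ f u = c := by
  constructor
  · intro h
    by_contra hf
    rw [t2_y hu hf] at h
    exact y_ne hκ hy hu h
  · exact fun h => t2_c hu h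

theorem t1_mem (hf : f ∈ Col G U L p) (hf' : f' ∈ Col G U L p)
    (hcl : ∀ u ∈ κ, ∀ w ∈ DD U c f f', G.Adj u w → w ∈ κ) : t1 κ c f y ∈ Col G U L p := by
  refine mem_of_swap hf hf' hκ hcl _ (fun u hu hfu => ?_) (fun u hu hfu => t1_c hu hfu)
    (fun u hu => t1_off hκ hy hu)
  rw [t1_y hfu]
  exact y_in_c hκ hy hu hfu

theorem t2_mem (hf : f ∈ Col G U L p) (hf' : f' ∈ Col G U L p)
    (hcl : ∀ u ∈ κ, ∀ w ∈ DD U c f f', G.Adj u w → w ∈ κ) : t2 κ c f f' y ∈ Col G U L p := by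
  have hD : DD U c f' f = DD U c f f' := by
    rw [← DO_so, ← DO_so, DO_comm]
  refine mem_of_swap (f := f') (f' := f) hf' hf (by rw [hD]; exact hκ) (by rw [hD]; exact hcl) _
    (fun u hu hfu => ?_) (fun u hu hfu => ?_) (fun u hu => t2_out hu)
  · have h1 : f u ≠ c := (other hκ hu).1 hfu
    rw [t2_y hu h1]
    exact y_in_n hκ hy hu h1
  · have h1 : f u = c := by
      by_contra h
      exact hfu ((other hκ hu).2 h)
    exact t2_c hu h1

theorem DD_swap : DD U c (t1 κ c f y) (t2 κ c f f' y) = DD U c f f' := by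
  ext u
  by_cases hu : u ∈ κ
  · have h1 := t1_iff hκ hy hu
    have h2 := t2_iff hκ hy hu
    have h3 := hκ hu
    constructor
    · exact fun _ => h3
    · intro _
      rw [mem_DD, h1, h2]
      exact ⟨mem_U hκ hu, by tauto⟩
  · rw [mem_DD, mem_DD, t1_off hκ hy hu, t2_out hu]

theorem BB_swap {u : V} (hu : u ∈ κ) :
    BB G U L κ c (t1 κ c f y) (t2 κ c f f' y) u =
      if f u = c then (avX G U L κ f' u).erase c else (avX G U L κ f u).erase c := by
  have e1 : avX G U L κ (t1 κ c f y) u = avX G U L κ f u :=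
    avX_congr fun w hw => t1_off hκ hy hw
  have e2 : avX G U L κ (t2 κ c f f' y) u = avX G U L κ f' u :=
    avX_congr fun w hw => t2_out hw
  unfold BB
  rw [e1, e2]
  by_cases hf : f u = c
  · rw [if_pos hf, if_neg (fun h => (t1_iff hκ hy hu).1 h hf)]
  · rw [if_neg hf, if_pos ((t1_iff hκ hy hu).2 hf)]

theorem yo_mem (hf : f ∈ Col G U L p) (hf' : f' ∈ Col G U L p) :
    yo κ c f f' ∈ YY G U L κ c (t1 κ c f y) (t2 κ c f f' y) := by
  rw [mem_YY]
  refine ⟨fun u hu => ?_, fun u hu => ?_⟩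
  · rw [BB_swap hκ hy hu]
    unfold yo oo
    rw [if_pos hu]
    by_cases hfu : f u = c
    · rw [if_pos hfu, if_pos hfu]
      refine Finset.mem_erase.2 ⟨fun h => (other hκ hu).1 h hfu, ?_⟩
      exact self_avX hf' (mem_U hκ hu)
    · rw [if_neg hfu, if_neg hfu]
      exact Finset.mem_erase.2 ⟨hfu, self_avX hf (mem_U hκ hu)⟩
  · rw [t1_off hκ hy hu]
    unfold yo
    rw [if_neg hu]

theorem inv1 : t1 κ c (t1 κ c f y) (yo κ c f f') = f := by
  funext u
  by_cases hu : u ∈ κ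
  · by_cases hfu : f u = c
    · rw [t1_c hu (fun h => (t1_iff hκ hy hu).1 h hfu), hfu]
    · rw [t1_y ((t1_iff hκ hy hu).2 hfu)]
      unfold yo oo
      rw [if_pos hu, if_neg hfu]
  · rw [t1_out hu]
    unfold yo
    rw [if_neg hu]

theorem inv2 : t2 κ c (t1 κ c f y) (t2 κ c f f' y) (yo κ c f f') = f' := by
  funext u
  by_cases hu : u ∈ κ
  · by_cases hfu : f u = c
    · rw [t2_y hu (fun h => (t1_iff hκ hy hu).1 h hfu)]
      unfold yo oo
      rw [if_pos hu, if_pos hfu]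
    · rw [t2_c hu ((t1_iff hκ hy hu).2 hfu)]
      exact ((other hκ hu).2 hfu).symm
  · rw [t2_out hu, t2_out hu]

theorem inv3 : yo κ c (t1 κ c f y) (t2 κ c f f' y) = y := by
  funext u
  unfold yo oo
  by_cases hu : u ∈ κ
  · rw [if_pos hu]
    by_cases hfu : f u = c
    · rw [if_neg (fun h => (t1_iff hκ hy hu).1 h hfu), t1_y hfu]
    · rw [if_pos ((t1_iff hκ hy hu).2 hfu), t2_y hu hfu]
  · rw [if_neg hu, t1_out hu]

theorem sk_swap (k : V → C → ℝ) : sk k c κ (so (t1 κ c f y)) (so (t2 κ c f f' y)) =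
    - sk k c κ (so f) (so f') := by
  unfold sk
  rw [← Finset.sum_neg_distrib]
  refine Finset.sum_congr rfl fun u hu => ?_
  rw [sg_so, sg_so]
  by_cases hfu : f u = c
  · rw [if_neg (fun h => (t1_iff hκ hy hu).1 h hfu), if_pos ((t2_iff hκ hy hu).2 hfu),
      if_pos hfu, if_neg (fun h => (other hκ hu).1 h hfu)]
    ring
  · rw [if_pos ((t1_iff hκ hy hu).2 hfu), if_neg (fun h => hfu ((t2_iff hκ hy hu).1 h)),
      if_neg hfu, if_pos ((other hκ hu).2 hfu)]
    ring

end state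

theorem card_YY (G : SimpleGraph V) (U : Finset V) (L : V → Finset C) (κ : Finset V) (c : C)
    (f f' : V → C) : ((YY G U L κ c f f').card : ℝ) =
      ∏ u ∈ κ, ((BB G U L κ c f f' u).card : ℝ) := by
  unfold YY
  rw [Fintype.card_piFinset]
  push_cast
  have e : ∀ u, (((if u ∈ κ then BB G U L κ c f f' u else {f u} : Finset C).card : ℕ) : ℝ) =
      if u ∈ κ then ((BB G U L κ c f f' u).card : ℝ) else 1 := by
    intro u
    split_ifs <;> simp
  rw [Finset.prod_congr rfl fun u _ => e u, Finset.prod_ite_mem, Finset.univ_inter]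

theorem card_BB_pos {s : ℕ} (hG : Good G U L s) (hκ : κ ⊆ DD U c f f') {u : V} (hu : u ∈ κ)
    (h h' : V → C) : 0 < (BB G U L κ c h h' u).card := by
  have h2 := hG.1
  have h3 := card_avX hG (mem_U hκ hu) κ h
  have h4 := card_avX hG (mem_U hκ hu) κ h'
  unfold BB
  split_ifs
  · have := Finset.pred_card_le_card_erase (s := avX G U L κ h u) (a := c)
    omega
  · have := Finset.pred_card_le_card_erase (s := avX G U L κ h' u) (a := c)
    omega

theorem card_YY_pos {s : ℕ} (hG : Good G U L s) (hκ : κ ⊆ DD U c f f') (h h' : V → C) :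
    (0 : ℝ) < ((YY G U L κ c h h').card : ℝ) := by
  rw [card_YY]
  exact Finset.prod_pos fun u hu => by exact_mod_cast card_BB_pos hG hκ hu h h'

/-- `ro` is the quotient of the numbers of exchanges -/
theorem ro_swap (hκ : κ ⊆ DD U c f f') (hy : y ∈ YY G U L κ c f f') :
    ro G U L c κ (so (t1 κ c f y)) (so (t2 κ c f f' y)) =
      ((YY G U L κ c (t1 κ c f y) (t2 κ c f f' y)).card : ℝ) /
        ((YY G U L κ c f f').card : ℝ) := by
  rw [card_YY, card_YY, ← Finset.prod_div_distrib]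
  unfold ro
  refine Finset.prod_congr rfl fun u hu => ?_
  have e1 : avX G U L κ (t1 κ c f y) u = avX G U L κ f u :=
    avX_congr fun w hw => t1_off hκ hy hw
  have e2 : avX G U L κ (t2 κ c f f' y) u = avX G U L κ f' u :=
    avX_congr fun w hw => t2_out hw
  rw [BB_swap hκ hy hu]
  unfold bO BB
  rw [avO_so, avO_so, e1, e2]
  simp only [so_eq]
  by_cases hfu : f u = c
  · rw [if_neg (fun h => (t1_iff hκ hy hu).1 h hfu), if_pos hfu, if_pos hfu]
  · rw [if_pos ((t1_iff hκ hy hu).2 hfu), if_neg hfu, if_neg hfu]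

/-- the exchange map -/
noncomputable def Th (κ : Finset V) (c : C) (x : ((V → C) × (V → C)) × (V → C)) :
    ((V → C) × (V → C)) × (V → C) :=
  ((t1 κ c x.1.1 x.2, t2 κ c x.1.1 x.1.2 x.2), yo κ c x.1.1 x.1.2)

/-- the set of the triples -/
noncomputable def TS (G : SimpleGraph V) (U : Finset V) (L : V → Finset C) (p : V → C) (c : C)
    (κ : Finset V) : Finset (((V → C) × (V → C)) × (V → C)) :=
  ((Col G U L p ×ˢ Col G U L p) ×ˢ univ).filter (fun x =>
    κ ∈ comps G (DD U c x.1.1 x.1.2) ∧ x.2 ∈ YY G U L κ c x.1.1 x.1.2)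

theorem mem_TS {x : ((V → C) × (V → C)) × (V → C)} : x ∈ TS G U L p c κ ↔
    (x.1.1 ∈ Col G U L p ∧ x.1.2 ∈ Col G U L p) ∧ κ ∈ comps G (DD U c x.1.1 x.1.2) ∧
      x.2 ∈ YY G U L κ c x.1.1 x.1.2 := by
  unfold TS
  rw [Finset.mem_filter, Finset.mem_product, Finset.mem_product]
  simp only [Finset.mem_univ, and_true]

theorem Th_mem (h : CCmp) {x : ((V → C) × (V → C)) × (V → C)} (hx : x ∈ TS G U L p c κ) :
    Th κ c x ∈ TS G U L p c κ := by
  obtain ⟨⟨hf, hf'⟩, hk, hy⟩ := mem_TS.1 hx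
  obtain ⟨hκ, hcl⟩ := comps_facts h hk
  refine mem_TS.2 ⟨⟨t1_mem hκ hy hf hf' hcl, t2_mem hκ hy hf hf' hcl⟩, ?_, yo_mem hκ hy hf hf'⟩
  change κ ∈ comps G (DD U c (t1 κ c x.1.1 x.2) (t2 κ c x.1.1 x.1.2 x.2))
  rw [DD_swap hκ hy]
  exact hk

theorem Th_Th (h : CCmp) {x : ((V → C) × (V → C)) × (V → C)} (hx : x ∈ TS G U L p c κ) :
    Th κ c (Th κ c x) = x := by
  obtain ⟨⟨hf, hf'⟩, hk, hy⟩ := mem_TS.1 hx
  obtain ⟨hκ, hcl⟩ := comps_facts h hk
  unfold Th
  rw [inv1 hκ hy, inv2 hκ hy, inv3 hκ hy]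

theorem sum_TS (F : (V → C) → (V → C) → (V → C) → ℝ) :
    ∑ x ∈ TS G U L p c κ, F x.1.1 x.1.2 x.2 =
      ∑ f ∈ Col G U L p, ∑ f' ∈ Col G U L p,
        if κ ∈ comps G (DD U c f f') then ∑ y ∈ YY G U L κ c f f', F f f' y else 0 := by
  unfold TS
  rw [Finset.sum_filter, Finset.sum_product, Finset.sum_product]
  refine Finset.sum_congr rfl fun f _ => Finset.sum_congr rfl fun f' _ => ?_
  simp only
  by_cases hk : κ ∈ comps G (DD U c f f')
  · rw [if_pos hk]
    simp only [hk, true_and]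
    rw [Finset.sum_ite_mem, Finset.univ_inter]
  · rw [if_neg hk]
    simp only [hk, false_and, if_false, Finset.sum_const_zero]

end CSwapAux

open CSwapAux in
theorem cSwap_proof : CSwap := by
  intro h V C _ _ G U L p s c κ k H hG
  rw [ev2_eq, ev2_eq, ← neg_div]
  congr 1
  have hL : ∑ f ∈ Col G U L p, ∑ f' ∈ Col G U L p,
      (if κ ∈ comps G (DD U c f f') then
        sk k c κ (so f) (so f') * avT G U L κ c f f' H else 0) =
      ∑ x ∈ TS G U L p c κ, sk k c κ (so x.1.1) (so x.1.2) *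
        H (t1 κ c x.1.1 x.2) (t2 κ c x.1.1 x.1.2 x.2) /
          ((YY G U L κ c x.1.1 x.1.2).card : ℝ) := by
    rw [sum_TS (F := fun f f' y => sk k c κ (so f) (so f') *
      H (t1 κ c f y) (t2 κ c f f' y) / ((YY G U L κ c f f').card : ℝ))]
    refine Finset.sum_congr rfl fun f _ => Finset.sum_congr rfl fun f' _ => ?_
    by_cases hk : κ ∈ comps G (DD U c f f')
    · rw [if_pos hk, if_pos hk]
      unfold avT
      rw [← Finset.sum_div, ← Finset.mul_sum, mul_div_assoc]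
    · rw [if_neg hk, if_neg hk]
  have hR : ∑ f ∈ Col G U L p, ∑ f' ∈ Col G U L p,
      (if κ ∈ comps G (DD U c f f') then
        sk k c κ (so f) (so f') * ro G U L c κ (so f) (so f') * H f f' else 0) =
      ∑ x ∈ TS G U L p c κ, sk k c κ (so x.1.1) (so x.1.2) *
        ro G U L c κ (so x.1.1) (so x.1.2) * H x.1.1 x.1.2 /
          ((YY G U L κ c x.1.1 x.1.2).card : ℝ) := by
    rw [sum_TS (F := fun f f' y => sk k c κ (so f) (so f') *
      ro G U L c κ (so f) (so f') * H f f' / ((YY G U L κ c f f').card : ℝ))]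
    refine Finset.sum_congr rfl fun f _ => Finset.sum_congr rfl fun f' _ => ?_
    by_cases hk : κ ∈ comps G (DD U c f f')
    · rw [if_pos hk, if_pos hk]
      obtain ⟨hκ, -⟩ := comps_facts h hk
      have hpos := card_YY_pos (f := f) (f' := f') hG hκ f f'
      rw [Finset.sum_const, nsmul_eq_mul]
      field_simp
    · rw [if_neg hk, if_neg hk]
  rw [hL, hR, ← Finset.sum_neg_distrib]
  refine Finset.sum_nbij' (Th κ c) (Th κ c) (fun x hx => Th_mem h hx) (fun x hx => Th_mem h hx)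
    (fun x hx => Th_Th h hx) (fun x hx => Th_Th h hx) (fun x hx => ?_)
  obtain ⟨⟨hf, hf'⟩, hk, hy⟩ := mem_TS.1 hx
  obtain ⟨hκ, hcl⟩ := comps_facts h hk
  unfold Th
  simp only
  rw [sk_swap hκ hy, ro_swap hκ hy]
  have hpos := card_YY_pos (f := x.1.1) (f' := x.1.2) hG hκ x.1.1 x.1.2
  have hpos' := card_YY_pos (f := x.1.1) (f' := x.1.2) hG hκ (t1 κ c x.1.1 x.2)
    (t2 κ c x.1.1 x.1.2 x.2)
  field_simp

end Pool.Agent.Ex26
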