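import Pool.Agent.Lib.MP_26a019_lc.Ex.CSpec

set_option autoImplicit false

open Finset Classical Filter Topology

namespace Pool.Agent.Ex26

open Pool.Agent.Kempe Pool.Agent.KempeMix Pool.Agent.Eps26

namespace CTailAux

theorem lim1 {K lam : ℝ} (hlam : 0 < lam) :
    Tendsto (fun m : ℕ => (1 + ((m ^ 2 : ℕ) : ℝ)) * (1 + (m : ℝ) ^ 2) *
      (K * Real.exp (-(lam * m)))) atTop (𝓝 0) := by
  have h0 : ∀ j : ℕ, Tendsto (fun m : ℕ => (m : ℝ) ^ j * Real.exp (-(lam * m))) atTop (𝓝 0) := by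
    intro j
    have h1 := (Real.tendsto_pow_mul_exp_neg_atTop_nhds_zero j).comp
      ((tendsto_natCast_atTop_atTop (R := ℝ)).const_mul_atTop hlam)
    have h2 : Tendsto (fun m : ℕ => (1 / lam ^ j) *
        (((lam * (m : ℝ)) ^ j) * Real.exp (-(lam * m)))) atTop (𝓝 ((1 / lam ^ j) * 0)) :=
      h1.const_mul _
    rw [mul_zero] at h2
    refine h2.congr fun m => ?_
    rw [mul_pow]
    field_simp
  have h1 := ((h0 0).add ((h0 2).const_mul 2)).add (h0 4)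
  have h2 := h1.const_mul K
  simp only [mul_zero, add_zero] at h2
  refine h2.congr fun m => ?_
  push_cast
  ring

theorem lim2 {c : ℝ} (hc : 0 < c) :
    Tendsto (fun m : ℕ => ((c * m) ^ m * 4 ^ m * (1 / 2 : ℝ) ^ (m ^ 2)) * (m : ℝ) ^ 3)
      atTop (𝓝 0) := by
  -- (4 c m 2^{-m})^m m^3 ; eventually 4 c m 2^{-m} ≤ 1/2
  have h1 : Tendsto (fun m : ℕ => (m : ℝ) ^ 1 * (1 / 2 : ℝ) ^ m) atTop (𝓝 0) :=
    tendsto_pow_const_mul_const_pow_of_abs_lt_one 1 (by rw [abs_lt]; constructor <;> norm_num)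
  have h2 : Tendsto (fun m : ℕ => 4 * c * ((m : ℝ) ^ 1 * (1 / 2 : ℝ) ^ m)) atTop (𝓝 0) := by
    have := h1.const_mul (4 * c)
    rwa [mul_zero] at this
  have h3 : ∀ᶠ m : ℕ in atTop, 4 * c * ((m : ℝ) ^ 1 * (1 / 2 : ℝ) ^ m) ≤ 1 / 2 :=
    h2.eventually_le_const (by norm_num)
  have h4 : Tendsto (fun m : ℕ => (m : ℝ) ^ 3 * (1 / 2 : ℝ) ^ m) atTop (𝓝 0) :=
    tendsto_pow_const_mul_const_pow_of_abs_lt_one 3 (by rw [abs_lt]; constructor <;> norm_num)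
  refine squeeze_zero' (Eventually.of_forall fun m => by positivity) ?_ h4
  filter_upwards [h3] with m hm
  have e1 : (c * m) ^ m * 4 ^ m * (1 / 2 : ℝ) ^ (m ^ 2) =
      (4 * c * ((m : ℝ) ^ 1 * (1 / 2 : ℝ) ^ m)) ^ m := by
    rw [pow_two, pow_mul (1 / 2 : ℝ) m m, ← mul_pow, ← mul_pow, pow_one]
    congr 1
    ring
  rw [e1, mul_comm]
  refine mul_le_mul_of_nonneg_left ?_ (by positivity)
  exact pow_le_pow_left₀ (by positivity) hm m

end CTailAux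

open CTailAux in
theorem cTail_proof : CTail := by
  intro ε K lam P c0 hε hK hlam hP hc0
  have hA : Tendsto (fun m : ℕ => 2 * P * ((1 + ((m ^ 2 : ℕ) : ℝ)) * (1 + (m : ℝ) ^ 2) *
      (K * Real.exp (-(lam * m))))) atTop (𝓝 0) := by
    have := (lim1 (K := K) hlam).const_mul (2 * P)
    rwa [mul_zero] at this
  have hB : Tendsto (fun m : ℕ => 2 * P * ((1 + (m : ℝ)) * (Kc ε m * (2 * (1 / 2 : ℝ) ^ (m ^ 2) *
      4 ^ m * Real.exp (3 / ε) * m * (1 + 1 / ε))))) atTop (𝓝 0) := by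
    have hc : 0 < 2 / ε := by positivity
    have h1 := (lim2 hc).const_mul
      (2 * P * (2 * (2 * Real.exp (2 / ε) / ε) * (2 * Real.exp (3 / ε) * (1 + 1 / ε))))
    rw [mul_zero] at h1
    refine squeeze_zero' (Eventually.of_forall fun m => by unfold Kc; positivity) ?_ h1
    filter_upwards [eventually_ge_atTop 1] with m hm
    have hm1 : (1 : ℝ) ≤ m := by exact_mod_cast hm
    unfold Kc
    have e1 : (2 * (m : ℝ) / ε) ^ m = (2 / ε * m) ^ m := by congr 1; ring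
    rw [e1]
    set X : ℝ := (2 / ε * m) ^ m * 4 ^ m * (1 / 2 : ℝ) ^ (m ^ 2) with hX
    have hX0 : 0 ≤ X := by rw [hX]; positivity
    have e2 : 2 * P * ((1 + (m : ℝ)) * (2 * m * (2 / ε * m) ^ m * Real.exp (2 / ε) / ε *
        (2 * (1 / 2 : ℝ) ^ (m ^ 2) * 4 ^ m * Real.exp (3 / ε) * m * (1 + 1 / ε)))) =
        2 * P * ((2 * Real.exp (2 / ε) / ε) * (2 * Real.exp (3 / ε) * (1 + 1 / ε))) *
          X * ((1 + (m : ℝ)) * (m : ℝ) ^ 2) := by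
      rw [hX]; ring
    rw [e2]
    have e3 : (1 + (m : ℝ)) * (m : ℝ) ^ 2 ≤ 2 * (m : ℝ) ^ 3 := by nlinarith [sq_nonneg (m : ℝ)]
    calc _ ≤ 2 * P * ((2 * Real.exp (2 / ε) / ε) * (2 * Real.exp (3 / ε) * (1 + 1 / ε))) *
          X * (2 * (m : ℝ) ^ 3) := mul_le_mul_of_nonneg_left e3 (by positivity)
      _ = _ := by ring
  have h1 : ∀ᶠ m : ℕ in atTop, 2 * P * ((1 + ((m ^ 2 : ℕ) : ℝ)) * (1 + (m : ℝ) ^ 2) *
      (K * Real.exp (-(lam * m)))) ≤ c0 / 4 := hA.eventually_le_const (by positivity)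
  have h2 : ∀ᶠ m : ℕ in atTop, 2 * P * ((1 + (m : ℝ)) * (Kc ε m * (2 * (1 / 2 : ℝ) ^ (m ^ 2) *
      4 ^ m * Real.exp (3 / ε) * m * (1 + 1 / ε)))) ≤ c0 / 4 :=
    hB.eventually_le_const (by positivity)
  obtain ⟨m, hm1, hm2, hm3⟩ := (h1.and (h2.and (eventually_ge_atTop 1))).exists
  set D : ℝ := 2 * P * ((1 + ((m ^ 2 : ℕ) : ℝ)) * (1 + (m : ℝ) ^ 2)) with hD
  have hD0 : 0 < D := by rw [hD]; positivity
  refine ⟨m, c0 / (4 * D), hm3, by positivity, ?_⟩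
  have e1 : D * (c0 / (4 * D)) = c0 / 4 := by field_simp
  have e2 : 2 * P * ((1 + ((m ^ 2 : ℕ) : ℝ)) * (1 + (m : ℝ) ^ 2) *
      (K * Real.exp (-(lam * m)) + c0 / (4 * D)) +
        (1 + m) * (Kc ε m * (2 * (1 / 2 : ℝ) ^ (m ^ 2) * 4 ^ m * Real.exp (3 / ε) * m *
          (1 + 1 / ε)))) =
      2 * P * ((1 + ((m ^ 2 : ℕ) : ℝ)) * (1 + (m : ℝ) ^ 2) * (K * Real.exp (-(lam * m)))) +
      D * (c0 / (4 * D)) +
      2 * P * ((1 + (m : ℝ)) * (Kc ε m * (2 * (1 / 2 : ℝ) ^ (m ^ 2) *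
      4 ^ m * Real.exp (3 / ε) * m * (1 + 1 / ε)))) := by
    rw [hD]; ring
  rw [e2, e1]
  linarith

end Pool.Agent.Ex26
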