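import Pool.Agent.Lib.MP_26a019_lc.Ex.CSpec

set_option autoImplicit false
set_option linter.unusedVariables false

/-!
# Module CTensor: the Poincaré inequality for two independent colourings
-/

open Finset Classical

namespace Pool.Agent.Ex26

open Pool.Agent.Kempe Pool.Agent.KempeMix Pool.Agent.Eps26

namespace CTensorAux

variable {V C : Type} [Fintype V] [Fintype C]

/-- the variance of a mean is at most the mean of the variances -/
theorem vr_ev_le {A : Finset (V → C)} (hA : A.Nonempty) (F : (V → C) → (V → C) → ℝ) :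
    vr A (fun f' => ev A (fun f => F f f')) ≤ ev A (fun f => vr A (fun f' => F f f')) := by
  have h0 : ev A (fun f' => ev A (fun f => F f f')) = ev A (fun f => ev A (fun f' => F f f')) := by
    have := ev2_swap (A := A) (fun f' f => F f f')
    unfold ev2 at this
    exact this.symm
  have h1 : vr A (fun f' => ev A (fun f => F f f')) =
      ev A (fun f' => (ev A (fun f => F f f' - ev A (fun g' => F f g'))) ^ 2) := by
    show ev A (fun f' => (ev A (fun f => F f f') - ev A (fun g' => ev A (fun f => F f g'))) ^ 2) = _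
    refine ev_congr _ fun f' _ => ?_
    rw [ev_sub, h0]
  rw [h1]
  have h2 : ev A (fun f => vr A (fun f' => F f f')) =
      ev A (fun f' => ev A (fun f => (F f f' - ev A (fun g' => F f g')) ^ 2)) := by
    have := ev2_swap (A := A) (fun f' f => (F f f' - ev A (fun g' => F f g')) ^ 2)
    unfold ev2 at this
    rw [← this]
    rfl
  rw [h2]
  exact ev_mono _ fun f' _ => ev_sq_le hA _

end CTensorAux

open CTensorAux in
theorem cTensor_proof : CTensor := by
  intro V C _ _ G U L p s P τ Φ φ hG hP hPo hτ hΦ h0 hφ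
  set A := Col G U L p with hA'
  have hA : A.Nonempty := Col_nonempty hG p
  -- second moment for fixed second colouring
  have hτ2 : τ ^ 2 = 1 := by rcases hτ with h | h <;> rw [h] <;> norm_num
  have e1 : ev2 A (fun f f' => (Φ f f') ^ 2) =
      ev A (fun f' => ev A (fun f => (Φ f f') ^ 2)) := by
    have := ev2_swap (A := A) (fun f' f => (Φ f f') ^ 2)
    unfold ev2 at this ⊢
    rw [← this]
  have e2 : ev A (fun f' => ev A (fun f => (Φ f f') ^ 2)) =
      ev A (fun f' => vr A (fun f => Φ f f')) + ev A (fun f' => (ev A (fun f => Φ f f')) ^ 2) := by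
    rw [← ev_add]
    refine ev_congr _ fun f' _ => ?_
    rw [vr_eq hA]
    ring
  have e3 : ev A (fun f' => ev A (fun f => Φ f f')) = 0 := by
    have := ev2_swap (A := A) Φ
    unfold ev2 at this h0
    rw [this, h0]
  have e4 : ev A (fun f' => (ev A (fun f => Φ f f')) ^ 2) =
      vr A (fun f' => ev A (fun f => Φ f f')) := by
    rw [vr_eq hA, e3]
    ring
  have e5 : vr A (fun f' => ev A (fun f => Φ f f')) = vr A (fun f' => ev A (fun f => Φ f' f)) := by
    have hc : ∀ f', ev A (fun f => Φ f f') = τ * ev A (fun f => Φ f' f) := by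
      intro f'
      rw [← ev_mul_left]
      exact ev_congr _ fun f _ => hΦ f' f
    rw [vr_eq hA, vr_eq hA]
    have h1 : ev A (fun f' => (ev A (fun f => Φ f f')) ^ 2) =
        ev A (fun f' => (ev A (fun f => Φ f' f)) ^ 2) :=
      ev_congr _ fun f' _ => by rw [hc, mul_pow, hτ2, one_mul]
    have h2 : ev A (fun f' => ev A (fun f => Φ f' f)) = 0 := h0
    rw [h1, e3, h2]
  have e6 : vr A (fun f' => ev A (fun f => Φ f' f)) ≤ ev A (fun f => vr A (fun f' => Φ f' f)) :=
    vr_ev_le hA (fun f f' => Φ f' f)
  have e7 : ev2 A (fun f f' => (Φ f f') ^ 2) ≤ 2 * ev A (fun f' => vr A (fun f => Φ f f')) := by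
    rw [e1, e2, e4, e5]
    linarith
  -- Poincaré for each second colouring
  have e8 : ev A (fun f' => vr A (fun f => Φ f f')) ≤
      P * ∑ x ∈ U, ev2 A (fun f f' => (Φ f f' - φ x f f') ^ 2) := by
    have h1 : ∀ f', vr A (fun f => Φ f f') ≤
        P * ∑ x ∈ U, ev A (fun f => (Φ f f' - φ x f f') ^ 2) := by
      intro f'
      refine (hPo (fun f => Φ f f')).trans ?_
      refine mul_le_mul_of_nonneg_left ?_ hP
      exact Finset.sum_le_sum fun x hx => ev_sub_hb_sq_le hG p hx (hφ x hx f') (fun f => Φ f f')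
    refine (ev_mono _ fun f' _ => h1 f').trans (le_of_eq ?_)
    rw [ev_mul_left, ev_sum]
    congr 1
    refine Finset.sum_congr rfl fun x _ => ?_
    exact ev2_swap (A := A) (fun f f' => (Φ f f' - φ x f f') ^ 2)
  calc ev2 A (fun f f' => (Φ f f') ^ 2) ≤ 2 * ev A (fun f' => vr A (fun f => Φ f f')) := e7
    _ ≤ 2 * (P * ∑ x ∈ U, ev2 A (fun f f' => (Φ f f' - φ x f f') ^ 2)) := by linarith
    _ = _ := by ring

end Pool.Agent.Ex26
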