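import Pool.Agent.Lib.MP_26a019_lc.Ex.CSpec

set_option autoImplicit false

open Finset Classical

namespace Pool.Agent.Ex26

open Pool.Agent.Kempe Pool.Agent.KempeMix Pool.Agent.Eps26

theorem cUp_proof : CUp := by
  intro h1 V C _ _ G U L p M m k hM hsmall
  have e0 : ∀ (c : C) (κ : Finset V) (f f' : V → C), (sk k c κ (so f) (so f')) ^ 2 ≤
      ∑ u ∈ κ, (κ.card : ℝ) * (k u c) ^ 2 := by
    intro c κ f f'
    unfold sk
    have e1 := sq_sum_le_card_mul_sum_sq (s := κ) (f := fun u => sg c (so f) (so f') u * k u c)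
    refine e1.trans ?_
    rw [Finset.mul_sum]
    refine Finset.sum_le_sum fun u _ => mul_le_mul_of_nonneg_left ?_ (Nat.cast_nonneg _)
    rw [mul_pow]
    have e2 : (sg c (so f) (so f') u) ^ 2 ≤ 1 := by
      rw [← sq_abs]
      have := abs_sg_le c (so f) (so f') u
      have h0 := abs_nonneg (sg c (so f) (so f') u)
      nlinarith
    exact mul_le_of_le_one_left (sq_nonneg _) e2
  have e3 : ev2 (Col G U L p) (fun f f' =>
        ∑ c, ∑ κ ∈ (comps G (DO U c (so f) (so f'))).filter (fun κ => κ.card ≤ m),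
          (sk k c κ (so f) (so f')) ^ 2) ≤
      ev2 (Col G U L p) (fun f f' => ∑ c, ∑ u ∈ U, (k u c) ^ 2 *
        (if (cl G U c u f f').card ≤ m then ((cl G U c u f f').card : ℝ) else 0)) := by
    refine ev2_mono fun f _ f' _ => Finset.sum_le_sum fun c _ => ?_
    have e4 := (h1 V G (DO U c (so f) (so f'))).2.2.2.2.1
      (fun u κ => (k u c) ^ 2 * (if κ.card ≤ m then (κ.card : ℝ) else 0))
    have e5 : ∑ κ ∈ (comps G (DO U c (so f) (so f'))).filter (fun κ => κ.card ≤ m),
          (sk k c κ (so f) (so f')) ^ 2 ≤ ∑ κ ∈ comps G (DO U c (so f) (so f')),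
          ∑ u ∈ κ, (k u c) ^ 2 * (if κ.card ≤ m then (κ.card : ℝ) else 0) := by
      rw [Finset.sum_filter]
      refine Finset.sum_le_sum fun κ _ => ?_
      split_ifs with hκ
      · refine (e0 c κ f f').trans (le_of_eq ?_)
        exact Finset.sum_congr rfl fun u _ => by ring
      · simp
    refine e5.trans ?_
    rw [e4]
    have e6 : ∀ u, cl G U c u f f' = cmp G (DO U c (so f) (so f')) u := by
      intro u; unfold cl; rw [DO_so]
    simp only [e6]
    refine Finset.sum_le_sum_of_subset_of_nonneg (Finset.filter_subset _ _) fun u _ _ => ?_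
    split_ifs <;> positivity
  refine e3.trans ?_
  rw [ev2_sum]
  simp only [ev2_sum, ev2_mul_left]
  rw [Finset.sum_comm]
  unfold nrm
  rw [Finset.mul_sum]
  refine Finset.sum_le_sum fun v hv => ?_
  rw [Finset.mul_sum]
  refine Finset.sum_le_sum fun c _ => ?_
  refine (mul_le_mul_of_nonneg_left (hsmall v hv c) (sq_nonneg (k v c))).trans (le_of_eq ?_)
  ring

end Pool.Agent.Ex26
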