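import Pool.Agent.Lib.MP_26a019_lc.Ex.CSpec

set_option autoImplicit false
set_option linter.unusedVariables false
set_option linter.unusedSectionVars false

open Finset Classical

namespace Pool.Agent.Ex26

open Pool.Agent.Kempe Pool.Agent.KempeMix Pool.Agent.Eps26

namespace CWAbsAux

variable {V C : Type} [Fintype V] [Fintype C] {G : SimpleGraph V} {U : Finset V}
  {L : V → Finset C} {p : V → C}

theorem DO_sx_ne {f f' : V → C} {x : V} {c : C} (hc : c ≠ f x) :
    DO U c (sx x f) (so f') = DO U c (so f) (so f') := by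
  ext u
  rw [mem_DO, mem_DO, sx_eq, so_eq, so_eq]
  by_cases h : u = x
  · subst h
    have : f u ≠ c := fun h => hc h.symm
    simp [this]
  · simp [h]

theorem sg_sx_ne {f : V → C} {φ' : V → Option C} {x : V} {c : C} (hc : c ≠ f x) (u : V) :
    sg c (sx x f) φ' u = sg c (so f) φ' u := by
  unfold sg
  by_cases h : u = x
  · subst h
    have h1 : ¬ (sx u f u = some c) := by rw [sx_eq]; simp
    have h2 : ¬ (so f u = some c) := by rw [so_eq]; exact fun h => hc h.symm
    rw [if_neg h1, if_neg h2]
  · have h1 : (sx x f u = some c) ↔ (so f u = some c) := by rw [sx_eq, so_eq]; simp [h]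
    simp only [h1]

theorem sg_sx_of_ne {f : V → C} {φ' : V → Option C} {x u : V} {c : C} (h : u ≠ x) :
    sg c (sx x f) φ' u = sg c (so f) φ' u := by
  unfold sg
  have h1 : (sx x f u = some c) ↔ (so f u = some c) := by rw [sx_eq, so_eq]; simp [h]
  simp only [h1]

theorem sk_sx_ne {f : V → C} {φ' : V → Option C} {x : V} {c : C} (hc : c ≠ f x) (k : V → C → ℝ)
    (κ : Finset V) : sk k c κ (sx x f) φ' = sk k c κ (so f) φ' := by
  unfold sk
  exact Finset.sum_congr rfl fun u _ => by rw [sg_sx_ne hc]

theorem sk_sx_notMem {f : V → C} {φ' : V → Option C} {x : V} {c : C} (k : V → C → ℝ)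
    {κ : Finset V} (hx : x ∉ κ) : sk k c κ (sx x f) φ' = sk k c κ (so f) φ' := by
  unfold sk
  refine Finset.sum_congr rfl fun u hu => ?_
  rw [sg_sx_of_ne]
  rintro rfl
  exact hx hu

theorem DO_sx_in {f f' : V → C} {x : V} (hx : x ∈ U) (h : f' x ≠ f x) :
    DO U (f x) (sx x f) (so f') = (DD U (f x) f f').erase x := by
  ext u
  rw [mem_DO, Finset.mem_erase, mem_DD, sx_eq, so_eq]
  by_cases hu : u = x
  · subst hu
    simp [h]
  · simp [hu]

theorem DO_sx_eq {f f' : V → C} {x : V} (hx : x ∈ U) (h : f' x = f x) :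
    DO U (f x) (sx x f) (so f') = insert x (DD U (f x) f f') := by
  ext u
  rw [mem_DO, Finset.mem_insert, mem_DD, sx_eq, so_eq]
  by_cases hu : u = x
  · subst hu
    simp [h, hx]
  · simp [hu]

theorem notMem_DD {f f' : V → C} {x : V} (h : f' x = f x) : x ∉ DD U (f x) f f' := by
  rw [mem_DD]
  simp [h]

theorem mem_DD' {f f' : V → C} {x : V} (hx : x ∈ U) (h : f' x ≠ f x) : x ∈ DD U (f x) f f' := by
  rw [mem_DD]
  simp [h, hx]

/-- no neighbour of `x` is in the discrepancy set if both colourings have the same colour at `x` -/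
theorem not_adj_DD {f f' : V → C} (hf : f ∈ Col G U L p) (hf' : f' ∈ Col G U L p) {x : V}
    (hx : x ∈ U) (h : f' x = f x) : ∀ u ∈ DD U (f x) f f', ¬ G.Adj x u := by
  intro u hu hadj
  obtain ⟨huU, hu2⟩ := mem_DD.1 hu
  have h1 : f u ≠ f x := fun e => (mem_Col.1 hf).2.2 x hx u huU hadj e.symm
  have h2 : f' u ≠ f x := fun e => (mem_Col.1 hf').2.2 x hx u huU hadj (h.trans e.symm)
  exact hu2 ⟨fun e => absurd e h1, fun e => absurd e h2⟩

theorem abs_sk_le (k : V → C → ℝ) (c : C) (κ : Finset V) (φ φ' : V → Option C) :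
    |sk k c κ φ φ'| ≤ nn k κ c := by
  unfold sk nn
  refine (Finset.abs_sum_le_sum_abs _ _).trans (Finset.sum_le_sum fun u _ => ?_)
  rw [abs_mul]
  exact mul_le_of_le_one_left (abs_nonneg _) (abs_sg_le c φ φ' u)

theorem nn_nonneg (k : V → C → ℝ) (κ : Finset V) (c : C) : 0 ≤ nn k κ c :=
  Finset.sum_nonneg fun _ _ => abs_nonneg _

theorem cmp_notMem {D : Finset V} {u : V} (h : u ∉ D) : cmp G D u = ∅ := by
  unfold cmp
  rw [Finset.filter_eq_empty_iff]
  intro w _ hw
  exact h hw.1

theorem cmp_mem_comps {D : Finset V} {u : V} (h : u ∈ D) : cmp G D u ∈ comps G D :=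
  Finset.mem_image_of_mem _ h

variable (h13 : CCmp) (h14 : CPiece)
include h13 h14

/-- a component not adjacent to the new vertex -/
theorem cmp_insert_of_not {D : Finset V} {x u : V} (hx : x ∉ D) (hu : u ∈ D)
    (h : ¬ ∃ w ∈ cmp G D u, G.Adj x w) : cmp G (insert x D) u = cmp G D u := by
  have h1 := (h14 V G D x hx).1
  have h2 : cmp G D u ∈ comps G (insert x D) := by
    rw [h1]
    exact Finset.mem_insert_of_mem (Finset.mem_filter.2 ⟨cmp_mem_comps hu, h⟩)
  exact ((h13 V G (insert x D)).2.2.2.2.2 _ h2).2.1 u ((h13 V G D).1 u hu)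

/-- a component adjacent to the new vertex -/
theorem mem_cmp_insert {D : Finset V} {x u : V} (hx : x ∉ D) (hu : u ∈ D)
    (h : ∃ w ∈ cmp G D u, G.Adj x w) : u ∈ cmp G (insert x D) x := by
  rw [(h14 V G D x hx).2.2.1]
  refine Finset.mem_insert_of_mem (Finset.mem_biUnion.2 ⟨cmp G D u, ?_, ?_⟩)
  · exact Finset.mem_filter.2 ⟨cmp_mem_comps hu, h⟩
  · exact (h13 V G D).1 u hu

theorem not_mem_cmp_insert {D : Finset V} {x u : V} (hx : x ∉ D) (hu : u ∈ D)
    (h : ¬ ∃ w ∈ cmp G D u, G.Adj x w) : u ∉ cmp G (insert x D) x := by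
  intro hc
  have h1 := cmp_insert_of_not h13 h14 hx hu h
  have h2 := (h13 V G (insert x D)).2.2.1 u x hc
  rw [h1] at h2
  have h3 := (h14 V G D x hx).2.1
  rw [← h2] at h3
  exact hx ((h13 V G D).2.1 u h3)

end CWAbsAux

open CWAbsAux in
theorem cWAbs_proof : CWAbs := by
  intro h13 h14 V C _ _ G U L p k m y u f f' hm hf hf' hy
  set c := f y with hc
  -- only the colour `c` contributes
  have e1 : Wm G U k m u (so f) (so f') - Wm G U k m u (sx y f) (so f') =
      sg c (so f) (so f') u * (if (cmp G (DD U c f f') u).card ≤ m then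
        sk k c (cmp G (DD U c f f') u) (so f) (so f') else 0) -
      sg c (sx y f) (so f') u * (if (cmp G (DO U c (sx y f) (so f')) u).card ≤ m then
        sk k c (cmp G (DO U c (sx y f) (so f')) u) (sx y f) (so f') else 0) := by
    unfold Wm
    rw [← Finset.sum_sub_distrib, Finset.sum_eq_single c]
    · rw [DO_so]
    · intro c' _ hne
      rw [DO_sx_ne (by rw [← hc]; exact hne), sg_sx_ne (by rw [← hc]; exact hne),
        sk_sx_ne (by rw [← hc]; exact hne)]
      ring
    · intro h; exact absurd (Finset.mem_univ _) h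
  rw [e1]
  have hR2 : 0 ≤ ∑ κ ∈ (comps G (DO U c (sx y f) (so f'))).filter
        (fun κ => κ.card ≤ m ∧ y ∈ bd G U κ ∧ u ∈ κ), nn k κ c :=
    Finset.sum_nonneg fun κ _ => nn_nonneg k κ c
  have hR1 : 0 ≤ (if u ∈ Kh G U c y f f' ∧ (Kh G U c y f f').card ≤ m then
        nn k (Kh G U c y f f') c else 0) := by
    split_ifs
    · exact nn_nonneg _ _ _
    · exact le_rfl
  have hterm : ∀ (φ : V → Option C) (κ : Finset V),
      |sg c φ (so f') u * (if κ.card ≤ m then sk k c κ φ (so f') else 0)| ≤
        (if κ.card ≤ m then nn k κ c else 0) := by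
    intro φ κ
    rw [abs_mul]
    refine (mul_le_of_le_one_left (abs_nonneg _) (abs_sg_le c φ (so f') u)).trans ?_
    split_ifs
    · exact abs_sk_le _ _ _ _ _
    · rw [abs_zero]
  by_cases h : f' y = f y
  · -- the same colour at `y`
    have hDO : DO U c (sx y f) (so f') = insert y (DD U c f f') := DO_sx_eq hy h
    have hyD : y ∉ DD U c f f' := notMem_DD h
    have hnadj := not_adj_DD hf hf' hy h
    by_cases hu : u = y
    · subst hu
      rw [cmp_notMem hyD]
      have h0 : sk k c (∅ : Finset V) (so f) (so f') = 0 := by unfold sk; simp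
      rw [h0, ite_self, mul_zero, zero_sub, abs_neg]
      refine (hterm _ _).trans ?_
      have h1 : cmp G (DO U c (sx u f) (so f')) u = Kh G U c u f f' := by
        unfold Kh; rw [hDO]
      rw [h1]
      have h2 : u ∈ Kh G U c u f f' := by
        unfold Kh
        exact (h14 V G (DD U c f f') u hyD).2.1
      simp only [h2, true_and]
      exact le_add_of_nonneg_right hR2
    · have h1 : cmp G (DO U c (sx y f) (so f')) u = cmp G (DD U c f f') u := by
        rw [hDO]
        by_cases huD : u ∈ DD U c f f'
        · refine cmp_insert_of_not h13 h14 hyD huD ?_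
          rintro ⟨w, hw, hadj⟩
          exact hnadj w ((h13 V G (DD U c f f')).2.1 u hw) hadj
        · rw [cmp_notMem huD, cmp_notMem]
          rw [Finset.mem_insert, not_or]
          exact ⟨hu, huD⟩
      rw [h1, sg_sx_of_ne hu, sk_sx_notMem k (x := y), sub_self, abs_zero]
      · exact add_nonneg hR1 hR2
      · exact fun hmem => hyD ((h13 V G (DD U c f f')).2.1 u hmem)
  · -- different colours at `y`
    have hyD : y ∈ DD U c f f' := mem_DD' hy h
    have hDO : DO U c (sx y f) (so f') = (DD U c f f').erase y := DO_sx_in hy h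
    set D' := (DD U c f f').erase y with hD'
    have hyD' : y ∉ D' := Finset.notMem_erase _ _
    have hins : insert y D' = DD U c f f' := Finset.insert_erase hyD
    have hKh : Kh G U c y f f' = cmp G (insert y D') y := by
      unfold Kh; rw [Finset.insert_eq_self.2 hyD, hins]
    have hyK : y ∈ Kh G U c y f f' := by rw [hKh]; exact (h14 V G D' y hyD').2.1
    rw [hDO]
    by_cases hu : u = y
    · subst hu
      rw [cmp_notMem hyD']
      have h0 : sk k c (∅ : Finset V) (sx u f) (so f') = 0 := by unfold sk; simp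
      rw [h0, ite_self, mul_zero, sub_zero]
      refine (hterm _ _).trans ?_
      have h1 : cmp G (DD U c f f') u = Kh G U c u f f' := by rw [hKh, hins]
      rw [h1]
      simp only [hyK, true_and]
      rw [hDO] at hR2
      exact le_add_of_nonneg_right hR2
    · by_cases huD : u ∈ D'
      · by_cases hadj : ∃ w ∈ cmp G D' u, G.Adj y w
        · -- `u` is in the cluster of `y`
          have huK : u ∈ cmp G (insert y D') y := mem_cmp_insert h13 h14 hyD' huD hadj
          have h1 : cmp G (DD U c f f') u = Kh G U c y f f' := by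
            rw [hKh, ← hins]
            exact (h13 V G (insert y D')).2.2.1 u y huK
          rw [h1]
          refine (abs_sub _ _).trans (add_le_add ?_ ?_)
          · refine (hterm _ _).trans ?_
            rw [← hKh] at huK
            simp only [huK, true_and]
            exact le_rfl
          · refine (hterm _ _).trans ?_
            by_cases hcard : (cmp G D' u).card ≤ m
            · rw [if_pos hcard]
              refine Finset.single_le_sum (f := fun κ => nn k κ c)
                (fun κ _ => nn_nonneg k κ c) ?_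
              refine Finset.mem_filter.2 ⟨cmp_mem_comps huD, hcard, ?_, (h13 V G D').1 u huD⟩
              unfold bd
              refine Finset.mem_filter.2 ⟨Finset.mem_sdiff.2 ⟨hy, fun hmem =>
                hyD' ((h13 V G D').2.1 u hmem)⟩, ?_⟩
              exact hadj
            · rw [if_neg hcard]
              rw [hDO] at hR2
              exact hR2
        · have h1 : cmp G (DD U c f f') u = cmp G D' u := by
            rw [← hins]
            exact cmp_insert_of_not h13 h14 hyD' huD hadj
          rw [h1, sg_sx_of_ne hu, sk_sx_notMem k (x := y), sub_self, abs_zero]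
          · rw [hDO] at hR2
            exact add_nonneg hR1 hR2
          · exact fun hmem => hyD' ((h13 V G D').2.1 u hmem)
      · have huD2 : u ∉ DD U c f f' := fun hmem => huD (Finset.mem_erase.2 ⟨hu, hmem⟩)
        rw [cmp_notMem huD, cmp_notMem huD2]
        have h0 : sk k c (∅ : Finset V) (sx y f) (so f') = 0 := by unfold sk; simp
        have h0' : sk k c (∅ : Finset V) (so f) (so f') = 0 := by unfold sk; simp
        rw [h0, h0', ite_self, mul_zero, mul_zero, sub_zero, abs_zero]
        rw [hDO] at hR2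
        exact add_nonneg hR1 hR2

end Pool.Agent.Ex26
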