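import Pool.Agent.Lib.MP_26a019_lc.Ex.CSpec

set_option autoImplicit false
set_option linter.unusedVariables false
set_option linter.unusedSectionVars false

/-!
# Part C: the differences of `W` in mean square (module CWSq of MP_26a019_lc)
-/

open Finset Classical

namespace Pool.Agent.Ex26

open Pool.Agent.Kempe Pool.Agent.KempeMix Pool.Agent.Eps26

namespace CWSqAux

variable {V C : Type} [Fintype V] [Fintype C]

/-- `∑_{w ∈ κ} k_w(c)^2` -/
noncomputable def SS (k : V → C → ℝ) (κ : Finset V) (c : C) : ℝ := ∑ w ∈ κ, (k w c) ^ 2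

/-- number of neighbours of `x` in `κ` -/
noncomputable def nx (G : SimpleGraph V) (U : Finset V) (x : V) (κ : Finset V) : ℝ :=
  ∑ u ∈ nb G U x, if u ∈ κ then (1 : ℝ) else 0

theorem SS_nonneg (k : V → C → ℝ) (κ : Finset V) (c : C) : 0 ≤ SS k κ c :=
  Finset.sum_nonneg fun _ _ => sq_nonneg _

theorem nn_nonneg (k : V → C → ℝ) (κ : Finset V) (c : C) : 0 ≤ nn k κ c :=
  Finset.sum_nonneg fun _ _ => abs_nonneg _

theorem nn_sq_le (k : V → C → ℝ) {κ : Finset V} {m : ℕ} (hκ : κ.card ≤ m) (c : C) :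
    nn k κ c ^ 2 ≤ m * SS k κ c := by
  have h1 : nn k κ c ^ 2 ≤ (κ.card : ℝ) * SS k κ c := by
    unfold nn SS
    refine (sq_sum_le_card_mul_sum_sq (s := κ) (f := fun w => |k w c|)).trans (le_of_eq ?_)
    simp only [sq_abs]
  refine h1.trans (mul_le_mul_of_nonneg_right ?_ (SS_nonneg k κ c))
  exact_mod_cast hκ

theorem nx_nonneg (G : SimpleGraph V) (U : Finset V) (x : V) (κ : Finset V) : 0 ≤ nx G U x κ :=
  Finset.sum_nonneg fun _ _ => by split_ifs <;> norm_num

theorem nx_le (G : SimpleGraph V) (U : Finset V) (x : V) {κ : Finset V} {m : ℕ}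
    (hκ : κ.card ≤ m) : nx G U x κ ≤ m := by
  have h1 : nx G U x κ = (((nb G U x).filter (fun u => u ∈ κ)).card : ℝ) := by
    unfold nx
    rw [← Finset.sum_filter]
    simp
  rw [h1]
  have h2 : ((nb G U x).filter (fun u => u ∈ κ)).card ≤ κ.card :=
    Finset.card_le_card fun u hu => (Finset.mem_filter.1 hu).2
  exact_mod_cast h2.trans hκ

theorem sum_nx_sq {G : SimpleGraph V} {U : Finset V} {κ : Finset V} {m : ℕ} {q : ℝ}
    (hκ : κ.card ≤ m) (hq : ∀ v ∈ U, ((nb G U v).card : ℝ) ≤ q) (hq0 : 0 ≤ q) :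
    ∑ x ∈ U, nx G U x κ ^ 2 ≤ (m : ℝ) ^ 2 * q := by
  have h1 : ∑ x ∈ U, nx G U x κ ≤ m * q := by
    unfold nx
    rw [sum_nb_comm G U (fun _ u => if u ∈ κ then (1 : ℝ) else 0)]
    have h2 : ∀ x ∈ U, (∑ u ∈ nb G U x, if x ∈ κ then (1 : ℝ) else 0) ≤
        if x ∈ κ then q else 0 := by
      intro x hx
      split_ifs
      · simpa using hq x hx
      · simp
    refine (Finset.sum_le_sum h2).trans ?_
    rw [← Finset.sum_filter, Finset.sum_const, nsmul_eq_mul]
    refine mul_le_mul_of_nonneg_right ?_ hq0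
    have h3 : (U.filter (fun x => x ∈ κ)).card ≤ κ.card :=
      Finset.card_le_card fun u hu => (Finset.mem_filter.1 hu).2
    exact_mod_cast h3.trans hκ
  calc ∑ x ∈ U, nx G U x κ ^ 2 ≤ ∑ x ∈ U, (m : ℝ) * nx G U x κ := by
        refine Finset.sum_le_sum fun x _ => ?_
        rw [sq]
        exact mul_le_mul_of_nonneg_right (nx_le G U x hκ) (nx_nonneg G U x κ)
    _ = m * ∑ x ∈ U, nx G U x κ := by rw [Finset.mul_sum]
    _ ≤ m * (m * q) := mul_le_mul_of_nonneg_left h1 (Nat.cast_nonneg m)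
    _ = (m : ℝ) ^ 2 * q := by ring

/-- the sum over `u` of the bound for the difference -/
theorem inner_le {G : SimpleGraph V} {U : Finset V} {x : V} {b : ℝ} (hb : 0 ≤ b)
    {a ω : V → ℝ} (K : Finset V) (Q : Finset (Finset V)) (A0 : ℝ) (B : Finset V → ℝ)
    (N : ℝ) (hN : (Q.card : ℝ) ≤ N) (ha : ∀ u, |a u| ≤ b)
    (hω : ∀ u, |ω u| ≤ (if u ∈ K then A0 else 0) + ∑ κ ∈ Q, if u ∈ κ then B κ else 0) :
    (∑ u ∈ nb G U x, a u * ω u) ^ 2 ≤
      b ^ 2 * (2 * (nx G U x K ^ 2 * A0 ^ 2) + 2 * (N * ∑ κ ∈ Q, nx G U x κ ^ 2 * B κ ^ 2)) := by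
  obtain ⟨R, hR⟩ : ∃ R : ℝ, R = nx G U x K * A0 + ∑ κ ∈ Q, nx G U x κ * B κ := ⟨_, rfl⟩
  have h1 : |∑ u ∈ nb G U x, a u * ω u| ≤ b * R := by
    calc |∑ u ∈ nb G U x, a u * ω u| ≤ ∑ u ∈ nb G U x, |a u * ω u| :=
          Finset.abs_sum_le_sum_abs _ _
      _ ≤ ∑ u ∈ nb G U x, b * ((if u ∈ K then A0 else 0) + ∑ κ ∈ Q, if u ∈ κ then B κ else 0) := by
          refine Finset.sum_le_sum fun u _ => ?_
          rw [abs_mul]
          exact mul_le_mul (ha u) (hω u) (abs_nonneg _) hb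
      _ = b * R := by
          rw [← Finset.mul_sum, Finset.sum_add_distrib, hR, Finset.sum_comm]
          unfold nx
          congr 2
          · rw [Finset.sum_mul]
            exact Finset.sum_congr rfl fun u _ => by split_ifs <;> ring
          · refine Finset.sum_congr rfl fun κ _ => ?_
            rw [Finset.sum_mul]
            exact Finset.sum_congr rfl fun u _ => by split_ifs <;> ring
  have h2 : (∑ u ∈ nb G U x, a u * ω u) ^ 2 ≤ b ^ 2 * R ^ 2 := by
    rw [← sq_abs, ← mul_pow]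
    exact pow_le_pow_left₀ (abs_nonneg _) h1 2
  refine h2.trans (mul_le_mul_of_nonneg_left ?_ (sq_nonneg b))
  have h3 : (∑ κ ∈ Q, nx G U x κ * B κ) ^ 2 ≤ N * ∑ κ ∈ Q, nx G U x κ ^ 2 * B κ ^ 2 := by
    refine (sq_sum_le_card_mul_sum_sq (s := Q) (f := fun κ => nx G U x κ * B κ)).trans ?_
    simp only [mul_pow]
    exact mul_le_mul_of_nonneg_right hN
      (Finset.sum_nonneg fun κ _ => mul_nonneg (sq_nonneg _) (sq_nonneg _))
  rw [hR]
  nlinarith [sq_nonneg (nx G U x K * A0 - ∑ κ ∈ Q, nx G U x κ * B κ)]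

end CWSqAux

open CWSqAux

/-- **CWSq** -/
theorem cWSq_proof : CWSq := by
  intro hCmp hPiece hWAbs ε m hε
  refine ⟨2 * (m : ℝ) ^ 4 / ε ^ 2, by positivity, ?_⟩
  intro V C _ _ G U L p s k a f f' hReg hm hf hf' ha
  obtain ⟨-, hεq, hGood⟩ := hReg
  rcases U.eq_empty_or_nonempty with hU | ⟨v0, hv0⟩
  · rw [hU, Finset.sum_empty]
    refine mul_nonneg (by positivity) ?_
    unfold CR
    refine Finset.sum_nonneg fun c _ => Finset.sum_nonneg fun κ _ => ?_
    split_ifs
    · refine mul_nonneg (Finset.sum_nonneg fun _ _ => sq_nonneg _) ?_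
      unfold PsiW YZ
      refine mul_nonneg (by positivity) (add_nonneg zero_le_one (Finset.sum_nonneg fun _ _ => ?_))
      split_ifs
      · positivity
      · exact le_rfl
    · exact le_rfl
  -- the constants
  have hm1 : (1 : ℝ) ≤ m := by exact_mod_cast hm
  have hs2 : (2 : ℝ) ≤ s := by exact_mod_cast hGood.1
  have hs0 : (0 : ℝ) < s := by linarith
  obtain ⟨q, hqdef⟩ : ∃ q : ℝ, q = (Fintype.card C : ℝ) := ⟨_, rfl⟩
  have hq0 : 0 < q := by
    have h1 := card_nb_le_card hGood hv0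
    have h2 := hGood.1
    rw [hqdef]
    exact_mod_cast (by omega : 0 < Fintype.card C)
  have hqnb : ∀ v ∈ U, ((nb G U v).card : ℝ) ≤ q := by
    intro v hv
    have h1 := card_nb_le_card hGood hv
    rw [hqdef]
    exact_mod_cast (by omega : (nb G U v).card ≤ Fintype.card C)
  rw [← hqdef] at hεq
  have hproper := (mem_Col.1 hf).2.2
  -- the pieces
  obtain ⟨D, hD⟩ : ∃ D : V → Finset V, ∀ y, D y = DO U (f y) (sx y f) (so f') := ⟨_, fun _ => rfl⟩
  obtain ⟨K, hK⟩ : ∃ K : V → Finset V, ∀ y, K y = Kh G U (f y) y f f' := ⟨_, fun _ => rfl⟩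
  obtain ⟨Q, hQ⟩ : ∃ Q : V → Finset (Finset V), ∀ y, Q y =
      (comps G (D y)).filter (fun κ => κ.card ≤ m ∧ y ∈ bd G U κ) := ⟨_, fun _ => rfl⟩
  have hbd : ∀ {y : V} {κ : Finset V}, y ∈ bd G U κ → y ∈ U ∧ y ∉ κ ∧ ∃ u ∈ κ, G.Adj y u := by
    intro y κ h
    unfold bd at h
    obtain ⟨h1, h2⟩ := Finset.mem_filter.1 h
    exact ⟨(Finset.mem_sdiff.1 h1).1, (Finset.mem_sdiff.1 h1).2, h2⟩
  have hQcard : ∀ y ∈ U, ((Q y).card : ℝ) ≤ (NP G U (f y) y f' : ℝ) := by
    intro y hy
    have h1 : Q y ⊆ ((nb G U y).filter (fun z => f' z = f y)).image (cmp G (D y)) := by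
      intro κ hκ
      rw [hQ] at hκ
      obtain ⟨hκ1, hκ2, hκ3⟩ := Finset.mem_filter.1 hκ
      obtain ⟨_, _, u, hu, hadj⟩ := hbd hκ3
      have h2 := (hCmp V G (D y)).2.2.2.2.2 κ hκ1
      have h3 : u ∈ D y := by
        have h4 := (hCmp V G (D y)).2.1 u
        rw [h2.2.1 u hu] at h4
        exact h4 hu
      rw [hD, mem_DO] at h3
      have h5 : f u ≠ f y := fun h => hproper y hy u h3.1 hadj h.symm
      refine Finset.mem_image.2 ⟨u, Finset.mem_filter.2 ⟨mem_nb.2 ⟨h3.1, hadj⟩, ?_⟩, h2.2.1 u hu⟩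
      by_contra h6
      apply h3.2
      rw [sx_eq, so_eq]
      constructor
      · rintro ⟨-, h7⟩
        exact absurd h7 h5
      · intro h7
        exact absurd h7 h6
    have h2 := (Finset.card_le_card h1).trans Finset.card_image_le
    unfold NP
    exact_mod_cast h2
  -- small clusters are in `CC`
  have hCC : ∀ (D' κ : Finset V), D' ⊆ U → κ ∈ comps G D' → κ.card ≤ m → κ ∈ CC G U m := by
    intro D' κ hD' hκ hκm
    have h2 := (hCmp V G D').2.2.2.2.2 κ hκ
    have h3 : κ ⊆ D' := by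
      obtain ⟨u, hu⟩ := h2.1
      have h4 := (hCmp V G D').2.1 u
      rwa [h2.2.1 u hu] at h4
    unfold CC
    exact Finset.mem_filter.2 ⟨Finset.mem_powerset.2 (h3.trans hD'), h2.1, hκm, h2.2.2⟩
  obtain ⟨mono, hmono⟩ : ∃ mono : C → Finset V → Prop, ∀ c κ, mono c κ ↔
      ∀ u ∈ κ, f u = c ∨ f' u = c := ⟨_, fun _ _ => Iff.rfl⟩
  -- one vertex `y`
  obtain ⟨T, hT⟩ : ∃ T : V → ℝ, ∀ y, T y = (if (K y).card ≤ m then SS k (K y) (f y) else 0) +
      (NP G U (f y) y f' : ℝ) * ∑ κ ∈ Q y, SS k κ (f y) := ⟨_, fun _ => rfl⟩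
  have hstep1 : ∀ y ∈ U, ∑ x ∈ U, (∑ u ∈ nb G U x, a x u * (Wm G U k m u (so f) (so f') -
      Wm G U k m u (sx y f) (so f'))) ^ 2 ≤ (1 / (s : ℝ)) ^ 2 * (2 * (m : ℝ) ^ 3 * q) * T y := by
    intro y hy
    obtain ⟨A0, hA0⟩ : ∃ A0 : ℝ, A0 = if (K y).card ≤ m then nn k (K y) (f y) else 0 := ⟨_, rfl⟩
    have h1 : ∀ x ∈ U, (∑ u ∈ nb G U x, a x u * (Wm G U k m u (so f) (so f') -
        Wm G U k m u (sx y f) (so f'))) ^ 2 ≤ (1 / (s : ℝ)) ^ 2 * (2 * (nx G U x (K y) ^ 2 * A0 ^ 2) +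
          2 * ((NP G U (f y) y f' : ℝ) * ∑ κ ∈ Q y, nx G U x κ ^ 2 * nn k κ (f y) ^ 2)) := by
      intro x _
      refine inner_le (by positivity) (K y) (Q y) A0 (fun κ => nn k κ (f y))
        (NP G U (f y) y f' : ℝ) (hQcard y hy) (ha x) fun u => ?_
      refine (hWAbs hCmp hPiece V C G U L p k m y u f f' hm hf hf' hy).trans
        (add_le_add ?_ (le_of_eq ?_))
      · rw [← hK, hA0]
        by_cases h2 : u ∈ K y <;> by_cases h3 : (K y).card ≤ m <;> simp [h2, h3]
      · rw [← hD, hQ, ← Finset.sum_filter, Finset.filter_filter]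
        refine Finset.sum_congr (Finset.filter_congr fun κ _ => ?_) fun _ _ => rfl
        rw [and_assoc]
    refine (Finset.sum_le_sum h1).trans ?_
    rw [← Finset.mul_sum, mul_assoc]
    refine mul_le_mul_of_nonneg_left ?_ (sq_nonneg _)
    rw [Finset.sum_add_distrib, ← Finset.mul_sum, ← Finset.mul_sum, ← Finset.mul_sum,
      ← Finset.sum_mul, Finset.sum_comm, hT]
    have hA : (∑ x ∈ U, nx G U x (K y) ^ 2) * A0 ^ 2 ≤
        (m : ℝ) ^ 3 * q * (if (K y).card ≤ m then SS k (K y) (f y) else 0) := by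
      rw [hA0]
      split_ifs with h2
      · calc (∑ x ∈ U, nx G U x (K y) ^ 2) * nn k (K y) (f y) ^ 2 ≤
            ((m : ℝ) ^ 2 * q) * (m * SS k (K y) (f y)) :=
              mul_le_mul (sum_nx_sq h2 hqnb hq0.le) (nn_sq_le k h2 _) (sq_nonneg _) (by positivity)
          _ = (m : ℝ) ^ 3 * q * SS k (K y) (f y) := by ring
      · simp
    have hB : ∑ κ ∈ Q y, ∑ x ∈ U, nx G U x κ ^ 2 * nn k κ (f y) ^ 2 ≤
        (m : ℝ) ^ 3 * q * ∑ κ ∈ Q y, SS k κ (f y) := by
      rw [Finset.mul_sum]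
      refine Finset.sum_le_sum fun κ hκ => ?_
      rw [hQ] at hκ
      have h2 := (Finset.mem_filter.1 hκ).2.1
      rw [← Finset.sum_mul]
      calc (∑ x ∈ U, nx G U x κ ^ 2) * nn k κ (f y) ^ 2 ≤
            ((m : ℝ) ^ 2 * q) * (m * SS k κ (f y)) :=
              mul_le_mul (sum_nx_sq h2 hqnb hq0.le) (nn_sq_le k h2 _) (sq_nonneg _) (by positivity)
          _ = (m : ℝ) ^ 3 * q * SS k κ (f y) := by ring
    have hNP : (0 : ℝ) ≤ (NP G U (f y) y f' : ℝ) := Nat.cast_nonneg _
    have hB' := mul_le_mul_of_nonneg_left hB hNP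
    nlinarith
  have hstep2 : ∀ y ∈ U, T y ≤ ∑ κ ∈ CC G U m, (if mono (f y) κ then SS k κ (f y) *
      ((if y ∈ κ then 1 else 0) + if y ∈ bd G U κ then (NP G U (f y) y f' : ℝ) else 0) else 0) := by
    intro y hy
    have hnon : ∀ κ ∈ CC G U m, 0 ≤ (if mono (f y) κ then SS k κ (f y) *
        (if y ∈ κ then 1 else 0) else 0) := by
      intro κ _
      split_ifs
      · exact mul_nonneg (SS_nonneg _ _ _) zero_le_one
      · exact mul_nonneg (SS_nonneg _ _ _) le_rfl
      · exact le_rfl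
    have hnon' : ∀ κ ∈ CC G U m, 0 ≤ (if mono (f y) κ then SS k κ (f y) *
        (if y ∈ bd G U κ then (NP G U (f y) y f' : ℝ) else 0) else 0) := by
      intro κ _
      split_ifs
      · exact mul_nonneg (SS_nonneg _ _ _) (Nat.cast_nonneg _)
      · exact mul_nonneg (SS_nonneg _ _ _) le_rfl
      · exact le_rfl
    have h1 : (if (K y).card ≤ m then SS k (K y) (f y) else 0) ≤
        ∑ κ ∈ CC G U m, (if mono (f y) κ then SS k κ (f y) * (if y ∈ κ then 1 else 0) else 0) := by
      split_ifs with hKm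
      · have hKy : K y = cmp G (insert y (DD U (f y) f f')) y := by rw [hK]; rfl
        have hDU : insert y (DD U (f y) f f') ⊆ U := by
          intro u hu
          rcases Finset.mem_insert.1 hu with rfl | hu
          · exact hy
          · exact (mem_DD.1 hu).1
        have hmem : K y ∈ comps G (insert y (DD U (f y) f f')) := by
          rw [hKy]
          exact Finset.mem_image_of_mem _ (Finset.mem_insert_self _ _)
        have hyK : y ∈ K y := by
          rw [hKy]
          exact (hCmp V G _).1 y (Finset.mem_insert_self _ _)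
        have hm' : mono (f y) (K y) := by
          rw [hmono]
          intro u hu
          rw [hKy] at hu
          rcases Finset.mem_insert.1 ((hCmp V G _).2.1 y hu) with rfl | h2
          · exact Or.inl rfl
          · have h3 := (mem_DD.1 h2).2
            by_contra h4
            push Not at h4
            exact h3 ⟨fun h => absurd h h4.1, fun h => absurd h h4.2⟩
        have h2 := Finset.single_le_sum hnon (hCC _ _ hDU hmem hKm)
        rwa [if_pos hm', if_pos hyK, mul_one] at h2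
      · exact Finset.sum_nonneg hnon
    have h2 : (NP G U (f y) y f' : ℝ) * ∑ κ ∈ Q y, SS k κ (f y) ≤
        ∑ κ ∈ CC G U m, (if mono (f y) κ then SS k κ (f y) *
          (if y ∈ bd G U κ then (NP G U (f y) y f' : ℝ) else 0) else 0) := by
      have hDU : D y ⊆ U := by
        intro u hu
        rw [hD, mem_DO] at hu
        exact hu.1
      have h3 : ∀ κ ∈ Q y, κ ∈ CC G U m ∧ mono (f y) κ ∧ y ∈ bd G U κ := by
        intro κ hκ
        rw [hQ] at hκ
        obtain ⟨hκ1, hκ2, hκ3⟩ := Finset.mem_filter.1 hκ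
        refine ⟨hCC _ _ hDU hκ1 hκ2, ?_, hκ3⟩
        rw [hmono]
        intro u hu
        have h4 : u ∈ D y := by
          have h5 := (hCmp V G (D y)).2.1 u
          rw [((hCmp V G (D y)).2.2.2.2.2 κ hκ1).2.1 u hu] at h5
          exact h5 hu
        rw [hD, mem_DO, sx_eq, so_eq] at h4
        by_contra h5
        push Not at h5
        exact h4.2 ⟨fun h => absurd h.2 h5.1, fun h => absurd h h5.2⟩
      calc (NP G U (f y) y f' : ℝ) * ∑ κ ∈ Q y, SS k κ (f y) =
          ∑ κ ∈ Q y, (if mono (f y) κ then SS k κ (f y) *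
            (if y ∈ bd G U κ then (NP G U (f y) y f' : ℝ) else 0) else 0) := by
            rw [Finset.mul_sum]
            refine Finset.sum_congr rfl fun κ hκ => ?_
            obtain ⟨_, h5, h6⟩ := h3 κ hκ
            rw [if_pos h5, if_pos h6, mul_comm]
        _ ≤ _ := Finset.sum_le_sum_of_subset_of_nonneg (fun κ hκ => (h3 κ hκ).1)
            fun κ hκ _ => hnon' κ hκ
    rw [hT]
    refine (add_le_add h1 h2).trans (le_of_eq ?_)
    rw [← Finset.sum_add_distrib]
    refine Finset.sum_congr rfl fun κ _ => ?_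
    split_ifs <;> ring
  have hstep3 : ∑ y ∈ U, T y ≤ m * q * CR G U k m (PsiW G U) f f' := by
    refine (Finset.sum_le_sum hstep2).trans ?_
    have h1 : ∀ y ∈ U, ∑ κ ∈ CC G U m, (if mono (f y) κ then SS k κ (f y) *
        ((if y ∈ κ then 1 else 0) + if y ∈ bd G U κ then (NP G U (f y) y f' : ℝ) else 0) else 0) =
        ∑ c, ∑ κ ∈ CC G U m, (if f y = c then (if mono c κ then SS k κ c *
          ((if y ∈ κ then 1 else 0) + if y ∈ bd G U κ then (NP G U c y f' : ℝ) else 0) else 0)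
            else 0) := by
      intro y _
      rw [Finset.sum_comm]
      refine Finset.sum_congr rfl fun κ _ => ?_
      rw [Finset.sum_ite_eq]
      simp
    rw [Finset.sum_congr rfl h1, Finset.sum_comm]
    unfold CR
    rw [Finset.mul_sum]
    refine Finset.sum_le_sum fun c _ => ?_
    rw [Finset.sum_comm, Finset.mul_sum]
    refine Finset.sum_le_sum fun κ hκ => ?_
    unfold CC at hκ
    obtain ⟨hκ1, hκ2, hκ3, hκ4⟩ := Finset.mem_filter.1 hκ
    by_cases hmo : mono c κ
    · rw [if_pos ((hmono c κ).1 hmo)]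
      simp only [if_pos hmo]
      have h2 : ∀ y ∈ U, (if f y = c then SS k κ c *
          ((if y ∈ κ then 1 else 0) + if y ∈ bd G U κ then (NP G U c y f' : ℝ) else 0) else 0) ≤
          SS k κ c * ((if y ∈ κ then 1 else 0) +
            if y ∈ bd G U κ then (if f y = c then (NP G U c y f' : ℝ) else 0) else 0) := by
        intro y _
        have h3 := SS_nonneg k κ c
        by_cases h4 : f y = c
        · simp only [if_pos h4]
          exact le_rfl
        · simp only [if_neg h4]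
          refine mul_nonneg h3 ?_
          split_ifs <;> norm_num
      refine (Finset.sum_le_sum h2).trans ?_
      rw [← Finset.mul_sum, Finset.sum_add_distrib]
      have h5 : (∑ y ∈ U, if y ∈ κ then (1 : ℝ) else 0) ≤ m := by
        rw [← Finset.sum_filter, Finset.sum_const, nsmul_eq_mul, mul_one]
        have h3 : (U.filter (fun x => x ∈ κ)).card ≤ κ.card :=
          Finset.card_le_card fun u hu => (Finset.mem_filter.1 hu).2
        exact_mod_cast h3.trans hκ3
      have h6 : (∑ y ∈ U, if y ∈ bd G U κ then (if f y = c then (NP G U c y f' : ℝ) else 0) else 0) =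
          ∑ y ∈ bd G U κ, if f y = c then (NP G U c y f' : ℝ) else 0 := by
        rw [← Finset.sum_filter]
        refine Finset.sum_congr ?_ fun _ _ => rfl
        ext y
        rw [Finset.mem_filter]
        exact ⟨fun h => h.2, fun h => ⟨(hbd h).1, h⟩⟩
      have h7 : (∑ y ∈ bd G U κ, if f y = c then (NP G U c y f' : ℝ) else 0) ≤
          ∑ y ∈ bd G U κ, if f y = c then 1 + (NP G U c y f' : ℝ) else 0 := by
        refine Finset.sum_le_sum fun y _ => ?_
        split_ifs
        · linarith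
        · exact le_rfl
      have h8 : (0 : ℝ) ≤ ∑ y ∈ bd G U κ, if f y = c then 1 + (NP G U c y f' : ℝ) else 0 := by
        refine Finset.sum_nonneg fun y _ => ?_
        split_ifs
        · positivity
        · exact le_rfl
      have h9 : (m : ℝ) * q * ((∑ w ∈ κ, k w c ^ 2) * PsiW G U c κ f f') =
          SS k κ c * (m * YZ G U c κ f f') := by
        unfold PsiW CWSqAux.SS
        rw [← hqdef]
        field_simp
      rw [h9, h6]
      refine mul_le_mul_of_nonneg_left ?_ (SS_nonneg k κ c)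
      unfold YZ
      nlinarith
    · rw [if_neg fun h => hmo ((hmono c κ).2 h), mul_zero]
      refine le_of_eq (Finset.sum_eq_zero fun y _ => ?_)
      simp [hmo]
  have hCR : 0 ≤ CR G U k m (PsiW G U) f f' := by
    unfold CR
    refine Finset.sum_nonneg fun c _ => Finset.sum_nonneg fun κ _ => ?_
    split_ifs
    · refine mul_nonneg (Finset.sum_nonneg fun _ _ => sq_nonneg _) ?_
      unfold PsiW YZ
      refine mul_nonneg (by positivity) (add_nonneg zero_le_one (Finset.sum_nonneg fun _ _ => ?_))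
      split_ifs
      · positivity
      · exact le_rfl
    · exact le_rfl
  rw [Finset.sum_comm]
  refine (Finset.sum_le_sum hstep1).trans ?_
  rw [← Finset.mul_sum]
  calc (1 / (s : ℝ)) ^ 2 * (2 * (m : ℝ) ^ 3 * q) * ∑ y ∈ U, T y ≤
      (1 / (s : ℝ)) ^ 2 * (2 * (m : ℝ) ^ 3 * q) * (m * q * CR G U k m (PsiW G U) f f') :=
        mul_le_mul_of_nonneg_left hstep3 (by positivity)
    _ = (q / s) ^ 2 * (2 * (m : ℝ) ^ 4 * CR G U k m (PsiW G U) f f') := by ring
    _ ≤ (1 / ε) ^ 2 * (2 * (m : ℝ) ^ 4 * CR G U k m (PsiW G U) f f') := by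
        refine mul_le_mul_of_nonneg_right (pow_le_pow_left₀ (by positivity) ?_ 2) (by positivity)
        rw [div_le_div_iff₀ hs0 hε]
        linarith
    _ = 2 * (m : ℝ) ^ 4 / ε ^ 2 * CR G U k m (PsiW G U) f f' := by ring

end Pool.Agent.Ex26
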