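import Pool.Agent.Lib.MP_26a019_lc.Ex.CSpec

set_option autoImplicit false

open Finset Classical

namespace Pool.Agent.Ex26

open Pool.Agent.Kempe Pool.Agent.KempeMix Pool.Agent.Eps26

theorem cWh_proof : CWh := by
  intro h1 V C _ _ G U k h m φ φ'
  have e1 : ∀ c, ∑ κ ∈ (comps G (DO U c φ φ')).filter (fun κ => κ.card ≤ m),
        sk k c κ φ φ' * sk (fun v _ => h v) c κ φ φ' =
      ∑ u ∈ U, h u * (sg c φ φ' u * (if (cmp G (DO U c φ φ') u).card ≤ m then
        sk k c (cmp G (DO U c φ φ') u) φ φ' else 0)) := by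
    intro c
    have e2 := (h1 V G (DO U c φ φ')).2.2.2.2.1
      (fun u κ => sg c φ φ' u * h u * (if κ.card ≤ m then sk k c κ φ φ' else 0))
    rw [Finset.sum_filter]
    have e3 : ∀ κ ∈ comps G (DO U c φ φ'), (if κ.card ≤ m then
        sk k c κ φ φ' * sk (fun v _ => h v) c κ φ φ' else 0) =
        ∑ u ∈ κ, sg c φ φ' u * h u * (if κ.card ≤ m then sk k c κ φ φ' else 0) := by
      intro κ _
      rw [← Finset.sum_mul]
      split_ifs
      · rw [mul_comm]; rfl
      · rw [mul_zero]
    rw [Finset.sum_congr rfl e3, e2]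
    refine (Finset.sum_subset (Finset.filter_subset _ _) fun u hu hn => ?_).trans
      (Finset.sum_congr rfl fun u _ => by ring)
    have : (φ u = some c ↔ φ' u = some c) := by
      by_contra h
      exact hn (mem_DO.2 ⟨hu, h⟩)
    unfold sg
    simp only [this, sub_self, zero_mul]
  simp only [e1]
  rw [Finset.sum_comm]
  refine Finset.sum_congr rfl fun u _ => ?_
  unfold Wm
  rw [Finset.mul_sum]

end Pool.Agent.Ex26
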