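import Pool.Agent.Lib.MP_26a019_lc.Ex.CSpec

set_option autoImplicit false
set_option linter.unusedVariables false

/-!
# Part C: few vertices cut off a small piece containing `v`
-/

open Finset Classical

namespace Pool.Agent.Ex26

open Pool.Agent.Kempe Pool.Agent.KempeMix Pool.Agent.Eps26

namespace CXCountAux

variable {V : Type} [Fintype V]

theorem mem_cmp' {G : SimpleGraph V} {D : Finset V} {v u : V} :
    u ∈ cmp G D v ↔ u ∈ D ∧ v ∈ D ∧ (rst G D).Reachable v u := by
  unfold cmp; rw [Finset.mem_filter]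

theorem self_mem {G : SimpleGraph V} {D : Finset V} {v : V} (hv : v ∈ D) : v ∈ cmp G D v :=
  mem_cmp'.2 ⟨hv, hv, SimpleGraph.Reachable.refl v⟩

theorem step {G : SimpleGraph V} {D : Finset V} {v u w : V} (hu : u ∈ cmp G D v) (hw : w ∈ D)
    (h : G.Adj u w) : w ∈ cmp G D v := by
  obtain ⟨h1, h2, h3⟩ := mem_cmp'.1 hu
  exact mem_cmp'.2 ⟨hw, h2, h3.trans (SimpleGraph.Adj.reachable ⟨h, h1, hw⟩)⟩

/-- the component is the smallest set containing `v` and closed under adjacency in `D` -/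
theorem ind {G : SimpleGraph V} {D : Finset V} {v : V} {Q : V → Prop} (h0 : Q v)
    (hs : ∀ u ∈ cmp G D v, ∀ w ∈ D, G.Adj u w → Q u → Q w) :
    ∀ u ∈ cmp G D v, Q u := by
  intro u hu
  obtain ⟨h1, h2, h3⟩ := mem_cmp'.1 hu
  rw [SimpleGraph.reachable_iff_reflTransGen] at h3
  have : u ∈ cmp G D v ∧ Q u := by
    clear hu h1
    induction h3 with
    | refl => exact ⟨self_mem h2, h0⟩
    | tail _ hab ih =>
      obtain ⟨ha, hb, hc⟩ := hab
      exact ⟨step ih.1 hc ha, hs _ ih.1 _ hc ha ih.2⟩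
  exact this.2

theorem sub {G : SimpleGraph V} {D : Finset V} {v x x' : V} (hv : v ∈ D) (hvx' : x' ≠ v)
    (h : x' ∉ cmp G (D.erase x) v) :
    cmp G (D.erase x) v ⊆ cmp G (D.erase x') v := by
  intro u hu
  refine ind (Q := fun u => u ∈ cmp G (D.erase x') v) (self_mem (Finset.mem_erase.2 ⟨hvx'.symm, hv⟩))
    (fun u hu w hw huw hQ => ?_) u hu
  have hw' : w ∈ cmp G (D.erase x) v := step hu hw huw
  have hne : w ≠ x' := fun h' => h (h' ▸ hw')
  exact step hQ (Finset.mem_erase.2 ⟨hne, Finset.mem_of_mem_erase hw⟩) huw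

theorem lt {G : SimpleGraph V} {D : Finset V} {v x x' : V} (hv : v ∈ D) (hxv : x ≠ v)
    (hx'v : x' ≠ v) (hxx' : x ≠ x') (hx : x ∈ cmp G D v) (h : x' ∉ cmp G (D.erase x) v) :
    (cmp G (D.erase x) v).card < (cmp G (D.erase x') v).card := by
  have hsub := sub hv hx'v h
  have hxD : x ∈ D := (mem_cmp'.1 hx).1
  have hnot : x ∉ cmp G (D.erase x) v := fun h' =>
    Finset.notMem_erase x D (mem_cmp'.1 h').1
  have key : x ∈ cmp G (D.erase x) v ∨ x ∈ cmp G (D.erase x') v := by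
    refine ind (Q := fun u => u ∈ cmp G (D.erase x) v ∨ x ∈ cmp G (D.erase x') v)
      (Or.inl (self_mem (Finset.mem_erase.2 ⟨hxv.symm, hv⟩))) (fun u hu w hw huw hQ => ?_) x hx
    rcases hQ with hQ | hQ
    · by_cases hwx : w = x
      · subst hwx
        exact Or.inr (step (hsub hQ) (Finset.mem_erase.2 ⟨hxx', hw⟩) huw)
      · exact Or.inl (step hQ (Finset.mem_erase.2 ⟨hwx, hw⟩) huw)
    · exact Or.inr hQ
  have hin : x ∈ cmp G (D.erase x') v := key.resolve_left hnot
  exact Finset.card_lt_card ⟨hsub, fun hle => hnot (hle hin)⟩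

end CXCountAux

open CXCountAux in
/-- **CXCount** -/
theorem cXCount_proof : CXCount := by
  intro V _ G D v m hv
  set S := D.filter (fun x => x ≠ v ∧ x ∈ cmp G D v ∧ (cmp G (D.erase x) v).card ≤ m) with hS
  have hmem : ∀ x ∈ S, x ∈ D ∧ x ≠ v ∧ x ∈ cmp G D v ∧ (cmp G (D.erase x) v).card ≤ m := by
    intro x hx
    rw [hS, Finset.mem_filter] at hx
    exact hx
  rcases S.eq_empty_or_nonempty with h0 | hne
  · rw [h0]; simp
  obtain ⟨x, hx, hmax⟩ := Finset.exists_max_image S (fun x => (cmp G (D.erase x) v).card) hne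
  obtain ⟨hxD, hxv, hxc, hxm⟩ := hmem x hx
  have hsub : S.erase x ⊆ (cmp G (D.erase x) v).erase v := by
    intro x' hx'
    rw [Finset.mem_erase] at hx'
    obtain ⟨_, hx'v, _, _⟩ := hmem x' hx'.2
    rw [Finset.mem_erase]
    refine ⟨hx'v, ?_⟩
    by_contra hcon
    have h1 := CXCountAux.lt hv hxv hx'v hx'.1.symm hxc hcon
    have h2 := hmax x' hx'.2
    omega
  have hvin : v ∈ cmp G (D.erase x) v := self_mem (Finset.mem_erase.2 ⟨hxv.symm, hv⟩)
  have h1 := Finset.card_le_card hsub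
  have h2 := Finset.card_erase_add_one hvin
  have h3 := Finset.card_erase_add_one hx
  omega

end Pool.Agent.Ex26
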