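import Pool.Agent.Lib.MP_26a019_lc.Ex.CSpec

set_option autoImplicit false
set_option linter.unusedVariables false
set_option linter.unusedSectionVars false

/-!
# Module `CZAbs`: the difference `Z - Z^x` and its linear part
-/

open Finset Classical

namespace Pool.Agent.Ex26

open Pool.Agent.Kempe Pool.Agent.KempeMix Pool.Agent.Eps26

namespace CZAbsAux

variable {V C : Type} [Fintype V] [Fintype C]

theorem sx_so {x u : V} {f : V → C} {c : C} (h : u ≠ x ∨ f x ≠ c) :
    (sx x f u = some c ↔ so f u = some c) := by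
  rw [sx_eq, so_eq]
  constructor
  · exact fun h' => h'.2
  · intro h'
    refine ⟨fun hu => ?_, h'⟩
    rcases h with h | h
    · exact h hu
    · subst hu; exact h h'

theorem DO_sx {U : Finset V} {x : V} {f f' : V → C} {c : C} (h : f x ≠ c) :
    DO U c (sx x f) (so f') = DO U c (so f) (so f') := by
  ext u
  rw [mem_DO, mem_DO, sx_so (Or.inr h)]

theorem sg_sx {x u : V} {f : V → C} {c : C} (φ' : V → Option C) (h : u ≠ x ∨ f x ≠ c) :
    sg c (sx x f) φ' u = sg c (so f) φ' u := by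
  unfold sg
  simp only [sx_so h]

theorem sk_sx {x : V} {f : V → C} {c : C} {κ : Finset V} (k : V → C → ℝ) (φ' : V → Option C)
    (h : x ∉ κ ∨ f x ≠ c) : sk k c κ (sx x f) φ' = sk k c κ (so f) φ' := by
  unfold sk
  refine Finset.sum_congr rfl fun u hu => ?_
  rw [sg_sx φ']
  rcases h with h | h
  · exact Or.inl fun h' => h (h' ▸ hu)
  · exact Or.inr h

theorem bO_sx {G : SimpleGraph V} {U : Finset V} {L : V → Finset C} {κ : Finset V} {c : C}
    {x u : V} {f : V → C} (h : x ∈ κ ∨ ¬ G.Adj u x) :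
    bO G U L κ c (sx x f) u = bO G U L κ c (so f) u := by
  unfold bO
  rw [avO_sx, avO_so]
  have h1 : avX G U L (insert x κ) f u = avX G U L κ f u := by
    rcases h with h | h
    · rw [Finset.insert_eq_self.2 h]
    · ext a
      rw [mem_avX, mem_avX]
      refine and_congr_right fun _ => forall₂_congr fun w hw => ?_
      have hwx : w ≠ x := fun h' => h (h' ▸ (mem_nb.1 hw).2)
      rw [Finset.mem_insert, not_or]
      constructor
      · exact fun h1 h2 => h1 ⟨hwx, h2⟩
      · exact fun h1 h2 => h1 h2.2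
  rw [h1]

theorem ro_sx {G : SimpleGraph V} {U : Finset V} {L : V → Finset C} {κ : Finset V} {c : C}
    {x : V} {f : V → C} (φ' : V → Option C)
    (h : (x ∈ κ ∧ f x ≠ c) ∨ (x ∉ κ ∧ ∀ u ∈ κ, ¬ G.Adj x u)) :
    ro G U L c κ (sx x f) φ' = ro G U L c κ (so f) φ' := by
  unfold ro
  refine Finset.prod_congr rfl fun u hu => ?_
  rcases h with h | h
  · rw [bO_sx (Or.inl h.1)]
    simp only [sx_so (u := u) (Or.inr h.2)]
  · rw [bO_sx (Or.inr fun h' => h.2 u hu h'.symm)]
    have hux : u ≠ x := fun h' => h.1 (h' ▸ hu)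
    simp only [sx_so (c := c) (f := f) (Or.inl hux)]

theorem abs_sk_le (k : V → C → ℝ) (c : C) (κ : Finset V) (φ φ' : V → Option C) :
    |sk k c κ φ φ'| ≤ nn k κ c := by
  unfold sk nn
  refine (Finset.abs_sum_le_sum_abs _ _).trans (Finset.sum_le_sum fun u _ => ?_)
  rw [abs_mul]
  have h1 := abs_sg_le c φ φ' u
  have h2 := abs_nonneg (k u c)
  nlinarith

theorem nn_nonneg (k : V → C → ℝ) (c : C) (κ : Finset V) : 0 ≤ nn k κ c :=
  Finset.sum_nonneg fun _ _ => abs_nonneg _

theorem Lam_nonneg (G : SimpleGraph V) (U : Finset V) (L : V → Finset C) (κ : Finset V)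
    (f f' : V → C) : 0 ≤ Lam G U L κ f f' :=
  div_nonneg (Finset.sum_nonneg fun _ _ => abs_nonneg _) (Nat.cast_nonneg _)

theorem io_nonneg (c : C) (κ : Finset V) (x : V) (f : V → C) : 0 ≤ io c κ x f := by
  unfold io; split_ifs <;> norm_num

theorem abs_al_le {G : SimpleGraph V} {U : Finset V} {L : V → Finset C} {s : ℕ}
    (hG : Good G U L s) {x u : V} (hu : u ∈ U) (f : V → C) :
    |al G U L x u f| ≤ 1 / (s : ℝ) := by
  have hs : (0 : ℝ) < s := by have := hG.1; exact_mod_cast (by omega : 0 < s)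
  have h1 : (s : ℝ) ≤ ((avX G U L {x} f u).card : ℝ) := by exact_mod_cast card_avX hG hu {x} f
  unfold al
  split_ifs
  · rw [abs_of_nonneg (by positivity)]
    exact one_div_le_one_div_of_le hs h1
  · rw [abs_zero]; positivity

/-- the linear factor of a cluster -/
noncomputable def ln (G : SimpleGraph V) (U : Finset V) (L : V → Finset C) (x : V) (f : V → C)
    (φ φ' : V → Option C) (c : C) (κ : Finset V) : ℝ :=
  ∑ u ∈ κ ∩ nb G U x, sg c φ φ' u * al G U L x u f

theorem abs_ln_le {ε : ℝ} {G : SimpleGraph V} {U : Finset V} {L : V → Finset C} {s m : ℕ}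
    (hR : Reg ε G U L s) {x : V} (hx : x ∈ U) (f : V → C) (φ φ' : V → Option C) (c : C)
    {κ : Finset V} (hκ : κ.card ≤ m) :
    |ln G U L x f φ φ' c κ| ≤ (m / ε) * (1 / (Fintype.card C : ℝ)) := by
  obtain ⟨hε, hs, hG⟩ := hR
  have hs0 : (0 : ℝ) < s := by have := hG.1; exact_mod_cast (by omega : 0 < s)
  have hq : (0 : ℝ) < Fintype.card C := by
    have h1 := card_nb_le_card hG hx
    have h2 := hG.1
    exact_mod_cast (by omega : 0 < Fintype.card C)
  unfold ln
  calc |∑ u ∈ κ ∩ nb G U x, sg c φ φ' u * al G U L x u f|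
      ≤ ∑ u ∈ κ ∩ nb G U x, |sg c φ φ' u * al G U L x u f| := Finset.abs_sum_le_sum_abs _ _
    _ ≤ ∑ u ∈ κ ∩ nb G U x, 1 / (s : ℝ) := by
        refine Finset.sum_le_sum fun u hu => ?_
        rw [abs_mul]
        have h1 := abs_sg_le c φ φ' u
        have h2 := abs_al_le hG (x := x) (nb_subset G U x (Finset.mem_inter.1 hu).2) f
        have h3 := abs_nonneg (al G U L x u f)
        calc |sg c φ φ' u| * |al G U L x u f| ≤ 1 * |al G U L x u f| :=
              mul_le_mul_of_nonneg_right h1 h3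
          _ ≤ 1 / (s : ℝ) := by rw [one_mul]; exact h2
    _ = ((κ ∩ nb G U x).card : ℝ) * (1 / (s : ℝ)) := by rw [Finset.sum_const, nsmul_eq_mul]
    _ ≤ (m : ℝ) * (1 / (ε * (Fintype.card C : ℝ))) := by
        have h1 : ((κ ∩ nb G U x).card : ℝ) ≤ m := by
          exact_mod_cast (Finset.card_le_card Finset.inter_subset_left).trans hκ
        have h2 : 1 / (s : ℝ) ≤ 1 / (ε * (Fintype.card C : ℝ)) :=
          one_div_le_one_div_of_le (by positivity) hs
        exact mul_le_mul h1 h2 (by positivity) (by positivity)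
    _ = (m / ε) * (1 / (Fintype.card C : ℝ)) := by field_simp

/-- expansion of the linear part -/
theorem Lin_eq (hC : CCmp) (G : SimpleGraph V) (U : Finset V) (L : V → Finset C)
    (k : V → C → ℝ) (m : ℕ) (x : V) (f f' : V → C) :
    Lin G U L k m x f f' = ∑ c, ∑ κ ∈ (comps G (DO U c (sx x f) (so f'))).filter
      (fun κ => κ.card ≤ m), sk k c κ (sx x f) (so f') * ln G U L x f (sx x f) (so f') c κ := by
  unfold Lin Wm
  simp only [Finset.mul_sum]
  rw [Finset.sum_comm]
  refine Finset.sum_congr rfl fun c _ => ?_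
  set D := DO U c (sx x f) (so f') with hD
  obtain ⟨-, -, -, -, hsum, -⟩ := hC V G D
  have h1 := hsum (fun u κ => if u ∈ nb G U x then al G U L x u f *
    (sg c (sx x f) (so f') u * (if κ.card ≤ m then sk k c κ (sx x f) (so f') else 0)) else 0)
  have h2 : ∑ u ∈ D, (if u ∈ nb G U x then al G U L x u f *
      (sg c (sx x f) (so f') u * (if (cmp G D u).card ≤ m then
        sk k c (cmp G D u) (sx x f) (so f') else 0)) else 0) =
      ∑ u ∈ nb G U x, al G U L x u f *
      (sg c (sx x f) (so f') u * (if (cmp G D u).card ≤ m then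
        sk k c (cmp G D u) (sx x f) (so f') else 0)) := by
    rw [← Finset.sum_filter]
    refine Finset.sum_subset (fun u hu => (Finset.mem_filter.1 hu).2) fun u hu hu' => ?_
    have h3 : u ∉ D := fun h => hu' (Finset.mem_filter.2 ⟨h, hu⟩)
    rw [hD, mem_DO, not_and_or, not_not] at h3
    have h4 : sg c (sx x f) (so f') u = 0 := by
      rcases h3 with h3 | h3
      · exact absurd (nb_subset G U x hu) h3
      · unfold sg
        simp only [h3, sub_self]
    rw [h4]
    ring
  rw [← h2, ← h1, Finset.sum_filter]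
  refine Finset.sum_congr rfl fun κ _ => ?_
  unfold ln
  rw [← Finset.sum_filter, Finset.filter_mem_eq_inter]
  split_ifs with h
  · rw [Finset.mul_sum]
    exact Finset.sum_congr rfl fun u _ => by ring
  · exact Finset.sum_eq_zero fun u _ => by ring

/-- the error terms for one colour -/
noncomputable def r1 (G : SimpleGraph V) (U : Finset V) (L : V → Finset C) (k : V → C → ℝ) (m : ℕ)
    (x : V) (f f' : V → C) (c : C) : ℝ :=
  ∑ κ ∈ (comps G (DO U c (sx x f) (so f'))).filter (fun κ => κ.card ≤ m ∧ x ∈ bd G U κ),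
    nn k κ c * (1 / (Fintype.card C : ℝ) ^ 2 + Lam G U L κ f f' / (Fintype.card C : ℝ) +
      io c κ x f / (Fintype.card C : ℝ))

noncomputable def r2 (G : SimpleGraph V) (U : Finset V) (L : V → Finset C) (k : V → C → ℝ) (m : ℕ)
    (x : V) (f f' : V → C) (c : C) : ℝ :=
  if (f x = c ∨ f' x = c) ∧ (Kh G U c x f f').card ≤ m then
    nn k (Kh G U c x f f') c * (Lam G U L (Kh G U c x f f') f f' + 1 / (Fintype.card C : ℝ))
    else 0

theorem r1_nonneg (G : SimpleGraph V) (U : Finset V) (L : V → Finset C) (k : V → C → ℝ) (m : ℕ)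
    (x : V) (f f' : V → C) (c : C) : 0 ≤ r1 G U L k m x f f' c := by
  refine Finset.sum_nonneg fun κ _ => mul_nonneg (nn_nonneg _ _ _) ?_
  have h1 := Lam_nonneg G U L κ f f'
  have h2 := io_nonneg c κ x f
  positivity

theorem r2_nonneg (G : SimpleGraph V) (U : Finset V) (L : V → Finset C) (k : V → C → ℝ) (m : ℕ)
    (x : V) (f f' : V → C) (c : C) : 0 ≤ r2 G U L k m x f f' c := by
  unfold r2
  split_ifs
  · refine mul_nonneg (nn_nonneg _ _ _) ?_
    have h1 := Lam_nonneg G U L (Kh G U c x f f') f f'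
    positivity
  · exact le_rfl

theorem R3_nonneg (G : SimpleGraph V) (U : Finset V) (L : V → Finset C) (k : V → C → ℝ) (m : ℕ)
    (x : V) (f f' : V → C) : 0 ≤ R3 G U L k m x f f' := by
  refine Finset.sum_nonneg fun κ _ => mul_nonneg (nn_nonneg _ _ _) ?_
  have h1 := Lam_nonneg G U L κ f f'
  positivity

/-- the part of `Z - Z^x - Lin` for the colour `c` -/
noncomputable def TTz (G : SimpleGraph V) (U : Finset V) (L : V → Finset C) (k : V → C → ℝ) (m : ℕ)
    (x : V) (f f' : V → C) (c : C) : ℝ :=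
  ∑ κ ∈ (comps G (DO U c (so f) (so f'))).filter (fun κ => κ.card ≤ m),
    sk k c κ (so f) (so f') * (1 - ro G U L c κ (so f) (so f')) -
  ∑ κ ∈ (comps G (DO U c (sx x f) (so f'))).filter (fun κ => κ.card ≤ m),
    sk k c κ (sx x f) (so f') * (1 - ro G U L c κ (sx x f) (so f')) -
  ∑ κ ∈ (comps G (DO U c (sx x f) (so f'))).filter (fun κ => κ.card ≤ m),
    sk k c κ (sx x f) (so f') * ln G U L x f (sx x f) (so f') c κ

theorem mem_bd {G : SimpleGraph V} {U κ : Finset V} {x : V} (hx : x ∈ U) :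
    x ∈ bd G U κ ↔ x ∉ κ ∧ ∃ u ∈ κ, G.Adj x u := by
  unfold bd
  rw [Finset.mem_filter, Finset.mem_sdiff]
  tauto

theorem ln_zero {G : SimpleGraph V} {U : Finset V} {L : V → Finset C} {x : V} {f : V → C}
    {φ φ' : V → Option C} {c : C} {κ : Finset V} (h : ∀ u ∈ κ, ¬ G.Adj x u) :
    ln G U L x f φ φ' c κ = 0 := by
  unfold ln
  have h1 : κ ∩ nb G U x = ∅ := by
    rw [Finset.eq_empty_iff_forall_notMem]
    intro u hu
    rw [Finset.mem_inter, mem_nb] at hu
    exact h u hu.1 hu.2.2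
  rw [h1, Finset.sum_empty]

/-- colours different from `f x` -/
theorem case_ne (hC : CCmp) {ε : ℝ} {G : SimpleGraph V} {U : Finset V} {L : V → Finset C}
    {s m : ℕ} {K2 : ℝ} (hR : Reg ε G U L s) (k : V → C → ℝ) {x : V} (hx : x ∈ U)
    (f f' : V → C) (c : C) (hc : f x ≠ c)
    (hρ : ∀ κ : Finset V, κ ⊆ DD U c f f' → κ.card ≤ m → x ∉ κ →
      |(ro G U L c κ (sx x f) (so f') - ro G U L c κ (so f) (so f')) -
        ∑ u ∈ κ ∩ nb G U x, sg c (so f) (so f') u * al G U L x u f| ≤
      K2 * (1 / (Fintype.card C : ℝ) ^ 2 + Lam G U L κ f f' / (Fintype.card C : ℝ) +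
        io c κ x f / (Fintype.card C : ℝ))) :
    |TTz G U L k m x f f' c| ≤ K2 * r1 G U L k m x f f' c + (m / ε) * r2 G U L k m x f f' c := by
  have hε := hR.1
  have hDe : DO U c (sx x f) (so f') = DO U c (so f) (so f') := DO_sx hc
  have hsk : ∀ κ : Finset V, sk k c κ (sx x f) (so f') = sk k c κ (so f) (so f') :=
    fun κ => sk_sx k _ (Or.inr hc)
  have hln : ∀ κ : Finset V, ln G U L x f (sx x f) (so f') c κ =
      ∑ u ∈ κ ∩ nb G U x, sg c (so f) (so f') u * al G U L x u f := by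
    intro κ
    unfold ln
    exact Finset.sum_congr rfl fun u _ => by rw [sg_sx _ (Or.inr hc)]
  obtain ⟨hmem, hsub, -, -, hsum, hcomp⟩ := hC V G (DO U c (so f) (so f'))
  have hcsub : ∀ κ ∈ comps G (DO U c (so f) (so f')), κ ⊆ DO U c (so f) (so f') := by
    intro κ hκ
    obtain ⟨v, -, rfl⟩ := Finset.mem_image.1 hκ
    exact hsub v
  have hT : TTz G U L k m x f f' c =
      ∑ κ ∈ (comps G (DO U c (so f) (so f'))).filter (fun κ => κ.card ≤ m),
        sk k c κ (so f) (so f') * ((ro G U L c κ (sx x f) (so f') -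
          ro G U L c κ (so f) (so f')) - ln G U L x f (sx x f) (so f') c κ) := by
    unfold TTz
    rw [hDe, ← Finset.sum_sub_distrib, ← Finset.sum_sub_distrib]
    refine Finset.sum_congr rfl fun κ _ => ?_
    rw [hsk]
    ring
  have hterm : ∀ κ ∈ (comps G (DO U c (so f) (so f'))).filter (fun κ => κ.card ≤ m),
      |sk k c κ (so f) (so f') * ((ro G U L c κ (sx x f) (so f') -
          ro G U L c κ (so f) (so f')) - ln G U L x f (sx x f) (so f') c κ)| ≤
      K2 * (if x ∈ bd G U κ then nn k κ c * (1 / (Fintype.card C : ℝ) ^ 2 +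
        Lam G U L κ f f' / (Fintype.card C : ℝ) + io c κ x f / (Fintype.card C : ℝ)) else 0) +
      (m / ε) * (if x ∈ κ then nn k κ c * (1 / (Fintype.card C : ℝ)) else 0) := by
    intro κ hκ
    obtain ⟨hκ1, hκ2⟩ := Finset.mem_filter.1 hκ
    rw [abs_mul]
    have hn := abs_sk_le k c κ (so f) (so f')
    by_cases hxκ : x ∈ κ
    · have hxb : x ∉ bd G U κ := fun h => ((mem_bd hx).1 h).1 hxκ
      rw [if_neg hxb, if_pos hxκ, mul_zero, zero_add, ro_sx _ (Or.inl ⟨hxκ, hc⟩), sub_self,
        zero_sub, abs_neg]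
      have h1 := abs_ln_le hR hx f (sx x f) (so f') c hκ2
      calc |sk k c κ (so f) (so f')| * |ln G U L x f (sx x f) (so f') c κ|
          ≤ nn k κ c * ((m / ε) * (1 / (Fintype.card C : ℝ))) :=
            mul_le_mul hn h1 (abs_nonneg _) (nn_nonneg _ _ _)
        _ = (m / ε) * (nn k κ c * (1 / (Fintype.card C : ℝ))) := by ring
    · rw [if_neg hxκ, mul_zero, add_zero]
      by_cases hxb : x ∈ bd G U κ
      · rw [if_pos hxb, hln]
        have h1 := hρ κ (by rw [← DO_so]; exact hcsub κ hκ1) hκ2 hxκ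
        calc _ ≤ nn k κ c * (K2 * (1 / (Fintype.card C : ℝ) ^ 2 +
              Lam G U L κ f f' / (Fintype.card C : ℝ) + io c κ x f / (Fintype.card C : ℝ))) :=
              mul_le_mul hn h1 (abs_nonneg _) (nn_nonneg _ _ _)
          _ = _ := by ring
      · rw [if_neg hxb, mul_zero]
        have h1 : ∀ u ∈ κ, ¬ G.Adj x u := fun u hu ha => hxb ((mem_bd hx).2 ⟨hxκ, u, hu, ha⟩)
        rw [ro_sx _ (Or.inr ⟨hxκ, h1⟩), ln_zero h1, sub_self, sub_self, abs_zero, mul_zero]
  have hr1 : r1 G U L k m x f f' c =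
      ∑ κ ∈ (comps G (DO U c (so f) (so f'))).filter (fun κ => κ.card ≤ m),
        (if x ∈ bd G U κ then nn k κ c * (1 / (Fintype.card C : ℝ) ^ 2 +
        Lam G U L κ f f' / (Fintype.card C : ℝ) + io c κ x f / (Fintype.card C : ℝ)) else 0) := by
    unfold r1
    rw [hDe, ← Finset.sum_filter, Finset.filter_filter]
  have hr2 : ∑ κ ∈ (comps G (DO U c (so f) (so f'))).filter (fun κ => κ.card ≤ m),
      (if x ∈ κ then nn k κ c * (1 / (Fintype.card C : ℝ)) else 0) ≤
      r2 G U L k m x f f' c := by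
    have h1 := hsum (fun u κ => if u = x then (if κ.card ≤ m then
      nn k κ c * (1 / (Fintype.card C : ℝ)) else 0) else 0)
    simp only [Finset.sum_ite_eq'] at h1
    have h2 : ∑ κ ∈ (comps G (DO U c (so f) (so f'))).filter (fun κ => κ.card ≤ m),
      (if x ∈ κ then nn k κ c * (1 / (Fintype.card C : ℝ)) else 0) =
      ∑ κ ∈ comps G (DO U c (so f) (so f')), (if x ∈ κ then (if κ.card ≤ m then
        nn k κ c * (1 / (Fintype.card C : ℝ)) else 0) else 0) := by
      rw [Finset.sum_filter]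
      refine Finset.sum_congr rfl fun κ _ => ?_
      split_ifs <;> rfl
    rw [h2, h1]
    by_cases hxD : x ∈ DO U c (so f) (so f')
    · rw [if_pos hxD]
      have h3 : f' x = c := by
        rw [mem_DO, so_eq, so_eq] at hxD
        by_contra hcon
        exact hxD.2 ⟨fun h => absurd h hc, fun h => absurd h hcon⟩
      have h4 : Kh G U c x f f' = cmp G (DO U c (so f) (so f')) x := by
        unfold Kh
        rw [← DO_so, Finset.insert_eq_self.2 hxD]
      unfold r2
      rw [h4]
      by_cases h5 : (cmp G (DO U c (so f) (so f')) x).card ≤ m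
      · rw [if_pos h5, if_pos ⟨Or.inr h3, h5⟩]
        refine mul_le_mul_of_nonneg_left ?_ (nn_nonneg _ _ _)
        have := Lam_nonneg G U L (cmp G (DO U c (so f) (so f')) x) f f'
        linarith
      · rw [if_neg h5, if_neg (fun h => h5 h.2)]
    · rw [if_neg hxD]
      exact r2_nonneg _ _ _ _ _ _ _ _ _
  rw [hT]
  refine (Finset.abs_sum_le_sum_abs _ _).trans ((Finset.sum_le_sum hterm).trans ?_)
  rw [Finset.sum_add_distrib, ← Finset.mul_sum, ← Finset.mul_sum, ← hr1]
  have h1 : 0 ≤ (m : ℝ) / ε := by positivity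
  have h2 := mul_le_mul_of_nonneg_left hr2 h1
  linarith

/-- sum over the components after one component is inserted -/
theorem sum_insert_filter {K : Finset V} {S : Finset (Finset V)} (hK : K ∉ S) (m : ℕ)
    (g : Finset V → ℝ) :
    ∑ κ ∈ (insert K S).filter (fun κ => κ.card ≤ m), g κ =
      (if K.card ≤ m then g K else 0) + ∑ κ ∈ S.filter (fun κ => κ.card ≤ m), g κ := by
  rw [Finset.sum_filter, Finset.sum_insert hK, Finset.sum_filter]

/-- the colour `f x`, if `f' x` is the same -/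
theorem case_eq1 (hC : CCmp) (hPc : CPiece) {ε : ℝ} {G : SimpleGraph V} {U : Finset V}
    {L : V → Finset C} {p : V → C} {s m : ℕ} {K1 : ℝ} (hK1 : 0 ≤ K1) (hR : Reg ε G U L s)
    (hm : 1 ≤ m) (k : V → C → ℝ) {x : V} (hx : x ∈ U) (f f' : V → C)
    (hf : f ∈ Col G U L p) (hf' : f' ∈ Col G U L p) (he : f' x = f x)
    (hρ : ∀ κ : Finset V, κ ⊆ U → κ.card ≤ m →
      |1 - ro G U L (f x) κ (sx x f) (so f')| ≤
      K1 * (Lam G U L κ f f' + 1 / (Fintype.card C : ℝ))) :
    |TTz G U L k m x f f' (f x)| ≤ K1 * r2 G U L k m x f f' (f x) := by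
  have hxD : x ∉ DO U (f x) (so f) (so f') := by
    rw [mem_DO, so_eq, so_eq]
    intro h
    exact h.2 ⟨fun _ => he, fun _ => rfl⟩
  have hDx : DO U (f x) (sx x f) (so f') = insert x (DO U (f x) (so f) (so f')) := by
    ext u
    rw [Finset.mem_insert, mem_DO, mem_DO, sx_eq, so_eq, so_eq]
    by_cases hu : u = x
    · subst hu
      simp only [ne_eq, not_true_eq_false, false_and, he, hx, true_and, true_or, iff_true,
        not_false_eq_true]
    · simp only [ne_eq, hu, not_false_eq_true, true_and, false_or]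
  have hna : ∀ u ∈ DO U (f x) (so f) (so f'), ¬ G.Adj x u := by
    intro u hu ha
    rw [mem_DO, so_eq, so_eq] at hu
    have h1 := (mem_Col.1 hf).2.2 x hx u hu.1 ha
    have h2 := (mem_Col.1 hf').2.2 x hx u hu.1 ha
    rw [he] at h2
    exact hu.2 ⟨fun h => absurd h.symm h1, fun h => absurd h.symm h2⟩
  obtain ⟨hmem, hsub, -, -, hsum, hcomp⟩ := hC V G (DO U (f x) (so f) (so f'))
  have hcsub : ∀ κ ∈ comps G (DO U (f x) (so f) (so f')), κ ⊆ DO U (f x) (so f) (so f') := by
    intro κ hκ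
    obtain ⟨v, -, rfl⟩ := Finset.mem_image.1 hκ
    exact hsub v
  obtain ⟨p1, p2, p3, -, -⟩ := hPc V G (DO U (f x) (so f) (so f')) x hxD
  have hfe : (comps G (DO U (f x) (so f) (so f'))).filter (fun κ => ∃ u ∈ κ, G.Adj x u) = ∅ := by
    rw [Finset.filter_eq_empty_iff]
    rintro κ hκ ⟨u, hu, ha⟩
    exact hna u (hcsub κ hκ hu) ha
  have hfn : (comps G (DO U (f x) (so f) (so f'))).filter (fun κ => ¬ ∃ u ∈ κ, G.Adj x u) =
      comps G (DO U (f x) (so f) (so f')) := by
    rw [Finset.filter_eq_self]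
    rintro κ hκ ⟨u, hu, ha⟩
    exact hna u (hcsub κ hκ hu) ha
  have hK : cmp G (insert x (DO U (f x) (so f) (so f'))) x = {x} := by
    rw [p3, hfe]
    simp
  rw [hfn, hK] at p1
  have hnotin : ({x} : Finset V) ∉ comps G (DO U (f x) (so f) (so f')) := by
    intro h
    exact hxD (hcsub _ h (Finset.mem_singleton_self x))
  have hT : TTz G U L k m x f f' (f x) =
      -(sk k (f x) {x} (sx x f) (so f') * (1 - ro G U L (f x) {x} (sx x f) (so f'))) := by
    unfold TTz
    rw [hDx, p1, sum_insert_filter hnotin, sum_insert_filter hnotin,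
      if_pos (by rw [Finset.card_singleton]; exact hm),
      if_pos (by rw [Finset.card_singleton]; exact hm)]
    have e1 : ∑ κ ∈ (comps G (DO U (f x) (so f) (so f'))).filter (fun κ => κ.card ≤ m),
        sk k (f x) κ (so f) (so f') * (1 - ro G U L (f x) κ (so f) (so f')) =
        ∑ κ ∈ (comps G (DO U (f x) (so f) (so f'))).filter (fun κ => κ.card ≤ m),
        sk k (f x) κ (sx x f) (so f') * (1 - ro G U L (f x) κ (sx x f) (so f')) := by
      refine Finset.sum_congr rfl fun κ hκ => ?_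
      have h1 := hcsub κ (Finset.mem_filter.1 hκ).1
      have h2 : x ∉ κ := fun h => hxD (h1 h)
      rw [sk_sx k _ (Or.inl h2), ro_sx _ (Or.inr ⟨h2, fun u hu => hna u (h1 hu)⟩)]
    have e2 : ∑ κ ∈ (comps G (DO U (f x) (so f) (so f'))).filter (fun κ => κ.card ≤ m),
        sk k (f x) κ (sx x f) (so f') * ln G U L x f (sx x f) (so f') (f x) κ = 0 := by
      refine Finset.sum_eq_zero fun κ hκ => ?_
      have h1 := hcsub κ (Finset.mem_filter.1 hκ).1
      rw [ln_zero fun u hu => hna u (h1 hu), mul_zero]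
    have e3 : ln G U L x f (sx x f) (so f') (f x) {x} = 0 := by
      refine ln_zero fun u hu => ?_
      rw [Finset.mem_singleton] at hu
      subst hu
      exact G.loopless.irrefl u
    rw [e1, e2, e3]
    ring
  have hKh : Kh G U (f x) x f f' = {x} := by
    unfold Kh
    rw [← DO_so]
    exact hK
  have hr : r2 G U L k m x f f' (f x) =
      nn k {x} (f x) * (Lam G U L {x} f f' + 1 / (Fintype.card C : ℝ)) := by
    unfold r2
    rw [hKh, if_pos ⟨Or.inl rfl, by rw [Finset.card_singleton]; exact hm⟩]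
  rw [hT, hr, abs_neg, abs_mul]
  calc |sk k (f x) {x} (sx x f) (so f')| * |1 - ro G U L (f x) {x} (sx x f) (so f')|
      ≤ nn k {x} (f x) * (K1 * (Lam G U L {x} f f' + 1 / (Fintype.card C : ℝ))) :=
        mul_le_mul (abs_sk_le _ _ _ _ _) (hρ {x} (Finset.singleton_subset_iff.2 hx)
          (by rw [Finset.card_singleton]; exact hm)) (abs_nonneg _) (nn_nonneg _ _ _)
    _ = _ := by ring

/-- the colour `f x`, if `f' x` is different -/
theorem case_eq2 (hC : CCmp) (hPc : CPiece) {ε : ℝ} {G : SimpleGraph V} {U : Finset V}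
    {L : V → Finset C} {s m : ℕ} {K1 : ℝ} (hK1 : 0 ≤ K1) (hR : Reg ε G U L s)
    (k : V → C → ℝ) {x : V} (hx : x ∈ U) (f f' : V → C) (he : f' x ≠ f x)
    (hρ : ∀ κ : Finset V, κ ⊆ U → κ.card ≤ m →
      |1 - ro G U L (f x) κ (so f) (so f')| ≤
        K1 * (Lam G U L κ f f' + 1 / (Fintype.card C : ℝ)) ∧
      |1 - ro G U L (f x) κ (sx x f) (so f')| ≤
        K1 * (Lam G U L κ f f' + 1 / (Fintype.card C : ℝ))) :
    |TTz G U L k m x f f' (f x)| ≤ K1 * r2 G U L k m x f f' (f x) +
      (K1 + m / ε) * R3 G U L k m x f f' := by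
  have hε := hR.1
  have hxD : x ∉ DO U (f x) (sx x f) (so f') := by
    rw [mem_DO, sx_eq, so_eq]
    intro h
    exact h.2 ⟨fun h' => absurd rfl h'.1, fun h' => absurd h' he⟩
  have hDx : DO U (f x) (so f) (so f') = insert x (DO U (f x) (sx x f) (so f')) := by
    ext u
    rw [Finset.mem_insert, mem_DO, mem_DO, sx_eq, so_eq, so_eq]
    by_cases hu : u = x
    · subst hu
      simp only [hx, true_and, true_or, iff_true, true_iff]
      exact he
    · simp only [ne_eq, hu, not_false_eq_true, true_and, false_or]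
  obtain ⟨hmem, hsub, -, -, hsum, hcomp⟩ := hC V G (DO U (f x) (sx x f) (so f'))
  have hcsub : ∀ κ ∈ comps G (DO U (f x) (sx x f) (so f')),
      κ ⊆ DO U (f x) (sx x f) (so f') := by
    intro κ hκ
    obtain ⟨v, -, rfl⟩ := Finset.mem_image.1 hκ
    exact hsub v
  have hDU : DO U (f x) (sx x f) (so f') ⊆ U := fun u hu => (mem_DO.1 hu).1
  obtain ⟨p1, p2, p3, -, -⟩ := hPc V G (DO U (f x) (sx x f) (so f')) x hxD
  set K := cmp G (insert x (DO U (f x) (sx x f) (so f'))) x with hK
  have hKU : K ⊆ U := by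
    intro u hu
    have h1 := (hC V G (insert x (DO U (f x) (sx x f) (so f')))).2.1 x hu
    rcases Finset.mem_insert.1 h1 with h1 | h1
    · exact h1 ▸ hx
    · exact hDU h1
  have hKh : Kh G U (f x) x f f' = K := by
    unfold Kh
    rw [← DO_so, hDx, Finset.insert_idem]
  have hKn : K ∉ (comps G (DO U (f x) (sx x f) (so f'))).filter
      (fun κ => ¬ ∃ u ∈ κ, G.Adj x u) := by
    intro h
    exact hxD (hcsub K (Finset.mem_filter.1 h).1 p2)
  have hT : TTz G U L k m x f f' (f x) =
      (if K.card ≤ m then sk k (f x) K (so f) (so f') *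
        (1 - ro G U L (f x) K (so f) (so f')) else 0) +
      ∑ κ ∈ (comps G (DO U (f x) (sx x f) (so f'))).filter (fun κ => κ.card ≤ m),
        (if x ∈ bd G U κ then -(sk k (f x) κ (sx x f) (so f') *
          ((1 - ro G U L (f x) κ (sx x f) (so f')) +
            ln G U L x f (sx x f) (so f') (f x) κ)) else 0) := by
    unfold TTz
    rw [hDx, p1, sum_insert_filter hKn, add_sub_assoc, add_sub_assoc, Finset.filter_filter]
    congr 1
    have e1 : ∑ κ ∈ (comps G (DO U (f x) (sx x f) (so f'))).filter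
        (fun κ => (¬ ∃ u ∈ κ, G.Adj x u) ∧ κ.card ≤ m),
        sk k (f x) κ (so f) (so f') * (1 - ro G U L (f x) κ (so f) (so f')) =
        ∑ κ ∈ (comps G (DO U (f x) (sx x f) (so f'))).filter (fun κ => κ.card ≤ m),
        (if ¬ ∃ u ∈ κ, G.Adj x u then
          sk k (f x) κ (so f) (so f') * (1 - ro G U L (f x) κ (so f) (so f')) else 0) := by
      rw [← Finset.sum_filter, Finset.filter_filter]
      refine Finset.sum_congr ?_ fun _ _ => rfl
      ext κ
      simp only [Finset.mem_filter]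
      tauto
    rw [e1, ← Finset.sum_sub_distrib, ← Finset.sum_sub_distrib]
    refine Finset.sum_congr rfl fun κ hκ => ?_
    have h1 := hcsub κ (Finset.mem_filter.1 hκ).1
    have h2 : x ∉ κ := fun h => hxD (h1 h)
    by_cases ha : ∃ u ∈ κ, G.Adj x u
    · rw [if_neg (not_not.2 ha), if_pos ((mem_bd hx).2 ⟨h2, ha⟩)]
      ring
    · have h3 : ∀ u ∈ κ, ¬ G.Adj x u := fun u hu h => ha ⟨u, hu, h⟩
      rw [if_pos ha, if_neg (fun h => ha ((mem_bd hx).1 h).2), sk_sx k _ (Or.inl h2),
        ro_sx _ (Or.inr ⟨h2, h3⟩), ln_zero h3]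
      ring
  have hterm : ∀ κ ∈ (comps G (DO U (f x) (sx x f) (so f'))).filter (fun κ => κ.card ≤ m),
      |(if x ∈ bd G U κ then -(sk k (f x) κ (sx x f) (so f') *
          ((1 - ro G U L (f x) κ (sx x f) (so f')) +
            ln G U L x f (sx x f) (so f') (f x) κ)) else 0)| ≤
      (K1 + m / ε) * (if x ∈ bd G U κ then
        nn k κ (f x) * (Lam G U L κ f f' + 1 / (Fintype.card C : ℝ)) else 0) := by
    intro κ hκ
    obtain ⟨hκ1, hκ2⟩ := Finset.mem_filter.1 hκ
    by_cases hb : x ∈ bd G U κ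
    · rw [if_pos hb, if_pos hb, abs_neg, abs_mul]
      have h1 := (hρ κ ((hcsub κ hκ1).trans hDU) hκ2).2
      have h2 := abs_ln_le hR hx f (sx x f) (so f') (f x) hκ2
      have h3 := Lam_nonneg G U L κ f f'
      have h4 : 0 ≤ (m : ℝ) / ε := by positivity
      have h5 : |(1 - ro G U L (f x) κ (sx x f) (so f')) +
          ln G U L x f (sx x f) (so f') (f x) κ| ≤
          (K1 + m / ε) * (Lam G U L κ f f' + 1 / (Fintype.card C : ℝ)) := by
        refine (abs_add_le _ _).trans ?_
        have h6 : (m : ℝ) / ε * (1 / (Fintype.card C : ℝ)) ≤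
            m / ε * (Lam G U L κ f f' + 1 / (Fintype.card C : ℝ)) :=
          mul_le_mul_of_nonneg_left (by linarith) h4
        linarith
      calc |sk k (f x) κ (sx x f) (so f')| * |(1 - ro G U L (f x) κ (sx x f) (so f')) +
            ln G U L x f (sx x f) (so f') (f x) κ|
          ≤ nn k κ (f x) * ((K1 + m / ε) *
            (Lam G U L κ f f' + 1 / (Fintype.card C : ℝ))) :=
            mul_le_mul (abs_sk_le _ _ _ _ _) h5 (abs_nonneg _) (nn_nonneg _ _ _)
        _ = _ := by ring
    · rw [if_neg hb, if_neg hb, abs_zero, mul_zero]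
  have hR3 : R3 G U L k m x f f' =
      ∑ κ ∈ (comps G (DO U (f x) (sx x f) (so f'))).filter (fun κ => κ.card ≤ m),
        (if x ∈ bd G U κ then
          nn k κ (f x) * (Lam G U L κ f f' + 1 / (Fintype.card C : ℝ)) else 0) := by
    unfold R3
    rw [← Finset.sum_filter, Finset.filter_filter]
  have hfirst : |(if K.card ≤ m then sk k (f x) K (so f) (so f') *
        (1 - ro G U L (f x) K (so f) (so f')) else 0)| ≤ K1 * r2 G U L k m x f f' (f x) := by
    unfold r2
    rw [hKh]
    by_cases hc : K.card ≤ m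
    · rw [if_pos hc, if_pos ⟨Or.inl rfl, hc⟩, abs_mul]
      calc |sk k (f x) K (so f) (so f')| * |1 - ro G U L (f x) K (so f) (so f')|
          ≤ nn k K (f x) * (K1 * (Lam G U L K f f' + 1 / (Fintype.card C : ℝ))) :=
            mul_le_mul (abs_sk_le _ _ _ _ _) (hρ K hKU hc).1 (abs_nonneg _) (nn_nonneg _ _ _)
        _ = _ := by ring
    · rw [if_neg hc, if_neg (fun h => hc h.2), abs_zero, mul_zero]
  rw [hT]
  refine (abs_add_le _ _).trans (add_le_add hfirst ?_)
  refine (Finset.abs_sum_le_sum_abs _ _).trans ((Finset.sum_le_sum hterm).trans ?_)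
  rw [← Finset.mul_sum, ← hR3]

end CZAbsAux

open CZAbsAux in
theorem cZAbs_proof : CZAbs := by
  intro hC hPc hρ1 hρ2 ε m hε
  obtain ⟨K1, hK1, hr1⟩ := hρ1 ε m hε
  obtain ⟨K2, hK2, hr2⟩ := hρ2 hρ1 ε m hε
  have hmε : 0 ≤ (m : ℝ) / ε := by positivity
  refine ⟨K1 + K2 + m / ε, by positivity, ?_⟩
  intro V C _ _ G U L p s k x f f' hR hm hf hf' hx
  have hsplit : Zm G U L k m (so f) (so f') - Zm G U L k m (sx x f) (so f') -
      Lin G U L k m x f f' = ∑ c, TTz G U L k m x f f' c := by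
    rw [Lin_eq hC]
    unfold Zm TTz
    rw [Finset.sum_sub_distrib, Finset.sum_sub_distrib]
  have hR1 : R1 G U L k m x f f' = ∑ c, r1 G U L k m x f f' c := rfl
  have hR2 : R2 G U L k m x f f' = ∑ c, r2 G U L k m x f f' c := rfl
  have h3 := R3_nonneg G U L k m x f f'
  have hb : ∀ c ∈ (univ : Finset C), |TTz G U L k m x f f' c| ≤
      K2 * r1 G U L k m x f f' c + (K1 + m / ε) * r2 G U L k m x f f' c +
        (if c = f x then (K1 + m / ε) * R3 G U L k m x f f' else 0) := by
    intro c _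
    have g1 := r1_nonneg G U L k m x f f' c
    have g2 := r2_nonneg G U L k m x f f' c
    by_cases hc : c = f x
    · rw [if_pos hc]
      subst hc
      have g4 : 0 ≤ K2 * r1 G U L k m x f f' (f x) := mul_nonneg hK2 g1
      have g5 : 0 ≤ m / ε * r2 G U L k m x f f' (f x) := mul_nonneg hmε g2
      have g6 : 0 ≤ (K1 + m / ε) * R3 G U L k m x f f' := mul_nonneg (by positivity) h3
      by_cases he : f' x = f x
      · have h := case_eq1 hC hPc hK1 hR hm k hx f f' hf hf' he
          (fun κ hκ hκm => (hr1 V C G U L s (f x) κ x f f' hR hκ hκm).2)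
        linarith
      · have h := case_eq2 hC hPc hK1 hR k hx f f' he
          (fun κ hκ hκm => hr1 V C G U L s (f x) κ x f f' hR hκ hκm)
        linarith
    · rw [if_neg hc]
      have hc' : f x ≠ c := fun h => hc h.symm
      have h := case_ne hC hR k hx f f' c hc'
        (fun κ hκ hκm hxκ => hr2 V C G U L s c κ x f f' hR hκ hκm hx hxκ hc')
      have g5 : 0 ≤ K1 * r2 G U L k m x f f' c := mul_nonneg hK1 g2
      linarith
  rw [hsplit]
  refine (Finset.abs_sum_le_sum_abs _ _).trans ((Finset.sum_le_sum hb).trans ?_)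
  rw [Finset.sum_add_distrib, Finset.sum_add_distrib, ← Finset.mul_sum, ← Finset.mul_sum,
    Finset.sum_ite_eq' univ (f x), if_pos (Finset.mem_univ _), ← hR1, ← hR2]
  have n1 : 0 ≤ R1 G U L k m x f f' := by
    rw [hR1]; exact Finset.sum_nonneg fun c _ => r1_nonneg _ _ _ _ _ _ _ _ _
  have n2 : 0 ≤ R2 G U L k m x f f' := by
    rw [hR2]; exact Finset.sum_nonneg fun c _ => r2_nonneg _ _ _ _ _ _ _ _ _
  have m1 : 0 ≤ (K1 + m / ε) * R1 G U L k m x f f' := mul_nonneg (by positivity) n1
  have m2 : 0 ≤ K2 * R2 G U L k m x f f' := mul_nonneg hK2 n2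
  have m3 : 0 ≤ K2 * R3 G U L k m x f f' := mul_nonneg hK2 h3
  nlinarith

end Pool.Agent.Ex26
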