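import Pool.Agent.Lib.MP_26a019_lc.Ex.CSpec

set_option autoImplicit false
set_option linter.unusedVariables false
set_option linter.unusedSectionVars false

/-!
# Module CZFin: the term `Z` is small
-/

open Finset Classical

namespace Pool.Agent.Ex26

open Pool.Agent.Kempe Pool.Agent.KempeMix Pool.Agent.Eps26

namespace CZFinAux

variable {V C : Type} [Fintype V] [Fintype C]

theorem comps_subset {G : SimpleGraph V} {D κ : Finset V} (h : κ ∈ comps G D) : κ ⊆ D := by
  unfold comps at h
  obtain ⟨v, -, rfl⟩ := Finset.mem_image.1 h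
  unfold cmp
  exact Finset.filter_subset _ _

theorem ro_comm {G : SimpleGraph V} {U : Finset V} {L : V → Finset C} {c : C} {κ : Finset V}
    {φ φ' : V → Option C} (h : κ ⊆ DO U c φ φ') :
    ro G U L c κ φ' φ = ro G U L c κ φ φ' := by
  unfold ro
  refine Finset.prod_congr rfl fun u hu => ?_
  have h1 := (mem_DO.1 (h hu)).2
  by_cases h2 : φ u = some c
  · have h3 : ¬ φ' u = some c := fun h3 => h1 ⟨fun _ => h3, fun _ => h2⟩
    rw [if_pos h2, if_neg h3]
  · have h3 : φ' u = some c := by
      by_contra h3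
      exact h1 ⟨fun h4 => absurd h4 h2, fun h4 => absurd h4 h3⟩
    rw [if_neg h2, if_pos h3]

theorem Zm_comm (G : SimpleGraph V) (U : Finset V) (L : V → Finset C) (k : V → C → ℝ) (m : ℕ)
    (φ φ' : V → Option C) : Zm G U L k m φ' φ = - Zm G U L k m φ φ' := by
  unfold Zm
  rw [← Finset.sum_neg_distrib]
  refine Finset.sum_congr rfl fun c _ => ?_
  rw [DO_comm U c φ' φ, ← Finset.sum_neg_distrib]
  refine Finset.sum_congr rfl fun κ hκ => ?_
  rw [sk_comm k c κ φ φ', ro_comm (comps_subset (Finset.mem_filter.1 hκ).1)]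
  ring

theorem sx_update (x : V) (f : V → C) (c : C) : sx x (Function.update f x c) = sx x f := by
  funext v
  unfold sx
  by_cases h : v = x
  · rw [if_pos h, if_pos h]
  · rw [if_neg h, if_neg h, Function.update_of_ne h]

theorem Zm_empty (G : SimpleGraph V) (L : V → Finset C) (k : V → C → ℝ) (m : ℕ)
    (φ φ' : V → Option C) : Zm G ∅ L k m φ φ' = 0 := by
  unfold Zm comps DO
  simp

theorem Kc_nonneg {ε : ℝ} (hε : 0 < ε) (m : ℕ) : 0 ≤ Kc ε m := by
  unfold Kc
  positivity

theorem nrm_nonneg (A : Finset (V → C)) (U : Finset V) (k : V → C → ℝ) : 0 ≤ nrm A U k := by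
  unfold nrm
  exact Finset.sum_nonneg fun v _ => Finset.sum_nonneg fun c _ =>
    mul_nonneg (mg_nonneg A v c) (sq_nonneg _)

theorem YZ_nonneg (G : SimpleGraph V) (U : Finset V) (c : C) (κ : Finset V) (f f' : V → C) :
    0 ≤ YZ G U c κ f f' := by
  unfold YZ
  refine add_nonneg zero_le_one (Finset.sum_nonneg fun y _ => ?_)
  split_ifs
  · positivity
  · exact le_rfl

theorem io_nonneg (c : C) (κ : Finset V) (x : V) (f : V → C) : 0 ≤ io c κ x f := by
  unfold io
  split_ifs <;> norm_num

theorem PsiZ_nonneg (G : SimpleGraph V) (U : Finset V) (L : V → Finset C) (c : C) (κ : Finset V)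
    (f f' : V → C) : 0 ≤ PsiZ G U L c κ f f' := by
  unfold PsiZ
  refine add_nonneg (mul_nonneg (by positivity) (YZ_nonneg G U c κ f f'))
    (mul_nonneg (Nat.cast_nonneg _) (Finset.sum_nonneg fun x _ => ?_))
  have := io_nonneg c κ x f
  positivity

theorem PsiQ_nonneg (G : SimpleGraph V) (U : Finset V) (L : V → Finset C) (p : V → C) (c : C)
    (κ : Finset V) (f f' : V → C) : 0 ≤ PsiQ G U L p c κ f f' := by
  unfold PsiQ
  exact Finset.sum_nonneg fun u _ => Finset.sum_nonneg fun x _ => Finset.sum_nonneg fun u' _ =>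
    abs_nonneg _

theorem al_bound {G : SimpleGraph V} {U : Finset V} {L : V → Finset C} {s : ℕ}
    (hG : Good G U L s) {u : V} (hu : u ∈ U) (x : V) (h : V → C) :
    |al G U L x u h| ≤ 1 / (s : ℝ) := by
  have hs : (0 : ℝ) < s := by
    have := hG.1
    exact_mod_cast (by omega : 0 < s)
  unfold al
  split_ifs
  · rw [abs_of_nonneg (by positivity)]
    exact one_div_le_one_div_of_le hs (by exact_mod_cast card_avX hG hu {x} h)
  · rw [abs_zero]
    positivity

end CZFinAux

open CZFinAux

theorem cZFin_proof : CZFin := by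
  intro hTensor hDom hMgLow hCount hSum hDomYZ hLam hPsiZ hPsiW hQ hPsiQ hCmp hPiece hRho1 hRho2
    hZAbs hZSq hWAbs hWSq hQCR hLinQ hLinVar ε m hε
  obtain ⟨K1, hK1, hZAbs⟩ := hZAbs hCmp hPiece hRho1 hRho2 ε m hε
  obtain ⟨K2, hK2, hZSq⟩ := hZSq hCmp hPiece ε m hε
  obtain ⟨K3, hK3, hPsiZ⟩ := hPsiZ hDom hDomYZ hLam ε m hε
  obtain ⟨K4, hK4, hPsiQ⟩ := hPsiQ hDom hQ ε m hε
  obtain ⟨K5, hK5, hLinVar⟩ := hLinVar hTensor hDom hMgLow hCount hSum hDomYZ hPsiW hCmp hPiece
    hWAbs hWSq ε m hε
  have hSum := hSum hMgLow hCount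
  have hQCR := hQCR hCmp
  have hKc := Kc_nonneg hε m
  refine ⟨4 * (K1 ^ 2 * K2 * Kc ε m * K3 + 2 * m * Kc ε m * K4 + K5), by positivity, ?_⟩
  intro V C _ _ G U L p s P k hReg hP hPoin hm hOff hmean
  have hGood : Good G U L s := hReg.2.2
  set A := Col G U L p with hA
  have hN := CZFinAux.nrm_nonneg A U k
  set N := nrm A U k with hNdef
  rcases U.eq_empty_or_nonempty with hU | ⟨v0, hv0⟩
  · have h0 : ev2 A (fun f f' => (Zm G U L k m (so f) (so f')) ^ 2) = 0 := by
      subst hU
      have : ∀ f f' : V → C, (Zm G ∅ L k m (so f) (so f')) ^ 2 = 0 * 0 := fun f f' => by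
        rw [Zm_empty]; ring
      simp only [this]
      rw [ev2_mul_left]
      ring
    rw [h0]
    positivity
  have hAne : A.Nonempty := Col_nonempty hGood p
  -- the number of colours
  have hq1 : (1 : ℝ) ≤ (Fintype.card C : ℝ) := by
    have h1 := card_nb_le_card hGood hv0
    have h2 := hGood.1
    exact_mod_cast (by omega : 1 ≤ Fintype.card C)
  set q : ℝ := (Fintype.card C : ℝ) with hq
  have hs1 : (1 : ℝ) ≤ √q := by
    rw [Real.one_le_sqrt]; exact hq1
  have hqs : 1 / q ≤ 1 / √q := by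
    refine one_div_le_one_div_of_le (by linarith) ?_
    calc √q = √q * 1 := (mul_one _).symm
      _ ≤ √q * √q := mul_le_mul_of_nonneg_left hs1 (by linarith)
      _ = q := Real.mul_self_sqrt (by linarith)
  -- Poincare
  have hmean0 : ev2 A (fun f f' => Zm G U L k m (so f) (so f')) = 0 := by
    have h1 := ev2_swap (A := A) (fun f f' => Zm G U L k m (so f) (so f'))
    have h2 : ev2 A (fun f f' => Zm G U L k m (so f') (so f)) =
        - ev2 A (fun f f' => Zm G U L k m (so f) (so f')) := by
      rw [← ev2_neg]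
      exact ev2_congr fun f _ f' _ => Zm_comm G U L k m (so f) (so f')
    rw [h2] at h1
    linarith
  have hT := hTensor V C G U L p s P (-1) (fun f f' => Zm G U L k m (so f) (so f'))
    (fun x f f' => Zm G U L k m (sx x f) (so f')) hGood hP hPoin (Or.inr rfl)
    (fun f f' => by rw [Zm_comm G U L k m (so f) (so f')]; ring) hmean0
    (fun x _ f' f c => by
      change Zm G U L k m (sx x (Function.update f x c)) (so f') = _
      rw [sx_update])
  -- the first part
  have hI : ∑ x ∈ U, ev2 A (fun f f' => (Zm G U L k m (so f) (so f') -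
      Zm G U L k m (sx x f) (so f') - Lin G U L k m x f f') ^ 2) ≤
      K1 ^ 2 * (K2 * (Kc ε m * (K3 * (P + 1) / q) * N)) := by
    calc ∑ x ∈ U, ev2 A (fun f f' => (Zm G U L k m (so f) (so f') -
          Zm G U L k m (sx x f) (so f') - Lin G U L k m x f f') ^ 2)
        ≤ ∑ x ∈ U, ev2 A (fun f f' => K1 ^ 2 * (R1 G U L k m x f f' + R2 G U L k m x f f' +
            R3 G U L k m x f f') ^ 2) := by
          refine Finset.sum_le_sum fun x hx => ev2_mono fun f hf f' hf' => ?_
          have h1 := hZAbs V C G U L p s k x f f' hReg hm hf hf' hx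
          rw [← mul_pow, ← sq_abs]
          exact pow_le_pow_left₀ (abs_nonneg _) h1 2
      _ = ev2 A (fun f f' => ∑ x ∈ U, K1 ^ 2 * (R1 G U L k m x f f' + R2 G U L k m x f f' +
            R3 G U L k m x f f') ^ 2) := by
          rw [ev2_sum]
      _ ≤ ev2 A (fun f f' => K1 ^ 2 * (K2 * CR G U k m (PsiZ G U L) f f')) := by
          refine ev2_mono fun f hf f' hf' => ?_
          rw [← Finset.mul_sum]
          exact mul_le_mul_of_nonneg_left (hZSq V C G U L p s k f f' hReg hf hf') (sq_nonneg _)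
      _ = K1 ^ 2 * (K2 * ev2 A (CR G U k m (PsiZ G U L))) := by
          rw [ev2_mul_left, ev2_mul_left]
      _ ≤ _ := by
          refine mul_le_mul_of_nonneg_left (mul_le_mul_of_nonneg_left ?_ hK2) (sq_nonneg _)
          exact hSum V C G U L p s ε k m (PsiZ G U L) (K3 * (P + 1) / q) hReg hOff
            (by positivity) (fun c κ f f' => PsiZ_nonneg G U L c κ f f')
            (fun c κ hκ σ hσ => hPsiZ V C G U L p s P c κ σ hReg hP hPoin hκ hσ)
  -- the linear part
  have hII : ∑ x ∈ U, ev2 A (fun f f' => (Lin G U L k m x f f') ^ 2) ≤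
      2 * m * (Kc ε m * (K4 * (P + 1) / √q) * N) + K5 * (P + 1) / q * N := by
    have h1 : ∀ x ∈ U, ev2 A (fun f f' => (Lin G U L k m x f f') ^ 2) ≤
        ev2 A (fun f f' => ∑ u ∈ nb G U x, ∑ u' ∈ nb G U x,
          |Wm G U k m u (sx x f) (so f')| * |Wm G U k m u' (sx x f) (so f')| *
            |Qx G U L x u u' f - ev A (Qx G U L x u u')|) +
        ev A (fun h => ev2 A (fun f f' =>
          (∑ u ∈ nb G U x, al G U L x u h * Wm G U k m u (sx x f) (so f')) ^ 2)) := by
      intro x hx
      obtain ⟨ha, hb⟩ := hLinQ V C G U L p s k m x hGood hx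
      rw [ha, ← hb (fun u f f' => Wm G U k m u (sx x f) (so f')), ← ev2_add]
      refine ev2_mono fun f _ f' _ => ?_
      rw [← Finset.sum_add_distrib]
      refine Finset.sum_le_sum fun u _ => ?_
      rw [← Finset.sum_add_distrib]
      refine Finset.sum_le_sum fun u' _ => ?_
      rw [← abs_mul, ← abs_mul]
      have h2 := le_abs_self (Wm G U k m u (sx x f) (so f') * Wm G U k m u' (sx x f) (so f') *
        (Qx G U L x u u' f - ev A (Qx G U L x u u')))
      have h3 : Wm G U k m u (sx x f) (so f') * Wm G U k m u' (sx x f) (so f') *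
          Qx G U L x u u' f =
        Wm G U k m u (sx x f) (so f') * Wm G U k m u' (sx x f) (so f') *
          (Qx G U L x u u' f - ev A (Qx G U L x u u')) +
        Wm G U k m u (sx x f) (so f') * Wm G U k m u' (sx x f) (so f') *
          ev A (Qx G U L x u u') := by ring
      rw [h3]
      exact add_le_add_left h2 _
    refine (Finset.sum_le_sum h1).trans ?_
    rw [Finset.sum_add_distrib]
    refine add_le_add ?_ ?_
    · rw [← ev2_sum]
      calc ev2 A (fun f f' => ∑ x ∈ U, ∑ u ∈ nb G U x, ∑ u' ∈ nb G U x,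
            |Wm G U k m u (sx x f) (so f')| * |Wm G U k m u' (sx x f) (so f')| *
              |Qx G U L x u u' f - ev A (Qx G U L x u u')|)
          ≤ ev2 A (fun f f' => 2 * m * CR G U k m (PsiQ G U L p) f f') :=
            ev2_mono fun f _ f' _ => hQCR V C G U L p k m f f'
        _ = 2 * m * ev2 A (CR G U k m (PsiQ G U L p)) := by rw [ev2_mul_left]
        _ ≤ _ := by
            refine mul_le_mul_of_nonneg_left ?_ (by positivity)
            exact hSum V C G U L p s ε k m (PsiQ G U L p) (K4 * (P + 1) / √q) hReg hOff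
              (by positivity) (fun c κ f f' => PsiQ_nonneg G U L p c κ f f')
              (fun c κ hκ σ hσ => hPsiQ V C G U L p s P c κ σ hReg hP hPoin hκ hσ)
    · rw [← ev_sum]
      calc ev A (fun h => ∑ x ∈ U, ev2 A (fun f f' =>
            (∑ u ∈ nb G U x, al G U L x u h * Wm G U k m u (sx x f) (so f')) ^ 2))
          ≤ ev A (fun _ => K5 * (P + 1) / q * N) := by
            refine ev_mono A fun h _ => ?_
            have h2 := hLinVar V C G U L p s P k
              (fun x u => if u ∈ U then al G U L x u h else 0) hReg hP hPoin hm hOff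
              (fun x u => by
                by_cases hu : u ∈ U
                · simp only [hu, if_true]
                  exact al_bound hGood hu x h
                · simp only [hu, if_false, abs_zero]
                  positivity) hmean
            refine le_trans (le_of_eq ?_) h2
            refine Finset.sum_congr rfl fun x hx => ev2_congr fun f _ f' _ => ?_
            congr 1
            refine Finset.sum_congr rfl fun u hu => ?_
            have : u ∈ U := nb_subset G U x hu
            simp only [this, if_true]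
        _ = _ := ev_const hAne _
  -- conclusion
  have hIII : ∑ x ∈ U, ev2 A (fun f f' => (Zm G U L k m (so f) (so f') -
      Zm G U L k m (sx x f) (so f')) ^ 2) ≤
      2 * (K1 ^ 2 * (K2 * (Kc ε m * (K3 * (P + 1) / q) * N))) +
      2 * (2 * m * (Kc ε m * (K4 * (P + 1) / √q) * N) + K5 * (P + 1) / q * N) := by
    refine le_trans ?_ (add_le_add (mul_le_mul_of_nonneg_left hI (by norm_num : (0 : ℝ) ≤ 2))
      (mul_le_mul_of_nonneg_left hII (by norm_num : (0 : ℝ) ≤ 2)))
    rw [Finset.mul_sum, Finset.mul_sum, ← Finset.sum_add_distrib]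
    refine Finset.sum_le_sum fun x hx => ?_
    rw [← ev2_mul_left, ← ev2_mul_left, ← ev2_add]
    refine ev2_mono fun f _ f' _ => ?_
    nlinarith [sq_nonneg ((Zm G U L k m (so f) (so f') - Zm G U L k m (sx x f) (so f') -
      Lin G U L k m x f f') - Lin G U L k m x f f')]
  refine hT.trans ?_
  refine (mul_le_mul_of_nonneg_left hIII (by positivity)).trans ?_
  -- arithmetic
  set r : ℝ := 1 / √q with hr
  have hr0 : 0 ≤ r := by positivity
  have e1 : K3 * (P + 1) / q = K3 * (P + 1) * (1 / q) := by ring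
  have e2 : K4 * (P + 1) / √q = K4 * (P + 1) * r := by rw [hr]; ring
  have e3 : K5 * (P + 1) / q = K5 * (P + 1) * (1 / q) := by ring
  have e4 : 4 * (K1 ^ 2 * K2 * Kc ε m * K3 + 2 * m * Kc ε m * K4 + K5) * (P + 1) ^ 2 / √q * N =
      4 * (K1 ^ 2 * K2 * Kc ε m * K3 + 2 * m * Kc ε m * K4 + K5) * (P + 1) ^ 2 * r * N := by
    rw [hr]; ring
  rw [e1, e2, e3, e4]
  have hb : 2 * (K1 ^ 2 * (K2 * (Kc ε m * (K3 * (P + 1) * (1 / q)) * N))) +
      2 * (2 * m * (Kc ε m * (K4 * (P + 1) * r) * N) + K5 * (P + 1) * (1 / q) * N) ≤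
      2 * (K1 ^ 2 * K2 * Kc ε m * K3 + 2 * m * Kc ε m * K4 + K5) * (P + 1) * r * N := by
    have f1 : K1 ^ 2 * (K2 * (Kc ε m * (K3 * (P + 1) * (1 / q)) * N)) ≤
        K1 ^ 2 * (K2 * (Kc ε m * (K3 * (P + 1) * r) * N)) := by gcongr
    have f2 : K5 * (P + 1) * (1 / q) * N ≤ K5 * (P + 1) * r * N := by gcongr
    nlinarith [f1, f2]
  refine (mul_le_mul_of_nonneg_left hb (by positivity)).trans ?_
  have hX : 0 ≤ 2 * (K1 ^ 2 * K2 * Kc ε m * K3 + 2 * m * Kc ε m * K4 + K5) * (P + 1) * r * N := by
    positivity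
  have : 2 * P * (2 * (K1 ^ 2 * K2 * Kc ε m * K3 + 2 * m * Kc ε m * K4 + K5) * (P + 1) * r * N) ≤
      2 * (P + 1) * (2 * (K1 ^ 2 * K2 * Kc ε m * K3 + 2 * m * Kc ε m * K4 + K5) * (P + 1) * r * N) :=
    mul_le_mul_of_nonneg_right (by linarith) hX
  refine this.trans (le_of_eq ?_)
  ring

end Pool.Agent.Ex26
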