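import Pool.Agent.Lib.MP_26a019_lc.Ex.CSpec

set_option autoImplicit false
set_option linter.unusedVariables false
set_option linter.unusedSectionVars false

/-!
# Module CZSq: the squares of the error terms `R1`, `R2`, `R3`
-/

open Finset Classical

namespace Pool.Agent.Ex26

open Pool.Agent.Kempe Pool.Agent.KempeMix Pool.Agent.Eps26

namespace CZSqAux

variable {V C : Type} [Fintype V] [Fintype C]

/-- `∑_{w ∈ κ} k_w(c)^2` -/
noncomputable def S2 (k : V → C → ℝ) (c : C) (κ : Finset V) : ℝ := ∑ w ∈ κ, (k w c) ^ 2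

theorem S2_nonneg (k : V → C → ℝ) (c : C) (κ : Finset V) : 0 ≤ S2 k c κ :=
  Finset.sum_nonneg fun w _ => sq_nonneg _

theorem nn_sq (k : V → C → ℝ) (c : C) (κ : Finset V) (m : ℕ) (h : κ.card ≤ m) :
    (nn k κ c) ^ 2 ≤ m * S2 k c κ := by
  unfold nn S2
  have h1 : (∑ w ∈ κ, |k w c|) ^ 2 ≤ (κ.card : ℝ) * ∑ w ∈ κ, |k w c| ^ 2 :=
    sq_sum_le_card_mul_sum_sq
  simp only [sq_abs] at h1
  refine h1.trans (mul_le_mul_of_nonneg_right ?_ (Finset.sum_nonneg fun w _ => sq_nonneg _))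
  exact_mod_cast h

/-- exchange of the sums -/
theorem exch (G : SimpleGraph V) (U : Finset V) (m : ℕ) (f f' : V → C)
    (T : V → C → Finset (Finset V)) (B : Finset V → Finset V) (F : C → Finset V → V → ℝ)
    (hF : ∀ c κ x, 0 ≤ F c κ x)
    (hT : ∀ x ∈ U, ∀ c, ∀ κ ∈ T x c, κ ∈ CC G U m ∧ (∀ u ∈ κ, f u = c ∨ f' u = c) ∧ x ∈ B κ) :
    ∑ x ∈ U, ∑ c, ∑ κ ∈ T x c, F c κ x ≤
      ∑ c, ∑ κ ∈ CC G U m, (if (∀ u ∈ κ, f u = c ∨ f' u = c) then ∑ x ∈ B κ, F c κ x else 0) := by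
  have h1 : ∀ x ∈ U, ∀ c : C, ∑ κ ∈ T x c, F c κ x ≤
      ∑ κ ∈ CC G U m, (if (∀ u ∈ κ, f u = c ∨ f' u = c) ∧ x ∈ B κ then F c κ x else 0) := by
    intro x hx c
    rw [← Finset.sum_filter]
    refine Finset.sum_le_sum_of_subset_of_nonneg ?_ (fun κ _ _ => hF c κ x)
    intro κ hκ
    obtain ⟨h2, h3, h4⟩ := hT x hx c κ hκ
    exact Finset.mem_filter.2 ⟨h2, h3, h4⟩
  calc ∑ x ∈ U, ∑ c, ∑ κ ∈ T x c, F c κ x
      ≤ ∑ x ∈ U, ∑ c, ∑ κ ∈ CC G U m,
          (if (∀ u ∈ κ, f u = c ∨ f' u = c) ∧ x ∈ B κ then F c κ x else 0) :=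
        Finset.sum_le_sum fun x hx => Finset.sum_le_sum fun c _ => h1 x hx c
    _ = ∑ c, ∑ κ ∈ CC G U m, ∑ x ∈ U,
          (if (∀ u ∈ κ, f u = c ∨ f' u = c) ∧ x ∈ B κ then F c κ x else 0) := by
        rw [Finset.sum_comm]
        exact Finset.sum_congr rfl fun c _ => Finset.sum_comm
    _ ≤ _ := by
        refine Finset.sum_le_sum fun c _ => Finset.sum_le_sum fun κ _ => ?_
        by_cases h : ∀ u ∈ κ, f u = c ∨ f' u = c
        · rw [if_pos h]
          have h5 : ∑ x ∈ U, (if (∀ u ∈ κ, f u = c ∨ f' u = c) ∧ x ∈ B κ then F c κ x else 0) =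
              ∑ x ∈ U.filter (fun x => x ∈ B κ), F c κ x := by
            rw [Finset.sum_filter]
            refine Finset.sum_congr rfl fun x _ => ?_
            by_cases hx : x ∈ B κ
            · rw [if_pos ⟨h, hx⟩, if_pos hx]
            · rw [if_neg (fun h' => hx h'.2), if_neg hx]
          rw [h5]
          refine Finset.sum_le_sum_of_subset_of_nonneg ?_ (fun x _ _ => hF c κ x)
          intro x hx
          exact (Finset.mem_filter.1 hx).2
        · rw [if_neg h]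
          refine le_of_eq (Finset.sum_eq_zero fun x _ => ?_)
          rw [if_neg]
          exact fun h' => h h'.1

/-- components are in `CC` -/
theorem mem_CC (hC : CCmp) {G : SimpleGraph V} {U D κ : Finset V} {m : ℕ} (hD : D ⊆ U)
    (hκ : κ ∈ comps G D) (hm : κ.card ≤ m) : κ ∈ CC G U m ∧ κ ⊆ D := by
  obtain ⟨c1, c2, c3, c4, c5, c6⟩ := hC V G D
  have h1 : κ ⊆ D := by
    unfold comps at hκ
    obtain ⟨v, hv, rfl⟩ := Finset.mem_image.1 hκ
    exact c2 v
  refine ⟨?_, h1⟩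
  unfold CC
  rw [Finset.mem_filter, Finset.mem_powerset]
  exact ⟨h1.trans hD, (c6 κ hκ).1, hm, (c6 κ hκ).2.2⟩

theorem DO_sx_sub {U : Finset V} {c : C} {x : V} {f f' : V → C} :
    DO U c (sx x f) (so f') ⊆ U := by
  unfold DO; exact Finset.filter_subset _ _

theorem DO_sx_col {U : Finset V} {c : C} {x u : V} {f f' : V → C}
    (h : u ∈ DO U c (sx x f) (so f')) : f u = c ∨ f' u = c := by
  rw [mem_DO, sx_eq, so_eq] at h
  tauto

theorem mem_bd {G : SimpleGraph V} {U κ : Finset V} {x : V} :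
    x ∈ bd G U κ ↔ (x ∈ U ∧ x ∉ κ) ∧ ∃ u ∈ κ, G.Adj x u := by
  unfold bd
  rw [Finset.mem_filter, Finset.mem_sdiff]

/-- the clusters adjacent to `x` for the colour `c` -/
noncomputable def T1 (G : SimpleGraph V) (U : Finset V) (m : ℕ) (f f' : V → C) (x : V) (c : C) :
    Finset (Finset V) :=
  (comps G (DO U c (sx x f) (so f'))).filter (fun κ => κ.card ≤ m ∧ x ∈ bd G U κ)

theorem T1_spec (hC : CCmp) (G : SimpleGraph V) (U : Finset V) (m : ℕ) (f f' : V → C) (x : V)
    (c : C) (κ : Finset V) (hκ : κ ∈ T1 G U m f f' x c) :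
    κ ∈ CC G U m ∧ (∀ u ∈ κ, f u = c ∨ f' u = c) ∧ x ∈ bd G U κ := by
  unfold T1 at hκ
  rw [Finset.mem_filter] at hκ
  obtain ⟨h1, h2, h3⟩ := hκ
  obtain ⟨h4, h5⟩ := mem_CC hC (U := U) DO_sx_sub h1 h2
  exact ⟨h4, fun u hu => DO_sx_col (h5 hu), h3⟩

/-- a cluster adjacent to `x` is the component of a neighbour of `x` -/
theorem T1_nb (hC : CCmp) (G : SimpleGraph V) (U : Finset V) (m : ℕ) (f f' : V → C) (x : V)
    (c : C) (κ : Finset V) (hκ : κ ∈ T1 G U m f f' x c) :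
    ∃ u ∈ nb G U x, u ∈ DO U c (sx x f) (so f') ∧ κ = cmp G (DO U c (sx x f) (so f')) u := by
  have h0 := hκ
  unfold T1 at hκ
  rw [Finset.mem_filter] at hκ
  obtain ⟨h1, h2, h3⟩ := hκ
  obtain ⟨h4, h5⟩ := mem_CC hC (U := U) DO_sx_sub h1 h2
  obtain ⟨h6, u, hu, hxu⟩ := mem_bd.1 h3
  obtain ⟨c1, c2, c3, c4, c5, c6⟩ := hC V G (DO U c (sx x f) (so f'))
  refine ⟨u, mem_nb.2 ⟨DO_sx_sub (h5 hu), hxu⟩, h5 hu, ((c6 κ h1).2.1 u hu).symm⟩

/-- the error factor of `R1` -/
noncomputable def e1 (G : SimpleGraph V) (U : Finset V) (L : V → Finset C) (f f' : V → C)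
    (c : C) (κ : Finset V) (x : V) : ℝ :=
  1 / (Fintype.card C : ℝ) ^ 4 + (Lam G U L κ f f') ^ 2 / (Fintype.card C : ℝ) ^ 2 +
    io c κ x f / (Fintype.card C : ℝ) ^ 2

theorem io_nonneg (c : C) (κ : Finset V) (x : V) (f : V → C) : 0 ≤ io c κ x f := by
  unfold io; split_ifs <;> norm_num

theorem io_sq (c : C) (κ : Finset V) (x : V) (f : V → C) : (io c κ x f) ^ 2 = io c κ x f := by
  unfold io; split_ifs <;> norm_num

theorem e1_nonneg (G : SimpleGraph V) (U : Finset V) (L : V → Finset C) (f f' : V → C)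
    (c : C) (κ : Finset V) (x : V) : 0 ≤ e1 G U L f f' c κ x := by
  unfold e1
  have := io_nonneg c κ x f
  positivity

theorem R1_sq (hC : CCmp) (G : SimpleGraph V) (U : Finset V) (L : V → Finset C) (k : V → C → ℝ)
    (m s : ℕ) (hG : Good G U L s) (x : V) (hx : x ∈ U) (f f' : V → C) :
    (R1 G U L k m x f f') ^ 2 ≤ ∑ c, ∑ κ ∈ T1 G U m f f' x c,
      6 * m * (Fintype.card C : ℝ) * (S2 k c κ * e1 G U L f f' c κ x) := by
  set q : ℝ := (Fintype.card C : ℝ) with hq
  have hq0 : 0 ≤ q := by rw [hq]; positivity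
  set a : (Σ _ : C, Finset V) → ℝ := fun p => nn k p.2 p.1 *
    (1 / q ^ 2 + Lam G U L p.2 f f' / q + io p.1 p.2 x f / q) with ha
  have h1 : R1 G U L k m x f f' =
      ∑ p ∈ (univ : Finset C).sigma (fun c => T1 G U m f f' x c), a p := by
    unfold R1
    rw [Finset.sum_sigma]
    rfl
  have hcard : (((univ : Finset C).sigma (fun c => T1 G U m f f' x c)).card : ℝ) ≤ 2 * q := by
    have h2 : (univ : Finset C).sigma (fun c => T1 G U m f f' x c) ⊆
        ((nb G U x).image (fun u => (⟨f u, cmp G (DO U (f u) (sx x f) (so f')) u⟩ :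
          Σ _ : C, Finset V))) ∪
        ((nb G U x).image (fun u => (⟨f' u, cmp G (DO U (f' u) (sx x f) (so f')) u⟩ :
          Σ _ : C, Finset V))) := by
      rintro ⟨c, κ⟩ hp
      rw [Finset.mem_sigma] at hp
      obtain ⟨u, hu, hu2, hκ⟩ := T1_nb hC G U m f f' x c κ hp.2
      rw [Finset.mem_union, Finset.mem_image, Finset.mem_image]
      rcases DO_sx_col hu2 with h3 | h3
      · left
        exact ⟨u, hu, by subst h3; rw [hκ]⟩
      · right
        exact ⟨u, hu, by subst h3; rw [hκ]⟩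
    have h3 := Finset.card_le_card h2
    have h4 := Finset.card_union_le
      ((nb G U x).image (fun u => (⟨f u, cmp G (DO U (f u) (sx x f) (so f')) u⟩ :
          Σ _ : C, Finset V)))
        ((nb G U x).image (fun u => (⟨f' u, cmp G (DO U (f' u) (sx x f) (so f')) u⟩ :
          Σ _ : C, Finset V)))
    have h5 := Finset.card_image_le (s := nb G U x)
      (f := fun u => (⟨f u, cmp G (DO U (f u) (sx x f) (so f')) u⟩ : Σ _ : C, Finset V))
    have h6 := Finset.card_image_le (s := nb G U x)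
      (f := fun u => (⟨f' u, cmp G (DO U (f' u) (sx x f) (so f')) u⟩ : Σ _ : C, Finset V))
    have h7 : (nb G U x).card ≤ Fintype.card C := by
      have := hG.2 x hx
      have h8 : (L x).card ≤ Fintype.card C := Finset.card_le_univ _
      omega
    have h8 : ((univ : Finset C).sigma (fun c => T1 G U m f f' x c)).card ≤
        2 * Fintype.card C := by omega
    rw [hq]
    exact_mod_cast h8
  have h2 : (∑ p ∈ (univ : Finset C).sigma (fun c => T1 G U m f f' x c), a p) ^ 2 ≤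
      (((univ : Finset C).sigma (fun c => T1 G U m f f' x c)).card : ℝ) *
        ∑ p ∈ (univ : Finset C).sigma (fun c => T1 G U m f f' x c), (a p) ^ 2 :=
    sq_sum_le_card_mul_sum_sq
  have h3 : ∀ p ∈ (univ : Finset C).sigma (fun c => T1 G U m f f' x c), (a p) ^ 2 ≤
      3 * m * (S2 k p.1 p.2 * e1 G U L f f' p.1 p.2 x) := by
    rintro ⟨c, κ⟩ hp
    rw [Finset.mem_sigma] at hp
    have h4 : κ.card ≤ m := by
      have := hp.2
      simp only [T1, Finset.mem_filter] at this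
      exact this.2.1
    have h5 := nn_sq k c κ m h4
    simp only [ha]
    rw [mul_pow]
    have h6 : (1 / q ^ 2 + Lam G U L κ f f' / q + io c κ x f / q) ^ 2 ≤
        3 * e1 G U L f f' c κ x := by
      have h7 : 3 * e1 G U L f f' c κ x = 3 * ((1 / q ^ 2) ^ 2 + (Lam G U L κ f f' / q) ^ 2 +
          (io c κ x f / q) ^ 2) := by
        unfold e1
        rw [div_pow, div_pow, div_pow, io_sq, ← hq]
        ring
      rw [h7]
      nlinarith [sq_nonneg (1 / q ^ 2 - Lam G U L κ f f' / q),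
        sq_nonneg (1 / q ^ 2 - io c κ x f / q),
        sq_nonneg (Lam G U L κ f f' / q - io c κ x f / q)]
    calc nn k κ c ^ 2 * (1 / q ^ 2 + Lam G U L κ f f' / q + io c κ x f / q) ^ 2
        ≤ (m * S2 k c κ) * (3 * e1 G U L f f' c κ x) :=
          mul_le_mul h5 h6 (sq_nonneg _) (mul_nonneg (Nat.cast_nonneg _) (S2_nonneg _ _ _))
      _ = 3 * m * (S2 k c κ * e1 G U L f f' c κ x) := by ring
  rw [h1]
  refine h2.trans ?_
  have h4 : ∑ p ∈ (univ : Finset C).sigma (fun c => T1 G U m f f' x c), (a p) ^ 2 ≤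
      ∑ p ∈ (univ : Finset C).sigma (fun c => T1 G U m f f' x c),
        3 * m * (S2 k p.1 p.2 * e1 G U L f f' p.1 p.2 x) := Finset.sum_le_sum h3
  calc (((univ : Finset C).sigma (fun c => T1 G U m f f' x c)).card : ℝ) *
        ∑ p ∈ (univ : Finset C).sigma (fun c => T1 G U m f f' x c), (a p) ^ 2
      ≤ (2 * q) * ∑ p ∈ (univ : Finset C).sigma (fun c => T1 G U m f f' x c),
        3 * m * (S2 k p.1 p.2 * e1 G U L f f' p.1 p.2 x) :=
        mul_le_mul hcard h4 (Finset.sum_nonneg fun p _ => sq_nonneg _) (by positivity)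
    _ = ∑ p ∈ (univ : Finset C).sigma (fun c => T1 G U m f f' x c),
        6 * m * q * (S2 k p.1 p.2 * e1 G U L f f' p.1 p.2 x) := by
        rw [Finset.mul_sum]
        exact Finset.sum_congr rfl fun p _ => by ring
    _ = _ := by rw [Finset.sum_sigma]

/-- the error factor of `R2`, `R3` -/
noncomputable def e2 (G : SimpleGraph V) (U : Finset V) (L : V → Finset C) (f f' : V → C)
    (κ : Finset V) : ℝ :=
  (Lam G U L κ f f') ^ 2 + 1 / (Fintype.card C : ℝ) ^ 2

theorem e2_nonneg (G : SimpleGraph V) (U : Finset V) (L : V → Finset C) (f f' : V → C)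
    (κ : Finset V) : 0 ≤ e2 G U L f f' κ := by
  unfold e2
  positivity

theorem nn_e2 (G : SimpleGraph V) (U : Finset V) (L : V → Finset C) (k : V → C → ℝ)
    (f f' : V → C) (c : C) (κ : Finset V) (m : ℕ) (h : κ.card ≤ m) :
    (nn k κ c * (Lam G U L κ f f' + 1 / (Fintype.card C : ℝ))) ^ 2 ≤
      2 * m * (S2 k c κ * e2 G U L f f' κ) := by
  have h5 := nn_sq k c κ m h
  rw [mul_pow]
  have h6 : (Lam G U L κ f f' + 1 / (Fintype.card C : ℝ)) ^ 2 ≤ 2 * e2 G U L f f' κ := by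
    have h7 : 2 * e2 G U L f f' κ = 2 * ((Lam G U L κ f f') ^ 2 +
        (1 / (Fintype.card C : ℝ)) ^ 2) := by
      unfold e2
      rw [div_pow]
      ring
    rw [h7]
    nlinarith [sq_nonneg (Lam G U L κ f f' - 1 / (Fintype.card C : ℝ))]
  calc nn k κ c ^ 2 * (Lam G U L κ f f' + 1 / (Fintype.card C : ℝ)) ^ 2
      ≤ (m * S2 k c κ) * (2 * e2 G U L f f' κ) :=
        mul_le_mul h5 h6 (sq_nonneg _) (mul_nonneg (Nat.cast_nonneg _) (S2_nonneg _ _ _))
    _ = _ := by ring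

/-- the set of the cluster of `x` -/
noncomputable def T2 (G : SimpleGraph V) (U : Finset V) (m : ℕ) (f f' : V → C) (x : V) (c : C) :
    Finset (Finset V) :=
  if (f x = c ∨ f' x = c) ∧ (Kh G U c x f f').card ≤ m then {Kh G U c x f f'} else ∅

theorem T2_spec (hC : CCmp) (G : SimpleGraph V) (U : Finset V) (m : ℕ) (f f' : V → C) (x : V)
    (hx : x ∈ U) (c : C) (κ : Finset V) (hκ : κ ∈ T2 G U m f f' x c) :
    κ ∈ CC G U m ∧ (∀ u ∈ κ, f u = c ∨ f' u = c) ∧ x ∈ κ := by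
  unfold T2 at hκ
  split_ifs at hκ with h
  · rw [Finset.mem_singleton] at hκ
    subst hκ
    obtain ⟨c1, c2, c3, c4, c5, c6⟩ := hC V G (insert x (DD U c f f'))
    have hD : insert x (DD U c f f') ⊆ U := by
      intro u hu
      rcases Finset.mem_insert.1 hu with h1 | h1
      · rw [h1]; exact hx
      · exact (mem_DD.1 h1).1
    have h1 : Kh G U c x f f' ∈ comps G (insert x (DD U c f f')) := by
      unfold Kh comps
      exact Finset.mem_image_of_mem _ (Finset.mem_insert_self _ _)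
    obtain ⟨h2, h3⟩ := mem_CC hC hD h1 h.2
    refine ⟨h2, fun u hu => ?_, ?_⟩
    · rcases Finset.mem_insert.1 (h3 hu) with h4 | h4
      · rw [h4]; exact h.1
      · have := (mem_DD.1 h4).2
        tauto
    · unfold Kh
      exact c1 x (Finset.mem_insert_self _ _)
  · simp at hκ

theorem R2_sq (G : SimpleGraph V) (U : Finset V) (L : V → Finset C) (k : V → C → ℝ)
    (m : ℕ) (x : V) (f f' : V → C) :
    (R2 G U L k m x f f') ^ 2 ≤ ∑ c, ∑ κ ∈ T2 G U m f f' x c,
      4 * m * (S2 k c κ * e2 G U L f f' κ) := by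
  set a : C → ℝ := fun c => (if (f x = c ∨ f' x = c) ∧ (Kh G U c x f f').card ≤ m then
    nn k (Kh G U c x f f') c * (Lam G U L (Kh G U c x f f') f f' + 1 / (Fintype.card C : ℝ))
    else 0) with ha
  have h1 : R2 G U L k m x f f' = ∑ c ∈ ({f x, f' x} : Finset C), a c := by
    unfold R2
    symm
    refine Finset.sum_subset (Finset.subset_univ _) ?_
    intro c _ hc
    rw [Finset.mem_insert, Finset.mem_singleton, not_or] at hc
    simp only [ha]
    rw [if_neg]
    rintro ⟨h | h, _⟩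
    · exact hc.1 h.symm
    · exact hc.2 h.symm
  have h2 : (∑ c ∈ ({f x, f' x} : Finset C), a c) ^ 2 ≤
      ((({f x, f' x} : Finset C)).card : ℝ) * ∑ c ∈ ({f x, f' x} : Finset C), (a c) ^ 2 :=
    sq_sum_le_card_mul_sum_sq
  have h3 : ((({f x, f' x} : Finset C)).card : ℝ) ≤ 2 := by
    exact_mod_cast Finset.card_le_two
  have h4 : ∑ c ∈ ({f x, f' x} : Finset C), (a c) ^ 2 ≤ ∑ c, (a c) ^ 2 :=
    Finset.sum_le_sum_of_subset_of_nonneg (Finset.subset_univ _) (fun c _ _ => sq_nonneg _)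
  have h5 : ∀ c, (a c) ^ 2 ≤ ∑ κ ∈ T2 G U m f f' x c, 2 * m * (S2 k c κ * e2 G U L f f' κ) := by
    intro c
    simp only [ha, T2]
    split_ifs with h
    · rw [Finset.sum_singleton]
      exact nn_e2 G U L k f f' c _ m h.2
    · simp
  rw [h1]
  calc (∑ c ∈ ({f x, f' x} : Finset C), a c) ^ 2
      ≤ 2 * ∑ c, (a c) ^ 2 := h2.trans (mul_le_mul h3 h4
        (Finset.sum_nonneg fun c _ => sq_nonneg _) (by norm_num))
    _ ≤ 2 * ∑ c, ∑ κ ∈ T2 G U m f f' x c, 2 * m * (S2 k c κ * e2 G U L f f' κ) :=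
        mul_le_mul_of_nonneg_left (Finset.sum_le_sum fun c _ => h5 c) (by norm_num)
    _ = _ := by
        rw [Finset.mul_sum]
        refine Finset.sum_congr rfl fun c _ => ?_
        rw [Finset.mul_sum]
        exact Finset.sum_congr rfl fun κ _ => by ring

/-- the pieces left by `x` -/
noncomputable def T3 (G : SimpleGraph V) (U : Finset V) (m : ℕ) (f f' : V → C) (x : V) (c : C) :
    Finset (Finset V) :=
  if f x = c then T1 G U m f f' x c else ∅

theorem T3_spec (hC : CCmp) (G : SimpleGraph V) (U : Finset V) (m : ℕ) (f f' : V → C) (x : V)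
    (c : C) (κ : Finset V) (hκ : κ ∈ T3 G U m f f' x c) :
    κ ∈ CC G U m ∧ (∀ u ∈ κ, f u = c ∨ f' u = c) ∧ x ∈ bd G U κ := by
  unfold T3 at hκ
  split_ifs at hκ with h
  · exact T1_spec hC G U m f f' x c κ hκ
  · simp at hκ

/-- the factor `NP` if `f x = c` -/
noncomputable def np (G : SimpleGraph V) (U : Finset V) (f f' : V → C) (c : C) (x : V) : ℝ :=
  if f x = c then (NP G U c x f' : ℝ) else 0

theorem np_nonneg (G : SimpleGraph V) (U : Finset V) (f f' : V → C) (c : C) (x : V) :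
    0 ≤ np G U f f' c x := by
  unfold np; split_ifs
  · positivity
  · exact le_refl _

theorem R3_sq (hC : CCmp) (G : SimpleGraph V) (U : Finset V) (L : V → Finset C) (p : V → C)
    (k : V → C → ℝ) (m : ℕ) (x : V) (hx : x ∈ U) (f f' : V → C) (hf : f ∈ Col G U L p) :
    (R3 G U L k m x f f') ^ 2 ≤ ∑ c, ∑ κ ∈ T3 G U m f f' x c,
      2 * m * (S2 k c κ * e2 G U L f f' κ * np G U f f' c x) := by
  have h1 : ∑ c, ∑ κ ∈ T3 G U m f f' x c,
      2 * m * (S2 k c κ * e2 G U L f f' κ * np G U f f' c x) =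
      ∑ κ ∈ T1 G U m f f' x (f x),
        2 * m * (S2 k (f x) κ * e2 G U L f f' κ * (NP G U (f x) x f' : ℝ)) := by
    rw [Finset.sum_eq_single (f x)]
    · unfold T3 np
      rw [if_pos rfl]
      exact Finset.sum_congr rfl fun κ _ => by rw [if_pos rfl]
    · intro c _ hc
      unfold T3
      rw [if_neg (fun h => hc h.symm)]
      simp
    · intro h
      exact absurd (Finset.mem_univ _) h
  rw [h1]
  have h2 : R3 G U L k m x f f' = ∑ κ ∈ T1 G U m f f' x (f x),
      nn k κ (f x) * (Lam G U L κ f f' + 1 / (Fintype.card C : ℝ)) := rfl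
  have hcard : ((T1 G U m f f' x (f x)).card : ℝ) ≤ (NP G U (f x) x f' : ℝ) := by
    have h3 : T1 G U m f f' x (f x) ⊆ ((nb G U x).filter (fun z => f' z = f x)).image
        (fun u => cmp G (DO U (f x) (sx x f) (so f')) u) := by
      intro κ hκ
      obtain ⟨u, hu, hu2, hκ2⟩ := T1_nb hC G U m f f' x (f x) κ hκ
      rw [Finset.mem_image]
      refine ⟨u, Finset.mem_filter.2 ⟨hu, ?_⟩, hκ2.symm⟩
      rcases DO_sx_col hu2 with h4 | h4
      · exfalso
        have hu3 := mem_nb.1 hu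
        exact (mem_Col.1 hf).2.2 x hx u hu3.1 hu3.2 h4.symm
      · exact h4
    have h4 := (Finset.card_le_card h3).trans Finset.card_image_le
    unfold NP
    exact_mod_cast h4
  rw [h2]
  have h3 : (∑ κ ∈ T1 G U m f f' x (f x),
      nn k κ (f x) * (Lam G U L κ f f' + 1 / (Fintype.card C : ℝ))) ^ 2 ≤
      ((T1 G U m f f' x (f x)).card : ℝ) * ∑ κ ∈ T1 G U m f f' x (f x),
        (nn k κ (f x) * (Lam G U L κ f f' + 1 / (Fintype.card C : ℝ))) ^ 2 :=
    sq_sum_le_card_mul_sum_sq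
  refine h3.trans ?_
  have h4 : ∑ κ ∈ T1 G U m f f' x (f x),
        (nn k κ (f x) * (Lam G U L κ f f' + 1 / (Fintype.card C : ℝ))) ^ 2 ≤
      ∑ κ ∈ T1 G U m f f' x (f x), 2 * m * (S2 k (f x) κ * e2 G U L f f' κ) := by
    refine Finset.sum_le_sum fun κ hκ => nn_e2 G U L k f f' (f x) κ m ?_
    simp only [T1, Finset.mem_filter] at hκ
    exact hκ.2.1
  calc ((T1 G U m f f' x (f x)).card : ℝ) * ∑ κ ∈ T1 G U m f f' x (f x),
        (nn k κ (f x) * (Lam G U L κ f f' + 1 / (Fintype.card C : ℝ))) ^ 2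
      ≤ (NP G U (f x) x f' : ℝ) *
        ∑ κ ∈ T1 G U m f f' x (f x), 2 * m * (S2 k (f x) κ * e2 G U L f f' κ) :=
        mul_le_mul hcard h4 (Finset.sum_nonneg fun κ _ => sq_nonneg _) (Nat.cast_nonneg _)
    _ = _ := by
        rw [Finset.mul_sum]
        exact Finset.sum_congr rfl fun κ _ => by ring

/-- monotone comparison of the sums over `CC` -/
theorem CR_form (G : SimpleGraph V) (U : Finset V) (k : V → C → ℝ) (m : ℕ)
    (Ψ : C → Finset V → (V → C) → (V → C) → ℝ) (f f' : V → C) (K : ℝ)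
    (H1 H2 H3 : C → Finset V → ℝ)
    (h : ∀ c, ∀ κ ∈ CC G U m, H1 c κ + H2 c κ + H3 c κ ≤ K * (S2 k c κ * Ψ c κ f f')) :
    (∑ c, ∑ κ ∈ CC G U m, (if (∀ u ∈ κ, f u = c ∨ f' u = c) then H1 c κ else 0)) +
    (∑ c, ∑ κ ∈ CC G U m, (if (∀ u ∈ κ, f u = c ∨ f' u = c) then H2 c κ else 0)) +
    (∑ c, ∑ κ ∈ CC G U m, (if (∀ u ∈ κ, f u = c ∨ f' u = c) then H3 c κ else 0)) ≤
      K * CR G U k m Ψ f f' := by
  unfold CR
  rw [← Finset.sum_add_distrib, ← Finset.sum_add_distrib, Finset.mul_sum]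
  refine Finset.sum_le_sum fun c _ => ?_
  rw [← Finset.sum_add_distrib, ← Finset.sum_add_distrib, Finset.mul_sum]
  refine Finset.sum_le_sum fun κ hκ => ?_
  by_cases h1 : ∀ u ∈ κ, f u = c ∨ f' u = c
  · rw [if_pos h1, if_pos h1, if_pos h1, if_pos h1]
    exact h c κ hκ
  · rw [if_neg h1, if_neg h1, if_neg h1, if_neg h1]
    simp

end CZSqAux

open CZSqAux

theorem cZSq_proof : CZSq := by
  intro hC _ ε m hε
  refine ⟨18 * m * (m + 1), by positivity, ?_⟩
  intro V C _ _ G U L p s k f f' hR hf hf'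
  have hG := hR.2.2
  set q : ℝ := (Fintype.card C : ℝ) with hq
  have hq0 : 0 ≤ q := by rw [hq]; positivity
  -- the three sums
  have hS : ∑ x ∈ U, (R1 G U L k m x f f' + R2 G U L k m x f f' + R3 G U L k m x f f') ^ 2 ≤
      3 * ∑ x ∈ U, ((R1 G U L k m x f f') ^ 2 + (R2 G U L k m x f f') ^ 2 +
        (R3 G U L k m x f f') ^ 2) := by
    rw [Finset.mul_sum]
    refine Finset.sum_le_sum fun x _ => ?_
    nlinarith [sq_nonneg (R1 G U L k m x f f' - R2 G U L k m x f f'),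
      sq_nonneg (R1 G U L k m x f f' - R3 G U L k m x f f'),
      sq_nonneg (R2 G U L k m x f f' - R3 G U L k m x f f')]
  have h1 : ∑ x ∈ U, (R1 G U L k m x f f') ^ 2 ≤
      ∑ c, ∑ κ ∈ CC G U m, (if (∀ u ∈ κ, f u = c ∨ f' u = c) then ∑ x ∈ bd G U κ,
        6 * m * q * (S2 k c κ * e1 G U L f f' c κ x) else 0) := by
    refine (Finset.sum_le_sum fun x hx => R1_sq hC G U L k m s hG x hx f f').trans ?_
    exact exch G U m f f' (fun x c => T1 G U m f f' x c) (fun κ => bd G U κ)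
      (fun c κ x => 6 * m * q * (S2 k c κ * e1 G U L f f' c κ x))
      (fun c κ x => mul_nonneg (by positivity)
        (mul_nonneg (S2_nonneg _ _ _) (e1_nonneg _ _ _ _ _ _ _ _)))
      (fun x _ c κ hκ => T1_spec hC G U m f f' x c κ hκ)
  have h2 : ∑ x ∈ U, (R2 G U L k m x f f') ^ 2 ≤
      ∑ c, ∑ κ ∈ CC G U m, (if (∀ u ∈ κ, f u = c ∨ f' u = c) then ∑ x ∈ κ,
        4 * m * (S2 k c κ * e2 G U L f f' κ) else 0) := by
    refine (Finset.sum_le_sum fun x hx => R2_sq G U L k m x f f').trans ?_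
    exact exch G U m f f' (fun x c => T2 G U m f f' x c) (fun κ => κ)
      (fun c κ x => 4 * m * (S2 k c κ * e2 G U L f f' κ))
      (fun c κ x => mul_nonneg (by positivity)
        (mul_nonneg (S2_nonneg _ _ _) (e2_nonneg _ _ _ _ _ _)))
      (fun x hx c κ hκ => T2_spec hC G U m f f' x hx c κ hκ)
  have h3 : ∑ x ∈ U, (R3 G U L k m x f f') ^ 2 ≤
      ∑ c, ∑ κ ∈ CC G U m, (if (∀ u ∈ κ, f u = c ∨ f' u = c) then ∑ x ∈ bd G U κ,
        2 * m * (S2 k c κ * e2 G U L f f' κ * np G U f f' c x) else 0) := by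
    refine (Finset.sum_le_sum fun x hx => R3_sq hC G U L p k m x hx f f' hf).trans ?_
    exact exch G U m f f' (fun x c => T3 G U m f f' x c) (fun κ => bd G U κ)
      (fun c κ x => 2 * m * (S2 k c κ * e2 G U L f f' κ * np G U f f' c x))
      (fun c κ x => mul_nonneg (by positivity)
        (mul_nonneg (mul_nonneg (S2_nonneg _ _ _) (e2_nonneg _ _ _ _ _ _))
          (np_nonneg _ _ _ _ _ _)))
      (fun x _ c κ hκ => T3_spec hC G U m f f' x c κ hκ)
  have h4 := CR_form G U k m (PsiZ G U L) f f' (6 * m * (m + 1))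
    (fun c κ => ∑ x ∈ bd G U κ, 6 * m * q * (S2 k c κ * e1 G U L f f' c κ x))
    (fun c κ => ∑ x ∈ κ, 4 * m * (S2 k c κ * e2 G U L f f' κ))
    (fun c κ => ∑ x ∈ bd G U κ, 2 * m * (S2 k c κ * e2 G U L f f' κ * np G U f f' c x))
    (by
      intro c κ hκ
      have hκm : (κ.card : ℝ) ≤ m := by
        unfold CC at hκ
        rw [Finset.mem_filter] at hκ
        exact_mod_cast hκ.2.2.1
      have hS0 := S2_nonneg k c κ
      have he0 := e2_nonneg G U L f f' κ
      set N : ℝ := ∑ x ∈ bd G U κ, np G U f f' c x with hN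
      have hN0 : 0 ≤ N := Finset.sum_nonneg fun x _ => np_nonneg _ _ _ _ _ _
      set E : ℝ := ∑ x ∈ bd G U κ, e1 G U L f f' c κ x with hE
      have hE0 : 0 ≤ E := Finset.sum_nonneg fun x _ => e1_nonneg _ _ _ _ _ _ _ _
      have hY : 1 + N ≤ YZ G U c κ f f' := by
        unfold YZ
        refine add_le_add le_rfl (Finset.sum_le_sum fun x _ => ?_)
        unfold np
        split_ifs
        · linarith
        · exact le_refl _
      have hP : PsiZ G U L c κ f f' = e2 G U L f f' κ * YZ G U c κ f f' + q * E := rfl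
      have a1 : ∑ x ∈ bd G U κ, 6 * m * q * (S2 k c κ * e1 G U L f f' c κ x) =
          6 * m * (q * E) * S2 k c κ := by
        rw [hE, ← Finset.mul_sum, ← Finset.mul_sum]
        ring
      have a2 : ∑ x ∈ κ, 4 * m * (S2 k c κ * e2 G U L f f' κ) =
          4 * m * κ.card * (S2 k c κ * e2 G U L f f' κ) := by
        rw [Finset.sum_const, nsmul_eq_mul]
        ring
      have a3 : ∑ x ∈ bd G U κ, 2 * m * (S2 k c κ * e2 G U L f f' κ * np G U f f' c x) =
          2 * m * N * (S2 k c κ * e2 G U L f f' κ) := by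
        rw [hN, ← Finset.mul_sum, ← Finset.mul_sum]
        ring
      rw [a1, a2, a3, hP]
      have hSe : 0 ≤ S2 k c κ * e2 G U L f f' κ := mul_nonneg hS0 he0
      have hm0 : (0 : ℝ) ≤ m := Nat.cast_nonneg _
      have b1 : 4 * m * (κ.card : ℝ) * (S2 k c κ * e2 G U L f f' κ) ≤
          4 * m * m * (S2 k c κ * e2 G U L f f' κ) :=
        mul_le_mul_of_nonneg_right (mul_le_mul_of_nonneg_left hκm (by positivity)) hSe
      have b2 : 6 * m * (m + 1) * (S2 k c κ * (e2 G U L f f' κ * (1 + N) + q * E)) ≤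
          6 * m * (m + 1) * (S2 k c κ * (e2 G U L f f' κ * YZ G U c κ f f' + q * E)) := by
        refine mul_le_mul_of_nonneg_left (mul_le_mul_of_nonneg_left ?_ hS0) (by positivity)
        have := mul_le_mul_of_nonneg_left hY he0
        linarith
      refine le_trans ?_ b2
      have c1 : 0 ≤ (m : ℝ) * m * (q * E * S2 k c κ) := by positivity
      have c2 : 0 ≤ (m : ℝ) * m * (S2 k c κ * e2 G U L f f' κ) := by positivity
      have c3 : 0 ≤ (m : ℝ) * m * N * (S2 k c κ * e2 G U L f f' κ) := by positivity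
      have c4 : 0 ≤ (m : ℝ) * N * (S2 k c κ * e2 G U L f f' κ) := by positivity
      have c5 : 0 ≤ (m : ℝ) * (S2 k c κ * e2 G U L f f' κ) := by positivity
      nlinarith [b1, c1, c2, c3, c4, c5])
  rw [Finset.sum_add_distrib, Finset.sum_add_distrib] at hS
  refine hS.trans ?_
  calc 3 * (∑ x ∈ U, (R1 G U L k m x f f') ^ 2 + ∑ x ∈ U, (R2 G U L k m x f f') ^ 2 +
        ∑ x ∈ U, (R3 G U L k m x f f') ^ 2)
      ≤ 3 * (6 * m * (m + 1) * CR G U k m (PsiZ G U L) f f') := by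
        refine mul_le_mul_of_nonneg_left ?_ (by norm_num)
        exact (add_le_add (add_le_add h1 h2) h3).trans h4
    _ = _ := by ring

end Pool.Agent.Ex26
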