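import Pool.Agent.Lib.MP_26a019_lc.Ex.CAsm
import Pool.Agent.Lib.MP_26a019_lc.Ex.CTensor
import Pool.Agent.Lib.MP_26a019_lc.Ex.CDom
import Pool.Agent.Lib.MP_26a019_lc.Ex.CMgLow
import Pool.Agent.Lib.MP_26a019_lc.Ex.CCount
import Pool.Agent.Lib.MP_26a019_lc.Ex.CSum
import Pool.Agent.Lib.MP_26a019_lc.Ex.CDomYZ
import Pool.Agent.Lib.MP_26a019_lc.Ex.CLam
import Pool.Agent.Lib.MP_26a019_lc.Ex.CPsiZ
import Pool.Agent.Lib.MP_26a019_lc.Ex.CPsiW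
import Pool.Agent.Lib.MP_26a019_lc.Ex.CQ
import Pool.Agent.Lib.MP_26a019_lc.Ex.CPsiQ
import Pool.Agent.Lib.MP_26a019_lc.Ex.CPsiG
import Pool.Agent.Lib.MP_26a019_lc.Ex.CCmp
import Pool.Agent.Lib.MP_26a019_lc.Ex.CPiece
import Pool.Agent.Lib.MP_26a019_lc.Ex.CDiffF
import Pool.Agent.Lib.MP_26a019_lc.Ex.CSwap
import Pool.Agent.Lib.MP_26a019_lc.Ex.CMainPt
import Pool.Agent.Lib.MP_26a019_lc.Ex.CMainSum
import Pool.Agent.Lib.MP_26a019_lc.Ex.CVar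
import Pool.Agent.Lib.MP_26a019_lc.Ex.CWh
import Pool.Agent.Lib.MP_26a019_lc.Ex.CLow
import Pool.Agent.Lib.MP_26a019_lc.Ex.CUp
import Pool.Agent.Lib.MP_26a019_lc.Ex.CGauge
import Pool.Agent.Lib.MP_26a019_lc.Ex.CRho1
import Pool.Agent.Lib.MP_26a019_lc.Ex.CRho2
import Pool.Agent.Lib.MP_26a019_lc.Ex.CZAbs
import Pool.Agent.Lib.MP_26a019_lc.Ex.CZSq
import Pool.Agent.Lib.MP_26a019_lc.Ex.CWAbs
import Pool.Agent.Lib.MP_26a019_lc.Ex.CWSq
import Pool.Agent.Lib.MP_26a019_lc.Ex.CQCR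
import Pool.Agent.Lib.MP_26a019_lc.Ex.CLinQ
import Pool.Agent.Lib.MP_26a019_lc.Ex.CLinVar
import Pool.Agent.Lib.MP_26a019_lc.Ex.CZFin
import Pool.Agent.Lib.MP_26a019_lc.Ex.CXCount
import Pool.Agent.Lib.MP_26a019_lc.Ex.CGamDiff
import Pool.Agent.Lib.MP_26a019_lc.Ex.CGamPt
import Pool.Agent.Lib.MP_26a019_lc.Ex.CGamFin
import Pool.Agent.Lib.MP_26a019_lc.Ex.CTail

set_option autoImplicit false

/-!
# Part C, complete
-/

namespace Pool.Agent.Ex26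

theorem partC_proof : PartC :=
  partC_of cTensor_proof cDom_proof cMgLow_proof cCount_proof cSum_proof cDomYZ_proof cLam_proof
    cPsiZ_proof cPsiW_proof cQ_proof cPsiQ_proof cPsiG_proof cCmp_proof cPiece_proof
    cDiffF_proof cSwap_proof cMainPt_proof cMainSum_proof cVar_proof cWh_proof cLow_proof
    cUp_proof cGauge_proof cRho1_proof cRho2_proof cZAbs_proof cZSq_proof cWAbs_proof
    cWSq_proof cQCR_proof cLinQ_proof cLinVar_proof cZFin_proof cXCount_proof cGamDiff_proof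
    cGamPt_proof cGamFin_proof cTail_proof

end Pool.Agent.Ex26
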