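import Pool.Agent.Lib.MP_26a019_lc.Ex.CSpec

set_option autoImplicit false

open Finset Classical

namespace Pool.Agent.Ex26

open Pool.Agent.Kempe Pool.Agent.KempeMix Pool.Agent.Eps26

theorem cPsiW_proof : CPsiW := by
  intro h1 h2 ε m hε
  obtain ⟨K, hK, h⟩ := h2 h1 ε m hε
  refine ⟨K, hK, ?_⟩
  intro V C _ _ G U L p s c κ σ hreg hκ hσ
  have e1 := h V C G U L p s c κ σ (fun _ _ => 1 / (Fintype.card C : ℝ)) 0 hreg hκ hσ le_rfl
    (fun _ _ => by positivity)
    (fun X f f' g g' _ _ _ => by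
      have : (0 : ℝ) ≤ 1 / (Fintype.card C : ℝ) := by positivity
      linarith)
  rw [ev2_const (Col_nonempty hreg.2.2 p)] at e1
  refine e1.trans (le_of_eq ?_)
  ring

end Pool.Agent.Ex26
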