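import Pool.Agent.Lib.MP_26a019_lc.Ex.CSpec

set_option autoImplicit false
set_option linter.unusedVariables false

/-!
# Part C: the quadratic term of the linear part (statement `CQCR`)
-/

open Finset Classical

namespace Pool.Agent.Ex26

open Pool.Agent.Kempe Pool.Agent.KempeMix Pool.Agent.Eps26

namespace CQCRAux

variable {V C : Type} [Fintype V] [Fintype C]

theorem sg_cases (c : C) (φ φ' : V → Option C) (u : V) :
    sg c φ φ' u = 0 ∨ sg c φ φ' u = 1 ∨ sg c φ φ' u = -1 := by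
  unfold sg
  split_ifs <;> norm_num

theorem sg_sq_le_one (c : C) (φ φ' : V → Option C) (u : V) : (sg c φ φ' u) ^ 2 ≤ 1 := by
  rcases sg_cases c φ φ' u with h | h | h <;> rw [h] <;> norm_num

theorem sum_ind_le (φ : V → Option C) (u : V) :
    ∑ c : C, (if φ u = some c then (1 : ℝ) else 0) ≤ 1 := by
  cases h : φ u with
  | none => simp
  | some a => simp

theorem sum_sg_sq_le (φ φ' : V → Option C) (u : V) : ∑ c : C, (sg c φ φ' u) ^ 2 ≤ 2 := by
  have h1 : ∀ c : C, (sg c φ φ' u) ^ 2 ≤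
      (if φ u = some c then (1 : ℝ) else 0) + (if φ' u = some c then (1 : ℝ) else 0) := by
    intro c
    unfold sg
    split_ifs <;> norm_num
  calc ∑ c : C, (sg c φ φ' u) ^ 2
      ≤ ∑ c : C, ((if φ u = some c then (1 : ℝ) else 0) +
          (if φ' u = some c then (1 : ℝ) else 0)) := Finset.sum_le_sum (fun c _ => h1 c)
    _ ≤ 2 := by
        rw [Finset.sum_add_distrib]
        linarith [sum_ind_le φ u, sum_ind_le φ' u]

theorem sk_sq_le (k : V → C → ℝ) (c : C) (κ : Finset V) (φ φ' : V → Option C) :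
    (sk k c κ φ φ') ^ 2 ≤ (κ.card : ℝ) * ∑ w ∈ κ, (k w c) ^ 2 := by
  unfold sk
  refine le_trans sq_sum_le_card_mul_sum_sq ?_
  refine mul_le_mul_of_nonneg_left ?_ (by positivity)
  refine Finset.sum_le_sum (fun w _ => ?_)
  rw [mul_pow]
  have h := sg_sq_le_one c φ φ' w
  have h2 : 0 ≤ (k w c) ^ 2 := sq_nonneg _
  nlinarith

theorem W_sq_le (G : SimpleGraph V) (U : Finset V) (k : V → C → ℝ) (m : ℕ) (u : V)
    (φ φ' : V → Option C) :
    (Wm G U k m u φ φ') ^ 2 ≤ 2 * m * ∑ c : C, (if sg c φ φ' u ≠ 0 ∧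
      (cmp G (DO U c φ φ') u).card ≤ m then ∑ w ∈ cmp G (DO U c φ φ') u, (k w c) ^ 2 else 0) := by
  have hrw : Wm G U k m u φ φ' = ∑ c : C, sg c φ φ' u * ((sg c φ φ' u) ^ 2 *
      (if (cmp G (DO U c φ φ') u).card ≤ m then
        sk k c (cmp G (DO U c φ φ') u) φ φ' else 0)) := by
    unfold Wm
    refine Finset.sum_congr rfl (fun c _ => ?_)
    rcases sg_cases c φ φ' u with h | h | h <;> rw [h] <;> norm_num
  rw [hrw]
  refine le_trans (Finset.sum_mul_sq_le_sq_mul_sq _ _ _) ?_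
  have hA := sum_sg_sq_le φ φ' u
  have hB : ∑ c : C, ((sg c φ φ' u) ^ 2 *
      (if (cmp G (DO U c φ φ') u).card ≤ m then
        sk k c (cmp G (DO U c φ φ') u) φ φ' else 0)) ^ 2 ≤ m * ∑ c : C, (if sg c φ φ' u ≠ 0 ∧
      (cmp G (DO U c φ φ') u).card ≤ m then ∑ w ∈ cmp G (DO U c φ φ') u, (k w c) ^ 2 else 0) := by
    rw [Finset.mul_sum]
    refine Finset.sum_le_sum (fun c _ => ?_)
    by_cases hs : sg c φ φ' u = 0
    · simp [hs]
    · by_cases hm : (cmp G (DO U c φ φ') u).card ≤ m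
      · rw [if_pos hm, if_pos ⟨hs, hm⟩]
        have h1 : (sg c φ φ' u) ^ 2 = 1 := by
          rcases sg_cases c φ φ' u with h | h | h
          · exact absurd h hs
          · rw [h]; norm_num
          · rw [h]; norm_num
        rw [h1, one_mul]
        refine le_trans (sk_sq_le k c _ φ φ') ?_
        refine mul_le_mul_of_nonneg_right ?_ (Finset.sum_nonneg fun w _ => sq_nonneg _)
        exact_mod_cast hm
      · rw [if_neg hm, if_neg (fun h => hm h.2)]
        simp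
  have hC : 0 ≤ ∑ c : C, (if sg c φ φ' u ≠ 0 ∧
      (cmp G (DO U c φ φ') u).card ≤ m then ∑ w ∈ cmp G (DO U c φ φ') u, (k w c) ^ 2 else 0) := by
    refine Finset.sum_nonneg (fun c _ => ?_)
    split_ifs
    · exact Finset.sum_nonneg fun w _ => sq_nonneg _
    · exact le_rfl
  have hm0 : (0 : ℝ) ≤ m := by positivity
  have h2 : 0 ≤ ∑ c : C, ((sg c φ φ' u) ^ 2 *
      (if (cmp G (DO U c φ φ') u).card ≤ m then
        sk k c (cmp G (DO U c φ φ') u) φ φ' else 0)) ^ 2 :=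
    Finset.sum_nonneg fun c _ => sq_nonneg _
  calc _ ≤ 2 * (m * ∑ c : C, (if sg c φ φ' u ≠ 0 ∧
      (cmp G (DO U c φ φ') u).card ≤ m then ∑ w ∈ cmp G (DO U c φ φ') u, (k w c) ^ 2 else 0)) :=
        mul_le_mul hA hB h2 (by norm_num)
    _ = _ := by ring

theorem Qx_comm (G : SimpleGraph V) (U : Finset V) (L : V → Finset C) (x u u' : V) :
    Qx G U L x u u' = Qx G U L x u' u := by
  funext f
  unfold Qx
  rw [Finset.inter_comm (avX G U L {x} f u) (avX G U L {x} f u'),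
    mul_comm ((avX G U L {x} f u).card : ℝ) ((avX G U L {x} f u').card : ℝ)]

end CQCRAux

open CQCRAux in
theorem cQCR_proof : CQCR := by
  intro hcmp V C _ _ G U L p k m f f'
  -- abbreviations
  set δ : V → V → V → ℝ := fun x u u' =>
    |Qx G U L x u u' f - ev (Col G U L p) (Qx G U L x u u')| with hδ
  have hδ0 : ∀ x u u', 0 ≤ δ x u u' := fun x u u' => abs_nonneg _
  have hδs : ∀ x u u', δ x u u' = δ x u' u := by
    intro x u u'
    simp only [hδ]
    rw [Qx_comm G U L x u u']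
  set W : V → V → ℝ := fun x u => Wm G U k m u (sx x f) (so f') with hW
  set T : V → V → C → ℝ := fun x u c => (if sg c (sx x f) (so f') u ≠ 0 ∧
      (cmp G (DO U c (sx x f) (so f')) u).card ≤ m then
        ∑ w ∈ cmp G (DO U c (sx x f) (so f')) u, (k w c) ^ 2 else 0) with hT
  have hWT : ∀ x u, (W x u) ^ 2 ≤ 2 * m * ∑ c, T x u c := fun x u => W_sq_le G U k m u _ _
  -- step 1
  have step1 : ∀ x ∈ U, ∑ u ∈ nb G U x, ∑ u' ∈ nb G U x, |W x u| * |W x u'| * δ x u u' ≤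
      ∑ u ∈ nb G U x, ∑ u' ∈ nb G U x, (W x u) ^ 2 * δ x u u' := by
    intro x hx
    have e1 : ∑ u ∈ nb G U x, ∑ u' ∈ nb G U x, |W x u| * |W x u'| * δ x u u' ≤
        ∑ u ∈ nb G U x, ∑ u' ∈ nb G U x,
          ((W x u) ^ 2 * δ x u u' / 2 + (W x u') ^ 2 * δ x u u' / 2) := by
      refine Finset.sum_le_sum (fun u _ => Finset.sum_le_sum (fun u' _ => ?_))
      have h1 : |W x u| * |W x u'| ≤ ((W x u) ^ 2 + (W x u') ^ 2) / 2 := by
        have := sq_nonneg (|W x u| - |W x u'|)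
        have h2 := sq_abs (W x u)
        have h3 := sq_abs (W x u')
        nlinarith
      have := mul_le_mul_of_nonneg_right h1 (hδ0 x u u')
      linarith
    have e2 : ∑ u ∈ nb G U x, ∑ u' ∈ nb G U x,
          ((W x u) ^ 2 * δ x u u' / 2 + (W x u') ^ 2 * δ x u u' / 2) =
        (∑ u ∈ nb G U x, ∑ u' ∈ nb G U x, (W x u) ^ 2 * δ x u u') / 2 +
        (∑ u ∈ nb G U x, ∑ u' ∈ nb G U x, (W x u') ^ 2 * δ x u u') / 2 := by
      simp only [Finset.sum_add_distrib, Finset.sum_div]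
    have e3 : ∑ u ∈ nb G U x, ∑ u' ∈ nb G U x, (W x u') ^ 2 * δ x u u' =
        ∑ u ∈ nb G U x, ∑ u' ∈ nb G U x, (W x u) ^ 2 * δ x u u' := by
      rw [Finset.sum_comm]
      refine Finset.sum_congr rfl (fun u _ => Finset.sum_congr rfl (fun u' _ => ?_))
      rw [hδs x u' u]
    rw [e2, e3] at e1
    linarith
  -- step 2: the sets
  have hCC : ∀ (c : C) (x u : V), x ∈ U → u ∈ nb G U x →
      T x u c ≤ ∑ κ ∈ (CC G U m).filter (fun κ => u ∈ κ ∧ ∀ w ∈ κ, f w = c ∨ f' w = c),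
        ∑ w ∈ κ, (k w c) ^ 2 := by
    intro c x u hx hu
    simp only [hT]
    have hnn : ∀ κ : Finset V, 0 ≤ ∑ w ∈ κ, (k w c) ^ 2 :=
      fun κ => Finset.sum_nonneg fun w _ => sq_nonneg _
    split_ifs with h
    · obtain ⟨hs, hm⟩ := h
      obtain ⟨c1, c2, c3, c4, c5, c6⟩ := hcmp V G (DO U c (sx x f) (so f'))
      have huU : u ∈ U := by
        unfold nb at hu
        exact (Finset.mem_filter.1 hu).1
      have huD : u ∈ DO U c (sx x f) (so f') := by
        rw [mem_DO]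
        refine ⟨huU, fun hiff => hs ?_⟩
        unfold sg
        by_cases h1 : sx x f u = some c
        · rw [if_pos h1, if_pos (hiff.1 h1)]; norm_num
        · rw [if_neg h1, if_neg (fun h2 => h1 (hiff.2 h2))]; norm_num
      have hmem : cmp G (DO U c (sx x f) (so f')) u ∈ comps G (DO U c (sx x f) (so f')) := by
        unfold comps
        exact Finset.mem_image_of_mem _ huD
      obtain ⟨d1, d2, d3⟩ := c6 _ hmem
      refine Finset.single_le_sum (f := fun κ : Finset V => ∑ w ∈ κ, (k w c) ^ 2)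
        (fun κ _ => hnn κ) ?_
      rw [Finset.mem_filter]
      refine ⟨?_, c1 u huD, ?_⟩
      · unfold CC
        rw [Finset.mem_filter, Finset.mem_powerset]
        refine ⟨fun w hw => ?_, d1, hm, d3⟩
        exact (mem_DO.1 (c2 u hw)).1
      · intro w hw
        have hwD := mem_DO.1 (c2 u hw)
        by_contra hcon
        push Not at hcon
        apply hwD.2
        constructor
        · intro h1
          exact absurd (sx_eq.1 h1).2 hcon.1
        · intro h1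
          exact absurd (so_eq.1 h1) hcon.2
    · exact Finset.sum_nonneg fun κ _ => hnn κ
  -- assembling
  have step2 : ∑ x ∈ U, ∑ u ∈ nb G U x, ∑ u' ∈ nb G U x, |W x u| * |W x u'| * δ x u u' ≤
      2 * m * ∑ c, ∑ x ∈ U, ∑ u ∈ nb G U x, ∑ u' ∈ nb G U x,
        (∑ κ ∈ (CC G U m).filter (fun κ => u ∈ κ ∧ ∀ w ∈ κ, f w = c ∨ f' w = c),
        ∑ w ∈ κ, (k w c) ^ 2) * δ x u u' := by
    have e0 : 2 * (m : ℝ) * ∑ c, ∑ x ∈ U, ∑ u ∈ nb G U x, ∑ u' ∈ nb G U x,
        (∑ κ ∈ (CC G U m).filter (fun κ => u ∈ κ ∧ ∀ w ∈ κ, f w = c ∨ f' w = c),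
        ∑ w ∈ κ, (k w c) ^ 2) * δ x u u' = ∑ x ∈ U, ∑ u ∈ nb G U x, ∑ u' ∈ nb G U x,
        (2 * (m : ℝ) * ∑ c, (∑ κ ∈ (CC G U m).filter (fun κ => u ∈ κ ∧
          ∀ w ∈ κ, f w = c ∨ f' w = c), ∑ w ∈ κ, (k w c) ^ 2)) * δ x u u' := by
      rw [Finset.sum_comm, Finset.mul_sum]
      refine Finset.sum_congr rfl (fun x _ => ?_)
      rw [Finset.sum_comm, Finset.mul_sum]
      refine Finset.sum_congr rfl (fun u _ => ?_)
      rw [Finset.sum_comm, Finset.mul_sum]
      refine Finset.sum_congr rfl (fun u' _ => ?_)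
      rw [← Finset.sum_mul]
      ring
    rw [e0]
    refine Finset.sum_le_sum (fun x hx => ?_)
    refine le_trans (step1 x hx) ?_
    refine Finset.sum_le_sum (fun u hu => Finset.sum_le_sum (fun u' _ => ?_))
    refine mul_le_mul_of_nonneg_right ?_ (hδ0 x u u')
    refine le_trans (hWT x u) ?_
    refine mul_le_mul_of_nonneg_left ?_ (by positivity)
    exact Finset.sum_le_sum (fun c _ => hCC c x u hx hu)
  refine le_trans step2 ?_
  refine mul_le_mul_of_nonneg_left ?_ (by positivity)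
  unfold CR
  refine Finset.sum_le_sum (fun c _ => le_of_eq ?_)
  -- an identity for each colour
  have hswap : ∑ x ∈ U, ∑ u ∈ nb G U x, ∑ u' ∈ nb G U x,
        (∑ κ ∈ (CC G U m).filter (fun κ => u ∈ κ ∧ ∀ w ∈ κ, f w = c ∨ f' w = c),
        ∑ w ∈ κ, (k w c) ^ 2) * δ x u u' = ∑ u ∈ U, ∑ x ∈ nb G U u, ∑ u' ∈ nb G U x,
        (∑ κ ∈ (CC G U m).filter (fun κ => u ∈ κ ∧ ∀ w ∈ κ, f w = c ∨ f' w = c),
        ∑ w ∈ κ, (k w c) ^ 2) * δ x u u' := by
    refine Finset.sum_comm' (fun x u => ?_)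
    unfold nb
    simp only [Finset.mem_filter]
    constructor
    · rintro ⟨h1, h2, h3⟩
      exact ⟨⟨h1, h3.symm⟩, h2⟩
    · rintro ⟨⟨h1, h3⟩, h2⟩
      exact ⟨h1, h2, h3.symm⟩
  rw [hswap]
  have hE : ∀ u ∈ U, ∑ x ∈ nb G U u, ∑ u' ∈ nb G U x,
        (∑ κ ∈ (CC G U m).filter (fun κ => u ∈ κ ∧ ∀ w ∈ κ, f w = c ∨ f' w = c),
        ∑ w ∈ κ, (k w c) ^ 2) * δ x u u' = ∑ κ ∈ CC G U m,
        (if u ∈ κ ∧ ∀ w ∈ κ, f w = c ∨ f' w = c then
          (∑ w ∈ κ, (k w c) ^ 2) * ∑ x ∈ nb G U u, ∑ u' ∈ nb G U x, δ x u u' else 0) := by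
    intro u _
    rw [← Finset.sum_filter, ← Finset.sum_mul, Finset.mul_sum]
    refine Finset.sum_congr rfl (fun x _ => ?_)
    rw [Finset.mul_sum]
  rw [Finset.sum_congr rfl hE, Finset.sum_comm]
  refine Finset.sum_congr rfl (fun κ hκ => ?_)
  have hκU : κ ⊆ U := by
    unfold CC at hκ
    exact Finset.mem_powerset.1 (Finset.mem_filter.1 hκ).1
  by_cases hP : ∀ w ∈ κ, f w = c ∨ f' w = c
  · rw [if_pos hP]
    unfold PsiQ
    rw [Finset.mul_sum, ← Finset.sum_filter_add_sum_filter_not U (fun u => u ∈ κ)]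
    have z : ∑ u ∈ U.filter (fun u => ¬ u ∈ κ), (if u ∈ κ ∧ ∀ w ∈ κ, f w = c ∨ f' w = c then
          (∑ w ∈ κ, (k w c) ^ 2) * ∑ x ∈ nb G U u, ∑ u' ∈ nb G U x, δ x u u' else 0) = 0 := by
      refine Finset.sum_eq_zero (fun u hu => ?_)
      rw [if_neg (fun h => (Finset.mem_filter.1 hu).2 h.1)]
    have hf : U.filter (fun u => u ∈ κ) = κ := by
      ext u
      rw [Finset.mem_filter]
      exact ⟨fun h => h.2, fun h => ⟨hκU h, h⟩⟩
    rw [z, add_zero, hf]
    refine Finset.sum_congr rfl (fun u hu => ?_)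
    rw [if_pos ⟨hu, hP⟩]
  · rw [if_neg hP]
    refine Finset.sum_eq_zero (fun u _ => ?_)
    rw [if_neg (fun h => hP h.2)]

end Pool.Agent.Ex26
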