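import Pool.Agent.Lib.MP_26a019_lc.Ex.Ev2

set_option autoImplicit false
set_option linter.unusedVariables false

/-!
# Part C (cluster bounds imply spectral independence): statements of the modules

Every `def CX : Prop` is one module: prove `theorem cX_proof : CX` in the file `Ex/CX.lean`,
importing this file. Other modules used are hypotheses (`CY → ...`), so all modules are independent
of each other. Definitions: `Ex/CDefs.lean`, `Ex/Top.lean`, `Eps/Defs.lean`, `Mix/MDefs.lean`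
(`ev`, `vr`). Proved basic library: `Eps/Basic.lean` (`ev_add`, `ev_sub`, `ev_mul_left`, `ev_sum`,
`ev_mono`, `ev_congr`, `ev_nonneg`, `abs_ev_le`, `ev_sq_le`, `vr_le`, `vr_eq`, `mem_nb`, `card_avX`,
`card_av`, `card_avX_nb`, `av_pos`, `self_mem_av`, `update_mem`, `Col_nonempty`, `ind_hb`, `hb_ind`,
`hb_indicator`, `ev_hb`, `ev_ind_mul`, `ev_color_mul`, `ev_sub_hb_sq_le`, `pr_le`, `mg_eq`,
`mg_nonneg`, `mg_le`, `sum_mg`, ...) and `Ex/Ev2.lean` (`ev2`).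

Notation in the proofs: `A = Col G U L p`, `q = Fintype.card C`, `E` = `ev A` or `ev2 A`,
`D_c = DD U c f f'` (`= DO U c (so f) (so f')`), `D^x_c = DO U c (sx x f) (so f')`, `[B]` = indicator.
If `U` is not empty then `s ≤ |L v| ≤ q`, hence `2 ≤ q` and `ε ≤ 1`; if `U = ∅` most statements are
trivial.
-/

open Finset Classical

namespace Pool.Agent.Ex26

open Pool.Agent.Kempe Pool.Agent.KempeMix Pool.Agent.Eps26

/-- the standing assumptions -/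
def Reg {V C : Type} [Fintype V] [Fintype C] (ε : ℝ) (G : SimpleGraph V) (U : Finset V)
    (L : V → Finset C) (s : ℕ) : Prop :=
  0 < ε ∧ ε * (Fintype.card C : ℝ) ≤ s ∧ Good G U L s

/-- `k` vanishes outside the lists -/
def Off {V C : Type} (L : V → Finset C) (k : V → C → ℝ) : Prop :=
  ∀ v c, c ∉ L v → k v c = 0

/-! ### Probability -/

/-- **CTensor** (Poincaré inequality for two independent colourings). Proof. Let `A = Col G U L p`
(nonempty, `Col_nonempty`), `a f' = ev A (Φ · f')`. For fixed `f'`,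
`ev A (Φ · f')^2 = vr A (Φ · f') + (a f')^2` (`vr_eq`). Since `ev a = ev2 Φ = 0` (exchange of the two
sums), `ev a^2 = vr a`; and `a f' = ev_f Φ f f' = τ ev_f Φ f' f`, so `vr a = vr_{f'} (ev_f Φ f' f) ≤
ev_f vr_{f'} (Φ f' f)` (`(ev_f g_f)^2 ≤ ev_f g_f^2`, `ev_sq_le`, applied to the centred functions),
which is `ev_{f'} vr_f (Φ f f')` after renaming. So `ev2 Φ^2 ≤ 2 ev_{f'} vr A (Φ · f')`. Now `Poin` for
every `f'` and `ev_sub_hb_sq_le` (`φ x · f'` does not depend on the colour of `x`). -/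
def CTensor : Prop :=
  ∀ (V C : Type) [Fintype V] [Fintype C] (G : SimpleGraph V) (U : Finset V) (L : V → Finset C)
    (p : V → C) (s : ℕ) (P τ : ℝ) (Φ : (V → C) → (V → C) → ℝ)
    (φ : V → (V → C) → (V → C) → ℝ), Good G U L s → 0 ≤ P → Poin G U L p P →
    (τ = 1 ∨ τ = -1) → (∀ f f', Φ f' f = τ * Φ f f') → ev2 (Col G U L p) Φ = 0 →
    (∀ x ∈ U, ∀ f', Ind x (fun f => φ x f f')) →
    ev2 (Col G U L p) (fun f f' => (Φ f f') ^ 2) ≤
      2 * P * ∑ x ∈ U, ev2 (Col G U L p) (fun f f' => (Φ f f' - φ x f f') ^ 2)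

/-- **CDom** (domination). Proof. Let `Ψ^ f f'` be the maximum of `Ψ g g'` over the `g`, `g'` with
`g = f` outside `σ`, `g' = f'` outside `σ'` (finitely many). Then `Ψ ≤ Ψ^ ≤ 2 Ψ + r`, and `Ψ^` does
not depend on `f` on `σ` and on `f'` on `σ'`. For a function `Θ ≥ 0` with `Ind u Θ`, `u ∈ U`:
`ev A ([f u = c] Θ) = ev A (pr u c Θ) ≤ (1/s) ev A Θ` (`ev_color_mul`, `pr_le`). By induction on
`|σ|`, for fixed `f'`: `ev_f ([f = c on σ] Ψ^ f f') ≤ (1/s)^|σ| ev_f Ψ^ f f'`, and the same for `f'`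
and `σ'`. So the left side is at most `(1/s)^(|σ|+|σ'|) ev2 Ψ^`. -/
def CDom : Prop :=
  ∀ (V C : Type) [Fintype V] [Fintype C] (G : SimpleGraph V) (U : Finset V) (L : V → Finset C)
    (p : V → C) (s : ℕ) (c : C) (σ σ' : Finset V) (Ψ : (V → C) → (V → C) → ℝ) (r : ℝ),
    Good G U L s → σ ⊆ U → σ' ⊆ U → 0 ≤ r → (∀ f f', 0 ≤ Ψ f f') →
    (∀ f f' g g', (∀ v, v ∉ σ → g v = f v) → (∀ v, v ∉ σ' → g' v = f' v) →
      Ψ f f' ≤ 2 * Ψ g g' + r) →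
    ev2 (Col G U L p) (fun f f' => pt c σ σ' f f' * Ψ f f') ≤
      (1 / (s : ℝ)) ^ (σ.card + σ'.card) * (2 * ev2 (Col G U L p) Ψ + r)

/-- **CMgLow** (lower bound for marginals). Proof. Let `N = nb G U u`. For `Θ ≥ 0` with `Ind w Θ`,
`w ∈ U`: `ev A ([f w ≠ c] Θ) = ev A ((1 - pr w c) Θ) ≥ (1 - 1/s) ev A Θ`. By induction over subsets
of `N`, `P(f w ≠ c for all w ∈ N) ≥ (1 - 1/s)^|N|`. For `s ≥ 2`, `1 - 1/s ≥ e^{-2/s}`
(`1 - t ≥ e^{-2t}` on `[0,1/2]` by convexity of `exp`), and `|N| ≤ q`, `q/s ≤ 1/ε`, so this is at least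
`e^{-2|N|/s} ≥ e^{-2/ε}`. Since `c ∈ L u`, `c ∈ av f u` iff no `w ∈ N` has the colour `c`. Finally
`mg u c = ev A (pr u c) = ev A ([c ∈ av]/|av|) ≥ (1/q) P(c ∈ av)` (`mg_eq`). -/
def CMgLow : Prop :=
  ∀ (V C : Type) [Fintype V] [Fintype C] (G : SimpleGraph V) (U : Finset V) (L : V → Finset C)
    (p : V → C) (s : ℕ) (ε : ℝ) (u : V) (c : C), Reg ε G U L s → u ∈ U → c ∈ L u →
    Real.exp (-(2 / ε)) ≤ ev (Col G U L p) (fun f => if c ∈ av G U L f u then (1 : ℝ) else 0) ∧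
    Real.exp (-(2 / ε)) / (Fintype.card C : ℝ) ≤ mg (Col G U L p) u c

/-- **CCount** (number of connected sets). Proof. Define `Gr 1 = {{w}}`, `Gr (j+1)` = the sets
`insert y κ` with `κ ∈ Gr j`, `y ∈ ⋃_{u ∈ κ} nb G U u`, `y ∉ κ`. Then `|Gr (j+1)| ≤ |Gr j| j q` (the
elements of `Gr j` have `j` elements), so `|Gr j| ≤ (m q)^(j-1)` for `1 ≤ j ≤ m`. Every
`κ ∈ CC G U m` with `w ∈ κ`, `|κ| = j` is in `Gr j`: for every `i` with `1 ≤ i ≤ j` there is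
`κ_i ∈ Gr i`, `w ∈ κ_i ⊆ κ`; if `κ_i ≠ κ` there is an edge from `κ_i` to `κ \ κ_i` (take
`v ∈ κ \ κ_i`, `v ∈ cmp G κ w`, and the first step of a walk from `w` to `v` in `rst G κ` leaving
`κ_i`), add its end. For `i = j`, `κ_j = κ`. -/
def CCount : Prop :=
  ∀ (V : Type) [Fintype V] (G : SimpleGraph V) (U : Finset V) (q m j : ℕ) (w : V),
    (∀ v ∈ U, (nb G U v).card ≤ q) → 1 ≤ j → j ≤ m →
    ((CC G U m).filter (fun κ => w ∈ κ ∧ κ.card = j)).card ≤ (m * q) ^ (j - 1)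

/-- **CSum** (the cluster sum). Proof. Pointwise `CR Ψ ≤ ∑_c ∑_{κ ∈ CC} ∑_{σ ⊆ κ} pt c σ (κ \ σ)
(∑_{w∈κ} k_w(c)^2) Ψ c κ` (take `σ = {u ∈ κ : f u = c}`). So `E CR ≤ B ∑_c ∑_κ 2^|κ| s^{-|κ|}
∑_{w∈κ} k_w(c)^2 = B ∑_c ∑_{w∈U} k_w(c)^2 ∑_{κ ∋ w} (2/s)^|κ|`. By `CCount` (`|nb| ≤ q`:
`card_nb_le_card`) the inner sum is at most `∑_{j=1}^m (m q)^(j-1) (2/s)^j = (2/s) ∑_j (2 m q/s)^(j-1)
≤ (2/s) m (2m/ε)^m` (`q/s ≤ 1/ε`; `2m/ε ≥ 1` because `ε ≤ 1` (`U ≠ ∅`) and `m ≥ 1`; if `m = 0` then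
`CC` is empty). By `CMgLow`, `k_w(c)^2/s ≤ (e^{2/ε}/ε) mg w c k_w(c)^2` (`1/s ≤ 1/(ε q)`; if
`c ∉ L w` both sides are `0`). -/
def CSum : Prop :=
  CMgLow → CCount →
  ∀ (V C : Type) [Fintype V] [Fintype C] (G : SimpleGraph V) (U : Finset V) (L : V → Finset C)
    (p : V → C) (s : ℕ) (ε : ℝ) (k : V → C → ℝ) (m : ℕ)
    (Ψ : C → Finset V → (V → C) → (V → C) → ℝ) (B : ℝ), Reg ε G U L s → Off L k → 0 ≤ B →
    (∀ c κ f f', 0 ≤ Ψ c κ f f') →
    (∀ c, ∀ κ ∈ CC G U m, ∀ σ, σ ⊆ κ →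
      ev2 (Col G U L p) (fun f f' => pt c σ (κ \ σ) f f' * Ψ c κ f f') ≤
        B * (1 / (s : ℝ)) ^ κ.card) →
    ev2 (Col G U L p) (CR G U k m Ψ) ≤ Kc ε m * B * nrm (Col G U L p) U k

/-- **CDomYZ** Proof. `pt YZ Ψ = pt Ψ + ∑_{y ∈ bd κ} pt [f y = c] Ψ +
∑_{y ∈ bd κ} ∑_{z ∈ nb y} pt [f y = c] [f' z = c] Ψ`, and the products of indicators are
`pt c (σ ∪ {y}) ((κ\σ) ∪ {z})`. Use `CDom` for each term (the sets have together at most `m + 2`
elements): as `y ∉ κ`, `|σ ∪ {y}| = |σ| + 1`; `|(κ\σ) ∪ {z}| = |κ\σ| + 1` unless `z ∈ κ\σ` (at most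
`m` such `z`). `|bd κ| ≤ ∑_{u∈κ} |nb u| ≤ m q`, `|nb y| ≤ q`. Total: at most
`s^{-|κ|} (2 E Ψ + r) (1 + (m q/s) (1 + q/s + m))`, `q/s ≤ 1/ε`. -/
def CDomYZ : Prop :=
  CDom →
  ∀ (ε : ℝ) (m : ℕ), 0 < ε → ∃ K : ℝ, 0 ≤ K ∧
  ∀ (V C : Type) [Fintype V] [Fintype C] (G : SimpleGraph V) (U : Finset V) (L : V → Finset C)
    (p : V → C) (s : ℕ) (c : C) (κ σ : Finset V) (Ψ : (V → C) → (V → C) → ℝ) (r : ℝ),
    Reg ε G U L s → κ ∈ CC G U m → σ ⊆ κ → 0 ≤ r → (∀ f f', 0 ≤ Ψ f f') →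
    (∀ (X : Finset V) f f' g g', X.card ≤ m + 2 → (∀ v, v ∉ X → g v = f v) →
      (∀ v, v ∉ X → g' v = f' v) → Ψ f f' ≤ 2 * Ψ g g' + r) →
    ev2 (Col G U L p) (fun f f' => pt c σ (κ \ σ) f f' * (Ψ f f' * YZ G U c κ f f')) ≤
      K * (1 / (s : ℝ)) ^ κ.card * (ev2 (Col G U L p) Ψ + r)

/-- **CLam** (the number of available colours is concentrated). Proof. First statement: for `u ∈ U`,
`E (|av f u| - |av f' u|)^2 = 2 vr |av u| ≤ 2 P ∑_{y ∈ U} E (|av u| - hb_y |av u|)^2`; for `y ∉ nb u`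
the term is `0`, for `y ∈ nb u` it is at most `1` (`ev_sub_hb_sq_le` with
`φ f = |avX {y} f u| - 1/2` or `φ = |avX {y} f u|`: `|av| ≤ |avX {y}| ≤ |av| + 1`). So it is at most
`2 P q`, and `Lam^2 ≤ m ∑_{u∈κ} (..)^2/q^2` (Cauchy-Schwarz), `K ≥ 2 m^2`. Second statement: changing
`f` on `X` changes `|av f u|` by at most `|X|` (each vertex forbids at most one colour:
`avX X f u = avX X g u` and `|avX X| - |X| ≤ |av| ≤ |avX X|`), so `|Lam f f' - Lam g g'| ≤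
2 m (m+2)/q` and `Lam^2 ≤ 2 Lam'^2 + 2 (2 m (m+2))^2/q^2`. -/
def CLam : Prop :=
  ∀ (ε : ℝ) (m : ℕ), 0 < ε → ∃ K : ℝ, 0 ≤ K ∧
  ∀ (V C : Type) [Fintype V] [Fintype C] (G : SimpleGraph V) (U : Finset V) (L : V → Finset C)
    (p : V → C) (s : ℕ) (P : ℝ) (κ : Finset V),
    Reg ε G U L s → 0 ≤ P → κ ⊆ U → κ.card ≤ m →
    (Poin G U L p P →
      ev2 (Col G U L p) (fun f f' => (Lam G U L κ f f') ^ 2) ≤ K * P / (Fintype.card C : ℝ)) ∧
    (∀ (X : Finset V) f f' g g', X.card ≤ m + 2 → (∀ v, v ∉ X → g v = f v) →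
      (∀ v, v ∉ X → g' v = f' v) →
      (Lam G U L κ f f') ^ 2 ≤ 2 * (Lam G U L κ g g') ^ 2 + K / (Fintype.card C : ℝ) ^ 2)

/-- **CPsiZ** Proof. `CDomYZ` for `Ψ = Lam^2 + 1/q^2` and `r = K/q^2` (`CLam`; `1/q^2 ≤ 2/q^2`) bounds
the first part by `K s^{-|κ|} (K P/q + 1/q^2 + K/q^2)`, `1/q^2 ≤ 1/q`. Second part: `|bd κ| ≤ m q`, the
terms `1/q^4`, `Lam^2/q^2` are bounded by `CDom` (`X = κ`): `q (m q) s^{-|κ|} (2/q^4 +
(2 K P/q + K/q^2)/q^2)`. Terms with `io`: if `pt c σ (κ\σ) ≠ 0` and `io = 1` there is `w ∈ κ`,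
`f w ≠ c`, `f w = f x`, so `w ∈ κ \ σ`; `pt io ≤ ∑_{w ∈ κ\σ} pt [f w = f x]`; `CDom` for
`Ψ = [f w = f x]` (it does not depend on `f` on `σ`, as `w, x ∉ σ`): `≤ s^{-|κ|} 2 P(f w = f x) ≤
s^{-|κ|} 2/s` (`ev_color_mul` and `pr_le` at `w`: `P(f w = a | rest) ≤ 1/s`; expand
`[f w = f x] = ∑_a [f w = a][f x = a]`). In total `q (m q) m (2/s)/q^2 s^{-|κ|} ≤ (2 m^2/ε)/q s^{-|κ|}`. -/
def CPsiZ : Prop :=
  CDom → CDomYZ → CLam →
  ∀ (ε : ℝ) (m : ℕ), 0 < ε → ∃ K : ℝ, 0 ≤ K ∧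
  ∀ (V C : Type) [Fintype V] [Fintype C] (G : SimpleGraph V) (U : Finset V) (L : V → Finset C)
    (p : V → C) (s : ℕ) (P : ℝ) (c : C) (κ σ : Finset V),
    Reg ε G U L s → 0 ≤ P → Poin G U L p P → κ ∈ CC G U m → σ ⊆ κ →
    ev2 (Col G U L p) (fun f f' => pt c σ (κ \ σ) f f' * PsiZ G U L c κ f f') ≤
      K * (P + 1) / (Fintype.card C : ℝ) * (1 / (s : ℝ)) ^ κ.card

/-- **CPsiW** Proof. `CDomYZ` for the constant function `Ψ = 1/q`, `r = 0`. -/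
def CPsiW : Prop :=
  CDom → CDomYZ →
  ∀ (ε : ℝ) (m : ℕ), 0 < ε → ∃ K : ℝ, 0 ≤ K ∧
  ∀ (V C : Type) [Fintype V] [Fintype C] (G : SimpleGraph V) (U : Finset V) (L : V → Finset C)
    (p : V → C) (s : ℕ) (c : C) (κ σ : Finset V),
    Reg ε G U L s → κ ∈ CC G U m → σ ⊆ κ →
    ev2 (Col G U L p) (fun f f' => pt c σ (κ \ σ) f f' * PsiW G U c κ f f') ≤
      K / (Fintype.card C : ℝ) * (1 / (s : ℝ)) ^ κ.card

/-- **CQ** (`Qx` is Lipschitz and concentrated). Proof. Let `N`, `A1`, `A2`, `A3` be the four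
cardinalities in `Qx`; `A_i ≥ s` for every function `f` (`card_avX_nb`/`card_avX`, `card_av`),
`N ≤ A_i`. Changing `f` at one vertex changes each `avX`, `av` by at most one removed and one added
colour, so `|ΔN| ≤ 1`, `|ΔA_i| ≤ 1`, and by telescoping (`N' ≤ A_i'`) `|ΔQ| ≤ 4/s^3 ≤ 4/(ε q)^3`.
Changing `f` on `X`, one vertex after the other: `≤ 4 m/(ε q)^3`. Variance: `Poin`; for `y ∈ U` not in
`nb u ∪ nb u' ∪ nb x` the function `Qx` does not depend on the colour of `y` and the term is `0`; for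
the other `y` (at most `3 q`) `|Qx - hb_y Qx| ≤ 4/s^3` (`hb_y` is an average of values of `Qx` at
colourings which differ at `y` only). So `vr Qx ≤ 3 q P 16/s^6 ≤ 48 P/(ε^6 q^5)`, and
`ev |Qx - ev Qx| ≤ √(vr Qx) ≤ (7/ε^3) √P q^{-5/2}`, `√P ≤ P + 1`. -/
def CQ : Prop :=
  ∀ (ε : ℝ) (m : ℕ), 0 < ε → ∃ K : ℝ, 0 ≤ K ∧
  ∀ (V C : Type) [Fintype V] [Fintype C] (G : SimpleGraph V) (U : Finset V) (L : V → Finset C)
    (p : V → C) (s : ℕ) (P : ℝ) (x u u' : V),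
    Reg ε G U L s → 0 ≤ P → Poin G U L p P → x ∈ U → u ∈ nb G U x → u' ∈ nb G U x →
    (∀ (X : Finset V) f g, X.card ≤ m → (∀ v, v ∉ X → g v = f v) →
      |Qx G U L x u u' f - Qx G U L x u u' g| ≤ K / (Fintype.card C : ℝ) ^ 3) ∧
    ev (Col G U L p) (fun f => |Qx G U L x u u' f - ev (Col G U L p) (Qx G U L x u u')|) ≤
      K * (P + 1) / ((Fintype.card C : ℝ) ^ 2 * Real.sqrt (Fintype.card C : ℝ))

/-- **CPsiQ** Proof. `CDom` for `Ψ = |Qx - ev Qx|` and `r = K/q^3` (`CQ`), for each of the at most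
`m q q` triples `(u, x, u')`: `s^{-|κ|} m q^2 (2 K (P+1)/(q^2 √q) + K/q^3)`, `1/q ≤ 1/√q`. -/
def CPsiQ : Prop :=
  CDom → CQ →
  ∀ (ε : ℝ) (m : ℕ), 0 < ε → ∃ K : ℝ, 0 ≤ K ∧
  ∀ (V C : Type) [Fintype V] [Fintype C] (G : SimpleGraph V) (U : Finset V) (L : V → Finset C)
    (p : V → C) (s : ℕ) (P : ℝ) (c : C) (κ σ : Finset V),
    Reg ε G U L s → 0 ≤ P → Poin G U L p P → κ ∈ CC G U m → σ ⊆ κ →
    ev2 (Col G U L p) (fun f f' => pt c σ (κ \ σ) f f' * PsiQ G U L p c κ f f') ≤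
      K * (P + 1) / Real.sqrt (Fintype.card C : ℝ) * (1 / (s : ℝ)) ^ κ.card

/-- **CPsiG** Proof. For `x ∈ κ ∪ bd κ`: `NP c x f' ≤ |κ| + #{z ∈ nb x \ κ : f' z = c}` and
`4^n = (1+3)^n = ∑_{R ⊆ {z : ..}} 3^|R|`, so `4^(NP c x f') ≤ 4^m ∑_{R ⊆ nb x \ κ} 3^|R| [f' = c on R]`.
`CDom` with `Ψ = 1`, `r = 0` for `σ ∪ {x}`, `(κ\σ) ∪ R`: the sum of the cardinalities is at least
`|κ| + |R|` if `x ∈ κ` and at least `|κ| + 1 + |R|` if `x ∈ bd κ`. `∑_R 3^|R| s^{-|R|} =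
(1 + 3/s)^|nb x \ κ| ≤ e^{3q/s} ≤ e^{3/ε}`. There are at most `m` elements in `κ` and at most `m q`
in `bd κ` (factor `1/s`, `q/s ≤ 1/ε`). -/
def CPsiG : Prop :=
  CDom →
  ∀ (V C : Type) [Fintype V] [Fintype C] (G : SimpleGraph V) (U : Finset V) (L : V → Finset C)
    (p : V → C) (s : ℕ) (ε : ℝ) (m J : ℕ) (c : C) (κ σ : Finset V),
    Reg ε G U L s → κ ∈ CC G U m → σ ⊆ κ →
    ev2 (Col G U L p) (fun f f' => pt c σ (κ \ σ) f f' * PsiG G U J c κ f f') ≤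
      2 * (1 / 2 : ℝ) ^ J * 4 ^ m * Real.exp (3 / ε) * m * (1 + 1 / ε) * (1 / (s : ℝ)) ^ κ.card

/-! ### Components -/

/-- **CCmp** (basic facts on components). Proof: `cmp G D v` is the set of the vertices reachable
from `v` in `rst G D`; reachability is an equivalence relation; a walk of `rst G D` from an element
of the component `κ` stays in `κ`, so it is a walk of `rst G κ` (last claim: `cmp G κ u = κ`). The sum
formula: the components partition `D`. -/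
def CCmp : Prop :=
  ∀ (V : Type) [Fintype V] (G : SimpleGraph V) (D : Finset V),
    (∀ v ∈ D, v ∈ cmp G D v) ∧ (∀ v, cmp G D v ⊆ D) ∧
    (∀ u v, u ∈ cmp G D v → cmp G D u = cmp G D v) ∧
    (∀ v, ∀ u ∈ cmp G D v, ∀ w ∈ D, G.Adj u w → w ∈ cmp G D v) ∧
    (∀ F : V → Finset V → ℝ, ∑ κ ∈ comps G D, ∑ u ∈ κ, F u κ = ∑ u ∈ D, F u (cmp G D u)) ∧
    (∀ κ ∈ comps G D, κ.Nonempty ∧ (∀ u ∈ κ, cmp G D u = κ) ∧ (∀ u ∈ κ, cmp G κ u = κ))

/-- **CPiece** (adding one vertex). Proof. Let `K = cmp G (insert x D) x`. A component `κ` of `G[D]`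
not adjacent to `x` is a component of `G[D ∪ {x}]`; a component `κ` of `G[D]` adjacent to `x` is
contained in `K`; the components of `G[D ∪ {x}]` other than `K` do not contain `x`, are contained in
`D` and closed under adjacency in `D ∪ {x}`, so they are components of `G[D]` not adjacent to `x`.
`K` is the union of `{x}` and the adjacent components (a walk from `x`: after leaving `x` for the last
time it stays in one component of `G[D]` adjacent to `x`). Each adjacent component contains a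
neighbour of `x` in `D`, and they are disjoint. -/
def CPiece : Prop :=
  ∀ (V : Type) [Fintype V] (G : SimpleGraph V) (D : Finset V) (x : V), x ∉ D →
    comps G (insert x D) = insert (cmp G (insert x D) x)
      ((comps G D).filter (fun κ => ¬ ∃ u ∈ κ, G.Adj x u)) ∧
    x ∈ cmp G (insert x D) x ∧
    cmp G (insert x D) x =
      insert x (((comps G D).filter (fun κ => ∃ u ∈ κ, G.Adj x u)).biUnion id) ∧
    (∀ κ ∈ comps G D, ∀ κ' ∈ comps G D, κ ≠ κ' → Disjoint κ κ') ∧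
    ((comps G D).filter (fun κ => ∃ u ∈ κ, G.Adj x u)).card ≤
      (D.filter (fun u => G.Adj x u)).card

/-- **CDiffF** Proof. `FF f - FF f' = ∑_{v∈U} (k v (f v) - k v (f' v)) = ∑_{v∈U} ∑_c sg c v * k v c =
∑_c ∑_{v ∈ D_c} sg c v * k v c` (`sg c v = 0` for `v ∉ D_c`), then the sum formula of `CCmp` with
`F u κ = sg c u * k u c`. -/
def CDiffF : Prop :=
  CCmp →
  ∀ (V C : Type) [Fintype V] [Fintype C] (G : SimpleGraph V) (U : Finset V) (k : V → C → ℝ)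
    (f f' : V → C),
    FF U k f - FF U k f' = ∑ c, ∑ κ ∈ comps G (DD U c f f'), sk k c κ (so f) (so f')

/-! ### Exchange of the colour `c` and random colours on a cluster, and the variance formula -/

/-- **CSwap** (reversibility). Proof. Consider the set `Z` of the triples `(f, f', y)` with
`f, f' ∈ A`, `κ ∈ comps G (DD U c f f')`, `y ∈ YY f f'`, and the map
`Θ (f, f', y) = (g, g', y')`, `g = t1 κ c f y`, `g' = t2 κ c f f' y`, `y' u = f' u` if `u ∈ κ`,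
`f u = c`; `y' u = f u` if `u ∈ κ`, `f u ≠ c`; `y' u = g u` if `u ∉ κ`. Claims: (i) `g, g' ∈ A`: for
`u ∈ κ` with `f u = c` we have `g u = y u ∈ L u`, different from `c` and from `f w` for the neighbours
`w ∉ κ`; for `u ∈ κ` with `f' u = c` we have `g u = c ∈ L u`, and `f w ≠ c` for the neighbours
`w ∉ κ` (if `f w = c` then `f' w ≠ c` as `f' u = c`, so `w ∈ D_c`, so `w ∈ κ`); two adjacent
vertices `u, w` of `κ` have `f u = c`, `f' w = c` or conversely, so `g u ≠ c = g w`. The same for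
`g'`. (ii) `DD U c g g' = DD U c f f'` (on `κ` exactly one of `g u`, `g' u` is `c`), so `κ` is a
component; (iii) `y' ∈ YY g g'` (the lists `avX κ` do not depend on the colours on `κ`; for `f u = c`
the colour `f' u` is `≠ c` and available for `f'` outside `κ`); (iv) `Θ (g, g', y') = (f, f', y)`;
(v) `sk (g, g') = - sk (f, f')`; (vi) `|YY f f'| = ∏_{u∈κ} |BB u| > 0` (`|BB u| ≥ s - 1`), and
`BB` for `(g, g')` at `u` is the list of the other colouring, so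
`|YY f f'| / |YY g g'| = ro (so f) (so f')` and `ro` for `(g, g')` is the inverse. Hence
`∑_{(f,f',y) ∈ Z} sk(f,f') H(g,g') / |YY f f'| = ∑_{(g,g',y')} - sk(g,g') H(g,g') ro(g,g')/|YY g g'|
= - ∑_{(g,g')} sk ro H`. -/
def CSwap : Prop :=
  CCmp →
  ∀ (V C : Type) [Fintype V] [Fintype C] (G : SimpleGraph V) (U : Finset V) (L : V → Finset C)
    (p : V → C) (s : ℕ) (c : C) (κ : Finset V) (k : V → C → ℝ) (H : (V → C) → (V → C) → ℝ),
    Good G U L s →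
    ev2 (Col G U L p) (fun f f' => if κ ∈ comps G (DD U c f f') then
      sk k c κ (so f) (so f') * avT G U L κ c f f' H else 0) =
    - ev2 (Col G U L p) (fun f f' => if κ ∈ comps G (DD U c f f') then
      sk k c κ (so f) (so f') * ro G U L c κ (so f) (so f') * H f f' else 0)

/-- **CMainPt** Proof. For `y ∈ YY`, `g = t1`, `g' = t2`: `FF f - FF g = ∑_{κ_+} (k_u(c) - k_u(y u)) +
∑_{κ_-} (k_u(f u) - k_u(c))`, `FF f' - FF g' = ∑_{κ_+} (k_u(f' u) - k_u(c)) +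
∑_{κ_-} (k_u(c) - k_u(y u))` (`κ_± ` = vertices of `κ` with `f u = c`, `f' u = c`). So
`(FF f - FF f') - (FF g - FF g') = 2 s_κ - ∑_{κ_+} (k_u(f' u) + k_u(y u)) + ∑_{κ_-} (k_u(f u) +
k_u(y u))`, of absolute value at most `∑_{u∈κ} (2|k_u(c)| + |k_u(oo u)| + |k_u(y u)|)`; multiply by
`|s_κ| ≤ ∑_{w∈κ} |k_w(c)|` and use `a b ≤ (a^2+b^2)/2`: at most `|κ| ∑_u (3 k_u(c)^2 +
k_u(oo u)^2/2 + k_u(y u)^2/2)`. The mean over `y ∈ YY` of `k_u(y u)^2` is the mean over `BB u` (product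
set), at most `(1/|BB u|) ∑_{a∈L u} k_u(a)^2 ≤ (2/s) ∑_{a∈L u} k_u(a)^2` (`|BB u| ≥ s-1 ≥ s/2`). -/
def CMainPt : Prop :=
  CCmp →
  ∀ (V C : Type) [Fintype V] [Fintype C] (G : SimpleGraph V) (U : Finset V) (L : V → Finset C)
    (p : V → C) (s : ℕ) (c : C) (κ : Finset V) (k : V → C → ℝ) (f f' : V → C),
    Good G U L s → f ∈ Col G U L p → f' ∈ Col G U L p → κ ∈ comps G (DD U c f f') →
    sk k c κ (so f) (so f') * ((FF U k f - FF U k f') -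
      avT G U L κ c f f' (fun g g' => FF U k g - FF U k g')) ≤ mb L s k c κ f f'

/-- **CMainSum** Proof. By the sum formula of `CCmp` (with `F u κ = [|κ| ≤ m] |κ| (...)`),
`MT = ∑_c ∑_{u ∈ D_c} [|cl_c(u)| ≤ m] |cl_c(u)| (3 k_u(c)^2 + k_u(oo u)^2/2 + (1/s) N_u)`,
`N_u = ∑_{a∈L u} k_u(a)^2 ≤ q e^{2/ε} ∑_a mg u a k_u(a)^2` (`CMgLow`). First and third part:
`ClSmall`, `∑_c mg u c = 1`: at most `3 M nrm` and `(M/s) ∑_u N_u ≤ (M/ε) e^{2/ε} nrm`. Second part: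
for `u ∈ U`, `∑_c E [u ∈ D_c][|cl| ≤ m] |cl_c(u)| k_u(oo u)^2 = 2 ∑_c ∑_{a≠c} k_u(a)^2
E [f u = c][f' u = a] X_c` by symmetry, `X_c = |K| [|K| ≤ m]`, `K = cmp G (insert u D_c) u`, which
depends neither on `f u` nor on `f' u` and is `cl_c(u)` if exactly one of `f u`, `f' u` is `c`. Now
`E [f u = c][f' u = a] X_c ≤ (1/s) E [f u = c] X_c` and `E [f u = c] X_c ≤ 2 E [f u = c][f' u ≠ c] X_c
≤ 2 M mg u c` (for `Θ ≥ 0` not depending on `f' u`: `E [f' u ≠ c] Θ ≥ (1 - 1/s) E Θ ≥ E Θ/2`;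
`ClSmall`). Sum over `c`: `≤ (4 M/s) N_u`; half of it: `(2 M/s) ∑_u N_u ≤ (2 M/ε) e^{2/ε} nrm`.
(For `f' ∈ A` the colour `f' u` is in `L u`.) -/
def CMainSum : Prop :=
  CCmp → CMgLow →
  ∀ (V C : Type) [Fintype V] [Fintype C] (G : SimpleGraph V) (U : Finset V) (L : V → Finset C)
    (p : V → C) (s : ℕ) (ε M : ℝ) (m : ℕ) (k : V → C → ℝ),
    Reg ε G U L s → 0 < M → ClSmall G U L p m M →
    ev2 (Col G U L p) (MT G U L s k m) ≤
      M * (3 + 3 * Real.exp (2 / ε) / ε) * nrm (Col G U L p) U k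

/-- **CVar** (the variance formula). Proof. Write `Δ = FF f - FF f'`. By `CDiffF`,
`E Δ^2 = ∑_c ∑_κ E [κ ∈ comps D_c] s_κ Δ` (sum over all `κ` in the powerset of `U`). The part with
`|κ| > m` is `E Δ Γ`. For `|κ| ≤ m`, by `CSwap` with `H = Δ`:
`E [..] s_κ Δ = ½ E [..] s_κ (Δ - avT Δ) + ½ E [..] s_κ (1 - ρ_κ) Δ`; sum: first part at most
`½ E MT` by `CMainPt`, the second is `½ E Δ Z`. (`DO U c (so f) (so f') = DD U c f f'`.) -/
def CVar : Prop :=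
  CCmp → CDiffF → CSwap → CMainPt →
  ∀ (V C : Type) [Fintype V] [Fintype C] (G : SimpleGraph V) (U : Finset V) (L : V → Finset C)
    (p : V → C) (s : ℕ) (m : ℕ) (k : V → C → ℝ), Good G U L s →
    ev2 (Col G U L p) (fun f f' => (FF U k f - FF U k f') ^ 2) ≤
      1 / 2 * ev2 (Col G U L p) (MT G U L s k m) +
      ev2 (Col G U L p) (fun f f' => (FF U k f - FF U k f') * Gm G U k m (so f) (so f')) +
      1 / 2 * ev2 (Col G U L p)
        (fun f f' => (FF U k f - FF U k f') * Zm G U L k m (so f) (so f'))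

/-! ### The gauge -/

/-- **CWh** Proof. Exchange sums; `sk (fun v _ => h v) c κ = ∑_{u∈κ} sg c u * h u`, sum formula of
`CCmp` for `F u κ = sg c u * h u * (if |κ| ≤ m then sk k c κ else 0)`; for `u ∉ DO U c φ φ'`,
`u ∈ U` the sign is `0`. -/
def CWh : Prop :=
  CCmp →
  ∀ (V C : Type) [Fintype V] [Fintype C] (G : SimpleGraph V) (U : Finset V) (k : V → C → ℝ)
    (h : V → ℝ) (m : ℕ) (φ φ' : V → Option C),
    ∑ u ∈ U, h u * Wm G U k m u φ φ' =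
      ∑ c, ∑ κ ∈ (comps G (DO U c φ φ')).filter (fun κ => κ.card ≤ m),
        sk k c κ φ φ' * sk (fun v _ => h v) c κ φ φ'

/-- **CLow** Proof. The components `{u}` contribute `h u ^ 2` (`m ≥ 1`): the left side is at least
`∑_{u∈U} h u ^2 ∑_c P(u ∈ D_c, cmp D_c u = {u}) ≥ ∑_u h u^2 ∑_{c∈L u} P(f u = c, f' u ≠ c,
c ∈ av f' u)`: on this event no neighbour `w` of `u` has `f w = c` (`f` proper) or `f' w = c`. The two
colourings are independent and `P(f' u ≠ c, c ∈ av f' u) = E [c ∈ av] (1 - 1/|av|) ≥ ½ P(c ∈ av) ≥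
½ e^{-2/ε}` (`CMgLow`, `|av| ≥ s ≥ 2`), `∑_{c∈L u} mg u c = 1`. -/
def CLow : Prop :=
  CCmp → CMgLow →
  ∀ (V C : Type) [Fintype V] [Fintype C] (G : SimpleGraph V) (U : Finset V) (L : V → Finset C)
    (p : V → C) (s : ℕ) (ε : ℝ) (m : ℕ) (h : V → ℝ), Reg ε G U L s → 1 ≤ m →
    Real.exp (-(2 / ε)) / 2 * ∑ u ∈ U, (h u) ^ 2 ≤
      ev2 (Col G U L p) (fun f f' =>
        ∑ c, ∑ κ ∈ (comps G (DO U c (so f) (so f'))).filter (fun κ => κ.card ≤ m),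
          (sk (fun v _ => h v) c κ (so f) (so f')) ^ 2)

/-- **CUp** Proof. `s_κ^2 ≤ |κ| ∑_{u∈κ} k_u(c)^2` (`|sg| ≤ 1`), sum formula of `CCmp`, `ClSmall`. -/
def CUp : Prop :=
  CCmp →
  ∀ (V C : Type) [Fintype V] [Fintype C] (G : SimpleGraph V) (U : Finset V) (L : V → Finset C)
    (p : V → C) (M : ℝ) (m : ℕ) (k : V → C → ℝ), 0 < M → ClSmall G U L p m M →
    ev2 (Col G U L p) (fun f f' =>
        ∑ c, ∑ κ ∈ (comps G (DO U c (so f) (so f'))).filter (fun κ => κ.card ≤ m),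
          (sk k c κ (so f) (so f')) ^ 2) ≤ M * nrm (Col G U L p) U k

/-- **CGauge** Proof. Let `B(k, k') = ev2 ∑_c ∑_{|κ| ≤ m} sk k * sk k'` (bilinear, symmetric,
`B(k,k) ≥ 0`). `Wm` is linear in `k`. By `CWh`, `∑_{u∈U} h u * ev2 (W_u[k]) = B(k, h)` (`h` = the
function `h v` not depending on the colour). The linear map `h ↦ (ev2 W_u[h])_{u∈U}` on `ℝ^U` is
injective: if it vanishes then `B(h,h) = 0`, so `h = 0` on `U` by `CLow`. So it is surjective, and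
there is `h` (put `h = 0` outside `U`) with `ev2 W_u[h] = - ev2 W_u[k]` for all `u ∈ U`. Then
`B(h,h) = ∑ h u ev2 W_u[h] = - B(k,h) ≤ √(B(k,k) B(h,h))`, so `B(h,h) ≤ B(k,k) ≤ M nrm k`, and
`∑ h u^2 ≤ 2 e^{2/ε} B(h,h)` by `CLow`. -/
def CGauge : Prop :=
  CCmp → CMgLow → CWh → CLow → CUp →
  ∀ (V C : Type) [Fintype V] [Fintype C] (G : SimpleGraph V) (U : Finset V) (L : V → Finset C)
    (p : V → C) (s : ℕ) (ε M : ℝ) (m : ℕ) (k : V → C → ℝ), Reg ε G U L s → 0 < M → 1 ≤ m →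
    ClSmall G U L p m M →
    ∃ h : V → ℝ, (∀ u ∈ U, ev2 (Col G U L p) (fun f f' =>
        Wm G U (fun v c => k v c + h v) m u (so f) (so f')) = 0) ∧
      ∑ u ∈ U, (h u) ^ 2 ≤ 2 * M * Real.exp (2 / ε) * nrm (Col G U L p) U k

/-! ### The term `Z` -/

/-- **CRho1** Proof. If `κ = ∅` then `ro = 1`. Else `U ≠ ∅`, `q ≥ s ≥ 2`, `ε ≤ 1`. For every partial
colouring `φ` and `u ∈ κ`: `s/2 ≤ s - 1 ≤ bO u ≤ q` (each neighbour forbids at most one colour,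
`|nb u| + s ≤ |L u|`). A factor of `ro` is `r = b/b'` with `r ≤ q/(s/2) ≤ 2/ε` and
`|r - 1| ≤ (2/s) |b - b'|`. For `φ = so f` or `φ = sx x f`: `| bO κ c φ u - |av f u| | ≤ m + 2` (the
lists differ by the colours of `κ ∪ {x}` and `c`), for `so f'` the same with `f'`. So
`∑_u |r_u - 1| ≤ (2/ε) (Lam + 2 m (m+2)/q)` and `|∏ r_u - 1| ≤ (2/ε)^m ∑_u |r_u - 1|` (telescoping,
`2/ε ≥ 1`). -/
def CRho1 : Prop :=
  ∀ (ε : ℝ) (m : ℕ), 0 < ε → ∃ K : ℝ, 0 ≤ K ∧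
  ∀ (V C : Type) [Fintype V] [Fintype C] (G : SimpleGraph V) (U : Finset V) (L : V → Finset C)
    (s : ℕ) (c : C) (κ : Finset V) (x : V) (f f' : V → C),
    Reg ε G U L s → κ ⊆ U → κ.card ≤ m →
    |1 - ro G U L c κ (so f) (so f')| ≤
      K * (Lam G U L κ f f' + 1 / (Fintype.card C : ℝ)) ∧
    |1 - ro G U L c κ (sx x f) (so f')| ≤
      K * (Lam G U L κ f f' + 1 / (Fintype.card C : ℝ))

/-- **CRho2** (linearisation). Proof. Let `a = f x ≠ c`, `u ∈ κ`, `b^x_u = bO κ c (sx x f) u`,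
`b_u = bO κ c (so f) u`, `b'_u = bO κ c (so f') u`. If `u` is not adjacent to `x` then `b_u = b^x_u`.
If `u ~ x` then `avO κ (so f) u = (avO κ (sx x f) u).erase a` (`x ∉ κ`), so
`b_u = b^x_u - ι_u`, `ι_u = [a ∈ avO κ (sx x f) u]` (`a ≠ c`). Put `t_u = ι_u/b^x_u ≤ 2/(ε q)`. The ratio
of the factors of `ro (so f)` and `ro (sx x f)` at `u` is `g_u = 1 - t_u` if `f u = c` (`sg = 1`) and
`g_u = 1/(1 - t_u)` if `f' u = c` (`sg = -1`); in both cases `|g_u - 1 + sg_u t_u| ≤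
(2/(ε q))^2` (`t/(1-t) = ι/b_u ≤ 2/(εq)`) and `|g_u - 1| ≤ 2/(ε q) ≤ 2/ε`. So
`|∏ g_u - 1 + ∑ sg_u t_u| ≤ K/q^2` (expand the product: the terms with at least two factors
`g_u - 1` are at most `2^m (2/(εq))^2 (1 + 2/ε)^m`). Hence
`|(ro(sx) - ro(so)) - ro(sx) ∑ sg_u t_u| ≤ ro(sx) K/q^2`, `ro(sx) ≤ (2/ε)^m`, and
`|ro(sx) - 1| ≤ K (Lam + 1/q)` (`CRho1`), `|∑ sg_u t_u| ≤ m 2/(ε q)`. Finally
`|t_u - al x u f| ≤ |ι_u - [a ∈ avX {x} f u]|/b^x_u + |1/b^x_u - 1/|avX {x} f u||`; the first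
indicators differ only if some `w ∈ κ` adjacent to `u` has `f w = a` (`≠ c`), i.e. `io = 1`, and
`| b^x_u - |avX {x} f u| | ≤ m + 1`, both numbers are at least `s/2`, so the second term is at most
`4(m+1)/s^2 ≤ K/q^2`. (`u ∈ κ`, `sg_u = sg c (so f) (so f') u`; the sum over `u ∈ κ ∩ nb G U x`.) -/
def CRho2 : Prop :=
  CRho1 →
  ∀ (ε : ℝ) (m : ℕ), 0 < ε → ∃ K : ℝ, 0 ≤ K ∧
  ∀ (V C : Type) [Fintype V] [Fintype C] (G : SimpleGraph V) (U : Finset V) (L : V → Finset C)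
    (s : ℕ) (c : C) (κ : Finset V) (x : V) (f f' : V → C),
    Reg ε G U L s → κ ⊆ DD U c f f' → κ.card ≤ m → x ∈ U → x ∉ κ → f x ≠ c →
    |(ro G U L c κ (sx x f) (so f') - ro G U L c κ (so f) (so f')) -
      ∑ u ∈ κ ∩ nb G U x, sg c (so f) (so f') u * al G U L x u f| ≤
      K * (1 / (Fintype.card C : ℝ) ^ 2 + Lam G U L κ f f' / (Fintype.card C : ℝ) +
        io c κ x f / (Fintype.card C : ℝ))

/-- **CZAbs** Proof. Let `a = f x`. For `c ≠ a`, `D^x_c = D_c` and `sk` is the same for `so f` and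
`sx x f`. For `c ≠ a` and a component `κ` of `D_c`, `|κ| ≤ m`: if `x ∈ κ` then
`ro (sx x f) = ro (so f)` (`avO κ` ignores `x`); if `x ∉ κ` and `x` is not adjacent to `κ` the same
holds; if `x ∈ bd κ` use `CRho2`. For `c = a`: a component of `D_a` or `D^x_a` not containing `x` and
not adjacent to `x` has the same `ro`. (1) If `f' x = a` then `D^x_a = D_a ∪ {x}`, no neighbour of
`x` is in `D_a` (`f`, `f'` proper), `comps D^x_a = comps D_a ∪ {{x}}`, `Kh a x = {x}`, and the part of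
`Z - Z^x` for `c = a` is `k_x(a) (1 - ro a {x} (sx x f) (so f'))`. (2) If `f' x ≠ a` then `x ∈ D_a`,
`D^x_a = D_a \ {x}`, and by `CPiece` the part for `c = a` is `[|K| ≤ m] s_K (1 - ro_K) -
∑_{κ ∈ comps D^x_a, κ adjacent to x, |κ| ≤ m} s_κ (1 - ro_κ(sx x f))`, `K = Kh a x = cmp D_a x`. By
`CRho1` these parts are bounded by `K1 (R2 + R3)`. The linear part: by the sum formula of `CCmp`,
`Lin = ∑_c ∑_{κ ∈ comps D^x_c, |κ| ≤ m} s^x_κ ∑_{u∈κ∩nb x} sg^x_c(u) al x u f` (in `Wm` for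
`(sx x f, so f')` the cluster of `u` is `cmp D^x_c u`). Its terms for `c ≠ a`, `x ∉ κ` are the ones
of `CRho2` (zero if `x` is not adjacent to `κ`); the terms for `c ≠ a`, `x ∈ κ` (then `f' x = c`,
`κ = Kh c x`) are at most `nn κ c * m/s ≤ nn κ c (m/ε)/q`, part of `R2`; the terms for `c = a` have
`κ` adjacent to `x`, `x ∉ κ` (if `x ∈ κ` then `f' x = a`, `κ = {x}`, no `u`) and are at most
`nn κ a (m/ε)/q`, part of `R3`. (`|sk| ≤ nn`, `al ≤ 1/s`.) -/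
def CZAbs : Prop :=
  CCmp → CPiece → CRho1 → CRho2 →
  ∀ (ε : ℝ) (m : ℕ), 0 < ε → ∃ K : ℝ, 0 ≤ K ∧
  ∀ (V C : Type) [Fintype V] [Fintype C] (G : SimpleGraph V) (U : Finset V) (L : V → Finset C)
    (p : V → C) (s : ℕ) (k : V → C → ℝ) (x : V) (f f' : V → C),
    Reg ε G U L s → 1 ≤ m → f ∈ Col G U L p → f' ∈ Col G U L p → x ∈ U →
    |Zm G U L k m (so f) (so f') - Zm G U L k m (sx x f) (so f') - Lin G U L k m x f f'| ≤
      K * (R1 G U L k m x f f' + R2 G U L k m x f f' + R3 G U L k m x f f')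

/-- **CZSq** Proof. `(R1+R2+R3)^2 ≤ 3 (R1^2 + R2^2 + R3^2)`, `nn κ c ^2 ≤ m ∑_{w∈κ} k_w(c)^2`. All
components `κ`, `|κ| ≤ m`, of `D_c`, `D^x_c`, `D_c ∪ {x}` (if `f x = c` or `f' x = c`) are in `CC G U m`
and all their vertices have the colour `c` in `f` or `f'`.
`R1`: the number of pairs `(c, κ)` is at most `2q` (`κ` contains some `u ∈ nb x`, `κ = cmp D^x_c u`,
`c ∈ {f u, f' u}`), so `R1^2 ≤ 2q ∑_c ∑_κ m (∑_w k_w(c)^2) 3 (1/q^4 + Lam^2/q^2 + io/q^2)`; the sum over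
`x ∈ U` gives the second part of `PsiZ`. `R2`: at most two colours `c`, so
`R2^2 ≤ 2 ∑_c [..] m (∑ k^2) 2 (Lam^2 + 1/q^2)`, and a given `(c, κ)` occurs for at most `|κ| ≤ m`
vertices `x` (`x ∈ κ = Kh c x`); `YZ ≥ 1`. `R3`: the number of pieces is at most `NP c x f'`, `c = f x`
(each contains a neighbour `u` of `x` in `D^x_c`, `f u ≠ c` as `f` is proper, so `f' u = c`), so
`R3^2 ≤ NP ∑_κ m (∑ k^2) 2 (Lam^2 + 1/q^2)`, with `x ∈ bd κ`, `f x = c`: part of `YZ`. (The constant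
can be taken `K = 18 m (m + 1)`.) -/
def CZSq : Prop :=
  CCmp → CPiece →
  ∀ (ε : ℝ) (m : ℕ), 0 < ε → ∃ K : ℝ, 0 ≤ K ∧
  ∀ (V C : Type) [Fintype V] [Fintype C] (G : SimpleGraph V) (U : Finset V) (L : V → Finset C)
    (p : V → C) (s : ℕ) (k : V → C → ℝ) (f f' : V → C),
    Reg ε G U L s → f ∈ Col G U L p → f' ∈ Col G U L p →
    ∑ x ∈ U, (R1 G U L k m x f f' + R2 G U L k m x f f' + R3 G U L k m x f f') ^ 2 ≤
      K * CR G U k m (PsiZ G U L) f f'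

/-- **CWAbs** Proof. Let `c = f y`. Only the colour `c` contributes to the difference. If
`f' y = c`: `DO U c (sx y f) (so f') = D_c ∪ {y}` and no neighbour of `y` is in `D_c`, so the difference
is `0` for `u ≠ y`, and `|k_y(c)|` for `u = y`, with `Kh c y = {y}`. If `f' y ≠ c`: `K = Kh c y =
cmp D_c y`, `D^y_c = D_c \ {y}`; for `u ∉ K` the cluster of `u` is not changed (`CPiece`), for `u = y`
the difference is at most `[|K| ≤ m] |s_K|`; for `u ∈ K \ {y}` it is at most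
`[|K| ≤ m] |s_K| + [|κ| ≤ m] |s_κ|`, `κ = cmp D^y_c u`, which is adjacent to `y`. (`|sk| ≤ nn`.) -/
def CWAbs : Prop :=
  CCmp → CPiece →
  ∀ (V C : Type) [Fintype V] [Fintype C] (G : SimpleGraph V) (U : Finset V) (L : V → Finset C)
    (p : V → C) (k : V → C → ℝ) (m : ℕ) (y u : V) (f f' : V → C), 1 ≤ m →
    f ∈ Col G U L p → f' ∈ Col G U L p → y ∈ U →
    |Wm G U k m u (so f) (so f') - Wm G U k m u (sx y f) (so f')| ≤
      (if u ∈ Kh G U (f y) y f f' ∧ (Kh G U (f y) y f f').card ≤ m then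
        nn k (Kh G U (f y) y f f') (f y) else 0) +
      ∑ κ ∈ (comps G (DO U (f y) (sx y f) (so f'))).filter
        (fun κ => κ.card ≤ m ∧ y ∈ bd G U κ ∧ u ∈ κ), nn k κ (f y)

/-- **CWSq** Proof. Fix `y`, `c = f y`, `ω_u` the difference. By `CWAbs` and `|a| ≤ 1/s`,
`|∑_{u∈nb x} a x u ω_u| ≤ (1/s) (m [x ∈ nb K][|K| ≤ m] nn K + m ∑_κ [x ~ κ] nn κ)`, `K = Kh c y`, `κ`
over the pieces with `|κ| ≤ m`, `y ∈ bd κ` (at most `NP c y f'` of them). Square: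
`≤ (2 m^2/s^2) ([..] nn K^2 + NP ∑_κ [x ~ κ] nn κ^2)`; the number of `x` adjacent to a set of at most
`m` vertices of `U` is at most `m q`. Sum over `x`: `≤ (2 m^3 q/s^2) ([|K| ≤ m] nn K^2 +
NP ∑_κ nn κ^2)`, `nn^2 ≤ m ∑ k^2`, `q/s^2 ≤ 1/(ε^2 q)`; sum over `y`: for the first term `κ = K ∋ y` (at
most `m` vertices `y` for given `κ`), for the second `y ∈ bd κ`, `f y = c`. -/
def CWSq : Prop :=
  CCmp → CPiece → CWAbs →
  ∀ (ε : ℝ) (m : ℕ), 0 < ε → ∃ K : ℝ, 0 ≤ K ∧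
  ∀ (V C : Type) [Fintype V] [Fintype C] (G : SimpleGraph V) (U : Finset V) (L : V → Finset C)
    (p : V → C) (s : ℕ) (k : V → C → ℝ) (a : V → V → ℝ) (f f' : V → C),
    Reg ε G U L s → 1 ≤ m → f ∈ Col G U L p → f' ∈ Col G U L p →
    (∀ x u, |a x u| ≤ 1 / (s : ℝ)) →
    ∑ x ∈ U, ∑ y ∈ U, (∑ u ∈ nb G U x, a x u * (Wm G U k m u (so f) (so f') -
      Wm G U k m u (sx y f) (so f'))) ^ 2 ≤ K * CR G U k m (PsiW G U) f f'

/-- **CQCR** Proof. Write `W_u = Wm u (sx x f) (so f')`, `δ = |Qx - ev Qx|` (symmetric in `u`, `u'`).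
`|W_u W_u'| ≤ (W_u^2 + W_u'^2)/2`, so the left side is at most `∑_x ∑_u W_u^2 ∑_{u'} δ`. At most two
colours `c` have `sg c u ≠ 0`, so `W_u^2 ≤ 2 ∑_c [u ∈ D^x_c, |κ| ≤ m] sk^2 ≤ 2 m ∑_c [..]
∑_{w∈κ} k_w(c)^2`, `κ = cmp D^x_c u ∈ CC G U m`, all vertices of `κ` have the colour `c` in `f` or
`f'` (`x ∈ κ` implies `f' x = c`). The map `(x, u, c) ↦ (c, κ, u, x)` is injective, and
`u ∈ κ`, `x ∈ nb u`, `u' ∈ nb x`. -/
def CQCR : Prop :=
  CCmp →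
  ∀ (V C : Type) [Fintype V] [Fintype C] (G : SimpleGraph V) (U : Finset V) (L : V → Finset C)
    (p : V → C) (k : V → C → ℝ) (m : ℕ) (f f' : V → C),
    ∑ x ∈ U, ∑ u ∈ nb G U x, ∑ u' ∈ nb G U x,
      |Wm G U k m u (sx x f) (so f')| * |Wm G U k m u' (sx x f) (so f')| *
        |Qx G U L x u u' f - ev (Col G U L p) (Qx G U L x u u')| ≤
      2 * m * CR G U k m (PsiQ G U L p) f f'

/-- **CLinQ** Proof. (a) `Lin^2 = ∑_{u,u'} W_u W_u' al x u f * al x u' f`, `W_u` and the sets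
`avX {x} f u` do not depend on `f x`; `al x u * al x u' = [f x ∈ 𝒜_u ∩ 𝒜_u'] /(|𝒜_u| |𝒜_u'|)` and the
heat bath average of `[f x ∈ B]` at `x` is `|B ∩ av f x|/|av f x|` (`ev_ind_mul`, `hb_indicator`).
(b) By (a) with constants, `ev (al x u * al x u') = ev (Qx x u u')`; expand the square and exchange
the sums. -/
def CLinQ : Prop :=
  ∀ (V C : Type) [Fintype V] [Fintype C] (G : SimpleGraph V) (U : Finset V) (L : V → Finset C)
    (p : V → C) (s : ℕ) (k : V → C → ℝ) (m : ℕ) (x : V), Good G U L s → x ∈ U →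
    ev2 (Col G U L p) (fun f f' => (Lin G U L k m x f f') ^ 2) =
      ev2 (Col G U L p) (fun f f' => ∑ u ∈ nb G U x, ∑ u' ∈ nb G U x,
        Wm G U k m u (sx x f) (so f') * Wm G U k m u' (sx x f) (so f') * Qx G U L x u u' f) ∧
    ∀ g : V → (V → C) → (V → C) → ℝ,
      ev2 (Col G U L p) (fun f f' => ∑ u ∈ nb G U x, ∑ u' ∈ nb G U x,
        g u f f' * g u' f f' * ev (Col G U L p) (Qx G U L x u u')) =
      ev (Col G U L p) (fun h => ev2 (Col G U L p) (fun f f' =>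
        (∑ u ∈ nb G U x, al G U L x u h * g u f f') ^ 2))

/-- **CLinVar** Proof. Let `W_u = Wm u (so f) (so f')`, `W^x_u = Wm u (sx x f) (so f')`,
`Y_x = ∑_{u∈nb x} a x u W_u`. `(∑ a W^x)^2 ≤ 2 Y_x^2 + 2 (∑ a (W - W^x))^2`; the sum over `x` of the
second terms is at most `2 K CR(PsiW)` (`CWSq`, the terms with `y = x`). `Y_x` is symmetric in
`(f, f')` (`DO`, `|sg|`, `sk` change sign twice) and has mean `0`; `CTensor` with `τ = 1`,
`φ y = ∑ a W^y` (does not depend on `f y`): `ev2 Y_x^2 ≤ 2 P ∑_y ev2 (∑ a (W - W^y))^2`; sum over `x`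
with `CWSq`. So the left side is at most `(2 + 4 P) K ev2 CR(PsiW)`, and `CSum` with `CPsiW` bounds
`ev2 CR(PsiW)` by `Kc ε m (K'/q) nrm`. -/
def CLinVar : Prop :=
  CTensor → CDom → CMgLow → CCount → CSum → CDomYZ → CPsiW → CCmp → CPiece → CWAbs → CWSq →
  ∀ (ε : ℝ) (m : ℕ), 0 < ε → ∃ K : ℝ, 0 ≤ K ∧
  ∀ (V C : Type) [Fintype V] [Fintype C] (G : SimpleGraph V) (U : Finset V) (L : V → Finset C)
    (p : V → C) (s : ℕ) (P : ℝ) (k : V → C → ℝ) (a : V → V → ℝ),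
    Reg ε G U L s → 0 ≤ P → Poin G U L p P → 1 ≤ m → Off L k →
    (∀ x u, |a x u| ≤ 1 / (s : ℝ)) →
    (∀ u ∈ U, ev2 (Col G U L p) (fun f f' => Wm G U k m u (so f) (so f')) = 0) →
    ∑ x ∈ U, ev2 (Col G U L p)
      (fun f f' => (∑ u ∈ nb G U x, a x u * Wm G U k m u (sx x f) (so f')) ^ 2) ≤
      K * (P + 1) / (Fintype.card C : ℝ) * nrm (Col G U L p) U k

/-- **CZFin** (`Z` is small). Proof. `Zm (so f') (so f) = - Zm (so f) (so f')` (`sk` changes sign, `ro`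
is symmetric for `κ ⊆ D_c`), so `ev2 Z = 0`, and `CTensor` with `τ = -1`,
`φ x f f' = Zm (sx x f) (so f')`: `ev2 Z^2 ≤ 2 P ∑_x ev2 (Z - Z^x)^2 ≤ 4 P ∑_x ev2 (Z - Z^x - Lin)^2 +
4 P ∑_x ev2 Lin^2`. First sum: `CZAbs`, `CZSq`, `CSum` with `CPsiZ`: at most
`K (P+1)/q nrm`. Second sum: by `CLinQ` (a), `ev2 Lin^2 = ev2 ∑ W W' (Qx - ev Qx) + ev2 ∑ W W' ev Qx`;
the sum over `x` of the first is at most `2m ev2 CR(PsiQ) ≤ 2m Kc K (P+1)/√q nrm` (`CQCR`, `CSum`,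
`CPsiQ`); the second is, by `CLinQ` (b) with `g u = Wm u (sx x f) (so f')`, equal to
`ev_h ev2 (∑ al x u h * W^x_u)^2` (`0 ≤ al ≤ 1/s`), at most `K (P+1)/q nrm` after summation over `x` by
`CLinVar` for every `h` (`a x u = al x u h`; for pairs `x`, `u` outside `U` put `a = 0`).
`1/q ≤ 1/√q`. (If `U = ∅` then `Z = 0`.) -/
def CZFin : Prop :=
  CTensor → CDom → CMgLow → CCount → CSum → CDomYZ → CLam → CPsiZ → CPsiW → CQ → CPsiQ →
  CCmp → CPiece → CRho1 → CRho2 → CZAbs → CZSq → CWAbs → CWSq → CQCR → CLinQ → CLinVar →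
  ∀ (ε : ℝ) (m : ℕ), 0 < ε → ∃ K : ℝ, 0 ≤ K ∧
  ∀ (V C : Type) [Fintype V] [Fintype C] (G : SimpleGraph V) (U : Finset V) (L : V → Finset C)
    (p : V → C) (s : ℕ) (P : ℝ) (k : V → C → ℝ),
    Reg ε G U L s → 0 ≤ P → Poin G U L p P → 1 ≤ m → Off L k →
    (∀ u ∈ U, ev2 (Col G U L p) (fun f f' => Wm G U k m u (so f) (so f')) = 0) →
    ev2 (Col G U L p) (fun f f' => (Zm G U L k m (so f) (so f')) ^ 2) ≤
      K * (P + 1) ^ 2 / Real.sqrt (Fintype.card C : ℝ) * nrm (Col G U L p) U k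

/-! ### The term `Γ` -/

/-- **CXCount** Proof. For `x` in the set let `κ(x) = cmp G (D.erase x) v` (contains `v`). For
`x ≠ x'` in the set: if `x' ∉ κ(x)` then `κ(x) ∪ {x}` is connected (`x` is adjacent to `κ(x)`: take a
walk from `v` to `x` in `G[D]` and its first visit to `x`) and does not contain `x'`, so it is
contained in `κ(x')`, and `|κ(x')| > |κ(x)|`. Let `x*` have `|κ(x*)|` maximal; then all other elements
of the set are in `κ(x*) \ {v}`, which has at most `m - 1` elements. -/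
def CXCount : Prop :=
  ∀ (V : Type) [Fintype V] (G : SimpleGraph V) (D : Finset V) (v : V) (m : ℕ), v ∈ D →
    ((D.filter (fun x => x ≠ v ∧ x ∈ cmp G D v ∧ (cmp G (D.erase x) v).card ≤ m))).card ≤ m

/-- **CGamDiff** Proof. Let `c = f x`, `D = DD U c f f'`. Only the colour `c` contributes. If
`f' x = c`: `D^x_c = D ∪ {x}`, no neighbour of `x` in `D`, the components are the same and `{x}`,
which is not large (`m ≥ 1`): the difference is `0`. If `f' x ≠ c`: `x ∈ D`, `D^x_c = D \ {x}`,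
`K = cmp G D x`, `CPiece`: the difference is `[m < |K|] s_K - ∑_{pieces κ, m < |κ|} s_κ`. If `|K| ≤ m` all
pieces are small: `0`. Otherwise, as `s_K = k_x(c) + ∑_{pieces} s_κ`, it is
`k_x(c) + ∑_{pieces, |κ| ≤ m} s_κ`. The number of pieces is at most `NP c x f'`; Cauchy-Schwarz and
`s_κ^2 ≤ m ∑_{v∈κ} k_v(c)^2`; the vertices of the small pieces are the `v ∈ K \ {x}` with
`|cmp G (D.erase x) v| ≤ m`. -/
def CGamDiff : Prop :=
  CCmp → CPiece →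
  ∀ (V C : Type) [Fintype V] [Fintype C] (G : SimpleGraph V) (U : Finset V) (L : V → Finset C)
    (p : V → C) (k : V → C → ℝ) (m : ℕ) (x : V) (f f' : V → C), 1 ≤ m →
    f ∈ Col G U L p → f' ∈ Col G U L p → x ∈ U →
    (Gm G U k m (so f) (so f') - Gm G U k m (sx x f) (so f')) ^ 2 ≤
      if f' x ≠ f x ∧ m < (cmp G (DD U (f x) f f') x).card then
        (1 + (NP G U (f x) x f' : ℝ)) * ((k x (f x)) ^ 2 +
          m * ∑ v ∈ (cmp G (DD U (f x) f f') x).filter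
            (fun v => v ≠ x ∧ (cmp G ((DD U (f x) f f').erase x) v).card ≤ m), (k v (f x)) ^ 2)
      else 0

/-- **CGamPt** Proof. Sum `CGamDiff` over `x`; write `c` for `f x`. Exchange the sums: the left side
is at most `∑_c ∑_v k_v(c)^2 ([f v = c, f' v ≠ c, m < |K_c(v)|] (1 + NP c v) +
m ∑_{x ∈ X_v} [f x = c] (1 + NP c x))`, `X_v = {x ∈ K_c(v), x ≠ v, |cmp (D_c \ {x}) v| ≤ m}`, only
`v` with `m < |K_c(v)|`. Use `1 + N ≤ (1 + J) + (1/2)^J 4^N` (if `N > J` then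
`1 + N ≤ 2^N ≤ 4^N/2^J`). The first parts give `(1+J) (1 + m |X_v|)`, `|X_v| ≤ m` (`CXCount`). The
second parts: `v = x` is the term `κ = {v}`, `x = v` of `CR(PsiG)`; for `x ∈ X_v` put
`κ = cmp (D_c \ {x}) v`, `κ ∈ CC G U m`, all vertices of `κ` are in `D_c`, `x ∈ bd κ`; for given
`(c, κ, x)` the vertices `v` are in `κ` and the sum over them is at most `∑_{w∈κ} k_w(c)^2`. -/
def CGamPt : Prop :=
  CCmp → CPiece → CXCount → CGamDiff →
  ∀ (V C : Type) [Fintype V] [Fintype C] (G : SimpleGraph V) (U : Finset V) (L : V → Finset C)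
    (p : V → C) (k : V → C → ℝ) (m J : ℕ) (f f' : V → C), 1 ≤ m →
    f ∈ Col G U L p → f' ∈ Col G U L p →
    ∑ x ∈ U, (Gm G U k m (so f) (so f') - Gm G U k m (sx x f) (so f')) ^ 2 ≤
      (1 + J) * (1 + (m : ℝ) ^ 2) * (∑ c, ∑ v ∈ U, (k v c) ^ 2 *
        (if m < (cl G U c v f f').card then 1 else 0)) +
      (1 + m) * CR G U k m (PsiG G U J) f f'

/-- **CGamFin** Proof. `Gm` is antisymmetric; `CTensor` with `τ = -1`, `φ x f f' =
Gm (sx x f) (so f')`; `CGamPt`; `ClTail`; `CSum` with `CPsiG`. -/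
def CGamFin : Prop :=
  CTensor → CDom → CMgLow → CCount → CSum → CPsiG → CCmp → CPiece → CXCount → CGamDiff → CGamPt →
  ∀ (V C : Type) [Fintype V] [Fintype C] (G : SimpleGraph V) (U : Finset V) (L : V → Finset C)
    (p : V → C) (s : ℕ) (ε P t : ℝ) (m J : ℕ) (k : V → C → ℝ),
    Reg ε G U L s → 0 ≤ P → Poin G U L p P → 1 ≤ m → Off L k → ClTail G U L p m t →
    ev2 (Col G U L p) (fun f f' => (Gm G U k m (so f) (so f')) ^ 2) ≤
      2 * P * ((1 + J) * (1 + (m : ℝ) ^ 2) * t + (1 + m) * (Kc ε m *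
        (2 * (1 / 2 : ℝ) ^ J * 4 ^ m * Real.exp (3 / ε) * m * (1 + 1 / ε)))) *
      nrm (Col G U L p) U k

/-! ### Assembly -/

/-- **CTail** (choice of `m` and `η`). Proof. With `J = m^2`: `(1+m^2)^2 K e^{-λm} → 0`, and
`(1+m) Kc ε m * 2 * 2^{-m^2} 4^m e^{3/ε} m (1+1/ε) → 0` as `m → ∞`: it is at most
`C(ε) (m+1)^3 (16 (m+1)/ε')^m 2^{-m^2}` with `ε' = min ε 1`, and `(16 (m+1)/ε')^m 2^{-m^2} =
(16 (m+1) 2^{-m}/ε')^m`, `(m+1) 2^{-m} → 0`. Choose `m ≥ 1`, then `η`. -/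
def CTail : Prop :=
  ∀ ε K lam P c0 : ℝ, 0 < ε → 0 < K → 0 < lam → 0 < P → 0 < c0 →
    ∃ (m : ℕ) (η : ℝ), 1 ≤ m ∧ 0 < η ∧
      2 * P * ((1 + ((m ^ 2 : ℕ) : ℝ)) * (1 + (m : ℝ) ^ 2) * (K * Real.exp (-(lam * m)) + η) +
        (1 + m) * (Kc ε m * (2 * (1 / 2 : ℝ) ^ (m ^ 2) * 4 ^ m * Real.exp (3 / ε) * m *
          (1 + 1 / ε)))) ≤ c0

end Pool.Agent.Ex26
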