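import Pool.Agent.Lib.MP_26a019_lc.Ex.CSpec

set_option autoImplicit false
set_option linter.unusedVariables false

open Finset Classical

namespace Pool.Agent.Ex26

open Pool.Agent.Kempe Pool.Agent.KempeMix Pool.Agent.Eps26

namespace CVarAux

variable {V C : Type} [Fintype V] [Fintype C]

theorem comps_sub (hC : CCmp) (G : SimpleGraph V) (U D : Finset V) (hD : D ⊆ U) (κ : Finset V)
    (h : κ ∈ comps G D) : κ ⊆ U := by
  unfold comps at h
  rw [Finset.mem_image] at h
  obtain ⟨v, hv, rfl⟩ := h
  exact ((hC V G D).2.1 v).trans hD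

theorem DD_sub (U : Finset V) (c : C) (f f' : V → C) : DD U c f f' ⊆ U := by
  unfold DD
  exact Finset.filter_subset _ _

theorem sum_comps (hC : CCmp) (G : SimpleGraph V) (U D : Finset V) (hD : D ⊆ U)
    (Q : Finset V → Prop) [DecidablePred Q] (F : Finset V → ℝ) :
    ∑ κ ∈ (comps G D).filter Q, F κ =
      ∑ κ ∈ U.powerset.filter Q, if κ ∈ comps G D then F κ else 0 := by
  rw [← Finset.sum_filter]
  refine Finset.sum_congr ?_ fun _ _ => rfl
  ext κ
  simp only [Finset.mem_filter, Finset.mem_powerset]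
  constructor
  · rintro ⟨h1, h2⟩
    exact ⟨⟨comps_sub hC G U D hD κ h1, h2⟩, h1⟩
  · rintro ⟨⟨h1, h2⟩, h3⟩
    exact ⟨h3, h2⟩

end CVarAux

open CVarAux

theorem cVar_proof : CVar := by
  intro hCmp hDiff hSwap hMain V C _ _ G U L p s m k hG
  set A := Col G U L p with hA
  set Δ : (V → C) → (V → C) → ℝ := fun f f' => FF U k f - FF U k f' with hΔ
  set Pm := U.powerset.filter (fun κ => κ.card ≤ m) with hPm
  -- pointwise decomposition
  have h1 : ∀ f f', (Δ f f') ^ 2 = Δ f f' * Gm G U k m (so f) (so f') +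
      ∑ c, ∑ κ ∈ Pm, (if κ ∈ comps G (DD U c f f') then
        sk k c κ (so f) (so f') * Δ f f' else 0) := by
    intro f f'
    have e1 : Δ f f' = ∑ c, ∑ κ ∈ comps G (DD U c f f'), sk k c κ (so f) (so f') :=
      hDiff hCmp V C G U k f f'
    have e2 : Δ f f' = Gm G U k m (so f) (so f') +
        ∑ c, ∑ κ ∈ (comps G (DD U c f f')).filter (fun κ => κ.card ≤ m),
          sk k c κ (so f) (so f') := by
      rw [e1]
      unfold Gm
      rw [← Finset.sum_add_distrib]
      refine Finset.sum_congr rfl fun c _ => ?_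
      rw [DO_so, add_comm, ← Finset.sum_filter_add_sum_filter_not _ (fun κ => κ.card ≤ m)]
      congr 1
      refine Finset.sum_congr ?_ fun _ _ => rfl
      ext κ
      simp only [Finset.mem_filter, not_le]
    have e3 : ∑ c, ∑ κ ∈ Pm, (if κ ∈ comps G (DD U c f f') then
        sk k c κ (so f) (so f') * Δ f f' else 0) =
        (∑ c, ∑ κ ∈ (comps G (DD U c f f')).filter (fun κ => κ.card ≤ m),
          sk k c κ (so f) (so f')) * Δ f f' := by
      rw [Finset.sum_mul]
      refine Finset.sum_congr rfl fun c _ => ?_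
      rw [Finset.sum_mul, sum_comps hCmp G U _ (DD_sub U c f f')]
    rw [e3, sq]
    nth_rewrite 2 [e2]
    ring
  -- the terms
  have h2 : ∀ c, ∀ κ, ev2 A (fun f f' => if κ ∈ comps G (DD U c f f') then
        sk k c κ (so f) (so f') * Δ f f' else 0) ≤
      1 / 2 * ev2 A (fun f f' => if κ ∈ comps G (DD U c f f') then
        mb L s k c κ f f' else 0) +
      1 / 2 * ev2 A (fun f f' => if κ ∈ comps G (DD U c f f') then
        Δ f f' * (sk k c κ (so f) (so f') * (1 - ro G U L c κ (so f) (so f'))) else 0) := by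
    intro c κ
    have hs := hSwap hCmp V C G U L p s c κ k Δ hG
    rw [← hA] at hs
    have e1 : ev2 A (fun f f' => if κ ∈ comps G (DD U c f f') then
        sk k c κ (so f) (so f') * Δ f f' else 0) =
        1 / 2 * ev2 A (fun f f' => if κ ∈ comps G (DD U c f f') then
          sk k c κ (so f) (so f') * (Δ f f' - avT G U L κ c f f' Δ) else 0) +
        1 / 2 * (ev2 A (fun f f' => if κ ∈ comps G (DD U c f f') then
          sk k c κ (so f) (so f') * Δ f f' else 0) +
          ev2 A (fun f f' => if κ ∈ comps G (DD U c f f') then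
          sk k c κ (so f) (so f') * avT G U L κ c f f' Δ else 0)) := by
      rw [← ev2_add, ← ev2_mul_left, ← ev2_mul_left, ← ev2_add]
      refine ev2_congr fun f _ f' _ => ?_
      split_ifs <;> ring
    have e2 : ev2 A (fun f f' => if κ ∈ comps G (DD U c f f') then
          sk k c κ (so f) (so f') * Δ f f' else 0) +
          ev2 A (fun f f' => if κ ∈ comps G (DD U c f f') then
          sk k c κ (so f) (so f') * avT G U L κ c f f' Δ else 0) =
        ev2 A (fun f f' => if κ ∈ comps G (DD U c f f') then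
        Δ f f' * (sk k c κ (so f) (so f') * (1 - ro G U L c κ (so f) (so f'))) else 0) := by
      rw [hs, ← sub_eq_add_neg, ← ev2_sub]
      refine ev2_congr fun f _ f' _ => ?_
      split_ifs <;> ring
    rw [e1, e2]
    have e3 : ev2 A (fun f f' => if κ ∈ comps G (DD U c f f') then
          sk k c κ (so f) (so f') * (Δ f f' - avT G U L κ c f f' Δ) else 0) ≤
        ev2 A (fun f f' => if κ ∈ comps G (DD U c f f') then
        mb L s k c κ f f' else 0) := by
      refine ev2_mono fun f hf f' hf' => ?_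
      split_ifs with h
      · exact hMain hCmp V C G U L p s c κ k f f' hG hf hf' h
      · exact le_refl _
    linarith
  -- sum
  have h3 : ev2 A (MT G U L s k m) = ∑ c, ∑ κ ∈ Pm, ev2 A (fun f f' =>
      if κ ∈ comps G (DD U c f f') then mb L s k c κ f f' else 0) := by
    have e : ∀ f f', MT G U L s k m f f' = ∑ c, ∑ κ ∈ Pm,
        (if κ ∈ comps G (DD U c f f') then mb L s k c κ f f' else 0) := by
      intro f f'
      unfold MT
      refine Finset.sum_congr rfl fun c _ => ?_
      rw [sum_comps hCmp G U _ (DD_sub U c f f')]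
    rw [ev2_congr (fun f _ f' _ => e f f'), ev2_sum]
    exact Finset.sum_congr rfl fun c _ => ev2_sum _ _
  have h4 : ev2 A (fun f f' => Δ f f' * Zm G U L k m (so f) (so f')) =
      ∑ c, ∑ κ ∈ Pm, ev2 A (fun f f' => if κ ∈ comps G (DD U c f f') then
        Δ f f' * (sk k c κ (so f) (so f') * (1 - ro G U L c κ (so f) (so f'))) else 0) := by
    have e : ∀ f f', Δ f f' * Zm G U L k m (so f) (so f') = ∑ c, ∑ κ ∈ Pm,
        (if κ ∈ comps G (DD U c f f') then
        Δ f f' * (sk k c κ (so f) (so f') * (1 - ro G U L c κ (so f) (so f'))) else 0) := by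
      intro f f'
      unfold Zm
      rw [Finset.mul_sum]
      refine Finset.sum_congr rfl fun c _ => ?_
      rw [DO_so, Finset.mul_sum, sum_comps hCmp G U _ (DD_sub U c f f')]
    rw [ev2_congr (fun f _ f' _ => e f f'), ev2_sum]
    exact Finset.sum_congr rfl fun c _ => ev2_sum _ _
  have h5 : ev2 A (fun f f' => (Δ f f') ^ 2) =
      ev2 A (fun f f' => Δ f f' * Gm G U k m (so f) (so f')) +
      ∑ c, ∑ κ ∈ Pm, ev2 A (fun f f' => if κ ∈ comps G (DD U c f f') then
        sk k c κ (so f) (so f') * Δ f f' else 0) := by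
    rw [ev2_congr (fun f _ f' _ => h1 f f'), ev2_add, ev2_sum]
    congr 1
    exact Finset.sum_congr rfl fun c _ => ev2_sum _ _
  rw [h5, h3, h4, Finset.mul_sum, Finset.mul_sum]
  have h6 : ∑ c, ∑ κ ∈ Pm, ev2 A (fun f f' => if κ ∈ comps G (DD U c f f') then
        sk k c κ (so f) (so f') * Δ f f' else 0) ≤
      ∑ c, 1 / 2 * (∑ κ ∈ Pm, ev2 A (fun f f' =>
        if κ ∈ comps G (DD U c f f') then mb L s k c κ f f' else 0)) +
      ∑ c, 1 / 2 * (∑ κ ∈ Pm, ev2 A (fun f f' => if κ ∈ comps G (DD U c f f') then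
        Δ f f' * (sk k c κ (so f) (so f') * (1 - ro G U L c κ (so f) (so f'))) else 0)) := by
    rw [← Finset.sum_add_distrib]
    refine Finset.sum_le_sum fun c _ => ?_
    rw [Finset.mul_sum, Finset.mul_sum, ← Finset.sum_add_distrib]
    exact Finset.sum_le_sum fun κ _ => h2 c κ
  linarith

end Pool.Agent.Ex26
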