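import Pool.Agent.Lib.MP_26a019_lc.Ex.DSpec

set_option autoImplicit false
set_option linter.unusedVariables false

/-!
# Part D: assembly of the modules of `DSpec.lean`
-/

open Finset Classical

namespace Pool.Agent.Ex26

open Pool.Agent.Kempe Pool.Agent.KempeMix Pool.Agent.Eps26

theorem partD_of (hNum : DNum) (hC0 : DC0)
    (hField : ∀ (V : Type) [Fintype V], DField V) (hRare : ∀ (V : Type) [Fintype V], DRare V)
    (hFix : ∀ (V C : Type) [Fintype V] [Fintype C], DFix V C)
    (hHyp : ∀ (V C : Type) [Fintype V] [Fintype C], DHyp V C) : PartD := by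
  intro ε K hε hK
  set K' : ℕ := ⌈K⌉₊ with hK'
  have hKK : K ≤ (K' : ℝ) := Nat.le_ceil K
  set t : ℝ := min ε 1 / 32 with ht
  have he0 : 0 < min ε 1 := lt_min hε one_pos
  have he1 : min ε 1 ≤ 1 := min_le_right _ _
  have heε : min ε 1 ≤ ε := min_le_left _ _
  have ht0 : 0 < t := by rw [ht]; positivity
  have ht1 : t ≤ 1 := by rw [ht]; linarith
  have htK0 : 0 < t ^ K' := pow_pos ht0 _
  have htK1 : t ^ K' ≤ 1 := pow_le_one₀ ht0.le ht1
  refine ⟨3 / t ^ K', ?_, ?_⟩
  · rw [le_div_iff₀ htK0]; linarith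
  intro P hP
  set c0 : ℝ := (1 / 4 : ℝ) ^ ⌈1 / ε⌉₊ with hc0
  have hc0p : 0 < c0 := by rw [hc0]; positivity
  obtain ⟨q1, hq1⟩ := hNum ε P c0 hε hP hc0p
  refine ⟨max q1 ⌈4 / ε⌉₊, ?_⟩
  intro V C _ _ s n hq hs hPoin hSI G U L p hG hn
  rcases U.eq_empty_or_nonempty with rfl | ⟨v0, hv0⟩
  · exact poin_empty G L p _
  have hsq : s ≤ Fintype.card C := by
    have h1 := hG.2 v0 hv0
    have h2 : (L v0).card ≤ Fintype.card C := Finset.card_le_univ _
    omega
  have hnbq : ∀ y ∈ U, ((nb G U y).card : ℝ) ≤ (Fintype.card C : ℝ) := by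
    intro y hy
    have h1 := hG.2 y hy
    have h2 : (L y).card ≤ Fintype.card C := Finset.card_le_univ _
    exact_mod_cast (by omega : (nb G U y).card ≤ Fintype.card C)
  set q : ℝ := (Fintype.card C : ℝ) with hqdef
  have hsq' : (s : ℝ) ≤ q := by rw [hqdef]; exact_mod_cast hsq
  have hs2 : 2 ≤ s := hG.1
  have hs4 : 4 ≤ s := by
    have h1 : ⌈4 / ε⌉₊ ≤ Fintype.card C := le_trans (le_max_right _ _) hq
    have h2 : 4 / ε ≤ q := (Nat.le_ceil _).trans (by rw [hqdef]; exact_mod_cast h1)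
    rw [div_le_iff₀ hε] at h2
    have h3 : (4 : ℝ) ≤ s := by linarith
    exact_mod_cast h3
  have hs0 : (0 : ℝ) < s := by exact_mod_cast (by omega : 0 < s)
  have hq0 : 0 < q := lt_of_lt_of_le hs0 hsq'
  have hcs : c0 ≤ (1 - 1 / (s : ℝ)) ^ (Fintype.card C) := hC0 ε s _ hε hs2 hs
  have hnum := hq1 (Fintype.card C) (le_trans (le_max_left _ _) hq)
  intro g
  set A := Col G U L p with hAdef
  have hA : A.Nonempty := Col_nonempty hG p
  have hN : (0 : ℝ) < (A.card : ℝ) := by exact_mod_cast Finset.card_pos.2 hA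
  set e : V → ℝ := fun v => ev A (fun f => (g f - hb G U L v g f) ^ 2) with he
  have he_nn : ∀ v, 0 ≤ e v := fun v => ev_nonneg _ fun f _ => sq_nonneg _
  have hdir : dir G U L p g = ∑ v ∈ U, e v := rfl
  -- the function of the field dynamics
  set F : Finset V → ℝ := fun T => aa A g Tᶜ / (A.card : ℝ) with hF
  have hpin : ∀ T, T ⊆ U → ∀ f ∈ A, Good G T (fun u => avX G U L T f u) s := fun T hT f hf =>
    (bridge_proof V C G U L p s T f hG hT hf).2.1
  have h1 : ∀ T, T ⊆ U → ∑ v ∈ T, (F T - F (T.erase v)) ≤ (K' : ℝ) * F T := by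
    intro T hT
    have h := hHyp V C G U L p s T K hG hT hK.le (fun f hf =>
      hSI G T _ f (hpin T hT f hf) ((Finset.card_le_card hT).trans hn)) g
    have h2 : ∑ v ∈ T, (F T - F (T.erase v)) =
        (∑ v ∈ T, (aa A g Tᶜ - aa A g (T.erase v)ᶜ)) / (A.card : ℝ) := by
      rw [Finset.sum_div]
      exact Finset.sum_congr rfl fun v _ => by rw [hF]; ring
    rw [h2, div_le_iff₀ hN]
    refine h.trans ?_
    have h3 : (K' : ℝ) * F T * (A.card : ℝ) = K' * aa A g Tᶜ := by
      rw [hF]; field_simp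
    rw [h3]
    exact mul_le_mul_of_nonneg_right hKK (aa_nonneg _ _ _)
  have h2 := hField V U F K' t ht0 ht1 h1
  have hFU : F U = vr A g := by
    have h3 : aa A g Uᶜ = ∑ f ∈ A, (g f - ev A g) ^ 2 := by
      unfold aa
      refine Finset.sum_congr rfl fun f hf => ?_
      have hc : cls A Uᶜ f = A := by
        ext x
        rw [MTower.mem_cls]
        constructor
        · rintro ⟨h, -⟩
          exact h
        · intro h
          refine ⟨h, fun u hu => ?_⟩
          have hu' : u ∉ U := by simpa using hu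
          rw [hAdef, mem_Col] at h hf
          rw [h.1 u hu', hf.1 u hu']
      unfold cE
      rw [hc]
    rw [hF]
    simp only [h3]
    rfl
  -- the bound for fixed `T`
  set Q : ℝ := 12 * q / c0 ^ 2 with hQ
  have hQ0 : 0 ≤ P * Q := by rw [hQ]; positivity
  set W : V → Finset V → ℝ := fun w T => if w ∈ T \ Bad G s T then
      saw G (2 / (s : ℝ)) (fun x => ((nb G (Bad G s T) x).card : ℝ)) (Fintype.card V)
        (T \ Bad G s T) w else 0 with hW
  set B : V → Finset V → ℝ := fun v T => if v ∈ Bad G s T then (1 : ℝ) else 0 with hB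
  have h3 : ∀ T, T ⊆ U → F T ≤ 2 * (∑ v ∈ U, e v * (if v ∈ T then (1 : ℝ) else 0)) +
      P * Q * ((∑ v ∈ U, e v * B v T) + ∑ w ∈ U, e w * W w T) := by
    intro T hT
    have h := hFix V C G U L p s T P c0 hG hs4 hT hP.le (fun T' hT' f hf =>
      hPoin G T' _ f (hpin T' (hT'.trans hT) f hf)
        ((Finset.card_le_card (hT'.trans hT)).trans hn)) hc0p hcs g e (fun v => rfl)
    refine h.trans (le_of_eq ?_)
    have e1 : ∑ v ∈ T, e v = ∑ v ∈ U, e v * (if v ∈ T then (1 : ℝ) else 0) := by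
      rw [← Finset.sum_subset hT (f := fun v => e v * (if v ∈ T then (1 : ℝ) else 0))
        (fun v _ hv => by rw [if_neg hv, mul_zero])]
      exact Finset.sum_congr rfl fun v hv => by rw [if_pos hv, mul_one]
    have hBT : Bad G s T ⊆ U := (Finset.filter_subset _ _).trans hT
    have e2 : ∑ v ∈ Bad G s T, e v = ∑ v ∈ U, e v * B v T := by
      rw [← Finset.sum_subset hBT (f := fun v => e v * B v T)
        (fun v _ hv => by rw [hB]; simp only [if_neg hv, mul_zero])]
      exact Finset.sum_congr rfl fun v hv => by rw [hB]; simp only [if_pos hv, mul_one]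
    have hTT : T \ Bad G s T ⊆ U := Finset.sdiff_subset.trans hT
    have e3 : ∑ w ∈ T \ Bad G s T,
          saw G (2 / (s : ℝ)) (fun x => ((nb G (Bad G s T) x).card : ℝ)) (Fintype.card V)
            (T \ Bad G s T) w * e w = ∑ w ∈ U, e w * W w T := by
      rw [← Finset.sum_subset hTT (f := fun w => e w * W w T)
        (fun v _ hv => by rw [hW]; simp only [if_neg hv, mul_zero])]
      exact Finset.sum_congr rfl fun v hv => by rw [hW]; simp only [if_pos hv]; ring
    rw [e1, e2, e3]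
  -- expectations
  have h32 : 32 * t * q ≤ s := by
    have : 32 * t = min ε 1 := by rw [ht]; ring
    rw [this]
    exact (mul_le_mul_of_nonneg_right heε hq0.le).trans hs
  obtain ⟨hR1, hR2⟩ := hRare V G s (Fintype.card V) t q U (by omega) ht0.le ht1 hq0.le h32 hnbq
  have hmem : ∀ v ∈ U, bE t U (fun T => if v ∈ T then (1 : ℝ) else 0) = t := by
    intro v hv
    have h := bE_mem t hv (fun _ => (1 : ℝ))
    rw [bE_const, mul_one] at h
    exact h
  have h4 : bE t U F ≤ 2 * (∑ v ∈ U, e v * t) +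
      P * Q * ((∑ v ∈ U, e v * Real.exp (-((s : ℝ) / 16))) +
        ∑ w ∈ U, e w * (s * Real.exp (-((s : ℝ) / 16)))) := by
    refine (bE_mono ht0.le ht1 h3).trans ?_
    rw [bE_add, bE_mul_left, bE_mul_left, bE_add, bE_sum, bE_sum, bE_sum]
    simp only [bE_mul_left]
    refine add_le_add (le_of_eq ?_) (mul_le_mul_of_nonneg_left (add_le_add ?_ ?_) hQ0)
    · congr 1
      exact Finset.sum_congr rfl fun v hv => by rw [hmem v hv]
    · exact Finset.sum_le_sum fun v hv => mul_le_mul_of_nonneg_left (hR1 v hv) (he_nn v)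
    · exact Finset.sum_le_sum fun v hv => mul_le_mul_of_nonneg_left (hR2 v hv) (he_nn v)
  set D : ℝ := ∑ v ∈ U, e v with hD
  have hD0 : 0 ≤ D := Finset.sum_nonneg fun v _ => he_nn v
  rw [← Finset.sum_mul, ← Finset.sum_mul, ← Finset.sum_mul] at h4
  have hexp : Real.exp (-((s : ℝ) / 16)) ≤ Real.exp (-(ε * q / 16)) := by
    apply Real.exp_le_exp.2
    linarith
  have h5 : P * Q * (Real.exp (-((s : ℝ) / 16)) + s * Real.exp (-((s : ℝ) / 16))) ≤ 1 := by
    refine le_trans ?_ hnum
    have h6 : Real.exp (-((s : ℝ) / 16)) + s * Real.exp (-((s : ℝ) / 16)) ≤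
        (1 + q) * Real.exp (-(ε * q / 16)) := by
      have h7 : Real.exp (-((s : ℝ) / 16)) + s * Real.exp (-((s : ℝ) / 16)) =
        (1 + s) * Real.exp (-((s : ℝ) / 16)) := by ring
      rw [h7]
      exact mul_le_mul (by linarith) hexp (Real.exp_pos _).le (by linarith)
    calc P * Q * (Real.exp (-((s : ℝ) / 16)) + s * Real.exp (-((s : ℝ) / 16)))
        ≤ P * Q * ((1 + q) * Real.exp (-(ε * q / 16))) := mul_le_mul_of_nonneg_left h6 hQ0
      _ = _ := by rw [hQ]; ring
  have h6 : t ^ K' * vr A g ≤ 3 * D := by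
    rw [← hFU]
    refine h2.trans (h4.trans ?_)
    have h7 : 2 * (D * t) + P * Q * (D * Real.exp (-((s : ℝ) / 16)) +
        D * (s * Real.exp (-((s : ℝ) / 16)))) =
        D * (2 * t + P * Q * (Real.exp (-((s : ℝ) / 16)) + s * Real.exp (-((s : ℝ) / 16)))) := by
      ring
    rw [h7]
    nlinarith
  rw [hdir, div_mul_eq_mul_div, le_div_iff₀ htK0, mul_comm]
  exact h6

end Pool.Agent.Ex26
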