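import Pool.Agent.Lib.MP_26a019_lc.Ex.DSpec

set_option autoImplicit false

/-!
# DAvoid: the probability that a set of vertices avoids a colour
-/

open Finset Classical

namespace Pool.Agent.Ex26

open Pool.Agent.Kempe Pool.Agent.KempeMix Pool.Agent.Eps26

theorem dAvoid_proof (V C : Type) [Fintype V] [Fintype C] : DAvoid V C := by
  intro G U L p s hG N b
  have hs : (2 : ℝ) ≤ s ∨ (1 : ℝ) ≤ s := by
    right
    have := hG.1
    exact_mod_cast (by omega : 1 ≤ s)
  have hs1 : (1 : ℝ) ≤ s := by
    rcases hs with h | h <;> linarith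
  have hs0 : (0 : ℝ) < s := by linarith
  have hle : (1 : ℝ) / s ≤ 1 := by
    rw [div_le_one hs0]; exact hs1
  have hpos : (0 : ℝ) ≤ 1 - 1 / (s : ℝ) := by linarith
  induction N using Finset.induction_on with
  | empty =>
    intro _
    rw [Finset.card_empty, pow_zero]
    have h1 : ev (Col G U L p) (fun f => if ∀ u ∈ (∅ : Finset V), f u ≠ b then (1 : ℝ) else 0) =
        ev (Col G U L p) (fun _ => (1 : ℝ)) := by
      refine ev_congr _ fun f _ => ?_
      rw [if_pos]
      intro u hu
      exact absurd hu (Finset.notMem_empty u)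
    rw [h1, ev_const (Col_nonempty hG p)]
  | insert u N' hu ih =>
    intro hsub
    have hu' : u ∈ U := hsub (Finset.mem_insert_self u N')
    have hN' : N' ⊆ U := fun x hx => hsub (Finset.mem_insert_of_mem hx)
    have ih' := ih hN'
    obtain ⟨Y, hY⟩ : ∃ Y : (V → C) → ℝ, Y = fun f => if ∀ u ∈ N', f u ≠ b then (1 : ℝ) else 0 :=
      ⟨_, rfl⟩
    rw [← hY] at ih'
    have hY0 : ∀ f, 0 ≤ Y f := by
      intro f; rw [hY]; dsimp only; split_ifs <;> norm_num
    have hind : Ind u Y := by
      intro f c
      rw [hY]
      dsimp only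
      have hiff : (∀ x ∈ N', Function.update f u c x ≠ b) ↔ (∀ x ∈ N', f x ≠ b) := by
        constructor
        · intro h x hx
          have hxu : x ≠ u := fun e => hu (e ▸ hx)
          have := h x hx
          rwa [Function.update_of_ne hxu] at this
        · intro h x hx
          have hxu : x ≠ u := fun e => hu (e ▸ hx)
          rw [Function.update_of_ne hxu]
          exact h x hx
      by_cases h : ∀ x ∈ N', f x ≠ b
      · rw [if_pos h, if_pos (hiff.2 h)]
      · rw [if_neg h, if_neg (fun h' => h (hiff.1 h'))]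
    have h1 : ev (Col G U L p) (fun f => if ∀ x ∈ insert u N', f x ≠ b then (1 : ℝ) else 0) =
        ev (Col G U L p) (fun f => Y f - (if f u = b then (1 : ℝ) else 0) * Y f) := by
      refine ev_congr _ fun f _ => ?_
      rw [hY]
      dsimp only
      by_cases h : ∀ x ∈ N', f x ≠ b
      · by_cases hb : f u = b
        · rw [if_neg (fun h' => h' u (Finset.mem_insert_self u N') hb), if_pos h, if_pos hb]
          ring
        · rw [if_pos, if_pos h, if_neg hb]
          · ring
          · intro x hx
            rcases Finset.mem_insert.1 hx with rfl | hx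
            · exact hb
            · exact h x hx
      · rw [if_neg (fun h' => h fun x hx => h' x (Finset.mem_insert_of_mem hx)), if_neg h]
        ring
    have h2 : ev (Col G U L p) (fun f => pr G U L u b f * Y f) ≤
        ev (Col G U L p) (fun f => (1 / (s : ℝ)) * Y f) :=
      ev_mono _ fun f _ => mul_le_mul_of_nonneg_right (pr_le hG hu' b f) (hY0 f)
    rw [ev_mul_left] at h2
    rw [h1, ev_sub, ev_color_mul hG p hu' b hind, Finset.card_insert_of_notMem hu, pow_succ]
    have h3 : (1 - 1 / (s : ℝ)) ^ N'.card * (1 - 1 / (s : ℝ)) ≤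
        ev (Col G U L p) Y * (1 - 1 / (s : ℝ)) := mul_le_mul_of_nonneg_right ih' hpos
    have h4 : ev (Col G U L p) (fun f => Y f) = ev (Col G U L p) Y := rfl
    rw [h4] at h2
    nlinarith [h2, h3]

end Pool.Agent.Ex26
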