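import Pool.Agent.Lib.MP_26a019_lc.Ex.DSpec

set_option autoImplicit false
set_option linter.unusedVariables false

/-!
# Part D: recolouring `v` is a bijection between the classes
-/

open Finset Classical

namespace Pool.Agent.Ex26

open Pool.Agent.Kempe Pool.Agent.KempeMix Pool.Agent.Eps26

namespace DBijAux

variable {V C : Type} [Fintype V] [Fintype C]

theorem mem_clb {G : SimpleGraph V} {A : Finset (V → C)} {T : Finset V} {v : V} {b : C}
    {f f' : V → C} : f' ∈ clb G A T v b f ↔
      (f' ∈ A ∧ ∀ u, u ∉ T → f' u = f u) ∧ ∀ u ∈ nb G T v, f' u ≠ b := by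
  unfold clb cls
  rw [Finset.mem_filter, Finset.mem_filter]
  simp only [Finset.mem_compl]

theorem fwd {G : SimpleGraph V} {U : Finset V} {L : V → Finset C} {p : V → C} {T : Finset V}
    {v : V} {b : C} {f : V → C} (hT : T ⊆ U) (hv : v ∈ U) (hvT : v ∉ T)
    (hf : f ∈ Col G U L p) (hb : b ∈ av G U L f v) {f' : V → C}
    (hf' : f' ∈ clb G (Col G U L p) T v b f) :
    Function.update f' v b ∈ clb G (Col G U L p) T v (f v) (Function.update f v b) := by
  rw [mem_clb] at hf' ⊢
  obtain ⟨⟨h1, h2⟩, h3⟩ := hf'
  have hfv : f' v = f v := h2 v hvT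
  rw [mem_av] at hb
  have hb' : b ∈ av G U L f' v := by
    rw [mem_av]
    refine ⟨hb.1, fun u hu => ?_⟩
    by_cases huT : u ∈ T
    · exact h3 u (mem_nb.2 ⟨huT, (mem_nb.1 hu).2⟩)
    · rw [h2 u huT]; exact hb.2 u hu
  refine ⟨⟨update_mem h1 hv hb', fun u hu => ?_⟩, fun u hu => ?_⟩
  · by_cases h : u = v
    · subst h; rw [Function.update_self, Function.update_self]
    · rw [Function.update_of_ne h, Function.update_of_ne h]; exact h2 u hu
  · have h : u ≠ v := fun h => self_notMem_nb G T v (h ▸ hu)
    rw [Function.update_of_ne h, ← hfv]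
    exact (mem_Col.1 h1).2.2 u (hT (mem_nb.1 hu).1) v hv (mem_nb.1 hu).2.symm

theorem bwd {G : SimpleGraph V} {U : Finset V} {L : V → Finset C} {p : V → C} {T : Finset V}
    {v : V} {b : C} {f : V → C} (hT : T ⊆ U) (hv : v ∈ U) (hvT : v ∉ T)
    (hf : f ∈ Col G U L p) (hb : b ∈ av G U L f v) {f' : V → C}
    (hf' : f' ∈ clb G (Col G U L p) T v (f v) (Function.update f v b)) :
    Function.update f' v (f v) ∈ clb G (Col G U L p) T v b f := by
  have h1 : f v ∈ av G U L (Function.update f v b) v := by
    rw [av_update_self]; exact self_mem_av hf hv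
  have h2 := fwd hT hv hvT (update_mem hf hv hb) h1 hf'
  rwa [Function.update_self, Function.update_idem, Function.update_eq_self] at h2

end DBijAux

open DBijAux in
/-- **DBij** -/
theorem dBij_proof (V C : Type) [Fintype V] [Fintype C] : DBij V C := by
  intro G U L p T v b f hT hv hvT hf hb g
  have himg : clb G (Col G U L p) T v (f v) (Function.update f v b) =
      (clb G (Col G U L p) T v b f).image (fun f' => Function.update f' v b) := by
    ext f'
    rw [Finset.mem_image]
    constructor
    · intro h
      refine ⟨Function.update f' v (f v), bwd hT hv hvT hf hb h, ?_⟩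
      have h2 : f' v = b := by
        have := (mem_clb.1 h).1.2 v hvT
        rwa [Function.update_self] at this
      rw [Function.update_idem, ← h2, Function.update_eq_self]
    · rintro ⟨f'', h, rfl⟩
      exact fwd hT hv hvT hf hb h
  have hinj : Set.InjOn (fun f' : V → C => Function.update f' v b)
      (clb G (Col G U L p) T v b f : Set (V → C)) := by
    intro f1 h1 f2 h2 h
    have e1 := (mem_clb.1 (Finset.mem_coe.1 h1)).1.2 v hvT
    have e2 := (mem_clb.1 (Finset.mem_coe.1 h2)).1.2 v hvT
    funext u
    by_cases hu : u = v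
    · subst hu; rw [e1, e2]
    · have := congrFun h u
      simpa only [Function.update_of_ne hu] using this
  unfold ev
  rw [himg, Finset.sum_image hinj, Finset.card_image_of_injOn hinj]

end Pool.Agent.Ex26
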