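import Pool.Agent.Lib.MP_26a019_lc.Ex.DSpec

set_option autoImplicit false

/-!
# Part D: the constant `c0` (MP_26a019_lc)
-/

open Finset Classical

namespace Pool.Agent.Ex26

open Pool.Agent.Kempe Pool.Agent.KempeMix Pool.Agent.Eps26

theorem DC0Aux.quarter (s : ℕ) (hs : 2 ≤ s) : (1 / 4 : ℝ) ≤ (1 - 1 / (s : ℝ)) ^ s := by
  have hs' : (2 : ℝ) ≤ s := by exact_mod_cast hs
  have hs0 : (0 : ℝ) < s := by linarith
  have h1 : 1 / (s : ℝ) ≤ 1 := by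
    rw [div_le_one hs0]; linarith
  have h0 : 0 ≤ 1 - 1 / (s : ℝ) := by linarith
  have h2 := one_add_mul_self_le_rpow_one_add (s := -(1 / (s : ℝ))) (by linarith)
    (p := (s : ℝ) / 2) (by linarith)
  have h3 : 1 + (s : ℝ) / 2 * -(1 / (s : ℝ)) = 1 / 2 := by
    field_simp
    ring
  rw [h3, ← sub_eq_add_neg] at h2
  have h4 : ((1 - 1 / (s : ℝ)) ^ ((s : ℝ) / 2)) ^ 2 = (1 - 1 / (s : ℝ)) ^ s := by
    rw [← Real.rpow_natCast, ← Real.rpow_mul h0, ← Real.rpow_natCast]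
    congr 1
    push_cast
    ring
  rw [← h4]
  have h5 : (1 / 4 : ℝ) = (1 / 2) ^ 2 := by norm_num
  rw [h5]
  exact pow_le_pow_left₀ (by norm_num) h2 2

/-- **DC0** -/
theorem dC0_proof : DC0 := by
  intro ε s q hε hs hq
  have hs' : (2 : ℝ) ≤ s := by exact_mod_cast hs
  have hs0 : (0 : ℝ) < s := by linarith
  have h1 : 1 / (s : ℝ) ≤ 1 := by
    rw [div_le_one hs0]; linarith
  have h0 : 0 ≤ 1 - 1 / (s : ℝ) := by linarith
  have h0' : 1 - 1 / (s : ℝ) ≤ 1 := by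
    have : 0 ≤ 1 / (s : ℝ) := by positivity
    linarith
  have hm := Nat.le_ceil (1 / ε)
  have h2 : q ≤ s * ⌈1 / ε⌉₊ := by
    have h3 : (q : ℝ) ≤ s * (1 / ε) := by
      rw [mul_one_div, le_div_iff₀ hε]
      linarith
    have h4 : (s : ℝ) * (1 / ε) ≤ s * (⌈1 / ε⌉₊ : ℝ) := mul_le_mul_of_nonneg_left hm hs0.le
    exact_mod_cast h3.trans h4
  calc (1 / 4 : ℝ) ^ ⌈1 / ε⌉₊ ≤ ((1 - 1 / (s : ℝ)) ^ s) ^ ⌈1 / ε⌉₊ :=
        pow_le_pow_left₀ (by norm_num) (DC0Aux.quarter s hs) _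
    _ = (1 - 1 / (s : ℝ)) ^ (s * ⌈1 / ε⌉₊) := (pow_mul _ _ _).symm
    _ ≤ (1 - 1 / (s : ℝ)) ^ q := pow_le_pow_of_le_one h0 h0' h2

end Pool.Agent.Ex26
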