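import Pool.Agent.Lib.MP_26a019_lc.Ex.DSpec

set_option autoImplicit false

/-!
# DClb: lower bound for the probability of `clb` in the class
-/

open Finset Classical

namespace Pool.Agent.Ex26

open Pool.Agent.Kempe Pool.Agent.KempeMix Pool.Agent.Eps26

theorem dClb_of {V C : Type} [Fintype V] [Fintype C] (h1 : DAvoid V C) : DClb V C := by
  intro G U L p s T v b f hG hT hv hf
  obtain ⟨b1, b2, -, -⟩ := bridge_proof V C G U L p s T f hG hT hf
  rw [b1]
  have h2 := h1 G T (fun u => avX G U L T f u) f s b2 (nb G T v) b (nb_subset G T v)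
  refine le_trans ?_ h2
  have hs : (2 : ℝ) ≤ s := by exact_mod_cast hG.1
  have h3 : 1 / (s : ℝ) ≤ 1 := by
    rw [div_le_one (by linarith)]
    linarith
  have h4 : 0 ≤ 1 / (s : ℝ) := by positivity
  have hcard : (nb G T v).card ≤ Fintype.card C := by
    have h5 := Finset.card_le_card (nb_mono (G := G) hT v)
    have h6 := card_nb_le_card hG hv
    omega
  exact pow_le_pow_of_le_one (by linarith) (by linarith) hcard

end Pool.Agent.Ex26
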