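import Pool.Agent.Lib.MP_26a019_lc.Ex.DSpec

set_option autoImplicit false
set_option linter.unusedVariables false
set_option linter.unusedSectionVars false

open Finset Classical

namespace Pool.Agent.Ex26

open Pool.Agent.Kempe Pool.Agent.KempeMix Pool.Agent.Eps26

namespace DCovAux

variable {V C : Type} [Fintype V] [Fintype C]

/-- the heat bath mean differs from the value by at most the oscillation -/
lemma sub_hb_le {G : SimpleGraph V} {U : Finset V} {L : V → Finset C} {p : V → C} {s : ℕ}
    (hG : Good G U L s) (ψ : (V → C) → ℝ) {w : V} (hw : w ∈ U) {f : V → C}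
    (hf : f ∈ Col G U L p) :
    |ψ f - hb G U L w ψ f| ≤ osc (Col G U L p) w ψ := by
  have hpos := av_pos hG hw f
  have h1 : ψ f - hb G U L w ψ f =
      (∑ c ∈ av G U L f w, (ψ f - ψ (Function.update f w c))) / ((av G U L f w).card : ℝ) := by
    unfold hb
    rw [Finset.sum_sub_distrib, Finset.sum_const, nsmul_eq_mul, sub_div,
      mul_div_cancel_left₀ _ hpos.ne']
  rw [h1, abs_div, abs_of_pos hpos, div_le_iff₀ hpos]
  calc |∑ c ∈ av G U L f w, (ψ f - ψ (Function.update f w c))|
      ≤ ∑ c ∈ av G U L f w, |ψ f - ψ (Function.update f w c)| := Finset.abs_sum_le_sum_abs _ _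
    _ ≤ ∑ _c ∈ av G U L f w, osc (Col G U L p) w ψ := by
        apply Finset.sum_le_sum
        intro c hc
        exact le_osc ψ hf (update_mem hf hw hc) fun u hu => (Function.update_of_ne hu _ _).symm
    _ = osc (Col G U L p) w ψ * ((av G U L f w).card : ℝ) := by
        rw [Finset.sum_const, nsmul_eq_mul, mul_comm]

/-- the term of one vertex -/
lemma term {G : SimpleGraph V} {U : Finset V} {L : V → Finset C} {p : V → C} {s : ℕ}
    (hG : Good G U L s) (ψ g : (V → C) → ℝ) {w : V} (hw : w ∈ U) :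
    |ev (Col G U L p) (fun f => (ψ f - hb G U L w ψ f) * g f)| ≤
      osc (Col G U L p) w ψ *
        √(ev (Col G U L p) (fun f => (g f - hb G U L w g f) ^ 2)) := by
  have hA : (Col G U L p).Nonempty := Col_nonempty hG p
  have h1 : ev (Col G U L p) (fun f => (ψ f - hb G U L w ψ f) * g f) =
      ev (Col G U L p) (fun f => (ψ f - hb G U L w ψ f) * (g f - hb G U L w g f)) := by
    have h2 := ev_ind_mul hG p hw (ind_hb G U L w g) ψ
    have h3 : ev (Col G U L p) (fun f => (ψ f - hb G U L w ψ f) * (g f - hb G U L w g f)) =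
        ev (Col G U L p) (fun f => (ψ f - hb G U L w ψ f) * g f -
          (ψ f * hb G U L w g f - hb G U L w ψ f * hb G U L w g f)) :=
      ev_congr _ fun f _ => by ring
    rw [h3, ev_sub, ev_sub, h2, sub_self, sub_zero]
  rw [h1]
  have ho := osc_nonneg (Col G U L p) w ψ
  calc |ev (Col G U L p) (fun f => (ψ f - hb G U L w ψ f) * (g f - hb G U L w g f))|
      ≤ ev (Col G U L p) (fun f => |(ψ f - hb G U L w ψ f) * (g f - hb G U L w g f)|) :=
        abs_ev_le _ _
    _ ≤ ev (Col G U L p) (fun f => osc (Col G U L p) w ψ * |g f - hb G U L w g f|) := by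
        apply ev_mono
        intro f hf
        rw [abs_mul]
        exact mul_le_mul_of_nonneg_right (sub_hb_le hG ψ hw hf) (abs_nonneg _)
    _ = osc (Col G U L p) w ψ * ev (Col G U L p) (fun f => |g f - hb G U L w g f|) :=
        ev_mul_left _ _ _
    _ ≤ osc (Col G U L p) w ψ *
        √(ev (Col G U L p) (fun f => (g f - hb G U L w g f) ^ 2)) := by
        apply mul_le_mul_of_nonneg_left _ ho
        apply Real.le_sqrt_of_sq_le
        have h4 := ev_sq_le hA (fun f => |g f - hb G U L w g f|)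
        simpa only [sq_abs] using h4

end DCovAux

open DCovAux in
theorem dCov_of {V C : Type} [Fintype V] [Fintype C] (h1 : DPois V C) (h2 : DMax V C) :
    DCov V C := by
  intro G U L p s P hG hP Y ζ hY
  obtain ⟨ψ, hψ⟩ := h1 G U L p s P hG hP Y
  refine ⟨fun w => osc (Col G U L p) w ψ, fun w => osc_nonneg _ _ _, ?_, ?_⟩
  · intro w hw
    apply h2 G U L p s ψ w (ζ w) hG hw
    intro f hf f' hf' hff
    rw [hψ f hf, hψ f' hf']
    have h3 := hY w hw f hf f' hf' hff
    have h4 : Y f - ev (Col G U L p) Y - (Y f' - ev (Col G U L p) Y) = Y f - Y f' := by ring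
    rw [h4]
    exact h3
  · intro g
    have h3 : ev (Col G U L p) (fun f => Y f * g f) -
        ev (Col G U L p) Y * ev (Col G U L p) g =
        ∑ w ∈ U, ev (Col G U L p) (fun f => (ψ f - hb G U L w ψ f) * g f) := by
      rw [← ev_mul_left, ← ev_sub, ← ev_sum]
      apply ev_congr
      intro f hf
      have h4 := hψ f hf
      unfold gen at h4
      rw [← Finset.sum_mul, h4]
      ring
    rw [h3]
    have h5 : |∑ w ∈ U, ev (Col G U L p) (fun f => (ψ f - hb G U L w ψ f) * g f)| ≤
        ∑ w ∈ U, osc (Col G U L p) w ψ *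
          √(ev (Col G U L p) (fun f => (g f - hb G U L w g f) ^ 2)) :=
      (Finset.abs_sum_le_sum_abs _ _).trans (Finset.sum_le_sum fun w hw => term hG ψ g hw)
    have h6 : (∑ w ∈ U, osc (Col G U L p) w ψ *
          √(ev (Col G U L p) (fun f => (g f - hb G U L w g f) ^ 2))) ^ 2 ≤
        (∑ w ∈ U, osc (Col G U L p) w ψ) * ∑ w ∈ U, osc (Col G U L p) w ψ *
          ev (Col G U L p) (fun f => (g f - hb G U L w g f) ^ 2) := by
      have h7 := Finset.sum_mul_sq_le_sq_mul_sq U (fun w => √(osc (Col G U L p) w ψ))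
        (fun w => √(osc (Col G U L p) w ψ) *
          √(ev (Col G U L p) (fun f => (g f - hb G U L w g f) ^ 2)))
      have h8 : ∀ w, √(osc (Col G U L p) w ψ) ^ 2 = osc (Col G U L p) w ψ := fun w =>
        Real.sq_sqrt (osc_nonneg _ _ _)
      have h9 : ∀ w, √(ev (Col G U L p) (fun f => (g f - hb G U L w g f) ^ 2)) ^ 2 =
          ev (Col G U L p) (fun f => (g f - hb G U L w g f) ^ 2) := fun w =>
        Real.sq_sqrt (ev_nonneg _ fun f _ => sq_nonneg _)
      simp only [mul_pow, h8, h9, ← mul_assoc, ← sq] at h7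
      exact h7
    calc (∑ w ∈ U, ev (Col G U L p) (fun f => (ψ f - hb G U L w ψ f) * g f)) ^ 2
        = |∑ w ∈ U, ev (Col G U L p) (fun f => (ψ f - hb G U L w ψ f) * g f)| ^ 2 :=
          (sq_abs _).symm
      _ ≤ (∑ w ∈ U, osc (Col G U L p) w ψ *
          √(ev (Col G U L p) (fun f => (g f - hb G U L w g f) ^ 2))) ^ 2 :=
          pow_le_pow_left₀ (abs_nonneg _) h5 2
      _ ≤ _ := h6

end Pool.Agent.Ex26
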