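import Pool.Agent.Lib.MP_26a019_lc.Ex.Top
import Pool.Agent.Lib.MP_26a019_lc.Mix.MDual
import Pool.Agent.Lib.MP_26a019_lc.Mix.MTower
import Pool.Agent.Lib.MP_26a019_lc.Mix.MChain

set_option autoImplicit false
set_option linter.unusedVariables false
set_option linter.unusedSectionVars false

/-!
# Part D: definitions and basic facts

`gen` generator of the heat bath dynamics, `osc` oscillation at a vertex, `bE` mean over a Bernoulli
random subset, `Bad` vertices of large degree in `T`, `saw`, `wlk` sums over self-avoiding walks.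
-/

open Finset Classical

namespace Pool.Agent.Ex26

open Pool.Agent.Kempe Pool.Agent.KempeMix Pool.Agent.Eps26

section ddefs

variable {V C : Type} [Fintype V] [Fintype C]

/-- generator of the heat bath dynamics: `∑_{x ∈ U} (ψ - P_x ψ)` -/
noncomputable def gen (G : SimpleGraph V) (U : Finset V) (L : V → Finset C)
    (ψ : (V → C) → ℝ) (f : V → C) : ℝ := ∑ x ∈ U, (ψ f - hb G U L x ψ f)

/-- oscillation of `ψ` at `w`: maximum of `|ψ f - ψ f'|` over `f, f' ∈ A` which differ only at `w` -/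
noncomputable def osc (A : Finset (V → C)) (w : V) (ψ : (V → C) → ℝ) : ℝ :=
  ⨆ x : {x : (V → C) × (V → C) // x.1 ∈ A ∧ x.2 ∈ A ∧ ∀ u, u ≠ w → x.1 u = x.2 u},
    |ψ x.1.1 - ψ x.1.2|

/-- mean over a random subset `T` of `U`; every vertex is in `T` with probability `t` -/
noncomputable def bE (t : ℝ) (U : Finset V) (F : Finset V → ℝ) : ℝ :=
  ∑ T ∈ U.powerset, t ^ T.card * (1 - t) ^ (U \ T).card * F T

/-- the vertices of `T` which have more than `s/8` neighbours in `T` -/
noncomputable def Bad (G : SimpleGraph V) (s : ℕ) (T : Finset V) : Finset V :=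
  T.filter (fun v => s < 8 * (nb G T v).card)

/-- sum over self-avoiding walks in `Λ` from `x` of `2 (2 th)^length F (endpoint)`,
length less than the first argument -/
noncomputable def saw (G : SimpleGraph V) (th : ℝ) (F : V → ℝ) : ℕ → Finset V → V → ℝ
  | 0, _, _ => 0
  | n + 1, Λ, x => 2 * (F x + th * ∑ y ∈ nb G Λ x, saw G th F n (Λ.erase x) y)

/-- sum over self-avoiding walks from `x` in the unexplored set `Λ` (`x` is not in `Λ`) of
`th2^length * exp (unexplored degree of the endpoint + number of explored vertices)`;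
first argument: bound for the number of vertices, second: number of vertices explored before `x` -/
noncomputable def wlk (G : SimpleGraph V) (th2 : ℝ) : ℕ → ℕ → Finset V → V → ℝ
  | 0, _, _, _ => 0
  | n + 1, k, Λ, x => Real.exp (((nb G Λ x).card : ℝ) + k) +
      th2 * ∑ y ∈ nb G Λ x, wlk G th2 n (k + 1) (Λ.erase y) y

/-- `J` bounds every solution of the influence inequality in `T` with source at the neighbours
of `v` -/
def JBd (G : SimpleGraph V) (s : ℕ) (T : Finset V) (v : V) (J : V → ℝ) : Prop :=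
  ∀ δ : V → ℝ, (∀ w, 0 ≤ δ w) →
    (∀ w ∈ T, δ w ≤ (if G.Adj w v then (1 : ℝ) else 0) + 2 / (s : ℝ) * ∑ x ∈ nb G T w, δ x) →
    ∀ w ∈ T, δ w ≤ J w

/-- the elements of the class of `f` (colours outside `T` fixed) such that no neighbour of `v` in
`T` has the colour `b` -/
noncomputable def clb (G : SimpleGraph V) (A : Finset (V → C)) (T : Finset V) (v : V) (b : C)
    (f : V → C) : Finset (V → C) :=
  (cls A Tᶜ f).filter (fun f' => ∀ u ∈ nb G T v, f' u ≠ b)

end ddefs

section basics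

variable {V C : Type} [Fintype V] [Fintype C]

theorem osc_nonneg (A : Finset (V → C)) (w : V) (ψ : (V → C) → ℝ) : 0 ≤ osc A w ψ :=
  Real.iSup_nonneg fun _ => abs_nonneg _

theorem le_osc {A : Finset (V → C)} {w : V} (ψ : (V → C) → ℝ) {f f' : V → C} (hf : f ∈ A)
    (hf' : f' ∈ A) (h : ∀ u, u ≠ w → f u = f' u) : |ψ f - ψ f'| ≤ osc A w ψ :=
  le_ciSup (f := fun x : {x : (V → C) × (V → C) // x.1 ∈ A ∧ x.2 ∈ A ∧
    ∀ u, u ≠ w → x.1 u = x.2 u} => |ψ x.1.1 - ψ x.1.2|) (Set.finite_range _).bddAbove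
    ⟨(f, f'), hf, hf', h⟩

theorem osc_le {A : Finset (V → C)} {w : V} {ψ : (V → C) → ℝ} {D : ℝ} (hD : 0 ≤ D)
    (h : ∀ f ∈ A, ∀ f' ∈ A, (∀ u, u ≠ w → f u = f' u) → |ψ f - ψ f'| ≤ D) : osc A w ψ ≤ D :=
  Real.iSup_le (fun x => h x.1.1 x.2.1 x.1.2 x.2.2.1 x.2.2.2) hD

/-- the maximum is attained, with the sign chosen -/
theorem exists_osc {A : Finset (V → C)} (hA : A.Nonempty) (w : V) (ψ : (V → C) → ℝ) :
    ∃ f ∈ A, ∃ f' ∈ A, (∀ u, u ≠ w → f u = f' u) ∧ ψ f - ψ f' = osc A w ψ := by
  obtain ⟨f0, hf0⟩ := hA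
  have : Nonempty {x : (V → C) × (V → C) // x.1 ∈ A ∧ x.2 ∈ A ∧ ∀ u, u ≠ w → x.1 u = x.2 u} :=
    ⟨⟨(f0, f0), hf0, hf0, fun _ _ => rfl⟩⟩
  obtain ⟨x, hx⟩ := exists_eq_ciSup_of_finite (f := fun x : {x : (V → C) × (V → C) //
    x.1 ∈ A ∧ x.2 ∈ A ∧ ∀ u, u ≠ w → x.1 u = x.2 u} => |ψ x.1.1 - ψ x.1.2|)
  rcases le_total 0 (ψ x.1.1 - ψ x.1.2) with h | h
  · exact ⟨x.1.1, x.2.1, x.1.2, x.2.2.1, x.2.2.2, by rw [← abs_of_nonneg h]; exact hx⟩
  · refine ⟨x.1.2, x.2.2.1, x.1.1, x.2.1, fun u hu => (x.2.2.2 u hu).symm, ?_⟩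
    rw [← neg_sub, ← abs_of_nonpos h]; exact hx

/-! ### Bernoulli subsets -/

theorem bE_insert (t : ℝ) {U : Finset V} {v : V} (hv : v ∉ U) (F : Finset V → ℝ) :
    bE t (insert v U) F = t * bE t U (fun T => F (insert v T)) + (1 - t) * bE t U F := by
  unfold bE
  rw [Finset.sum_powerset_insert hv, add_comm, Finset.mul_sum, Finset.mul_sum]
  congr 1
  · refine Finset.sum_congr rfl fun T hT => ?_
    have hvT : v ∉ T := fun h => hv (Finset.mem_powerset.1 hT h)
    have h1 : insert v U \ insert v T = U \ T := by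
      ext x
      simp only [Finset.mem_sdiff, Finset.mem_insert]
      constructor
      · rintro ⟨h1 | h1, h2⟩
        · exact absurd (Or.inl h1) h2
        · exact ⟨h1, fun h => h2 (Or.inr h)⟩
      · rintro ⟨h1, h2⟩
        refine ⟨Or.inr h1, ?_⟩
        rintro (h | h)
        · exact hv (h ▸ h1)
        · exact h2 h
    rw [Finset.card_insert_of_notMem hvT, h1]
    ring
  · refine Finset.sum_congr rfl fun T hT => ?_
    have hvT : v ∉ T := fun h => hv (Finset.mem_powerset.1 hT h)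
    have h1 : insert v U \ T = insert v (U \ T) := Finset.insert_sdiff_of_notMem _ hvT
    rw [h1, Finset.card_insert_of_notMem (fun h => hv (Finset.mem_sdiff.1 h).1)]
    ring

@[simp] theorem bE_empty (t : ℝ) (F : Finset V → ℝ) : bE t (∅ : Finset V) F = F ∅ := by
  unfold bE; simp

theorem bE_congr {t : ℝ} {U : Finset V} {F F' : Finset V → ℝ} (h : ∀ T ⊆ U, F T = F' T) :
    bE t U F = bE t U F' :=
  Finset.sum_congr rfl fun T hT => by rw [h T (Finset.mem_powerset.1 hT)]

theorem bE_mono {t : ℝ} (h0 : 0 ≤ t) (h1 : t ≤ 1) {U : Finset V} {F F' : Finset V → ℝ}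
    (h : ∀ T ⊆ U, F T ≤ F' T) : bE t U F ≤ bE t U F' :=
  Finset.sum_le_sum fun T hT => mul_le_mul_of_nonneg_left (h T (Finset.mem_powerset.1 hT))
    (mul_nonneg (pow_nonneg h0 _) (pow_nonneg (by linarith) _))

theorem bE_nonneg {t : ℝ} (h0 : 0 ≤ t) (h1 : t ≤ 1) {U : Finset V} {F : Finset V → ℝ}
    (h : ∀ T ⊆ U, 0 ≤ F T) : 0 ≤ bE t U F :=
  Finset.sum_nonneg fun T hT => mul_nonneg (mul_nonneg (pow_nonneg h0 _)
    (pow_nonneg (by linarith) _)) (h T (Finset.mem_powerset.1 hT))

theorem bE_add (t : ℝ) (U : Finset V) (F F' : Finset V → ℝ) :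
    bE t U (fun T => F T + F' T) = bE t U F + bE t U F' := by
  unfold bE; rw [← Finset.sum_add_distrib]; exact Finset.sum_congr rfl fun _ _ => by ring

theorem bE_sub (t : ℝ) (U : Finset V) (F F' : Finset V → ℝ) :
    bE t U (fun T => F T - F' T) = bE t U F - bE t U F' := by
  unfold bE; rw [← Finset.sum_sub_distrib]; exact Finset.sum_congr rfl fun _ _ => by ring

theorem bE_mul_left (t : ℝ) (U : Finset V) (c : ℝ) (F : Finset V → ℝ) :
    bE t U (fun T => c * F T) = c * bE t U F := by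
  unfold bE; rw [Finset.mul_sum]; exact Finset.sum_congr rfl fun _ _ => by ring

theorem bE_sum {ι : Type} (t : ℝ) (U : Finset V) (S : Finset ι) (F : ι → Finset V → ℝ) :
    bE t U (fun T => ∑ i ∈ S, F i T) = ∑ i ∈ S, bE t U (F i) := by
  unfold bE
  rw [Finset.sum_comm]
  exact Finset.sum_congr rfl fun _ _ => by rw [Finset.mul_sum]

theorem bE_const (t : ℝ) (U : Finset V) (c : ℝ) : bE t U (fun _ => c) = c := by
  induction U using Finset.induction_on with
  | empty => simp
  | insert v U hv ih => rw [bE_insert t hv, ih]; ring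

theorem bE_one (U : Finset V) (F : Finset V → ℝ) : bE 1 U F = F U := by
  induction U using Finset.induction_on generalizing F with
  | empty => simp
  | insert v U hv ih => rw [bE_insert 1 hv, ih]; ring

/-- the vertex `w` belongs to `T` with probability `t`, independently of the rest -/
theorem bE_mem (t : ℝ) {U : Finset V} {w : V} (hw : w ∈ U) (H : Finset V → ℝ) :
    bE t U (fun T => if w ∈ T then H (T.erase w) else 0) = t * bE t (U.erase w) H := by
  obtain ⟨U', hU', rfl⟩ : ∃ U', w ∉ U' ∧ insert w U' = U :=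
    ⟨U.erase w, Finset.notMem_erase w U, Finset.insert_erase hw⟩
  rw [bE_insert t hU', Finset.erase_insert hU']
  have h1 : bE t U' (fun T => if w ∈ insert w T then H ((insert w T).erase w) else 0) =
      bE t U' H := bE_congr fun T hT => by
    rw [if_pos (Finset.mem_insert_self w T), Finset.erase_insert (fun h => hU' (hT h))]
  have h2 : bE t U' (fun T => if w ∈ T then H (T.erase w) else 0) = 0 := by
    rw [bE_congr (F' := fun _ => (0 : ℝ)) fun T hT => if_neg (fun h => hU' (hT h)), bE_const]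
  rw [h1, h2]; ring

end basics

end Pool.Agent.Ex26
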