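import Pool.Agent.Lib.MP_26a019_lc.Ex.DSpec

set_option autoImplicit false

/-!
# Finite-dimensional spectral theorem
-/

open Finset Classical

namespace Pool.Agent.Ex26

open Pool.Agent.Kempe Pool.Agent.KempeMix Pool.Agent.Eps26

theorem dEig_proof : DEig := by
  intro S _ M c hsym hpos heig u hu
  obtain ⟨A, hA⟩ : ∃ A : Matrix S S ℝ, A = Matrix.of M := ⟨_, rfl⟩
  have hAx : ∀ x y, A x y = M x y := by intro x y; rw [hA]; rfl
  have hH : A.IsHermitian := by
    ext x y
    rw [Matrix.conjTranspose_apply, hAx, hAx, star_trivial, hsym]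
  obtain ⟨v, hv⟩ : ∃ v : S → S → ℝ, v = fun i x => (hH.eigenvectorBasis i) x := ⟨_, rfl⟩
  have hvx : ∀ i x, (hH.eigenvectorBasis i) x = v i x := by intro i x; rw [hv]
  have hev : ∀ i x, ∑ y, M x y * v i y = hH.eigenvalues i * v i x := by
    intro i x
    have h := congrFun (hH.mulVec_eigenvectorBasis i) x
    rw [Matrix.mulVec, dotProduct] at h
    simp only [hAx, Pi.smul_apply, smul_eq_mul, hvx] at h
    exact h
  have hpars : ∀ a b : S → ℝ, ∑ x, a x * b x = ∑ i, (∑ x, v i x * a x) * (∑ x, v i x * b x) := by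
    intro a b
    have h := hH.eigenvectorBasis.sum_inner_mul_inner (WithLp.toLp 2 a) (WithLp.toLp 2 b)
    simp only [PiLp.inner_apply] at h
    simp only [RCLike.inner_apply, conj_trivial, hvx] at h
    rw [Finset.sum_congr rfl fun x _ => mul_comm (a x) (b x), ← h]
    refine Finset.sum_congr rfl fun i _ => ?_
    congr 1
    refine Finset.sum_congr rfl fun x _ => ?_
    ring
  have hself : ∀ (a : S → ℝ) (i : S), ∑ x, v i x * ∑ y, M x y * a y =
      hH.eigenvalues i * ∑ x, v i x * a x := by
    intro a i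
    have h1 : ∀ x, v i x * ∑ y, M x y * a y = ∑ y, a y * (M y x * v i x) := by
      intro x
      rw [Finset.mul_sum]
      refine Finset.sum_congr rfl fun y _ => ?_
      rw [hsym x y]
      ring
    rw [Finset.sum_congr rfl fun x _ => h1 x, Finset.sum_comm]
    have h2 : ∀ y, ∑ x, a y * (M y x * v i x) = hH.eigenvalues i * (v i y * a y) := by
      intro y
      rw [← Finset.mul_sum, hev i y]
      ring
    rw [Finset.sum_congr rfl fun y _ => h2 y, ← Finset.mul_sum]
  have hnorm : ∀ i, ∑ x, v i x * v i x = 1 := by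
    intro i
    have h := hH.eigenvectorBasis.orthonormal.1 i
    have h2 : inner ℝ (hH.eigenvectorBasis i) (hH.eigenvectorBasis i) = 1 := by
      rw [real_inner_self_eq_norm_sq, h, one_pow]
    simp only [PiLp.inner_apply] at h2
    simp only [RCLike.inner_apply, conj_trivial, hvx] at h2
    exact h2
  have hlam : ∀ i, 0 ≤ hH.eigenvalues i := by
    intro i
    have h := hpos (v i)
    rw [hself (v i) i, hnorm i, mul_one] at h
    exact h
  have h1 : ∑ x, (u x) ^ 2 = ∑ i, (∑ x, v i x * u x) ^ 2 := by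
    have h := hpars u u
    rw [Finset.sum_congr rfl fun x _ => (sq (u x)), h]
    exact Finset.sum_congr rfl fun i _ => (sq _).symm
  have h2 : ∑ x, u x * ∑ y, M x y * u y = ∑ i, hH.eigenvalues i * (∑ x, v i x * u x) ^ 2 := by
    rw [hpars u (fun x => ∑ y, M x y * u y)]
    refine Finset.sum_congr rfl fun i _ => ?_
    rw [hself u i]
    ring
  rw [h1, h2, Finset.mul_sum]
  refine Finset.sum_le_sum fun i _ => ?_
  by_cases hc : hH.eigenvalues i < c
  · have hconst := heig (v i) (hH.eigenvalues i) (hev i) (hlam i) hc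
    have h3 : ∑ x, v i x * u x = 0 := by
      rw [Finset.sum_congr rfl fun x _ => by rw [hconst x i], ← Finset.mul_sum, hu, mul_zero]
    rw [h3]
    simp
  · exact mul_le_mul_of_nonneg_right (not_lt.1 hc) (sq_nonneg _)

end Pool.Agent.Ex26
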