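import Pool.Agent.Lib.MP_26a019_lc.Ex.DSpec

set_option autoImplicit false

/-!
# Part D: exponential moment of the random degree
-/

open Finset Classical

namespace Pool.Agent.Ex26

open Pool.Agent.Kempe Pool.Agent.KempeMix Pool.Agent.Eps26

namespace DExpMAux

variable {V : Type} [Fintype V]

theorem nb_insert_adj {G : SimpleGraph V} {T : Finset V} {v x : V} (h : G.Adj x v) :
    nb G (insert v T) x = insert v (nb G T x) := by
  ext u
  simp only [mem_nb, Finset.mem_insert]
  constructor
  · rintro ⟨h1 | h1, h2⟩
    · exact Or.inl h1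
    · exact Or.inr ⟨h1, h2⟩
  · rintro (h1 | h1)
    · exact ⟨Or.inl h1, h1 ▸ h⟩
    · exact ⟨Or.inr h1.1, h1.2⟩

theorem nb_insert_not {G : SimpleGraph V} {T : Finset V} {v x : V} (h : ¬ G.Adj x v) :
    nb G (insert v T) x = nb G T x := by
  ext u
  simp only [mem_nb, Finset.mem_insert]
  constructor
  · rintro ⟨h1 | h1, h2⟩
    · exact absurd (h1 ▸ h2) h
    · exact ⟨h1, h2⟩
  · rintro ⟨h1, h2⟩
    exact ⟨Or.inr h1, h2⟩

theorem card_nb_insert {G : SimpleGraph V} {T : Finset V} {v x : V} (h : G.Adj x v) (hv : v ∉ T) :
    (nb G (insert v T) x).card = (nb G T x).card + 1 := by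
  rw [nb_insert_adj h, Finset.card_insert_of_notMem (fun h1 => hv (mem_nb.1 h1).1)]

end DExpMAux

open DExpMAux in
theorem dExpM_proof (V : Type) [Fintype V] : DExpM V := by
  intro G t D x h0 h1
  induction D using Finset.induction_on with
  | empty =>
    have h2 : nb G (∅ : Finset V) x = ∅ := by
      ext u; simp [mem_nb]
    rw [bE_empty, h2]
    simp
  | insert v D hv ih =>
    rw [bE_insert t hv]
    by_cases h : G.Adj x v
    · have h2 : bE t D (fun T => Real.exp ((nb G (insert v T) x).card : ℝ)) =
          Real.exp 1 * bE t D (fun T => Real.exp ((nb G T x).card : ℝ)) := by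
        rw [← bE_mul_left]
        refine bE_congr fun T hT => ?_
        rw [card_nb_insert h (fun h3 => hv (hT h3)), ← Real.exp_add]
        congr 1
        push_cast
        ring
      rw [h2, card_nb_insert h hv]
      have h3 : 0 ≤ bE t D (fun T => Real.exp ((nb G T x).card : ℝ)) :=
        bE_nonneg h0 h1 fun T _ => (Real.exp_pos _).le
      have h4 : Real.exp 1 ≤ 3 := by
        have := Real.exp_one_lt_d9
        linarith
      have h5 : t * Real.exp 1 + (1 - t) ≤ Real.exp (2 * t) := by
        have h6 := Real.add_one_le_exp (2 * t)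
        nlinarith
      calc t * (Real.exp 1 * bE t D (fun T => Real.exp ((nb G T x).card : ℝ))) +
            (1 - t) * bE t D (fun T => Real.exp ((nb G T x).card : ℝ))
          = (t * Real.exp 1 + (1 - t)) * bE t D (fun T => Real.exp ((nb G T x).card : ℝ)) := by ring
        _ ≤ Real.exp (2 * t) * Real.exp (2 * t * ((nb G D x).card : ℝ)) :=
            mul_le_mul h5 ih h3 (Real.exp_pos _).le
        _ = Real.exp (2 * t * (((nb G D x).card + 1 : ℕ) : ℝ)) := by
            rw [← Real.exp_add]
            congr 1
            push_cast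
            ring
    · have h2 : bE t D (fun T => Real.exp ((nb G (insert v T) x).card : ℝ)) =
          bE t D (fun T => Real.exp ((nb G T x).card : ℝ)) :=
        bE_congr fun T _ => by rw [nb_insert_not h]
      rw [h2, nb_insert_not h]
      refine le_trans (le_of_eq ?_) ih
      ring

end Pool.Agent.Ex26
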