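import Pool.Agent.Lib.MP_26a019_lc.Ex.DSpec

set_option autoImplicit false
set_option linter.unusedVariables false

/-!
# Part D: the module DField, calculus of a Bernoulli mean
-/

open Finset Classical

namespace Pool.Agent.Ex26

open Pool.Agent.Kempe Pool.Agent.KempeMix Pool.Agent.Eps26

namespace DFieldAux

variable {V : Type} [Fintype V]

/-- the derivative of the Bernoulli mean -/
noncomputable def dE (t : ℝ) (U : Finset V) (F : Finset V → ℝ) : ℝ :=
  ∑ v ∈ U, bE t (U.erase v) (fun T => F (insert v T) - F T)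

theorem dE_insert (t : ℝ) {U : Finset V} {v : V} (hv : v ∉ U) (F : Finset V → ℝ) :
    dE t (insert v U) F = (bE t U (fun T => F (insert v T)) +
      t * dE t U (fun T => F (insert v T))) + (-1 * bE t U F + (1 - t) * dE t U F) := by
  unfold dE
  rw [Finset.sum_insert hv, Finset.erase_insert hv, bE_sub]
  have h : ∀ w ∈ U, bE t ((insert v U).erase w) (fun T => F (insert w T) - F T) =
      t * bE t (U.erase w) (fun T => F (insert v (insert w T)) - F (insert v T)) +
        (1 - t) * bE t (U.erase w) (fun T => F (insert w T) - F T) := by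
    intro w hw
    have hne : v ≠ w := fun h => hv (h ▸ hw)
    rw [Finset.erase_insert_of_ne hne,
      bE_insert t (fun h => hv (Finset.mem_of_mem_erase h))]
    simp only [Finset.insert_comm w v]
  rw [Finset.sum_congr rfl h, Finset.sum_add_distrib, ← Finset.mul_sum, ← Finset.mul_sum]
  ring

theorem hasDerivAt_bE (U : Finset V) (F : Finset V → ℝ) (t : ℝ) :
    HasDerivAt (fun t => bE t U F) (dE t U F) t := by
  induction U using Finset.induction_on generalizing F with
  | empty =>
    have h1 : (fun t : ℝ => bE t (∅ : Finset V) F) = fun _ => F ∅ := by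
      funext t
      exact bE_empty t F
    have h2 : dE t (∅ : Finset V) F = 0 := by
      unfold dE
      simp
    rw [h1, h2]
    exact hasDerivAt_const t (F ∅)
  | insert v U hv ih =>
    have h1 : (fun t : ℝ => bE t (insert v U) F) = fun t =>
        t * bE t U (fun T => F (insert v T)) + (1 - t) * bE t U F := by
      funext t
      exact bE_insert t hv F
    rw [h1, dE_insert t hv]
    have h2 := (hasDerivAt_id' t).mul (ih (fun T => F (insert v T)))
    have h3 := ((hasDerivAt_id' t).const_sub 1).mul (ih F)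
    have h4 := h2.add h3
    refine HasDerivAt.congr_deriv (f := fun t => t * bE t U (fun T => F (insert v T)) +
      (1 - t) * bE t U F) h4 ?_
    ring

theorem bE_diff (U : Finset V) (F : Finset V → ℝ) (t : ℝ) :
    bE t U (fun T => ∑ v ∈ T, (F T - F (T.erase v))) = t * dE t U F := by
  have h1 : bE t U (fun T => ∑ v ∈ T, (F T - F (T.erase v))) =
      bE t U (fun T => ∑ v ∈ U, if v ∈ T then (F (insert v (T.erase v)) - F (T.erase v)) else 0) := by
    apply bE_congr
    intro T hT
    rw [Finset.sum_ite_mem, Finset.inter_eq_right.2 hT]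
    refine Finset.sum_congr rfl fun v hv => ?_
    rw [Finset.insert_erase hv]
  rw [h1, bE_sum]
  unfold dE
  rw [Finset.mul_sum]
  refine Finset.sum_congr rfl fun v hv => ?_
  exact bE_mem t hv (fun T => F (insert v T) - F T)

end DFieldAux

open DFieldAux in
theorem dField_proof (V : Type) [Fintype V] : DField V := by
  intro U F K t ht ht1 hF
  have key : ∀ τ : ℝ, 0 < τ → τ ≤ 1 → τ * dE τ U F ≤ K * bE τ U F := by
    intro τ h0 h1
    rw [← bE_diff, ← bE_mul_left]
    exact bE_mono h0.le h1 hF
  have hder : ∀ τ : ℝ, 0 < τ → HasDerivAt (fun τ => bE τ U F / τ ^ K)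
      ((dE τ U F * τ ^ K - bE τ U F * (K * τ ^ (K - 1))) / (τ ^ K) ^ 2) τ := by
    intro τ h0
    exact (hasDerivAt_bE U F τ).div (hasDerivAt_pow K τ) (pow_pos h0 K).ne'
  have hneg : ∀ τ : ℝ, 0 < τ → τ ≤ 1 →
      (dE τ U F * τ ^ K - bE τ U F * (K * τ ^ (K - 1))) / (τ ^ K) ^ 2 ≤ 0 := by
    intro τ h0 h1
    apply div_nonpos_of_nonpos_of_nonneg _ (sq_nonneg _)
    have h2 : τ * (dE τ U F * τ ^ K - bE τ U F * (K * τ ^ (K - 1))) ≤ 0 := by
      have h3 : (K : ℝ) * τ ^ (K - 1) * τ = K * τ ^ K := by
        rcases K with _ | K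
        · simp
        · rw [Nat.add_sub_cancel, pow_succ]
          ring
      have h4 : τ * (dE τ U F * τ ^ K - bE τ U F * (K * τ ^ (K - 1))) =
          τ ^ K * (τ * dE τ U F - K * bE τ U F) := by
        calc τ * (dE τ U F * τ ^ K - bE τ U F * (K * τ ^ (K - 1)))
            = τ ^ K * (τ * dE τ U F) - bE τ U F * ((K : ℝ) * τ ^ (K - 1) * τ) := by ring
          _ = _ := by rw [h3]; ring
      rw [h4]
      exact mul_nonpos_of_nonneg_of_nonpos (pow_pos h0 K).le (by linarith [key τ h0 h1])
    by_contra hc
    push Not at hc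
    have := mul_pos h0 hc
    linarith
  have hanti : AntitoneOn (fun τ => bE τ U F / τ ^ K) (Set.Icc t 1) := by
    apply antitoneOn_of_deriv_nonpos (convex_Icc t 1)
    · intro τ hτ
      exact (hder τ (ht.trans_le hτ.1)).continuousAt.continuousWithinAt
    · intro τ hτ
      rw [interior_Icc] at hτ
      exact (hder τ (ht.trans hτ.1)).differentiableAt.differentiableWithinAt
    · intro τ hτ
      rw [interior_Icc] at hτ
      rw [(hder τ (ht.trans hτ.1)).deriv]
      exact hneg τ (ht.trans hτ.1) hτ.2.le
  have h5 := hanti (Set.left_mem_Icc.2 ht1) (Set.right_mem_Icc.2 ht1) ht1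
  simp only [one_pow, div_one, bE_one] at h5
  rw [le_div_iff₀ (pow_pos ht K)] at h5
  linarith

end Pool.Agent.Ex26
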