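import Pool.Agent.Lib.MP_26a019_lc.Ex.DMain

/-! Wrapper for the assembly: part D under the name `partD_proof`. -/

namespace Pool.Agent.Ex26

/-- Part D (see `PartD` in `Ex/Top.lean`). -/
theorem partD_proof : PartD := partD

end Pool.Agent.Ex26
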