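import Pool.Agent.Lib.MP_26a019_lc.Ex.DSpec

set_option autoImplicit false

/-!
# Part D, module DFirst: forbidding a colour at the neighbours of a vertex
-/

open Finset Classical

namespace Pool.Agent.Ex26

open Pool.Agent.Kempe Pool.Agent.KempeMix Pool.Agent.Eps26

namespace DFirstAux

/-- the mean over a filter -/
theorem ev_filter {V C : Type} (A : Finset (V → C)) (hA : A.Nonempty) (Q : (V → C) → Prop)
    [DecidablePred Q] (g : (V → C) → ℝ) :
    ev (A.filter Q) g = ev A (fun f => (if Q f then (1 : ℝ) else 0) * g f) /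
      ev A (fun f => if Q f then (1 : ℝ) else 0) := by
  unfold ev
  have hc : (A.card : ℝ) ≠ 0 := by exact_mod_cast (Finset.card_pos.2 hA).ne'
  rw [div_div_div_cancel_right₀ hc]
  have h1 : ∑ f ∈ A, (if Q f then (1 : ℝ) else 0) * g f = ∑ f ∈ A.filter Q, g f := by
    rw [Finset.sum_filter]
    refine Finset.sum_congr rfl fun f _ => ?_
    split_ifs <;> simp
  have h2 : ∑ f ∈ A, (if Q f then (1 : ℝ) else 0) = ((A.filter Q).card : ℝ) := by
    rw [Finset.card_filter]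
    push_cast
    rfl
  rw [h1, h2]

/-- the sum of the bounds -/
theorem sum_bd {V : Type} [Fintype V] (G : SimpleGraph V) (T : Finset V) (s : ℕ) (v : V) (q : ℝ) (hs : 2 ≤ s)
    (hdeg : ∀ w ∈ T, 8 * (nb G T w).card ≤ s) (hv : ((nb G T v).card : ℝ) ≤ q) (δ : V → ℝ)
    (h0 : ∀ w, 0 ≤ δ w)
    (h : ∀ w ∈ T, δ w ≤ (if G.Adj w v then (1 : ℝ) else 0) + 2 / (s : ℝ) * ∑ x ∈ nb G T w, δ x) :
    ∑ w ∈ T, δ w ≤ 2 * q := by
  have hs0 : (0 : ℝ) < s := by
    have : 0 < s := by omega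
    exact_mod_cast this
  have h1 : ∑ w ∈ T, δ w ≤ ∑ w ∈ T, ((if G.Adj w v then (1 : ℝ) else 0) +
      2 / (s : ℝ) * ∑ x ∈ nb G T w, δ x) := Finset.sum_le_sum h
  rw [Finset.sum_add_distrib, ← Finset.mul_sum] at h1
  have h2 : ∑ w ∈ T, (if G.Adj w v then (1 : ℝ) else 0) = ((nb G T v).card : ℝ) := by
    unfold nb
    rw [Finset.card_filter]
    push_cast
    refine Finset.sum_congr rfl fun w _ => ?_
    by_cases hw : G.Adj w v
    · rw [if_pos hw, if_pos hw.symm]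
    · rw [if_neg hw, if_neg fun h' => hw h'.symm]
  have h3 : ∑ w ∈ T, ∑ x ∈ nb G T w, δ x ≤ (s : ℝ) / 8 * ∑ w ∈ T, δ w := by
    rw [sum_nb_comm G T (fun _ x => δ x), Finset.mul_sum]
    refine Finset.sum_le_sum fun w hw => ?_
    rw [Finset.sum_const, nsmul_eq_mul]
    have h4 : (8 : ℝ) * ((nb G T w).card : ℝ) ≤ s := by exact_mod_cast hdeg w hw
    exact mul_le_mul_of_nonneg_right (by linarith) (h0 w)
  have h5 : 2 / (s : ℝ) * ∑ w ∈ T, ∑ x ∈ nb G T w, δ x ≤ 1 / 4 * ∑ w ∈ T, δ w := by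
    calc 2 / (s : ℝ) * ∑ w ∈ T, ∑ x ∈ nb G T w, δ x
        ≤ 2 / (s : ℝ) * ((s : ℝ) / 8 * ∑ w ∈ T, δ w) :=
          mul_le_mul_of_nonneg_left h3 (by positivity)
      _ = 1 / 4 * ∑ w ∈ T, δ w := by
          field_simp
          ring
  rw [h2] at h1
  have h6 : 0 ≤ ∑ w ∈ T, δ w := Finset.sum_nonneg fun w _ => h0 w
  have h7 : (0 : ℝ) ≤ ((nb G T v).card : ℝ) := Nat.cast_nonneg _
  linarith

end DFirstAux

open DFirstAux in
theorem dFirst_of {V C : Type} [Fintype V] [Fintype C] (h1 : DCov V C) (h2 : DAvoid V C) :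
    DFirst V C := by
  intro G T L p s P c0 v b J hG hP hdeg hv hc0 hc0' hJ g
  obtain ⟨A, hA⟩ : ∃ A, A = Col G T L p := ⟨_, rfl⟩
  have hAne : A.Nonempty := by rw [hA]; exact Col_nonempty hG p
  obtain ⟨Y, hY⟩ : ∃ Y : (V → C) → ℝ, Y = fun f => if ∀ u ∈ nb G T v, f u ≠ b then (1 : ℝ) else 0 :=
    ⟨_, rfl⟩
  have hYb : ∀ w ∈ T, ∀ f ∈ Col G T L p, ∀ f' ∈ Col G T L p, (∀ u, u ≠ w → f u = f' u) →
      |Y f - Y f'| ≤ (if G.Adj w v then (1 : ℝ) else 0) := by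
    intro w _ f _ f' _ hff
    rw [hY]
    by_cases hw : G.Adj w v
    · rw [if_pos hw]
      simp only
      split_ifs <;> norm_num
    · rw [if_neg hw]
      have h3 : (∀ u ∈ nb G T v, f u ≠ b) ↔ ∀ u ∈ nb G T v, f' u ≠ b := by
        refine forall₂_congr fun u hu => ?_
        have hne : u ≠ w := by
          rintro rfl
          exact hw (mem_nb.1 hu).2.symm
        rw [hff u hne]
      simp only [h3, sub_self, abs_zero, le_refl]
  obtain ⟨δ, hδ0, hδ, hcov⟩ := h1 G T L p s P hG hP Y (fun w => if G.Adj w v then (1 : ℝ) else 0) hYb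
  have hδJ := hJ δ hδ0 hδ
  have hS : ∑ w ∈ T, δ w ≤ 2 * (Fintype.card C : ℝ) :=
    sum_bd G T s v _ hG.1 hdeg (by exact_mod_cast hv) δ hδ0 hδ
  have hs2 : (2 : ℝ) ≤ s := by exact_mod_cast hG.1
  have hs01 : 0 ≤ 1 - 1 / (s : ℝ) := by
    have : 1 / (s : ℝ) ≤ 1 := by
      rw [div_le_one (by linarith)]
      linarith
    linarith
  have hs11 : 1 - 1 / (s : ℝ) ≤ 1 := by
    have : 0 ≤ 1 / (s : ℝ) := by positivity
    linarith
  have hEY : c0 ≤ ev A Y := by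
    rw [hA, hY]
    refine hc0'.trans (le_trans ?_ (h2 G T L p s hG (nb G T v) b (nb_subset G T v)))
    exact pow_le_pow_of_le_one hs01 hs11 hv
  have hEYp : 0 < ev A Y := lt_of_lt_of_le hc0 hEY
  have hcov' := hcov g
  rw [← hA] at hcov'
  have hfil : ev (A.filter (fun f => ∀ u ∈ nb G T v, f u ≠ b)) g =
      ev A (fun f => Y f * g f) / ev A Y := by
    rw [hY]
    exact ev_filter A hAne (fun f => ∀ u ∈ nb G T v, f u ≠ b) g
  rw [← hA, hfil]
  have he : ∀ w, 0 ≤ ev A (fun f => (g f - hb G T L w g f) ^ 2) := fun w =>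
    ev_nonneg A fun f _ => sq_nonneg _
  have hsum : ∑ w ∈ T, δ w * ev A (fun f => (g f - hb G T L w g f) ^ 2) ≤
      ∑ w ∈ T, J w * ev A (fun f => (g f - hb G T L w g f) ^ 2) :=
    Finset.sum_le_sum fun w hw => mul_le_mul_of_nonneg_right (hδJ w hw) (he w)
  have hsum0 : 0 ≤ ∑ w ∈ T, δ w * ev A (fun f => (g f - hb G T L w g f) ^ 2) :=
    Finset.sum_nonneg fun w _ => mul_nonneg (hδ0 w) (he w)
  have hq : (0 : ℝ) ≤ 2 * (Fintype.card C : ℝ) := by positivity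
  have e1 : (ev A (fun f => Y f * g f) / ev A Y - ev A g) ^ 2 =
      (ev A (fun f => Y f * g f) - ev A Y * ev A g) ^ 2 / (ev A Y) ^ 2 := by
    field_simp
  rw [e1]
  calc (ev A (fun f => Y f * g f) - ev A Y * ev A g) ^ 2 / (ev A Y) ^ 2
      ≤ (ev A (fun f => Y f * g f) - ev A Y * ev A g) ^ 2 / c0 ^ 2 :=
        div_le_div_of_nonneg_left (sq_nonneg _) (by positivity)
          (pow_le_pow_left₀ hc0.le hEY 2)
    _ ≤ (2 * (Fintype.card C : ℝ) * ∑ w ∈ T, J w * ev A (fun f => (g f - hb G T L w g f) ^ 2)) /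
        c0 ^ 2 := by
        refine div_le_div_of_nonneg_right (hcov'.trans ?_) (by positivity)
        exact mul_le_mul hS hsum hsum0 hq
    _ = 2 * (Fintype.card C : ℝ) / c0 ^ 2 *
        ∑ w ∈ T, J w * ev A (fun f => (g f - hb G T L w g f) ^ 2) := by ring

end Pool.Agent.Ex26
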