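import Pool.Agent.Lib.MP_26a019_lc.Ex.DSpec

set_option autoImplicit false

/-!
# Part D: the inequality for a fixed set `T`
-/

open Finset Classical

namespace Pool.Agent.Ex26

open Pool.Agent.Kempe Pool.Agent.KempeMix Pool.Agent.Eps26

namespace DFixAux

variable {V C : Type} [Fintype V] [Fintype C]

/-- `saw` is linear in `F` -/
theorem saw_sum (G : SimpleGraph V) (th : ℝ) (B : Finset V) (F : V → V → ℝ) :
    ∀ (n : ℕ) (Λ : Finset V) (x : V),
      saw G th (fun x => ∑ v ∈ B, F v x) n Λ x = ∑ v ∈ B, saw G th (F v) n Λ x := by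
  intro n
  induction n with
  | zero => intro Λ x; simp [saw]
  | succ n ih =>
    intro Λ x
    simp only [saw]
    rw [← Finset.mul_sum, Finset.sum_add_distrib, ← Finset.mul_sum, Finset.sum_comm]
    congr 2
    congr 1
    exact Finset.sum_congr rfl fun y _ => ih _ _

theorem card_nb_eq (G : SimpleGraph V) (B : Finset V) (x : V) :
    ((nb G B x).card : ℝ) = ∑ v ∈ B, if G.Adj x v then (1 : ℝ) else 0 := by
  unfold nb
  rw [Finset.card_filter]
  push_cast
  rfl

/-- conditional expectations do not depend on the colour of a vertex of `T` -/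
theorem ind_cE (A : Finset (V → C)) (T : Finset V) (g : (V → C) → ℝ) {v : V} (hv : v ∈ T) :
    Ind v (cE A Tᶜ g) := by
  intro f c
  have h1 : cls A Tᶜ (Function.update f v c) = cls A Tᶜ f := by
    unfold cls
    apply Finset.filter_congr
    intro f' _
    refine forall_congr' fun u => forall_congr' fun hu => ?_
    have h2 : u ≠ v := by
      rintro rfl
      exact (Finset.mem_compl.1 hu) hv
    rw [Function.update_of_ne h2]
  unfold cE
  rw [h1]

theorem jbd (h4 : DSaw V) (G : SimpleGraph V) {s : ℕ} (hs : 4 ≤ s) {T' : Finset V}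
    (hdeg : ∀ w ∈ T', 8 * (nb G T' w).card ≤ s) (v : V) :
    JBd G s T' v (fun w => saw G (2 / (s : ℝ)) (fun x => if G.Adj x v then (1 : ℝ) else 0)
      (Fintype.card V) T' w) := by
  intro δ hδ hin w hw
  have hs' : (4 : ℝ) ≤ s := by exact_mod_cast hs
  have hs0 : (0 : ℝ) < s := by linarith
  refine h4 G (2 / (s : ℝ)) ((s : ℝ) / 8) (Fintype.card V) T'
    (fun x => if G.Adj x v then (1 : ℝ) else 0) δ (by positivity) ?_ ?_ ?_ ?_ hδ
    (Finset.card_le_univ _) hin w hw
  · rw [div_le_iff₀ hs0]; linarith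
  · apply le_of_eq
    field_simp
    norm_num
  · intro x hx
    have h1 := hdeg x hx
    have h2 : (8 : ℝ) * ((nb G T' x).card : ℝ) ≤ s := by exact_mod_cast h1
    linarith
  · intro x
    beta_reduce
    split_ifs <;> norm_num

end DFixAux

open DFixAux in
theorem dFix_of {V C : Type} [Fintype V] [Fintype C] (h1 : DPyth V C) (h2 : DPin V C)
    (h3 : DLow V C) (h4 : DSaw V) (h5 : DSite V C) : DFix V C := by
  intro G U L p s T P c0 hG hs hT hP hPoin hc0 hcs g e he
  obtain ⟨A, hA⟩ : ∃ A, A = Col G U L p := ⟨_, rfl⟩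
  rw [← hA] at hPoin he ⊢
  have hAne : A.Nonempty := hA ▸ Col_nonempty hG p
  have hAc : (0 : ℝ) < (A.card : ℝ) := by exact_mod_cast Finset.card_pos.2 hAne
  obtain ⟨T', hT'⟩ : ∃ T', T' = T \ Bad G s T := ⟨_, rfl⟩
  have hT'T : T' ⊆ T := hT' ▸ Finset.sdiff_subset
  have hBT : Bad G s T ⊆ T := Finset.filter_subset _ _
  have hdeg : ∀ w ∈ T', 8 * (nb G T' w).card ≤ s := by
    intro w hw
    have h6 : (nb G T' w).card ≤ (nb G T w).card := Finset.card_le_card (nb_mono hT'T w)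
    rw [hT', Finset.mem_sdiff] at hw
    by_contra hcon
    exact hw.2 (Finset.mem_filter.2 ⟨hw.1, by omega⟩)
  have hT'U : T' ⊆ U := hT'T.trans hT
  have he0 : ∀ v, 0 ≤ e v := fun v => by
    rw [he v]; exact ev_nonneg A fun f _ => sq_nonneg _
  -- sums and means
  have hsum : ∀ (F : (V → C) → ℝ), ∑ f ∈ A, F f = (A.card : ℝ) * ev A F := by
    intro F
    unfold ev
    field_simp
  -- first part
  have hfirst : aa A g T'ᶜ ≤ 2 * ∑ v ∈ T', (A.card : ℝ) * e v := by
    have h6 := h2 G U L p s T' 2 hG hT'U (fun f hf => by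
      obtain ⟨-, hgood, -, -⟩ := bridge_proof V C G U L p s T' f hG hT'U hf
      exact h3 G T' (fun u => avX G U L T' f u) f s P hgood hdeg (hPoin T' hT'T f (hA ▸ hf))) g
    rw [← hA] at h6
    refine h6.trans (le_of_eq ?_)
    congr 1
    refine Finset.sum_congr rfl fun v _ => ?_
    rw [hsum, he v]
  -- second part
  obtain ⟨h, hh⟩ : ∃ h, h = cE A T'ᶜ g := ⟨_, rfl⟩
  obtain ⟨J, hJ⟩ : ∃ J : V → V → ℝ, J = fun v w => saw G (2 / (s : ℝ))
      (fun x => if G.Adj x v then (1 : ℝ) else 0) (Fintype.card V) T' w := ⟨_, rfl⟩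
  obtain ⟨K, hK⟩ : ∃ K, K = 12 * (Fintype.card C : ℝ) / c0 ^ 2 := ⟨_, rfl⟩
  have hsecond : aa A h Tᶜ ≤ P * ∑ v ∈ Bad G s T, (A.card : ℝ) *
      (K * (e v + ∑ w ∈ T', J v w * e w)) := by
    have h6 := h2 G U L p s T P hG hT (fun f hf => hPoin T (Finset.Subset.refl _) f (hA ▸ hf)) h
    rw [← hA] at h6
    refine h6.trans (mul_le_mul_of_nonneg_left ?_ hP)
    rw [← Finset.sum_sdiff hBT, ← hT']
    have h7 : ∑ v ∈ T', ∑ f ∈ A, (h f - hb G U L v h f) ^ 2 = 0 := by
      refine Finset.sum_eq_zero fun v hv => Finset.sum_eq_zero fun f _ => ?_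
      rw [hb_ind hG (hT'U hv) (hh ▸ ind_cE A T' g hv) f, sub_self]
      norm_num
    rw [h7, zero_add]
    refine Finset.sum_le_sum fun v hv => ?_
    rw [hsum]
    refine mul_le_mul_of_nonneg_left ?_ hAc.le
    have hvT' : v ∉ T' := by
      rw [hT', Finset.mem_sdiff]
      exact fun h8 => h8.2 hv
    have h8 := h5 G U L p s T' P c0 v (J v) hG hT'U (hT (hBT hv)) hvT' hdeg
      (fun f hf => hPoin T' hT'T f (hA ▸ hf)) hc0 hcs (hJ ▸ jbd h4 G hs hdeg v) g
    rw [← hA, ← hh, ← hK] at h8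
    refine h8.trans (le_of_eq ?_)
    rw [he v]
    congr 2
    refine Finset.sum_congr rfl fun w _ => ?_
    rw [he w]
  have hpyth := h1 A T T' g hT'T
  rw [← hh] at hpyth
  -- the sum of the `J v`
  have hJsum : ∀ w, ∑ v ∈ Bad G s T, J v w =
      saw G (2 / (s : ℝ)) (fun x => ((nb G (Bad G s T) x).card : ℝ)) (Fintype.card V) T' w := by
    intro w
    rw [hJ]
    beta_reduce
    rw [← saw_sum G (2 / (s : ℝ)) (Bad G s T) (fun v x => if G.Adj x v then (1 : ℝ) else 0)]
    congr 1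
    funext x
    exact (card_nb_eq G _ x).symm
  have hfin : ∑ v ∈ Bad G s T, (K * (e v + ∑ w ∈ T', J v w * e w)) =
      K * (∑ v ∈ Bad G s T, e v + ∑ w ∈ T',
        saw G (2 / (s : ℝ)) (fun x => ((nb G (Bad G s T) x).card : ℝ)) (Fintype.card V) T' w *
          e w) := by
    rw [← Finset.mul_sum, Finset.sum_add_distrib, Finset.sum_comm]
    congr 2
    refine Finset.sum_congr rfl fun w _ => ?_
    rw [← Finset.sum_mul, hJsum w]
  rw [div_le_iff₀ hAc, hpyth, ← hT', ← hK]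
  have h9 : ∑ v ∈ T', e v ≤ ∑ v ∈ T, e v :=
    Finset.sum_le_sum_of_subset_of_nonneg hT'T fun v _ _ => he0 v
  rw [← Finset.mul_sum] at hfirst hsecond
  rw [hfin] at hsecond
  have h10 := mul_le_mul_of_nonneg_left h9 hAc.le
  refine (add_le_add hfirst hsecond).trans ?_
  calc 2 * ((A.card : ℝ) * ∑ v ∈ T', e v) + P * ((A.card : ℝ) * (K * (∑ v ∈ Bad G s T, e v +
        ∑ w ∈ T', saw G (2 / (s : ℝ)) (fun x => ((nb G (Bad G s T) x).card : ℝ))
          (Fintype.card V) T' w * e w)))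
      ≤ 2 * ((A.card : ℝ) * ∑ v ∈ T, e v) + P * ((A.card : ℝ) * (K * (∑ v ∈ Bad G s T, e v +
        ∑ w ∈ T', saw G (2 / (s : ℝ)) (fun x => ((nb G (Bad G s T) x).card : ℝ))
          (Fintype.card V) T' w * e w))) := by linarith
    _ = _ := by ring

end Pool.Agent.Ex26
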