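import Pool.Agent.Lib.MP_26a019_lc.Ex.DSpec

set_option autoImplicit false
set_option linter.unusedVariables false

/-!
# DHyp: the hypothesis of the field dynamics inequality from spectral independence
-/

open Finset Classical

namespace Pool.Agent.Ex26

open Pool.Agent.Kempe Pool.Agent.KempeMix Pool.Agent.Eps26

namespace DHypAux

variable {V C : Type} [Fintype V] [Fintype C]

/-- the variance bound for additive functions, in the form needed by `dual` -/
theorem six_dual {G : SimpleGraph V} {T : Finset V} {L : V → Finset C} {p : V → C} {K : ℝ}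
    (hne : (Col G T L p).Nonempty) (h : SIx G T L p K) (k : V → C → ℝ) :
    vr (Col G T L p) (fun f => ∑ v ∈ T, k v (f v)) ≤
      K * ∑ v ∈ T, vr (Col G T L p) (fun f => k v (f v)) := by
  have h1 := h (fun v c => k v c - ev (Col G T L p) (fun f => k v (f v)))
  have e1 : vr (Col G T L p)
      (FF T (fun v c => k v c - ev (Col G T L p) (fun f => k v (f v)))) =
      vr (Col G T L p) (fun f => ∑ v ∈ T, k v (f v)) := by
    rw [← vr_add_const hne (fun f => ∑ v ∈ T, k v (f v))
      (-∑ v ∈ T, ev (Col G T L p) (fun f => k v (f v)))]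
    refine vr_congr _ fun f _ => ?_
    unfold FF
    rw [Finset.sum_sub_distrib]
    ring
  have e2 : nrm (Col G T L p) T
      (fun v c => k v c - ev (Col G T L p) (fun f => k v (f v))) =
      ∑ v ∈ T, vr (Col G T L p) (fun f => k v (f v)) := by
    unfold nrm
    refine Finset.sum_congr rfl fun v _ => ?_
    unfold vr
    exact (ev_single (Col G T L p) v
      (fun c => (k v c - ev (Col G T L p) (fun f => k v (f v))) ^ 2)).symm
  rw [e1, e2] at h1
  exact h1

end DHypAux

theorem dHyp_proof (V C : Type) [Fintype V] [Fintype C] : DHyp V C := by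
  intro G U L p s T K hG hT hK hSI g
  have e1 : ∑ v ∈ T, (aa (Col G U L p) g Tᶜ - aa (Col G U L p) g (T.erase v)ᶜ) =
      ∑ f ∈ Col G U L p, ∑ v ∈ T, vr (cls (Col G U L p) Tᶜ f)
        (fun f' => ev ((cls (Col G U L p) Tᶜ f).filter (fun f'' => f'' v = f' v)) g) := by
    have h1 : ∀ v ∈ T, aa (Col G U L p) g Tᶜ - aa (Col G U L p) g (T.erase v)ᶜ =
        ∑ f ∈ Col G U L p, vr (cls (Col G U L p) Tᶜ f)
          (fun f' => ev ((cls (Col G U L p) Tᶜ f).filter (fun f'' => f'' v = f' v)) g) := by
      intro v hv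
      have hc : (T.erase v)ᶜ = insert v Tᶜ := by
        ext x
        simp only [Finset.mem_compl, Finset.mem_erase, Finset.mem_insert]
        tauto
      rw [hc, aa_insert (Col G U L p) g Tᶜ v, cE_insert_sq]
      ring
    rw [Finset.sum_congr rfl h1, Finset.sum_comm]
  rw [e1, aa_eq, Finset.mul_sum]
  refine Finset.sum_le_sum fun f hf => ?_
  obtain ⟨b1, b2, -, -⟩ := bridge_proof V C G U L p s T f hG hT hf
  rw [b1]
  exact dual _ T K hK (fun k => DHypAux.six_dual (Col_nonempty b2 f) (hSI f hf) k) g

end Pool.Agent.Ex26
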