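import Pool.Agent.Lib.MP_26a019_lc.Ex.DSpec

set_option autoImplicit false
set_option linter.unusedVariables false
set_option linter.unusedSectionVars false

/-!
# Module `DLow`: small degrees, Poincaré constant 2
-/

open Finset Classical

namespace Pool.Agent.Ex26

open Pool.Agent.Kempe Pool.Agent.KempeMix Pool.Agent.Eps26

namespace DLowAux

variable {V C : Type} [Fintype V] [Fintype C]

/-- indicator of a configuration -/
noncomputable def dl (y : V → C) (h : V → C) : ℝ := if h = y then 1 else 0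

theorem dl_comm (x y : V → C) : dl x y = dl y x := by
  unfold dl
  by_cases h : y = x
  · rw [if_pos h, if_pos h.symm]
  · rw [if_neg h, if_neg fun h' => h h'.symm]

theorem sum_dl {A : Finset (V → C)} {h : V → C} (hA : h ∈ A) (g : (V → C) → ℝ) :
    ∑ y ∈ A, dl y h * g y = g h := by
  rw [Finset.sum_eq_single h]
  · unfold dl; rw [if_pos rfl, one_mul]
  · intro y _ hy
    unfold dl; rw [if_neg (Ne.symm hy), zero_mul]
  · intro h'; exact absurd hA h'

theorem ev_dl {A : Finset (V → C)} {x : V → C} (hx : x ∈ A) (F : (V → C) → ℝ) :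
    ev A (fun f => dl x f * F f) = F x / (A.card : ℝ) := by
  unfold ev
  congr 1
  rw [← sum_dl hx F]
  exact Finset.sum_congr rfl fun y _ => by rw [dl_comm]

theorem hb_sum {G : SimpleGraph V} {U : Finset V} {L : V → Finset C} {p f : V → C}
    (hf : f ∈ Col G U L p) {w : V} (hw : w ∈ U) (g : (V → C) → ℝ) :
    ∑ y ∈ Col G U L p, hb G U L w (dl y) f * g y = hb G U L w g f := by
  unfold hb
  have h1 : ∀ y ∈ Col G U L p, (∑ c ∈ av G U L f w, dl y (Function.update f w c)) /
      ((av G U L f w).card : ℝ) * g y =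
      (∑ c ∈ av G U L f w, dl y (Function.update f w c) * g y) / ((av G U L f w).card : ℝ) := by
    intro y _
    rw [← Finset.sum_mul]
    ring
  rw [Finset.sum_congr rfl h1, ← Finset.sum_div, Finset.sum_comm]
  congr 1
  exact Finset.sum_congr rfl fun c hc => sum_dl (update_mem hf hw hc) g

theorem gen_sum {G : SimpleGraph V} {U : Finset V} {L : V → Finset C} {p f : V → C}
    (hf : f ∈ Col G U L p) (g : (V → C) → ℝ) :
    ∑ y ∈ Col G U L p, gen G U L (dl y) f * g y = gen G U L g f := by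
  unfold gen
  have h1 : ∀ y ∈ Col G U L p, (∑ x ∈ U, (dl y f - hb G U L x (dl y) f)) * g y =
      ∑ x ∈ U, (dl y f * g y - hb G U L x (dl y) f * g y) := by
    intro y _
    rw [Finset.sum_mul]
    exact Finset.sum_congr rfl fun x _ => by ring
  rw [Finset.sum_congr rfl h1, Finset.sum_comm]
  refine Finset.sum_congr rfl fun x hx => ?_
  rw [Finset.sum_sub_distrib, sum_dl hf, hb_sum hf hx]

theorem gen_symm {G : SimpleGraph V} {U : Finset V} {L : V → Finset C} {p x y : V → C}
    (hx : x ∈ Col G U L p) (hy : y ∈ Col G U L p) :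
    gen G U L (dl y) x = gen G U L (dl x) y := by
  unfold gen
  refine Finset.sum_congr rfl fun w hw => ?_
  rw [dl_comm y x]
  congr 1
  have h1 := ev_mul_hb (G := G) (L := L) p hw (dl x) (dl y)
  rw [ev_dl hx] at h1
  have h2 : ev (Col G U L p) (fun f => hb G U L w (dl x) f * dl y f) =
      hb G U L w (dl x) y / ((Col G U L p).card : ℝ) := by
    rw [← ev_dl hy]
    exact ev_congr _ fun f _ => mul_comm _ _
  rw [h2] at h1
  have h3 : ((Col G U L p).card : ℝ) ≠ 0 := by
    exact_mod_cast (Finset.card_pos.2 ⟨x, hx⟩).ne'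
  exact (div_left_inj' h3).1 h1

theorem ev_gen {G : SimpleGraph V} {U : Finset V} {L : V → Finset C} {s : ℕ}
    (hG : Good G U L s) (p : V → C) (g : (V → C) → ℝ) :
    ev (Col G U L p) (fun f => g f * gen G U L g f) = dir G U L p g := by
  unfold gen dir
  have h1 : ∀ f ∈ Col G U L p, g f * ∑ x ∈ U, (g f - hb G U L x g f) =
      ∑ x ∈ U, g f * (g f - hb G U L x g f) := fun f _ => Finset.mul_sum _ _ _
  rw [ev_congr _ h1, ev_sum]
  refine Finset.sum_congr rfl fun w hw => ?_
  have h0 := ev_ind_mul hG p hw (ind_hb G U L w g) g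
  have e1 : ev (Col G U L p) (fun f => g f * (g f - hb G U L w g f)) =
      ev (Col G U L p) (fun f => g f * g f) -
        ev (Col G U L p) (fun f => g f * hb G U L w g f) := by
    rw [← ev_sub]
    exact ev_congr _ fun f _ => by ring
  have e2 : ev (Col G U L p) (fun f => (g f - hb G U L w g f) ^ 2) =
      ev (Col G U L p) (fun f => g f * g f) -
        2 * ev (Col G U L p) (fun f => g f * hb G U L w g f) +
        ev (Col G U L p) (fun f => hb G U L w g f * hb G U L w g f) := by
    rw [← ev_mul_left, ← ev_sub, ← ev_add]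
    exact ev_congr _ fun f _ => by ring
  rw [e1, e2]
  linarith

theorem dir_sub_const {G : SimpleGraph V} {U : Finset V} {L : V → Finset C} {s : ℕ}
    (hG : Good G U L s) (p : V → C) (g : (V → C) → ℝ) (c : ℝ) :
    dir G U L p (fun f => g f - c) = dir G U L p g := by
  unfold dir
  refine Finset.sum_congr rfl fun w hw => ev_congr _ fun f _ => ?_
  have h1 : hb G U L w (fun f => g f - c) f = hb G U L w g f - c := by
    have h2 := hb_add G U L w (fun f => g f) (fun _ => -c) f
    rw [hb_ind hG hw (φ := fun _ => -c) (fun _ _ => rfl) f] at h2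
    simpa only [sub_eq_add_neg] using h2
  rw [h1]
  ring

/-- a function with oscillation zero at all vertices of `U` is constant -/
theorem const_of_osc {G : SimpleGraph V} {U : Finset V} {L : V → Finset C} {p : V → C} {s : ℕ}
    {P : ℝ} (hG : Good G U L s) (hP : Poin G U L p P) (ψ : (V → C) → ℝ)
    (h : ∀ w ∈ U, osc (Col G U L p) w ψ = 0) :
    ∀ f ∈ Col G U L p, ∀ f' ∈ Col G U L p, ψ f = ψ f' := by
  have h1 : ∀ w ∈ U, ∀ f ∈ Col G U L p, hb G U L w ψ f = ψ f := by
    intro w hw f hf
    have h2 : ∀ c ∈ av G U L f w, ψ (Function.update f w c) = ψ f := by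
      intro c hc
      have h3 := le_osc (w := w) ψ (update_mem hf hw hc) hf
        (fun u hu => Function.update_of_ne hu _ _)
      rw [h w hw] at h3
      have h4 := abs_eq_zero.1 (le_antisymm h3 (abs_nonneg _))
      linarith
    unfold hb
    rw [Finset.sum_congr rfl h2, Finset.sum_const, nsmul_eq_mul]
    have := (av_pos hG hw f).ne'
    field_simp
  have h2 : dir G U L p ψ = 0 := by
    unfold dir
    refine Finset.sum_eq_zero fun w hw => ?_
    rw [ev_congr (h := fun _ => (0 : ℝ)) _ (fun f hf => by rw [h1 w hw f hf]; ring)]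
    unfold ev
    simp
  have h3 := hP ψ
  rw [h2, mul_zero] at h3
  have h4 : vr (Col G U L p) ψ = 0 := le_antisymm h3 (vr_nonneg _ _)
  have hne : (Col G U L p).Nonempty := Col_nonempty hG p
  have hcard : ((Col G U L p).card : ℝ) ≠ 0 := by
    exact_mod_cast (Finset.card_pos.2 hne).ne'
  unfold vr at h4
  have h5 : ∑ f ∈ Col G U L p, (ψ f - ev (Col G U L p) ψ) ^ 2 = 0 := by
    unfold ev at h4 ⊢
    rcases div_eq_zero_iff.1 h4 with h6 | h6
    · exact h6
    · exact absurd h6 hcard
  have h6 := (Finset.sum_eq_zero_iff_of_nonneg (fun f _ => sq_nonneg _)).1 h5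
  have h7 : ∀ f ∈ Col G U L p, ψ f = ev (Col G U L p) ψ := fun f hf => by
    have := pow_eq_zero_iff (two_ne_zero) |>.1 (h6 f hf)
    linarith
  intro f hf f' hf'
  rw [h7 f hf, h7 f' hf']

/-- eigenfunctions with small eigenvalue are constant -/
theorem eig {G : SimpleGraph V} {U : Finset V} {L : V → Finset C} {p : V → C} {s : ℕ} {P : ℝ}
    (h1 : DMax V C) (hG : Good G U L s) (hd : ∀ w ∈ U, 8 * (nb G U w).card ≤ s)
    (hP : Poin G U L p P) (ψ : (V → C) → ℝ) (lam : ℝ)
    (he : ∀ f ∈ Col G U L p, gen G U L ψ f = lam * ψ f) (h0 : 0 ≤ lam) (hl : lam < 3 / 4) :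
    ∀ f ∈ Col G U L p, ∀ f' ∈ Col G U L p, ψ f = ψ f' := by
  refine const_of_osc hG hP ψ ?_
  rcases U.eq_empty_or_nonempty with rfl | hne
  · intro w hw; exact absurd hw (Finset.notMem_empty w)
  obtain ⟨w0, hw0, hmax⟩ := Finset.exists_max_image U (fun w => osc (Col G U L p) w ψ) hne
  set D := osc (Col G U L p) w0 ψ with hD
  have hD0 : 0 ≤ D := osc_nonneg _ _ _
  have h2 := h1 G U L p s ψ w0 (lam * D) hG hw0 (fun f hf f' hf' hff => by
    rw [he f hf, he f' hf', ← mul_sub, abs_mul, abs_of_nonneg h0]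
    exact mul_le_mul_of_nonneg_left (le_osc ψ hf hf' hff) h0)
  have h3 : ∑ x ∈ nb G U w0, osc (Col G U L p) x ψ ≤ ((nb G U w0).card : ℝ) * D := by
    rw [← nsmul_eq_mul]
    exact Finset.sum_le_card_nsmul _ _ _ fun x hx => hmax x (nb_subset G U w0 hx)
  have hs : (0 : ℝ) < s := by have := hG.1; exact_mod_cast (by omega : 0 < s)
  have h4 : 8 * ((nb G U w0).card : ℝ) ≤ s := by exact_mod_cast hd w0 hw0
  have h5 : 2 / (s : ℝ) * ∑ x ∈ nb G U w0, osc (Col G U L p) x ψ ≤ D / 4 := by
    have h6 : 2 / (s : ℝ) * ∑ x ∈ nb G U w0, osc (Col G U L p) x ψ ≤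
        2 / (s : ℝ) * (((nb G U w0).card : ℝ) * D) :=
      mul_le_mul_of_nonneg_left h3 (by positivity)
    refine h6.trans ?_
    have h7 : 2 / (s : ℝ) * (((nb G U w0).card : ℝ) * D) =
        (8 * ((nb G U w0).card : ℝ)) * D / (4 * s) := by
      field_simp
      ring
    rw [h7, div_le_div_iff₀ (by positivity) (by norm_num)]
    have h8 : (8 * ((nb G U w0).card : ℝ)) * D ≤ s * D := mul_le_mul_of_nonneg_right h4 hD0
    linarith
  have h6 : D ≤ 0 := by
    by_contra hcon
    push Not at hcon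
    have h7 : lam * D < 3 / 4 * D := mul_lt_mul_of_pos_right hl hcon
    linarith
  intro w hw
  exact le_antisymm ((hmax w hw).trans h6) (osc_nonneg _ _ _)

end DLowAux

open DLowAux in
theorem dLow_of {V C : Type} [Fintype V] [Fintype C] (h1 : DMax V C) (h2 : DEig) : DLow V C := by
  intro G U L p s P hG hd hP g
  set A := Col G U L p with hA
  have hne : A.Nonempty := Col_nonempty hG p
  have hcard : (0 : ℝ) < (A.card : ℝ) := by exact_mod_cast Finset.card_pos.2 hne
  have hap : ∀ (x : A) (h : (V → C) → ℝ),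
      ∑ y : A, gen G U L (dl y.1) x.1 * h y.1 = gen G U L h x.1 := by
    intro x h
    rw [Finset.sum_coe_sort A (fun y => gen G U L (dl y) x.1 * h y)]
    exact gen_sum x.2 h
  have hq : ∀ h : (V → C) → ℝ,
      ∑ x : A, h x.1 * ∑ y : A, gen G U L (dl y.1) x.1 * h y.1 =
        (A.card : ℝ) * dir G U L p h := by
    intro h
    rw [← ev_gen hG p h]
    have e1 : ∑ x : A, h x.1 * ∑ y : A, gen G U L (dl y.1) x.1 * h y.1 =
        ∑ x : A, h x.1 * gen G U L h x.1 :=
      Finset.sum_congr rfl fun x _ => by rw [hap x h]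
    rw [e1, Finset.sum_coe_sort A (fun x => h x * gen G U L h x)]
    unfold ev
    rw [← hA]
    field_simp
  have hext : ∀ ψ : A → ℝ, ∃ ψ' : (V → C) → ℝ, ∀ x : A, ψ' x.1 = ψ x := by
    intro ψ
    refine ⟨fun f => if h : f ∈ A then ψ ⟨f, h⟩ else 0, fun x => ?_⟩
    simp only [x.2, dif_pos]
  have hmain := h2 A (fun x y => gen G U L (dl y.1) x.1) (3 / 4)
    (fun x y => gen_symm x.2 y.2)
    (fun u => by
      obtain ⟨ψ', hψ⟩ := hext u
      have h3 := hq ψ'
      simp only [hψ] at h3
      rw [h3]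
      exact mul_nonneg hcard.le (Eps26.dir_nonneg G U L p ψ'))
    (fun ψ lam he h0 hl x y => by
      obtain ⟨ψ', hψ⟩ := hext ψ
      have h3 := eig h1 hG hd hP ψ' lam (fun f hf => by
        have h4 := hap ⟨f, hf⟩ ψ'
        simp only [hψ] at h4
        have h5 := he ⟨f, hf⟩
        have h6 := hψ ⟨f, hf⟩
        simp only at h6
        rw [← h4, h5, h6]) h0 hl x.1 x.2 y.1 y.2
      rw [hψ, hψ] at h3
      exact h3)
    (fun x => g x.1 - ev A g)
    (by
      rw [Finset.sum_coe_sort A (fun x => g x - ev A g), Finset.sum_sub_distrib,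
        Finset.sum_const, nsmul_eq_mul]
      unfold ev
      field_simp
      ring)
  have h3 := hq (fun f => g f - ev A g)
  rw [h3, dir_sub_const hG p g, Finset.sum_coe_sort A (fun x => (g x - ev A g) ^ 2)] at hmain
  have h4 : ∑ x ∈ A, (g x - ev A g) ^ 2 = (A.card : ℝ) * vr A g := by
    have h5 : vr A g = (∑ x ∈ A, (g x - ev A g) ^ 2) / (A.card : ℝ) := rfl
    rw [h5, mul_div_cancel₀ _ hcard.ne']
  rw [h4] at hmain
  have h5 : 3 / 4 * vr A g ≤ dir G U L p g := by
    have h6 : (A.card : ℝ) * (3 / 4 * vr A g) ≤ (A.card : ℝ) * dir G U L p g := by linarith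
    exact le_of_mul_le_mul_left h6 hcard
  have h6 := Eps26.dir_nonneg G U L p g
  linarith

end Pool.Agent.Ex26
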