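import Pool.Agent.Lib.MP_26a019_lc.Ex.DSpec

set_option autoImplicit false

/-!
# Part D: the maximum principle (`DMax`)
-/

open Finset Classical

namespace Pool.Agent.Ex26

open Pool.Agent.Kempe Pool.Agent.KempeMix Pool.Agent.Eps26

namespace DMaxAux

/-- removing one element changes a mean by at most `O / s` -/
theorem mean_erase {C : Type} [Fintype C] (F : C → ℝ) (W : Finset C) (b : C) (O : ℝ) (s : ℕ)
    (hs : 0 < s) (hW : s ≤ W.card) (hne : (W.erase b).Nonempty)
    (hF : ∀ c ∈ W, ∀ c' ∈ W, |F c - F c'| ≤ O) :
    |(∑ c ∈ W, F c) / (W.card : ℝ) - (∑ c ∈ W.erase b, F c) / ((W.erase b).card : ℝ)| ≤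
      O / (s : ℝ) := by
  have hs' : (0 : ℝ) < s := by exact_mod_cast hs
  obtain ⟨c0, hc0⟩ := hne
  have hc0W : c0 ∈ W := Finset.mem_of_mem_erase hc0
  have hO : 0 ≤ O := le_trans (abs_nonneg _) (hF c0 hc0W c0 hc0W)
  by_cases hb : b ∈ W
  · have hn : (0 : ℝ) < ((W.erase b).card : ℝ) := by
      exact_mod_cast Finset.card_pos.2 ⟨c0, hc0⟩
    have hcard : (W.card : ℝ) = ((W.erase b).card : ℝ) + 1 := by
      exact_mod_cast (Finset.card_erase_add_one hb).symm
    have hsum : ∑ c ∈ W, F c = F b + ∑ c ∈ W.erase b, F c := (Finset.add_sum_erase W F hb).symm
    have hWs : (s : ℝ) ≤ (W.card : ℝ) := by exact_mod_cast hW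
    have hWpos : (0 : ℝ) < (W.card : ℝ) := lt_of_lt_of_le hs' hWs
    have e : (∑ c ∈ W, F c) / (W.card : ℝ) - (∑ c ∈ W.erase b, F c) / ((W.erase b).card : ℝ) =
        ((∑ c ∈ W.erase b, (F b - F c)) / ((W.erase b).card : ℝ)) / (W.card : ℝ) := by
      rw [Finset.sum_sub_distrib, Finset.sum_const, nsmul_eq_mul, hsum, hcard]
      have h1 : ((W.erase b).card : ℝ) + 1 ≠ 0 := by positivity
      field_simp
      ring
    rw [e, abs_div, abs_of_pos hWpos, abs_div, abs_of_pos hn]
    have h2 : |∑ c ∈ W.erase b, (F b - F c)| ≤ ((W.erase b).card : ℝ) * O := by
      refine (Finset.abs_sum_le_sum_abs _ _).trans ?_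
      rw [← nsmul_eq_mul, ← Finset.sum_const]
      exact Finset.sum_le_sum fun c hc => hF b hb c (Finset.mem_of_mem_erase hc)
    have h3 : |∑ c ∈ W.erase b, (F b - F c)| / ((W.erase b).card : ℝ) ≤ O := by
      rw [div_le_iff₀ hn, mul_comm]
      exact h2
    exact (div_le_div_of_nonneg_right h3 hWpos.le).trans
      (div_le_div_of_nonneg_left hO hs' hWs)
  · rw [Finset.erase_eq_of_notMem hb, sub_self, abs_zero]
    positivity

/-- comparison of means, term by term -/
theorem mean_sub_le {C : Type} (F F' : C → ℝ) (W : Finset C) (D : ℝ) (hne : W.Nonempty)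
    (h : ∀ c ∈ W, F c - F' c ≤ D) :
    (∑ c ∈ W, F c) / (W.card : ℝ) - (∑ c ∈ W, F' c) / (W.card : ℝ) ≤ D := by
  have hn : (0 : ℝ) < (W.card : ℝ) := by exact_mod_cast Finset.card_pos.2 hne
  rw [← sub_div, ← Finset.sum_sub_distrib, div_le_iff₀ hn, mul_comm]
  have h1 := Finset.sum_le_sum h
  rw [Finset.sum_const, nsmul_eq_mul] at h1
  exact h1

end DMaxAux

open DMaxAux

theorem dMax_proof (V C : Type) [Fintype V] [Fintype C] : DMax V C := by
  intro G U L p s ψ w ζ hG hw hζ
  have hs2 : 2 ≤ s := hG.1
  have hs0 : 0 < s := by omega
  have hs' : (0 : ℝ) < s := by exact_mod_cast hs0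
  obtain ⟨f, hf, f', hf', hff, hD⟩ := exists_osc (Col_nonempty hG p) w ψ
  have hζ0 : 0 ≤ ζ := le_trans (abs_nonneg _) (hζ f hf f hf fun _ _ => rfl)
  have hosc : ∀ x, 0 ≤ osc (Col G U L p) x ψ := fun x => osc_nonneg _ _ _
  have hsum0 : 0 ≤ 2 / (s : ℝ) * ∑ x ∈ nb G U w, osc (Col G U L p) x ψ :=
    mul_nonneg (by positivity) (Finset.sum_nonneg fun x _ => hosc x)
  by_cases hab : f w = f' w
  · have he : f = f' := by
      funext u
      by_cases hu : u = w
      · rw [hu, hab]
      · exact hff u hu
    rw [← hD, he, sub_self]
    linarith
  · have hup : f' = Function.update f w (f' w) := by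
      funext u
      by_cases hu : u = w
      · rw [hu, Function.update_self]
      · rw [Function.update_of_ne hu]
        exact (hff u hu).symm
    -- lower bound for the terms
    have key : ∀ x ∈ U, (if x = w then osc (Col G U L p) w ψ else 0) -
        (if x ∈ nb G U w then 2 / (s : ℝ) * osc (Col G U L p) x ψ else 0) ≤
        (ψ f - hb G U L x ψ f) - (ψ f' - hb G U L x ψ f') := by
      intro x hx
      by_cases hxw : x = w
      · subst hxw
        rw [if_pos rfl, if_neg (self_notMem_nb G U x)]
        have h1 : hb G U L x ψ f' = hb G U L x ψ f := by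
          rw [hup]
          exact ind_hb G U L x ψ f _
        rw [h1, ← hD]
        linarith
      · rw [if_neg hxw]
        by_cases hxn : x ∈ nb G U w
        · rw [if_pos hxn]
          have hwx : w ∈ nb G U x := mem_nb_comm hw hxn
          have hW' : avX G U L {w} f' x = avX G U L {w} f x := by
            conv_lhs => rw [hup]
            exact avX_update_of_mem G U L f x (Finset.mem_singleton_self w) _
          have e1 : av G U L f x = (avX G U L {w} f x).erase (f w) := av_eq_erase hwx
          have e2 : av G U L f' x = (avX G U L {w} f x).erase (f' w) := by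
            rw [av_eq_erase hwx, hW']
          have hcW : s + 1 ≤ (avX G U L {w} f x).card := card_avX_nb hG hx hwx f
          -- the common colours
          have hcard : 0 < ((av G U L f x).erase (f' w)).card := by
            have h1 := card_av hG hx f
            have h2 := Finset.pred_card_le_card_erase (a := f' w) (s := av G U L f x)
            omega
          have hne : ((av G U L f x).erase (f' w)).Nonempty := Finset.card_pos.1 hcard
          have hE : (av G U L f' x).erase (f w) = (av G U L f x).erase (f' w) := by
            rw [e1, e2, Finset.erase_right_comm]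
          have b1 := mean_erase (fun c => ψ (Function.update f x c)) (av G U L f x) (f' w)
            (osc (Col G U L p) x ψ) s hs0 (card_av hG hx f) hne (by
              intro c hc c' hc'
              refine le_osc ψ (update_mem hf hx hc) (update_mem hf hx hc') ?_
              intro u hu
              rw [Function.update_of_ne hu, Function.update_of_ne hu])
          have b2 := mean_erase (fun c => ψ (Function.update f' x c)) (av G U L f' x) (f w)
            (osc (Col G U L p) x ψ) s hs0 (card_av hG hx f') (by rw [hE]; exact hne) (by
              intro c hc c' hc'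
              refine le_osc ψ (update_mem hf' hx hc) (update_mem hf' hx hc') ?_
              intro u hu
              rw [Function.update_of_ne hu, Function.update_of_ne hu])
          have b3 := mean_sub_le (fun c => ψ (Function.update f x c))
            (fun c => ψ (Function.update f' x c)) ((av G U L f x).erase (f' w))
            (osc (Col G U L p) w ψ) hne (by
              intro c hc
              have hc1 : c ∈ av G U L f x := Finset.mem_of_mem_erase hc
              have hc2 : c ∈ av G U L f' x := by
                rw [← hE] at hc
                exact Finset.mem_of_mem_erase hc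
              refine (le_abs_self _).trans
                (le_osc ψ (update_mem hf hx hc1) (update_mem hf' hx hc2) ?_)
              intro u hu
              by_cases hux : u = x
              · rw [hux, Function.update_self, Function.update_self]
              · rw [Function.update_of_ne hux, Function.update_of_ne hux]
                exact hff u hu)
          rw [hE] at b2
          have c1 := (abs_le.1 b1).2
          have c2 := (abs_le.1 b2).1
          have e3 : hb G U L x ψ f = (∑ c ∈ av G U L f x, ψ (Function.update f x c)) /
            ((av G U L f x).card : ℝ) := rfl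
          have e4 : hb G U L x ψ f' = (∑ c ∈ av G U L f' x, ψ (Function.update f' x c)) /
            ((av G U L f' x).card : ℝ) := rfl
          have e5 : 2 / (s : ℝ) * osc (Col G U L p) x ψ =
            osc (Col G U L p) x ψ / s + osc (Col G U L p) x ψ / s := by ring
          rw [e3, e4, e5]
          linarith
        · rw [if_neg hxn]
          have hwx : w ∉ nb G U x := fun h => hxn (mem_nb_comm hx h)
          have hav : av G U L f' x = av G U L f x := by
            conv_lhs => rw [hup]
            exact av_update_of_notMem G U L f x hwx _
          have hne : (av G U L f x).Nonempty := by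
            rw [← Finset.card_pos]
            have h1 := card_av hG hx f
            omega
          have b3 := mean_sub_le (fun c => ψ (Function.update f x c))
            (fun c => ψ (Function.update f' x c)) (av G U L f x)
            (osc (Col G U L p) w ψ) hne (by
              intro c hc
              refine (le_abs_self _).trans
                (le_osc ψ (update_mem hf hx hc) (update_mem hf' hx (by rw [hav]; exact hc)) ?_)
              intro u hu
              by_cases hux : u = x
              · rw [hux, Function.update_self, Function.update_self]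
              · rw [Function.update_of_ne hux, Function.update_of_ne hux]
                exact hff u hu)
          have e3 : hb G U L x ψ f = (∑ c ∈ av G U L f x, ψ (Function.update f x c)) /
            ((av G U L f x).card : ℝ) := rfl
          have e4 : hb G U L x ψ f' = (∑ c ∈ av G U L f x, ψ (Function.update f' x c)) /
            ((av G U L f x).card : ℝ) := by
            unfold hb
            rw [hav]
          rw [e3, e4]
          linarith
    have hsum := Finset.sum_le_sum key
    rw [Finset.sum_sub_distrib, Finset.sum_ite_eq' U w, if_pos hw, ← Finset.sum_filter] at hsum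
    have hfil : U.filter (fun x => x ∈ nb G U w) = nb G U w := by
      ext x
      rw [Finset.mem_filter]
      exact ⟨fun h => h.2, fun h => ⟨nb_subset G U w h, h⟩⟩
    rw [hfil, ← Finset.mul_sum] at hsum
    have hgen : gen G U L ψ f - gen G U L ψ f' =
        ∑ x ∈ U, ((ψ f - hb G U L x ψ f) - (ψ f' - hb G U L x ψ f')) := by
      unfold gen
      rw [← Finset.sum_sub_distrib]
    have hfin := (le_abs_self _).trans (hζ f hf f' hf' hff)
    rw [hgen] at hfin
    linarith

end Pool.Agent.Ex26
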