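import Pool.Agent.Lib.MP_26a019_lc.Ex.DSpec

set_option autoImplicit false
set_option linter.unusedVariables false
set_option linter.unusedSectionVars false

/-!
# Part D: the middle term of the one-site estimate
-/

open Finset Classical

namespace Pool.Agent.Ex26

open Pool.Agent.Kempe Pool.Agent.KempeMix Pool.Agent.Eps26

namespace DMidAux

variable {V C : Type} [Fintype V] [Fintype C]

/-- mean over a subset of mass at least `c0` -/
theorem ev_filter_le (A : Finset (V → C)) (Y : (V → C) → Prop) {i1 i2 : DecidablePred Y}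
    (c0 : ℝ) (hc0 : 0 < c0)
    (hc : c0 ≤ ev A (fun f => @ite ℝ (Y f) (i1 f) 1 0)) (Z Z' : (V → C) → ℝ)
    (hZ' : ∀ f ∈ A, 0 ≤ Z' f) (h : ∀ f ∈ A, Y f → Z f ≤ Z' f) :
    ev (@Finset.filter _ Y i2 A) Z ≤ 1 / c0 * ev A Z' := by
  have hi : i1 = i2 := Subsingleton.elim _ _
  subst hi
  have h1 : ev A (fun f => if Y f then (1 : ℝ) else 0) =
      ((A.filter Y).card : ℝ) / (A.card : ℝ) := by
    unfold ev
    rw [← Finset.sum_filter, Finset.sum_const, nsmul_eq_mul, mul_one]
  rw [h1] at hc
  have hA : (0 : ℝ) < (A.card : ℝ) := by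
    rcases Nat.eq_zero_or_pos A.card with h0 | h0
    · rw [h0, Nat.cast_zero, div_zero] at hc
      linarith
    · exact_mod_cast h0
  have hc' : c0 * (A.card : ℝ) ≤ ((A.filter Y).card : ℝ) := (le_div_iff₀ hA).1 hc
  have hF : (0 : ℝ) < ((A.filter Y).card : ℝ) := lt_of_lt_of_le (by positivity) hc'
  have h2 : ∑ f ∈ A.filter Y, Z f ≤ ∑ f ∈ A, Z' f := by
    calc ∑ f ∈ A.filter Y, Z f ≤ ∑ f ∈ A.filter Y, Z' f :=
          Finset.sum_le_sum fun f hf => h f (Finset.mem_filter.1 hf).1 (Finset.mem_filter.1 hf).2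
      _ ≤ ∑ f ∈ A, Z' f :=
          Finset.sum_le_sum_of_subset_of_nonneg (Finset.filter_subset _ _) fun f hf _ => hZ' f hf
  have h3 : 0 ≤ ∑ f ∈ A, Z' f := Finset.sum_nonneg hZ'
  unfold ev
  calc (∑ f ∈ A.filter Y, Z f) / ((A.filter Y).card : ℝ)
      ≤ (∑ f ∈ A, Z' f) / ((A.filter Y).card : ℝ) := div_le_div_of_nonneg_right h2 hF.le
    _ ≤ (∑ f ∈ A, Z' f) / (c0 * (A.card : ℝ)) :=
        div_le_div_of_nonneg_left h3 (by positivity) hc'
    _ = 1 / c0 * ((∑ f ∈ A, Z' f) / (A.card : ℝ)) := by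
        field_simp

theorem mean_sq (G : SimpleGraph V) (U : Finset V) (L : V → Finset C) (p : V → C) {s : ℕ}
    (hG : Good G U L s) {v : V} (hv : v ∈ U) (g : (V → C) → ℝ) :
    ev (Col G U L p) (fun f => (∑ c ∈ av G U L f v, (g f - g (Function.update f v c)) ^ 2) /
        ((av G U L f v).card : ℝ)) =
      2 * ev (Col G U L p) (fun f => (g f - hb G U L v g f) ^ 2) := by
  have h1 : ev (Col G U L p) (fun f => (∑ c ∈ av G U L f v,
      (g f - g (Function.update f v c)) ^ 2) / ((av G U L f v).card : ℝ)) =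
      ev (Col G U L p) (fun f => (g f) ^ 2 - 2 * (g f * hb G U L v g f) +
        hb G U L v (fun f' => (g f') ^ 2) f) := by
    refine ev_congr _ fun f _ => ?_
    have hp := (av_pos hG hv f).ne'
    have e1 : ∑ c ∈ av G U L f v, (g f - g (Function.update f v c)) ^ 2 =
        ((av G U L f v).card : ℝ) * (g f) ^ 2 -
          2 * (g f * ∑ c ∈ av G U L f v, g (Function.update f v c)) +
          ∑ c ∈ av G U L f v, (g (Function.update f v c)) ^ 2 := by
      rw [Finset.mul_sum, Finset.mul_sum, ← nsmul_eq_mul, ← Finset.sum_const,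
        ← Finset.sum_sub_distrib, ← Finset.sum_add_distrib]
      exact Finset.sum_congr rfl fun c _ => by ring
    rw [e1]
    unfold hb
    field_simp
  have h2 : ev (Col G U L p) (fun f => (g f - hb G U L v g f) ^ 2) =
      ev (Col G U L p) (fun f => (g f) ^ 2 - 2 * (g f * hb G U L v g f) +
        hb G U L v g f * hb G U L v g f) := ev_congr _ fun f _ => by ring
  have h3 : ev (Col G U L p) (fun f => g f * hb G U L v g f) =
      ev (Col G U L p) (fun f => hb G U L v g f * hb G U L v g f) :=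
    ev_ind_mul hG p hv (ind_hb G U L v g) g
  have h4 : ev (Col G U L p) (fun f => hb G U L v (fun f' => (g f') ^ 2) f) =
      ev (Col G U L p) (fun f => (g f) ^ 2) := ev_hb hG p hv (fun f' => (g f') ^ 2)
  rw [h1, h2, ev_add, ev_sub, ev_mul_left, h4, ev_add, ev_sub, ev_mul_left, ← h3]
  ring

end DMidAux

open DMidAux in
theorem dMid_proof (V C : Type) [Fintype V] [Fintype C] : DMid V C := by
  intro G U L p s T v c0 hG hTU hv hvT hc0 hc g
  have hs : (0 : ℝ) < s := by
    have := hG.1
    exact_mod_cast (by omega : 0 < s)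
  let W : (V → C) → ℝ := fun f' =>
    ∑ b ∈ av G U L f' v, (g f' - g (Function.update f' v b)) ^ 2
  let X : C → (V → C) → ℝ := fun b f' =>
    if b ∈ av G U L f' v then (g f' - g (Function.update f' v b)) ^ 2 else 0
  have hX : ∀ b f', 0 ≤ X b f' := by
    intro b f'
    dsimp only [X]
    split_ifs
    · exact sq_nonneg _
    · exact le_rfl
  have hXW : ∀ f', ∑ b, X b f' = W f' := by
    intro f'
    dsimp only [X, W]
    rw [← Finset.sum_filter, Finset.filter_mem_eq_inter, Finset.univ_inter]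
  -- one class, one colour
  have h1 : ∀ f ∈ Col G U L p, ∀ b ∈ av G U L f v,
      ev (clb G (Col G U L p) T v b f) (fun f' => (g f' - g (Function.update f' v b)) ^ 2) ≤
        1 / c0 * ev (cls (Col G U L p) Tᶜ f) (X b) := by
    intro f hf b hb
    unfold clb
    refine ev_filter_le (cls (Col G U L p) Tᶜ f) (fun f' => ∀ u ∈ nb G T v, f' u ≠ b) c0 hc0
      (hc f hf b) _ (X b) (fun f' _ => hX b f') ?_
    intro f' hf' hY
    have hf'' := (MTower.mem_cls _ _ _ _).1 hf'
    have hb' : b ∈ av G U L f' v := by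
      rw [mem_av] at hb ⊢
      refine ⟨hb.1, fun u hu => ?_⟩
      by_cases huT : u ∈ T
      · exact hY u (mem_nb.2 ⟨huT, (mem_nb.1 hu).2⟩)
      · rw [hf''.2 u (Finset.mem_compl.2 huT)]
        exact hb.2 u hu
    dsimp only [X]
    rw [if_pos hb']
  -- one class
  have h2 : ∀ f ∈ Col G U L p, (∑ b ∈ av G U L f v, ev (clb G (Col G U L p) T v b f)
        (fun f' => (g f' - g (Function.update f' v b)) ^ 2)) / ((av G U L f v).card : ℝ) ≤
      1 / (s * c0) * ev (cls (Col G U L p) Tᶜ f) W := by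
    intro f hf
    have hp := av_pos hG hv f
    have hsp : (s : ℝ) ≤ ((av G U L f v).card : ℝ) := by exact_mod_cast card_av hG hv f
    have e0 : ∀ b, 0 ≤ ev (cls (Col G U L p) Tᶜ f) (X b) := fun b =>
      ev_nonneg _ fun f' _ => hX b f'
    have e1 : ∑ b ∈ av G U L f v, ev (clb G (Col G U L p) T v b f)
        (fun f' => (g f' - g (Function.update f' v b)) ^ 2) ≤
        1 / c0 * ev (cls (Col G U L p) Tᶜ f) W := by
      calc ∑ b ∈ av G U L f v, ev (clb G (Col G U L p) T v b f)
            (fun f' => (g f' - g (Function.update f' v b)) ^ 2)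
          ≤ ∑ b ∈ av G U L f v, 1 / c0 * ev (cls (Col G U L p) Tᶜ f) (X b) :=
            Finset.sum_le_sum fun b hb => h1 f hf b hb
        _ ≤ ∑ b, 1 / c0 * ev (cls (Col G U L p) Tᶜ f) (X b) :=
            Finset.sum_le_sum_of_subset_of_nonneg (Finset.subset_univ _) fun b _ _ =>
              mul_nonneg (by positivity) (e0 b)
        _ = 1 / c0 * ev (cls (Col G U L p) Tᶜ f) W := by
            rw [← Finset.mul_sum, ← ev_sum]
            congr 1
            exact ev_congr _ fun f' _ => hXW f'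
    have e2 : 0 ≤ ev (cls (Col G U L p) Tᶜ f) W :=
      ev_nonneg _ fun f' _ => Finset.sum_nonneg fun b _ => sq_nonneg _
    rw [div_le_iff₀ hp]
    refine e1.trans ?_
    have e3 : 1 / c0 * ev (cls (Col G U L p) Tᶜ f) W =
        1 / (s * c0) * ev (cls (Col G U L p) Tᶜ f) W * s := by
      field_simp
    rw [e3]
    exact mul_le_mul_of_nonneg_left hsp (mul_nonneg (by positivity) e2)
  -- tower
  have h3 : ev (Col G U L p) (fun f => ev (cls (Col G U L p) Tᶜ f) W) = ev (Col G U L p) W := by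
    have h := tower (Col G U L p) Tᶜ W
    have e : ev (Col G U L p) (fun f => ev (cls (Col G U L p) Tᶜ f) W) =
      (∑ f ∈ Col G U L p, ev (cls (Col G U L p) Tᶜ f) W) / ((Col G U L p).card : ℝ) := rfl
    rw [e, h]
    rfl
  have h4 : ev (Col G U L p) W ≤ (Fintype.card C : ℝ) *
      (2 * ev (Col G U L p) (fun f => (g f - hb G U L v g f) ^ 2)) := by
    rw [← mean_sq G U L p hG hv g, ← ev_mul_left]
    refine ev_mono _ fun f _ => ?_
    have hp := av_pos hG hv f
    have hq : ((av G U L f v).card : ℝ) ≤ (Fintype.card C : ℝ) := by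
      exact_mod_cast Finset.card_le_univ _
    have hW : 0 ≤ W f := Finset.sum_nonneg fun b _ => sq_nonneg _
    have e : (Fintype.card C : ℝ) * (W f / ((av G U L f v).card : ℝ)) =
        (Fintype.card C : ℝ) * W f / ((av G U L f v).card : ℝ) := by ring
    change W f ≤ (Fintype.card C : ℝ) * (W f / ((av G U L f v).card : ℝ))
    rw [e, le_div_iff₀ hp, mul_comm]
    exact mul_le_mul_of_nonneg_right hq hW
  calc ev (Col G U L p) (fun f => (∑ b ∈ av G U L f v, ev (clb G (Col G U L p) T v b f)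
        (fun f' => (g f' - g (Function.update f' v b)) ^ 2)) / ((av G U L f v).card : ℝ))
      ≤ ev (Col G U L p) (fun f => 1 / (s * c0) * ev (cls (Col G U L p) Tᶜ f) W) :=
        ev_mono _ h2
    _ = 1 / (s * c0) * ev (Col G U L p) W := by rw [ev_mul_left, h3]
    _ ≤ 1 / (s * c0) * ((Fintype.card C : ℝ) *
          (2 * ev (Col G U L p) (fun f => (g f - hb G U L v g f) ^ 2))) :=
        mul_le_mul_of_nonneg_left h4 (by positivity)
    _ = 2 * (Fintype.card C : ℝ) / (s * c0) *
          ev (Col G U L p) (fun f => (g f - hb G U L v g f) ^ 2) := by ring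

end Pool.Agent.Ex26
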