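import Pool.Agent.Lib.MP_26a019_lc.Ex.DSpec

set_option autoImplicit false

/-!
# Part D, module DNum: real analysis
-/

open Finset Classical

namespace Pool.Agent.Ex26

open Pool.Agent.Kempe Pool.Agent.KempeMix Pool.Agent.Eps26

namespace DNumAux

open Filter Topology

theorem lim (ε P c : ℝ) (hε : 0 < ε) :
    Tendsto (fun x : ℝ => P * (12 * x / c ^ 2) * (1 + x) * Real.exp (-(ε * x / 16))) atTop
      (𝓝 0) := by
  have hb : 0 < ε / 16 := by positivity
  have h1 : Tendsto (fun x : ℝ => x ^ (1 : ℝ) * Real.exp (-(ε / 16) * x)) atTop (𝓝 0) :=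
    tendsto_rpow_mul_exp_neg_mul_atTop_nhds_zero 1 (ε / 16) hb
  have h2 : Tendsto (fun x : ℝ => x ^ (2 : ℝ) * Real.exp (-(ε / 16) * x)) atTop (𝓝 0) :=
    tendsto_rpow_mul_exp_neg_mul_atTop_nhds_zero 2 (ε / 16) hb
  have h3 := (h1.const_mul (P * (12 / c ^ 2))).add (h2.const_mul (P * (12 / c ^ 2)))
  simp only [mul_zero, add_zero] at h3
  refine h3.congr fun x => ?_
  have e1 : x ^ (1 : ℝ) = x := Real.rpow_one x
  have e2 : x ^ (2 : ℝ) = x ^ 2 := by
    rw [← Real.rpow_natCast]; norm_num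
  rw [e1, e2]
  have e3 : -(ε / 16) * x = -(ε * x / 16) := by ring
  rw [e3]
  ring

end DNumAux

theorem dNum_proof : DNum := by
  intro ε P c hε hP hc
  have h := DNumAux.lim ε P c hε
  have h2 := (h.comp tendsto_natCast_atTop_atTop).eventually
    (Iic_mem_nhds (show (0 : ℝ) < 1 by norm_num))
  obtain ⟨q0, hq⟩ := Filter.eventually_atTop.1 h2
  exact ⟨q0, fun q h => hq q h⟩

end Pool.Agent.Ex26
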