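import Pool.Agent.Lib.MP_26a019_lc.Ex.DSpec
import Pool.Agent.Lib.MP_26a019_lc.Eps.Bridge

set_option autoImplicit false

/-!
# Part D, module DPin: the Poincare inequality summed over the boundary condition
-/

open Finset Classical

namespace Pool.Agent.Ex26

open Pool.Agent.Kempe Pool.Agent.KempeMix Pool.Agent.Eps26

theorem dPin_proof (V C : Type) [Fintype V] [Fintype C] : DPin V C := by
  intro G U L p s T P hG hT hP g
  have hB := bridge_proof V C
  rw [aa_eq]
  calc ∑ f ∈ Col G U L p, vr (cls (Col G U L p) Tᶜ f) g
      ≤ ∑ f ∈ Col G U L p, P * ∑ v ∈ T, ev (cls (Col G U L p) Tᶜ f)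
          (fun f' => (g f' - hb G U L v g f') ^ 2) := by
        refine Finset.sum_le_sum fun f hf => ?_
        obtain ⟨b1, b2, b3, b4⟩ := hB G U L p s T f hG hT hf
        have h := hP f hf g
        have hd : dir G T (fun v => avX G U L T f v) f g =
            ∑ v ∈ T, ev (cls (Col G U L p) Tᶜ f)
              (fun f' => (g f' - hb G U L v g f') ^ 2) := by
          unfold dir
          rw [← b1]
          refine Finset.sum_congr rfl fun v hv => ?_
          refine MTower.ev_congr _ _ _ fun f' hf' => ?_
          rw [b4 g v hv f' hf']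
        rw [hd, ← b1] at h
        exact h
    _ = P * ∑ v ∈ T, ∑ f ∈ Col G U L p, (g f - hb G U L v g f) ^ 2 := by
        rw [← Finset.mul_sum, Finset.sum_comm]
        congr 1
        exact Finset.sum_congr rfl fun v hv => tower (Col G U L p) Tᶜ _

end Pool.Agent.Ex26
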