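import Pool.Agent.Lib.MP_26a019_lc.Ex.DSpec

set_option autoImplicit false
set_option linter.unusedVariables false

/-!
# The Poisson equation (MP_26a019_lc, part D)
-/

open Finset Classical

namespace Pool.Agent.Ex26

open Pool.Agent.Kempe Pool.Agent.KempeMix Pool.Agent.Eps26

namespace DPoisAux

variable {V C : Type} [Fintype V] [Fintype C]

theorem hb_smul (G : SimpleGraph V) (U : Finset V) (L : V → Finset C) (v : V) (c : ℝ)
    (g : (V → C) → ℝ) (f : V → C) :
    hb G U L v (fun f' => c * g f') f = c * hb G U L v g f := by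
  unfold hb
  rw [← Finset.mul_sum, mul_div_assoc]

theorem gen_add (G : SimpleGraph V) (U : Finset V) (L : V → Finset C) (g h : (V → C) → ℝ)
    (f : V → C) :
    gen G U L (fun f' => g f' + h f') f = gen G U L g f + gen G U L h f := by
  unfold gen
  rw [← Finset.sum_add_distrib]
  refine Finset.sum_congr rfl fun x _ => ?_
  rw [hb_add]
  ring

theorem gen_smul (G : SimpleGraph V) (U : Finset V) (L : V → Finset C) (c : ℝ)
    (g : (V → C) → ℝ) (f : V → C) :
    gen G U L (fun f' => c * g f') f = c * gen G U L g f := by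
  unfold gen
  rw [Finset.mul_sum]
  refine Finset.sum_congr rfl fun x _ => ?_
  rw [hb_smul]
  ring

theorem ev_gen {G : SimpleGraph V} {U : Finset V} {L : V → Finset C} {s : ℕ}
    (hG : Good G U L s) (p : V → C) (ψ : (V → C) → ℝ) :
    ev (Col G U L p) (gen G U L ψ) = 0 := by
  unfold gen
  rw [ev_sum]
  refine Finset.sum_eq_zero fun x hx => ?_
  have h := ev_sub (Col G U L p) ψ (hb G U L x ψ)
  rw [ev_hb hG p hx, sub_self] at h
  exact h

theorem ev_mul_gen {G : SimpleGraph V} {U : Finset V} {L : V → Finset C} {s : ℕ}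
    (hG : Good G U L s) (p : V → C) (ψ : (V → C) → ℝ) :
    ev (Col G U L p) (fun f => ψ f * gen G U L ψ f) = dir G U L p ψ := by
  unfold gen dir
  simp only [Finset.mul_sum]
  rw [ev_sum]
  refine Finset.sum_congr rfl fun x hx => ?_
  have h1 := ev_ind_mul hG p hx (ind_hb G U L x ψ) ψ
  have h2 : ev (Col G U L p) (fun f => (ψ f - hb G U L x ψ f) ^ 2) =
      ev (Col G U L p) (fun f => ψ f * (ψ f - hb G U L x ψ f) -
        (ψ f * hb G U L x ψ f - hb G U L x ψ f * hb G U L x ψ f)) :=
    ev_congr _ fun f _ => by ring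
  rw [h2, ev_sub, ev_sub _ (fun f => ψ f * hb G U L x ψ f), h1, sub_self, sub_zero]

/-- the linear map of the Poisson equation -/
noncomputable def Phi (G : SimpleGraph V) (U : Finset V) (L : V → Finset C) (p : V → C) :
    ((V → C) → ℝ) →ₗ[ℝ] ((V → C) → ℝ) where
  toFun ψ f := if f ∈ Col G U L p then gen G U L ψ f + ev (Col G U L p) ψ else ψ f
  map_add' ψ φ := by
    funext f
    simp only [Pi.add_apply]
    by_cases hf : f ∈ Col G U L p
    · rw [if_pos hf, if_pos hf, if_pos hf]
      have h1 : gen G U L (ψ + φ) f = gen G U L ψ f + gen G U L φ f := gen_add G U L ψ φ f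
      have h2 : ev (Col G U L p) (ψ + φ) = ev (Col G U L p) ψ + ev (Col G U L p) φ :=
        ev_add _ ψ φ
      rw [h1, h2]
      ring
    · rw [if_neg hf, if_neg hf, if_neg hf]
  map_smul' c ψ := by
    funext f
    simp only [Pi.smul_apply, smul_eq_mul, RingHom.id_apply]
    by_cases hf : f ∈ Col G U L p
    · rw [if_pos hf, if_pos hf]
      have h1 : gen G U L (c • ψ) f = c * gen G U L ψ f := gen_smul G U L c ψ f
      have h2 : ev (Col G U L p) (c • ψ) = c * ev (Col G U L p) ψ := ev_mul_left _ c ψ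
      rw [h1, h2]
      ring
    · rw [if_neg hf, if_neg hf]

theorem Phi_apply (G : SimpleGraph V) (U : Finset V) (L : V → Finset C) (p : V → C)
    (ψ : (V → C) → ℝ) (f : V → C) : Phi G U L p ψ f =
      if f ∈ Col G U L p then gen G U L ψ f + ev (Col G U L p) ψ else ψ f := rfl

/-- a solution of the equation with the extra term has mean zero -/
theorem ev_zero_of {G : SimpleGraph V} {U : Finset V} {L : V → Finset C} {s : ℕ}
    (hG : Good G U L s) (p : V → C) (ψ F : (V → C) → ℝ)
    (hF : ev (Col G U L p) F = 0)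
    (h : ∀ f ∈ Col G U L p, gen G U L ψ f + ev (Col G U L p) ψ = F f) :
    ev (Col G U L p) ψ = 0 := by
  have hA := Col_nonempty hG p
  have h1 := ev_congr (Col G U L p) h
  rw [hF, ev_add, ev_const hA, ev_gen hG p ψ, zero_add] at h1
  exact h1

theorem Phi_injective {G : SimpleGraph V} {U : Finset V} {L : V → Finset C} {s : ℕ}
    (hG : Good G U L s) (p : V → C) {P : ℝ} (hP : Poin G U L p P) :
    Function.Injective (Phi G U L p) := by
  rw [injective_iff_map_eq_zero]
  intro ψ hψ
  have hA := Col_nonempty hG p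
  have h0 : ∀ f ∈ Col G U L p, gen G U L ψ f + ev (Col G U L p) ψ = 0 := by
    intro f hf
    have := congrFun hψ f
    rw [Phi_apply, if_pos hf] at this
    exact this
  have h1 : ev (Col G U L p) ψ = 0 :=
    ev_zero_of hG p ψ (fun _ => 0) (ev_const hA 0) h0
  have h2 : ∀ f ∈ Col G U L p, gen G U L ψ f = 0 := by
    intro f hf
    have := h0 f hf
    rwa [h1, add_zero] at this
  have h3 : dir G U L p ψ = 0 := by
    rw [← ev_mul_gen hG p ψ]
    rw [ev_congr (Col G U L p) (h := fun _ => (0 : ℝ)) (fun f hf => by rw [h2 f hf, mul_zero])]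
    exact ev_const hA 0
  have h4 : vr (Col G U L p) ψ ≤ 0 := by
    have := hP ψ
    rwa [h3, mul_zero] at this
  have h5 : ∀ f ∈ Col G U L p, ψ f = 0 := by
    have h6 : vr (Col G U L p) ψ = 0 := le_antisymm h4 (vr_nonneg _ ψ)
    unfold vr at h6
    rw [h1] at h6
    unfold ev at h6
    rw [div_eq_zero_iff] at h6
    have hc : ((Col G U L p).card : ℝ) ≠ 0 := by
      exact_mod_cast (Finset.card_pos.2 hA).ne'
    have h7 := h6.resolve_right hc
    rw [Finset.sum_eq_zero_iff_of_nonneg (fun f _ => sq_nonneg _)] at h7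
    intro f hf
    have := h7 f hf
    rw [sub_zero] at this
    exact pow_eq_zero_iff (two_ne_zero) |>.1 this
  funext f
  by_cases hf : f ∈ Col G U L p
  · exact h5 f hf
  · have := congrFun hψ f
    rw [Phi_apply, if_neg hf] at this
    exact this

end DPoisAux

open DPoisAux in
theorem dPois_proof (V C : Type) [Fintype V] [Fintype C] : DPois V C := by
  intro G U L p s P hG hP Y
  have hA := Col_nonempty hG p
  have hsurj : Function.Surjective (Phi G U L p) :=
    LinearMap.injective_iff_surjective.1 (Phi_injective hG p hP)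
  obtain ⟨ψ, hψ⟩ := hsurj (fun f => Y f - ev (Col G U L p) Y)
  have h0 : ∀ f ∈ Col G U L p, gen G U L ψ f + ev (Col G U L p) ψ =
      Y f - ev (Col G U L p) Y := by
    intro f hf
    have := congrFun hψ f
    rw [Phi_apply, if_pos hf] at this
    exact this
  have h1 : ev (Col G U L p) ψ = 0 := by
    refine ev_zero_of hG p ψ (fun f => Y f - ev (Col G U L p) Y) ?_ h0
    rw [ev_sub, ev_const hA, sub_self]
  refine ⟨ψ, fun f hf => ?_⟩
  have := h0 f hf
  rwa [h1, add_zero] at this

end Pool.Agent.Ex26
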