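import Pool.Agent.Lib.MP_26a019_lc.Ex.DSpec

set_option autoImplicit false

/-!
Module DPyth: Pythagoras for nested conditional expectations.
-/

open Finset Classical

namespace Pool.Agent.Ex26

open Pool.Agent.Kempe Pool.Agent.KempeMix Pool.Agent.Eps26

namespace DPythAux

variable {V C : Type} [Fintype V] [Fintype C]

/-- the tower property inside a class -/
theorem cE_tower (A : Finset (V → C)) (S S' : Finset V) (hS : S ⊆ S') (g : (V → C) → ℝ)
    (f : V → C) : cE A S (cE A S' g) f = cE A S g f := by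
  have hc : ∀ f' ∈ cls A S f, cls (cls A S f) S' f' = cls A S' f' := by
    intro f' hf'
    ext x
    rw [MTower.mem_cls, MTower.mem_cls, MTower.mem_cls]
    rw [MTower.mem_cls] at hf'
    constructor
    · rintro ⟨⟨h1, _⟩, h3⟩
      exact ⟨h1, h3⟩
    · rintro ⟨h1, h2⟩
      exact ⟨⟨h1, fun u hu => (h2 u (hS hu)).trans (hf'.2 u hu)⟩, h2⟩
  have ht := tower (cls A S f) S' g
  have h1 : ∑ f' ∈ cls A S f, cE A S' g f' = ∑ f' ∈ cls A S f, g f' := by
    rw [← ht]
    refine Finset.sum_congr rfl fun f' hf' => ?_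
    rw [hc f' hf']
    rfl
  show ev (cls A S f) (cE A S' g) = ev (cls A S f) g
  unfold ev at h1 ⊢
  rw [h1]

end DPythAux

open DPythAux MChainaux

theorem dPyth_proof (V C : Type) [Fintype V] [Fintype C] : DPyth V C := by
  intro A T T' g hT
  have hsub : Tᶜ ⊆ T'ᶜ := Finset.compl_subset_compl.2 hT
  have h1 := aa_pyth A Tᶜ g
  have h2 := aa_pyth A T'ᶜ g
  have h3 := aa_pyth A Tᶜ (cE A T'ᶜ g)
  have h4 : ∑ f ∈ A, (cE A Tᶜ (cE A T'ᶜ g) f) ^ 2 = ∑ f ∈ A, (cE A Tᶜ g f) ^ 2 := by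
    refine Finset.sum_congr rfl fun f _ => ?_
    rw [cE_tower A Tᶜ T'ᶜ hsub g f]
  linarith

end Pool.Agent.Ex26
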