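import Pool.Agent.Lib.MP_26a019_lc.Ex.DSpec

set_option autoImplicit false
set_option linter.unusedVariables false

/-!
# DRare: bad vertices are rare
-/

open Finset Classical

namespace Pool.Agent.Ex26

open Pool.Agent.Kempe Pool.Agent.KempeMix Pool.Agent.Eps26

namespace DRareAux

variable {V : Type} [Fintype V]

theorem nb_erase_self (G : SimpleGraph V) (T : Finset V) (v : V) :
    nb G (T.erase v) v = nb G T v := by
  ext u
  rw [mem_nb, mem_nb, Finset.mem_erase]
  constructor
  · rintro ⟨⟨-, h1⟩, h2⟩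
    exact ⟨h1, h2⟩
  · rintro ⟨h1, h2⟩
    exact ⟨⟨h2.ne', h1⟩, h2⟩

theorem mem_Bad {G : SimpleGraph V} {s : ℕ} {T : Finset V} {v : V} :
    v ∈ Bad G s T ↔ v ∈ T ∧ s < 8 * (nb G T v).card := by
  unfold Bad
  rw [Finset.mem_filter]

theorem wlk_nonneg (G : SimpleGraph V) {th2 : ℝ} (h : 0 ≤ th2) :
    ∀ (n k : ℕ) (D : Finset V) (x : V), 0 ≤ wlk G th2 n k D x := by
  intro n
  induction n with
  | zero => intro k D x; exact le_refl _
  | succ n ih =>
    intro k D x
    unfold wlk
    exact add_nonneg (Real.exp_pos _).le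
      (mul_nonneg h (Finset.sum_nonneg fun y _ => ih _ _ _))

end DRareAux

open DRareAux in
theorem dRare_of {V : Type} [Fintype V] (h1 : DWlk V) (h2 : DExpM V) (h3 : DWlkE V) :
    DRare V := by
  intro G s n t q U hs ht0 ht1 hq htq hdeg
  have hs' : (0 : ℝ) < s := by exact_mod_cast hs
  have htq' : 2 * t * q ≤ (s : ℝ) / 16 := by linarith
  have hexp : Real.exp (2 * t * q) ≤ Real.exp ((s : ℝ) / 16) := Real.exp_le_exp.2 htq'
  have hdegE : ∀ v ∈ U, ((nb G (U.erase v) v).card : ℝ) ≤ q := by
    intro v hv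
    rw [nb_erase_self]
    exact hdeg v hv
  constructor
  · intro v hv
    have hle : bE t U (fun T => if v ∈ Bad G s T then (1 : ℝ) else 0) ≤
        bE t U (fun T => if v ∈ T then
          (fun T' => Real.exp (-((s : ℝ) / 8)) * Real.exp ((nb G T' v).card : ℝ)) (T.erase v)
          else 0) := by
      refine bE_mono ht0 ht1 fun T hT => ?_
      by_cases hb : v ∈ Bad G s T
      · rw [if_pos hb, if_pos (mem_Bad.1 hb).1]
        beta_reduce
        rw [nb_erase_self, ← Real.exp_add]
        refine Real.one_le_exp ?_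
        have h := (mem_Bad.1 hb).2
        have h' : (s : ℝ) < 8 * ((nb G T v).card : ℝ) := by exact_mod_cast h
        linarith
      · rw [if_neg hb]
        split_ifs
        · positivity
        · exact le_refl _
    refine (hle.trans_eq (bE_mem t hv
      (fun T' => Real.exp (-((s : ℝ) / 8)) * Real.exp ((nb G T' v).card : ℝ)))).trans ?_
    rw [bE_mul_left]
    have hE := h2 G t (U.erase v) v ht0 ht1
    have hE' : bE t (U.erase v) (fun T => Real.exp ((nb G T v).card : ℝ)) ≤
        Real.exp ((s : ℝ) / 16) := by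
      refine hE.trans (Real.exp_le_exp.2 ?_)
      have := mul_le_mul_of_nonneg_left (hdegE v hv) (by linarith : (0 : ℝ) ≤ 2 * t)
      linarith
    have hE0 : 0 ≤ bE t (U.erase v) (fun T => Real.exp ((nb G T v).card : ℝ)) :=
      bE_nonneg ht0 ht1 fun T _ => (Real.exp_pos _).le
    calc t * (Real.exp (-((s : ℝ) / 8)) *
          bE t (U.erase v) (fun T => Real.exp ((nb G T v).card : ℝ)))
        ≤ 1 * (Real.exp (-((s : ℝ) / 8)) * Real.exp ((s : ℝ) / 16)) :=
          mul_le_mul ht1 (mul_le_mul_of_nonneg_left hE' (Real.exp_pos _).le)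
            (mul_nonneg (Real.exp_pos _).le hE0) zero_le_one
      _ = Real.exp (-((s : ℝ) / 16)) := by
          rw [one_mul, ← Real.exp_add]
          congr 1
          ring
  · intro w hw
    have hth : (0 : ℝ) ≤ 4 / (s : ℝ) := by positivity
    have hle : bE t U (fun T => if w ∈ T \ Bad G s T then
        saw G (2 / (s : ℝ)) (fun x => ((nb G (Bad G s T) x).card : ℝ)) n (T \ Bad G s T) w
        else 0) ≤
        bE t U (fun T => if w ∈ T then
          (fun T' => ((s : ℝ) / 2 * Real.exp (-((s : ℝ) / 8))) *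
            wlk G (4 / (s : ℝ)) (n + 1) 0 T' w) (T.erase w) else 0) := by
      refine bE_mono ht0 ht1 fun T hT => ?_
      by_cases hb : w ∈ T \ Bad G s T
      · have hb' := Finset.mem_sdiff.1 hb
        rw [if_pos hb, if_pos hb'.1]
        exact h1 G s n T w hs hb'.1 hb'.2
      · rw [if_neg hb]
        split_ifs
        · exact mul_nonneg (by positivity) (wlk_nonneg G hth _ _ _ _)
        · exact le_refl _
    refine (hle.trans_eq (bE_mem t hw (fun T' => ((s : ℝ) / 2 * Real.exp (-((s : ℝ) / 8))) *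
      wlk G (4 / (s : ℝ)) (n + 1) 0 T' w))).trans ?_
    rw [bE_mul_left]
    have hnum : 4 / (s : ℝ) * t * q * Real.exp 1 ≤ 1 / 2 := by
      have he : Real.exp 1 < 2.7182818286 := Real.exp_one_lt_d9
      have h5 : 4 / (s : ℝ) * t * q ≤ 1 / 8 := by
        have : 4 / (s : ℝ) * t * q = (4 * t * q) / s := by ring
        rw [this, div_le_iff₀ hs']
        linarith
      have h6 : 0 ≤ 4 / (s : ℝ) * t * q := by positivity
      nlinarith [Real.exp_pos 1]
    have hE := h3 G t (4 / (s : ℝ)) q (n + 1) 0 (U.erase w) w ht0 ht1 hth hq hnum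
      (hdegE w hw) (fun y hy => by
        refine le_trans ?_ (hdeg y (Finset.mem_of_mem_erase hy))
        exact_mod_cast Finset.card_le_card (nb_mono (Finset.erase_subset w U) y))
    have hE' : bE t (U.erase w) (fun T => wlk G (4 / (s : ℝ)) (n + 1) 0 T w) ≤
        2 * Real.exp ((s : ℝ) / 16) := by
      refine hE.trans ?_
      rw [Nat.cast_zero, Real.exp_zero, mul_one]
      linarith
    have hE0 : 0 ≤ bE t (U.erase w) (fun T => wlk G (4 / (s : ℝ)) (n + 1) 0 T w) :=
      bE_nonneg ht0 ht1 fun T _ => wlk_nonneg G hth _ _ _ _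
    calc t * (((s : ℝ) / 2 * Real.exp (-((s : ℝ) / 8))) *
          bE t (U.erase w) (fun T => wlk G (4 / (s : ℝ)) (n + 1) 0 T w))
        ≤ 1 * (((s : ℝ) / 2 * Real.exp (-((s : ℝ) / 8))) * (2 * Real.exp ((s : ℝ) / 16))) :=
          mul_le_mul ht1 (mul_le_mul_of_nonneg_left hE' (by positivity))
            (mul_nonneg (by positivity) hE0) zero_le_one
      _ = s * (Real.exp (-((s : ℝ) / 8)) * Real.exp ((s : ℝ) / 16)) := by ring
      _ = s * Real.exp (-((s : ℝ) / 16)) := by
          rw [← Real.exp_add]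
          congr 2
          ring

end Pool.Agent.Ex26
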