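import Pool.Agent.Lib.MP_26a019_lc.Ex.DSpec

set_option autoImplicit false
set_option linter.unusedSectionVars false

/-!
# Part D: walk sums are bounded by self-avoiding walk sums
-/

open Finset Classical

namespace Pool.Agent.Ex26

open Pool.Agent.Kempe Pool.Agent.KempeMix Pool.Agent.Eps26

namespace DSawAux

variable {V : Type} [Fintype V]

lemma saw_succ (G : SimpleGraph V) (th : ℝ) (F : V → ℝ) (n : ℕ) (Λ : Finset V) (x : V) :
    saw G th F (n + 1) Λ x = 2 * (F x + th * ∑ y ∈ nb G Λ x, saw G th F n (Λ.erase x) y) := rfl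

lemma mem_erase_of_nb {G : SimpleGraph V} {Λ : Finset V} {x y : V} (h : y ∈ nb G Λ x) :
    y ∈ Λ.erase x := by
  rw [mem_nb] at h
  exact Finset.mem_erase.2 ⟨fun e => G.loopless.irrefl x (e ▸ h.2), h.1⟩

/-- uniform bound -/
lemma saw_le (G : SimpleGraph V) {th d M : ℝ} (hth : 0 ≤ th) (hd : th * d ≤ 1 / 4)
    (hM : 0 ≤ M) (F : V → ℝ) (hF : ∀ x, F x ≤ M) (n : ℕ) :
    ∀ Λ : Finset V, (∀ x ∈ Λ, ((nb G Λ x).card : ℝ) ≤ d) → ∀ x ∈ Λ,
      saw G th F n Λ x ≤ 4 * M := by
  induction n with
  | zero =>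
    intro Λ _ x _
    simp only [saw]
    linarith
  | succ n ih =>
    intro Λ hΛ x hx
    rw [saw_succ]
    have h1 : ∀ y ∈ nb G Λ x, saw G th F n (Λ.erase x) y ≤ 4 * M := by
      intro y hy
      refine ih (Λ.erase x) ?_ y (mem_erase_of_nb hy)
      intro z hz
      have h2 := hΛ z (Finset.mem_of_mem_erase hz)
      have h3 : (nb G (Λ.erase x) z).card ≤ (nb G Λ z).card :=
        Finset.card_le_card (nb_mono (Finset.erase_subset x Λ) z)
      have h4 : ((nb G (Λ.erase x) z).card : ℝ) ≤ ((nb G Λ z).card : ℝ) := by exact_mod_cast h3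
      linarith
    have h2 : ∑ y ∈ nb G Λ x, saw G th F n (Λ.erase x) y ≤ ((nb G Λ x).card : ℝ) * (4 * M) := by
      have := Finset.sum_le_card_nsmul _ _ _ h1
      rwa [nsmul_eq_mul] at this
    have h3 : ((nb G Λ x).card : ℝ) * (4 * M) ≤ d * (4 * M) :=
      mul_le_mul_of_nonneg_right (hΛ x hx) (by linarith)
    have h4 : th * ∑ y ∈ nb G Λ x, saw G th F n (Λ.erase x) y ≤ th * (d * (4 * M)) :=
      mul_le_mul_of_nonneg_left (h2.trans h3) hth
    have h5 : th * (d * (4 * M)) ≤ M := by
      have : (th * d) * (4 * M) ≤ (1 / 4) * (4 * M) :=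
        mul_le_mul_of_nonneg_right hd (by linarith)
      linarith
    have := hF x
    linarith

/-- linearity in the source -/
lemma saw_lin (G : SimpleGraph V) (th a : ℝ) (F F1 : V → ℝ) (n : ℕ) :
    ∀ (Λ : Finset V) (x : V), saw G th (fun z => F z + a * F1 z) n Λ x =
      saw G th F n Λ x + a * saw G th F1 n Λ x := by
  induction n with
  | zero =>
    intro Λ x
    simp only [saw]
    ring
  | succ n ih =>
    intro Λ x
    rw [saw_succ, saw_succ, saw_succ, Finset.sum_congr rfl (fun y _ => ih (Λ.erase x) y),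
      Finset.sum_add_distrib, ← Finset.mul_sum]
    ring

/-- splitting of a neighbourhood -/
lemma sum_nb_erase (G : SimpleGraph V) {Λ : Finset V} {x : V} (hx : x ∈ Λ) (z : V)
    (u : V → ℝ) : ∑ y ∈ nb G Λ z, u y =
      ∑ y ∈ nb G (Λ.erase x) z, u y + (if G.Adj z x then u x else 0) := by
  by_cases h : G.Adj z x
  · have h1 : nb G Λ z = insert x (nb G (Λ.erase x) z) := by
      ext y
      rw [Finset.mem_insert, mem_nb, mem_nb, Finset.mem_erase]
      constructor
      · rintro ⟨h1, h2⟩
        by_cases hy : y = x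
        · exact Or.inl hy
        · exact Or.inr ⟨⟨hy, h1⟩, h2⟩
      · rintro (rfl | ⟨⟨_, h1⟩, h2⟩)
        · exact ⟨hx, h⟩
        · exact ⟨h1, h2⟩
    have h2 : x ∉ nb G (Λ.erase x) z := by
      rw [mem_nb]
      rintro ⟨h3, _⟩
      exact Finset.notMem_erase x Λ h3
    rw [h1, Finset.sum_insert h2, if_pos h, add_comm]
  · have h1 : nb G Λ z = nb G (Λ.erase x) z := by
      ext y
      rw [mem_nb, mem_nb, Finset.mem_erase]
      constructor
      · rintro ⟨h1, h2⟩
        exact ⟨⟨fun e => h (e ▸ h2), h1⟩, h2⟩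
      · rintro ⟨⟨_, h1⟩, h2⟩
        exact ⟨h1, h2⟩
    rw [← h1, if_neg h, add_zero]

end DSawAux

open DSawAux

/-- walk sums are bounded by self-avoiding walk sums -/
theorem dSaw_proof (V : Type) [Fintype V] : DSaw V := by
  intro G th d n
  induction n with
  | zero =>
    intro Λ F u _ _ _ _ _ _ hcard _ x hx
    have : Λ = ∅ := Finset.card_eq_zero.mp (Nat.le_zero.mp hcard)
    rw [this] at hx
    exact absurd hx (Finset.notMem_empty x)
  | succ n ih =>
    intro Λ F u hth hth2 hd hΛ hF hu hcard hmain x hx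
    have hd0 : (0 : ℝ) ≤ d := le_trans (Nat.cast_nonneg _) (hΛ x hx)
    -- degrees in the smaller set
    have hΛ' : ∀ z ∈ Λ.erase x, ((nb G (Λ.erase x) z).card : ℝ) ≤ d := by
      intro z hz
      have h2 := hΛ z (Finset.mem_of_mem_erase hz)
      have h3 : (nb G (Λ.erase x) z).card ≤ (nb G Λ z).card :=
        Finset.card_le_card (nb_mono (Finset.erase_subset x Λ) z)
      have h4 : ((nb G (Λ.erase x) z).card : ℝ) ≤ ((nb G Λ z).card : ℝ) := by exact_mod_cast h3
      linarith
    set F1 : V → ℝ := fun z => if G.Adj z x then th else 0 with hF1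
    have hF1nn : ∀ z, 0 ≤ F1 z := by
      intro z
      simp only [hF1]
      split_ifs
      · exact hth
      · exact le_rfl
    have hF1le : ∀ z, F1 z ≤ th := by
      intro z
      simp only [hF1]
      split_ifs
      · exact le_rfl
      · exact hth
    have hz : ∀ z ∈ Λ.erase x, u z ≤ saw G th F n (Λ.erase x) z + u x * (4 * th) := by
      intro z hzm
      have h1 := ih (Λ.erase x) (fun z => F z + u x * F1 z) u hth hth2 hd hΛ'
        (fun z => add_nonneg (hF z) (mul_nonneg (hu x) (hF1nn z))) hu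
        (by rw [Finset.card_erase_of_mem hx]; omega)
        (by
          intro y hy
          have h2 := hmain y (Finset.mem_of_mem_erase hy)
          rw [sum_nb_erase G hx y u] at h2
          have h3 : th * (if G.Adj y x then u x else 0) = u x * F1 y := by
            simp only [hF1]
            split_ifs <;> ring
          have h4 : F y + th * (∑ y ∈ nb G (Λ.erase x) y, u y + if G.Adj y x then u x else 0) =
              F y + u x * F1 y + th * ∑ y ∈ nb G (Λ.erase x) y, u y := by
            rw [mul_add, h3]; ring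
          rw [h4] at h2
          exact h2)
        z hzm
      rw [saw_lin] at h1
      have h2 := saw_le G hth hd hth F1 hF1le n (Λ.erase x) hΛ' z hzm
      have h3 := mul_le_mul_of_nonneg_left h2 (hu x)
      linarith
    have h5 : ∑ z ∈ nb G Λ x, u z ≤
        ∑ z ∈ nb G Λ x, (saw G th F n (Λ.erase x) z + u x * (4 * th)) :=
      Finset.sum_le_sum (fun z hzm => hz z (mem_erase_of_nb hzm))
    rw [Finset.sum_add_distrib, Finset.sum_const, nsmul_eq_mul] at h5
    have h6 := hmain x hx
    have h7 := mul_le_mul_of_nonneg_left h5 hth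
    have h8 : th * (((nb G Λ x).card : ℝ) * (u x * (4 * th))) ≤ 1 / 2 * u x := by
      have h9 : ((nb G Λ x).card : ℝ) * (u x * (4 * th)) ≤ d * (u x * (4 * th)) :=
        mul_le_mul_of_nonneg_right (hΛ x hx) (mul_nonneg (hu x) (by linarith))
      have h10 := mul_le_mul_of_nonneg_left h9 hth
      have h11 : th * (d * (u x * (4 * th))) = (th * d) * (4 * th * u x) := by ring
      have h12 : (th * d) * (4 * th * u x) ≤ (1 / 4) * (4 * th * u x) :=
        mul_le_mul_of_nonneg_right hd (mul_nonneg (by linarith) (hu x))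
      have h13 : th * u x ≤ 1 / 2 * u x := mul_le_mul_of_nonneg_right hth2 (hu x)
      linarith
    rw [saw_succ]
    rw [mul_add] at h7
    linarith

end Pool.Agent.Ex26
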