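import Pool.Agent.Lib.MP_26a019_lc.Ex.DSpec

set_option autoImplicit false
set_option linter.unusedVariables false

/-!
# Part D, module DSite: the one-site estimate
-/

open Finset Classical

namespace Pool.Agent.Ex26

open Pool.Agent.Kempe Pool.Agent.KempeMix Pool.Agent.Eps26

namespace DSiteAux

variable {V C : Type} [Fintype V] [Fintype C]

theorem ev_tower (A : Finset (V → C)) (S : Finset V) (F : (V → C) → ℝ) :
    ev A (fun f => ev (cls A S f) F) = ev A F := by
  show (∑ f ∈ A, ev (cls A S f) F) / (A.card : ℝ) = (∑ f ∈ A, F f) / (A.card : ℝ)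
  rw [tower A S F]

theorem arith3 (k x a b : ℝ) (hk : k ≠ 0) :
    (3 * x + 3 * (a / k) + 3 * (b / k)) * k = k * (3 * x) + 3 * a + 3 * b := by
  field_simp

theorem arith4 (S : Finset C) (x : ℝ) (M Y : C → ℝ) (hk : (S.card : ℝ) ≠ 0) :
    (3 * x + 3 * ((∑ b ∈ S, M b) / (S.card : ℝ)) + 3 * ((∑ c ∈ S, Y c) / (S.card : ℝ))) *
      (S.card : ℝ) = ∑ b ∈ S, (3 * x + 3 * M b + 3 * Y b) := by
  rw [arith3 _ _ _ _ hk, Finset.sum_add_distrib, Finset.sum_add_distrib, Finset.sum_const,
    nsmul_eq_mul, ← Finset.mul_sum, ← Finset.mul_sum]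

theorem sq3 (a b c : ℝ) : (a + b + c) ^ 2 ≤ 3 * a ^ 2 + 3 * b ^ 2 + 3 * c ^ 2 := by
  nlinarith [sq_nonneg (a - b), sq_nonneg (b - c), sq_nonneg (a - c)]

end DSiteAux

open DSiteAux

theorem dSite_of {V C : Type} [Fintype V] [Fintype C] (h1 : DFirst V C) (h2 : DClb V C)
    (h3 : DMid V C) (h4 : DBij V C) : DSite V C := by
  intro G U L p s T P c0 v J hG hT hv hvT hdeg hPoin hc0 hcs hJ g
  set A := Col G U L p with hA
  set h := cE A Tᶜ g with hh
  set q : ℝ := (Fintype.card C : ℝ) with hq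
  have hs2 : 2 ≤ s := hG.1
  have hs2' : (2 : ℝ) ≤ (s : ℝ) := by exact_mod_cast hs2
  have hs0 : (0 : ℝ) < s := by linarith
  have hq0 : 0 ≤ q := Nat.cast_nonneg _
  have hs1 : 1 / (s : ℝ) ≤ 1 / 2 := one_div_le_one_div_of_le (by norm_num) hs2'
  have hs1' : 0 < 1 / (s : ℝ) := by positivity
  have hc1 : c0 ≤ 1 := hcs.trans (pow_le_one₀ (by linarith) (by linarith))
  have hnbT : (nb G T v).card ≤ Fintype.card C := by
    have e1 := Finset.card_le_card (nb_mono (G := G) hT v)
    have e2 := hG.2 v hv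
    have e3 : (L v).card ≤ Fintype.card C := Finset.card_le_univ _
    omega
  set e : V → ℝ := fun w => ev A (fun f => (g f - hb G U L w g f) ^ 2) with he
  set X : (V → C) → ℝ := fun f => 2 * q / c0 ^ 2 *
    ∑ w ∈ T, J w * ev (cls A Tᶜ f) (fun f' => (g f' - hb G U L w g f') ^ 2) with hX
  set M : (V → C) → C → ℝ := fun f b => ev (clb G A T v b f)
    (fun f' => (g f' - g (Function.update f' v b)) ^ 2) with hM
  have hJ0 : ∀ w ∈ T, 0 ≤ J w := fun w hw => hJ (fun _ => 0) (fun _ => le_refl _)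
    (fun w _ => by
      simp only [Finset.sum_const_zero, mul_zero, add_zero]
      split_ifs <;> norm_num) w hw
  have he0 : ∀ w, 0 ≤ e w := fun w => ev_nonneg _ fun f _ => sq_nonneg _
  have hprob : ∀ f ∈ A, ∀ b : C, c0 ≤ ev (cls A Tᶜ f)
      (fun f' => if ∀ u ∈ nb G T v, f' u ≠ b then (1 : ℝ) else 0) := fun f hf b =>
    hcs.trans (h2 G U L p s T v b f hG hT hv hf)
  have hne : ∀ f ∈ A, ∀ b : C, (clb G A T v b f).Nonempty := by
    intro f hf b
    by_contra hcon
    rw [Finset.not_nonempty_iff_eq_empty] at hcon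
    have e1 := hprob f hf b
    have e2 : ev (cls A Tᶜ f) (fun f' => if ∀ u ∈ nb G T v, f' u ≠ b then (1 : ℝ) else 0) = 0 := by
      unfold ev
      rw [← Finset.sum_filter]
      have e3 : (cls A Tᶜ f).filter (fun f' => ∀ u ∈ nb G T v, f' u ≠ b) = ∅ := hcon
      rw [e3]
      simp
    rw [e2] at e1
    linarith
  have hfirst : ∀ f ∈ A, ∀ b : C, (ev (clb G A T v b f) g - h f) ^ 2 ≤ X f := by
    intro f hf b
    obtain ⟨b1, b2, -, b4⟩ := bridge_proof V C G U L p s T f hG hT hf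
    have h5 := h1 G T (fun u => avX G U L T f u) f s P c0 v b J b2 (hPoin f hf) hdeg hnbT hc0
      hcs hJ g
    rw [← b1] at h5
    have h6 : ∀ w ∈ T, ev (cls A Tᶜ f)
        (fun f' => (g f' - hb G T (fun u => avX G U L T f u) w g f') ^ 2) =
        ev (cls A Tᶜ f) (fun f' => (g f' - hb G U L w g f') ^ 2) := fun w hw =>
      Eps26.ev_congr _ fun f' hf' => by rw [b4 g w hw f' hf']
    rw [Finset.sum_congr rfl fun w hw => by rw [h6 w hw]] at h5
    exact h5
  have hkey : ∀ f ∈ A, ∀ b ∈ av G U L f v, (h f - h (Function.update f v b)) ^ 2 ≤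
      3 * X f + 3 * M f b + 3 * X (Function.update f v b) := by
    intro f hf b hb
    have hf' : Function.update f v b ∈ A := update_mem hf hv hb
    have e1 := hfirst f hf b
    have e2 := hfirst _ hf' (f v)
    have e3 := h4 G U L p T v b f hT hv hvT hf hb g
    rw [← hA] at e3
    have e4 : (ev (clb G A T v b f) g - ev (clb G A T v (f v) (Function.update f v b)) g) ^ 2 ≤
        M f b := by
      rw [e3, ← Eps26.ev_sub]
      exact ev_sq_le (hne f hf b) _
    have e5 : h f - h (Function.update f v b) = (h f - ev (clb G A T v b f) g) +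
        (ev (clb G A T v b f) g - ev (clb G A T v (f v) (Function.update f v b)) g) +
        (ev (clb G A T v (f v) (Function.update f v b)) g - h (Function.update f v b)) := by ring
    rw [e5]
    refine (sq3 _ _ _).trans ?_
    have e6 : (h f - ev (clb G A T v b f) g) ^ 2 = (ev (clb G A T v b f) g - h f) ^ 2 := by ring
    rw [e6]
    linarith
  have hX0 : ev A X = 2 * q / c0 ^ 2 * ∑ w ∈ T, J w * e w := by
    rw [hX, Eps26.ev_mul_left, Eps26.ev_sum]
    congr 1
    refine Finset.sum_congr rfl fun w _ => ?_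
    rw [Eps26.ev_mul_left, ev_tower]
  have hmid := h3 G U L p s T v c0 hG hT hv hvT hc0 hprob g
  have hfin : ev A (fun f => (∑ c ∈ av G U L f v, (h f - h (Function.update f v c)) ^ 2) /
      ((av G U L f v).card : ℝ)) ≤ 3 * ev A X + 3 * ev A (fun f => (∑ b ∈ av G U L f v, M f b) /
        ((av G U L f v).card : ℝ)) + 3 * ev A (hb G U L v X) := by
    rw [← Eps26.ev_mul_left, ← Eps26.ev_mul_left, ← Eps26.ev_mul_left, ← Eps26.ev_add,
      ← Eps26.ev_add]
    refine ev_mono _ fun f hf => ?_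
    have hpos := av_pos hG hv f
    rw [div_le_iff₀ hpos]
    unfold hb
    have e1 : (3 * X f + 3 * ((∑ b ∈ av G U L f v, M f b) / ((av G U L f v).card : ℝ)) +
        3 * ((∑ c ∈ av G U L f v, X (Function.update f v c)) / ((av G U L f v).card : ℝ))) *
        ((av G U L f v).card : ℝ) =
        ∑ b ∈ av G U L f v, (3 * X f + 3 * M f b + 3 * X (Function.update f v b)) := by
      exact arith4 _ (X f) (M f) (fun c => X (Function.update f v c)) hpos.ne'
    rw [e1]
    exact Finset.sum_le_sum fun b hb => hkey f hf b hb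
  rw [ev_hb hG p hv X, hX0] at hfin
  have hlast := (ev_sub_hb_sq_le_avg hG p hv h).trans hfin
  refine hlast.trans ?_
  have hS0 : 0 ≤ ∑ w ∈ T, J w * e w :=
    Finset.sum_nonneg fun w hw => mul_nonneg (hJ0 w hw) (he0 w)
  have hm2 : 3 * ev A (fun f => (∑ b ∈ av G U L f v, M f b) / ((av G U L f v).card : ℝ)) ≤
      12 * q / c0 ^ 2 * e v := by
    have e1 : 3 * (2 * q / (s * c0) * e v) ≤ 12 * q / c0 ^ 2 * e v := by
      have e2 : 3 * (2 * q / (s * c0)) ≤ 12 * q / c0 ^ 2 := by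
        rw [← mul_div_assoc, div_le_div_iff₀ (by positivity) (by positivity)]
        have e3 : c0 ^ 2 ≤ s * c0 := by nlinarith
        nlinarith [mul_nonneg hq0 (sub_nonneg.2 e3), mul_nonneg hq0 (mul_nonneg hs0.le hc0.le)]
      calc 3 * (2 * q / (s * c0) * e v) = 3 * (2 * q / (s * c0)) * e v := by ring
        _ ≤ _ := mul_le_mul_of_nonneg_right e2 (he0 v)
    exact (mul_le_mul_of_nonneg_left hmid (by norm_num)).trans e1
  have e7 : 3 * (2 * q / c0 ^ 2 * ∑ w ∈ T, J w * e w) + 3 * (2 * q / c0 ^ 2 * ∑ w ∈ T, J w * e w) =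
      12 * q / c0 ^ 2 * ∑ w ∈ T, J w * e w := by ring
  have e8 : 12 * q / c0 ^ 2 * (e v + ∑ w ∈ T, J w * e w) =
      12 * q / c0 ^ 2 * e v + 12 * q / c0 ^ 2 * ∑ w ∈ T, J w * e w := by ring
  rw [e8]
  linarith

end Pool.Agent.Ex26
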