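import Pool.Agent.Lib.MP_26a019_lc.Ex.DSpec

set_option autoImplicit false
set_option linter.unusedVariables false

/-!
# Part D: walks which end next to a bad vertex
-/

open Finset Classical

namespace Pool.Agent.Ex26

open Pool.Agent.Kempe Pool.Agent.KempeMix Pool.Agent.Eps26

namespace DWlkAux

variable {V : Type} [Fintype V]

theorem wlk_nonneg (G : SimpleGraph V) {th2 : ℝ} (h : 0 ≤ th2) (n : ℕ) :
    ∀ (k : ℕ) (Λ : Finset V) (x : V), 0 ≤ wlk G th2 n k Λ x := by
  induction n with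
  | zero => intro k Λ x; exact le_rfl
  | succ n ih =>
    intro k Λ x
    simp only [wlk]
    exact add_nonneg (Real.exp_pos _).le
      (mul_nonneg h (Finset.sum_nonneg fun y _ => ih _ _ _))

theorem exp_le_wlk (G : SimpleGraph V) {th2 : ℝ} (h : 0 ≤ th2) (n k : ℕ) (Λ : Finset V) (x : V) :
    Real.exp (((nb G Λ x).card : ℝ) + k) ≤ wlk G th2 (n + 1) k Λ x := by
  simp only [wlk]
  have : 0 ≤ th2 * ∑ y ∈ nb G Λ x, wlk G th2 n (k + 1) (Λ.erase y) y :=
    mul_nonneg h (Finset.sum_nonneg fun y _ => wlk_nonneg G h _ _ _ _)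
  linarith

/-- the general claim -/
theorem main (G : SimpleGraph V) (s : ℕ) (hs : 0 < s) (T : Finset V) (n : ℕ) :
    ∀ (k : ℕ) (X : Finset V) (x : V), X ⊆ T \ Bad G s T → x ∈ X → X.card = k + 1 →
      saw G (2 / (s : ℝ)) (fun x => ((nb G (Bad G s T) x).card : ℝ)) n
          ((T \ Bad G s T) \ (X.erase x)) x ≤
        (s : ℝ) / 2 * Real.exp (-((s : ℝ) / 8)) * wlk G (4 / (s : ℝ)) (n + 1) k (T \ X) x := by
  have hs0 : (0 : ℝ) < s := by exact_mod_cast hs
  have h4 : (0 : ℝ) ≤ 4 / (s : ℝ) := by positivity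
  have hc : 0 ≤ (s : ℝ) / 2 * Real.exp (-((s : ℝ) / 8)) := by positivity
  induction n with
  | zero =>
    intro k X x _ _ _
    have : saw G (2 / (s : ℝ)) (fun x => ((nb G (Bad G s T) x).card : ℝ)) 0
        ((T \ Bad G s T) \ (X.erase x)) x = 0 := rfl
    rw [this]
    exact mul_nonneg hc (wlk_nonneg G h4 _ _ _ _)
  | succ n ih =>
    intro k X x hX hx hk
    set B := Bad G s T with hB
    have hBT : B ⊆ T := by rw [hB]; exact Finset.filter_subset _ _
    have hXT : X ⊆ T := fun y hy => (Finset.mem_sdiff.1 (hX hy)).1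
    have hXB : ∀ y ∈ X, y ∉ B := fun y hy => (Finset.mem_sdiff.1 (hX hy)).2
    -- the domain after removing `x`
    have e1 : ((T \ B) \ (X.erase x)).erase x = (T \ B) \ X := by
      ext y
      simp only [Finset.mem_erase, Finset.mem_sdiff]
      constructor
      · rintro ⟨h1, h2, h3⟩
        exact ⟨h2, fun hy => h3 ⟨h1, hy⟩⟩
      · rintro ⟨h1, h2⟩
        exact ⟨fun hy => h2 (hy ▸ hx), h1, fun hy => h2 hy.2⟩
    have e2 : nb G ((T \ B) \ (X.erase x)) x = nb G ((T \ B) \ X) x := by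
      ext y
      simp only [mem_nb, Finset.mem_erase, Finset.mem_sdiff]
      constructor
      · rintro ⟨⟨h1, h2⟩, h3⟩
        refine ⟨⟨h1, fun hy => h2 ⟨?_, hy⟩⟩, h3⟩
        rintro rfl
        exact G.loopless.irrefl _ h3
      · rintro ⟨⟨h1, h2⟩, h3⟩
        exact ⟨⟨h1, fun hy => h2 hy.2⟩, h3⟩
    have lhs : saw G (2 / (s : ℝ)) (fun x => ((nb G B x).card : ℝ)) (n + 1)
        ((T \ B) \ (X.erase x)) x = 2 * (((nb G B x).card : ℝ) + 2 / (s : ℝ) *
          ∑ y ∈ nb G ((T \ B) \ X) x,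
            saw G (2 / (s : ℝ)) (fun x => ((nb G B x).card : ℝ)) n ((T \ B) \ X) y) := by
      simp only [saw]
      rw [e1, e2]
    -- induction hypothesis at the neighbours
    have step : ∀ y ∈ nb G ((T \ B) \ X) x,
        saw G (2 / (s : ℝ)) (fun x => ((nb G B x).card : ℝ)) n ((T \ B) \ X) y ≤
          (s : ℝ) / 2 * Real.exp (-((s : ℝ) / 8)) *
            wlk G (4 / (s : ℝ)) (n + 1) (k + 1) ((T \ X).erase y) y := by
      intro y hy
      have hy1 : y ∈ (T \ B) \ X := (mem_nb.1 hy).1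
      have hyX : y ∉ X := (Finset.mem_sdiff.1 hy1).2
      have hyT : y ∈ T \ B := (Finset.mem_sdiff.1 hy1).1
      have h := ih (k + 1) (insert y X) y (Finset.insert_subset hyT hX)
        (Finset.mem_insert_self y X) (by rw [Finset.card_insert_of_notMem hyX, hk])
      rw [Finset.erase_insert hyX] at h
      have e3 : T \ insert y X = (T \ X).erase y := by
        ext z
        simp only [Finset.mem_erase, Finset.mem_sdiff, Finset.mem_insert]
        constructor
        · rintro ⟨h1, h2⟩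
          exact ⟨fun hz => h2 (Or.inl hz), h1, fun hz => h2 (Or.inr hz)⟩
        · rintro ⟨h1, h2, h3⟩
          refine ⟨h2, ?_⟩
          rintro (hz | hz)
          · exact h1 hz
          · exact h3 hz
      rw [e3] at h
      exact h
    -- the bad neighbours
    have bad : ∀ y ∈ nb G B x, Real.exp ((s : ℝ) / 8) ≤
        wlk G (4 / (s : ℝ)) (n + 1) (k + 1) ((T \ X).erase y) y := by
      intro y hy
      refine le_trans ?_ (exp_le_wlk G h4 n (k + 1) _ y)
      apply Real.exp_le_exp.2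
      have hyB : y ∈ B := (mem_nb.1 hy).1
      have hdeg : s < 8 * (nb G T y).card := by
        rw [hB] at hyB
        exact (Finset.mem_filter.1 hyB).2
      have hsub : nb G T y ⊆ nb G ((T \ X).erase y) y ∪ X := by
        intro z hz
        obtain ⟨hzT, hadj⟩ := mem_nb.1 hz
        by_cases hzX : z ∈ X
        · exact Finset.mem_union_right _ hzX
        · refine Finset.mem_union_left _ (mem_nb.2 ⟨?_, hadj⟩)
          refine Finset.mem_erase.2 ⟨?_, Finset.mem_sdiff.2 ⟨hzT, hzX⟩⟩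
          rintro rfl
          exact G.loopless.irrefl _ hadj
      have hcard : (nb G T y).card ≤ (nb G ((T \ X).erase y) y).card + (k + 1) := by
        have h1 := Finset.card_le_card hsub
        have h2 := Finset.card_union_le (nb G ((T \ X).erase y) y) X
        rw [hk] at h2
        exact h1.trans h2
      have hr1 : (s : ℝ) ≤ 8 * ((nb G T y).card : ℝ) := by exact_mod_cast hdeg.le
      have hr2 : ((nb G T y).card : ℝ) ≤ ((nb G ((T \ X).erase y) y).card : ℝ) + ((k + 1 : ℕ) : ℝ) := by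
        exact_mod_cast hcard
      linarith
    -- the right side
    have rhs : wlk G (4 / (s : ℝ)) (n + 1 + 1) k (T \ X) x =
        Real.exp (((nb G (T \ X) x).card : ℝ) + k) + 4 / (s : ℝ) *
          ∑ y ∈ nb G (T \ X) x, wlk G (4 / (s : ℝ)) (n + 1) (k + 1) ((T \ X).erase y) y := rfl
    have hdisj : Disjoint (nb G B x) (nb G ((T \ B) \ X) x) := by
      rw [Finset.disjoint_left]
      intro y h1 h2
      exact (Finset.mem_sdiff.1 (Finset.mem_sdiff.1 (mem_nb.1 h2).1).1).2 (mem_nb.1 h1).1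
    have hsub : nb G B x ∪ nb G ((T \ B) \ X) x ⊆ nb G (T \ X) x := by
      intro y hy
      rcases Finset.mem_union.1 hy with h | h
      · obtain ⟨h1, h2⟩ := mem_nb.1 h
        exact mem_nb.2 ⟨Finset.mem_sdiff.2 ⟨hBT h1, fun hyX => hXB y hyX h1⟩, h2⟩
      · obtain ⟨h1, h2⟩ := mem_nb.1 h
        exact mem_nb.2 ⟨Finset.mem_sdiff.2 ⟨(Finset.mem_sdiff.1 (Finset.mem_sdiff.1 h1).1).1,
          (Finset.mem_sdiff.1 h1).2⟩, h2⟩
    have hsum : ∑ y ∈ nb G B x, wlk G (4 / (s : ℝ)) (n + 1) (k + 1) ((T \ X).erase y) y +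
        ∑ y ∈ nb G ((T \ B) \ X) x, wlk G (4 / (s : ℝ)) (n + 1) (k + 1) ((T \ X).erase y) y ≤
        ∑ y ∈ nb G (T \ X) x, wlk G (4 / (s : ℝ)) (n + 1) (k + 1) ((T \ X).erase y) y := by
      rw [← Finset.sum_union hdisj]
      exact Finset.sum_le_sum_of_subset_of_nonneg hsub fun y _ _ => wlk_nonneg G h4 _ _ _ _
    have hbadsum : ((nb G B x).card : ℝ) * Real.exp ((s : ℝ) / 8) ≤
        ∑ y ∈ nb G B x, wlk G (4 / (s : ℝ)) (n + 1) (k + 1) ((T \ X).erase y) y := by
      rw [← nsmul_eq_mul]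
      exact Finset.card_nsmul_le_sum _ _ _ bad
    have hstepsum := Finset.sum_le_sum step
    rw [← Finset.mul_sum] at hstepsum
    rw [lhs, rhs]
    set W1 := ∑ y ∈ nb G B x, wlk G (4 / (s : ℝ)) (n + 1) (k + 1) ((T \ X).erase y) y with hW1
    set W2 := ∑ y ∈ nb G ((T \ B) \ X) x,
      wlk G (4 / (s : ℝ)) (n + 1) (k + 1) ((T \ X).erase y) y with hW2
    set W := ∑ y ∈ nb G (T \ X) x,
      wlk G (4 / (s : ℝ)) (n + 1) (k + 1) ((T \ X).erase y) y with hW
    set Sv := ∑ y ∈ nb G ((T \ B) \ X) x,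
      saw G (2 / (s : ℝ)) (fun x => ((nb G B x).card : ℝ)) n ((T \ B) \ X) y with hSv
    set N : ℝ := ((nb G B x).card : ℝ) with hN
    set E := Real.exp (-((s : ℝ) / 8)) with hE
    have hE0 : 0 < E := Real.exp_pos _
    have hEE : E * Real.exp ((s : ℝ) / 8) = 1 := by
      rw [hE, ← Real.exp_add]; simp
    have hexp : 0 ≤ Real.exp (((nb G (T \ X) x).card : ℝ) + k) := (Real.exp_pos _).le
    have hne : (s : ℝ) ≠ 0 := hs0.ne'
    have k1 : 2 * (2 / (s : ℝ) * Sv) ≤ 2 * E * W2 := by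
      have := mul_le_mul_of_nonneg_left hstepsum (by positivity : (0 : ℝ) ≤ 4 / s)
      calc 2 * (2 / (s : ℝ) * Sv) = 4 / s * Sv := by ring
        _ ≤ 4 / s * ((s : ℝ) / 2 * E * W2) := this
        _ = 2 * E * W2 := by field_simp; ring
    have k2 : 2 * N ≤ 2 * E * W1 := by
      have := mul_le_mul_of_nonneg_left hbadsum (by positivity : (0 : ℝ) ≤ 2 * E)
      calc 2 * N = 2 * N * (E * Real.exp ((s : ℝ) / 8)) := by rw [hEE]; ring
        _ = 2 * E * (N * Real.exp ((s : ℝ) / 8)) := by ring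
        _ ≤ 2 * E * W1 := this
    have k3 : 2 * E * (W1 + W2) ≤ 2 * E * W := mul_le_mul_of_nonneg_left hsum (by positivity)
    have k4 : (s : ℝ) / 2 * E * (4 / (s : ℝ) * W) = 2 * E * W := by field_simp; ring
    have k5 : 0 ≤ (s : ℝ) / 2 * E * Real.exp (((nb G (T \ X) x).card : ℝ) + k) :=
      mul_nonneg hc hexp
    calc 2 * (N + 2 / (s : ℝ) * Sv) = 2 * N + 2 * (2 / (s : ℝ) * Sv) := by ring
      _ ≤ 2 * E * W1 + 2 * E * W2 := add_le_add k2 k1
      _ = 2 * E * (W1 + W2) := by ring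
      _ ≤ 2 * E * W := k3
      _ = (s : ℝ) / 2 * E * (4 / (s : ℝ) * W) := k4.symm
      _ ≤ (s : ℝ) / 2 * E * (Real.exp (((nb G (T \ X) x).card : ℝ) + k) + 4 / (s : ℝ) * W) := by
          rw [mul_add]; linarith

end DWlkAux

theorem dWlk_proof (V : Type) [Fintype V] : DWlk V := by
  intro G s n T w hs hw hwB
  have h := DWlkAux.main G s hs T n 0 {w} w
    (Finset.singleton_subset_iff.2 (Finset.mem_sdiff.2 ⟨hw, hwB⟩)) (Finset.mem_singleton_self w)
    (by simp)
  have e1 : (({w} : Finset V).erase w) = ∅ := by simp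
  have e2 : T \ {w} = T.erase w := Finset.sdiff_singleton_eq_erase w T
  rw [e1, e2, Finset.sdiff_empty] at h
  exact h

end Pool.Agent.Ex26
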