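import Pool.Agent.Lib.MP_26a019_lc.Ex.DSpec

/-!
# Module DWlkE: the mean of the walk sum over a random subset
-/

set_option autoImplicit false

open Finset Classical

namespace Pool.Agent.Ex26

open Pool.Agent.Kempe Pool.Agent.KempeMix Pool.Agent.Eps26

namespace DWlkEAux

variable {V : Type} [Fintype V]

/-- the sum over the neighbours in `T` as a sum over the neighbours in `D` -/
theorem sum_nb_eq (G : SimpleGraph V) {T D : Finset V} (hTD : T ⊆ D) (x : V)
    (H : V → Finset V → ℝ) :
    ∑ y ∈ nb G T x, H y (T.erase y) =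
      ∑ y ∈ nb G D x, (if y ∈ T then H y (T.erase y) else 0) := by
  rw [← Finset.sum_filter]
  refine Finset.sum_congr ?_ fun _ _ => rfl
  ext y
  rw [Finset.mem_filter, mem_nb, mem_nb]
  constructor
  · rintro ⟨h1, h2⟩
    exact ⟨⟨hTD h1, h2⟩, h1⟩
  · rintro ⟨⟨_, h2⟩, h3⟩
    exact ⟨h3, h2⟩

/-- the recursion step -/
theorem bE_step (G : SimpleGraph V) (t th2 : ℝ) (n k : ℕ) (D : Finset V) (x : V) :
    bE t D (fun T => wlk G th2 (n + 1) k T x) =
      Real.exp k * bE t D (fun T => Real.exp ((nb G T x).card : ℝ)) +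
        th2 * (t * ∑ y ∈ nb G D x, bE t (D.erase y) (fun T => wlk G th2 n (k + 1) T y)) := by
  have h1 : bE t D (fun T => wlk G th2 (n + 1) k T x) =
      bE t D (fun T => Real.exp k * Real.exp ((nb G T x).card : ℝ) +
        th2 * ∑ y ∈ nb G D x,
          (if y ∈ T then wlk G th2 n (k + 1) (T.erase y) y else 0)) := by
    refine bE_congr fun T hT => ?_
    rw [← sum_nb_eq G hT x (fun y T' => wlk G th2 n (k + 1) T' y), ← Real.exp_add,
      add_comm (k : ℝ)]
    rfl
  rw [h1, bE_add, bE_mul_left, bE_mul_left, bE_sum, Finset.mul_sum (nb G D x) _ t]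
  congr 2
  refine Finset.sum_congr rfl fun y hy => ?_
  exact bE_mem t (mem_nb.1 hy).1 (fun T => wlk G th2 n (k + 1) T y)

end DWlkEAux

open DWlkEAux in
/-- the mean of the walk sum over a random subset -/
theorem dWlkE_of {V : Type} [Fintype V] (h1 : DExpM V) : DWlkE V := by
  intro G t th2 q n
  induction n with
  | zero =>
    intro k D x ht0 ht1 hth hq hs hx hD
    have h0 : bE t D (fun T => wlk G th2 0 k T x) = 0 := bE_const t D 0
    rw [h0]
    positivity
  | succ n ih =>
    intro k D x ht0 ht1 hth hq hs hx hD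
    rw [bE_step]
    have hM : bE t D (fun T => Real.exp ((nb G T x).card : ℝ)) ≤ Real.exp (2 * t * q) := by
      refine (h1 G t D x ht0 ht1).trans (Real.exp_le_exp.2 ?_)
      exact mul_le_mul_of_nonneg_left hx (by positivity)
    have hS : ∑ y ∈ nb G D x, bE t (D.erase y) (fun T => wlk G th2 n (k + 1) T y) ≤
        q * (2 * Real.exp (2 * t * q) * Real.exp ((k : ℝ) + 1)) := by
      have hB : ∀ y ∈ nb G D x, bE t (D.erase y) (fun T => wlk G th2 n (k + 1) T y) ≤
          2 * Real.exp (2 * t * q) * Real.exp ((k : ℝ) + 1) := by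
        intro y hy
        have hyD := (mem_nb.1 hy).1
        have hmono : ∀ z ∈ D, ((nb G (D.erase y) z).card : ℝ) ≤ q := fun z hz =>
          (Nat.cast_le.2 (Finset.card_le_card (nb_mono (Finset.erase_subset y D) z))).trans
            (hD z hz)
        have := ih (k + 1) (D.erase y) y ht0 ht1 hth hq hs (hmono y hyD)
          (fun z hz => hmono z (Finset.mem_of_mem_erase hz))
        push_cast at this
        exact this
      refine (Finset.sum_le_card_nsmul _ _ _ hB).trans ?_
      rw [nsmul_eq_mul]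
      exact mul_le_mul_of_nonneg_right hx (by positivity)
    have hM0 : 0 < Real.exp (2 * t * q) := Real.exp_pos _
    have hk0 : 0 < Real.exp (k : ℝ) := Real.exp_pos _
    have e1 : Real.exp (k : ℝ) * bE t D (fun T => Real.exp ((nb G T x).card : ℝ)) ≤
        Real.exp k * Real.exp (2 * t * q) := mul_le_mul_of_nonneg_left hM hk0.le
    have e2 : th2 * (t * ∑ y ∈ nb G D x,
        bE t (D.erase y) (fun T => wlk G th2 n (k + 1) T y)) ≤
        th2 * (t * (q * (2 * Real.exp (2 * t * q) * Real.exp ((k : ℝ) + 1)))) :=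
      mul_le_mul_of_nonneg_left (mul_le_mul_of_nonneg_left hS ht0) hth
    have e3 : th2 * (t * (q * (2 * Real.exp (2 * t * q) * Real.exp ((k : ℝ) + 1)))) =
        (th2 * t * q * Real.exp 1) * (2 * (Real.exp k * Real.exp (2 * t * q))) := by
      rw [Real.exp_add]; ring
    have e4 : (th2 * t * q * Real.exp 1) * (2 * (Real.exp k * Real.exp (2 * t * q))) ≤
        (1 / 2) * (2 * (Real.exp k * Real.exp (2 * t * q))) :=
      mul_le_mul_of_nonneg_right hs (by positivity)
    linarith [e1, e2, e3, e4]

end Pool.Agent.Ex26
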