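import Pool.Agent.Lib.MP_26a019_lc.Ex.DAsm
import Pool.Agent.Lib.MP_26a019_lc.Ex.DPois
import Pool.Agent.Lib.MP_26a019_lc.Ex.DMax
import Pool.Agent.Lib.MP_26a019_lc.Ex.DEig
import Pool.Agent.Lib.MP_26a019_lc.Ex.DLow
import Pool.Agent.Lib.MP_26a019_lc.Ex.DCov
import Pool.Agent.Lib.MP_26a019_lc.Ex.DAvoid
import Pool.Agent.Lib.MP_26a019_lc.Ex.DFirst
import Pool.Agent.Lib.MP_26a019_lc.Ex.DClb
import Pool.Agent.Lib.MP_26a019_lc.Ex.DMid
import Pool.Agent.Lib.MP_26a019_lc.Ex.DBij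
import Pool.Agent.Lib.MP_26a019_lc.Ex.DSite
import Pool.Agent.Lib.MP_26a019_lc.Ex.DSaw
import Pool.Agent.Lib.MP_26a019_lc.Ex.DWlk
import Pool.Agent.Lib.MP_26a019_lc.Ex.DExpM
import Pool.Agent.Lib.MP_26a019_lc.Ex.DWlkE
import Pool.Agent.Lib.MP_26a019_lc.Ex.DRare
import Pool.Agent.Lib.MP_26a019_lc.Ex.DField
import Pool.Agent.Lib.MP_26a019_lc.Ex.DPyth
import Pool.Agent.Lib.MP_26a019_lc.Ex.DPin
import Pool.Agent.Lib.MP_26a019_lc.Ex.DFix
import Pool.Agent.Lib.MP_26a019_lc.Ex.DHyp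
import Pool.Agent.Lib.MP_26a019_lc.Ex.DNum
import Pool.Agent.Lib.MP_26a019_lc.Ex.DC0

set_option autoImplicit false

/-!
# Part D, complete: spectral independence implies the Poincare inequality with a constant which
does not depend on the number of colours
-/

open Finset Classical

namespace Pool.Agent.Ex26

open Pool.Agent.Kempe Pool.Agent.KempeMix Pool.Agent.Eps26

theorem partD : PartD :=
  partD_of dNum_proof dC0_proof (fun V _ => dField_proof V)
    (fun V _ => dRare_of (dWlk_proof V) (dExpM_proof V) (dWlkE_of (dExpM_proof V)))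
    (fun V C _ _ => dFix_of (dPyth_proof V C) (dPin_proof V C)
      (dLow_of (dMax_proof V C) dEig_proof) (dSaw_proof V)
      (dSite_of (dFirst_of (dCov_of (dPois_proof V C) (dMax_proof V C)) (dAvoid_proof V C))
        (dClb_of (dAvoid_proof V C)) (dMid_proof V C) (dBij_proof V C)))
    (fun V C _ _ => dHyp_proof V C)

end Pool.Agent.Ex26
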