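import Pool.Agent.Lib.MP_26a019_lc.Ex.DDefs

set_option autoImplicit false
set_option linter.unusedVariables false

/-!
# Part D: statements of the modules

Every `def DX : Prop` is one module, proved in `Ex/DX.lean` importing `Ex/DSpec.lean` only. The
signature of the theorem (with the modules which may be used as hypotheses) is at the end of each
docstring. Notation: `A = Col G U L p`, `E = ev A`, `P_x = hb G U L x`,
`q = Fintype.card C`. All facts of `Eps/Basic.lean` (namespace `Eps26`) and `Mix/MTower.lean`,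
`Mix/MChain.lean` (namespace `KempeMix`) may be used; `Ex/DDefs.lean` has the basic facts on `osc`
and `bE`.
-/

open Finset Classical

namespace Pool.Agent.Ex26

open Pool.Agent.Kempe Pool.Agent.KempeMix Pool.Agent.Eps26

/-! ## 1. Poisson equation, maximum principle, Dobrushin regime -/

/-- **DPois** The Poisson equation. Proof: linear algebra. `S = {f // f ∈ A}`; for `ψ : S → ℝ` let
`ψ'` be the extension by `0` to all configurations and `Φ ψ = (f ↦ gen ψ' f + E ψ')`, a linear map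
`(S → ℝ) →ₗ (S → ℝ)`. For `f ∈ A` the value `hb x ψ' f` uses only values in `A` (`update_mem`).
Injective: if `Φ ψ = 0`, take `E`: `E gen ψ' = 0` (`ev_hb`), so `E ψ' = 0` and `gen ψ' = 0` on `A`,
so `0 = E[ψ' gen ψ'] = dir ψ'` (`E(ψ - P_x ψ)^2 = E[ψ (ψ - P_x ψ)]`, from `ev_ind_mul` with
`φ = P_x ψ`, `ind_hb`), so `vr A ψ' ≤ P * 0`, a sum of squares, so `ψ' = E ψ' = 0` on `A`.
`LinearMap.injective_iff_surjective` gives `ψ` with `gen ψ' + E ψ' = Y - E Y`; taking `E`: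
`E ψ' = 0`.
Signature: `theorem dPois_proof (V C : Type) [Fintype V] [Fintype C] : DPois V C`. -/
def DPois (V C : Type) [Fintype V] [Fintype C] : Prop :=
  ∀ (G : SimpleGraph V) (U : Finset V) (L : V → Finset C) (p : V → C) (s : ℕ) (P : ℝ),
    Good G U L s → Poin G U L p P → ∀ Y : (V → C) → ℝ, ∃ ψ : (V → C) → ℝ,
      ∀ f ∈ Col G U L p, gen G U L ψ f = Y f - ev (Col G U L p) Y

/-- **DMax** The maximum principle. Proof: let `f, f'` be a pair with `ψ f - ψ f' = osc w =: D`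
(`exists_osc`); `f' = update f w (f' w)`. If `f w = f' w` then `f = f'`, `D = 0` and the right side
is `≥ 0` (`ζ ≥ 0` by `f = f`, `osc_nonneg`). Let `a = f w ≠ b = f' w`.
`gen ψ f - gen ψ f' = ∑_{x∈U} (D - (P_x ψ f - P_x ψ f'))`. The terms:
`x = w`: `P_w ψ f = P_w ψ f'` (`ind_hb`), the term is `D`.
`x ≠ w`, `x ∉ nb w`: then `w ∉ nb x`, `av f x = av f' x` (`av_update_of_notMem`), `P_x ψ f - P_x ψ f'`
is the mean over `c ∈ av f x` of `ψ f[x→c] - ψ f'[x→c] ≤ D` (`le_osc`, `update_mem`), term `≥ 0`.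
`x ∈ nb w`: let `W = avX G U L {w} f x = avX G U L {w} f' x` (`avX_update_of_mem`), so
`av f x = W.erase a`, `av f' x = W.erase b` (`av_eq_erase`). `E0 = (W.erase a).erase b` is nonempty
(`card_avX_nb`: `|W| ≥ s + 1 ≥ 3`). `m`, `m'` = means over `c ∈ E0` of `ψ f[x→c]`, `ψ f'[x→c]`;
`m - m' ≤ D`. If `b ∉ W` then `P_x ψ f = m`; if `b ∈ W`, `P_x ψ f - m = (ψ f[x→b] - m)/|W.erase a|`,
which is at most `osc x / s` in absolute value (`card_av`). Same for `f'`. So the term is at least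
`- 2 osc x / s`. Sum.
Signature: `theorem dMax_proof (V C : Type) [Fintype V] [Fintype C] : DMax V C`. -/
def DMax (V C : Type) [Fintype V] [Fintype C] : Prop :=
  ∀ (G : SimpleGraph V) (U : Finset V) (L : V → Finset C) (p : V → C) (s : ℕ)
    (ψ : (V → C) → ℝ) (w : V) (ζ : ℝ), Good G U L s → w ∈ U →
    (∀ f ∈ Col G U L p, ∀ f' ∈ Col G U L p, (∀ u, u ≠ w → f u = f' u) →
      |gen G U L ψ f - gen G U L ψ f'| ≤ ζ) →
    osc (Col G U L p) w ψ ≤ ζ + 2 / (s : ℝ) * ∑ x ∈ nb G U w, osc (Col G U L p) x ψ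

/-- **DEig** Finite-dimensional spectral theorem: if all eigenvectors with eigenvalue in `[0,c)` are
constant and `M` is positive semidefinite, `c ∑ u^2 ≤ ⟨u, M u⟩` for mean zero `u`. Proof: `M` is
Hermitian, `b i` = orthonormal eigenvector basis (`Matrix.IsHermitian.eigenvectorBasis`),
`λ i ≥ 0` by positivity; `∑ u^2 = ∑_i ⟨b i, u⟩^2`, `⟨u, M u⟩ = ∑_i λ i ⟨b i, u⟩^2`; if `λ i < c`
then `b i` is constant and `⟨b i, u⟩ = 0`.
Signature: `theorem dEig_proof : DEig`. -/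
def DEig : Prop :=
  ∀ (S : Type) [Fintype S] (M : S → S → ℝ) (c : ℝ), (∀ x y, M x y = M y x) →
    (∀ u : S → ℝ, 0 ≤ ∑ x, u x * ∑ y, M x y * u y) →
    (∀ (ψ : S → ℝ) (lam : ℝ), (∀ x, ∑ y, M x y * ψ y = lam * ψ x) → 0 ≤ lam → lam < c →
      ∀ x y, ψ x = ψ y) →
    ∀ u : S → ℝ, ∑ x, u x = 0 → c * ∑ x, (u x) ^ 2 ≤ ∑ x, u x * ∑ y, M x y * u y

/-- **DLow** Small degrees: Poincaré constant 2. Proof: `DEig` with `S = {f // f ∈ A}`, `c = 3/4`,
`M f f' = ` coefficient of `ψ f'` in `gen ψ f`, i.e. (`δ_{f'}` = indicator of `f'`)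
`M f f' = gen G U L (fun h => if h = f' then 1 else 0) f`, so that `∑_{f'} M f f' ψ f' = gen ψ f`
(`gen` is linear in `ψ` and, at `f ∈ A`, only uses the values in `A`, `update_mem`). Symmetric and
`∑_f ψ f gen ψ f = ∑_x ∑_f (ψ f - P_x ψ f)^2` by `ev_mul_hb`, `ev_ind_mul`.
Eigenvectors: let `gen ψ = lam ψ` on `A`, `0 ≤ lam < 3/4`. Let `w ∈ U` with maximal `osc w ψ =: D`
(if `U = ∅` then `A` is a single configuration). By `DMax` with `ζ = lam * D`: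
`D ≤ lam D + (2/s)(s/8) D = (lam + 1/4) D`, so `D = 0`. So `osc w ψ = 0` for all `w ∈ U`, so
`ψ f = P_w ψ f` on `A`, `dir ψ = 0`, `vr A ψ ≤ P * 0` and `ψ` is constant on `A`.
Conclusion: apply to `u = g - E g`: `3/4 vr A g ≤ dir g`.
Signature: `theorem dLow_of {V C : Type} [Fintype V] [Fintype C] (h1 : DMax V C) (h2 : DEig) :
DLow V C`. -/
def DLow (V C : Type) [Fintype V] [Fintype C] : Prop :=
  ∀ (G : SimpleGraph V) (U : Finset V) (L : V → Finset C) (p : V → C) (s : ℕ) (P : ℝ),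
    Good G U L s → (∀ w ∈ U, 8 * (nb G U w).card ≤ s) → Poin G U L p P → Poin G U L p 2

/-- **DCov** Localised covariance bound. Proof: `ψ` from `DPois` for `Y`, `δ w = osc A w ψ`. The
inequality for `δ` is `DMax` (`gen ψ f - gen ψ f' = Y f - Y f'`).
`E[Y g] - E Y E g = E[(Y - E Y) g] = ∑_{w∈U} E[(ψ - P_w ψ) g] = ∑_w E[(ψ - P_w ψ)(g - P_w g)]`
(`ev_ind_mul`: `E[ψ P_w g] = E[P_w ψ P_w g] `), and `|ψ f - P_w ψ f| ≤ δ w` for `f ∈ A` (mean over
`c ∈ av f w` of `ψ f - ψ f[w→c]`, `le_osc`). So the covariance is at most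
`∑_w δ w E|g - P_w g| ≤ ∑_w δ w √(e_w)`, `e_w = E(g - P_w g)^2`, and Cauchy-Schwarz
(`Finset.sum_mul_sq_le_sq_mul_sq` with `√δ_w`, `√(δ_w e_w)`).
Signature: `theorem dCov_of {V C : Type} [Fintype V] [Fintype C] (h1 : DPois V C) (h2 : DMax V C)
: DCov V C`. -/
def DCov (V C : Type) [Fintype V] [Fintype C] : Prop :=
  ∀ (G : SimpleGraph V) (U : Finset V) (L : V → Finset C) (p : V → C) (s : ℕ) (P : ℝ),
    Good G U L s → Poin G U L p P → ∀ (Y : (V → C) → ℝ) (ζ : V → ℝ),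
    (∀ w ∈ U, ∀ f ∈ Col G U L p, ∀ f' ∈ Col G U L p, (∀ u, u ≠ w → f u = f' u) →
      |Y f - Y f'| ≤ ζ w) →
    ∃ δ : V → ℝ, (∀ w, 0 ≤ δ w) ∧
      (∀ w ∈ U, δ w ≤ ζ w + 2 / (s : ℝ) * ∑ x ∈ nb G U w, δ x) ∧
      ∀ g : (V → C) → ℝ,
        (ev (Col G U L p) (fun f => Y f * g f) - ev (Col G U L p) Y * ev (Col G U L p) g) ^ 2 ≤
          (∑ w ∈ U, δ w) *
            ∑ w ∈ U, δ w * ev (Col G U L p) (fun f => (g f - hb G U L w g f) ^ 2)

/-! ## 2. The one-site estimate -/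

/-- **DAvoid** Proof: induction on `N`. `N = insert u N'`: `1[∀ u'∈N, f u' ≠ b] = 1[f u ≠ b] Y'`,
`Y' = 1[∀ u' ∈ N', f u' ≠ b]` does not depend on `f u`, so `E[(1 - 1[f u = b]) Y'] =
E[(1 - pr_u(b)) Y'] ≥ (1 - 1/s) E Y'` (`ev_color_mul`, `pr_le`).
Signature: `theorem dAvoid_proof (V C : Type) [Fintype V] [Fintype C] : DAvoid V C`. -/
def DAvoid (V C : Type) [Fintype V] [Fintype C] : Prop :=
  ∀ (G : SimpleGraph V) (U : Finset V) (L : V → Finset C) (p : V → C) (s : ℕ), Good G U L s →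
    ∀ (N : Finset V) (b : C), N ⊆ U →
      (1 - 1 / (s : ℝ)) ^ N.card ≤
        ev (Col G U L p) (fun f => if ∀ u ∈ N, f u ≠ b then (1 : ℝ) else 0)

/-- **DFirst** Forbidding the colour `b` at the neighbours of `v`. Proof: `Y f = 1` if
`∀ u ∈ nb G T v, f u ≠ b`, else `0`; `|Y f - Y f'| ≤ 1[w ~ v]` if `f, f'` differ only at `w ∈ T`
(if `w` is not adjacent to `v` then `w ∉ nb G T v` and `Y f = Y f'`). `DCov` gives `δ`;
`δ w ≤ J w` on `T` by `JBd`. `∑_{w∈T} δ w ≤ 2 q`: sum the inequality over `w ∈ T`,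
`∑_w ∑_{x∈nb w} δ x = ∑_x δ x |nb x| ≤ (s/8) ∑ δ` (`sum_nb_comm`), so `∑ δ ≤ |nb G T v| + ∑ δ / 4`.
`E Y ≥ c0` (`DAvoid`, `(1-1/s)^|nb| ≥ (1-1/s)^q`). `ev (A.filter Y) g = E[Y g]/E Y`, so
`ev (A.filter Y) g - E g = (E[Y g] - E Y E g)/E Y`.
Signature: `theorem dFirst_of {V C : Type} [Fintype V] [Fintype C] (h1 : DCov V C) (h2 : DAvoid V
C) : DFirst V C`. -/
def DFirst (V C : Type) [Fintype V] [Fintype C] : Prop :=
  ∀ (G : SimpleGraph V) (T : Finset V) (L : V → Finset C) (p : V → C) (s : ℕ) (P c0 : ℝ) (v : V)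
    (b : C) (J : V → ℝ), Good G T L s → Poin G T L p P →
    (∀ w ∈ T, 8 * (nb G T w).card ≤ s) → (nb G T v).card ≤ Fintype.card C → 0 < c0 →
    c0 ≤ (1 - 1 / (s : ℝ)) ^ (Fintype.card C) → JBd G s T v J → ∀ g : (V → C) → ℝ,
    (ev ((Col G T L p).filter (fun f => ∀ u ∈ nb G T v, f u ≠ b)) g - ev (Col G T L p) g) ^ 2 ≤
      2 * (Fintype.card C : ℝ) / c0 ^ 2 *
        ∑ w ∈ T, J w * ev (Col G T L p) (fun f => (g f - hb G T L w g f) ^ 2)

/-- **DClb** Lower bound for the probability of `clb` in the class. Proof: `Bridge` (the class of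
`f` is `Col G T (avX ..) f`, good with the same `s`), `DAvoid` with `N = nb G T v`,
`|nb G T v| ≤ |nb G U v| ≤ q` (`v ∈ U`, `nb_mono`, `card_nb_le_card`).
Signature: `theorem dClb_of {V C : Type} [Fintype V] [Fintype C] (h1 : DAvoid V C) : DClb V C`. -/
def DClb (V C : Type) [Fintype V] [Fintype C] : Prop :=
  ∀ (G : SimpleGraph V) (U : Finset V) (L : V → Finset C) (p : V → C) (s : ℕ) (T : Finset V)
    (v : V) (b : C) (f : V → C), Good G U L s → T ⊆ U → v ∈ U → f ∈ Col G U L p →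
    (1 - 1 / (s : ℝ)) ^ (Fintype.card C) ≤
      ev (cls (Col G U L p) Tᶜ f) (fun f' => if ∀ u ∈ nb G T v, f' u ≠ b then (1 : ℝ) else 0)

/-- **DMid** The middle term. Proof: `Z b f' = (g f' - g (f'[v→b]))^2`. For `f ∈ A`, `b ∈ av f v`:
if `f' ∈ clb b f` then `b ∈ av f' v` (the neighbours of `v` outside `T` have the same colours in `f`
and `f'`, those in `T` do not have the colour `b`). So `ev (clb b f) (Z b) ≤ (1/c0) ev (cls f)
(1[b ∈ av f' v] Z b f')` (`ev (cls.filter Y) Z = ev cls (Y Z)/ev cls Y`, `ev cls Y ≥ c0`). As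
`|av f v| ≥ s`, and by `tower` for each `b ∈ univ`, the left side is at most
`(1/(s c0)) ∑_b E[1[b ∈ av f v] Z b f] = (1/(s c0)) E ∑_{b∈av f v} Z b f ≤
(q/(s c0)) E[(∑_{b∈av f v} Z b f)/|av f v|]`, and `E[mean_{b∈av f v} (g f - g f[v→b])^2] =
E g^2 - 2 E[g P_v g] + E g^2 = 2 E(g - P_v g)^2` (`ev_rev`, `ev_mul_hb`).
Signature: `theorem dMid_proof (V C : Type) [Fintype V] [Fintype C] : DMid V C`. -/
def DMid (V C : Type) [Fintype V] [Fintype C] : Prop :=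
  ∀ (G : SimpleGraph V) (U : Finset V) (L : V → Finset C) (p : V → C) (s : ℕ) (T : Finset V)
    (v : V) (c0 : ℝ), Good G U L s → T ⊆ U → v ∈ U → v ∉ T → 0 < c0 →
    (∀ f ∈ Col G U L p, ∀ b : C, c0 ≤ ev (cls (Col G U L p) Tᶜ f)
      (fun f' => if ∀ u ∈ nb G T v, f' u ≠ b then (1 : ℝ) else 0)) →
    ∀ g : (V → C) → ℝ,
    ev (Col G U L p) (fun f => (∑ b ∈ av G U L f v, ev (clb G (Col G U L p) T v b f)
        (fun f' => (g f' - g (Function.update f' v b)) ^ 2)) / ((av G U L f v).card : ℝ)) ≤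
      2 * (Fintype.card C : ℝ) / (s * c0) *
        ev (Col G U L p) (fun f => (g f - hb G U L v g f) ^ 2)

/-- **DBij** Proof: `f' ↦ f'[v→b]` is a bijection from `clb b f` to `clb (f v) f[v→b]` with inverse
`f'' ↦ f''[v→f v]`. Indeed if `f' ∈ A` agrees with `f` outside `T` (so `f' v = f v`) and no
neighbour of `v` in `T` has the colour `b` in `f'`, then `b ∈ av f' v`, so `f'[v→b] ∈ A`
(`update_mem`), it agrees with `f[v→b]` outside `T`, and no neighbour of `v` in `T` has the colour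
`f v = f' v` because `f'` is proper.
Signature: `theorem dBij_proof (V C : Type) [Fintype V] [Fintype C] : DBij V C`. -/
def DBij (V C : Type) [Fintype V] [Fintype C] : Prop :=
  ∀ (G : SimpleGraph V) (U : Finset V) (L : V → Finset C) (p : V → C) (T : Finset V)
    (v : V) (b : C) (f : V → C), T ⊆ U → v ∈ U → v ∉ T → f ∈ Col G U L p → b ∈ av G U L f v →
    ∀ g : (V → C) → ℝ,
    ev (clb G (Col G U L p) T v (f v) (Function.update f v b)) g =
      ev (clb G (Col G U L p) T v b f) (fun f' => g (Function.update f' v b))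

/-- **DSite** The one-site estimate for `h = E[g | colours outside T]`. Proof: for `f ∈ A`,
`b ∈ av f v`, `f' = f[v→b]`:
`h f - h f' = (h f - ev (clb b f) g) + ev (clb b f) (g - g(·[v→b])) + (ev (clb (f v) f') g - h f')`
(`DBij`). Let `X f = (2q/c0^2) ∑_{w∈T} J w ev (cls A Tᶜ f) (g - P_w g)^2`; by `Bridge` (class =
`Col G T (avX ..) f`, heat baths agree) and `DFirst` the squares of the first and third terms are
at most `X f`, `X f'`. Square of the middle term `≤ ev (clb b f) (g - g(·[v→b]))^2` (`ev_sq_le`,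
`clb` nonempty by `DClb`). `E(h - P_v h)^2 ≤ E[mean_{b∈av f v} (h f - h f[v→b])^2]`
(`ev_sub_hb_sq_le_avg`) `≤ 3 E X + 3 E[mean_b X f[v→b]] + 3 (DMid) = 6 E X + 3 (DMid)` (`ev_rev`),
`E X = (2q/c0^2) ∑_{w∈T} J w e_w` (`tower`), `3 · 2q/(s c0) ≤ 12 q/c0^2` (`c0 ≤ 1`, `s ≥ 1`).
Signature: `theorem dSite_of {V C : Type} [Fintype V] [Fintype C] (h1 : DFirst V C) (h2 : DClb V
C) (h3 : DMid V C) (h4 : DBij V C) : DSite V C`. -/
def DSite (V C : Type) [Fintype V] [Fintype C] : Prop :=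
  ∀ (G : SimpleGraph V) (U : Finset V) (L : V → Finset C) (p : V → C) (s : ℕ) (T : Finset V)
    (P c0 : ℝ) (v : V) (J : V → ℝ), Good G U L s → T ⊆ U → v ∈ U → v ∉ T →
    (∀ w ∈ T, 8 * (nb G T w).card ≤ s) →
    (∀ f ∈ Col G U L p, Poin G T (fun u => avX G U L T f u) f P) → 0 < c0 →
    c0 ≤ (1 - 1 / (s : ℝ)) ^ (Fintype.card C) → JBd G s T v J → ∀ g : (V → C) → ℝ,
    ev (Col G U L p) (fun f => (cE (Col G U L p) Tᶜ g f -
        hb G U L v (cE (Col G U L p) Tᶜ g) f) ^ 2) ≤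
      12 * (Fintype.card C : ℝ) / c0 ^ 2 *
        (ev (Col G U L p) (fun f => (g f - hb G U L v g f) ^ 2) +
          ∑ w ∈ T, J w * ev (Col G U L p) (fun f => (g f - hb G U L w g f) ^ 2))

/-! ## 3. Self-avoiding walks -/

/-- **DSaw** Walk sums are bounded by self-avoiding walk sums. Proof: induction on `n`, for all
`Λ, F, u`. First a uniform bound (separate lemma, induction on `n`): if `0 ≤ F y ≤ M` on `Λ` and the
degrees in `Λ` are at most `d` then `0 ≤ saw n Λ y ≤ 4 M` (`2 (M + th d 4 M) ≤ 4 M`), and `saw` is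
linear in `F`. Step: let `x ∈ Λ`, `Λ' = Λ.erase x`. For `z ∈ Λ'`: `u z ≤ F' z + th ∑_{y∈nb Λ' z} u y`
with `F' z = F z + th 1[z ~ x] u x`. By induction `u z ≤ saw F' n Λ' z = saw F n Λ' z +
u x · saw (th 1[· ~ x]) n Λ' z ≤ saw F n Λ' z + u x · 4 th`. So
`u x ≤ F x + th ∑_{z∈nb Λ x} u z ≤ F x + th ∑_z saw F n Λ' z + (4 th^2 d) u x` and `4 th^2 d ≤ th ≤
1/2`. Hence `u x ≤ 2 (F x + th ∑_z saw F n Λ' z) = saw F (n+1) Λ x`.
Signature: `theorem dSaw_proof (V : Type) [Fintype V] : DSaw V`. -/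
def DSaw (V : Type) [Fintype V] : Prop :=
  ∀ (G : SimpleGraph V) (th d : ℝ) (n : ℕ) (Λ : Finset V) (F u : V → ℝ), 0 ≤ th → th ≤ 1 / 2 →
    th * d ≤ 1 / 4 → (∀ x ∈ Λ, ((nb G Λ x).card : ℝ) ≤ d) → (∀ x, 0 ≤ F x) → (∀ x, 0 ≤ u x) →
    Λ.card ≤ n → (∀ x ∈ Λ, u x ≤ F x + th * ∑ y ∈ nb G Λ x, u y) →
    ∀ x ∈ Λ, u x ≤ saw G th F n Λ x

/-- **DWlk** Self-avoiding walks in `T \ Bad` which end next to a bad vertex. Proof: more generally,
for all `n`, `X ⊆ T \ Bad`, `x ∈ X`, `|X| = k + 1`: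
`saw n ((T \ Bad) \ (X.erase x)) x ≤ (s/2) e^{-s/8} wlk (n+1) k (T \ X) x`, by induction on `n`
(`X = {w}`, `k = 0` is the claim). `n = 0`: left side `0`, right side `≥ 0`. Step: the left side is
`2 F x + (4/s) ∑_{y ∈ nb ((T\Bad)\X) x} saw n ((T\Bad)\X) y` (`x` removed from the domain; neighbours
of `x` are not `x`), where `(T\Bad)\X = (T\Bad) \ ((insert y X).erase y)`: induction hypothesis for
`insert y X`, `k+1`. The right side is at least
`(s/2) e^{-s/8} (4/s) ∑_{y∈nb (T\X) x} wlk (n+1) (k+1) ((T\X).erase y) y`; split the sum into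
`y ∈ Bad` and `y ∈ (T\Bad)\X` (disjoint, as `X ∩ Bad = ∅`). For `y ∈ Bad`:
`wlk (n+1) (k+1) .. ≥ e^{|nb ((T\X).erase y) y| + k + 1} ≥ e^{s/8}` because
`nb T y ⊆ nb ((T\X).erase y) y ∪ X` and `8 |nb T y| > s`.
Signature: `theorem dWlk_proof (V : Type) [Fintype V] : DWlk V`. -/
def DWlk (V : Type) [Fintype V] : Prop :=
  ∀ (G : SimpleGraph V) (s n : ℕ) (T : Finset V) (w : V), 0 < s → w ∈ T → w ∉ Bad G s T →
    saw G (2 / (s : ℝ)) (fun x => ((nb G (Bad G s T) x).card : ℝ)) n (T \ Bad G s T) w ≤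
      (s : ℝ) / 2 * Real.exp (-((s : ℝ) / 8)) * wlk G (4 / (s : ℝ)) (n + 1) 0 (T.erase w) w

/-- **DExpM** Proof: `bE t D (T ↦ exp |nb G T x|) = ∏ ≤ (1 + t (e - 1))^{|nb G D x|} ≤
exp (2 t |nb G D x|)`; induction on `D` with `bE_insert`: if `v` is adjacent to `x` then
`nb G (insert v T) x = insert v (nb G T x)`, factor `t e + 1 - t ≤ 1 + 2 t ≤ e^{2t}`; else no
change.
Signature: `theorem dExpM_proof (V : Type) [Fintype V] : DExpM V`. -/
def DExpM (V : Type) [Fintype V] : Prop :=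
  ∀ (G : SimpleGraph V) (t : ℝ) (D : Finset V) (x : V), 0 ≤ t → t ≤ 1 →
    bE t D (fun T => Real.exp ((nb G T x).card : ℝ)) ≤
      Real.exp (2 * t * ((nb G D x).card : ℝ))

/-- **DWlkE** Proof: induction on `n`, for all `k`, `D`, `x`. `n = 0`: `0`. Step: the first part is
`e^k bE (exp |nb T x|) ≤ e^k e^{2 t q}` (`DExpM`). Second part: for `T ⊆ D`,
`∑_{y∈nb T x} wlk n (k+1) (T.erase y) y = ∑_{y∈nb D x} (if y ∈ T then wlk n (k+1) (T.erase y) y
else 0)`, `bE_mem`: `t ∑_{y∈nb D x} bE t (D.erase y) (wlk n (k+1) · y) ≤ t q 2 e^{k+1} e^{2tq}` (the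
degree hypothesis for `D.erase y` follows, `nb_mono`). `th2 t q e ≤ 1/2` gives
`e^k M0 + th2 t q e · 2 e^k M0 ≤ 2 e^k M0`, `M0 = e^{2tq}`.
Signature: `theorem dWlkE_of {V : Type} [Fintype V] (h1 : DExpM V) : DWlkE V`. -/
def DWlkE (V : Type) [Fintype V] : Prop :=
  ∀ (G : SimpleGraph V) (t th2 q : ℝ) (n k : ℕ) (D : Finset V) (x : V), 0 ≤ t → t ≤ 1 →
    0 ≤ th2 → 0 ≤ q → th2 * t * q * Real.exp 1 ≤ 1 / 2 → (nb G D x).card ≤ q →
    (∀ y ∈ D, ((nb G D y).card : ℝ) ≤ q) →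
    bE t D (fun T => wlk G th2 n k T x) ≤ 2 * Real.exp (2 * t * q) * Real.exp k

/-- **DRare** Bad vertices are rare. Proof: (1) for `v ∈ Bad T`: `1 ≤ e^{|nb T v| - s/8}`,
`nb T v = nb (T.erase v) v`; so the left side is at most `bE (1[v∈T] e^{|nb (T.erase v) v| - s/8}) =
t e^{-s/8} bE t (U.erase v) (exp |nb T v|) ≤ t e^{-s/8} e^{2tq}` (`bE_mem`, `DExpM`) and
`2 t q ≤ s/16` (`t ≤ s/(32 q)`), `t ≤ 1`. (2) `DWlk`, `bE_mem`, `DWlkE` with `D = U.erase w`,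
`th2 = 4/s`, `k = 0`: `th2 t q e ≤ 4 · 3/32 ≤ 1/2`. Get `t (s/2) e^{-s/8} 2 e^{2tq} ≤ s e^{-s/16}`.
Signature: `theorem dRare_of {V : Type} [Fintype V] (h1 : DWlk V) (h2 : DExpM V) (h3 : DWlkE V) :
DRare V`. -/
def DRare (V : Type) [Fintype V] : Prop :=
  ∀ (G : SimpleGraph V) (s n : ℕ) (t q : ℝ) (U : Finset V), 0 < s → 0 ≤ t → t ≤ 1 → 0 ≤ q →
    32 * t * q ≤ s → (∀ y ∈ U, ((nb G U y).card : ℝ) ≤ q) →
    (∀ v ∈ U, bE t U (fun T => if v ∈ Bad G s T then (1 : ℝ) else 0) ≤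
      Real.exp (-((s : ℝ) / 16))) ∧
    ∀ w ∈ U, bE t U (fun T => if w ∈ T \ Bad G s T then
      saw G (2 / (s : ℝ)) (fun x => ((nb G (Bad G s T) x).card : ℝ)) n (T \ Bad G s T) w
      else 0) ≤ s * Real.exp (-((s : ℝ) / 16))

/-! ## 4. Field dynamics -/

/-- **DField** Proof: `φ τ = bE τ U F`. (a) derivative (induction on `U`, `bE_insert`):
`HasDerivAt φ (∑_{v∈U} bE τ (U.erase v) (fun T => F (insert v T) - F T)) τ`.
(b) `bE τ U (fun T => ∑_{v∈T} (F T - F (T.erase v))) = τ φ' τ` (`bE_sum` over `v ∈ U` of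
`if v ∈ T then .. else 0`, `bE_mem` with `H T = F (insert v T) - F T`, `T = insert v (T.erase v)`).
So `τ φ' τ ≤ K φ τ` for `0 ≤ τ ≤ 1` (hypothesis and `bE_mono`). (c) `(φ τ / τ^K)' =
(τ φ' - K φ)/τ^(K+1) ≤ 0`, so `τ ↦ φ τ/τ^K` is antitone on `[t, 1]` (`antitoneOn_of_deriv_nonpos`),
and `φ 1 = F U` (`bE_one`).
Signature: `theorem dField_proof (V : Type) [Fintype V] : DField V`. -/
def DField (V : Type) [Fintype V] : Prop :=
  ∀ (U : Finset V) (F : Finset V → ℝ) (K : ℕ) (t : ℝ), 0 < t → t ≤ 1 →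
    (∀ T, T ⊆ U → ∑ v ∈ T, (F T - F (T.erase v)) ≤ K * F T) →
    t ^ K * F U ≤ bE t U F

/-! ## 5. Assembly statements -/

/-- **DPyth** Pythagoras for `T' ⊆ T`: `∑ (g - E[g|off T])^2 = ∑ (g - E[g|off T'])^2 + ∑ (h -
E[h|off T])^2`, `h = E[g|off T']`. Proof: `cE Om Tᶜ h = cE Om Tᶜ g` (tower inside the class), and
`aa_pyth` three times: `aa g Tᶜ = ∑ g^2 - ∑ (cE Tᶜ g)^2`, `aa g T'ᶜ = ∑ g^2 - ∑ h^2`,
`aa h Tᶜ = ∑ h^2 - ∑ (cE Tᶜ h)^2`.
Signature: `theorem dPyth_proof (V C : Type) [Fintype V] [Fintype C] : DPyth V C`. -/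
def DPyth (V C : Type) [Fintype V] [Fintype C] : Prop :=
  ∀ (A : Finset (V → C)) (T T' : Finset V) (g : (V → C) → ℝ), T' ⊆ T →
    aa A g Tᶜ = aa A g T'ᶜ + aa A (cE A T'ᶜ g) Tᶜ

/-- **DPin** Poincaré for the pinned instance, summed over the boundary condition. Proof: `aa_eq`,
`Bridge`, `tower` as in `Eps/RecP.lean`.
Signature: `theorem dPin_proof (V C : Type) [Fintype V] [Fintype C] : DPin V C`. -/
def DPin (V C : Type) [Fintype V] [Fintype C] : Prop :=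
  ∀ (G : SimpleGraph V) (U : Finset V) (L : V → Finset C) (p : V → C) (s : ℕ) (T : Finset V)
    (P : ℝ), Good G U L s → T ⊆ U →
    (∀ f ∈ Col G U L p, Poin G T (fun u => avX G U L T f u) f P) → ∀ g : (V → C) → ℝ,
    aa (Col G U L p) g Tᶜ ≤ P * ∑ v ∈ T, ∑ f ∈ Col G U L p, (g f - hb G U L v g f) ^ 2

/-- **DFix** The inequality for a fixed set `T`. Proof: `B = Bad G s T`, `T' = T \ B`; vertices of
`T'` have at most `s/8` neighbours in `T'`. `DPyth`. First part: `DPin` for `T'` with the constant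
`2` (`DLow`, `Bridge` for goodness). Second part, `h = cE A T'ᶜ g`: `DPin` for `T` with `P`; for
`v ∈ T'` the term vanishes (`h (f[v→c]) = h f`, the same class); for `v ∈ B`: `DSite` for `T'` with
`J_v w = saw G (2/s) (fun x => if G.Adj x v then 1 else 0) |V| T' w` (`JBd` from `DSaw` with
`th = 2/s`, `d = s/8`). Sum over `v ∈ B`: `∑_{v∈B} J_v w = saw G (2/s) (fun x => |nb G B x|) |V| T' w`
(`saw` is linear in `F`; induction).
Signature: `theorem dFix_of {V C : Type} [Fintype V] [Fintype C] (h1 : DPyth V C) (h2 : DPin V C)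
(h3 : DLow V C) (h4 : DSaw V) (h5 : DSite V C) : DFix V C`. -/
def DFix (V C : Type) [Fintype V] [Fintype C] : Prop :=
  ∀ (G : SimpleGraph V) (U : Finset V) (L : V → Finset C) (p : V → C) (s : ℕ) (T : Finset V)
    (P c0 : ℝ), Good G U L s → 4 ≤ s → T ⊆ U → 0 ≤ P →
    (∀ T', T' ⊆ T → ∀ f ∈ Col G U L p, Poin G T' (fun u => avX G U L T' f u) f P) → 0 < c0 →
    c0 ≤ (1 - 1 / (s : ℝ)) ^ (Fintype.card C) → ∀ (g : (V → C) → ℝ) (e : V → ℝ),
    (∀ v, e v = ev (Col G U L p) (fun f => (g f - hb G U L v g f) ^ 2)) →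
    aa (Col G U L p) g Tᶜ / ((Col G U L p).card : ℝ) ≤
      2 * ∑ v ∈ T, e v + P * (12 * (Fintype.card C : ℝ) / c0 ^ 2) *
        (∑ v ∈ Bad G s T, e v + ∑ w ∈ T \ Bad G s T,
          saw G (2 / (s : ℝ)) (fun x => ((nb G (Bad G s T) x).card : ℝ)) (Fintype.card V)
            (T \ Bad G s T) w * e w)

/-- **DHyp** The hypothesis of `DField` from spectral independence. Proof: as in `Eps/RecP.lean`:
`a T - a (T.erase v) = ∑_{f∈A} vr (cls A Tᶜ f) (f' ↦ ev ((cls A Tᶜ f).filter (· v = f' v)) g)`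
(`aa_insert`, `cE_insert_sq`), sum over `v ∈ T`, and `KempeMix.dual` for the set `cls A Tᶜ f`: its
hypothesis (for a family `h`) follows from `SIx` for the pinned instance (`Bridge`) applied to
`k v = h v - ev (h v (f v))`: `FF T k` differs from `∑ h v (f v)` by a constant and
`nrm = ∑_v vr (h v (f v))` (`ev_single`). Divide by `|A|`, `aa_eq`.
Signature: `theorem dHyp_proof (V C : Type) [Fintype V] [Fintype C] : DHyp V C`. -/
def DHyp (V C : Type) [Fintype V] [Fintype C] : Prop :=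
  ∀ (G : SimpleGraph V) (U : Finset V) (L : V → Finset C) (p : V → C) (s : ℕ) (T : Finset V)
    (K : ℝ), Good G U L s → T ⊆ U → 0 ≤ K →
    (∀ f ∈ Col G U L p, SIx G T (fun u => avX G U L T f u) f K) → ∀ g : (V → C) → ℝ,
    ∑ v ∈ T, (aa (Col G U L p) g Tᶜ - aa (Col G U L p) g (T.erase v)ᶜ) ≤
      K * aa (Col G U L p) g Tᶜ

/-- **DNum** Pure real analysis. Proof: `12 P q / c^2 (1 + q) e^{-ε q/16} → 0` as `q → ∞`.
Signature: `theorem dNum_proof : DNum`. -/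
def DNum : Prop :=
  ∀ (ε P c : ℝ), 0 < ε → 0 < P → 0 < c → ∃ q0 : ℕ, ∀ q : ℕ, q0 ≤ q →
    P * (12 * (q : ℝ) / c ^ 2) * (1 + (q : ℝ)) * Real.exp (-(ε * q / 16)) ≤ 1

/-- **DC0** The constant `c0 = (1/4)^m`, `m = ⌈1/ε⌉`. Proof: `(1 - 1/s)^s ≥ 1/4` for `s ≥ 2`
(`(1-1/s)^s` is increasing in `s`; or Bernoulli: `(1-1/s)^s = ((1-1/s)^{s/2})^2`; or
`1 - x ≥ 4^{-x}` on `[0,1/2]` by concavity of `1 - 4^{-x} ... `), `q ≤ s/ε ≤ s m`, so
`(1-1/s)^q ≥ (1-1/s)^{s m} ≥ (1/4)^m`.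
Signature: `theorem dC0_proof : DC0`. -/
def DC0 : Prop :=
  ∀ (ε : ℝ) (s q : ℕ), 0 < ε → 2 ≤ s → ε * (q : ℝ) ≤ s →
    (1 / 4 : ℝ) ^ ⌈1 / ε⌉₊ ≤ (1 - 1 / (s : ℝ)) ^ q

end Pool.Agent.Ex26
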