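import Pool.Agent.Lib.MP_26a019_lc.Ex.CDefs

set_option autoImplicit false
set_option linter.unusedVariables false
set_option linter.unusedSectionVars false

/-!
# Basic facts on `ev2`, `so`, `sx`, `DO`, `sg`
-/

open Finset Classical

namespace Pool.Agent.Ex26

open Pool.Agent.Kempe Pool.Agent.KempeMix Pool.Agent.Eps26

variable {V C : Type} [Fintype V] [Fintype C] {A : Finset (V → C)}

theorem ev2_add (F H : (V → C) → (V → C) → ℝ) :
    ev2 A (fun f f' => F f f' + H f f') = ev2 A F + ev2 A H := by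
  unfold ev2
  simp only [ev_add]

theorem ev2_sub (F H : (V → C) → (V → C) → ℝ) :
    ev2 A (fun f f' => F f f' - H f f') = ev2 A F - ev2 A H := by
  unfold ev2
  simp only [ev_sub]

theorem ev2_neg (F : (V → C) → (V → C) → ℝ) :
    ev2 A (fun f f' => - F f f') = - ev2 A F := by
  unfold ev2
  simp only [ev_neg]

theorem ev2_mul_left (c : ℝ) (F : (V → C) → (V → C) → ℝ) :
    ev2 A (fun f f' => c * F f f') = c * ev2 A F := by
  unfold ev2
  simp only [ev_mul_left]

theorem ev2_mul_right (c : ℝ) (F : (V → C) → (V → C) → ℝ) :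
    ev2 A (fun f f' => F f f' * c) = ev2 A F * c := by
  unfold ev2
  simp only [ev_mul_right]

theorem ev2_sum {ι : Type} (t : Finset ι) (F : ι → (V → C) → (V → C) → ℝ) :
    ev2 A (fun f f' => ∑ i ∈ t, F i f f') = ∑ i ∈ t, ev2 A (F i) := by
  unfold ev2
  simp only [ev_sum]

theorem ev2_mono {F H : (V → C) → (V → C) → ℝ} (h : ∀ f ∈ A, ∀ f' ∈ A, F f f' ≤ H f f') :
    ev2 A F ≤ ev2 A H := by
  unfold ev2
  exact ev_mono _ fun f hf => ev_mono _ fun f' hf' => h f hf f' hf'

theorem ev2_congr {F H : (V → C) → (V → C) → ℝ} (h : ∀ f ∈ A, ∀ f' ∈ A, F f f' = H f f') :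
    ev2 A F = ev2 A H := by
  unfold ev2
  exact ev_congr _ fun f hf => ev_congr _ fun f' hf' => h f hf f' hf'

theorem ev2_nonneg {F : (V → C) → (V → C) → ℝ} (h : ∀ f ∈ A, ∀ f' ∈ A, 0 ≤ F f f') :
    0 ≤ ev2 A F := by
  unfold ev2
  exact ev_nonneg _ fun f hf => ev_nonneg _ fun f' hf' => h f hf f' hf'

theorem ev2_eq (F : (V → C) → (V → C) → ℝ) :
    ev2 A F = (∑ f ∈ A, ∑ f' ∈ A, F f f') / ((A.card : ℝ) * (A.card : ℝ)) := by
  unfold ev2 ev
  rw [← Finset.sum_div, div_div]

theorem ev2_swap (F : (V → C) → (V → C) → ℝ) :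
    ev2 A (fun f f' => F f' f) = ev2 A F := by
  rw [ev2_eq, ev2_eq, Finset.sum_comm]

theorem ev2_const (hA : A.Nonempty) (c : ℝ) : ev2 A (fun _ _ => c) = c := by
  unfold ev2
  simp only [ev_const hA]

theorem ev2_left (hA : A.Nonempty) (g : (V → C) → ℝ) : ev2 A (fun f _ => g f) = ev A g := by
  unfold ev2
  simp only [ev_const hA]

theorem ev2_right (hA : A.Nonempty) (g : (V → C) → ℝ) : ev2 A (fun _ f' => g f') = ev A g := by
  unfold ev2
  exact ev_const hA _

/-- products of functions of the two colourings -/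
theorem ev2_mul (g h : (V → C) → ℝ) :
    ev2 A (fun f f' => g f * h f') = ev A g * ev A h := by
  unfold ev2
  simp only [ev_mul_left, ev_mul_right]

/-- `a b ≤ δ a^2 + b^2/(4 δ)` under the mean -/
theorem ev2_young {δ : ℝ} (hδ : 0 < δ) (F H : (V → C) → (V → C) → ℝ) :
    ev2 A (fun f f' => F f f' * H f f') ≤
      δ * ev2 A (fun f f' => (F f f') ^ 2) + 1 / (4 * δ) * ev2 A (fun f f' => (H f f') ^ 2) := by
  rw [← ev2_mul_left, ← ev2_mul_left, ← ev2_add]
  refine ev2_mono fun f _ f' _ => ?_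
  have h1 : 0 ≤ (δ * F f f' - H f f' / 2) ^ 2 / δ := by positivity
  have h2 : (δ * F f f' - H f f' / 2) ^ 2 / δ =
      δ * (F f f') ^ 2 + 1 / (4 * δ) * (H f f') ^ 2 - F f f' * H f f' := by
    field_simp
    ring
  linarith

theorem ev2_sq_sub (hA : A.Nonempty) (g : (V → C) → ℝ) :
    ev2 A (fun f f' => (g f - g f') ^ 2) = 2 * vr A g := by
  have h1 : ev2 A (fun f f' => (g f - g f') ^ 2) =
      ev2 A (fun f f' => ((g f) ^ 2 + (g f') ^ 2) - 2 * (g f * g f')) :=
    ev2_congr fun f _ f' _ => by ring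
  rw [h1, ev2_sub, ev2_add, ev2_mul_left, ev2_mul, ev2_left hA (fun f => (g f) ^ 2),
    ev2_right hA (fun f => (g f) ^ 2), vr_eq hA]
  ring

/-! ### partial colourings -/

theorem so_eq {f : V → C} {v : V} {c : C} : so f v = some c ↔ f v = c := by
  unfold so; simp

theorem sx_eq {x : V} {f : V → C} {v : V} {c : C} : sx x f v = some c ↔ v ≠ x ∧ f v = c := by
  unfold sx
  by_cases h : v = x <;> simp [h]

theorem DO_so (U : Finset V) (c : C) (f f' : V → C) : DO U c (so f) (so f') = DD U c f f' := by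
  unfold DO DD
  simp only [so_eq]

theorem mem_DO {U : Finset V} {c : C} {φ φ' : V → Option C} {u : V} :
    u ∈ DO U c φ φ' ↔ u ∈ U ∧ ¬ (φ u = some c ↔ φ' u = some c) := by
  unfold DO; simp

theorem mem_DD {U : Finset V} {c : C} {f f' : V → C} {u : V} :
    u ∈ DD U c f f' ↔ u ∈ U ∧ ¬ (f u = c ↔ f' u = c) := by
  unfold DD; simp

theorem DO_comm (U : Finset V) (c : C) (φ φ' : V → Option C) : DO U c φ φ' = DO U c φ' φ := by
  ext u
  rw [mem_DO, mem_DO]
  tauto

theorem sg_so (c : C) (f f' : V → C) (u : V) :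
    sg c (so f) (so f') u = (if f u = c then 1 else 0) - (if f' u = c then 1 else 0) := by
  unfold sg
  simp only [so_eq]

theorem sg_comm (c : C) (φ φ' : V → Option C) (u : V) : sg c φ' φ u = - sg c φ φ' u := by
  unfold sg; ring

theorem sk_comm (k : V → C → ℝ) (c : C) (κ : Finset V) (φ φ' : V → Option C) :
    sk k c κ φ' φ = - sk k c κ φ φ' := by
  unfold sk
  rw [← Finset.sum_neg_distrib]
  exact Finset.sum_congr rfl fun u _ => by rw [sg_comm]; ring

theorem abs_sg_le (c : C) (φ φ' : V → Option C) (u : V) : |sg c φ φ' u| ≤ 1 := by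
  unfold sg
  split_ifs <;> norm_num

theorem Wm_comm (G : SimpleGraph V) (U : Finset V) (k : V → C → ℝ) (m : ℕ) (u : V)
    (φ φ' : V → Option C) : Wm G U k m u φ' φ = Wm G U k m u φ φ' := by
  unfold Wm
  refine Finset.sum_congr rfl fun c _ => ?_
  rw [DO_comm U c φ' φ, sg_comm, sk_comm]
  split_ifs <;> ring

theorem Gm_comm (G : SimpleGraph V) (U : Finset V) (k : V → C → ℝ) (m : ℕ)
    (φ φ' : V → Option C) : Gm G U k m φ' φ = - Gm G U k m φ φ' := by
  unfold Gm
  rw [← Finset.sum_neg_distrib]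
  refine Finset.sum_congr rfl fun c _ => ?_
  rw [DO_comm U c φ' φ, ← Finset.sum_neg_distrib]
  exact Finset.sum_congr rfl fun κ _ => sk_comm k c κ φ φ'

theorem avO_so (G : SimpleGraph V) (U : Finset V) (L : V → Finset C) (X : Finset V) (f : V → C)
    (u : V) : avO G U L X (so f) u = avX G U L X f u := by
  unfold avO avX
  simp only [ne_eq, so_eq]

theorem avO_sx (G : SimpleGraph V) (U : Finset V) (L : V → Finset C) (X : Finset V) (x : V)
    (f : V → C) (u : V) : avO G U L X (sx x f) u = avX G U L (insert x X) f u := by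
  unfold avO avX
  ext c
  simp only [Finset.mem_filter, ne_eq, sx_eq, Finset.mem_insert, not_or, not_and]
  constructor
  · rintro ⟨h1, h2⟩
    exact ⟨h1, fun w hw hwX => h2 w hw hwX.2 hwX.1⟩
  · rintro ⟨h1, h2⟩
    exact ⟨h1, fun w hw hwX hwx => h2 w hw ⟨hwx, hwX⟩⟩

theorem pt_nonneg (c : C) (σ σ' : Finset V) (f f' : V → C) : 0 ≤ pt c σ σ' f f' := by
  unfold pt; split_ifs <;> norm_num

end Pool.Agent.Ex26
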