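import Pool.Agent.Lib.MP_26a019_lc.Ex.ABFin
import Pool.Agent.Lib.MP_26a019_lc.Ex.CFin
import Pool.Agent.Lib.MP_26a019_lc.Ex.DMain

set_option autoImplicit false

/-!
# q ≥ (1+ε)Δ, all graphs: the Poincaré inequality
-/

namespace Pool.Agent.Ex26

theorem mainAll_proof : MainAll := mainAll_of partAB_proof partC_proof partD

end Pool.Agent.Ex26
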