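import Mathlib

set_option autoImplicit false
set_option linter.unusedSectionVars false

/-!
# The hard-core gas with vertex activities: definitions and basic facts (MP_26a019_lc, part AB)

`V` is a finite vertex set, `G` a graph on `V`, `z : V → ℝ` the activities. Removing a vertex is the
same as putting its activity to `0` (`off z X`). `Eg G z φ` is the expectation of `φ S`, `S` the
random independent set with weight `∏_{v ∈ S} z v`.
-/

open Finset Classical

namespace Pool.Agent.Gas26

variable {V : Type} [Fintype V]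

/-- the independent sets of `G` -/
noncomputable def IS (G : SimpleGraph V) : Finset (Finset V) :=
  univ.filter (fun S => ∀ u ∈ S, ∀ w ∈ S, ¬ G.Adj u w)

/-- the weight of a set -/
noncomputable def gw (z : V → ℝ) (S : Finset V) : ℝ := ∏ v ∈ S, z v

/-- the partition function -/
noncomputable def Zp (G : SimpleGraph V) (z : V → ℝ) : ℝ := ∑ S ∈ IS G, gw z S

/-- expectation in the gas -/
noncomputable def Eg (G : SimpleGraph V) (z : V → ℝ) (φ : Finset V → ℝ) : ℝ :=
  (∑ S ∈ IS G, gw z S * φ S) / Zp G z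

/-- the activities put to zero on `X` -/
noncomputable def off (z : V → ℝ) (X : Finset V) : V → ℝ := fun v => if v ∈ X then 0 else z v

/-- closed neighbourhood of a vertex -/
noncomputable def cn (G : SimpleGraph V) (v : V) : Finset V :=
  univ.filter (fun u => u = v ∨ G.Adj v u)

/-- closed neighbourhood of a set -/
noncomputable def CN (G : SimpleGraph V) (X : Finset V) : Finset V := X.biUnion (cn G)

/-- density: probability that `v` is occupied -/
noncomputable def dn (G : SimpleGraph V) (z : V → ℝ) (v : V) : ℝ :=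
  Eg G z (fun S => if v ∈ S then 1 else 0)

/-- probability that the closed neighbourhood of `v` is empty -/
noncomputable def fr (G : SimpleGraph V) (z : V → ℝ) (v : V) : ℝ :=
  Eg G z (fun S => if Disjoint S (cn G v) then 1 else 0)

/-- the graph `G` restricted to the symmetric difference of `a` and `b` -/
def SG (G : SimpleGraph V) (a b : Finset V) : SimpleGraph V where
  Adj u w := G.Adj u w ∧ u ∈ symmDiff a b ∧ w ∈ symmDiff a b
  symm := ⟨fun _ _ h => ⟨h.1.symm, h.2.2, h.2.1⟩⟩
  loopless := ⟨fun u h => G.loopless.irrefl u h.1⟩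

/-- the union of the components of `G[a xor b]` which meet the set `O` of seeds -/
noncomputable def Ks (G : SimpleGraph V) (a b O : Finset V) : Finset V :=
  (symmDiff a b).filter (fun v => ∃ o ∈ O, o ∈ symmDiff a b ∧ (SG G a b).Reachable v o)

/-- two independent gases with activities `x` and `y` -/
noncomputable def E2 (G : SimpleGraph V) (x y : V → ℝ) (Φ : Finset V → Finset V → ℝ) : ℝ :=
  Eg G x (fun a => Eg G y (fun b => Φ a b))

/-- the set where two activity functions differ -/
noncomputable def DD (x y : V → ℝ) : Finset V := univ.filter (fun v => x v ≠ y v)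

/-- at every vertex the two activities are equal or one of them is zero -/
def Pair (x y : V → ℝ) : Prop := ∀ v, x v = y v ∨ x v = 0 ∨ y v = 0

/-- activities between `0` and `κ` -/
def Btw (κ x : V → ℝ) : Prop := ∀ v, 0 ≤ x v ∧ x v ≤ κ v

/-- the first moment bound: the expected size of the components of `a xor b` which meet the set
where the activities differ is at most `M / q` times the size of this set -/
def Adm (G : SimpleGraph V) (κ : V → ℝ) (M q : ℝ) : Prop :=
  ∀ x y : V → ℝ, Btw κ x → Btw κ y → Pair x y →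
    E2 G x y (fun a b => ((Ks G a b (DD x y)).card : ℝ)) ≤ M / q * ((DD x y).card : ℝ)

/-! ### Basic facts -/

section basic

variable {G : SimpleGraph V} {z x y : V → ℝ}

theorem mem_IS {S : Finset V} : S ∈ IS G ↔ ∀ u ∈ S, ∀ w ∈ S, ¬ G.Adj u w := by
  unfold IS; simp

theorem empty_mem_IS : (∅ : Finset V) ∈ IS G := by
  rw [mem_IS]; simp

theorem gw_nonneg (hz : ∀ v, 0 ≤ z v) (S : Finset V) : 0 ≤ gw z S :=
  Finset.prod_nonneg fun v _ => hz v

theorem gw_empty : gw z ∅ = 1 := by unfold gw; simp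

theorem one_le_Zp (hz : ∀ v, 0 ≤ z v) : 1 ≤ Zp G z := by
  unfold Zp
  rw [← gw_empty (z := z)]
  exact Finset.single_le_sum (f := fun S => gw z S) (fun S _ => gw_nonneg hz S) empty_mem_IS

theorem Zp_pos (hz : ∀ v, 0 ≤ z v) : 0 < Zp G z := lt_of_lt_of_le one_pos (one_le_Zp hz)

theorem Eg_add (φ ψ : Finset V → ℝ) : Eg G z (fun S => φ S + ψ S) = Eg G z φ + Eg G z ψ := by
  unfold Eg
  rw [← add_div, ← Finset.sum_add_distrib]
  simp only [mul_add]

theorem Eg_sub (φ ψ : Finset V → ℝ) : Eg G z (fun S => φ S - ψ S) = Eg G z φ - Eg G z ψ := by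
  unfold Eg
  rw [← sub_div, ← Finset.sum_sub_distrib]
  simp only [mul_sub]

theorem Eg_mul_left (c : ℝ) (φ : Finset V → ℝ) : Eg G z (fun S => c * φ S) = c * Eg G z φ := by
  unfold Eg
  rw [← mul_div_assoc, Finset.mul_sum]
  congr 1
  exact Finset.sum_congr rfl fun S _ => by ring

theorem Eg_mul_right (c : ℝ) (φ : Finset V → ℝ) : Eg G z (fun S => φ S * c) = Eg G z φ * c := by
  simp only [mul_comm _ c]
  exact Eg_mul_left c φ

theorem Eg_sum {ι : Type} (s : Finset ι) (φ : ι → Finset V → ℝ) :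
    Eg G z (fun S => ∑ i ∈ s, φ i S) = ∑ i ∈ s, Eg G z (φ i) := by
  unfold Eg
  rw [← Finset.sum_div, Finset.sum_comm]
  simp only [Finset.mul_sum]

theorem Eg_const (hz : ∀ v, 0 ≤ z v) (c : ℝ) : Eg G z (fun _ => c) = c := by
  unfold Eg
  rw [← Finset.sum_mul]
  change Zp G z * c / Zp G z = c
  have := (Zp_pos (G := G) hz).ne'
  field_simp

/-- only the independent sets of nonzero weight matter -/
theorem Eg_congr {φ ψ : Finset V → ℝ}
    (h : ∀ S ∈ IS G, (∀ v ∈ S, z v ≠ 0) → φ S = ψ S) : Eg G z φ = Eg G z ψ := by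
  unfold Eg
  congr 1
  refine Finset.sum_congr rfl fun S hS => ?_
  by_cases h0 : ∀ v ∈ S, z v ≠ 0
  · rw [h S hS h0]
  · obtain ⟨v, hv, hv0⟩ : ∃ v ∈ S, z v = 0 := by
      by_contra hc
      exact h0 fun v hv h => hc ⟨v, hv, h⟩
    have : gw z S = 0 := Finset.prod_eq_zero hv hv0
    rw [this, zero_mul, zero_mul]

theorem Eg_mono (hz : ∀ v, 0 ≤ z v) {φ ψ : Finset V → ℝ}
    (h : ∀ S ∈ IS G, (∀ v ∈ S, z v ≠ 0) → φ S ≤ ψ S) : Eg G z φ ≤ Eg G z ψ := by
  unfold Eg
  refine div_le_div_of_nonneg_right (Finset.sum_le_sum fun S hS => ?_) (Zp_pos hz).le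
  by_cases h0 : ∀ v ∈ S, z v ≠ 0
  · exact mul_le_mul_of_nonneg_left (h S hS h0) (gw_nonneg hz S)
  · obtain ⟨v, hv, hv0⟩ : ∃ v ∈ S, z v = 0 := by
      by_contra hc
      exact h0 fun v hv h => hc ⟨v, hv, h⟩
    have : gw z S = 0 := Finset.prod_eq_zero hv hv0
    rw [this, zero_mul, zero_mul]

theorem Eg_nonneg (hz : ∀ v, 0 ≤ z v) {φ : Finset V → ℝ}
    (h : ∀ S ∈ IS G, (∀ v ∈ S, z v ≠ 0) → 0 ≤ φ S) : 0 ≤ Eg G z φ := by
  have := Eg_mono (G := G) hz (φ := fun _ => 0) (ψ := φ) h
  rwa [Eg_const hz] at this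

theorem Eg_abs_le (hz : ∀ v, 0 ≤ z v) (φ : Finset V → ℝ) :
    |Eg G z φ| ≤ Eg G z (fun S => |φ S|) := by
  rw [abs_le]
  constructor
  · have := Eg_mono (G := G) hz (φ := fun S => (-1) * |φ S|) (ψ := φ)
      (fun S _ _ => by linarith [neg_abs_le (φ S)])
    rw [Eg_mul_left] at this
    linarith
  · exact Eg_mono hz (fun S _ _ => le_abs_self _)

theorem off_apply {X : Finset V} {v : V} : off z X v = if v ∈ X then 0 else z v := rfl

theorem off_of_mem {X : Finset V} {v : V} (h : v ∈ X) : off z X v = 0 := if_pos h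

theorem off_of_notMem {X : Finset V} {v : V} (h : v ∉ X) : off z X v = z v := if_neg h

theorem off_nonneg (hz : ∀ v, 0 ≤ z v) (X : Finset V) : ∀ v, 0 ≤ off z X v := by
  intro v
  unfold off
  split_ifs
  · exact le_rfl
  · exact hz v

theorem off_off (X Y : Finset V) : off (off z X) Y = off z (X ∪ Y) := by
  funext v
  unfold off
  by_cases h1 : v ∈ Y <;> by_cases h2 : v ∈ X <;> simp [h1, h2]

theorem off_empty : off z ∅ = z := by
  funext v; unfold off; simp

theorem off_eq_self {X : Finset V} (h : ∀ v ∈ X, z v = 0) : off z X = z := by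
  funext v
  unfold off
  split_ifs with hv
  · exact (h v hv).symm
  · rfl

theorem mem_cn {v u : V} : u ∈ cn G v ↔ u = v ∨ G.Adj v u := by
  unfold cn; simp

theorem self_mem_cn (v : V) : v ∈ cn G v := mem_cn.2 (Or.inl rfl)

theorem mem_cn_comm {v u : V} : u ∈ cn G v ↔ v ∈ cn G u := by
  rw [mem_cn, mem_cn]
  constructor
  · rintro (h | h)
    · exact Or.inl h.symm
    · exact Or.inr h.symm
  · rintro (h | h)
    · exact Or.inl h.symm
    · exact Or.inr h.symm

theorem gw_off (X S : Finset V) : gw (off z X) S = if Disjoint S X then gw z S else 0 := by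
  split_ifs with h
  · unfold gw
    exact Finset.prod_congr rfl fun v hv => off_of_notMem (Finset.disjoint_left.1 h hv)
  · rw [Finset.not_disjoint_iff] at h
    obtain ⟨v, hv, hvX⟩ := h
    exact Finset.prod_eq_zero hv (off_of_mem hvX)

/-- The sets of nonzero weight for `off z X` avoid `X`. -/
theorem disj_of_ne {X S : Finset V} (h : ∀ v ∈ S, off z X v ≠ 0) : Disjoint S X := by
  rw [Finset.disjoint_left]
  intro v hv hvX
  exact h v hv (off_of_mem hvX)

/-- the sum over independent sets split according to the vertex `u` -/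
theorem sum_split (u : V) (φ : Finset V → ℝ) :
    ∑ S ∈ IS G, gw z S * φ S =
      (∑ S ∈ IS G, gw (off z {u}) S * φ S) +
        z u * ∑ S ∈ IS G, gw (off z (cn G u)) S * φ (insert u S) := by
  rw [← Finset.sum_filter_add_sum_filter_not (IS G) (fun S => u ∉ S)]
  congr 1
  · rw [← Finset.sum_filter_add_sum_filter_not (IS G) (fun S => u ∉ S)
      (fun S => gw (off z {u}) S * φ S)]
    have h2 : ∑ S ∈ (IS G).filter (fun S => ¬ u ∉ S), gw (off z {u}) S * φ S = 0 := by
      refine Finset.sum_eq_zero fun S hS => ?_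
      have hu : u ∈ S := not_not.1 (Finset.mem_filter.1 hS).2
      have : gw (off z {u}) S = 0 := Finset.prod_eq_zero hu (off_of_mem (Finset.mem_singleton_self u))
      rw [this, zero_mul]
    rw [h2, add_zero]
    refine Finset.sum_congr rfl fun S hS => ?_
    have hu : u ∉ S := (Finset.mem_filter.1 hS).2
    rw [gw_off, if_pos (Finset.disjoint_singleton_right.2 hu)]
  · rw [Finset.mul_sum]
    have h1 : ∑ S ∈ IS G, z u * (gw (off z (cn G u)) S * φ (insert u S)) =
        ∑ S ∈ (IS G).filter (fun S => Disjoint S (cn G u)),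
          z u * (gw (off z (cn G u)) S * φ (insert u S)) := by
      rw [Finset.sum_filter_of_ne]
      intro S hS hne
      by_contra hd
      apply hne
      rw [gw_off, if_neg hd]; ring
    rw [h1]
    refine Finset.sum_nbij' (fun S => S.erase u) (fun S => insert u S) ?_ ?_ ?_ ?_ ?_
    · intro S hS
      obtain ⟨hS, hu⟩ := Finset.mem_filter.1 hS
      have hu : u ∈ S := not_not.1 hu
      rw [Finset.mem_filter]
      refine ⟨?_, ?_⟩
      · rw [mem_IS] at hS ⊢
        intro v hv w hw
        exact hS v (Finset.mem_of_mem_erase hv) w (Finset.mem_of_mem_erase hw)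
      · rw [Finset.disjoint_left]
        intro v hv hvc
        rcases mem_cn.1 hvc with h | h
        · exact (Finset.mem_erase.1 hv).1 h
        · exact mem_IS.1 hS u hu v (Finset.mem_of_mem_erase hv) h
    · intro S hS
      obtain ⟨hS, hd⟩ := Finset.mem_filter.1 hS
      rw [Finset.mem_filter]
      refine ⟨?_, not_not.2 (Finset.mem_insert_self u S)⟩
      have hnu : ∀ v ∈ S, ¬ G.Adj u v := fun v hv hadj =>
        Finset.disjoint_left.1 hd hv (mem_cn.2 (Or.inr hadj))
      rw [mem_IS] at hS ⊢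
      intro v hv w hw hadj
      rcases Finset.mem_insert.1 hv with hv1 | hv1
      · rcases Finset.mem_insert.1 hw with hw1 | hw1
        · rw [hv1, hw1] at hadj
          exact G.loopless.irrefl _ hadj
        · rw [hv1] at hadj
          exact hnu w hw1 hadj
      · rcases Finset.mem_insert.1 hw with hw1 | hw1
        · rw [hw1] at hadj
          exact hnu v hv1 hadj.symm
        · exact hS v hv1 w hw1 hadj
    · intro S hS
      have hu : u ∈ S := not_not.1 (Finset.mem_filter.1 hS).2
      exact Finset.insert_erase hu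
    · intro S hS
      have hd := (Finset.mem_filter.1 hS).2
      exact Finset.erase_insert fun hu => Finset.disjoint_left.1 hd hu (self_mem_cn u)
    · intro S hS
      obtain ⟨hS, hu⟩ := Finset.mem_filter.1 hS
      have hu : u ∈ S := not_not.1 hu
      have hd : Disjoint (S.erase u) (cn G u) := by
        rw [Finset.disjoint_left]
        intro v hv hvc
        rcases mem_cn.1 hvc with h | h
        · exact (Finset.mem_erase.1 hv).1 h
        · exact mem_IS.1 hS u hu v (Finset.mem_of_mem_erase hv) h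
      rw [gw_off, if_pos hd, Finset.insert_erase hu, ← mul_assoc]
      congr 1
      unfold gw
      rw [Finset.mul_prod_erase S z hu]

theorem Zp_split (u : V) : Zp G z = Zp G (off z {u}) + z u * Zp G (off z (cn G u)) := by
  have h := sum_split (G := G) (z := z) u (fun _ => 1)
  simp only [mul_one] at h
  exact h

theorem dn_eq (u : V) : dn G z u = z u * Zp G (off z (cn G u)) / Zp G z := by
  unfold dn Eg
  rw [sum_split (G := G) (z := z) u (fun S => if u ∈ S then 1 else 0)]
  congr 1
  have h1 : ∑ S ∈ IS G, gw (off z {u}) S * (if u ∈ S then (1 : ℝ) else 0) = 0 := by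
    refine Finset.sum_eq_zero fun S _ => ?_
    split_ifs with hu
    · have : gw (off z {u}) S = 0 :=
        Finset.prod_eq_zero hu (off_of_mem (Finset.mem_singleton_self u))
      rw [this, zero_mul]
    · rw [mul_zero]
  rw [h1, zero_add]
  simp only [Finset.mem_insert_self, if_true, mul_one]
  rfl

theorem fr_eq (u : V) : fr G z u = Zp G (off z (cn G u)) / Zp G z := by
  unfold fr Eg
  congr 1
  unfold Zp
  refine Finset.sum_congr rfl fun S _ => ?_
  rw [gw_off]
  by_cases h : Disjoint S (cn G u) <;> simp [h]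

theorem dn_eq_mul_fr (u : V) : dn G z u = z u * fr G z u := by
  rw [dn_eq, fr_eq, mul_div_assoc]

theorem one_sub_dn (hz : ∀ v, 0 ≤ z v) (u : V) :
    1 - dn G z u = Zp G (off z {u}) / Zp G z := by
  have h0 := (Zp_pos (G := G) hz).ne'
  rw [dn_eq, eq_div_iff h0, sub_mul, div_mul_cancel₀ _ h0, one_mul]
  have := Zp_split (G := G) (z := z) u
  linarith

theorem Zp_off_le (hz : ∀ v, 0 ≤ z v) (X : Finset V) : Zp G (off z X) ≤ Zp G z := by
  unfold Zp
  refine Finset.sum_le_sum fun S _ => ?_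
  rw [gw_off]
  split_ifs
  · exact le_rfl
  · exact gw_nonneg hz S

theorem dn_nonneg (hz : ∀ v, 0 ≤ z v) (u : V) : 0 ≤ dn G z u := by
  rw [dn_eq]
  exact div_nonneg (mul_nonneg (hz u) (Zp_pos (off_nonneg hz _)).le) (Zp_pos hz).le

theorem fr_nonneg (hz : ∀ v, 0 ≤ z v) (u : V) : 0 ≤ fr G z u := by
  rw [fr_eq]
  exact div_nonneg (Zp_pos (off_nonneg hz _)).le (Zp_pos hz).le

theorem fr_le_one (hz : ∀ v, 0 ≤ z v) (u : V) : fr G z u ≤ 1 := by
  rw [fr_eq, div_le_one (Zp_pos hz)]
  exact Zp_off_le hz _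

theorem dn_le (hz : ∀ v, 0 ≤ z v) (u : V) : dn G z u ≤ z u := by
  rw [dn_eq_mul_fr]
  exact mul_le_of_le_one_right (hz u) (fr_le_one hz u)

theorem dn_le_one (hz : ∀ v, 0 ≤ z v) (u : V) : dn G z u ≤ 1 := by
  have h := one_sub_dn (G := G) hz u
  have h2 : 0 ≤ Zp G (off z {u}) / Zp G z := div_nonneg (Zp_pos (off_nonneg hz _)).le (Zp_pos hz).le
  linarith

/-- Revealing the vertex `u`. -/
theorem rev (hz : ∀ v, 0 ≤ z v) (u : V) (φ : Finset V → ℝ) :
    Eg G z φ = (1 - dn G z u) * Eg G (off z {u}) φ +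
      dn G z u * Eg G (off z (cn G u)) (fun S => φ (insert u S)) := by
  have h0 := (Zp_pos (G := G) hz).ne'
  have h1 := (Zp_pos (G := G) (off_nonneg hz {u})).ne'
  have h2 := (Zp_pos (G := G) (off_nonneg hz (cn G u))).ne'
  rw [one_sub_dn hz, dn_eq]
  unfold Eg
  rw [sum_split u φ]
  field_simp

/-- A function not depending on a removed vertex; `Eg` for a smaller set of activities. -/
theorem Eg_off_insert {X : Finset V} {u : V} (hu : u ∈ X) {φ : Finset V → ℝ}
    (hφ : ∀ S, φ (S.erase u) = φ S) : Eg G (off z X) (fun S => φ (insert u S)) =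
      Eg G (off z X) φ := by
  refine Eg_congr fun S _ hS => ?_
  have hd := disj_of_ne hS
  have hus : u ∉ S := fun h => Finset.disjoint_left.1 hd h hu
  rw [← hφ (insert u S), Finset.erase_insert hus]

end basic

/-! ### Two gases -/

section two

variable {G : SimpleGraph V} {x y : V → ℝ}

theorem E2_add (Φ Ψ : Finset V → Finset V → ℝ) :
    E2 G x y (fun a b => Φ a b + Ψ a b) = E2 G x y Φ + E2 G x y Ψ := by
  unfold E2
  simp only [Eg_add]

theorem E2_sub (Φ Ψ : Finset V → Finset V → ℝ) :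
    E2 G x y (fun a b => Φ a b - Ψ a b) = E2 G x y Φ - E2 G x y Ψ := by
  unfold E2
  simp only [Eg_sub]

theorem E2_mul_left (c : ℝ) (Φ : Finset V → Finset V → ℝ) :
    E2 G x y (fun a b => c * Φ a b) = c * E2 G x y Φ := by
  unfold E2
  simp only [Eg_mul_left]

theorem E2_sum {ι : Type} (s : Finset ι) (Φ : ι → Finset V → Finset V → ℝ) :
    E2 G x y (fun a b => ∑ i ∈ s, Φ i a b) = ∑ i ∈ s, E2 G x y (Φ i) := by
  unfold E2
  simp only [Eg_sum]

theorem E2_const (hx : ∀ v, 0 ≤ x v) (hy : ∀ v, 0 ≤ y v) (c : ℝ) :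
    E2 G x y (fun _ _ => c) = c := by
  unfold E2
  simp only [Eg_const hy, Eg_const hx]

/-- only pairs of independent sets of nonzero weight matter -/
theorem E2_congr {Φ Ψ : Finset V → Finset V → ℝ}
    (h : ∀ a ∈ IS G, (∀ v ∈ a, x v ≠ 0) → ∀ b ∈ IS G, (∀ v ∈ b, y v ≠ 0) → Φ a b = Ψ a b) :
    E2 G x y Φ = E2 G x y Ψ :=
  Eg_congr fun a ha hxa => Eg_congr fun b hb hyb => h a ha hxa b hb hyb

theorem E2_mono (hx : ∀ v, 0 ≤ x v) (hy : ∀ v, 0 ≤ y v) {Φ Ψ : Finset V → Finset V → ℝ}
    (h : ∀ a ∈ IS G, (∀ v ∈ a, x v ≠ 0) → ∀ b ∈ IS G, (∀ v ∈ b, y v ≠ 0) → Φ a b ≤ Ψ a b) :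
    E2 G x y Φ ≤ E2 G x y Ψ :=
  Eg_mono hx fun a ha hxa => Eg_mono hy fun b hb hyb => h a ha hxa b hb hyb

theorem E2_nonneg (hx : ∀ v, 0 ≤ x v) (hy : ∀ v, 0 ≤ y v) {Φ : Finset V → Finset V → ℝ}
    (h : ∀ a ∈ IS G, (∀ v ∈ a, x v ≠ 0) → ∀ b ∈ IS G, (∀ v ∈ b, y v ≠ 0) → 0 ≤ Φ a b) :
    0 ≤ E2 G x y Φ :=
  Eg_nonneg hx fun a ha hxa => Eg_nonneg hy fun b hb hyb => h a ha hxa b hb hyb

/-- exchange of the two gases -/
theorem E2_swap (Φ : Finset V → Finset V → ℝ) :
    E2 G x y Φ = E2 G y x (fun a b => Φ b a) := by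
  unfold E2 Eg
  simp only [mul_div_assoc', Finset.mul_sum, ← Finset.sum_div]
  rw [Finset.sum_comm, div_div, div_div, mul_comm (Zp G y)]
  congr 1
  refine Finset.sum_congr rfl fun a _ => Finset.sum_congr rfl fun b _ => by ring

/-- reveal `u` in the second gas -/
theorem E2_rev_right (hy : ∀ v, 0 ≤ y v) (u : V)
    (Φ : Finset V → Finset V → ℝ) :
    E2 G x y Φ = (1 - dn G y u) * E2 G x (off y {u}) Φ +
      dn G y u * E2 G x (off y (cn G u)) (fun a b => Φ a (insert u b)) := by
  unfold E2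
  rw [← Eg_mul_left, ← Eg_mul_left, ← Eg_add]
  refine Eg_congr fun a _ _ => ?_
  exact rev hy u (fun b => Φ a b)

/-- reveal `u` in the first gas -/
theorem E2_rev_left (hx : ∀ v, 0 ≤ x v) (u : V) (Φ : Finset V → Finset V → ℝ) :
    E2 G x y Φ = (1 - dn G x u) * E2 G (off x {u}) y Φ +
      dn G x u * E2 G (off x (cn G u)) y (fun a b => Φ (insert u a) b) := by
  unfold E2
  exact rev hx u (fun a => Eg G y (fun b => Φ a b))

end two

end Pool.Agent.Gas26
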