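import Pool.Agent.Lib.MP_26a019_lc.Ex.GasSpec

set_option autoImplicit false
set_option linter.unusedVariables false

/-!
# Module DM: the discrepancy of the expected cluster size when the second gas is changed
-/

open Finset Classical

namespace Pool.Agent.Gas26

section g_DM

variable {V : Type} [Fintype V] {G : SimpleGraph V} {x y y1 y2 : V → ℝ} {u : V}

/-- seeds after an empty vertex in the second gas -/
theorem g_DM_A1 (hx : ∀ v, 0 ≤ x v) (hy : ∀ v, 0 ≤ y v) (u : V) :
    E2 G x (off y {u}) (fun a b => ((Ks G a b (DD x y)).card : ℝ)) ≤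
      KF G x (off y {u}) (fun _ => 1) := by
  rw [KF_one]
  refine E2_mono hx (off_nonneg hy _) fun a _ ha b _ hb => ?_
  refine Nat.cast_le.2 (Finset.card_le_card (Ks_le_of fun o ho hD => ?_))
  rw [mem_DD] at hD ⊢
  by_cases hou : o = u
  · subst hou
    rw [off_of_mem (Finset.mem_singleton_self o)]
    rcases Finset.mem_symmDiff.1 ho with h | h
    · exact ha o h.1
    · exact absurd (off_of_mem (Finset.mem_singleton_self o)) (hb o h.1)
  · rw [off_of_notMem (by simpa using hou)]
    exact hD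

theorem g_DM_seed {a b : Finset V} (ha : ∀ v ∈ a, off x {u} v ≠ 0)
    (hb : ∀ v ∈ b, off y (cn G u) v ≠ 0) (o : V) (ho : o ∈ symmDiff a b)
    (hD : o ∈ DD x y ∪ cn G u) : o ∈ DD (off x {u}) (off y (cn G u)) := by
  rw [mem_DD]
  by_cases hoc : o ∈ cn G u
  · have hob : o ∉ b := fun h => hb o h (off_of_mem hoc)
    have hoa : o ∈ a := by
      rcases Finset.mem_symmDiff.1 ho with h | h
      · exact h.1
      · exact absurd h.1 hob
    rw [off_of_mem (z := y) hoc]
    exact ha o hoa
  · have hou : o ≠ u := fun h => hoc (by rw [h]; exact self_mem_cn u)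
    rw [off_of_notMem (z := y) hoc, off_of_notMem (z := x) (by simpa using hou)]
    exact mem_DD.1 ((Finset.mem_union.1 hD).resolve_right hoc)

theorem g_DM_E2_succ (hx : ∀ v, 0 ≤ x v) (hy : ∀ v, 0 ≤ y v) :
    E2 G x y (fun a b => (1 : ℝ) + ((Ks G a b (DD x y)).card : ℝ)) =
      1 + KF G x y (fun _ => 1) := by
  rw [E2_add, E2_const hx hy, KF_one]

theorem g_DM_A2a (hx : ∀ v, 0 ≤ x v) (hy : ∀ v, 0 ≤ y v) (u : V) :
    E2 G (off x {u}) (off y (cn G u)) (fun a b => ((Ks G a (insert u b) (DD x y)).card : ℝ)) ≤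
      1 + KF G (off x {u}) (off y (cn G u)) (fun _ => 1) := by
  rw [← g_DM_E2_succ (off_nonneg hx _) (off_nonneg hy _)]
  refine E2_mono (off_nonneg hx _) (off_nonneg hy _) fun a _ ha b _ hb => ?_
  have hua : u ∉ a := fun h => ha u h (off_of_mem (Finset.mem_singleton_self u))
  have hub : u ∉ b := fun h => hb u h (off_of_mem (self_mem_cn u))
  have h1 : Ks G a (insert u b) (DD x y) ⊆
      insert u (Ks G a b (DD (off x {u}) (off y (cn G u)))) :=
    (Ks_insert_sub hua hub).trans (Finset.insert_subset_insert u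
      (Ks_le_of (g_DM_seed ha hb)))
  have h2 := (Finset.card_le_card h1).trans (Finset.card_insert_le _ _)
  have h3 : ((Ks G a (insert u b) (DD x y)).card : ℝ) ≤
      (((Ks G a b (DD (off x {u}) (off y (cn G u)))).card + 1 : ℕ) : ℝ) := Nat.cast_le.2 h2
  push_cast at h3
  linarith

theorem g_DM_A2b (hx : ∀ v, 0 ≤ x v) (hy : ∀ v, 0 ≤ y v) (u : V) :
    E2 G (off x (cn G u)) (off y (cn G u))
        (fun a b => ((Ks G (insert u a) (insert u b) (DD x y)).card : ℝ)) ≤
      KF G (off x (cn G u)) (off y (cn G u)) (fun _ => 1) := by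
  rw [KF_one]
  refine E2_mono (off_nonneg hx _) (off_nonneg hy _) fun a _ ha b _ hb => ?_
  have hua : u ∉ a := fun h => ha u h (off_of_mem (self_mem_cn u))
  have hub : u ∉ b := fun h => hb u h (off_of_mem (self_mem_cn u))
  rw [Ks_both hua hub]
  refine Nat.cast_le.2 (Finset.card_le_card (Ks_le_of fun o ho hD => ?_))
  have hoc : o ∉ cn G u := by
    intro hoc
    rcases Finset.mem_symmDiff.1 ho with h | h
    · exact ha o h.1 (off_of_mem hoc)
    · exact hb o h.1 (off_of_mem hoc)
  rw [mem_DD] at hD ⊢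
  rw [off_of_notMem (z := x) hoc, off_of_notMem (z := y) hoc]
  exact hD

/-- the upper bound in case A -/
theorem g_DM_upA (hx : ∀ v, 0 ≤ x v) (hy : ∀ v, 0 ≤ y v) (u : V) :
    KF G x y (fun _ => 1) ≤ (1 - dn G y u) * KF G x (off y {u}) (fun _ => 1) +
      dn G y u * ((1 - dn G x u) * (1 + KF G (off x {u}) (off y (cn G u)) (fun _ => 1)) +
        dn G x u * KF G (off x (cn G u)) (off y (cn G u)) (fun _ => 1)) := by
  have hp0 := dn_nonneg (G := G) hy u
  have hp1 := dn_le_one (G := G) hy u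
  have hα0 := dn_nonneg (G := G) hx u
  have hα1 := dn_le_one (G := G) hx u
  rw [KF_one, E2_rev_right hy u]
  refine add_le_add (mul_le_mul_of_nonneg_left (g_DM_A1 hx hy u) (by linarith))
    (mul_le_mul_of_nonneg_left ?_ hp0)
  rw [E2_rev_left hx u]
  exact add_le_add (mul_le_mul_of_nonneg_left (g_DM_A2a hx hy u) (by linarith))
    (mul_le_mul_of_nonneg_left (g_DM_A2b hx hy u) hα0)

/-- the lower bound in case A -/
theorem g_DM_loA (hx : ∀ v, 0 ≤ x v) (hy : ∀ v, 0 ≤ y v) (u : V) (hu : y u = 0)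
    (O : Finset V) :
    (1 - dn G x u) * E2 G (off x {u}) y (fun a b => ((Ks G a b O).card : ℝ)) +
      dn G x u * E2 G (off x (cn G u)) y (fun a b => ((Ks G a b O).card : ℝ)) ≤
      E2 G x y (fun a b => ((Ks G a b O).card : ℝ)) := by
  rw [E2_rev_left hx u (fun a b => ((Ks G a b O).card : ℝ))]
  refine add_le_add le_rfl (mul_le_mul_of_nonneg_left ?_ (dn_nonneg hx u))
  refine E2_mono (off_nonneg hx _) hy fun a _ ha b _ hb => ?_
  have hua : u ∉ a := fun h => ha u h (off_of_mem (self_mem_cn u))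
  have hub : u ∉ b := fun h => hb u h hu
  refine Nat.cast_le.2 (Finset.card_le_card ?_)
  rw [Ks_comm (a := a) (b := b), Ks_comm (a := insert u a) (b := b)]
  exact Ks_le_insert hub hua

/-- the upper bound in case B -/
theorem g_DM_upB (hx : ∀ v, 0 ≤ x v) (hy : ∀ v, 0 ≤ y v) (u : V) (hu : y u = 0) :
    KF G x y (fun _ => 1) ≤ (1 - dn G x u) * KF G (off x {u}) y (fun _ => 1) +
      dn G x u * (1 + KF G (off x (cn G u)) y (fun _ => 1)) := by
  have hα0 := dn_nonneg (G := G) hx u
  have hα1 := dn_le_one (G := G) hx u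
  rw [KF_one, E2_rev_left hx u]
  refine add_le_add (mul_le_mul_of_nonneg_left ?_ (by linarith))
    (mul_le_mul_of_nonneg_left ?_ hα0)
  · rw [KF_one]
    refine E2_mono (off_nonneg hx _) hy fun a _ ha b _ hb => ?_
    refine Nat.cast_le.2 (Finset.card_le_card (Ks_le_of fun o ho hD => ?_))
    have hou : o ≠ u := by
      rintro rfl
      rcases Finset.mem_symmDiff.1 ho with h | h
      · exact ha o h.1 (off_of_mem (Finset.mem_singleton_self o))
      · exact hb o h.1 hu
    rw [mem_DD] at hD ⊢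
    rw [off_of_notMem (by simpa using hou)]
    exact hD
  · rw [← g_DM_E2_succ (off_nonneg hx _) hy]
    refine E2_mono (off_nonneg hx _) hy fun a _ ha b _ hb => ?_
    have hua : u ∉ a := fun h => ha u h (off_of_mem (self_mem_cn u))
    have hub : u ∉ b := fun h => hb u h hu
    have h1 : Ks G (insert u a) b (DD x y) ⊆
        insert u (Ks G a b (DD (off x (cn G u)) y)) := by
      rw [Ks_comm (a := a) (b := b), Ks_comm (a := insert u a) (b := b)]
      refine (Ks_insert_sub hub hua).trans (Finset.insert_subset_insert u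
        (Ks_le_of fun o ho hD => ?_))
      rw [mem_DD]
      by_cases hoc : o ∈ cn G u
      · have hoa : o ∉ a := fun h => ha o h (off_of_mem hoc)
        have hob : o ∈ b := by
          rcases Finset.mem_symmDiff.1 ho with h | h
          · exact h.1
          · exact absurd h.1 hoa
        rw [off_of_mem (z := x) hoc]
        exact (hb o hob).symm
      · rw [off_of_notMem (z := x) hoc]
        exact mem_DD.1 ((Finset.mem_union.1 hD).resolve_right hoc)
    have h2 := (Finset.card_le_card h1).trans (Finset.card_insert_le _ _)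
    have h3 : ((Ks G (insert u a) b (DD x y)).card : ℝ) ≤
        (((Ks G a b (DD (off x (cn G u)) y)).card + 1 : ℕ) : ℝ) := Nat.cast_le.2 h2
    push_cast at h3
    linarith

/-- the lower bound in case B -/
theorem g_DM_loB (hx : ∀ v, 0 ≤ x v) (hy : ∀ v, 0 ≤ y v) (u : V) (O : Finset V) :
    (1 - dn G y u) * E2 G x (off y {u}) (fun a b => ((Ks G a b O).card : ℝ)) +
      dn G y u * ((1 - dn G x u) *
          E2 G (off x {u}) (off y (cn G u)) (fun a b => ((Ks G a b O).card : ℝ)) +
        dn G x u *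
          E2 G (off x (cn G u)) (off y (cn G u)) (fun a b => ((Ks G a b O).card : ℝ))) ≤
      E2 G x y (fun a b => ((Ks G a b O).card : ℝ)) := by
  have hp0 := dn_nonneg (G := G) hy u
  have hα0 := dn_nonneg (G := G) hx u
  have hα1 := dn_le_one (G := G) hx u
  rw [E2_rev_right hy u (fun a b => ((Ks G a b O).card : ℝ))]
  refine add_le_add le_rfl (mul_le_mul_of_nonneg_left ?_ hp0)
  rw [E2_rev_left hx u (fun a b => ((Ks G a (insert u b) O).card : ℝ))]
  refine add_le_add (mul_le_mul_of_nonneg_left ?_ (by linarith))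
    (mul_le_mul_of_nonneg_left ?_ hα0)
  · refine E2_mono (off_nonneg hx _) (off_nonneg hy _) fun a _ ha b _ hb => ?_
    have hua : u ∉ a := fun h => ha u h (off_of_mem (Finset.mem_singleton_self u))
    have hub : u ∉ b := fun h => hb u h (off_of_mem (self_mem_cn u))
    exact Nat.cast_le.2 (Finset.card_le_card (Ks_le_insert hua hub))
  · refine E2_mono (off_nonneg hx _) (off_nonneg hy _) fun a _ ha b _ hb => ?_
    have hua : u ∉ a := fun h => ha u h (off_of_mem (self_mem_cn u))
    have hub : u ∉ b := fun h => hb u h (off_of_mem (self_mem_cn u))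
    rw [Ks_both hua hub]

/-- the set of the error term -/
noncomputable def g_DM_B (x y1 y2 : V → ℝ) (O : Finset V) : Finset V :=
  (univ.filter (fun w => x w ≠ min (y1 w) (y2 w))) \ O

theorem g_DM_mem_B {O : Finset V} {w : V} :
    w ∈ g_DM_B x y1 y2 O ↔ x w ≠ min (y1 w) (y2 w) ∧ w ∉ O := by
  unfold g_DM_B
  rw [Finset.mem_sdiff, Finset.mem_filter]
  simp only [Finset.mem_univ, true_and]

/-- the arithmetic of case A -/
theorem g_DM_arA {p α m m1 m2 m3 T T2 T3 c M μ μ1 μ2 : ℝ} (hp0 : 0 ≤ p) (hp1 : p ≤ 1)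
    (hα0 : 0 ≤ α) (hα1 : α ≤ 1) (hM : 0 ≤ M)
    (hm : m ≤ (1 - p) * m1 + p * ((1 - α) * (1 + m2) + α * m3))
    (hT : (1 - α) * T2 + α * T3 ≤ T) (h1 : m1 - T ≤ (M + 1) * μ1 + c)
    (h2 : m2 - T2 ≤ (M + 1) * μ2 + (c + M)) (h3 : m3 - T3 ≤ (M + 1) * μ2 + c)
    (hμ : μ = (1 - p) * μ1 + p * (1 + μ2)) : m - T ≤ (M + 1) * μ + c := by
  have e1 := mul_le_mul_of_nonneg_left h1 (sub_nonneg.2 hp1)
  have e2 := mul_le_mul_of_nonneg_left h2 (mul_nonneg hp0 (sub_nonneg.2 hα1))
  have e3 := mul_le_mul_of_nonneg_left h3 (mul_nonneg hp0 hα0)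
  have e4 := mul_le_mul_of_nonneg_left hT hp0
  have e5 : 0 ≤ p * α * (1 + M) := mul_nonneg (mul_nonneg hp0 hα0) (by linarith)
  rw [hμ]
  nlinarith [e1, e2, e3, e4, e5, hm]

/-- the arithmetic of case B -/
theorem g_DM_arB {p α m m2 m3 T T1 T2 T3 c M μ μ1 μ2 : ℝ} (hp0 : 0 ≤ p) (hp1 : p ≤ 1)
    (hα0 : 0 ≤ α) (hα1 : α ≤ 1) (hM : 0 ≤ M)
    (hm : m ≤ (1 - α) * m2 + α * (1 + m3))
    (hT : (1 - p) * T1 + p * ((1 - α) * T2 + α * T3) ≤ T) (h1 : m - T1 ≤ (M + 1) * μ1 + c)
    (h2 : m2 - T2 ≤ (M + 1) * μ2 + (c + M)) (h3 : m3 - T3 ≤ (M + 1) * μ2 + c)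
    (hμ : μ = (1 - p) * μ1 + p * (1 + μ2)) : m - T ≤ (M + 1) * μ + c := by
  have e1 := mul_le_mul_of_nonneg_left h1 (sub_nonneg.2 hp1)
  have e2 := mul_le_mul_of_nonneg_left h2 (mul_nonneg hp0 (sub_nonneg.2 hα1))
  have e3 := mul_le_mul_of_nonneg_left h3 (mul_nonneg hp0 hα0)
  have e4 := mul_le_mul_of_nonneg_left hm hp0
  have e5 : 0 ≤ p * α * M := mul_nonneg (mul_nonneg hp0 hα0) hM
  have e6 : 0 ≤ p * (1 - α) := mul_nonneg hp0 (sub_nonneg.2 hα1)
  rw [hμ]
  nlinarith [e1, e2, e3, e4, e5, e6, hT]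

/-- the number of nonzero activities -/
noncomputable def g_DM_s (z : V → ℝ) : ℕ := (univ.filter (fun v => z v ≠ 0)).card

theorem g_DM_s_le (z : V → ℝ) (X : Finset V) : g_DM_s (off z X) ≤ g_DM_s z :=
  Finset.card_le_card (supp_off_subset X)

theorem g_DM_s_lt {z : V → ℝ} {X : Finset V} (hu : u ∈ X) (h : z u ≠ 0) :
    g_DM_s (off z X) < g_DM_s z := supp_off_lt hu h

theorem g_DM_main (hExc : S_Exc) {κ : V → ℝ} {K0 M q : ℝ} (hC : Cls G κ K0 M q) (O : Finset V) :
    ∀ (n : ℕ) (x y1 y2 : V → ℝ), g_DM_s x + g_DM_s y1 + g_DM_s y2 ≤ n → Btw κ x → Btw κ y1 →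
      Btw κ y2 → Pair x y1 → Pair x y2 → Pair y1 y2 →
      KF G x y1 (fun _ => 1) - E2 G x y2 (fun a b => ((Ks G a b O).card : ℝ)) ≤
        (M + 1) * KF G y1 y2 (fun _ => 1) + M / q * ((g_DM_B x y1 y2 O).card : ℝ) := by
  have hM1 : (1 : ℝ) ≤ M := hC.2.1
  have hq1 : (1 : ℝ) ≤ q := hC.2.2.1
  have hcn : ∀ v, ((cn G v).card : ℝ) ≤ q := hC.2.2.2.2.1
  have hM0 : (0 : ℝ) ≤ M := by linarith
  have hq0 : (0 : ℝ) < q := by linarith
  have hMq : 0 ≤ M / q := div_nonneg hM0 hq0.le
  -- the comparison of the error terms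
  have hcomp : ∀ (x y1 y2 x' y1' y2' : V → ℝ) (u : V),
      (g_DM_B x' y1' y2' O ⊆ g_DM_B x y1 y2 O ∪ cn G u) →
      M / q * ((g_DM_B x' y1' y2' O).card : ℝ) ≤ M / q * ((g_DM_B x y1 y2 O).card : ℝ) + M := by
    intro x y1 y2 x' y1' y2' u h
    have h1 : (g_DM_B x' y1' y2' O).card ≤ (g_DM_B x y1 y2 O).card + (cn G u).card :=
      (Finset.card_le_card h).trans (Finset.card_union_le _ _)
    have h2 : ((g_DM_B x' y1' y2' O).card : ℝ) ≤
        (((g_DM_B x y1 y2 O).card + (cn G u).card : ℕ) : ℝ) := Nat.cast_le.2 h1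
    push_cast at h2
    have h3 : ((g_DM_B x' y1' y2' O).card : ℝ) ≤ ((g_DM_B x y1 y2 O).card : ℝ) + q :=
      h2.trans (add_le_add le_rfl (hcn u))
    have h4 := mul_le_mul_of_nonneg_left h3 hMq
    have h5 : M / q * (((g_DM_B x y1 y2 O).card : ℝ) + q) =
        M / q * ((g_DM_B x y1 y2 O).card : ℝ) + M := by
      field_simp
    linarith
  have hcomp0 : ∀ (x y1 y2 x' y1' y2' : V → ℝ),
      (g_DM_B x' y1' y2' O ⊆ g_DM_B x y1 y2 O) →
      M / q * ((g_DM_B x' y1' y2' O).card : ℝ) ≤ M / q * ((g_DM_B x y1 y2 O).card : ℝ) := by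
    intro x y1 y2 x' y1' y2' h
    exact mul_le_mul_of_nonneg_left (Nat.cast_le.2 (Finset.card_le_card h)) hMq
  intro n
  induction n with
  | zero =>
    intro x y1 y2 hs hx hy1 hy2 hxy1 hxy2 hy12
    -- all activities vanish: the base case is covered by the empty case below
    have hz : ∀ z : V → ℝ, g_DM_s z = 0 → ∀ v, z v = 0 := by
      intro z hz v
      by_contra hv
      have : (univ.filter (fun v => z v ≠ 0)) = ∅ := Finset.card_eq_zero.1 hz
      have h2 : v ∈ (univ.filter (fun v => z v ≠ 0)) := Finset.mem_filter.2 ⟨Finset.mem_univ _, hv⟩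
      rw [this] at h2
      exact absurd h2 (Finset.notMem_empty _)
    have h1 : y1 = y2 := by
      funext v
      rw [hz y1 (by omega) v, hz y2 (by omega) v]
    subst h1
    have h := hExc V G κ K0 M q hC x y1 O hx hy1 hxy1
    have h0 : 0 ≤ (M + 1) * KF G y1 y1 (fun _ => 1) :=
      mul_nonneg (by linarith) (KF_nonneg hy1.nonneg hy1.nonneg fun _ => zero_le_one)
    have h2 : g_DM_B x y1 y1 O = DD x y1 \ O := by
      ext w
      rw [g_DM_mem_B, Finset.mem_sdiff, mem_DD, min_self]
    rw [h2]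
    linarith
  | succ n ih =>
    intro x y1 y2 hs hx hy1 hy2 hxy1 hxy2 hy12
    by_cases hD : ∃ u, u ∈ DD y1 y2
    swap
    · have h1 : y1 = y2 := by
        funext v
        by_contra hv
        exact hD ⟨v, mem_DD.2 hv⟩
      subst h1
      have h := hExc V G κ K0 M q hC x y1 O hx hy1 hxy1
      have h0 : 0 ≤ (M + 1) * KF G y1 y1 (fun _ => 1) :=
        mul_nonneg (by linarith) (KF_nonneg hy1.nonneg hy1.nonneg fun _ => zero_le_one)
      have h2 : g_DM_B x y1 y1 O = DD x y1 \ O := by
        ext w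
        rw [g_DM_mem_B, Finset.mem_sdiff, mem_DD, min_self]
      rw [h2]
      linarith
    obtain ⟨u, hu⟩ := hD
    have hune := mem_DD.1 hu
    have hα0 := dn_nonneg (G := G) hx.nonneg u
    have hα1 := dn_le_one (G := G) hx.nonneg u
    have hcases : (y2 u = 0 ∧ y1 u ≠ 0) ∨ (y1 u = 0 ∧ y2 u ≠ 0) := by
      rcases hy12 u with h | h | h
      · exact absurd h hune
      · exact Or.inr ⟨h, fun h' => hune (by rw [h, h'])⟩
      · exact Or.inl ⟨h, fun h' => hune (by rw [h, h'])⟩
    rcases hcases with ⟨h20, h1ne⟩ | ⟨h10, h2ne⟩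
    · -- case A
      have hp0 := dn_nonneg (G := G) hy1.nonneg u
      have hp1 := dn_le_one (G := G) hy1.nonneg u
      have hlt1 := g_DM_s_lt (X := {u}) (Finset.mem_singleton_self u) h1ne
      have hlt2 := g_DM_s_lt (X := cn G u) (self_mem_cn u) h1ne
      have hle1 := g_DM_s_le x {u}
      have hle2 := g_DM_s_le x (cn G u)
      have i1 := ih x (off y1 {u}) y2 (by omega) hx (hy1.off _) hy2 (hxy1.off_right _) hxy2
        (hy12.off_left _)
      have i2 := ih (off x {u}) (off y1 (cn G u)) y2 (by omega) (hx.off _) (hy1.off _) hy2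
        ((hxy1.off_right _).off_left _) (hxy2.off_left _) (hy12.off_left _)
      have i3 := ih (off x (cn G u)) (off y1 (cn G u)) y2 (by omega) (hx.off _) (hy1.off _) hy2
        ((hxy1.off_right _).off_left _) (hxy2.off_left _) (hy12.off_left _)
      have b1 := hcomp0 x y1 y2 x (off y1 {u}) y2 (by
        intro w hw
        rw [g_DM_mem_B] at hw ⊢
        refine ⟨?_, hw.2⟩
        by_cases hwu : w = u
        · subst hwu
          have h := hw.1
          rw [off_of_mem (Finset.mem_singleton_self w), h20, min_self] at h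
          rw [h20, min_eq_right (hy1.nonneg w)]
          exact h
        · have h := hw.1
          rw [off_of_notMem (by simpa using hwu)] at h
          exact h)
      have b2 := hcomp x y1 y2 (off x {u}) (off y1 (cn G u)) y2 u (by
        intro w hw
        rw [g_DM_mem_B] at hw
        rw [Finset.mem_union]
        by_cases hwc : w ∈ cn G u
        · exact Or.inr hwc
        · left
          rw [g_DM_mem_B]
          refine ⟨?_, hw.2⟩
          have hwu : w ≠ u := fun h => hwc (by rw [h]; exact self_mem_cn u)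
          have h := hw.1
          rw [off_of_notMem (z := y1) hwc, off_of_notMem (z := x) (by simpa using hwu)] at h
          exact h)
      have b3 := hcomp0 x y1 y2 (off x (cn G u)) (off y1 (cn G u)) y2 (by
        intro w hw
        rw [g_DM_mem_B] at hw ⊢
        refine ⟨?_, hw.2⟩
        by_cases hwc : w ∈ cn G u
        · exfalso
          apply hw.1
          rw [off_of_mem (z := x) hwc, off_of_mem (z := y1) hwc, min_eq_left (hy2.nonneg w)]
        · have h := hw.1
          rw [off_of_notMem (z := y1) hwc, off_of_notMem (z := x) hwc] at h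
          exact h)
      have hstep : KF G y1 y2 (fun _ => 1) =
          (1 - dn G y1 u) * KF G (off y1 {u}) y2 (fun _ => 1) +
            dn G y1 u * (1 + KF G (off y1 (cn G u)) y2 (fun _ => 1)) := by
        rw [KF_comm (x := y1) (y := y2), KF_comm (x := off y1 {u}) (y := y2),
          KF_comm (x := off y1 (cn G u)) (y := y2)]
        refine KF_step hy2.nonneg hy1.nonneg ?_ h20 _
        rw [DD_comm]
        exact hu
      exact g_DM_arA hp0 hp1 hα0 hα1 hM0 (g_DM_upA hx.nonneg hy1.nonneg u)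
        (g_DM_loA hx.nonneg hy2.nonneg u h20 O) (by linarith) (by linarith) (by linarith) hstep
    · -- case B
      have hp0 := dn_nonneg (G := G) hy2.nonneg u
      have hp1 := dn_le_one (G := G) hy2.nonneg u
      have hlt1 := g_DM_s_lt (X := {u}) (Finset.mem_singleton_self u) h2ne
      have hlt2 := g_DM_s_lt (X := cn G u) (self_mem_cn u) h2ne
      have hle1 := g_DM_s_le x {u}
      have hle2 := g_DM_s_le x (cn G u)
      have i1 := ih x y1 (off y2 {u}) (by omega) hx hy1 (hy2.off _) hxy1 (hxy2.off_right _)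
        (hy12.off_right _)
      have i2 := ih (off x {u}) y1 (off y2 (cn G u)) (by omega) (hx.off _) hy1 (hy2.off _)
        (hxy1.off_left _) ((hxy2.off_right _).off_left _) (hy12.off_right _)
      have i3 := ih (off x (cn G u)) y1 (off y2 (cn G u)) (by omega) (hx.off _) hy1 (hy2.off _)
        (hxy1.off_left _) ((hxy2.off_right _).off_left _) (hy12.off_right _)
      have b1 := hcomp0 x y1 y2 x y1 (off y2 {u}) (by
        intro w hw
        rw [g_DM_mem_B] at hw ⊢
        refine ⟨?_, hw.2⟩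
        by_cases hwu : w = u
        · subst hwu
          have h := hw.1
          rw [off_of_mem (Finset.mem_singleton_self w), h10, min_self] at h
          rw [h10, min_eq_left (hy2.nonneg w)]
          exact h
        · have h := hw.1
          rw [off_of_notMem (by simpa using hwu)] at h
          exact h)
      have b2 := hcomp x y1 y2 (off x {u}) y1 (off y2 (cn G u)) u (by
        intro w hw
        rw [g_DM_mem_B] at hw
        rw [Finset.mem_union]
        by_cases hwc : w ∈ cn G u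
        · exact Or.inr hwc
        · left
          rw [g_DM_mem_B]
          refine ⟨?_, hw.2⟩
          have hwu : w ≠ u := fun h => hwc (by rw [h]; exact self_mem_cn u)
          have h := hw.1
          rw [off_of_notMem (z := y2) hwc, off_of_notMem (z := x) (by simpa using hwu)] at h
          exact h)
      have b3 := hcomp0 x y1 y2 (off x (cn G u)) y1 (off y2 (cn G u)) (by
        intro w hw
        rw [g_DM_mem_B] at hw ⊢
        refine ⟨?_, hw.2⟩
        by_cases hwc : w ∈ cn G u
        · exfalso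
          apply hw.1
          rw [off_of_mem (z := x) hwc, off_of_mem (z := y2) hwc, min_eq_right (hy1.nonneg w)]
        · have h := hw.1
          rw [off_of_notMem (z := y2) hwc, off_of_notMem (z := x) hwc] at h
          exact h)
      have hstep : KF G y1 y2 (fun _ => 1) =
          (1 - dn G y2 u) * KF G y1 (off y2 {u}) (fun _ => 1) +
            dn G y2 u * (1 + KF G y1 (off y2 (cn G u)) (fun _ => 1)) :=
        KF_step hy1.nonneg hy2.nonneg hu h10 _
      exact g_DM_arB hp0 hp1 hα0 hα1 hM0 (g_DM_upB hx.nonneg hy1.nonneg u h10)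
        (g_DM_loB hx.nonneg hy2.nonneg u O) (by linarith) (by linarith) (by linarith) hstep

end g_DM

theorem s_DM : S_DM := by
  intro hExc V _ G κ K0 M q hC x y1 y2 O hx hy1 hy2 hxy1 hxy2 hy12
  exact g_DM_main hExc hC O _ x y1 y2 le_rfl hx hy1 hy2 hxy1 hxy2 hy12

end Pool.Agent.Gas26
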