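import Pool.Agent.Lib.MP_26a019_lc.Ex.GasSpec

set_option autoImplicit false

open Finset Classical

namespace Pool.Agent.Gas26

theorem g_DMc_KF {V : Type} [Fintype V] {G : SimpleGraph V} {κ : V → ℝ} {K0 M q : ℝ}
    (h : Cls G κ K0 M q) {y : V → ℝ} (hy : Btw κ y) (X : Finset V) :
    KF G y (off y X) (fun _ => 1) ≤ M / q * (X.card : ℝ) := by
  obtain ⟨-, hM, hq, -, -, hA⟩ := h
  rw [KF_one]
  refine (hA y (off y X) hy (hy.off X) (pair_off y X)).trans ?_
  refine mul_le_mul_of_nonneg_left ?_ (by positivity)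
  have hsub : DD y (off y X) ⊆ X := by
    intro v hv
    rw [mem_DD] at hv
    by_contra hvX
    exact hv (off_of_notMem hvX).symm
  exact_mod_cast Finset.card_le_card hsub

theorem s_DMc : S_DMc := by
  intro hExc hDM V _ G κ K0 M q hC x y X hx hy hp
  have hM : 1 ≤ M := hC.2.1
  have hq : 1 ≤ q := hC.2.2.1
  have hX : (0 : ℝ) ≤ (X.card : ℝ) := Nat.cast_nonneg _
  have hk := g_DMc_KF hC hy X
  have hk' : KF G (off y X) y (fun _ => 1) ≤ M / q * (X.card : ℝ) := by
    rw [KF_comm]; exact hk
  have hMq : 0 ≤ M / q * (X.card : ℝ) := by positivity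
  have hyo : ∀ w, off y X w ≤ y w := by
    intro w
    unfold off
    split_ifs
    · exact (hy w).1
    · exact le_rfl
  have e1 : (M + 1) * (M / q * (X.card : ℝ)) + M / q * (X.card : ℝ) =
      M * (M + 2) / q * (X.card : ℝ) := by ring
  rw [abs_le]
  constructor
  · have h1 := hDM hExc V G κ K0 M q hC x (off y X) y (DD x y) hx (hy.off X) hy
      (hp.off_right X) hp (pair_off y X).symm
    rw [← KF_one] at h1
    have hsub : ((univ.filter (fun w => x w ≠ min (off y X w) (y w))) \ DD x y) ⊆ X := by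
      intro v hv
      rw [Finset.mem_sdiff, Finset.mem_filter, mem_DD, not_not] at hv
      obtain ⟨⟨-, h2⟩, h3⟩ := hv
      rw [min_eq_left (hyo v)] at h2
      by_contra hvX
      rw [off_of_notMem hvX] at h2
      exact h2 h3
    have h2 : (((univ.filter (fun w => x w ≠ min (off y X w) (y w))) \ DD x y).card : ℝ) ≤
        (X.card : ℝ) := by
      exact_mod_cast Finset.card_le_card hsub
    have h3 : M / q * (((univ.filter (fun w => x w ≠ min (off y X w) (y w))) \ DD x y).card : ℝ) ≤
        M / q * (X.card : ℝ) := mul_le_mul_of_nonneg_left h2 (by positivity)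
    have h4 : (M + 1) * KF G (off y X) y (fun _ => 1) ≤ (M + 1) * (M / q * (X.card : ℝ)) :=
      mul_le_mul_of_nonneg_left hk' (by positivity)
    linarith
  · have h1 := hDM hExc V G κ K0 M q hC x y (off y X) (DD x (off y X)) hx hy (hy.off X) hp
      (hp.off_right X) (pair_off y X)
    rw [← KF_one] at h1
    have hsub : ((univ.filter (fun w => x w ≠ min (y w) (off y X w))) \ DD x (off y X)) = ∅ := by
      rw [Finset.eq_empty_iff_forall_notMem]
      intro v hv
      rw [Finset.mem_sdiff, Finset.mem_filter, mem_DD, not_not] at hv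
      obtain ⟨⟨-, h2⟩, h3⟩ := hv
      rw [min_eq_right (hyo v)] at h2
      exact h2 h3
    rw [hsub, Finset.card_empty, Nat.cast_zero, mul_zero, add_zero] at h1
    have h4 : (M + 1) * KF G y (off y X) (fun _ => 1) ≤ (M + 1) * (M / q * (X.card : ℝ)) :=
      mul_le_mul_of_nonneg_left hk (by positivity)
    linarith

end Pool.Agent.Gas26
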