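import Pool.Agent.Lib.MP_26a019_lc.Ex.GasSpec

set_option autoImplicit false
set_option linter.unusedVariables false

/-!
# Module g_Der: bound for the derivative of the log ratio of partition functions
-/

open Finset Classical

namespace Pool.Agent.Gas26

private theorem g_Der_card_CN {V : Type} [Fintype V] {G : SimpleGraph V} {q : ℝ}
    (hq : ∀ v, ((cn G v).card : ℝ) ≤ q) (k : Finset V) :
    ((CN G k).card : ℝ) ≤ q * (k.card : ℝ) := by
  unfold CN
  calc ((k.biUnion (cn G)).card : ℝ) ≤ ((∑ v ∈ k, (cn G v).card : ℕ) : ℝ) := by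
        exact_mod_cast Finset.card_biUnion_le
    _ = ∑ v ∈ k, ((cn G v).card : ℝ) := by push_cast; rfl
    _ ≤ ∑ _v ∈ k, q := Finset.sum_le_sum fun v _ => hq v
    _ = q * (k.card : ℝ) := by rw [Finset.sum_const, nsmul_eq_mul, mul_comm]

theorem s_Der : S_Der := by
  intro hG V _ G κ K0 M q hC z d k lev r e hz hL h0 he hd hde
  obtain ⟨hK0, hM, hq, hκ, hcn, hA⟩ := hC
  have hz0 := hz.nonneg
  have hqp : 0 < q := by linarith
  have hK0p : 0 ≤ K0 := by linarith
  set X := CN G k with hX
  set y := off z X with hy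
  have hy0 : ∀ v, 0 ≤ y v := off_nonneg hz0 X
  have hP : Pair z y := pair_off z X
  have hXc : (X.card : ℝ) ≤ q * (k.card : ℝ) := g_Der_card_CN hcn k
  have hDD : DD z y ⊆ X := by
    intro v hv
    rw [mem_DD] at hv
    by_contra h
    exact hv (off_of_notMem h).symm
  set P : V → ℝ := fun w => E2 G z y (fun a b => if w ∈ Ks G a b (DD z y) then 1 else 0) with hPdef
  have hP0 : ∀ w, 0 ≤ P w := fun w => E2_nonneg hz0 hy0 (by
    intro a _ _ b _ _
    split_ifs <;> norm_num)
  have hfr : ∀ v, |fr G y v - fr G z v| ≤ ∑ w ∈ cn G v, P w := by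
    intro v
    have h := hG V G z y (cn G v) (fun S => if Disjoint S (cn G v) then 1 else 0) hz0 hy0 hP
      (by
        intro S
        have h1 : Disjoint (S ∩ cn G v) (cn G v) ↔ Disjoint S (cn G v) := by
          rw [Finset.disjoint_iff_inter_eq_empty, Finset.disjoint_iff_inter_eq_empty,
            Finset.inter_assoc, Finset.inter_self]
        simp only [h1])
      (by
        intro S S'
        split_ifs <;> norm_num)
    rw [abs_sub_comm]
    exact h
  -- the sum over a closed neighbourhood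
  have hcnd : ∀ w, ∑ v ∈ cn G w, |d v| ≤ K0 * e + K0 * (if r ≤ lev w then 1 else 0) := by
    intro w
    by_cases hw : r ≤ lev w
    · rw [if_pos hw, mul_one]
      calc ∑ v ∈ cn G w, |d v| ≤ ∑ _v ∈ cn G w, K0 / q := Finset.sum_le_sum fun v _ => hd v
        _ = ((cn G w).card : ℝ) * (K0 / q) := by rw [Finset.sum_const, nsmul_eq_mul]
        _ ≤ q * (K0 / q) := mul_le_mul_of_nonneg_right (hcn w) (by positivity)
        _ = K0 := by field_simp
        _ ≤ K0 * e + K0 := by
          have : 0 ≤ K0 * e := by positivity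
          linarith
    · rw [if_neg hw, mul_zero, add_zero]
      push Not at hw
      calc ∑ v ∈ cn G w, |d v| ≤ ∑ _v ∈ cn G w, e * (K0 / q) := by
            refine Finset.sum_le_sum fun v hv => hde v ?_
            rcases mem_cn.1 hv with h | h
            · rw [h]; omega
            · have := hL w v h
              omega
        _ = ((cn G w).card : ℝ) * (e * (K0 / q)) := by rw [Finset.sum_const, nsmul_eq_mul]
        _ ≤ q * (e * (K0 / q)) := mul_le_mul_of_nonneg_right (hcn w) (by positivity)
        _ = K0 * e := by field_simp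
  have hsumP : ∑ w, P w ≤ M * (k.card : ℝ) := by
    have h1 : ∑ w, P w = KF G z y (fun _ => 1) := by
      rw [KF_eq_sum]
      simp only [one_mul]
      rfl
    rw [h1, KF_one]
    have h2 := hA z y hz (hz.off X) hP
    refine h2.trans ?_
    have h3 : ((DD z y).card : ℝ) ≤ q * (k.card : ℝ) := by
      refine le_trans ?_ hXc
      exact_mod_cast Finset.card_le_card hDD
    calc M / q * ((DD z y).card : ℝ) ≤ M / q * (q * (k.card : ℝ)) :=
          mul_le_mul_of_nonneg_left h3 (by positivity)
      _ = M * (k.card : ℝ) := by field_simp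
  have hKF : ∑ w, P w * (if r ≤ lev w then 1 else 0) =
      KF G z y (fun v => if r ≤ lev v then 1 else 0) := by
    rw [KF_eq_sum]
    refine Finset.sum_congr rfl fun w _ => ?_
    rw [mul_comm]
  -- the two parts
  have hsplit : (∑ v ∈ univ \ X, d v * fr G y v) - ∑ v, d v * fr G z v =
      (∑ v ∈ univ \ X, d v * (fr G y v - fr G z v)) - ∑ v ∈ X, d v * fr G z v := by
    have h1 : ∑ v, d v * fr G z v = (∑ v ∈ univ \ X, d v * fr G z v) + ∑ v ∈ X, d v * fr G z v :=
      (Finset.sum_sdiff (Finset.subset_univ X)).symm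
    rw [h1]
    simp only [mul_sub, Finset.sum_sub_distrib]
    ring
  have hpart2 : |∑ v ∈ X, d v * fr G z v| ≤ K0 * e * (k.card : ℝ) := by
    calc |∑ v ∈ X, d v * fr G z v| ≤ ∑ v ∈ X, |d v * fr G z v| := Finset.abs_sum_le_sum_abs _ _
      _ ≤ ∑ _v ∈ X, e * (K0 / q) := by
        refine Finset.sum_le_sum fun v hv => ?_
        rw [abs_mul, abs_of_nonneg (fr_nonneg hz0 v)]
        have h1 : |d v| ≤ e * (K0 / q) := hde v (by rw [h0 v hv]; exact Nat.zero_le _)
        calc |d v| * fr G z v ≤ |d v| * 1 :=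
              mul_le_mul_of_nonneg_left (fr_le_one hz0 v) (abs_nonneg _)
          _ ≤ e * (K0 / q) := by rw [mul_one]; exact h1
      _ = (X.card : ℝ) * (e * (K0 / q)) := by rw [Finset.sum_const, nsmul_eq_mul]
      _ ≤ (q * (k.card : ℝ)) * (e * (K0 / q)) := mul_le_mul_of_nonneg_right hXc (by positivity)
      _ = K0 * e * (k.card : ℝ) := by field_simp
  have hpart1 : |∑ v ∈ univ \ X, d v * (fr G y v - fr G z v)| ≤
      K0 * e * (M * (k.card : ℝ)) + K0 * KF G z y (fun v => if r ≤ lev v then 1 else 0) := by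
    calc |∑ v ∈ univ \ X, d v * (fr G y v - fr G z v)|
        ≤ ∑ v ∈ univ \ X, |d v * (fr G y v - fr G z v)| := Finset.abs_sum_le_sum_abs _ _
      _ ≤ ∑ v, |d v * (fr G y v - fr G z v)| :=
        Finset.sum_le_sum_of_subset_of_nonneg (Finset.subset_univ _) fun _ _ _ => abs_nonneg _
      _ ≤ ∑ v, |d v| * ∑ w ∈ cn G v, P w := by
        refine Finset.sum_le_sum fun v _ => ?_
        rw [abs_mul]
        exact mul_le_mul_of_nonneg_left (hfr v) (abs_nonneg _)
      _ = ∑ v, ∑ w, if w ∈ cn G v then |d v| * P w else 0 := by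
        refine Finset.sum_congr rfl fun v _ => ?_
        rw [Finset.mul_sum, Finset.sum_ite_mem, Finset.univ_inter]
      _ = ∑ w, ∑ v, if w ∈ cn G v then |d v| * P w else 0 := Finset.sum_comm
      _ = ∑ w, P w * ∑ v ∈ cn G w, |d v| := by
        refine Finset.sum_congr rfl fun w _ => ?_
        have h1 : ∀ v, (if w ∈ cn G v then |d v| * P w else 0) =
            (if v ∈ cn G w then |d v| * P w else 0) := by
          intro v
          by_cases h : w ∈ cn G v
          · rw [if_pos h, if_pos (mem_cn_comm.1 h)]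
          · rw [if_neg h, if_neg (fun h' => h (mem_cn_comm.1 h'))]
        simp only [h1]
        rw [Finset.sum_ite_mem, Finset.univ_inter, Finset.mul_sum]
        exact Finset.sum_congr rfl fun v _ => mul_comm _ _
      _ ≤ ∑ w, P w * (K0 * e + K0 * (if r ≤ lev w then 1 else 0)) :=
        Finset.sum_le_sum fun w _ => mul_le_mul_of_nonneg_left (hcnd w) (hP0 w)
      _ = K0 * e * (∑ w, P w) + K0 * ∑ w, P w * (if r ≤ lev w then 1 else 0) := by
        rw [Finset.mul_sum, Finset.mul_sum, ← Finset.sum_add_distrib]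
        refine Finset.sum_congr rfl fun w _ => ?_
        ring
      _ ≤ _ := by
        rw [hKF]
        have : K0 * e * (∑ w, P w) ≤ K0 * e * (M * (k.card : ℝ)) :=
          mul_le_mul_of_nonneg_left hsumP (by positivity)
        linarith
  rw [hsplit]
  calc |(∑ v ∈ univ \ X, d v * (fr G y v - fr G z v)) - ∑ v ∈ X, d v * fr G z v|
      ≤ |∑ v ∈ univ \ X, d v * (fr G y v - fr G z v)| + |∑ v ∈ X, d v * fr G z v| := abs_sub _ _
    _ ≤ (K0 * e * (M * (k.card : ℝ)) + K0 * KF G z y (fun v => if r ≤ lev v then 1 else 0)) +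
        K0 * e * (k.card : ℝ) := add_le_add hpart1 hpart2
    _ = _ := by ring

end Pool.Agent.Gas26
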