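import Pool.Agent.Lib.MP_26a019_lc.Ex.GasSpec

set_option autoImplicit false

/-!
# Exc: old and new seeds
-/

open Finset Classical

namespace Pool.Agent.Gas26

/-- the expected size of the components of the seeds `O` -/
noncomputable def g_Exc_T {V : Type} [Fintype V] (G : SimpleGraph V) (x y : V → ℝ)
    (O : Finset V) : ℝ := E2 G x y (fun a b => ((Ks G a b O).card : ℝ))

theorem g_Exc_T_comm {V : Type} [Fintype V] (G : SimpleGraph V) (x y : V → ℝ) (O : Finset V) :
    g_Exc_T G x y O = g_Exc_T G y x O := by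
  unfold g_Exc_T
  rw [E2_swap]
  congr 1
  funext a b
  rw [Ks_comm]

theorem g_Exc_T_nonneg {V : Type} [Fintype V] {G : SimpleGraph V} {x y : V → ℝ}
    (hx : ∀ v, 0 ≤ x v) (hy : ∀ v, 0 ≤ y v) (O : Finset V) : 0 ≤ g_Exc_T G x y O :=
  E2_nonneg hx hy fun _ _ _ _ _ _ => Nat.cast_nonneg _

theorem g_Exc_T_mono {V : Type} [Fintype V] {G : SimpleGraph V} {x y : V → ℝ}
    (hx : ∀ v, 0 ≤ x v) (hy : ∀ v, 0 ≤ y v) {O O' : Finset V} (h : O ⊆ O') :
    g_Exc_T G x y O ≤ g_Exc_T G x y O' :=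
  E2_mono hx hy fun _ _ _ _ _ _ => by exact_mod_cast Finset.card_le_card (Ks_mono h)

/-- one step for `g_Exc_T` -/
theorem g_Exc_T_step {V : Type} [Fintype V] {G : SimpleGraph V} {x y : V → ℝ}
    (hx0 : ∀ v, 0 ≤ x v) (hy : ∀ v, 0 ≤ y v) {u : V} {O : Finset V} (hu : u ∈ O) (hx : x u = 0) :
    g_Exc_T G x y O = (1 - dn G y u) * g_Exc_T G x (off y {u}) O +
      dn G y u * (1 + g_Exc_T G x (off y (cn G u)) (O ∪ cn G u)) := by
  unfold g_Exc_T
  rw [E2_rev_right hy u]
  congr 1
  congr 1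
  have h1 : E2 G x (off y (cn G u)) (fun a b => ((Ks G a (insert u b) O).card : ℝ)) =
      E2 G x (off y (cn G u)) (fun a b => 1 + ((Ks G a b (O ∪ cn G u)).card : ℝ)) := by
    refine E2_congr fun a _ ha b _ hb => ?_
    have hua : u ∉ a := fun h => ha u h hx
    have hub : u ∉ b := fun h => hb u h (off_of_mem (self_mem_cn u))
    rw [Ks_insert hua hub hu, Finset.card_insert_of_notMem (notMem_Ks hua hub)]
    push_cast
    ring
  rw [h1, E2_add, E2_const hx0 (off_nonneg hy _)]

/-- the induction step, for a vertex `u` with `x u = 0` -/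
theorem g_Exc_step {V : Type} [Fintype V] {G : SimpleGraph V} {κ : V → ℝ} {M q : ℝ}
    (hMq : 0 ≤ M / q) {x y : V → ℝ} {O : Finset V} (hx : Btw κ x) (hy : Btw κ y)
    (hp : Pair x y) {u : V} (hu : u ∈ DD x y) (huO : u ∈ O) (hxu : x u = 0)
    (ih : ∀ (x' y' : V → ℝ) (O' : Finset V), sz x' y' < sz x y → Btw κ x' → Btw κ y' →
      Pair x' y' → KF G x' y' (fun _ => 1) - g_Exc_T G x' y' O' ≤
        M / q * ((DD x' y' \ O').card : ℝ)) :
    KF G x y (fun _ => 1) - g_Exc_T G x y O ≤ M / q * ((DD x y \ O).card : ℝ) := by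
  have hyu : y u ≠ 0 := by
    intro h
    rw [mem_DD, hxu, h] at hu
    exact hu rfl
  have h1 := ih x (off y {u}) O (sz_off_right_lt (Finset.mem_singleton_self u) hyu) hx
    (hy.off _) (hp.off_right _)
  have h2 := ih x (off y (cn G u)) (O ∪ cn G u) (sz_off_right_lt (self_mem_cn u) hyu) hx
    (hy.off _) (hp.off_right _)
  have c1 : ((DD x (off y {u}) \ O).card : ℝ) ≤ ((DD x y \ O).card : ℝ) := by
    norm_cast
    apply Finset.card_le_card
    apply Finset.sdiff_subset_sdiff _ (Finset.Subset.refl _)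
    rw [DD_off_singleton hxu]
    exact Finset.erase_subset _ _
  have c2 : ((DD x (off y (cn G u)) \ (O ∪ cn G u)).card : ℝ) ≤ ((DD x y \ O).card : ℝ) := by
    norm_cast
    apply Finset.card_le_card
    intro v hv
    rw [Finset.mem_sdiff, mem_DD, Finset.mem_union, not_or] at hv
    obtain ⟨h3, h4, h5⟩ := hv
    rw [off_of_notMem h5] at h3
    rw [Finset.mem_sdiff, mem_DD]
    exact ⟨h3, h4⟩
  have d1 := mul_le_mul_of_nonneg_left c1 hMq
  have d2 := mul_le_mul_of_nonneg_left c2 hMq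
  rw [KF_step hx.nonneg hy.nonneg hu hxu, g_Exc_T_step hx.nonneg hy.nonneg huO hxu]
  have p0 := dn_nonneg (G := G) hy.nonneg u
  have p1 := dn_le_one (G := G) hy.nonneg u
  set p := dn G y u with hpdef
  set R := M / q * ((DD x y \ O).card : ℝ) with hR
  have e1 : KF G x (off y {u}) (fun _ => 1) - g_Exc_T G x (off y {u}) O ≤ R := h1.trans d1
  have e2 : KF G x (off y (cn G u)) (fun _ => 1) -
      g_Exc_T G x (off y (cn G u)) (O ∪ cn G u) ≤ R := h2.trans d2
  have f1 := mul_le_mul_of_nonneg_left e1 (by linarith : 0 ≤ 1 - p)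
  have f2 := mul_le_mul_of_nonneg_left e2 p0
  nlinarith [f1, f2]

theorem g_Exc_main {V : Type} [Fintype V] {G : SimpleGraph V} {κ : V → ℝ} {M q : ℝ}
    (hMq : 0 ≤ M / q) (hA : Adm G κ M q) : ∀ (n : ℕ) (x y : V → ℝ) (O : Finset V),
    sz x y = n → Btw κ x → Btw κ y → Pair x y →
      KF G x y (fun _ => 1) - g_Exc_T G x y O ≤ M / q * ((DD x y \ O).card : ℝ) := by
  intro n
  induction n using Nat.strong_induction_on with
  | _ n IH =>
    intro x y O hn hx hy hp
    by_cases hO : (O ∩ DD x y) = ∅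
    · have h1 := hA x y hx hy hp
      rw [← KF_one] at h1
      have h2 := g_Exc_T_nonneg (G := G) hx.nonneg hy.nonneg O
      have h3 : DD x y \ O = DD x y := by
        rw [Finset.sdiff_eq_self_iff_disjoint, disjoint_comm, Finset.disjoint_iff_inter_eq_empty]
        exact hO
      rw [h3]
      linarith
    · obtain ⟨u, hu⟩ := Finset.nonempty_iff_ne_empty.2 hO
      rw [Finset.mem_inter] at hu
      have hne := mem_DD.1 hu.2
      rcases hp u with h | h | h
      · exact absurd h hne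
      · exact g_Exc_step hMq hx hy hp hu.2 hu.1 h fun x' y' O' hlt hx' hy' hp' =>
          IH (sz x' y') (hn ▸ hlt) x' y' O' rfl hx' hy' hp'
      · have h4 := g_Exc_step (G := G) (κ := κ) hMq (O := O) hy hx hp.symm (by
          rw [DD_comm]; exact hu.2) hu.1 h fun x' y' O' hlt hx' hy' hp' =>
          IH (sz x' y') (by have h5 := sz_comm (x := x) (y := y); omega)
            x' y' O' rfl hx' hy' hp'
        rw [KF_comm, g_Exc_T_comm, DD_comm]
        exact h4

theorem s_Exc : S_Exc := by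
  intro V _ G κ K0 M q hC x y O hx hy hp
  obtain ⟨_, hM, hq, _, _, hA⟩ := hC
  exact g_Exc_main (div_nonneg (by linarith) (by linarith)) hA _ x y O rfl hx hy hp

end Pool.Agent.Gas26
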