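import Pool.Agent.Lib.MP_26a019_lc.Ex.GasSpec

set_option autoImplicit false

/-!
# Exponential moments of the cluster
-/

open Finset Classical

namespace Pool.Agent.Gas26

theorem g_ExpM_real (M1 p m s : ℝ) (h0 : 0 ≤ M1) (hp0 : 0 ≤ p)
    (hΔ : |m - s| ≤ M1) :
    (1 - p) * Real.exp (1 / (2 * (M1 + 1) ^ 2) * m) +
      p * (Real.exp (1 / (8 * (M1 + 1) ^ 2)) * Real.exp (1 / (2 * (M1 + 1) ^ 2) * s)) ≤
      Real.exp (1 / (2 * (M1 + 1) ^ 2) * ((1 - p) * m + p * (1 + s))) := by
  set μ : ℝ := 1 / (2 * (M1 + 1) ^ 2) with hμ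
  have hl : 1 / (8 * (M1 + 1) ^ 2) = μ / 4 := by
    rw [hμ]; field_simp; norm_num
  rw [hl]
  have hμ0 : 0 < μ := by positivity
  have hμ1 : μ * (M1 + 1) ^ 2 = 1 / 2 := by
    rw [hμ]; field_simp
  have hμ2 : μ * (M1 + 1) ≤ 1 / 2 := by
    rw [← hμ1]
    have : M1 + 1 ≤ (M1 + 1) ^ 2 := by nlinarith
    exact mul_le_mul_of_nonneg_left this hμ0.le
  set D : ℝ := s - m with hD
  have hD1 : |D| ≤ M1 := by rw [hD, abs_sub_comm]; exact hΔ
  have hD2 := abs_le.mp hD1
  set t : ℝ := μ / 4 + μ * D with ht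
  have ht1 : |t| ≤ μ * (M1 + 1) := by
    rw [abs_le]
    constructor
    · nlinarith
    · nlinarith
  have ht2 : |t| ≤ 1 := ht1.trans (hμ2.trans (by norm_num))
  have he := Real.abs_exp_sub_one_sub_id_le ht2
  have he2 : Real.exp t - 1 - t ≤ t ^ 2 := (le_abs_self _).trans he
  have ht3 : t ^ 2 ≤ μ / 2 := by
    calc t ^ 2 = |t| ^ 2 := (sq_abs t).symm
      _ ≤ (μ * (M1 + 1)) ^ 2 := by
        have := abs_nonneg t
        gcongr
      _ = μ * (μ * (M1 + 1) ^ 2) := by ring
      _ = μ / 2 := by rw [hμ1]; ring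
  have he3 : Real.exp t - 1 ≤ μ * (1 + D) := by
    rw [ht] at he2 ht3 ⊢
    nlinarith
  have e1 : Real.exp (μ / 4) * Real.exp (μ * s) = Real.exp (μ * m) * Real.exp t := by
    rw [← Real.exp_add, ← Real.exp_add]
    congr 1
    rw [ht, hD]; ring
  have e2 : (1 - p) * Real.exp (μ * m) + p * (Real.exp (μ / 4) * Real.exp (μ * s)) =
      Real.exp (μ * m) * (1 + p * (Real.exp t - 1)) := by
    rw [e1]; ring
  have e3 : Real.exp (μ * ((1 - p) * m + p * (1 + s))) =
      Real.exp (μ * m) * Real.exp (p * (μ * (1 + D))) := by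
    rw [← Real.exp_add]
    congr 1
    rw [hD]; ring
  rw [e2, e3]
  refine mul_le_mul_of_nonneg_left ?_ (Real.exp_pos _).le
  have h1 := Real.add_one_le_exp (p * (μ * (1 + D)))
  have h2 := mul_le_mul_of_nonneg_left he3 hp0
  linarith

theorem g_ExpM_step {V : Type} [Fintype V] {G : SimpleGraph V} {κ : V → ℝ} {M q : ℝ}
    (hM : 1 ≤ M) (hq : 1 ≤ q) (hcn : ∀ v, ((cn G v).card : ℝ) ≤ q)
    (hDMc : ∀ (x y : V → ℝ) (X : Finset V), Btw κ x → Btw κ y → Pair x y →
      |KF G x y (fun _ => 1) - KF G x (off y X) (fun _ => 1)| ≤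
        M * (M + 2) / q * (X.card : ℝ))
    {x y : V → ℝ} {u : V} (hx : Btw κ x) (hy : Btw κ y) (hP : Pair x y) (hu : u ∈ DD x y)
    (hxu : x u = 0)
    (ih1 : E2 G x (off y {u}) (fun a b => Real.exp (1 / (8 * (M * (M + 2) + 1) ^ 2) *
      ((Ks G a b (DD x (off y {u}))).card : ℝ))) ≤
      Real.exp (1 / (2 * (M * (M + 2) + 1) ^ 2) * KF G x (off y {u}) (fun _ => 1)))
    (ih2 : E2 G x (off y (cn G u)) (fun a b => Real.exp (1 / (8 * (M * (M + 2) + 1) ^ 2) *
      ((Ks G a b (DD x (off y (cn G u)))).card : ℝ))) ≤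
      Real.exp (1 / (2 * (M * (M + 2) + 1) ^ 2) * KF G x (off y (cn G u)) (fun _ => 1))) :
    E2 G x y (fun a b => Real.exp (1 / (8 * (M * (M + 2) + 1) ^ 2) *
      ((Ks G a b (DD x y)).card : ℝ))) ≤
      Real.exp (1 / (2 * (M * (M + 2) + 1) ^ 2) * KF G x y (fun _ => 1)) := by
  have hx0 := hx.nonneg
  have hy0 := hy.nonneg
  have hp0 := dn_nonneg (G := G) hy0 u
  have hp1 := dn_le_one (G := G) hy0 u
  have hM1 : 0 ≤ M * (M + 2) := by positivity
  rw [KF_step hx0 hy0 hu hxu, E2_rev_right hy0 u]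
  have a1 : E2 G x (off y {u}) (fun a b => Real.exp (1 / (8 * (M * (M + 2) + 1) ^ 2) *
      ((Ks G a b (DD x y)).card : ℝ))) =
      E2 G x (off y {u}) (fun a b => Real.exp (1 / (8 * (M * (M + 2) + 1) ^ 2) *
      ((Ks G a b (DD x (off y {u}))).card : ℝ))) :=
    E2_congr fun a _ ha b _ hb => by rw [Ks_DD_off ha hb hxu]
  have a2 : E2 G x (off y (cn G u)) (fun a b => Real.exp (1 / (8 * (M * (M + 2) + 1) ^ 2) *
      ((Ks G a (insert u b) (DD x y)).card : ℝ))) =
      Real.exp (1 / (8 * (M * (M + 2) + 1) ^ 2)) *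
      E2 G x (off y (cn G u)) (fun a b => Real.exp (1 / (8 * (M * (M + 2) + 1) ^ 2) *
      ((Ks G a b (DD x (off y (cn G u)))).card : ℝ))) := by
    rw [← E2_mul_left]
    refine E2_congr fun a _ ha b _ hb => ?_
    have hua : u ∉ a := fun h => ha u h hxu
    have hub : u ∉ b := fun h => hb u h (off_of_mem (self_mem_cn u))
    rw [Ks_DD_insert ha hb hxu hu, Finset.card_insert_of_notMem (notMem_Ks hua hub),
      ← Real.exp_add]
    congr 1
    push_cast
    ring
  rw [a1, a2]
  have hoff : off (off y {u}) (cn G u) = off y (cn G u) := by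
    rw [off_off]
    congr 1
    ext w
    simp only [Finset.mem_union, Finset.mem_singleton]
    constructor
    · rintro (h | h)
      · rw [h]; exact self_mem_cn u
      · exact h
    · exact Or.inr
  have hd := hDMc x (off y {u}) (cn G u) hx (hy.off _) (hP.off_right _)
  rw [hoff] at hd
  have hd2 : |KF G x (off y {u}) (fun _ => 1) - KF G x (off y (cn G u)) (fun _ => 1)| ≤
      M * (M + 2) := by
    refine hd.trans ?_
    rw [div_mul_eq_mul_div, div_le_iff₀ (by linarith)]
    exact mul_le_mul_of_nonneg_left (hcn u) hM1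
  refine le_trans ?_ (g_ExpM_real (M * (M + 2)) (dn G y u) _ _ hM1 hp0 hd2)
  have h1p : 0 ≤ 1 - dn G y u := by linarith
  have e0 := (Real.exp_pos (1 / (8 * (M * (M + 2) + 1) ^ 2))).le
  exact add_le_add (mul_le_mul_of_nonneg_left ih1 h1p)
    (mul_le_mul_of_nonneg_left (mul_le_mul_of_nonneg_left ih2 e0) hp0)

theorem s_ExpM : S_ExpM := by
  intro hExc hDM hDMc V _ G κ K0 M q hC
  obtain ⟨hK0, hM, hq, hκ, hcn, hAdm⟩ := hC
  have hDc := hDMc hExc hDM V G κ K0 M q ⟨hK0, hM, hq, hκ, hcn, hAdm⟩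
  have main : ∀ n : ℕ, ∀ x y : V → ℝ, sz x y = n → Btw κ x → Btw κ y → Pair x y →
      E2 G x y (fun a b => Real.exp (1 / (8 * (M * (M + 2) + 1) ^ 2) *
        ((Ks G a b (DD x y)).card : ℝ))) ≤
        Real.exp (1 / (2 * (M * (M + 2) + 1) ^ 2) * KF G x y (fun _ => 1)) := by
    intro n
    induction n using Nat.strong_induction_on with
    | _ n ih =>
      intro x y hn hx hy hP
      rcases (DD x y).eq_empty_or_nonempty with hD | ⟨u, hu⟩
      · rw [KF_of_empty hD, hD]
        simp only [Ks_empty, Finset.card_empty, Nat.cast_zero, mul_zero, Real.exp_zero]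
        rw [E2_const hx.nonneg hy.nonneg]
      · have hne := mem_DD.1 hu
        have key : ∀ x y : V → ℝ, sz x y = n → Btw κ x → Btw κ y → Pair x y → u ∈ DD x y →
            x u = 0 → E2 G x y (fun a b => Real.exp (1 / (8 * (M * (M + 2) + 1) ^ 2) *
              ((Ks G a b (DD x y)).card : ℝ))) ≤
              Real.exp (1 / (2 * (M * (M + 2) + 1) ^ 2) * KF G x y (fun _ => 1)) := by
          intro x y hn hx hy hP hu hxu
          have hyu : y u ≠ 0 := fun h => (mem_DD.1 hu) (by rw [hxu, h])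
          refine g_ExpM_step hM hq hcn hDc hx hy hP hu hxu ?_ ?_
          · exact ih _ (by rw [← hn]; exact sz_off_right_lt (Finset.mem_singleton_self u) hyu)
              x (off y {u}) rfl hx (hy.off _) (hP.off_right _)
          · exact ih _ (by rw [← hn]; exact sz_off_right_lt (self_mem_cn u) hyu)
              x (off y (cn G u)) rfl hx (hy.off _) (hP.off_right _)
        rcases hP u with h | h | h
        · exact absurd h hne
        · exact key x y hn hx hy hP hu h
        · have h2 := key y x (by rw [sz_comm]; exact hn) hy hx hP.symm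
            (by rw [DD_comm]; exact hu) h
          rw [KF_comm, E2_swap]
          refine le_trans (le_of_eq ?_) h2
          congr 1
          funext a b
          rw [Ks_comm, DD_comm]
  intro x y hx hy hP
  exact main _ x y rfl hx hy hP

end Pool.Agent.Gas26
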