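import Pool.Agent.Lib.MP_26a019_lc.Ex.GasSpec

set_option autoImplicit false
set_option linter.unusedSectionVars false

/-!
# One replica differences are bounded by the clusters
-/

open Finset Classical

namespace Pool.Agent.Gas26

/-- the right side -/
noncomputable def g_GDiff_R {V : Type} [Fintype V] (G : SimpleGraph V) (Y : Finset V)
    (x y : V → ℝ) : ℝ :=
  ∑ w ∈ Y, E2 G x y (fun a b => if w ∈ Ks G a b (DD x y) then 1 else 0)

section

variable {V : Type} [Fintype V] {G : SimpleGraph V} {x y : V → ℝ} {Y : Finset V}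
  {g : Finset V → ℝ} {u : V}

theorem g_GDiff_R_comm : g_GDiff_R G Y x y = g_GDiff_R G Y y x := by
  unfold g_GDiff_R
  refine Finset.sum_congr rfl fun w _ => ?_
  rw [E2_swap, DD_comm]
  congr 1
  funext a b
  rw [Ks_comm]

theorem g_GDiff_R_nonneg (hx : ∀ v, 0 ≤ x v) (hy : ∀ v, 0 ≤ y v) : 0 ≤ g_GDiff_R G Y x y := by
  refine Finset.sum_nonneg fun w _ => E2_nonneg hx hy fun a _ _ b _ _ => ?_
  split_ifs
  · exact zero_le_one
  · exact le_rfl

/-- one step of the exploration for the right side -/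
theorem g_GDiff_R_step (hy : ∀ v, 0 ≤ y v) (hu : u ∈ DD x y)
    (hxu : x u = 0) :
    g_GDiff_R G Y x y = (1 - dn G y u) * g_GDiff_R G Y x (off y {u}) +
      dn G y u * ∑ w ∈ Y, E2 G x (off y (cn G u)) (fun a b =>
        if w ∈ insert u (Ks G a b (DD x (off y (cn G u)))) then 1 else 0) := by
  unfold g_GDiff_R
  rw [Finset.mul_sum, Finset.mul_sum, ← Finset.sum_add_distrib]
  refine Finset.sum_congr rfl fun w _ => ?_
  rw [E2_rev_right hy u]
  congr 1
  · congr 1
    exact E2_congr fun a _ ha b _ hb => by rw [Ks_DD_off ha hb hxu]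
  · congr 1
    exact E2_congr fun a _ ha b _ hb => by rw [Ks_DD_insert ha hb hxu hu]

/-- the difference of two expectations is at most `1` -/
theorem g_GDiff_one (hx : ∀ v, 0 ≤ x v) (hy : ∀ v, 0 ≤ y v) (hg : ∀ S S', |g S - g S'| ≤ 1)
    (h : Finset V → Finset V) : |Eg G x g - Eg G y (fun S => g (h S))| ≤ 1 := by
  obtain ⟨c, hc⟩ : ∃ c : ℝ, c = Eg G y (fun S => g (h S)) := ⟨_, rfl⟩
  have h1 : ∀ a, |g a - c| ≤ 1 := by
    intro a
    have e1 : g a - c = Eg G y (fun S => g a - g (h S)) := by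
      rw [Eg_sub, Eg_const hy, hc]
    rw [e1]
    refine (Eg_abs_le hy _).trans ?_
    have e2 := Eg_mono (G := G) hy (φ := fun S => |g a - g (h S)|) (ψ := fun _ => 1)
      (fun S _ _ => hg _ _)
    rwa [Eg_const hy] at e2
  rw [← hc]
  have e1 : Eg G x g - c = Eg G x (fun a => g a - c) := by
    rw [Eg_sub, Eg_const hx]
  rw [e1]
  refine (Eg_abs_le hx _).trans ?_
  have e2 := Eg_mono (G := G) hx (φ := fun a => |g a - c|) (ψ := fun _ => 1)
    (fun a _ _ => h1 a)
  rwa [Eg_const hx] at e2

/-- the induction step -/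
theorem g_GDiff_step (hx : ∀ v, 0 ≤ x v) (hy : ∀ v, 0 ≤ y v) (hP : Pair x y)
    (hgY : ∀ S, g (S ∩ Y) = g S) (hg : ∀ S S', |g S - g S'| ≤ 1) (hu : u ∈ DD x y)
    (hxu : x u = 0)
    (ih : ∀ y' : V → ℝ, (∀ v, 0 ≤ y' v) → Pair x y' → sz x y' < sz x y →
      |Eg G x g - Eg G y' g| ≤ g_GDiff_R G Y x y') :
    |Eg G x g - Eg G y g| ≤ g_GDiff_R G Y x y := by
  have hyu : y u ≠ 0 := by
    have := mem_DD.1 hu
    rw [hxu] at this
    exact this.symm
  have hp0 := dn_nonneg (G := G) hy u
  have hp1 := dn_le_one (G := G) hy u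
  rw [g_GDiff_R_step hy hu hxu, rev hy u g]
  obtain ⟨p, hp⟩ : ∃ p : ℝ, p = dn G y u := ⟨_, rfl⟩
  rw [← hp] at hp0 hp1 ⊢
  have i1 := ih (off y {u}) (off_nonneg hy _) (hP.off_right _)
    (sz_off_right_lt (Finset.mem_singleton_self u) hyu)
  have i2 : |Eg G x g - Eg G (off y (cn G u)) (fun S => g (insert u S))| ≤
      ∑ w ∈ Y, E2 G x (off y (cn G u)) (fun a b =>
        if w ∈ insert u (Ks G a b (DD x (off y (cn G u)))) then 1 else 0) := by
    have hys := off_nonneg hy (cn G u)
    have hnn : ∀ w ∈ Y, 0 ≤ E2 G x (off y (cn G u)) (fun a b =>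
        if w ∈ insert u (Ks G a b (DD x (off y (cn G u)))) then (1 : ℝ) else 0) := by
      intro w _
      refine E2_nonneg hx hys fun a _ _ b _ _ => ?_
      split_ifs
      · exact zero_le_one
      · exact le_rfl
    by_cases huY : u ∈ Y
    · refine (g_GDiff_one hx hys hg (fun S => insert u S)).trans ?_
      have h1 := Finset.single_le_sum (f := fun w => E2 G x (off y (cn G u)) (fun a b =>
        if w ∈ insert u (Ks G a b (DD x (off y (cn G u)))) then (1 : ℝ) else 0)) hnn huY
      refine le_trans ?_ h1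
      simp only [Finset.mem_insert_self, if_true]
      rw [E2_const hx hys]
    · have h1 : (fun S => g (insert u S)) = g := by
        funext S
        rw [← hgY (insert u S), Finset.insert_inter_of_notMem huY, hgY]
      rw [h1]
      refine (ih _ hys (hP.off_right _) (sz_off_right_lt (self_mem_cn u) hyu)).trans ?_
      unfold g_GDiff_R
      refine Finset.sum_le_sum fun w _ => E2_mono hx hys fun a _ _ b _ _ => ?_
      by_cases h2 : w ∈ Ks G a b (DD x (off y (cn G u)))
      · rw [if_pos h2, if_pos (Finset.mem_insert_of_mem h2)]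
      · rw [if_neg h2]
        split_ifs
        · exact zero_le_one
        · exact le_rfl
  have e : Eg G x g - ((1 - p) * Eg G (off y {u}) g +
      p * Eg G (off y (cn G u)) (fun S => g (insert u S))) =
      (1 - p) * (Eg G x g - Eg G (off y {u}) g) +
      p * (Eg G x g - Eg G (off y (cn G u)) (fun S => g (insert u S))) := by ring
  rw [e]
  refine (abs_add_le _ _).trans ?_
  rw [abs_mul, abs_mul, abs_of_nonneg hp0, abs_of_nonneg (by linarith : 0 ≤ 1 - p)]
  exact add_le_add (mul_le_mul_of_nonneg_left i1 (by linarith))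
    (mul_le_mul_of_nonneg_left i2 hp0)

end

theorem s_GDiff : S_GDiff := by
  intro V _ G x y Y g hx hy hP hgY hg
  change |Eg G x g - Eg G y g| ≤ g_GDiff_R G Y x y
  obtain ⟨n, hn⟩ : ∃ n, n = sz x y := ⟨_, rfl⟩
  induction n using Nat.strong_induction_on generalizing x y with
  | _ n ih =>
  rcases (DD x y).eq_empty_or_nonempty with hD | ⟨u, hu⟩
  · have hxy : x = y := by
      funext v
      by_contra hne
      have : v ∈ DD x y := mem_DD.2 hne
      rw [hD] at this
      exact absurd this (Finset.notMem_empty v)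
    subst hxy
    rw [sub_self, abs_zero]
    exact g_GDiff_R_nonneg hx hx
  · have hne := mem_DD.1 hu
    rcases hP u with h | h | h
    · exact absurd h hne
    · refine g_GDiff_step hx hy hP hgY hg hu h ?_
      intro y' hy' hP' hlt
      exact ih (sz x y') (by rw [hn]; exact hlt) x y' hx hy' hP' rfl
    · rw [abs_sub_comm, g_GDiff_R_comm]
      rw [DD_comm] at hu
      refine g_GDiff_step hy hx hP.symm hgY hg hu h ?_
      intro x' hx' hP' hlt
      exact ih (sz y x') (by rw [hn, sz_comm (x := x)]; exact hlt) y x' hy hx' hP' rfl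

end Pool.Agent.Gas26
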