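import Pool.Agent.Lib.MP_26a019_lc.Ex.GasSpec

set_option autoImplicit false

/-!
# Module HJ (MP_26a019_lc, gas part): the three replica inequality for a larger third gas
-/

open Finset Classical

namespace Pool.Agent.Gas26

/-- The splitting of the activities, in the form of expectations. -/
theorem g_HJ_thin (hThin : S_Thin) {V : Type} [Fintype V] (G : SimpleGraph V) (w1 w2 : V → ℝ)
    (h1 : ∀ v, 0 ≤ w1 v) (h2 : ∀ v, 0 ≤ w2 v) (Φ : Finset V → ℝ) :
    Zp G (fun v => w1 v + w2 v) * Eg G (fun v => w1 v + w2 v) Φ =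
      ∑ R ∈ IS G, gw w2 R * Zp G (off w1 (CN G R)) *
        Eg G (off w1 (CN G R)) (fun J => Φ (R ∪ J)) := by
  have h0 : Zp G (fun v => w1 v + w2 v) ≠ 0 :=
    (Zp_pos (G := G) (fun v => add_nonneg (h1 v) (h2 v))).ne'
  have hT := hThin V G w1 w2 Φ
  have hL : Zp G (fun v => w1 v + w2 v) * Eg G (fun v => w1 v + w2 v) Φ =
      ∑ S ∈ IS G, gw (fun v => w1 v + w2 v) S * Φ S := by
    unfold Eg
    rw [mul_div_cancel₀ _ h0]
  rw [hL, hT]
  refine Finset.sum_congr rfl fun R _ => ?_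
  have h3 : Zp G (off w1 (CN G R)) ≠ 0 := (Zp_pos (off_nonneg h1 _)).ne'
  rw [mul_assoc]
  congr 1
  unfold Eg
  rw [mul_div_cancel₀ _ h3]

/-- The part of `R ∪ J` in a set splits, `J` of nonzero weight outside `CN G R`. -/
theorem g_HJ_card {V : Type} [Fintype V] {G : SimpleGraph V} {w1 : V → ℝ} {R J : Finset V}
    (hJ : ∀ v ∈ J, off w1 (CN G R) v ≠ 0) (Y : Finset V) :
    ((Y ∩ (R ∪ J)).card : ℝ) = ((Y ∩ R).card : ℝ) + ((Y ∩ J).card : ℝ) := by
  have hd : Disjoint J (CN G R) := disj_of_ne hJ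
  have hRC : R ⊆ CN G R := fun v hv => Finset.mem_biUnion.2 ⟨v, hv, self_mem_cn v⟩
  have hdRJ : Disjoint (Y ∩ R) (Y ∩ J) := by
    rw [Finset.disjoint_left]
    intro v hv hv'
    exact Finset.disjoint_left.1 hd (Finset.mem_inter.1 hv').2 (hRC (Finset.mem_inter.1 hv).2)
  rw [Finset.inter_union_distrib_left, Finset.card_union_of_disjoint hdRJ]
  push_cast
  ring

theorem g_HJ_point {V : Type} [Fintype V] (G : SimpleGraph V) (κ w1 : V → ℝ)
    (Tp R : Finset V) (h1 : ∀ v, 0 ≤ w1 v) (hw1 : ∀ v ∈ Tp, w1 v = κ v) (hκ : ∀ v ∈ Tp, 0 < κ v)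
    (u : V) :
    (if u ∈ Tp then (1 : ℝ) else 0) -
        Eg G (off w1 (CN G R)) (fun J => ((cn G u ∩ (R ∪ J)).card : ℝ)) ≤
      (if off w1 (CN G R) u = 0 then 0 else 1) -
        Eg G (off w1 (CN G R)) (fun J => ((cn G u ∩ J).card : ℝ)) := by
  have hE : Eg G (off w1 (CN G R)) (fun J => ((cn G u ∩ (R ∪ J)).card : ℝ)) =
      ((cn G u ∩ R).card : ℝ) +
        Eg G (off w1 (CN G R)) (fun J => ((cn G u ∩ J).card : ℝ)) := by
    have e1 : Eg G (off w1 (CN G R)) (fun J => ((cn G u ∩ (R ∪ J)).card : ℝ)) =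
        Eg G (off w1 (CN G R))
          (fun J => ((cn G u ∩ R).card : ℝ) + ((cn G u ∩ J).card : ℝ)) :=
      Eg_congr fun J _ hJ => g_HJ_card hJ (cn G u)
    rw [e1, Eg_add, Eg_const (off_nonneg h1 _)]
  rw [hE]
  have hc0 : (0 : ℝ) ≤ ((cn G u ∩ R).card : ℝ) := Nat.cast_nonneg _
  by_cases huT : u ∈ Tp
  · rw [if_pos huT]
    by_cases huR : u ∈ CN G R
    · have hpos : 1 ≤ (cn G u ∩ R).card := by
        rw [Nat.one_le_iff_ne_zero, Finset.card_ne_zero]
        obtain ⟨r, hr, hur⟩ := Finset.mem_biUnion.1 huR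
        exact ⟨r, Finset.mem_inter.2 ⟨mem_cn_comm.1 hur, hr⟩⟩
      have hpos' : (1 : ℝ) ≤ ((cn G u ∩ R).card : ℝ) := by exact_mod_cast hpos
      rw [if_pos (off_of_mem huR)]
      linarith
    · have hne : off w1 (CN G R) u ≠ 0 := by
        rw [off_of_notMem huR, hw1 u huT]
        exact (hκ u huT).ne'
      rw [if_neg hne]
      linarith
  · rw [if_neg huT]
    have h01 : (0 : ℝ) ≤ (if off w1 (CN G R) u = 0 then 0 else 1) := by
      split_ifs
      · exact le_rfl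
      · exact zero_le_one
    linarith

/-- For one set `R` of the second part. -/
theorem g_HJ_one {V : Type} [Fintype V] (hH : Hineq V) (G : SimpleGraph V) (x y κ w1 : V → ℝ)
    (Tp R : Finset V) (hx : ∀ v, 0 ≤ x v) (hy : ∀ v, 0 ≤ y v) (h1 : ∀ v, 0 ≤ w1 v)
    (hP : Pair x y) (hw1 : ∀ v ∈ Tp, w1 v = κ v) (hw0 : ∀ v, v ∉ Tp → w1 v = 0)
    (hκ : ∀ v ∈ Tp, 0 < κ v) (hκx : ∀ v ∈ Tp, x v ≤ κ v ∧ y v ≤ κ v) :
    KF G x y (fun u => (if u ∈ Tp then 1 else 0) -
        Eg G (off w1 (CN G R)) (fun J => ((cn G u ∩ (R ∪ J)).card : ℝ))) ≤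
      Eg G (off w1 (CN G R)) (fun J => (((R ∪ J) ∩ DD x y).card : ℝ)) := by
  have hz : ∀ v, 0 ≤ off w1 (CN G R) v := off_nonneg h1 _
  have hA := hH G x y (off w1 (CN G R)) hx hy hz hP (by
    intro v
    by_cases hv : v ∈ CN G R
    · exact Or.inl (off_of_mem hv)
    · rw [off_of_notMem hv]
      by_cases hT : v ∈ Tp
      · rw [hw1 v hT]
        exact Or.inr (hκx v hT)
      · exact Or.inl (hw0 v hT))
  have hB := KF_mono (G := G) hx hy (g_HJ_point G κ w1 Tp R h1 hw1 hκ)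
  refine hB.trans (hA.trans ?_)
  refine Eg_mono hz fun J _ _ => ?_
  exact_mod_cast Finset.card_le_card
    (Finset.inter_subset_inter_right Finset.subset_union_right)

/-- **HJ** -/
theorem s_HJ : S_HJ := by
  intro hThin V _ hH G x y κ w Tp hx hy hw hP hT
  set w1 : V → ℝ := fun v => if v ∈ Tp then κ v else 0 with hw1def
  set w2 : V → ℝ := fun v => w v - w1 v with hw2def
  have h1 : ∀ v, 0 ≤ w1 v := by
    intro v
    simp only [hw1def]
    split_ifs with hv
    · exact (hT v hv).1.le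
    · exact le_rfl
  have h2 : ∀ v, 0 ≤ w2 v := by
    intro v
    simp only [hw2def, hw1def]
    split_ifs with hv
    · linarith [(hT v hv).2.1]
    · linarith [hw v]
  have hsum : (fun v => w1 v + w2 v) = w := by
    funext v
    simp only [hw2def]
    ring
  have hw1T : ∀ v ∈ Tp, w1 v = κ v := fun v hv => by
    simp only [hw1def]
    rw [if_pos hv]
  have hw1N : ∀ v, v ∉ Tp → w1 v = 0 := fun v hv => by
    simp only [hw1def]
    rw [if_neg hv]
  have hthin : ∀ Φ : Finset V → ℝ, Zp G w * Eg G w Φ =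
      ∑ R ∈ IS G, gw w2 R * Zp G (off w1 (CN G R)) *
        Eg G (off w1 (CN G R)) (fun J => Φ (R ∪ J)) := by
    intro Φ
    have h := g_HJ_thin hThin G w1 w2 h1 h2 Φ
    rwa [hsum] at h
  have hZ : 0 < Zp G w := Zp_pos hw
  have hAnn : ∀ R : Finset V, 0 ≤ gw w2 R * Zp G (off w1 (CN G R)) := fun R =>
    mul_nonneg (gw_nonneg h2 R) (Zp_pos (off_nonneg h1 _)).le
  -- the total weight
  have hone : Zp G w = ∑ R ∈ IS G, gw w2 R * Zp G (off w1 (CN G R)) := by
    have h := hthin (fun _ => 1)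
    rw [Eg_const hw, mul_one] at h
    rw [h]
    refine Finset.sum_congr rfl fun R _ => ?_
    rw [Eg_const (off_nonneg h1 _), mul_one]
  -- the left side
  have hL : Zp G w * KF G x y (fun u => (if u ∈ Tp then 1 else 0) -
        Eg G w (fun S => ((cn G u ∩ S).card : ℝ))) =
      ∑ R ∈ IS G, gw w2 R * Zp G (off w1 (CN G R)) *
        KF G x y (fun u => (if u ∈ Tp then 1 else 0) -
          Eg G (off w1 (CN G R)) (fun J => ((cn G u ∩ (R ∪ J)).card : ℝ))) := by
    rw [← KF_mul_left]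
    have e1 : (fun u => Zp G w * ((if u ∈ Tp then (1 : ℝ) else 0) -
          Eg G w (fun S => ((cn G u ∩ S).card : ℝ)))) =
        (fun u => ∑ R ∈ IS G, gw w2 R * Zp G (off w1 (CN G R)) *
          ((if u ∈ Tp then (1 : ℝ) else 0) -
            Eg G (off w1 (CN G R)) (fun J => ((cn G u ∩ (R ∪ J)).card : ℝ)))) := by
      funext u
      simp only [mul_sub]
      rw [Finset.sum_sub_distrib, hthin, ← Finset.sum_mul, ← hone]
    rw [e1, KF_sum]
    exact Finset.sum_congr rfl fun R _ => KF_mul_left _ _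
  have hR := hthin (fun S => ((S ∩ DD x y).card : ℝ))
  have hfin : Zp G w * KF G x y (fun u => (if u ∈ Tp then 1 else 0) -
        Eg G w (fun S => ((cn G u ∩ S).card : ℝ))) ≤
      Zp G w * Eg G w (fun S => ((S ∩ DD x y).card : ℝ)) := by
    rw [hL, hR]
    refine Finset.sum_le_sum fun R _ => mul_le_mul_of_nonneg_left ?_ (hAnn R)
    exact g_HJ_one hH G x y κ w1 Tp R hx hy h1 hP hw1T hw1N (fun v hv => (hT v hv).1)
      (fun v hv => (hT v hv).2.2)
  exact le_of_mul_le_mul_left hfin hZ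

end Pool.Agent.Gas26
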