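import Pool.Agent.Lib.MP_26a019_lc.Ex.GasSpec

set_option autoImplicit false
set_option linter.unusedVariables false

/-!
# Module Int: comparison of pattern probabilities by linear interpolation
-/

open Finset Classical

namespace Pool.Agent.Gas26

theorem g_Int_card {V : Type} [Fintype V] {G : SimpleGraph V} {q : ℝ}
    (hq : ∀ v, ((cn G v).card : ℝ) ≤ q) (k : Finset V) :
    ((CN G k).card : ℝ) ≤ q * (k.card : ℝ) := by
  unfold CN
  calc ((k.biUnion (cn G)).card : ℝ) ≤ ((∑ v ∈ k, (cn G v).card : ℕ) : ℝ) := by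
        exact_mod_cast Finset.card_biUnion_le
    _ = ∑ v ∈ k, ((cn G v).card : ℝ) := by push_cast; rfl
    _ ≤ ∑ _v ∈ k, q := Finset.sum_le_sum fun v _ => hq v
    _ = q * (k.card : ℝ) := by rw [Finset.sum_const, nsmul_eq_mul]; ring

theorem g_Int_logPP {V : Type} [Fintype V] {G : SimpleGraph V} (hPPf : S_PPf) {z : V → ℝ}
    (hz : ∀ v, 0 ≤ z v) {k kp : Finset V} (hk : kp ⊆ k) (hkp : kp ∈ IS G)
    (hpos : ∀ v ∈ kp, 0 < z v) :
    Real.log (PP G z k kp) = (∑ v ∈ kp, Real.log (z v)) +
      (Real.log (Zp G (off z (CN G k))) - Real.log (Zp G z)) := by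
  rw [hPPf V G z k kp hz hk hkp]
  have h1 : 0 < gw z kp := Finset.prod_pos hpos
  have h2 : 0 < Zp G (off z (CN G k)) := Zp_pos (off_nonneg hz _)
  have h3 : 0 < Zp G z := Zp_pos hz
  rw [Real.log_div (mul_pos h1 h2).ne' h3.ne', Real.log_mul h1.ne' h2.ne']
  have h4 : Real.log (gw z kp) = ∑ v ∈ kp, Real.log (z v) := by
    unfold gw
    exact Real.log_prod fun v hv => (hpos v hv).ne'
  rw [h4]
  ring

theorem s_Int : S_Int := by
  intro hGDiff hDer hLStep hLDec hPPf hZDer V _ G κ K0 M q hCls z0 z1 k kp lev r e hz0 hz1 hLip hlev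
    he hk hkp hpos hd
  obtain ⟨hK0, hM, hq1, hκ, hcn, hAdm⟩ := id hCls
  set X := CN G k with hX
  set d : V → ℝ := fun v => z1 v - z0 v with hdef
  set zt : ℝ → V → ℝ := fun t v => z0 v + t * d v with hzt
  have hK00 : 0 < K0 := by linarith
  have hq0 : 0 < q := by linarith
  have hbtw : ∀ t ∈ Set.Icc (0 : ℝ) 1, Btw κ (zt t) := by
    intro t ht v
    have h0 := hz0 v
    have h1 := hz1 v
    have e1 : zt t v = (1 - t) * z0 v + t * z1 v := by
      simp only [hzt, hdef]; ring
    rw [e1]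
    constructor
    · exact add_nonneg (mul_nonneg (by linarith [ht.2]) h0.1) (mul_nonneg ht.1 h1.1)
    · calc (1 - t) * z0 v + t * z1 v ≤ (1 - t) * κ v + t * κ v :=
            add_le_add (mul_le_mul_of_nonneg_left h0.2 (by linarith [ht.2]))
              (mul_le_mul_of_nonneg_left h1.2 ht.1)
        _ = κ v := by ring
  have hdle : ∀ v, |d v| ≤ K0 / q := by
    intro v
    have h0 := hz0 v
    have h1 := hz1 v
    have h2 := (hκ v).2
    rw [abs_le]
    simp only [hdef]
    constructor <;> linarith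
  have hoffz : ∀ t, off (zt t) X = fun v => off z0 X v + t * off d X v := by
    intro t
    funext v
    unfold off
    split_ifs
    · ring
    · rfl
  set C : ℝ := 2 * K0 * M * (k.card : ℝ) * (e + (M / (1 + M)) ^ r) with hC
  set F : ℝ → ℝ := fun t => Real.log (Zp G (off (zt t) X)) - Real.log (Zp G (zt t)) with hF
  set F' : ℝ → ℝ := fun t => (∑ v ∈ univ \ X, d v * fr G (off (zt t) X) v) -
    ∑ v, d v * fr G (zt t) v with hF'
  have hderiv : ∀ t ∈ Set.Icc (0 : ℝ) 1, HasDerivWithinAt F (F' t) (Set.Icc 0 1) t := by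
    intro t ht
    have hz := (hbtw t ht).nonneg
    have hzo : ∀ v, 0 ≤ off (zt t) X v := off_nonneg hz X
    have hp1 : 0 < Zp G (zt t) := Zp_pos hz
    have hp2 : 0 < Zp G (off (zt t) X) := Zp_pos hzo
    have h1 : HasDerivAt (fun t : ℝ => Zp G (zt t))
        ((∑ v, d v * fr G (zt t) v) * Zp G (zt t)) t := hZDer V G z0 d t hz
    have h2 : HasDerivAt (fun t : ℝ => Zp G (off (zt t) X))
        ((∑ v ∈ univ \ X, d v * fr G (off (zt t) X) v) * Zp G (off (zt t) X)) t := by
      have h3 := hZDer V G (off z0 X) (off d X) t (by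
        intro v
        have := hzo v
        rw [hoffz t] at this
        exact this)
      have e2 : (fun t : ℝ => Zp G (off (zt t) X)) =
          fun t : ℝ => Zp G (fun v => off z0 X v + t * off d X v) := by
        funext s
        rw [hoffz s]
      rw [e2]
      rw [← hoffz t] at h3
      have e3 : (∑ v, off d X v * fr G (off (zt t) X) v) =
          ∑ v ∈ univ \ X, d v * fr G (off (zt t) X) v := by
        rw [← Finset.sum_subset (Finset.sdiff_subset (s := univ) (t := X))]
        · refine Finset.sum_congr rfl fun v hv => ?_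
          rw [off_of_notMem (Finset.mem_sdiff.1 hv).2]
        · intro v _ hv
          have hvX : v ∈ X := by
            by_contra hc
            exact hv (Finset.mem_sdiff.2 ⟨Finset.mem_univ v, hc⟩)
          rw [off_of_mem hvX, zero_mul]
      rw [e3] at h3
      exact h3
    have h4 := (h2.log hp2.ne').sub (h1.log hp1.ne')
    have e4 : (∑ v ∈ univ \ X, d v * fr G (off (zt t) X) v) * Zp G (off (zt t) X) /
        Zp G (off (zt t) X) - (∑ v, d v * fr G (zt t) v) * Zp G (zt t) / Zp G (zt t) = F' t := by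
      rw [mul_div_cancel_right₀ _ hp2.ne', mul_div_cancel_right₀ _ hp1.ne']
    rw [e4] at h4
    exact h4.hasDerivWithinAt
  have hθ0 : 0 ≤ M / (1 + M) := by positivity
  have hbound : ∀ t ∈ Set.Icc (0 : ℝ) 1, ‖F' t‖ ≤ C := by
    intro t ht
    have h1 := hDer hGDiff V G κ K0 M q hCls (zt t) d k lev r e (hbtw t ht) hLip hlev he hdle hd
    have hDD : ∀ v ∈ DD (zt t) (off (zt t) X), v ∈ X := by
      intro v hv
      rw [mem_DD] at hv
      by_contra hc
      exact hv (off_of_notMem hc).symm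
    have h2 := hLDec hLStep V G κ K0 M q hCls (zt t) (off (zt t) X) lev r (hbtw t ht)
      ((hbtw t ht).off X) (pair_off _ _) hLip (fun v hv => hlev v (hDD v hv))
    have h3 : ((DD (zt t) (off (zt t) X)).card : ℝ) ≤ q * (k.card : ℝ) := by
      refine le_trans ?_ (g_Int_card hcn k)
      exact_mod_cast Finset.card_le_card fun v hv => hDD v hv
    have h4 : M / q * ((DD (zt t) (off (zt t) X)).card : ℝ) ≤ M * (k.card : ℝ) := by
      calc M / q * ((DD (zt t) (off (zt t) X)).card : ℝ) ≤ M / q * (q * (k.card : ℝ)) :=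
            mul_le_mul_of_nonneg_left h3 (by positivity)
        _ = M * (k.card : ℝ) := by field_simp
    have h5 : KF G (zt t) (off (zt t) X) (fun v => if r ≤ lev v then 1 else 0) ≤
        (M / (1 + M)) ^ r * (M * (k.card : ℝ)) :=
      h2.trans (mul_le_mul_of_nonneg_left h4 (pow_nonneg hθ0 r))
    rw [Real.norm_eq_abs]
    refine h1.trans ?_
    have h6 : K0 * KF G (zt t) (off (zt t) X) (fun v => if r ≤ lev v then 1 else 0) ≤
        K0 * ((M / (1 + M)) ^ r * (M * (k.card : ℝ))) := mul_le_mul_of_nonneg_left h5 hK00.le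
    have hk0 : (0 : ℝ) ≤ (k.card : ℝ) := Nat.cast_nonneg _
    have h7 : 0 ≤ K0 * e * (k.card : ℝ) * (M - 1) :=
      mul_nonneg (mul_nonneg (mul_nonneg hK00.le he) hk0) (by linarith)
    have h8 : 0 ≤ K0 * (M / (1 + M)) ^ r * (k.card : ℝ) * M :=
      mul_nonneg (mul_nonneg (mul_nonneg hK00.le (pow_nonneg hθ0 r)) hk0) (by linarith)
    rw [hC]
    nlinarith
  have hmv := Convex.norm_image_sub_le_of_norm_hasDerivWithin_le hderiv hbound
    (convex_Icc (0 : ℝ) 1) (Set.left_mem_Icc.2 zero_le_one) (Set.right_mem_Icc.2 zero_le_one)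
  have hzt0 : zt 0 = z0 := by funext v; simp [hzt]
  have hzt1 : zt 1 = z1 := by funext v; simp [hzt, hdef]
  have hF0 : F 0 = Real.log (Zp G (off z0 X)) - Real.log (Zp G z0) := by
    simp only [hF, hzt0]
  have hF1 : F 1 = Real.log (Zp G (off z1 X)) - Real.log (Zp G z1) := by
    simp only [hF, hzt1]
  rw [sub_zero, norm_one, mul_one, Real.norm_eq_abs, hF0, hF1] at hmv
  rw [g_Int_logPP hPPf hz1.nonneg hk hkp fun v hv => (hpos v hv).2,
    g_Int_logPP hPPf hz0.nonneg hk hkp fun v hv => (hpos v hv).1]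
  have e5 : (∑ v ∈ kp, Real.log (z1 v)) + (Real.log (Zp G (off z1 (CN G k))) - Real.log (Zp G z1)) -
      ((∑ v ∈ kp, Real.log (z0 v)) + (Real.log (Zp G (off z0 (CN G k))) - Real.log (Zp G z0))) =
      (∑ v ∈ kp, (Real.log (z1 v) - Real.log (z0 v))) +
        ((Real.log (Zp G (off z1 (CN G k))) - Real.log (Zp G z1)) -
          (Real.log (Zp G (off z0 (CN G k))) - Real.log (Zp G z0))) := by
    rw [Finset.sum_sub_distrib]; ring
  rw [e5]
  refine (abs_add_le _ _).trans ?_
  exact add_le_add (Finset.abs_sum_le_sum_abs _ _) hmv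

end Pool.Agent.Gas26
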