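import Pool.Agent.Lib.MP_26a019_lc.Ex.GasSpec

set_option autoImplicit false

/-!
# The cluster of one vertex in two copies of the same gas
-/

open Finset Classical

namespace Pool.Agent.Gas26

private theorem g_KvE_set {V : Type} [Fintype V] {G : SimpleGraph V} {z : V → ℝ} {v : V}
    {a b : Finset V} (ha : ∀ w ∈ a, off z {v} w ≠ 0) (hb : ∀ w ∈ b, off z (cn G v) w ≠ 0) :
    (Ks G a (insert v b) {v}).card =
      (Ks G a b (DD (off z {v}) (off z (cn G v)))).card + 1 := by
  have hva : v ∉ a := fun h => ha v h (off_of_mem (Finset.mem_singleton_self v))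
  have hvb : v ∉ b := fun h => hb v h (off_of_mem (self_mem_cn v))
  rw [Ks_insert hva hvb (Finset.mem_singleton_self v)]
  have h1 : Ks G a b ({v} ∪ cn G v) = Ks G a b (DD (off z {v}) (off z (cn G v))) := by
    refine Ks_congr fun o ho => ?_
    unfold DD
    rw [Finset.mem_filter, Finset.mem_union, Finset.mem_singleton]
    constructor
    · intro h
      have hc : o ∈ cn G v := by
        rcases h with h | h
        · rw [h]; exact self_mem_cn v
        · exact h
      refine ⟨Finset.mem_univ _, ?_⟩
      rw [off_of_mem hc]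
      rcases Finset.mem_symmDiff.1 ho with h' | h'
      · exact ha o h'.1
      · exact absurd (off_of_mem hc) (hb o h'.1)
    · rintro ⟨-, h⟩
      right
      by_contra hc
      apply h
      have hov : o ∉ ({v} : Finset V) := by
        rw [Finset.mem_singleton]
        intro h'
        rw [h'] at hc
        exact hc (self_mem_cn v)
      rw [off_of_notMem hov, off_of_notMem hc]
  rw [h1, Finset.card_insert_of_notMem (notMem_Ks hva hvb)]

private theorem g_KvE_zero {V : Type} [Fintype V] {G : SimpleGraph V} {v : V}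
    {a b : Finset V} (ha : v ∉ a) (hb : v ∉ b) : (Ks G a b {v}).card = 0 := by
  rw [Finset.card_eq_zero]
  ext w
  rw [mem_Ks]
  constructor
  · rintro ⟨-, o, ho, h, -⟩
    rw [Finset.mem_singleton] at ho
    subst ho
    rcases Finset.mem_symmDiff.1 h with h | h
    · exact absurd h.1 ha
    · exact absurd h.1 hb
  · intro h
    exact absurd h (Finset.notMem_empty w)

theorem s_KvE : S_KvE := by
  intro V _ G z v Φ hz h0
  have hz0 := off_nonneg hz {v}
  have hz1 := off_nonneg hz (cn G v)
  have hn0 : ∀ a : Finset V, (∀ w ∈ a, off z {v} w ≠ 0) → v ∉ a := fun a ha h =>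
    ha v h (off_of_mem (Finset.mem_singleton_self v))
  have hn1 : ∀ a : Finset V, (∀ w ∈ a, off z (cn G v) w ≠ 0) → v ∉ a := fun a ha h =>
    ha v h (off_of_mem (self_mem_cn v))
  set X : ℝ := E2 G (off z {v}) (off z (cn G v))
    (fun a b => Φ ((Ks G a b (DD (off z {v}) (off z (cn G v)))).card + 1)) with hX
  have e00 : E2 G (off z {v}) (off z {v}) (fun a b => Φ (Ks G a b {v}).card) = 0 := by
    rw [← E2_const hz0 hz0 (G := G) 0]
    refine E2_congr fun a _ ha b _ hb => ?_
    rw [g_KvE_zero (hn0 a ha) (hn0 b hb), h0]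
  have e11 : E2 G (off z (cn G v)) (off z (cn G v))
      (fun a b => Φ (Ks G (insert v a) (insert v b) {v}).card) = 0 := by
    rw [← E2_const hz1 hz1 (G := G) 0]
    refine E2_congr fun a _ ha b _ hb => ?_
    rw [Ks_both (hn1 a ha) (hn1 b hb), g_KvE_zero (hn1 a ha) (hn1 b hb), h0]
  have e01 : E2 G (off z {v}) (off z (cn G v))
      (fun a b => Φ (Ks G a (insert v b) {v}).card) = X := by
    refine E2_congr fun a _ ha b _ hb => ?_
    rw [g_KvE_set ha hb]
  have e10 : E2 G (off z (cn G v)) (off z {v})
      (fun a b => Φ (Ks G (insert v a) b {v}).card) = X := by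
    rw [E2_swap, ← e01]
    refine E2_congr fun a _ _ b _ _ => ?_
    rw [Ks_comm]
  rw [E2_rev_left hz v, E2_rev_right hz v, E2_rev_right hz v, e00, e11, e01, e10]
  ring

end Pool.Agent.Gas26
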