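import Pool.Agent.Lib.MP_26a019_lc.Ex.GasSpec

set_option autoImplicit false

/-!
# Exponential decay in the level
-/

open Finset Classical

namespace Pool.Agent.Gas26

theorem g_LDec_zero {V : Type} [Fintype V] {G : SimpleGraph V} {κ : V → ℝ} {K0 M q : ℝ}
    (hC : Cls G κ K0 M q) {x y : V → ℝ} (hx : Btw κ x) (hy : Btw κ y) (hP : Pair x y) :
    KF G x y (fun _ => (1 : ℝ)) ≤ M / q * ((DD x y).card : ℝ) := by
  rw [KF_one]
  exact hC.2.2.2.2.2 x y hx hy hP

theorem s_LDec : S_LDec := by
  intro hL V _ G κ K0 M q hC x y lev j hx hy hP hlip h0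
  have hM : 1 ≤ M := hC.2.1
  have hM0 : 0 < 1 + M := by linarith
  have hr : 0 ≤ M / (1 + M) := by positivity
  induction j with
  | zero =>
    have := g_LDec_zero hC hx hy hP
    simpa using this
  | succ j ih =>
    have h1 := hL V G κ K0 M q hC x y lev (j + 1) hx hy hP hlip (Nat.le_add_left 1 j)
    have h2 : (DD x y).filter (fun w => j + 1 ≤ lev w) = ∅ := by
      rw [Finset.filter_eq_empty_iff]
      intro w hw
      rw [h0 w hw]
      simp
    rw [h2, Finset.card_empty, Nat.cast_zero, mul_zero, add_zero] at h1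
    have h3 : (fun v => if j ≤ lev v then (1 : ℝ) else 0) =
        fun v => (if lev v + 1 = j + 1 then (1 : ℝ) else 0) + (if j + 1 ≤ lev v then 1 else 0) := by
      funext v
      by_cases ha : lev v = j
      · simp [ha]
      · by_cases hb : j ≤ lev v
        · have hc : j + 1 ≤ lev v := by omega
          have hd : ¬ (lev v + 1 = j + 1) := by omega
          rw [if_neg hd]; simp [hb, hc]
        · have hc : ¬ (j + 1 ≤ lev v) := by omega
          have hd : ¬ (lev v + 1 = j + 1) := by omega
          rw [if_neg hd]; simp [hb, hc]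
    rw [h3, KF_add] at ih
    have h4 : (1 + M) * KF G x y (fun v => if j + 1 ≤ lev v then (1 : ℝ) else 0) ≤
        M * ((M / (1 + M)) ^ j * (M / q * ((DD x y).card : ℝ))) := by
      have := mul_le_mul_of_nonneg_left ih (by linarith : 0 ≤ M)
      linarith
    have h5 : KF G x y (fun v => if j + 1 ≤ lev v then (1 : ℝ) else 0) ≤
        M * ((M / (1 + M)) ^ j * (M / q * ((DD x y).card : ℝ))) / (1 + M) := by
      rw [le_div_iff₀ hM0]
      linarith
    refine h5.trans (le_of_eq ?_)
    rw [pow_succ]
    field_simp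

end Pool.Agent.Gas26
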