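import Pool.Agent.Lib.MP_26a019_lc.Ex.GasSpec

set_option autoImplicit false
set_option linter.unusedVariables false

/-!
# Part AB, gas part: one level of the exploration
-/

open Finset Classical

namespace Pool.Agent.Gas26

/-- the number of discrepancies of level at least `j` -/
noncomputable def g_LStep_N {V : Type} [Fintype V] (x y : V → ℝ) (lev : V → ℕ) (j : ℕ) : ℝ :=
  (((DD x y).filter (fun w => j ≤ lev w)).card : ℝ)

/-- the induction step at a vertex `u` with `x u = 0` -/
theorem g_LStep_step {V : Type} [Fintype V] {G : SimpleGraph V} {κ : V → ℝ} {K0 M q : ℝ}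
    (hC : Cls G κ K0 M q) {x y : V → ℝ} {lev : V → ℕ} {j : ℕ} (hx : Btw κ x) (hy : Btw κ y)
    (hL : Lip G lev) {u : V} (hu : u ∈ DD x y) (huj : lev u + 1 ≤ j) (hxu : x u = 0)
    (h1 : KF G x (off y {u}) (fun v => if j ≤ lev v then 1 else 0) ≤
      M * KF G x (off y {u}) (fun v => if lev v + 1 = j then 1 else 0) +
        M / q * (((DD x (off y {u})).filter (fun w => j ≤ lev w)).card : ℝ))
    (h2 : KF G x (off y (cn G u)) (fun v => if j ≤ lev v then 1 else 0) ≤
      M * KF G x (off y (cn G u)) (fun v => if lev v + 1 = j then 1 else 0) +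
        M / q * (((DD x (off y (cn G u))).filter (fun w => j ≤ lev w)).card : ℝ)) :
    KF G x y (fun v => if j ≤ lev v then 1 else 0) ≤
      M * KF G x y (fun v => if lev v + 1 = j then 1 else 0) +
        M / q * (((DD x y).filter (fun w => j ≤ lev w)).card : ℝ) := by
  obtain ⟨hK0, hM, hq, hκ, hcn, hA⟩ := hC
  have hq0 : 0 < q := by linarith
  have hMq : 0 ≤ M / q := div_nonneg (by linarith) hq0.le
  rw [KF_step hx.nonneg hy.nonneg hu hxu (fun v => if j ≤ lev v then 1 else 0),
    KF_step hx.nonneg hy.nonneg hu hxu (fun v => if lev v + 1 = j then 1 else 0)]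
  have hp0 := dn_nonneg (G := G) hy.nonneg u
  have hp1 := dn_le_one (G := G) hy.nonneg u
  set p := dn G y u with hp
  have hN1 : (((DD x (off y {u})).filter (fun w => j ≤ lev w)).card : ℝ) ≤
      (((DD x y).filter (fun w => j ≤ lev w)).card : ℝ) := by
    rw [DD_off_singleton hxu]
    exact_mod_cast Finset.card_le_card (Finset.filter_subset_filter _ (Finset.erase_subset _ _))
  have hN2 : (((DD x (off y (cn G u))).filter (fun w => j ≤ lev w)).card : ℝ) ≤
      (((DD x y).filter (fun w => j ≤ lev w)).card : ℝ) + q * (if lev u + 1 = j then 1 else 0) := by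
    have hsub : (DD x (off y (cn G u))).filter (fun w => j ≤ lev w) ⊆
        ((DD x y).filter (fun w => j ≤ lev w)) ∪ (if lev u + 1 = j then cn G u else ∅) := by
      intro w hw
      obtain ⟨hw1, hw2⟩ := Finset.mem_filter.1 hw
      rw [mem_DD] at hw1
      rw [Finset.mem_union]
      by_cases hwc : w ∈ cn G u
      · right
        rcases mem_cn.1 hwc with h | h
        · subst h
          omega
        · have h3 := hL u w h
          rw [if_pos (by omega)]
          exact hwc
      · left
        rw [off_of_notMem hwc] at hw1
        exact Finset.mem_filter.2 ⟨mem_DD.2 hw1, hw2⟩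
    have h3 := (Finset.card_le_card hsub).trans (Finset.card_union_le _ _)
    have h4 : (((DD x (off y (cn G u))).filter (fun w => j ≤ lev w)).card : ℝ) ≤
        (((DD x y).filter (fun w => j ≤ lev w)).card : ℝ) +
          ((if lev u + 1 = j then cn G u else ∅ : Finset V).card : ℝ) := by
      exact_mod_cast h3
    refine h4.trans ?_
    split_ifs
    · have := hcn u
      linarith
    · simp
  have hφ : (if j ≤ lev u then (1 : ℝ) else 0) = 0 := if_neg (by omega)
  rw [hφ]
  set N := (((DD x y).filter (fun w => j ≤ lev w)).card : ℝ) with hN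
  set ψ : ℝ := if lev u + 1 = j then 1 else 0 with hψ
  have h5 : M / q * (((DD x (off y {u})).filter (fun w => j ≤ lev w)).card : ℝ) ≤ M / q * N :=
    mul_le_mul_of_nonneg_left hN1 hMq
  have h6 : M / q * (((DD x (off y (cn G u))).filter (fun w => j ≤ lev w)).card : ℝ) ≤
      M / q * N + M * ψ := by
    have h7 := mul_le_mul_of_nonneg_left hN2 hMq
    have h8 : M / q * (N + q * ψ) = M / q * N + M * ψ := by
      field_simp
    linarith
  have h9 := mul_le_mul_of_nonneg_left (h1.trans (add_le_add_right h5 _)) (sub_nonneg.2 hp1)
  have h10 := mul_le_mul_of_nonneg_left (h2.trans (add_le_add_right h6 _)) hp0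
  nlinarith [h9, h10]

theorem s_LStep : S_LStep := by
  intro V _ G κ K0 M q hC x y lev j hx hy hP hL hj
  have key : ∀ n : ℕ, ∀ x y : V → ℝ, sz x y = n → Btw κ x → Btw κ y → Pair x y →
      KF G x y (fun v => if j ≤ lev v then 1 else 0) ≤
        M * KF G x y (fun v => if lev v + 1 = j then 1 else 0) +
          M / q * (((DD x y).filter (fun w => j ≤ lev w)).card : ℝ) := by
    intro n
    induction n using Nat.strong_induction_on with
    | _ n ih =>
      intro x y hn hx hy hP
      by_cases hex : ∃ u ∈ DD x y, lev u + 1 ≤ j
      · obtain ⟨u, hu, huj⟩ := hex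
        have hne := mem_DD.1 hu
        rcases hP u with h | h | h
        · exact absurd h hne
        · have hyu : y u ≠ 0 := fun h' => hne (h.trans h'.symm)
          refine g_LStep_step hC hx hy hL hu huj h ?_ ?_
          · exact ih _ (by rw [← hn]; exact sz_off_right_lt (Finset.mem_singleton_self u) hyu) _ _
              rfl hx (hy.off _) (hP.off_right _)
          · exact ih _ (by rw [← hn]; exact sz_off_right_lt (self_mem_cn u) hyu) _ _
              rfl hx (hy.off _) (hP.off_right _)
        · have hxu : x u ≠ 0 := fun h' => hne (h'.trans h.symm)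
          rw [KF_comm (x := x), KF_comm (x := x), DD_comm (x := x)]
          rw [DD_comm] at hu
          refine g_LStep_step hC hy hx hL hu huj h ?_ ?_
          · exact ih _ (by
              rw [← hn, sz_comm (x := x)]
              exact sz_off_right_lt (Finset.mem_singleton_self u) hxu) _ _
              rfl hy (hx.off _) (hP.symm.off_right _)
          · exact ih _ (by
              rw [← hn, sz_comm (x := x)]
              exact sz_off_right_lt (self_mem_cn u) hxu) _ _
              rfl hy (hx.off _) (hP.symm.off_right _)
      · obtain ⟨hK0, hM, hq, hκ, hcn, hA⟩ := hC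
        have hall : (DD x y).filter (fun w => j ≤ lev w) = DD x y := by
          refine Finset.filter_true_of_mem fun w hw => ?_
          by_contra hlt
          exact hex ⟨w, hw, by omega⟩
        rw [hall]
        have h1 : KF G x y (fun v => if j ≤ lev v then 1 else 0) ≤ KF G x y (fun _ => 1) := by
          refine KF_mono hx.nonneg hy.nonneg fun v => ?_
          split_ifs <;> norm_num
        have h2 : KF G x y (fun _ => 1) ≤ M / q * ((DD x y).card : ℝ) := by
          rw [KF_one]
          exact hA x y hx hy hP
        have h3 : 0 ≤ M * KF G x y (fun v => if lev v + 1 = j then 1 else 0) := by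
          refine mul_nonneg (by linarith) (KF_nonneg hx.nonneg hy.nonneg fun v => ?_)
          split_ifs <;> norm_num
        linarith
  exact key _ x y rfl hx hy hP

end Pool.Agent.Gas26
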