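import Pool.Agent.Lib.MP_26a019_lc.Ex.GasSpec

set_option autoImplicit false

/-!
# The hard-core gas: bounds for the pattern probability (MP_26a019_lc, part AB)
-/

open Finset Classical

namespace Pool.Agent.Gas26

theorem g_PPb_card {V : Type} [Fintype V] (G : SimpleGraph V) (k : Finset V) (q : ℝ)
    (hcn : ∀ v, ((cn G v).card : ℝ) ≤ q) : ((CN G k).card : ℝ) ≤ q * (k.card : ℝ) := by
  have h1 : ((CN G k).card : ℝ) ≤ ∑ v ∈ k, ((cn G v).card : ℝ) := by
    unfold CN
    exact_mod_cast Finset.card_biUnion_le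
  have h2 : ∑ v ∈ k, ((cn G v).card : ℝ) ≤ ∑ _v ∈ k, q := Finset.sum_le_sum fun v _ => hcn v
  rw [Finset.sum_const, nsmul_eq_mul] at h2
  linarith

theorem s_PPb : S_PPb := by
  intro hZ hP V _ G z k kp K0 q hK0 hq hz hcn hsub hIS
  have hz0 : ∀ v, 0 ≤ z v := fun v => (hz v).1
  have hp := hP V G z k kp hz0 hsub hIS
  have hZp := Zp_pos (G := G) hz0
  have hgw := gw_nonneg hz0 kp
  rw [hp]
  constructor
  · rw [div_le_iff₀ hZp]
    exact mul_le_mul_of_nonneg_left (Zp_off_le hz0 _) hgw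
  · have hl := hZ V G z (CN G k) hz0
    have hq0 : 0 < q := by linarith
    have hsum : ∑ v ∈ CN G k, z v ≤ K0 * (k.card : ℝ) := by
      have h1 : ∑ v ∈ CN G k, z v ≤ ∑ _v ∈ CN G k, K0 / q := Finset.sum_le_sum fun v _ => (hz v).2
      rw [Finset.sum_const, nsmul_eq_mul] at h1
      have h2 : ((CN G k).card : ℝ) * (K0 / q) ≤ q * (k.card : ℝ) * (K0 / q) :=
        mul_le_mul_of_nonneg_right (g_PPb_card G k q hcn) (div_nonneg hK0 hq0.le)
      have h3 : q * (k.card : ℝ) * (K0 / q) = K0 * (k.card : ℝ) := by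
        field_simp
      linarith
    have hoff : 0 ≤ Zp G (off z (CN G k)) := (Zp_pos (off_nonneg hz0 _)).le
    rw [le_div_iff₀ hZp]
    have h4 : Real.exp (-(K0 * (k.card : ℝ))) * Zp G z ≤ Zp G (off z (CN G k)) := by
      calc Real.exp (-(K0 * (k.card : ℝ))) * Zp G z
          ≤ Real.exp (-(K0 * (k.card : ℝ))) *
            (Real.exp (∑ v ∈ CN G k, z v) * Zp G (off z (CN G k))) :=
            mul_le_mul_of_nonneg_left hl (Real.exp_pos _).le
        _ = Real.exp (-(K0 * (k.card : ℝ)) + ∑ v ∈ CN G k, z v) * Zp G (off z (CN G k)) := by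
            rw [Real.exp_add]; ring
        _ ≤ 1 * Zp G (off z (CN G k)) := by
            refine mul_le_mul_of_nonneg_right ?_ hoff
            rw [Real.exp_le_one_iff]
            linarith
        _ = _ := one_mul _
    calc gw z kp * Real.exp (-(K0 * (k.card : ℝ))) * Zp G z
        = gw z kp * (Real.exp (-(K0 * (k.card : ℝ))) * Zp G z) := by ring
      _ ≤ gw z kp * Zp G (off z (CN G k)) := mul_le_mul_of_nonneg_left h4 hgw

end Pool.Agent.Gas26
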