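import Pool.Agent.Lib.MP_26a019_lc.Ex.GasSpec

set_option autoImplicit false

/-!
# Formula for the pattern probability (MP_26a019_lc, gas part, module PPf)
-/

open Finset Classical

namespace Pool.Agent.Gas26

section

variable {V : Type} [Fintype V] {G : SimpleGraph V}

theorem g_PPf_sub_CN (k : Finset V) : k ⊆ CN G k := by
  intro v hv
  unfold CN
  exact Finset.mem_biUnion.2 ⟨v, hv, self_mem_cn v⟩

/-- a neighbour of an element of `k` is in `CN G k` -/
theorem g_PPf_adj {k : Finset V} {u w : V} (hu : u ∈ k) (h : G.Adj u w) : w ∈ CN G k := by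
  unfold CN
  exact Finset.mem_biUnion.2 ⟨u, hu, mem_cn.2 (Or.inr h)⟩

theorem g_PPf_sum (z : V → ℝ) {k kp : Finset V} (hk : kp ⊆ k) (hkp : kp ∈ IS G) :
    ∑ S ∈ IS G, gw z S * (if S ∩ CN G k = kp then (1 : ℝ) else 0) =
      gw z kp * ∑ S ∈ IS G, gw (off z (CN G k)) S := by
  have hkX : kp ⊆ CN G k := hk.trans (g_PPf_sub_CN k)
  have h1 : ∑ S ∈ IS G, gw z S * (if S ∩ CN G k = kp then (1 : ℝ) else 0) =
      ∑ S ∈ (IS G).filter (fun S => S ∩ CN G k = kp), gw z S := by
    rw [Finset.sum_filter]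
    refine Finset.sum_congr rfl fun S _ => ?_
    by_cases h : S ∩ CN G k = kp <;> simp [h]
  have h2 : gw z kp * ∑ S ∈ IS G, gw (off z (CN G k)) S =
      ∑ S ∈ (IS G).filter (fun S => Disjoint S (CN G k)), gw z kp * gw z S := by
    rw [Finset.mul_sum, Finset.sum_filter]
    refine Finset.sum_congr rfl fun S _ => ?_
    rw [gw_off]
    by_cases h : Disjoint S (CN G k) <;> simp [h]
  rw [h1, h2]
  refine Finset.sum_nbij' (fun S => S \ CN G k) (fun S => kp ∪ S) ?_ ?_ ?_ ?_ ?_
  · intro S hS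
    obtain ⟨hS, _⟩ := Finset.mem_filter.1 hS
    rw [Finset.mem_filter]
    refine ⟨?_, Finset.sdiff_disjoint⟩
    rw [mem_IS] at hS ⊢
    intro u hu w hw
    exact hS u (Finset.mem_sdiff.1 hu).1 w (Finset.mem_sdiff.1 hw).1
  · intro S hS
    obtain ⟨hS, hd⟩ := Finset.mem_filter.1 hS
    rw [Finset.mem_filter]
    refine ⟨?_, ?_⟩
    · rw [mem_IS] at hS hkp ⊢
      intro u hu w hw hadj
      rcases Finset.mem_union.1 hu with hu1 | hu1
      · rcases Finset.mem_union.1 hw with hw1 | hw1
        · exact hkp u hu1 w hw1 hadj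
        · exact Finset.disjoint_left.1 hd hw1 (g_PPf_adj (hk hu1) hadj)
      · rcases Finset.mem_union.1 hw with hw1 | hw1
        · exact Finset.disjoint_left.1 hd hu1 (g_PPf_adj (hk hw1) hadj.symm)
        · exact hS u hu1 w hw1 hadj
    · rw [Finset.union_inter_distrib_right, Finset.inter_eq_left.2 hkX,
        Finset.disjoint_iff_inter_eq_empty.1 hd, Finset.union_empty]
  · intro S hS
    obtain ⟨_, hS2⟩ := Finset.mem_filter.1 hS
    show kp ∪ S \ CN G k = S
    rw [← hS2]
    ext v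
    simp only [Finset.mem_union, Finset.mem_inter, Finset.mem_sdiff]
    tauto
  · intro S hS
    obtain ⟨_, hd⟩ := Finset.mem_filter.1 hS
    show (kp ∪ S) \ CN G k = S
    ext v
    simp only [Finset.mem_union, Finset.mem_sdiff]
    constructor
    · rintro ⟨h | h, h3⟩
      · exact (h3 (hkX h)).elim
      · exact h
    · intro h
      exact ⟨Or.inr h, Finset.disjoint_left.1 hd h⟩
  · intro S hS
    obtain ⟨_, hS2⟩ := Finset.mem_filter.1 hS
    show gw z S = gw z kp * gw z (S \ CN G k)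
    unfold gw
    rw [← hS2, ← Finset.prod_union (Finset.disjoint_left.2 fun v h1 h2 =>
      (Finset.mem_sdiff.1 h2).2 (Finset.mem_inter.1 h1).2)]
    refine Finset.prod_congr ?_ fun _ _ => rfl
    ext v
    simp only [Finset.mem_union, Finset.mem_inter, Finset.mem_sdiff]
    tauto

end

/-- **PPf** formula for the pattern probability -/
theorem s_PPf : S_PPf := by
  intro V _ G z k kp _ hk hkp
  unfold PP Eg
  rw [g_PPf_sum z hk hkp]
  rfl

end Pool.Agent.Gas26
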