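import Pool.Agent.Lib.MP_26a019_lc.Ex.GasSpec

set_option autoImplicit false

/-!
# Splitting of the activities (MP_26a019_lc, part AB, gas part)
-/

open Finset Classical

namespace Pool.Agent.Gas26

theorem g_Thin_CN {V : Type} [Fintype V] {G : SimpleGraph V} {X : Finset V} {v : V} :
    v ∈ CN G X ↔ ∃ u ∈ X, v = u ∨ G.Adj u v := by
  unfold CN
  simp only [Finset.mem_biUnion, mem_cn]

theorem g_Thin_union {V : Type} [Fintype V] {G : SimpleGraph V} {R J : Finset V}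
    (hR : R ∈ IS G) (hJ : J ∈ IS G) (hd : Disjoint J (CN G R)) : R ∪ J ∈ IS G := by
  rw [mem_IS] at *
  intro u hu w hw hadj
  rcases Finset.mem_union.1 hu with h1 | h1
  · rcases Finset.mem_union.1 hw with h2 | h2
    · exact hR u h1 w h2 hadj
    · exact Finset.disjoint_left.1 hd h2 (g_Thin_CN.2 ⟨u, h1, Or.inr hadj⟩)
  · rcases Finset.mem_union.1 hw with h2 | h2
    · exact Finset.disjoint_left.1 hd h1 (g_Thin_CN.2 ⟨w, h2, Or.inr hadj.symm⟩)
    · exact hJ u h1 w h2 hadj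

theorem g_Thin_sub {V : Type} [Fintype V] {G : SimpleGraph V} {R S : Finset V}
    (hS : S ∈ IS G) (hRS : R ⊆ S) : R ∈ IS G := by
  rw [mem_IS] at *
  exact fun u hu w hw => hS u (hRS hu) w (hRS hw)

/-- **Thin** Splitting of the activities. -/
theorem s_Thin : S_Thin := by
  intro V _ G w1 w2 Φ
  have hL : ∑ S ∈ IS G, gw (fun v => w1 v + w2 v) S * Φ S =
      ∑ p ∈ (IS G).sigma (fun S => S.powerset), gw w2 p.2 * gw w1 (p.1 \ p.2) * Φ p.1 := by
    rw [Finset.sum_sigma]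
    refine Finset.sum_congr rfl fun S _ => ?_
    have h1 : gw (fun v => w1 v + w2 v) S = ∑ t ∈ S.powerset, gw w2 t * gw w1 (S \ t) := by
      unfold gw
      rw [← Finset.prod_add]
      exact Finset.prod_congr rfl fun v _ => add_comm _ _
    rw [h1, Finset.sum_mul]
  have hR : ∑ R ∈ IS G, gw w2 R * ∑ J ∈ IS G, gw (off w1 (CN G R)) J * Φ (R ∪ J) =
      ∑ p ∈ (IS G ×ˢ IS G).filter (fun p => Disjoint p.2 (CN G p.1)),
        gw w2 p.1 * gw w1 p.2 * Φ (p.1 ∪ p.2) := by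
    rw [Finset.sum_filter, Finset.sum_product]
    refine Finset.sum_congr rfl fun R _ => ?_
    rw [Finset.mul_sum]
    refine Finset.sum_congr rfl fun J _ => ?_
    rw [gw_off]
    split_ifs
    · ring
    · ring
  rw [hL, hR]
  refine Finset.sum_bij' (fun p _ => (p.2, p.1 \ p.2)) (fun p _ => ⟨p.1 ∪ p.2, p.1⟩) ?_ ?_ ?_ ?_ ?_
  · rintro ⟨S, R⟩ hp
    obtain ⟨hS, hRS⟩ := Finset.mem_sigma.1 hp
    have hRS := Finset.mem_powerset.1 hRS
    simp only at hS hRS
    rw [Finset.mem_filter, Finset.mem_product]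
    refine ⟨⟨g_Thin_sub hS hRS, g_Thin_sub hS Finset.sdiff_subset⟩, ?_⟩
    simp only
    rw [Finset.disjoint_left]
    intro v hv hvc
    obtain ⟨hvS, hvR⟩ := Finset.mem_sdiff.1 hv
    obtain ⟨u, hu, h⟩ := g_Thin_CN.1 hvc
    rcases h with rfl | h
    · exact hvR hu
    · exact mem_IS.1 hS u (hRS hu) v hvS h
  · rintro ⟨R, J⟩ hp
    obtain ⟨hp, hd⟩ := Finset.mem_filter.1 hp
    obtain ⟨hR, hJ⟩ := Finset.mem_product.1 hp
    exact Finset.mem_sigma.2 ⟨g_Thin_union hR hJ hd,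
      Finset.mem_powerset.2 Finset.subset_union_left⟩
  · rintro ⟨S, R⟩ hp
    obtain ⟨hS, hRS⟩ := Finset.mem_sigma.1 hp
    have hRS := Finset.mem_powerset.1 hRS
    simp only at hRS
    simp only [Finset.union_sdiff_of_subset hRS]
  · rintro ⟨R, J⟩ hp
    obtain ⟨hp, hd⟩ := Finset.mem_filter.1 hp
    have hdR : Disjoint R J := by
      rw [Finset.disjoint_left]
      intro v hv hvJ
      exact Finset.disjoint_left.1 hd hvJ (g_Thin_CN.2 ⟨v, hv, Or.inl rfl⟩)
    simp only [Finset.union_sdiff_cancel_left hdR]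
  · rintro ⟨S, R⟩ hp
    obtain ⟨hS, hRS⟩ := Finset.mem_sigma.1 hp
    have hRS := Finset.mem_powerset.1 hRS
    simp only at hRS
    simp only [Finset.union_sdiff_of_subset hRS]

end Pool.Agent.Gas26
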