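import Pool.Agent.Lib.MP_26a019_lc.Ex.GasSpec

set_option autoImplicit false

/-!
# Derivative of the partition function along a line (MP_26a019_lc)
-/

open Finset Classical

namespace Pool.Agent.Gas26

/-- the sum over the independent sets which contain `v`, without the factor of `v` -/
theorem g_ZDer_sum {V : Type} [Fintype V] (G : SimpleGraph V) (z : V → ℝ) (v : V) :
    ∑ S ∈ IS G, (if v ∈ S then ∏ j ∈ S.erase v, z j else 0) = Zp G (off z (cn G v)) := by
  have h := sum_split (G := G) (z := Function.update z v 1) v (fun S => if v ∈ S then 1 else 0)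
  have h1 : ∑ S ∈ IS G, gw (off (Function.update z v 1) {v}) S *
      (if v ∈ S then (1 : ℝ) else 0) = 0 := by
    refine Finset.sum_eq_zero fun S _ => ?_
    split_ifs with hu
    · have : gw (off (Function.update z v 1) {v}) S = 0 :=
        Finset.prod_eq_zero hu (off_of_mem (Finset.mem_singleton_self v))
      rw [this, zero_mul]
    · rw [mul_zero]
  have h2 : off (Function.update z v 1) (cn G v) = off z (cn G v) := by
    funext u
    rw [off_apply, off_apply]
    split_ifs with hu
    · rfl
    · refine Function.update_of_ne ?_ _ _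
      rintro rfl
      exact hu (self_mem_cn u)
  rw [h1, h2, zero_add, Function.update_self, one_mul] at h
  simp only [Finset.mem_insert_self, if_true, mul_one] at h
  have h3 : ∑ S ∈ IS G, gw (off z (cn G v)) S = Zp G (off z (cn G v)) := rfl
  rw [h3] at h
  rw [← h]
  refine Finset.sum_congr rfl fun S _ => ?_
  split_ifs with hv
  · rw [mul_one]
    unfold gw
    rw [← Finset.mul_prod_erase S (Function.update z v 1) hv, Function.update_self, one_mul]
    refine Finset.prod_congr rfl fun j hj => ?_
    rw [Function.update_of_ne (Finset.ne_of_mem_erase hj)]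
  · rw [mul_zero]

theorem s_ZDer : S_ZDer := by
  intro V _ G z d t hz
  have h1 : ∀ S ∈ IS G, HasDerivAt (fun t : ℝ => gw (fun v => z v + t * d v) S)
      (∑ i ∈ S, (∏ j ∈ S.erase i, (z j + t * d j)) • d i) t := by
    intro S _
    unfold gw
    refine HasDerivAt.fun_finsetProd fun i _ => ?_
    have h2 := ((hasDerivAt_id t).mul_const (d i)).const_add (z i)
    simpa using h2
  have h2 := HasDerivAt.fun_sum h1
  have h3 : (∑ v, d v * fr G (fun v => z v + t * d v) v) * Zp G (fun v => z v + t * d v) =
      ∑ S ∈ IS G, ∑ i ∈ S, (∏ j ∈ S.erase i, (z j + t * d j)) • d i := by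
    have h0 : Zp G (fun v => z v + t * d v) ≠ 0 := (Zp_pos hz).ne'
    have h4 : ∀ S ∈ IS G, ∑ i ∈ S, (∏ j ∈ S.erase i, (z j + t * d j)) • d i =
        ∑ i, d i * (if i ∈ S then ∏ j ∈ S.erase i, (z j + t * d j) else 0) := by
      intro S _
      rw [← Finset.sum_filter_add_sum_filter_not univ (fun i => i ∈ S)
        (fun i => d i * (if i ∈ S then ∏ j ∈ S.erase i, (z j + t * d j) else 0))]
      have h5 : ∑ i ∈ univ.filter (fun i => ¬ i ∈ S),
          d i * (if i ∈ S then ∏ j ∈ S.erase i, (z j + t * d j) else 0) = 0 := by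
        refine Finset.sum_eq_zero fun i hi => ?_
        rw [if_neg (Finset.mem_filter.1 hi).2, mul_zero]
      rw [h5, add_zero]
      have h6 : univ.filter (fun i => i ∈ S) = S := by
        ext i
        simp
      rw [h6]
      refine Finset.sum_congr rfl fun i hi => ?_
      rw [if_pos hi, smul_eq_mul, mul_comm]
    rw [Finset.sum_congr rfl h4, Finset.sum_comm, Finset.sum_mul]
    refine Finset.sum_congr rfl fun v _ => ?_
    rw [← Finset.mul_sum, g_ZDer_sum G (fun j => z j + t * d j) v, fr_eq, mul_assoc,
      div_mul_cancel₀ _ h0]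
  rw [h3]
  exact h2

end Pool.Agent.Gas26
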