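import Pool.Agent.Lib.MP_26a019_lc.Ex.GasSpec

set_option autoImplicit false

open Finset Classical

namespace Pool.Agent.Gas26

private theorem g_Zlow_step {V : Type} [Fintype V] {G : SimpleGraph V} {z : V → ℝ}
    (hz : ∀ v, 0 ≤ z v) (u : V) : Zp G z ≤ Real.exp (z u) * Zp G (off z {u}) := by
  have h1 : off z (cn G u) = off (off z {u}) (cn G u) := by
    rw [off_off]
    congr 1
    ext v
    rw [Finset.mem_union, Finset.mem_singleton]
    constructor
    · intro h
      exact Or.inr h
    · rintro (h | h)
      · rw [h]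
        exact self_mem_cn u
      · exact h
  have h2 : Zp G (off z (cn G u)) ≤ Zp G (off z {u}) := by
    rw [h1]
    exact Zp_off_le (off_nonneg hz _) _
  have h3 : z u + 1 ≤ Real.exp (z u) := Real.add_one_le_exp _
  have h4 : 0 ≤ Zp G (off z {u}) := (Zp_pos (off_nonneg hz _)).le
  calc Zp G z = Zp G (off z {u}) + z u * Zp G (off z (cn G u)) := Zp_split u
    _ ≤ Zp G (off z {u}) + z u * Zp G (off z {u}) := by
        have := mul_le_mul_of_nonneg_left h2 (hz u)
        linarith
    _ = (z u + 1) * Zp G (off z {u}) := by ring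
    _ ≤ Real.exp (z u) * Zp G (off z {u}) := mul_le_mul_of_nonneg_right h3 h4

theorem s_Zlow : S_Zlow := by
  intro V _ G z X hz
  induction X using Finset.induction_on with
  | empty =>
    rw [Finset.sum_empty, Real.exp_zero, one_mul, off_empty]
  | insert u X hu ih =>
    have h1 := g_Zlow_step (G := G) (off_nonneg hz X) u
    rw [off_of_notMem hu, off_off, Finset.union_comm, ← Finset.insert_eq] at h1
    rw [Finset.sum_insert hu, Real.exp_add]
    calc Zp G z ≤ Real.exp (∑ v ∈ X, z v) * Zp G (off z X) := ih
      _ ≤ Real.exp (∑ v ∈ X, z v) * (Real.exp (z u) * Zp G (off z (insert u X))) :=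
          mul_le_mul_of_nonneg_left h1 (Real.exp_pos _).le
      _ = Real.exp (z u) * Real.exp (∑ v ∈ X, z v) * Zp G (off z (insert u X)) := by ring

end Pool.Agent.Gas26
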