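import Pool.Agent.Lib.MP_26a019_lc.Ex.g_CluDet
import Pool.Agent.Lib.MP_26a019_lc.Ex.g_DM
import Pool.Agent.Lib.MP_26a019_lc.Ex.g_DMc
import Pool.Agent.Lib.MP_26a019_lc.Ex.g_Der
import Pool.Agent.Lib.MP_26a019_lc.Ex.g_Exc
import Pool.Agent.Lib.MP_26a019_lc.Ex.g_ExpM
import Pool.Agent.Lib.MP_26a019_lc.Ex.g_GDiff
import Pool.Agent.Lib.MP_26a019_lc.Ex.g_HJ
import Pool.Agent.Lib.MP_26a019_lc.Ex.g_Int
import Pool.Agent.Lib.MP_26a019_lc.Ex.g_KvB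
import Pool.Agent.Lib.MP_26a019_lc.Ex.g_KvE
import Pool.Agent.Lib.MP_26a019_lc.Ex.g_LDec
import Pool.Agent.Lib.MP_26a019_lc.Ex.g_LStep
import Pool.Agent.Lib.MP_26a019_lc.Ex.g_PPb
import Pool.Agent.Lib.MP_26a019_lc.Ex.g_PPf
import Pool.Agent.Lib.MP_26a019_lc.Ex.g_Thin
import Pool.Agent.Lib.MP_26a019_lc.Ex.g_ZDer
import Pool.Agent.Lib.MP_26a019_lc.Ex.g_Zlow

set_option autoImplicit false

/-!
# All gas modules, in closed form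

`gHJ`, `gLDec`, ... are the conclusions of the modules of `GasSpec.lean`, without hypotheses.
-/

open Finset Classical

namespace Pool.Agent.Gas26

theorem gHJ (V : Type) [Fintype V] (hH : Hineq V) (G : SimpleGraph V) (x y κ w : V → ℝ)
    (Tp : Finset V) (hx : ∀ v, 0 ≤ x v) (hy : ∀ v, 0 ≤ y v) (hw : ∀ v, 0 ≤ w v)
    (hp : Pair x y) (h : ∀ v ∈ Tp, 0 < κ v ∧ κ v ≤ w v ∧ x v ≤ κ v ∧ y v ≤ κ v) :
    KF G x y (fun u => (if u ∈ Tp then 1 else 0) - Eg G w (fun S => ((cn G u ∩ S).card : ℝ))) ≤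
      Eg G w (fun S => ((S ∩ DD x y).card : ℝ)) :=
  s_HJ s_Thin V hH G x y κ w Tp hx hy hw hp h

theorem gPPb (V : Type) [Fintype V] (G : SimpleGraph V) (z : V → ℝ) (k kp : Finset V) (K0 q : ℝ)
    (hK : 0 ≤ K0) (hq : 1 ≤ q) (hz : ∀ v, 0 ≤ z v ∧ z v ≤ K0 / q)
    (hc : ∀ v, ((cn G v).card : ℝ) ≤ q) (hk : kp ⊆ k) (hI : kp ∈ IS G) :
    PP G z k kp ≤ gw z kp ∧ gw z kp * Real.exp (-(K0 * (k.card : ℝ))) ≤ PP G z k kp :=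
  s_PPb s_Zlow s_PPf V G z k kp K0 q hK hq hz hc hk hI

theorem gInt (V : Type) [Fintype V] (G : SimpleGraph V) (κ : V → ℝ) (K0 M q : ℝ)
    (hC : Cls G κ K0 M q) (z0 z1 : V → ℝ) (k kp : Finset V) (lev : V → ℕ) (r : ℕ) (e : ℝ)
    (h0 : Btw κ z0) (h1 : Btw κ z1) (hl : Lip G lev) (hl0 : ∀ v ∈ CN G k, lev v = 0)
    (he : 0 ≤ e) (hk : kp ⊆ k) (hI : kp ∈ IS G) (hpos : ∀ v ∈ kp, 0 < z0 v ∧ 0 < z1 v)
    (hd : ∀ v, lev v ≤ r → |z1 v - z0 v| ≤ e * (K0 / q)) :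
    |Real.log (PP G z1 k kp) - Real.log (PP G z0 k kp)| ≤
      (∑ v ∈ kp, |Real.log (z1 v) - Real.log (z0 v)|) +
        2 * K0 * M * (k.card : ℝ) * (e + (M / (1 + M)) ^ r) :=
  s_Int s_GDiff s_Der s_LStep s_LDec s_PPf s_ZDer V G κ K0 M q hC z0 z1 k kp lev r e h0 h1 hl hl0
    he hk hI hpos hd

theorem gKvB (V : Type) [Fintype V] (G : SimpleGraph V) (κ : V → ℝ) (K0 M q : ℝ)
    (hC : Cls G κ K0 M q) (z : V → ℝ) (v : V) (m : ℕ) (hz : Btw κ z) :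
    E2 G z z (fun a b => ((Ks G a b {v}).card : ℝ)) ≤ 2 * (1 + M) * dn G z v ∧
    E2 G z z (fun a b => if m < (Ks G a b {v}).card then 1 else 0) ≤
      2 * Real.exp 2 * Real.exp (-(1 / (8 * (M * (M + 2) + 1) ^ 2) * m)) * dn G z v :=
  s_KvB s_KvE s_Exc s_DM s_DMc s_ExpM V G κ K0 M q hC z v m hz

end Pool.Agent.Gas26
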