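import Pool.Agent.Lib.MP_26a019_lc.Ex.Gas

set_option autoImplicit false
set_option linter.unusedSectionVars false

/-!
# The components `Ks`: one step of the exploration
-/

open Finset Classical

namespace Pool.Agent.Gas26

variable {V : Type} [Fintype V] {G : SimpleGraph V} {a b O O' : Finset V} {u v : V}

theorem SG_comm : SG G a b = SG G b a := by
  ext u w
  simp only [SG, symmDiff_comm a b]

theorem Ks_comm : Ks G a b O = Ks G b a O := by
  unfold Ks
  rw [SG_comm, symmDiff_comm a b]

theorem mem_Ks : v ∈ Ks G a b O ↔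
    v ∈ symmDiff a b ∧ ∃ o ∈ O, o ∈ symmDiff a b ∧ (SG G a b).Reachable v o := by
  unfold Ks; rw [Finset.mem_filter]

theorem Ks_subset : Ks G a b O ⊆ symmDiff a b := Finset.filter_subset _ _

theorem Ks_mono (h : O ⊆ O') : Ks G a b O ⊆ Ks G a b O' := by
  intro v hv
  rw [mem_Ks] at hv ⊢
  obtain ⟨h1, o, ho, h2⟩ := hv
  exact ⟨h1, o, h ho, h2⟩

/-- only the seeds in `a xor b` matter -/
theorem Ks_congr (h : ∀ o ∈ symmDiff a b, (o ∈ O ↔ o ∈ O')) : Ks G a b O = Ks G a b O' := by
  ext v
  rw [mem_Ks, mem_Ks]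
  constructor
  · rintro ⟨h1, o, ho, h2, h3⟩
    exact ⟨h1, o, (h o h2).1 ho, h2, h3⟩
  · rintro ⟨h1, o, ho, h2, h3⟩
    exact ⟨h1, o, (h o h2).2 ho, h2, h3⟩

theorem Ks_le_of (h : ∀ o ∈ symmDiff a b, o ∈ O → o ∈ O') : Ks G a b O ⊆ Ks G a b O' := by
  intro v hv
  rw [mem_Ks] at hv ⊢
  obtain ⟨h1, o, ho, h2, h3⟩ := hv
  exact ⟨h1, o, h o h2 ho, h2, h3⟩

theorem Ks_empty : Ks G a b ∅ = ∅ := by
  ext v
  rw [mem_Ks]
  simp

theorem symmDiff_insert_both (ha : u ∉ a) (hb : u ∉ b) :
    symmDiff (insert u a) (insert u b) = symmDiff a b := by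
  ext w
  simp only [Finset.mem_symmDiff, Finset.mem_insert]
  by_cases h : w = u
  · subst h; simp [ha, hb]
  · simp [h]

theorem symmDiff_insert_right (ha : u ∉ a) (hb : u ∉ b) :
    symmDiff a (insert u b) = insert u (symmDiff a b) := by
  ext w
  simp only [Finset.mem_symmDiff, Finset.mem_insert]
  by_cases h : w = u
  · subst h; simp [ha]
  · simp [h]

/-- `u` in both sets: the symmetric difference does not change -/
theorem Ks_both (ha : u ∉ a) (hb : u ∉ b) :
    Ks G (insert u a) (insert u b) O = Ks G a b O := by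
  have h := symmDiff_insert_both ha hb
  have hG : SG G (insert u a) (insert u b) = SG G a b := by
    ext v w
    simp only [SG, h]
  unfold Ks
  rw [h, hG]

theorem SG_le_insert (ha : u ∉ a) (hb : u ∉ b) : SG G a b ≤ SG G a (insert u b) := by
  intro v w h
  have hs := symmDiff_insert_right ha hb
  refine ⟨h.1, ?_, ?_⟩
  · rw [hs]; exact Finset.mem_insert_of_mem h.2.1
  · rw [hs]; exact Finset.mem_insert_of_mem h.2.2

/-- adding `u` to one of the sets only merges components -/
theorem Ks_le_insert (ha : u ∉ a) (hb : u ∉ b) : Ks G a b O ⊆ Ks G a (insert u b) O := by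
  intro v hv
  rw [mem_Ks] at hv ⊢
  obtain ⟨h1, o, ho, h2, h3⟩ := hv
  rw [symmDiff_insert_right ha hb]
  exact ⟨Finset.mem_insert_of_mem h1, o, ho, Finset.mem_insert_of_mem h2,
    h3.mono (SG_le_insert ha hb)⟩

theorem walk_insert (ha : u ∉ a) (hb : u ∉ b) {v o : V}
    (p : (SG G a (insert u b)).Walk v o) :
    v = u ∨ (SG G a b).Reachable v o ∨
      ∃ w, G.Adj u w ∧ w ∈ symmDiff a b ∧ (SG G a b).Reachable v w := by
  induction p with
  | nil => exact Or.inr (Or.inl (SimpleGraph.Reachable.refl _))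
  | @cons v v' o hadj p ih =>
    by_cases hv : v = u
    · exact Or.inl hv
    right
    have hvm : v ∈ symmDiff a b := by
      have := hadj.2.1
      rw [symmDiff_insert_right ha hb] at this
      exact (Finset.mem_insert.1 this).resolve_left hv
    by_cases hv' : v' = u
    · right
      exact ⟨v, by rw [← hv']; exact hadj.1.symm, hvm, SimpleGraph.Reachable.refl _⟩
    have hv'm : v' ∈ symmDiff a b := by
      have := hadj.2.2
      rw [symmDiff_insert_right ha hb] at this
      exact (Finset.mem_insert.1 this).resolve_left hv'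
    have hstep : (SG G a b).Reachable v v' :=
      SimpleGraph.Adj.reachable (G := SG G a b) ⟨hadj.1, hvm, hv'm⟩
    rcases ih with h | h | ⟨w, hw1, hw2, hw3⟩
    · exact absurd h hv'
    · exact Or.inl (hstep.trans h)
    · exact Or.inr ⟨w, hw1, hw2, hstep.trans hw3⟩

/-- adding `u`: all vertices are `u` or in a component which meets `O` or the neighbours of `u` -/
theorem Ks_insert_sub (ha : u ∉ a) (hb : u ∉ b) :
    Ks G a (insert u b) O ⊆ insert u (Ks G a b (O ∪ cn G u)) := by
  intro v hv
  rw [mem_Ks] at hv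
  obtain ⟨h1, o, ho, h2, ⟨p⟩⟩ := hv
  rw [symmDiff_insert_right ha hb] at h1 h2
  rw [Finset.mem_insert]
  by_cases hvu : v = u
  · exact Or.inl hvu
  right
  have hvm := (Finset.mem_insert.1 h1).resolve_left hvu
  rw [mem_Ks]
  refine ⟨hvm, ?_⟩
  rcases walk_insert ha hb p with h | h | ⟨w, hw1, hw2, hw3⟩
  · exact absurd h hvu
  · rcases Finset.mem_insert.1 h2 with h2 | h2
    · -- `o = u`: the last vertex of the walk is `u`; reachability in `SG G a b` is trivial
      subst h2
      rcases h with ⟨q⟩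
      cases q with
      | nil => exact absurd rfl hvu
      | cons hadj q =>
        exfalso
        have hend : o ∈ symmDiff a b := by
          have : ∀ {s t : V} (r : (SG G a b).Walk s t), s ∈ symmDiff a b → t ∈ symmDiff a b := by
            intro s t r
            induction r with
            | nil => exact id
            | cons hadj r ih => exact fun _ => ih hadj.2.2
          exact this q hadj.2.2
        rcases Finset.mem_symmDiff.1 hend with h | h
        · exact ha h.1
        · exact hb h.1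
    · exact ⟨o, Finset.mem_union_left _ ho, h2, h⟩
  · exact ⟨w, Finset.mem_union_right _ (mem_cn.2 (Or.inr hw1)), hw2, hw3⟩

/-- adding a seed `u` -/
theorem Ks_insert (ha : u ∉ a) (hb : u ∉ b) (hO : u ∈ O) :
    Ks G a (insert u b) O = insert u (Ks G a b (O ∪ cn G u)) := by
  apply Finset.Subset.antisymm (Ks_insert_sub ha hb)
  have hs := symmDiff_insert_right ha hb
  intro v hv
  rcases Finset.mem_insert.1 hv with rfl | hv
  · rw [mem_Ks, hs]
    exact ⟨Finset.mem_insert_self _ _, v, hO, Finset.mem_insert_self _ _,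
      SimpleGraph.Reachable.refl _⟩
  · rw [mem_Ks] at hv ⊢
    obtain ⟨h1, o, ho, h2, h3⟩ := hv
    rw [hs]
    refine ⟨Finset.mem_insert_of_mem h1, ?_⟩
    rcases Finset.mem_union.1 ho with ho | ho
    · exact ⟨o, ho, Finset.mem_insert_of_mem h2, h3.mono (SG_le_insert ha hb)⟩
    · refine ⟨u, hO, Finset.mem_insert_self _ _, (h3.mono (SG_le_insert ha hb)).trans ?_⟩
      rcases mem_cn.1 ho with h | h
      · rw [h]
      · refine SimpleGraph.Adj.reachable (G := SG G a (insert u b)) ⟨h.symm, ?_, ?_⟩
        · rw [hs]; exact Finset.mem_insert_of_mem h2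
        · rw [hs]; exact Finset.mem_insert_self _ _

theorem notMem_Ks_left (h : v ∉ symmDiff a b) : v ∉ Ks G a b O := fun hv => h (Ks_subset hv)

theorem notMem_Ks (ha : v ∉ a) (hb : v ∉ b) : v ∉ Ks G a b O := by
  intro hv
  rcases Finset.mem_symmDiff.1 (Ks_subset hv) with h | h
  · exact ha h.1
  · exact hb h.1

end Pool.Agent.Gas26
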