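import Pool.Agent.Lib.MP_26a019_lc.Ex.GasK

set_option autoImplicit false
set_option linter.unusedSectionVars false

/-!
# The exploration recursion

`KF G x y φ` is the expected sum of `φ` over the discrepancy components which meet `DD x y`.
-/

open Finset Classical

namespace Pool.Agent.Gas26

variable {V : Type} [Fintype V]

/-- expected sum of `φ` over the components of `a xor b` meeting the set where `x`, `y` differ -/
noncomputable def KF (G : SimpleGraph V) (x y : V → ℝ) (φ : V → ℝ) : ℝ :=
  E2 G x y (fun a b => ∑ w ∈ Ks G a b (DD x y), φ w)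

/-- size of the supports: the induction parameter -/
noncomputable def sz (x y : V → ℝ) : ℕ :=
  (univ.filter (fun v => x v ≠ 0)).card + (univ.filter (fun v => y v ≠ 0)).card

variable {G : SimpleGraph V} {x y : V → ℝ} {u : V} {κ : V → ℝ}

theorem mem_DD {v : V} : v ∈ DD x y ↔ x v ≠ y v := by unfold DD; simp

theorem DD_comm : DD x y = DD y x := by
  ext v; rw [mem_DD, mem_DD]; exact ne_comm

theorem Pair.symm (h : Pair x y) : Pair y x := fun v => by
  rcases h v with h | h | h
  · exact Or.inl h.symm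
  · exact Or.inr (Or.inr h)
  · exact Or.inr (Or.inl h)

theorem Pair.off_right (h : Pair x y) (X : Finset V) : Pair x (off y X) := fun v => by
  unfold off
  split_ifs
  · exact Or.inr (Or.inr rfl)
  · exact h v

theorem Pair.off_left (h : Pair x y) (X : Finset V) : Pair (off x X) y := fun v => by
  unfold off
  split_ifs
  · exact Or.inr (Or.inl rfl)
  · exact h v

theorem pair_off (x : V → ℝ) (X : Finset V) : Pair x (off x X) := fun v => by
  unfold off
  split_ifs
  · exact Or.inr (Or.inr rfl)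
  · exact Or.inl rfl

theorem Btw.nonneg (h : Btw κ x) : ∀ v, 0 ≤ x v := fun v => (h v).1

theorem Btw.off (h : Btw κ x) (X : Finset V) : Btw κ (off x X) := fun v => by
  unfold Gas26.off
  split_ifs
  · exact ⟨le_rfl, (h v).1.trans (h v).2⟩
  · exact h v

theorem sz_comm : sz x y = sz y x := by unfold sz; rw [add_comm]

theorem supp_off_subset (X : Finset V) :
    univ.filter (fun v => off x X v ≠ 0) ⊆ univ.filter (fun v => x v ≠ 0) := by
  intro v hv
  rw [Finset.mem_filter] at hv ⊢
  refine ⟨Finset.mem_univ _, fun h => hv.2 ?_⟩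
  unfold off
  rw [h, ite_self]

theorem supp_off_lt {X : Finset V} (hu : u ∈ X) (h : x u ≠ 0) :
    (univ.filter (fun v => off x X v ≠ 0)).card < (univ.filter (fun v => x v ≠ 0)).card := by
  apply Finset.card_lt_card
  rw [Finset.ssubset_iff_of_subset (supp_off_subset X)]
  refine ⟨u, by simp [h], ?_⟩
  simp [off_of_mem hu]

theorem sz_off_right_lt {X : Finset V} (hu : u ∈ X) (h : y u ≠ 0) : sz x (off y X) < sz x y := by
  unfold sz
  exact Nat.add_lt_add_left (supp_off_lt hu h) _

theorem sz_off_left_lt {X : Finset V} (hu : u ∈ X) (h : x u ≠ 0) : sz (off x X) y < sz x y := by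
  unfold sz
  exact Nat.add_lt_add_right (supp_off_lt hu h) _

theorem sz_off_right_le (X : Finset V) : sz x (off y X) ≤ sz x y := by
  unfold sz
  exact Nat.add_le_add_left (Finset.card_le_card (supp_off_subset X)) _

theorem sz_off_left_le (X : Finset V) : sz (off x X) y ≤ sz x y := by
  unfold sz
  exact Nat.add_le_add_right (Finset.card_le_card (supp_off_subset X)) _

theorem DD_off_singleton (hx : x u = 0) : DD x (off y {u}) = (DD x y).erase u := by
  ext v
  rw [mem_DD, Finset.mem_erase, mem_DD]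
  unfold off
  by_cases h : v = u
  · subst h; simp [hx]
  · simp [h]

/-- seeds after revealing an empty vertex -/
theorem Ks_DD_off {a b : Finset V} (ha : ∀ v ∈ a, x v ≠ 0) (hb : ∀ v ∈ b, off y {u} v ≠ 0)
    (hx : x u = 0) : Ks G a b (DD x y) = Ks G a b (DD x (off y {u})) := by
  apply Ks_congr
  intro o ho
  rw [DD_off_singleton hx, Finset.mem_erase]
  constructor
  · intro h
    refine ⟨?_, h⟩
    rintro rfl
    rcases Finset.mem_symmDiff.1 ho with h | h
    · exact ha o h.1 hx
    · exact hb o h.1 (off_of_mem (Finset.mem_singleton_self o))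
  · exact fun h => h.2

/-- seeds after revealing an occupied vertex -/
theorem Ks_DD_insert {a b : Finset V} (ha : ∀ v ∈ a, x v ≠ 0)
    (hb : ∀ v ∈ b, off y (cn G u) v ≠ 0) (hx : x u = 0) (hu : u ∈ DD x y) :
    Ks G a (insert u b) (DD x y) = insert u (Ks G a b (DD x (off y (cn G u)))) := by
  have hua : u ∉ a := fun h => ha u h hx
  have hub : u ∉ b := fun h => hb u h (off_of_mem (self_mem_cn u))
  rw [Ks_insert hua hub hu]
  congr 1
  apply Ks_congr
  intro o ho
  rw [Finset.mem_union, mem_DD, mem_DD]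
  by_cases hoc : o ∈ cn G u
  · have hob : o ∉ b := fun h => hb o h (off_of_mem hoc)
    have hoa : o ∈ a := by
      rcases Finset.mem_symmDiff.1 ho with h | h
      · exact h.1
      · exact absurd h.1 hob
    rw [off_of_mem hoc]
    exact ⟨fun _ => ha o hoa, fun _ => Or.inr hoc⟩
  · rw [off_of_notMem hoc]
    exact ⟨fun h => h.resolve_right hoc, Or.inl⟩

theorem KF_comm (φ : V → ℝ) : KF G x y φ = KF G y x φ := by
  unfold KF
  rw [E2_swap, DD_comm]
  congr 1
  funext a b
  rw [Ks_comm]

theorem KF_of_empty (h : DD x y = ∅) (φ : V → ℝ) : KF G x y φ = 0 := by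
  unfold KF
  rw [h]
  simp only [Ks_empty, Finset.sum_empty]
  unfold E2 Eg
  simp

/-- **One step of the exploration.** -/
theorem KF_step (hx0 : ∀ v, 0 ≤ x v) (hy : ∀ v, 0 ≤ y v) (hu : u ∈ DD x y) (hx : x u = 0)
    (φ : V → ℝ) :
    KF G x y φ = (1 - dn G y u) * KF G x (off y {u}) φ +
      dn G y u * (φ u + KF G x (off y (cn G u)) φ) := by
  unfold KF
  rw [E2_rev_right hy u]
  congr 1
  · congr 1
    exact E2_congr fun a _ ha b _ hb => by rw [Ks_DD_off ha hb hx]
  · congr 1
    have h1 : E2 G x (off y (cn G u)) (fun a b => ∑ w ∈ Ks G a (insert u b) (DD x y), φ w) =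
        E2 G x (off y (cn G u))
          (fun a b => φ u + ∑ w ∈ Ks G a b (DD x (off y (cn G u))), φ w) := by
      refine E2_congr fun a _ ha b _ hb => ?_
      rw [Ks_DD_insert ha hb hx hu, Finset.sum_insert]
      have hua : u ∉ a := fun h => ha u h hx
      have hub : u ∉ b := fun h => hb u h (off_of_mem (self_mem_cn u))
      exact notMem_Ks hua hub
    rw [h1, E2_add, E2_const hx0 (off_nonneg hy _)]

theorem KF_nonneg (hx : ∀ v, 0 ≤ x v) (hy : ∀ v, 0 ≤ y v) {φ : V → ℝ} (hφ : ∀ v, 0 ≤ φ v) :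
    0 ≤ KF G x y φ :=
  E2_nonneg hx hy fun _ _ _ _ _ _ => Finset.sum_nonneg fun v _ => hφ v

theorem KF_mono (hx : ∀ v, 0 ≤ x v) (hy : ∀ v, 0 ≤ y v) {φ ψ : V → ℝ} (h : ∀ v, φ v ≤ ψ v) :
    KF G x y φ ≤ KF G x y ψ :=
  E2_mono hx hy fun _ _ _ _ _ _ => Finset.sum_le_sum fun v _ => h v

theorem KF_one : KF G x y (fun _ => 1) = E2 G x y (fun a b => ((Ks G a b (DD x y)).card : ℝ)) := by
  unfold KF
  simp

theorem KF_add (φ ψ : V → ℝ) : KF G x y (fun v => φ v + ψ v) = KF G x y φ + KF G x y ψ := by
  unfold KF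
  rw [← E2_add]
  simp only [Finset.sum_add_distrib]

theorem KF_mul_left (c : ℝ) (φ : V → ℝ) : KF G x y (fun v => c * φ v) = c * KF G x y φ := by
  unfold KF
  rw [← E2_mul_left]
  simp only [Finset.mul_sum]

theorem KF_sum {ι : Type} (s : Finset ι) (φ : ι → V → ℝ) :
    KF G x y (fun v => ∑ i ∈ s, φ i v) = ∑ i ∈ s, KF G x y (φ i) := by
  unfold KF
  rw [← E2_sum]
  congr 1
  funext a b
  rw [Finset.sum_comm]

/-- the probability that `w` belongs to the explored components, weighted by `φ w`, summed -/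
theorem KF_eq_sum (φ : V → ℝ) :
    KF G x y φ = ∑ w, φ w * E2 G x y (fun a b => if w ∈ Ks G a b (DD x y) then 1 else 0) := by
  unfold KF
  simp only [← E2_mul_left]
  rw [← E2_sum]
  congr 1
  funext a b
  simp only [mul_ite, mul_one, mul_zero]
  rw [Finset.sum_ite_mem, Finset.univ_inter]

end Pool.Agent.Gas26
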