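import Pool.Agent.Lib.MP_26a019_lc.Ex.GasR

set_option autoImplicit false
set_option linter.unusedVariables false

/-!
# Part AB, gas part: statements of the modules (MP_26a019_lc, q ≥ (1+ε)Δ, all graphs)

Every `def S_X : Prop` is one module. Prove `theorem s_X : S_X` in the file `Ex/g_X.lean`, importing
this file. Other modules used are hypotheses (`S_Y → ...`). Available library (all proved):
`Gas.lean` (definitions; `Eg_add`, `Eg_sub`, `Eg_mul_left`, `Eg_sum`, `Eg_const`, `Eg_congr`,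
`Eg_mono` (only independent sets with nonzero weight matter), `Eg_nonneg`, `Eg_abs_le`, `off_off`,
`gw_off`, `sum_split`, `Zp_split`, `dn_eq`, `fr_eq`, `dn_eq_mul_fr`, `one_sub_dn`, `dn_le`, `dn_le_one`,
`fr_le_one`, `rev` (reveal one vertex), `E2_congr`, `E2_mono`, `E2_swap`, `E2_rev_right`,
`E2_rev_left`), `GasK.lean` (`Ks_comm`, `Ks_mono`, `Ks_congr`, `Ks_le_of`, `Ks_both`, `Ks_le_insert`,
`Ks_insert_sub`, `Ks_insert`), `GasR.lean` (`Pair.*`, `Btw.*`, `sz`, `sz_off_*_lt`, `Ks_DD_off`,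
`Ks_DD_insert`, `KF`, `KF_comm`, `KF_of_empty`, `KF_step`, `KF_one`, `KF_eq_sum`).

Symbols: `a ~ gas(x)`, `b ~ gas(y)`, `D = DD x y`, `K = Ks G a b D`; `p = dn G y u`.
Standard induction: on `sz x y` (or on the number of nonzero activities); if `D = ∅` then `K = ∅`;
else choose `u ∈ D`; one of `x u`, `y u` is `0`, by symmetry (`KF_comm`, `E2_swap`, `Ks_comm`) let
`x u = 0`, `y u ≠ 0` and reveal `u` in the second gas.
-/

open Finset Classical

namespace Pool.Agent.Gas26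

/-- the first arguments of the modules: closed neighbourhoods have at most `q` elements, the cap `κ`
is at most `K0 / q`, and the first moment bound `Adm` holds below the cap -/
def Cls {V : Type} [Fintype V] (G : SimpleGraph V) (κ : V → ℝ) (K0 M q : ℝ) : Prop :=
  1 ≤ K0 ∧ 1 ≤ M ∧ 1 ≤ q ∧ (∀ v, 0 ≤ κ v ∧ κ v ≤ K0 / q) ∧
    (∀ v, ((cn G v).card : ℝ) ≤ q) ∧ Adm G κ M q

/-- level functions -/
def Lip {V : Type} (G : SimpleGraph V) (lev : V → ℕ) : Prop :=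
  ∀ u w, G.Adj u w → lev w ≤ lev u + 1

/-- the probability of the pattern `kp` on the closed neighbourhood of `k` -/
noncomputable def PP {V : Type} [Fintype V] (G : SimpleGraph V) (z : V → ℝ) (k kp : Finset V) : ℝ :=
  Eg G z (fun S => if S ∩ CN G k = kp then 1 else 0)

/-- `H` in state form (three replicas), a hypothesis of the modules; it is proved elsewhere. -/
def Hineq (V : Type) [Fintype V] : Prop :=
  ∀ (G : SimpleGraph V) (x y z : V → ℝ), (∀ v, 0 ≤ x v) → (∀ v, 0 ≤ y v) → (∀ v, 0 ≤ z v) →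
    Pair x y → (∀ v, z v = 0 ∨ (x v ≤ z v ∧ y v ≤ z v)) →
    KF G x y (fun u => (if z u = 0 then 0 else 1) - Eg G z (fun J => ((cn G u ∩ J).card : ℝ))) ≤
      Eg G z (fun J => ((J ∩ DD x y).card : ℝ))

/-- **Thin** Splitting of the activities. Proof. Expand `gw (w1 + w2) S = ∏_{v∈S} (w1 v + w2 v) =
∑_{R ⊆ S} gw w2 R * gw w1 (S \ R)` (`Finset.prod_add`). The pairs `(S, R)`, `R ⊆ S`, `S ∈ IS G`
correspond to the pairs `(R, J)`, `R, J ∈ IS G`, `J` disjoint from `CN G R`, by `J = S \ R`,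
`S = R ∪ J` (`R ⊆ CN G R`; `R ∪ J` is independent iff `R`, `J` are independent and no element of `J`
is a neighbour of an element of `R`); `gw (off w1 (CN G R)) J = gw w1 J` for these (`gw_off`) and `0`
for all other `J`. -/
def S_Thin : Prop :=
  ∀ (V : Type) [Fintype V] (G : SimpleGraph V) (w1 w2 : V → ℝ) (Φ : Finset V → ℝ),
    ∑ S ∈ IS G, gw (fun v => w1 v + w2 v) S * Φ S =
      ∑ R ∈ IS G, gw w2 R * ∑ J ∈ IS G, gw (off w1 (CN G R)) J * Φ (R ∪ J)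

/-- **HJ** The three replica inequality when the third gas has activities `w ≥ κ` on `Tp`
(`w` arbitrary elsewhere).
Proof. `w1 v = κ v` on `Tp`, `0` elsewhere, `w2 = w - w1 ≥ 0`. For `R ∈ IS G` let
`z = off w1 (CN G R)`; apply `Hineq` (if `z v ≠ 0` then `v ∈ Tp`, `z v = κ v ≥ x v, y v`):
`∑_u P(u ∈ K) ([z u ≠ 0] - E_J |cn u ∩ J|) ≤ E_J |J ∩ D|` (`KF_eq_sum`). As
`[z u ≠ 0] ≥ [u ∈ Tp] - [u ∈ CN G R] ≥ [u ∈ Tp] - |cn u ∩ R|` (`κ u > 0` on `Tp`; `mem_cn_comm`) and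
`|cn u ∩ R| + |cn u ∩ J| = |cn u ∩ (R ∪ J)|` for `J` disjoint from `CN G R`, we get
`∑_u P(u ∈ K) ([u ∈ Tp] - E_J |cn u ∩ (R ∪ J)|) ≤ E_J |J ∩ D| ≤ E_J |(R ∪ J) ∩ D|`. Multiply by
`gw w2 R * Zp G z ≥ 0`, sum over `R`, and use `Thin` for `Φ S = |cn u ∩ S|`, `Φ S = |S ∩ D|` and
`Φ = 1`; divide by `Zp G w`. -/
def S_HJ : Prop :=
  S_Thin →
  ∀ (V : Type) [Fintype V], Hineq V →
  ∀ (G : SimpleGraph V) (x y κ w : V → ℝ) (Tp : Finset V), (∀ v, 0 ≤ x v) → (∀ v, 0 ≤ y v) →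
    (∀ v, 0 ≤ w v) → Pair x y →
    (∀ v ∈ Tp, 0 < κ v ∧ κ v ≤ w v ∧ x v ≤ κ v ∧ y v ≤ κ v) →
    KF G x y (fun u => (if u ∈ Tp then 1 else 0) - Eg G w (fun S => ((cn G u ∩ S).card : ℝ))) ≤
      Eg G w (fun S => ((S ∩ DD x y).card : ℝ))

/-- **GDiff** One replica differences are bounded by the clusters.
Proof. Standard induction on `sz x y`. If `D = ∅` then `x = y` and the left side is `0`. Let
`u ∈ D`, `x u = 0` (the other case is symmetric: exchange `x` and `y`, `E2_swap`, `Ks_comm`,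
`DD_comm`, `abs_sub_comm`). `rev` for `y`: `Eg y g = (1-p) Eg y' g + p Eg y* (g ∘ insert u)`,
`y' = off y {u}`, `y* = off y (cn G u)`. So the left side is at most `(1-p) |Eg x g - Eg y' g| +
p |Eg x g - Eg y* (g ∘ insert u)|`. Right side: by `E2_rev_right`, `Ks_DD_off`, `Ks_DD_insert` it is
`(1-p) R(x,y') + p ∑_{w∈Y} E2 x y* 1[w ∈ insert u K(x,y*)]`. The first parts are compared by the
induction hypothesis. If `u ∈ Y` the second sum is at least `1` (term `w = u`) and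
`|Eg x g - Eg y* (g ∘ insert u)| ≤ 1` since all differences of values of `g` are at most `1`
(write it as `E2 x y* (g a - g (insert u b))`). If `u ∉ Y` then `g (insert u S) = g S` (both equal
to `g` of the intersection with `Y`) and the induction hypothesis for `(x, y*)` applies. -/
def S_GDiff : Prop :=
  ∀ (V : Type) [Fintype V] (G : SimpleGraph V) (x y : V → ℝ) (Y : Finset V) (g : Finset V → ℝ),
    (∀ v, 0 ≤ x v) → (∀ v, 0 ≤ y v) → Pair x y → (∀ S, g (S ∩ Y) = g S) →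
    (∀ S S', |g S - g S'| ≤ 1) →
    |Eg G x g - Eg G y g| ≤
      ∑ w ∈ Y, E2 G x y (fun a b => if w ∈ Ks G a b (DD x y) then 1 else 0)

/-- **LStep** One level of the exploration, for `j ≥ 1`.
Proof. Standard induction on `sz x y`, but choose `u ∈ D` with `lev u + 1 ≤ j` if there is one.
(i) If there is none, all elements of `D` have level `≥ j` and the claim follows from `Adm`:
`KF(1[j ≤ lev]) ≤ KF(1) ≤ (M/q)|D|`. (ii) Let `u ∈ D`, `lev u + 1 ≤ j`, `x u = 0` (else exchange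
`x`, `y`: `KF_comm`, `DD_comm`). `KF_step` for both sides: left `= (1-p) L(x,y') + p (0 + L(x,y*))`;
right `= (1-p) M K1(x,y') + p M (1[lev u + 1 = j] + K1(x,y*)) + (M/q) #{w ∈ D : j ≤ lev w}`. Induction
hypothesis for `(x,y')`: `DD x y' = D.erase u`; for `(x,y*)`: the elements of `DD x y*` are in `D` or
neighbours of `u`, and a neighbour of `u` of level `≥ j` exists only if `lev u + 1 = j`; so
`#{w ∈ DD x y* : j ≤ lev w} ≤ #{w ∈ D : j ≤ lev w} + (if lev u + 1 = j then q else 0)`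
(`|cn G u| ≤ q`), and `(M/q) q = M`. -/
def S_LStep : Prop :=
  ∀ (V : Type) [Fintype V] (G : SimpleGraph V) (κ : V → ℝ) (K0 M q : ℝ), Cls G κ K0 M q →
  ∀ (x y : V → ℝ) (lev : V → ℕ) (j : ℕ), Btw κ x → Btw κ y → Pair x y → Lip G lev → 1 ≤ j →
    KF G x y (fun v => if j ≤ lev v then 1 else 0) ≤
      M * KF G x y (fun v => if lev v + 1 = j then 1 else 0) +
        M / q * (((DD x y).filter (fun w => j ≤ lev w)).card : ℝ)

/-- **LDec** Exponential decay in the level. Proof. `b_j = KF(1[j ≤ lev])`. `b_0 = KF(1) ≤ (M/q)|D|`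
(`Adm`, `KF_one`). For `j ≥ 1`, `1[lev v + 1 = j] = 1[j-1 ≤ lev v] - 1[j ≤ lev v]`, so `LStep` gives
`b_j ≤ M (b_{j-1} - b_j)` (no element of `D` has level `≥ 1`), `b_j ≤ (M/(1+M)) b_{j-1}`. -/
def S_LDec : Prop :=
  S_LStep →
  ∀ (V : Type) [Fintype V] (G : SimpleGraph V) (κ : V → ℝ) (K0 M q : ℝ), Cls G κ K0 M q →
  ∀ (x y : V → ℝ) (lev : V → ℕ) (j : ℕ), Btw κ x → Btw κ y → Pair x y → Lip G lev →
    (∀ v ∈ DD x y, lev v = 0) →
    KF G x y (fun v => if j ≤ lev v then 1 else 0) ≤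
      (M / (1 + M)) ^ j * (M / q * ((DD x y).card : ℝ))

/-- **Exc** Old and new seeds. Proof. Induction on `sz x y`. We may assume `O ⊆ D`
(`Ks (O ∩ D) ⊆ Ks O`, `D \ (O ∩ D) = D \ O`). If `O = ∅`: `Adm` and `|Ks O| ≥ 0`. Else let
`u ∈ O`, `x u = 0` (else exchange the gases by `E2_swap`). Then (`E2_rev_right`; `Ks_insert` because
`u ∈ O`; `KF_step` for the first term) the left side is `(1-p) [KF(x,y') - E2 x y' |Ks O|] +
p [(1 + KF(x,y*)) - (1 + E2 x y* |Ks (O ∪ cn G u)|)]`; induction hypothesis for `(x, y', O)`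
(`DD x y' \ O ⊆ D \ O`) and for `(x, y*, O ∪ cn G u)` (`DD x y* \ (O ∪ cn G u) ⊆ D \ O`). -/
def S_Exc : Prop :=
  ∀ (V : Type) [Fintype V] (G : SimpleGraph V) (κ : V → ℝ) (K0 M q : ℝ), Cls G κ K0 M q →
  ∀ (x y : V → ℝ) (O : Finset V), Btw κ x → Btw κ y → Pair x y →
    KF G x y (fun _ => 1) - E2 G x y (fun a b => ((Ks G a b O).card : ℝ)) ≤
      M / q * ((DD x y \ O).card : ℝ)

/-- **DM** Discrepancy of the expected cluster size when the second gas is changed.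
Write `m(x,y) = KF G x y 1`, `T(x,y) = E2 G x y |Ks a b O|`, `B = #({x ≠ min(y1,y2)} \ O)`.
Proof. Induction on the number of nonzero activities of `x`, `y1`, `y2` together. If
`DD y1 y2 = ∅`: `y1 = y2 = min(y1,y2)`, this is `Exc`. Else let `u ∈ DD y1 y2`.
CASE A: `y2 u = 0`, `y1 u ≠ 0`. Let `p = dn y1 u`, `α = dn x u`, `y1' = off y1 {u}`,
`y1* = off y1 (cn u)`, `x' = off x {u}`, `x* = off x (cn u)`, `D1 = DD x y1`.
`m(x,y1) = (1-p) E2 x y1' |Ks a b D1| + p E2 x y1* |Ks a (insert u b) D1|` (`E2_rev_right`).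
(A1) `E2 x y1' |Ks a b D1| ≤ m(x,y1')` (`Ks_le_of`: a seed `o ∈ a xor b`, `o ∈ D1`, is in
`DD x y1'`: clear if `o ≠ u`; if `o = u` then `u ∉ b`, so `u ∈ a`, `x u ≠ 0 = y1' u`).
(A2) `E2 x y1* |Ks a (insert u b) D1| = (1-α) E2 x' y1* |Ks a (insert u b) D1| +
α E2 x* y1* |Ks (insert u a) (insert u b) D1|` (`E2_rev_left`). First: `Ks a (insert u b) D1 ⊆
insert u (Ks a b (D1 ∪ cn u)) ⊆ insert u (Ks a b (DD x' y1*))` (`Ks_insert_sub`, `Ks_le_of`: a seed in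
`cn u` is not in `b`, so it is in `a` and `x'` is not `0` there; other seeds: nothing changed), so it
is at most `1 + m(x',y1*)`. Second: `Ks (insert u a)(insert u b) D1 = Ks a b D1 = Ks a b (DD x* y1*)`
(`Ks_both`; no element of `a xor b` is in `cn u`), so it is `m(x*,y1*)`.
(A3) `T(x,y2) = (1-α) T(x',y2) + α E2 x* y2 |Ks (insert u a) b O| ≥ (1-α) T(x',y2) + α T(x*,y2)`
(`E2_rev_left`; `u ∉ b` because `y2 u = 0`; `Ks_comm`, `Ks_le_insert`).
Induction hypotheses: `m(x,y1') - T(x,y2) ≤ (M+1) m(y1',y2) + (M/q) B` (`min(y1',y2) = min(y1,y2)`);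
`m(x',y1*) - T(x',y2) ≤ (M+1) m(y1*,y2) + (M/q)(B + q)` (`{x' ≠ min(y1*,y2)} ⊆ {x ≠ min(y1,y2)} ∪
cn u`); `m(x*,y1*) - T(x*,y2) ≤ (M+1) m(y1*,y2) + (M/q) B` (on `cn u` both sides are `0`).
So `m(x,y1) - T(x,y2) ≤ (1-p)[(M+1) m(y1',y2) + (M/q)B] + p[(M+1) m(y1*,y2) + (M/q)B + (M+1)]
= (M+1) [(1-p) m(y1',y2) + p (1 + m(y1*,y2))] + (M/q) B = (M+1) m(y1,y2) + (M/q) B`
(`KF_comm`, `KF_step` for the pair `(y2, y1)` at `u`).
CASE B: `y1 u = 0`, `y2 u ≠ 0`. `p = dn y2 u`, `y2' = off y2 {u}`, `y2* = off y2 (cn u)`.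
`T(x,y2) = (1-p) T(x,y2') + p E2 x y2* |Ks a (insert u b) O|`, and the last expectation is
`≥ (1-α) T(x',y2*) + α T(x*,y2*)` (`E2_rev_left`, `Ks_le_insert`, `Ks_both`).
`m(x,y1) = (1-α) E2 x' y1 |Ks a b D1| + α E2 x* y1 |Ks (insert u a) b D1| ≤ (1-α) m(x',y1) +
α (1 + m(x*,y1))` (first: `u` is in none of `a`, `b`; second: `Ks_comm`, `Ks_insert_sub`,
`Ks_le_of`: a seed in `cn u` is not in `a`, so in `b`, and `x* = 0 ≠ y1` there).
Induction hypotheses for `(x,y1,y2')`, `(x',y1,y2*)` (`B + q`), `(x*,y1,y2*)` (`B`), and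
`KF_step` for `(y1,y2)`: the same computation. -/
def S_DM : Prop :=
  S_Exc →
  ∀ (V : Type) [Fintype V] (G : SimpleGraph V) (κ : V → ℝ) (K0 M q : ℝ), Cls G κ K0 M q →
  ∀ (x y1 y2 : V → ℝ) (O : Finset V), Btw κ x → Btw κ y1 → Btw κ y2 → Pair x y1 → Pair x y2 →
    Pair y1 y2 →
    KF G x y1 (fun _ => 1) - E2 G x y2 (fun a b => ((Ks G a b O).card : ℝ)) ≤
      (M + 1) * KF G y1 y2 (fun _ => 1) +
        M / q * (((univ.filter (fun w => x w ≠ min (y1 w) (y2 w))) \ O).card : ℝ)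

/-- **DMc** Proof. `≤`: `DM` with `y1 = y`, `y2 = off y X`, `O = DD x (off y X)`:
`min(y, off y X) = off y X`, so the last set is empty, and `KF y (off y X) 1 ≤ (M/q)|X|` (`Adm`,
`DD y (off y X) ⊆ X`). `≥`: `DM` with `y1 = off y X`, `y2 = y`, `O = DD x y`: the last set is
contained in `X`. (`E2 ... |Ks a b (DD x y)| = KF G x y 1`: `KF_one`.) -/
def S_DMc : Prop :=
  S_Exc → S_DM →
  ∀ (V : Type) [Fintype V] (G : SimpleGraph V) (κ : V → ℝ) (K0 M q : ℝ), Cls G κ K0 M q →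
  ∀ (x y : V → ℝ) (X : Finset V), Btw κ x → Btw κ y → Pair x y →
    |KF G x y (fun _ => 1) - KF G x (off y X) (fun _ => 1)| ≤
      M * (M + 2) / q * (X.card : ℝ)

/-- **ExpM** Exponential moments, `M1 = M (M+2)`, `μ = 1/(2 (M1+1)^2)`, `λ = μ/4`.
Proof. Standard induction on `sz x y`. `D = ∅`: both sides are `1`. Let `u ∈ D`, `x u = 0` (else
`E2_swap`, `KF_comm`). By `E2_rev_right`, `Ks_DD_off`, `Ks_DD_insert`: left side `=
(1-p) E2 x y' e^{λ|K|} + p e^λ E2 x y* e^{λ|K|} ≤ (1-p) e^{μ m'} + p e^{λ + μ m*}`, `m' = KF x y' 1`,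
`m* = KF x y* 1`, `Δ = m* - m'`; `|Δ| ≤ M1` by `DMc` for `(x, y')` and `X = cn u` (`off (off y {u})
(cn u) = off y (cn u)`, `|cn u| ≤ q`). With `t = λ + μ Δ`, `|t| ≤ μ (M1 + 1/4) ≤ 1`,
`e^t ≤ 1 + t + t^2` (`Real.abs_exp_sub_one_sub_id_le`), `t^2 ≤ μ^2 (M1+1)^2 = μ/2`, so
`e^t - 1 ≤ μ (3/4 + Δ) ≤ μ (1 + Δ)`. Hence the left side is at most
`e^{μ m'} (1 + p (e^t - 1)) ≤ e^{μ m'} (1 + p μ (1+Δ)) ≤ e^{μ (m' + p (1+Δ))} = e^{μ m(x,y)}`
(`KF_step`: `m(x,y) = (1-p) m' + p (1 + m*)`). -/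
def S_ExpM : Prop :=
  S_Exc → S_DM → S_DMc →
  ∀ (V : Type) [Fintype V] (G : SimpleGraph V) (κ : V → ℝ) (K0 M q : ℝ), Cls G κ K0 M q →
  ∀ (x y : V → ℝ), Btw κ x → Btw κ y → Pair x y →
    E2 G x y (fun a b => Real.exp (1 / (8 * (M * (M + 2) + 1) ^ 2) *
      ((Ks G a b (DD x y)).card : ℝ))) ≤
      Real.exp (1 / (2 * (M * (M + 2) + 1) ^ 2) * KF G x y (fun _ => 1))

/-- **Zlow** Proof. Induction on `X`: `Zp z ≤ (1 + z u) Zp (off z {u})` (`Zp_split`, and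
`Zp (off z (cn u)) ≤ Zp (off z {u})`: `off z (cn u) = off (off z {u}) (cn u)`, `Zp_off_le`),
`1 + t ≤ e^t`, `off (off z {u}) X = off z (insert u X)`. -/
def S_Zlow : Prop :=
  ∀ (V : Type) [Fintype V] (G : SimpleGraph V) (z : V → ℝ) (X : Finset V), (∀ v, 0 ≤ z v) →
    Zp G z ≤ Real.exp (∑ v ∈ X, z v) * Zp G (off z X)

/-- **PPf** Formula for the pattern probability. Proof. The independent sets `S` with
`S ∩ CN G k = kp` are exactly `kp ∪ S'` with `S'` independent, disjoint from `CN G k` (no element of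
`S'` is adjacent to `kp ⊆ k`, because the neighbours of `kp` are in `CN G k`); the weight is
`gw z kp * gw z S'` and `gw (off z (CN G k)) S' = gw z S'` (`gw_off`). Bijection
`S ↦ S \ CN G k`. (`k ⊆ CN G k` by `self_mem_cn`.) -/
def S_PPf : Prop :=
  ∀ (V : Type) [Fintype V] (G : SimpleGraph V) (z : V → ℝ) (k kp : Finset V), (∀ v, 0 ≤ z v) →
    kp ⊆ k → kp ∈ IS G → PP G z k kp = gw z kp * Zp G (off z (CN G k)) / Zp G z

/-- **PPb** Bounds for the pattern probability: `PP ≤ gw z kp` and, for `z ≤ K0/q`,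
`|cn v| ≤ q`: `PP ≥ gw z kp e^{-K0 |k|}`. Proof. `PPf`, `Zp_off_le` and `Zlow` with `X = CN G k`:
`∑_{v ∈ CN k} z v ≤ |CN k| K0/q ≤ K0 |k|` (`|CN k| ≤ ∑_{v∈k} |cn v| ≤ q |k|`). -/
def S_PPb : Prop :=
  S_Zlow → S_PPf →
  ∀ (V : Type) [Fintype V] (G : SimpleGraph V) (z : V → ℝ) (k kp : Finset V) (K0 q : ℝ),
    0 ≤ K0 → 1 ≤ q → (∀ v, 0 ≤ z v ∧ z v ≤ K0 / q) → (∀ v, ((cn G v).card : ℝ) ≤ q) →
    kp ⊆ k → kp ∈ IS G →
    PP G z k kp ≤ gw z kp ∧ gw z kp * Real.exp (-(K0 * (k.card : ℝ))) ≤ PP G z k kp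

/-- **Der** The derivative of `log (Zp (off z X) / Zp z)` in the direction `d`, `X = CN G k`.
Proof. Split the second sum into `v ∈ X` and `v ∉ X`; the expression is
`∑_{v∉X} d v (fr (off z X) v - fr z v) - ∑_{v∈X} d v fr z v`. The second part is at most
`|X| e K0/q ≤ e K0 |k|` (`0 ≤ fr ≤ 1`; `lev = 0 ≤ r` on `X`; `|X| ≤ q|k|`). For the first part,
`|fr (off z X) v - fr z v| ≤ ∑_{w ∈ cn v} P w`, `P w = E2 z (off z X) 1[w ∈ K]` (`GDiff` with
`Y = cn G v`, `g S = if Disjoint S (cn G v) then 1 else 0`; `pair_off`), so it is at most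
`∑_v |d v| ∑_{w∈cn v} P w = ∑_w P w ∑_{v ∈ cn w} |d v|` (`mem_cn_comm`). If `lev w + 1 ≤ r` all
`v ∈ cn w` have level `≤ r` and `∑_{v ∈ cn w} |d v| ≤ e K0`; always `∑_{v ∈ cn w} |d v| ≤ K0`. So it
is at most `K0 e ∑_w P w + K0 ∑_w 1[r ≤ lev w] P w`, `∑_w P w = KF z (off z X) 1 ≤ (M/q)|X| ≤ M |k|`
(`Adm`, `KF_eq_sum`, `DD z (off z X) ⊆ X`). -/
def S_Der : Prop :=
  S_GDiff →
  ∀ (V : Type) [Fintype V] (G : SimpleGraph V) (κ : V → ℝ) (K0 M q : ℝ), Cls G κ K0 M q →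
  ∀ (z d : V → ℝ) (k : Finset V) (lev : V → ℕ) (r : ℕ) (e : ℝ), Btw κ z → Lip G lev →
    (∀ v ∈ CN G k, lev v = 0) → 0 ≤ e → (∀ v, |d v| ≤ K0 / q) →
    (∀ v, lev v ≤ r → |d v| ≤ e * (K0 / q)) →
    |(∑ v ∈ univ \ CN G k, d v * fr G (off z (CN G k)) v) - ∑ v, d v * fr G z v| ≤
      K0 * e * (M + 1) * (k.card : ℝ) +
        K0 * KF G z (off z (CN G k)) (fun v => if r ≤ lev v then 1 else 0)

/-- **ZDer** Derivative of the partition function along a line. Proof. `Zp G` is a polynomial in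
the activities, affine in each: `∂Zp/∂z_v = ∑_{S ∈ IS, v ∈ S} ∏_{u ∈ S, u ≠ v} z u =
Zp (off z (cn v))` (`S ↦ S.erase v` is a bijection onto the independent sets disjoint from `cn v`,
as in `sum_split`), and `Zp (off z (cn v)) = fr z v * Zp z` (`fr_eq`). Use `HasDerivAt` of
`t ↦ ∏_{u∈S} (z u + t d u)` (`HasDerivAt.finset_prod` or `HasDerivAt.fun_finset_prod`). -/
def S_ZDer : Prop :=
  ∀ (V : Type) [Fintype V] (G : SimpleGraph V) (z d : V → ℝ) (t : ℝ),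
    (∀ v, 0 ≤ z v + t * d v) →
    HasDerivAt (fun t : ℝ => Zp G (fun v => z v + t * d v))
      ((∑ v, d v * fr G (fun v => z v + t * d v) v) * Zp G (fun v => z v + t * d v)) t

/-- **Int** Comparison of pattern probabilities by linear interpolation.
Proof. `z_t = z0 + t (z1 - z0)`, `d = z1 - z0`; `z_t` is between `0` and `κ`, `|d v| ≤ K0/q`. By
`PPf`, `log PP z_t = ∑_{v∈kp} log z_t v + log Zp (off z_t X) - log Zp z_t`, `X = CN G k`. The
derivative of `log Zp (off z_t X) - log Zp z_t` is `∑_{v∉X} d v fr (off z_t X) v - ∑_v d v fr z_t v`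
(`ZDer` for `z0`, `d` and for `off z0 X`, `off d X`: `off z_t X = off z0 X + t off d X`; the terms
`v ∈ X` vanish), which by `Der` and `LDec` (`DD z (off z X) ⊆ X`, levels `0`, `|X| ≤ q|k|`) is at
most `K0 e (M+1)|k| + K0 θ^r M |k| ≤ 2 K0 M |k| (e + θ^r)`, `θ = M/(1+M)`, `M ≥ 1`. Mean value
inequality on `[0,1]` (`Convex.norm_image_sub_le_of_norm_hasDerivWithin_le` or `image_sub_le...`).
The terms `∑_{v∈kp} log` give `∑_{v∈kp} |log z1 v - log z0 v|`. (If `Zp`, `gw` are positive all logs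
are fine: `Zp_pos`; on `kp` both activities are positive.) -/
def S_Int : Prop :=
  S_GDiff → S_Der → S_LStep → S_LDec → S_PPf → S_ZDer →
  ∀ (V : Type) [Fintype V] (G : SimpleGraph V) (κ : V → ℝ) (K0 M q : ℝ), Cls G κ K0 M q →
  ∀ (z0 z1 : V → ℝ) (k kp : Finset V) (lev : V → ℕ) (r : ℕ) (e : ℝ), Btw κ z0 → Btw κ z1 →
    Lip G lev → (∀ v ∈ CN G k, lev v = 0) → 0 ≤ e → kp ⊆ k → kp ∈ IS G →
    (∀ v ∈ kp, 0 < z0 v ∧ 0 < z1 v) → (∀ v, lev v ≤ r → |z1 v - z0 v| ≤ e * (K0 / q)) →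
    |Real.log (PP G z1 k kp) - Real.log (PP G z0 k kp)| ≤
      (∑ v ∈ kp, |Real.log (z1 v) - Real.log (z0 v)|) +
        2 * K0 * M * (k.card : ℝ) * (e + (M / (1 + M)) ^ r)

/-- **CluDet** Deterministic description of the cluster of `v`. Proof. (→) Let `k = Ks G a b {v}`,
nonempty, so `v ∈ a xor b` and `k` is the component of `v` in `G[a xor b]`; `kp = a ∩ k`. If
`w ∈ CN G k`, `w ∉ k`, then `w` is adjacent to some `u ∈ k`, `u ∈ a xor b`; `w ∉ a xor b` (else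
`w ∈ k`); if `w ∈ a ∩ b` then `u` and `w` are adjacent and both in `a` or both in `b`, impossible; so
`w ∉ a ∪ b`. Hence `a ∩ CN k = a ∩ k = kp`, `b ∩ CN k = b ∩ k = k \ kp` (`k ⊆ a xor b`). `k` is
connected: the walks of `SG G a b` from `v` stay in `k`, so `Ks G k ∅ {v} = k`
(`symmDiff k ∅ = k`). (←) `(a xor b) ∩ CN k = k`, so a walk of `SG G a b` starting in `k` stays in
`k` (a neighbour of an element of `k` which is in `a xor b` is in `k`), and by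
`Ks G k ∅ {v} = k` all elements of `k` are reachable from `v` inside `k`. -/
def S_CluDet : Prop :=
  ∀ (V : Type) [Fintype V] (G : SimpleGraph V) (v : V) (a b k kp : Finset V),
    a ∈ IS G → b ∈ IS G → k.Nonempty →
    ((Ks G a b {v} = k ∧ a ∩ k = kp) ↔
      (Ks G k ∅ {v} = k ∧ kp ⊆ k ∧ a ∩ CN G k = kp ∧ b ∩ CN G k = k \ kp))

/-- **KvE** The cluster of one vertex in two copies of the same gas. Proof. Let `α = dn z v`.
Reveal `v` in both gases (`E2_rev_left`, `E2_rev_right`). If `v` is in none of the sets or in both,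
`Ks {v} = ∅` (in the second case `v ∉ a xor b`), contribution `Φ 0 = 0`. If `v` is only in the second
set: `a ~ off z {v}`, `b ~ off z (cn v)`, `Ks a (insert v b) {v} = insert v (Ks a b ({v} ∪ cn v))
= insert v (Ks a b (DD (off z {v}) (off z (cn v))))` (`Ks_insert`, `Ks_congr`: a vertex of `a xor b`
in `cn v` is not in `b`, so it is in `a`, different from `v`, where the activities differ; a vertex
of `a xor b` outside `cn v` is no seed on both sides). Probability `α (1-α)`. The other case is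
symmetric (`E2_swap`, `Ks_comm`, `DD_comm`). -/
def S_KvE : Prop :=
  ∀ (V : Type) [Fintype V] (G : SimpleGraph V) (z : V → ℝ) (v : V) (Φ : ℕ → ℝ),
    (∀ v, 0 ≤ z v) → Φ 0 = 0 →
    E2 G z z (fun a b => Φ (Ks G a b {v}).card) =
      2 * dn G z v * (1 - dn G z v) *
        E2 G (off z {v}) (off z (cn G v))
          (fun a b => Φ ((Ks G a b (DD (off z {v}) (off z (cn G v)))).card + 1))

/-- **KvB** Consequences: first moment and tail. Proof. `KvE` with `Φ n = n`: `E2 |Ks {v}| =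
2 α (1-α) (1 + KF 1) ≤ 2 α (1 + M)` (`Adm`, `DD (off z {v}) (off z (cn v)) ⊆ cn v`, at most `q`
elements). `KvE` with `Φ n = if m < n then 1 else 0`: `1[m < n+1] ≤ e^{λ (n + 1 - m)}`, so it is at
most `2 α e^{λ - λ m} E2 e^{λ|K|} ≤ 2 α e^{λ - λ m} e^{μ M}` (`ExpM`, `KF 1 ≤ M`), and
`λ = 1/(8(M1+1)^2) ≤ 1`, `μ M ≤ 1` (`M1 = M(M+2)`), so the constant is at most `2 e^2`. -/
def S_KvB : Prop :=
  S_KvE → S_Exc → S_DM → S_DMc → S_ExpM →
  ∀ (V : Type) [Fintype V] (G : SimpleGraph V) (κ : V → ℝ) (K0 M q : ℝ), Cls G κ K0 M q →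
  ∀ (z : V → ℝ) (v : V) (m : ℕ), Btw κ z →
    E2 G z z (fun a b => ((Ks G a b {v}).card : ℝ)) ≤ 2 * (1 + M) * dn G z v ∧
    E2 G z z (fun a b => if m < (Ks G a b {v}).card then 1 else 0) ≤
      2 * Real.exp 2 * Real.exp (-(1 / (8 * (M * (M + 2) + 1) ^ 2) * m)) * dn G z v

end Pool.Agent.Gas26
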