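import Pool.Agent.Lib.MP_26a019_lc.Types
import Pool.Agent.Lib.MP_26a019_lc.Ex.GasSpec

set_option autoImplicit false
set_option linter.unusedVariables false

/-!
# The three-replica inequality `Hineq` from the Kempe three colour inequality: modules

Blow-up: every vertex `v` of `V` gets three twin copies `(v, i)`, mutually adjacent; a pattern
`h : Fin 3 → Fin 4` says which colours (0, 1, 2) the copies have, `3` meaning `absent`. The vertex `v`
belongs to `S` (first gas), `T` (second gas), `J` (third gas) iff some copy has the colour `0`, `1`,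
`2`. There are also pinned vertices `Sum.inr (v, j)`, present iff `(v, j) ∈ P`: for `j = 0, 1, 2` a
pendant of colour `j`, adjacent to the copies of `v` only (it blocks the colour `j` at `v`); for
`j = 3` a frozen particle of colour `2`, adjacent to the copies of `v` and of its neighbours.

Each `def X : Prop` is one module (file `Ex/H<name>.lean`, theorem `<name>_proof : X`); the modules
are independent of each other. `three_colour` is in `Types.lean`, the definitions `Proper`, `HH`,
`KK`, `cdeg`, `ecross`, `Om3` in `Defs.lean`; `IS`, `gw`, `Zp`, `Eg`, `E2`, `cn`, `CN`, `SG`, `Ks`,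
`DD`, `Pair`, `off` in `Ex/Gas.lean`, `KF` in `Ex/GasR.lean`, `Hineq`, `S_Thin` in `Ex/GasSpec.lean`.
-/

open Finset Classical

namespace Pool.Agent.H26

open Pool.Agent.Kempe Pool.Agent.Gas26

/-- vertices of the blow-up -/
abbrev BV (V : Type) : Type := (V × Fin 3) ⊕ (V × Fin 4)

variable {V : Type} [Fintype V]

/-- adjacency of the blow-up; `X` is the set of the copies which are present, `P` the set of the
pinned vertices which are present -/
def badj (G : SimpleGraph V) (X : Finset (V × Fin 3)) (P : Finset (V × Fin 4)) : BV V → BV V → Prop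
  | Sum.inl a, Sum.inl b => a ∈ X ∧ b ∈ X ∧ ((a.1 = b.1 ∧ a.2 ≠ b.2) ∨ G.Adj a.1 b.1)
  | Sum.inl a, Sum.inr b => a ∈ X ∧ b ∈ P ∧ (a.1 = b.1 ∨ (b.2 = 3 ∧ G.Adj a.1 b.1))
  | Sum.inr b, Sum.inl a => a ∈ X ∧ b ∈ P ∧ (a.1 = b.1 ∨ (b.2 = 3 ∧ G.Adj a.1 b.1))
  | Sum.inr _, Sum.inr _ => False

/-- the blow-up graph -/
def BG (G : SimpleGraph V) (X : Finset (V × Fin 3)) (P : Finset (V × Fin 4)) :
    SimpleGraph (BV V) where
  Adj := badj G X P
  symm := ⟨by
    rintro (a | a) (b | b) h
    · exact ⟨h.2.1, h.1, h.2.2.elim (fun h => Or.inl ⟨h.1.symm, h.2.symm⟩) (fun h => Or.inr h.symm)⟩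
    · exact h
    · exact h
    · exact h⟩
  loopless := ⟨by
    rintro (a | a) h
    · exact h.2.2.elim (fun h => h.2 rfl) (fun h => G.loopless.irrefl _ h)
    · exact h⟩

/-- the colouring of the blow-up given by the patterns `g` -/
noncomputable def bcol (P : Finset (V × Fin 4)) (g : V → Fin 3 → Fin 4) : BV V → Fin 4
  | Sum.inl a => g a.1 a.2
  | Sum.inr b => if b ∈ P then (if b.2 = 3 then 2 else b.2) else 3

/-- the copies which are present -/
noncomputable def sup (g : V → Fin 3 → Fin 4) : Finset (V × Fin 3) :=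
  univ.filter (fun x => g x.1 x.2 ≠ 3)

/-- the pinned vertices of the blow-up: all but the present copies -/
noncomputable def Wb (X : Finset (V × Fin 3)) : Finset (BV V) :=
  univ.filter (fun s => ∀ x ∈ X, s ≠ Sum.inl x)

/-- vertices with a copy of colour `y` -/
noncomputable def lb (g : V → Fin 3 → Fin 4) (y : Fin 4) : Finset V :=
  univ.filter (fun z => ∃ i, g z i = y)

/-- proper families of patterns -/
def BProper (G : SimpleGraph V) (P : Finset (V × Fin 4)) (g : V → Fin 3 → Fin 4) : Prop :=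
  Proper (BG G (sup g) P) (bcol P g)

/-- the integrand of the three colour inequality in the blow-up -/
noncomputable def PsiB (G : SimpleGraph V) (P : Finset (V × Fin 4)) (g : V → Fin 3 → Fin 4) : ℤ :=
  (∑ z ∈ KK (BG G (sup g) P) (bcol P g) (Wb (sup g)) 0 1,
    ((cdeg (BG G (sup g) P) (bcol P g) 2 z : ℤ) - 1)) +
  (ecross (BG G (sup g) P) (bcol P g) (Wb (sup g)) 0 1 2 : ℤ)

/-- no colour is used twice in a pattern -/
def LInj (h : Fin 3 → Fin 4) : Prop := ∀ i j, h i = h j → h i ≠ 3 → i = j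

/-- the colours used by a pattern -/
noncomputable def lab (h : Fin 3 → Fin 4) : Finset (Fin 4) :=
  univ.filter (fun y => y ≠ 3 ∧ ∃ i, h i = y)

/-- number of present copies -/
noncomputable def npr (h : Fin 3 → Fin 4) : ℕ := (univ.filter (fun i => h i ≠ 3)).card

/-- the pinned set with pendants of colour 0 on `Da`, 1 on `Db`, 2 on `Ph`, frozen particles on `F` -/
noncomputable def pin (Da Db Ph F : Finset V) : Finset (V × Fin 4) :=
  univ.filter (fun b => (b.2 = 0 ∧ b.1 ∈ Da) ∨ (b.2 = 1 ∧ b.1 ∈ Db) ∨ (b.2 = 2 ∧ b.1 ∈ Ph) ∨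
    (b.2 = 3 ∧ b.1 ∈ F))

/-- **HThree** Proof: `three_colour` for the vertex type `BV V`, the graph `BG G X P`, the pinned
set `Wb X`, the colours `0, 1, 2` of `Fin 4` and the pinned values `p = bcol P (fun _ _ => 3)`.
The map `g ↦ bcol P g` is a bijection from the index set of the sum onto
`Om3 (BG G X P) (Wb X) p 0 1 2`: if `sup g = X` then `bcol P g` equals `p` on `Wb X` (a copy `(v, i)`
in `Wb X` is not in `X = sup g`, so `g v i = 3`; the values at the pinned vertices do not depend on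
`g`) and has values `0, 1, 2` on the other vertices (they are the copies in `X = sup g`, and a value
`≠ 3` of `Fin 4` is `0`, `1` or `2`); `Proper` is the same condition. Inverse: `f ↦ (v, i) ↦
f (inl (v, i))` (for `f ∈ Om3`: on `X` the values are `0, 1, 2`, outside `X` the value is `3`, so
`sup` of it is `X`). -/
def HThree : Prop :=
  ∀ (V : Type) [Fintype V] (G : SimpleGraph V) (P : Finset (V × Fin 4)) (X : Finset (V × Fin 3)),
    0 ≤ ∑ g ∈ univ.filter (fun g => sup g = X ∧ BProper G P g), PsiB G P g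

/-- **HProper** Proof: unfold. Edges of `BG` between two copies of the same vertex give `LInj`;
edges between copies of adjacent vertices the next three conditions; edges to the frozen particles
the fifth; edges to the pendants the last three. All edges have both ends present, so the colour `3`
never occurs at an end of an edge. -/
def HProper : Prop :=
  ∀ (V : Type) [Fintype V] (G : SimpleGraph V) (Da Db Ph F : Finset V) (g : V → Fin 3 → Fin 4),
    BProper G (pin Da Db Ph F) g ↔ ((∀ z, LInj (g z)) ∧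
      lb g 0 ∈ IS G ∧ lb g 1 ∈ IS G ∧ lb g 2 ∈ IS G ∧ Disjoint (lb g 2) (CN G F) ∧
      Disjoint (lb g 0) Da ∧ Disjoint (lb g 1) Db ∧ Disjoint (lb g 2) Ph)

/-- **HPsi** Write `S = lb g 0`, `T = lb g 1`, `J = lb g 2`. By properness (see the description in
`HProper`; prove what is needed directly from `BProper`) a vertex has at most one copy of each
colour, `S`, `T`, `J` are independent, `S ∩ Da = ∅`, `T ∩ Db = ∅`, `J ∩ F = ∅`.
(1) The graph `HH (BG ..) (bcol ..) 0 1` has the edges `(z,i) (w,j)` with `g z i = 0`, `g w j = 1`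
(or exchanged) and `z = w` or `z ~ w`, and the edges between the pendant `(v, 0)`, `v ∈ Da`, and the
copy of colour `1` of `v`, and between the pendant `(v, 1)`, `v ∈ Db`, and the copy of colour `0` of
`v`. If `z ~ w`, `z ∈ S`, `w ∈ T` then `z ∉ T`, `w ∉ S`, so `z, w ∈ symmDiff S T`; if `z = w` then
`z ∈ S ∩ T`, no neighbour of `z` is in `S ∪ T` and `z ∉ Da ∪ Db`, so the component consists of the
two copies and contains no pinned vertex.
(2) So a copy `(z,i)` with colour 0 or 1 is reachable from `Wb (sup g)` iff `z ∈ symmDiff S T` and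
`z` is reachable in `SG G S T` from some `o ∈ symmDiff S T`, `o ∈ Da ∪ Db`: the elements of `Wb`
which are ends of edges of `HH` are the pendants (absent copies have the colour 3, frozen particles
the colour 2); a pendant at `v ∈ Da` has an edge iff `v ∈ T`, and then `v ∈ T \ S`. A vertex of
colour 2 is not reachable from `Wb` (it is isolated in `HH`, and not in `Wb` if it is a present
copy; present copies are exactly the vertices outside `Wb`). Hence `(z,i) ↦ z` is a bijection from
`KK` onto `Ks G S T (Da ∪ Db)`.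
(3) The neighbours of colour 2 of such a copy `(z,i)` are the copies of colour 2 of the vertices in
`cn G z ∩ J` (one for each), the frozen particles of `cn G z ∩ F` and the pendant `(z, 2)` if
`z ∈ Ph`.
(4) `ecross` counts the pairs (pinned vertex of colour 0 or 1, neighbour outside `Wb` of colour 2):
a pendant at `v ∈ Da` or `v ∈ Db` (`Da`, `Db` disjoint) and the copy of colour 2 of `v`, if
`v ∈ J`. -/
def HPsi : Prop :=
  ∀ (V : Type) [Fintype V] (G : SimpleGraph V) (Da Db Ph F : Finset V) (g : V → Fin 3 → Fin 4),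
    Disjoint Da Db → BProper G (pin Da Db Ph F) g →
    PsiB G (pin Da Db Ph F) g =
      (∑ u ∈ Ks G (lb g 0) (lb g 1) (Da ∪ Db), (((cn G u ∩ (lb g 2 ∪ F)).card : ℤ) +
        (if u ∈ Ph then 1 else 0) - 1)) + (((lb g 2) ∩ (Da ∪ Db)).card : ℤ)

/-- **HPat** (pattern counting). Proof: sum over the fibres of `g ↦ lab ∘ g`
(`Finset.sum_fiberwise` or `Finset.sum_comm`): for a fixed `ℓ` the inner sum is
`Θ ℓ ∏_z ∑_{h : LInj h, lab h = ℓ z} (w z)^(npr h) (3 - npr h)!/6` (`Finset.prod_univ_sum` /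
`Fintype.piFinset`). For `LInj h`: `npr h = |lab h|`, and the number of the patterns `h` with
`LInj h` and `lab h = ℓ` (`3 ∉ ℓ`) is `6/(3-|ℓ|)!` (`decide` over the 64 patterns and the 8 sets
`ℓ`; restate without classical decidability if necessary), so the inner sum is `(w z)^|ℓ z|`. If
`3 ∈ ℓ z` for some `z` there is no such pattern. -/
def HPat : Prop :=
  ∀ (V : Type) [Fintype V] (w : V → ℝ) (Θ : (V → Finset (Fin 4)) → ℝ),
    ∑ g ∈ univ.filter (fun g : V → Fin 3 → Fin 4 => ∀ z, LInj (g z)),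
      (∏ z, (w z) ^ (npr (g z)) * ((Nat.factorial (3 - npr (g z)) : ℝ) / 6)) *
        Θ (fun z => lab (g z)) =
    ∑ ℓ ∈ univ.filter (fun ℓ : V → Finset (Fin 4) => ∀ z, (3 : Fin 4) ∉ ℓ z),
      (∏ z, (w z) ^ ((ℓ z).card)) * Θ ℓ

/-- **HTriple** (label families are triples of sets). Proof: the bijection `ℓ ↦ (S, T, J)`,
`S = {z | 0 ∈ ℓ z}`, `T = {z | 1 ∈ ℓ z}`, `J = {z | 2 ∈ ℓ z}` (inverse
`ℓ z = {0 | z ∈ S} ∪ {1 | z ∈ T} ∪ {2 | z ∈ J}`), and `∏_z (w z)^|ℓ z| = gw w S * gw w T * gw w J`. -/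
def HTriple : Prop :=
  ∀ (V : Type) [Fintype V] (w : V → ℝ) (Θ : Finset V → Finset V → Finset V → ℝ),
    ∑ ℓ ∈ univ.filter (fun ℓ : V → Finset (Fin 4) => ∀ z, (3 : Fin 4) ∉ ℓ z),
      (∏ z, (w z) ^ ((ℓ z).card)) *
        Θ (univ.filter (fun z => (0 : Fin 4) ∈ ℓ z)) (univ.filter (fun z => (1 : Fin 4) ∈ ℓ z))
          (univ.filter (fun z => (2 : Fin 4) ∈ ℓ z)) =
    ∑ S : Finset V, ∑ T : Finset V, ∑ J : Finset V, gw w S * gw w T * gw w J * Θ S T J

/-- **HAsm** (assembly). Proof: let `Da = {v | x v = 0 ∧ y v ≠ 0}`, `Db = {v | y v = 0 ∧ x v ≠ 0}`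
(disjoint, `Da ∪ Db = DD x y` by `Pair x y`), `Ph = {v | z v = 0}`, `w v = max (x v) (y v)`,
`β v = if z v = 0 then 0 else w v` (so `0 ≤ β v ≤ z v`), `wg g = ∏_v (w v)^(npr (g v))
(3 - npr (g v))!/6 ≥ 0`, and for `F ∈ IS G`, `P = pin Da Db Ph F`:
`T F = ∑_{g : BProper G P g} wg g * PsiB G P g`.
(1) `T F ≥ 0`: `wg g` depends on `sup g` only (`npr (g v)` is the number of the `i` with
`(v,i) ∈ sup g`); group the sum by `sup g = X` and use `HThree`.
(2) By `HPsi`, `PsiB ≤ Ξ (lb g 0) (lb g 1) (lb g 2 ∪ F)`, where `Ξ S T J = ∑_{u ∈ Ks G S T (DD x y)}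
(|cn u ∩ J| + [z u = 0] - 1) + |J ∩ DD x y|`. By `HProper` (its condition is `∀ z, LInj (g z)` and a
condition on `lb g 0`, `lb g 1`, `lb g 2`; `z ∈ lb g y` iff `y ∈ lab (g z)` for `y ≠ 3`), `HPat` and
`HTriple`: `T F ≤ ∑_{S,T,J'} gw w S gw w T gw w J' Ξ S T (J' ∪ F)` over the `S, T, J' ∈ IS G` with
`J' ∩ CN G F = ∅`, `S ∩ Da = ∅`, `T ∩ Db = ∅`, `J' ∩ Ph = ∅`. For `S ∩ Da = ∅` one has
`gw w S = gw x S` (`x v = w v` for `v ∉ Da`), for other `S` `gw x S = 0`; the same for `T`, `y`,
`Db`; and `gw w J'` is `gw (off β (CN G F)) J'` if `J' ∩ CN G F = ∅ = J' ∩ Ph`, which is `0` for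
other `J'` (`gw_off`). So `0 ≤ T F ≤ ∑_{S ∈ IS} ∑_{T ∈ IS} gw x S gw y T ∑_{J' ∈ IS}
gw (off β (CN G F)) J' Ξ S T (F ∪ J')`.
(3) Multiply by `gw (z - β) F ≥ 0`, sum over `F ∈ IS G`, use `S_Thin` (`w1 = β`, `w2 = z - β`) for
every `S, T`: `0 ≤ ∑_S ∑_T ∑_{J ∈ IS} gw x S gw y T gw z J Ξ S T J`. Divide by
`Zp x * Zp y * Zp z > 0`: this is `Hineq` (unfold `KF`, `E2`, `Eg`; `Eg_sum`, `Eg_sub`, `Eg_const`;
`[z u = 0] - 1 = -(if z u = 0 then 0 else 1)`). -/
def HAsm : Prop := S_Thin → HThree → HProper → HPsi → HPat → HTriple →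
  ∀ (V : Type) [Fintype V], Hineq V

end Pool.Agent.H26
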