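import Pool.Agent.Lib.MP_26a019_lc.Ex.LocSpec

set_option autoImplicit false

/-!
# Assembly of part AB
-/

open Finset Classical

namespace Pool.Agent.Loc26

open Pool.Agent.Kempe Pool.Agent.KempeMix Pool.Agent.Eps26 Pool.Agent.Gas26
open Pool.Agent.Ex26 (rst ev2 cl ClSmall ClTail AllPoin PartAB)

theorem cap_nonneg {V C : Type} [Fintype V] [Fintype C] {G : SimpleGraph V} {U : Finset V}
    {L : V → Finset C} {p : V → C} {s : ℕ} (hG : Good G U L s) (c : C) {δ : ℝ} (hδ : 0 ≤ δ)
    (v : V) : 0 ≤ cap G U L p c δ v := by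
  unfold cap
  split_ifs with h
  · have h1 := bt_ge (p := p) hG h.1
    have hs : (0 : ℝ) ≤ s := Nat.cast_nonneg s
    exact div_nonneg (by linarith) (by linarith)
  · exact le_rfl

theorem cap_mono {V C : Type} [Fintype V] [Fintype C] {G : SimpleGraph V} {U : Finset V}
    {L : V → Finset C} {p : V → C} {s : ℕ} (hG : Good G U L s) (c : C) {δ δ' : ℝ} (h : δ ≤ δ')
    (v : V) : cap G U L p c δ v ≤ cap G U L p c δ' v := by
  unfold cap
  split_ifs with hv
  · have h1 := bt_ge (p := p) hG hv.1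
    have hs : (0 : ℝ) ≤ s := Nat.cast_nonneg s
    exact div_le_div_of_nonneg_right (by linarith) (by linarith)
  · exact le_rfl

/-- the cap is at most `(2/ε)/q` -/
theorem cap_le {V C : Type} [Fintype V] [Fintype C] {G : SimpleGraph V} {U : Finset V}
    {L : V → Finset C} {p : V → C} {s : ℕ} {ε δ : ℝ} (hG : Good G U L s) (c : C) (hε : 0 < ε)
    (hq : 1 ≤ Fintype.card C) (hs : ε * (Fintype.card C : ℝ) ≤ s) (hδ0 : 0 ≤ δ) (hδ : δ ≤ 1 / 2)
    (v : V) : cap G U L p c δ v ≤ 2 / ε / (Fintype.card C : ℝ) := by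
  have hq' : (1 : ℝ) ≤ (Fintype.card C : ℝ) := by exact_mod_cast hq
  have hε' : 0 < ε * (Fintype.card C : ℝ) := by positivity
  unfold cap
  split_ifs with hv
  · have h1 := bt_ge (p := p) hG hv.1
    rw [div_div]
    exact div_le_div₀ (by norm_num) (by linarith) hε' (hs.trans h1)
  · positivity

theorem cls_cap {V C : Type} [Fintype V] [Fintype C] {G : SimpleGraph V} {U : Finset V}
    {L : V → Finset C} {p : V → C} {s : ℕ} {ε δ : ℝ} (hG : Good G U L s) (c : C) (hε : 0 < ε)
    (hε1 : ε ≤ 1)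
    (hq : 1 ≤ Fintype.card C) (hs : ε * (Fintype.card C : ℝ) ≤ s) (hδ0 : 0 ≤ δ) (hδ : δ ≤ 1 / 2)
    (hA : Adm (rst G U) (cap G U L p c δ) (2 / ε) (Fintype.card C : ℝ)) :
    Cls (rst G U) (cap G U L p c δ) (2 / ε) (2 / ε) (Fintype.card C : ℝ) := by
  have h1 : 1 ≤ 2 / ε := by rw [le_div_iff₀ hε]; linarith
  refine ⟨h1, h1, by exact_mod_cast hq, ?_, ?_, hA⟩
  · intro v
    exact ⟨cap_nonneg hG c hδ0 v, cap_le hG c hε hq hs hδ0 hδ v⟩
  · intro v
    exact card_cn_le hG hq v

theorem partAB_of (hH : ∀ (V : Type) [Fintype V], Hineq V) (hAdm : AdmP) (hLoc : LocI)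
    (hCmp : Cmp) (hSing : Sing) : PartAB := by
  intro ε hε
  set e : ℝ := min ε 1 with he
  have he0 : 0 < e := lt_min hε one_pos
  have he1 : e ≤ 1 := min_le_right _ _
  have heε : e ≤ ε := min_le_left _ _
  obtain ⟨δ, hδ0, hδ1, hA⟩ := hAdm hH e he0 he1
  set M0 : ℝ := 2 / e with hM0
  have hM0p : 1 ≤ M0 := by rw [hM0, le_div_iff₀ he0]; linarith
  refine ⟨8 * (2 * (1 + M0)), 4 * Real.exp 2, 1 / (8 * (M0 * (M0 + 2) + 1) ^ 2), by positivity,
    by positivity, by positivity, ?_⟩
  intro P η m hP hη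
  obtain ⟨q1, hA⟩ := hA P hP
  set η' : ℝ := min (1 / 2) (η / 12) with hη'
  have hη'0 : 0 < η' := lt_min (by norm_num) (by positivity)
  have hη'1 : η' ≤ 1 / 2 := min_le_left _ _
  have hη'2 : 12 * η' ≤ η := by
    have : η' ≤ η / 12 := min_le_right _ _
    linarith
  obtain ⟨q2, hL⟩ := hLoc e δ P η' m he0 he1 hδ0 hδ1 hP hη'0
  refine ⟨max q1 (max q2 1), ?_⟩
  intro V C _ _ s n hq hs hall G U L p hG hn
  have hq1 : q1 ≤ Fintype.card C := le_trans (le_max_left _ _) hq
  have hq2 : q2 ≤ Fintype.card C :=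
    le_trans (le_trans (le_max_left _ _) (le_max_right _ _)) hq
  have hq3 : 1 ≤ Fintype.card C :=
    le_trans (le_trans (le_max_right _ _) (le_max_right _ _)) hq
  have hq' : (1 : ℝ) ≤ (Fintype.card C : ℝ) := by exact_mod_cast hq3
  have hse : e * (Fintype.card C : ℝ) ≤ s :=
    le_trans (mul_le_mul_of_nonneg_right heε (by linarith)) hs
  have hPo := hall G U L p hG hn
  have hcol : (Col G U L p).Nonempty := Col_nonempty hG p
  have key : ∀ v ∈ U, ∀ c,
      ev2 (Col G U L p) (fun f f' =>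
        if (cl G U c v f f').card ≤ m then ((cl G U c v f f').card : ℝ) else 0) ≤
          8 * (2 * (1 + M0)) * mg (Col G U L p) v c ∧
      ev2 (Col G U L p) (fun f f' => if m < (cl G U c v f f').card then (1 : ℝ) else 0) ≤
        (4 * Real.exp 2 * Real.exp (-(1 / (8 * (M0 * (M0 + 2) + 1) ^ 2) * m)) + η) *
          mg (Col G U L p) v c := by
    intro v hv c
    have hmg : 0 ≤ mg (Col G U L p) v c := mg_nonneg _ _ _
    have hAd := hA V C G U L p s hq1 hse hG hPo c
    have hCls := cls_cap hG c he0 he1 hq3 hse hδ0.le hδ1 hAd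
    have hz0 : ∀ u, 0 ≤ cap G U L p c 0 u := cap_nonneg hG c le_rfl
    have hB : Btw (cap G U L p c δ) (cap G U L p c 0) := fun u =>
      ⟨hz0 u, cap_mono hG c hδ0.le u⟩
    rcases Nat.eq_zero_or_pos m with rfl | hm
    · constructor
      · have h1 : ev2 (Col G U L p) (fun f f' =>
            if (cl G U c v f f').card ≤ 0 then ((cl G U c v f f').card : ℝ) else 0) = 0 := by
          have : (fun f f' : V → C =>
              if (cl G U c v f f').card ≤ 0 then ((cl G U c v f f').card : ℝ) else 0) =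
              fun _ _ => 0 := by
            funext f f'
            split_ifs with h
            · rw [Nat.le_zero.1 h, Nat.cast_zero]
            · rfl
          rw [this]
          unfold ev2
          simp only [ev_const hcol]
        rw [h1]
        positivity
      · have h1 := (hSing V C G U L p s c (cap G U L p c 0) hG hz0 v hv).2.2.1
        rw [h1]
        have h2 : (1 : ℝ) ≤ Real.exp 2 := Real.one_le_exp (by norm_num)
        have h3 : Real.exp (-(1 / (8 * (M0 * (M0 + 2) + 1) ^ 2) * ((0 : ℕ) : ℝ))) = 1 := by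
          rw [Nat.cast_zero, mul_zero, neg_zero, Real.exp_zero]
        rw [h3]
        nlinarith [mul_nonneg hmg hmg, mul_nonneg (by linarith : 0 ≤ Real.exp 2 - 1) hmg,
          mul_nonneg hη.le hmg]
    · obtain ⟨k1, k2⟩ := gKvB V (rst G U) (cap G U L p c δ) M0 M0 (Fintype.card C : ℝ) hCls
        (cap G U L p c 0) v m hB
      obtain ⟨c1, c2⟩ := hCmp V C G U L p s c (cap G U L p c 0) η' (2 * (1 + M0))
        (2 * Real.exp 2 * Real.exp (-(1 / (8 * (M0 * (M0 + 2) + 1) ^ 2) * m))) m hG hz0 hη'0.le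
        hη'1 hm (by positivity) (by positivity)
        (fun k kp hk hkp => hL V C G U L p s hq2 hse hG hPo c hAd k kp hk hkp) v hv k1 k2
      refine ⟨c1, c2.trans ?_⟩
      refine mul_le_mul_of_nonneg_right ?_ hmg
      linarith
  exact ⟨fun v hv c => (key v hv c).1, fun v hv c => (key v hv c).2⟩

end Pool.Agent.Loc26
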