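import Pool.Agent.Lib.MP_26a019_lc.Ex.Top
import Pool.Agent.Lib.MP_26a019_lc.Ex.GasSpec

set_option autoImplicit false
set_option linter.unusedSectionVars false
set_option linter.unusedVariables false

/-!
# Colourings as hard-core gases with random activities: definitions and basic facts

`G, U, L, p` an instance, `c` a colour. `σ` is a colouring which does not use the colour `c`,
`S` the set of vertices which are recoloured with `c`.
-/

open Finset Classical

namespace Pool.Agent.Loc26

open Pool.Agent.Kempe Pool.Agent.KempeMix Pool.Agent.Eps26 Pool.Agent.Gas26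
open Pool.Agent.Ex26 (rst ev2)

variable {V C : Type} [Fintype V] [Fintype C]

/-- lists without the colour `c` -/
noncomputable def Lc (L : V → Finset C) (c : C) (v : V) : Finset C := (L v).erase c

/-- the vertices of `U` with colour `c` -/
noncomputable def Ic (U : Finset V) (c : C) (f : V → C) : Finset V := U.filter (fun u => f u = c)

/-- recolour the set `S` with `c` -/
noncomputable def rc (σ : V → C) (S : Finset V) (c : C) (v : V) : C := if v ∈ S then c else σ v

/-- the number of colours which are available at `u` for `σ`, without `c` and without `Dl u` -/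
noncomputable def Bn (G : SimpleGraph V) (U : Finset V) (L : V → Finset C) (c : C)
    (Dl : V → Finset C) (σ : V → C) (u : V) : ℝ :=
  ((av G U (Lc L c) σ u \ Dl u).card : ℝ)

/-- the activities of the colour `c`, given the colouring `σ` -/
noncomputable def wD (G : SimpleGraph V) (U : Finset V) (L : V → Finset C) (c : C)
    (Dl : V → Finset C) (σ : V → C) (u : V) : ℝ :=
  if u ∈ U ∧ c ∈ L u ∧ σ u ∉ Dl u then 1 / Bn G U L c Dl σ u else 0

/-- mean over the colourings `σ` without `c`, weighted by the partition functions -/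
noncomputable def ms (G : SimpleGraph V) (U : Finset V) (L : V → Finset C) (p : V → C) (c : C)
    (Dl : V → Finset C) (F : (V → C) → ℝ) : ℝ :=
  (∑ σ ∈ Col G U (Lc L c) p, Zp (rst G U) (wD G U L c Dl σ) * F σ) /
    ∑ σ ∈ Col G U (Lc L c) p, Zp (rst G U) (wD G U L c Dl σ)

/-- mean number of available colours -/
noncomputable def bt (G : SimpleGraph V) (U : Finset V) (L : V → Finset C) (p : V → C) (v : V) :
    ℝ := ev (Col G U L p) (fun f => ((av G U L f v).card : ℝ))

/-- `(1+δ)/β_v` on the vertices which may have the colour `c`, `0` elsewhere -/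
noncomputable def cap (G : SimpleGraph V) (U : Finset V) (L : V → Finset C) (p : V → C) (c : C)
    (δ : ℝ) (v : V) : ℝ :=
  if v ∈ U ∧ c ∈ L v then (1 + δ) / bt G U L p v else 0

/-- local functions at `u`: they depend only on the colours of the neighbours of `u`, and change by
at most `1` if one colour is changed -/
def LL (G : SimpleGraph V) (U : Finset V) (u : V) (g : (V → C) → ℝ) : Prop :=
  (∀ f v a, |g (Function.update f v a) - g f| ≤ 1) ∧
    ∀ f v a, v ∉ nb G U u → g (Function.update f v a) = g f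

/-- probability that `Ic` has the pattern `kp` on the closed neighbourhood of `k` -/
noncomputable def pm (G : SimpleGraph V) (U : Finset V) (L : V → Finset C) (p : V → C) (c : C)
    (k kp : Finset V) : ℝ :=
  ev (Col G U L p) (fun f => if Ic U c f ∩ CN (rst G U) k = kp then 1 else 0)

/-! ### Basic facts -/

section basic

variable {G : SimpleGraph V} {U : Finset V} {L : V → Finset C} {p : V → C} {c : C}
  {Dl : V → Finset C} {σ : V → C} {s : ℕ}

theorem Bn_nonneg (u : V) : 0 ≤ Bn G U L c Dl σ u := by unfold Bn; positivity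

theorem wD_nonneg : ∀ u, 0 ≤ wD G U L c Dl σ u := by
  intro u
  unfold wD
  split_ifs
  · exact div_nonneg zero_le_one (Bn_nonneg u)
  · exact le_rfl

theorem av_Lc (f : V → C) (u : V) : av G U (Lc L c) f u = (av G U L f u).erase c := by
  ext a
  simp only [av, Lc, Finset.mem_filter, Finset.mem_erase]
  tauto

/-- number of colours for `σ`, in terms of the slack -/
theorem Bn_ge (hG : Good G U L s) {u : V} (hu : u ∈ U) (hD : (Dl u).card + 1 ≤ s) :
    (s : ℝ) - 1 - ((Dl u).card : ℝ) ≤ Bn G U L c Dl σ u := by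
  have h1 : s ≤ (av G U L σ u).card := card_av hG hu σ
  have h2 : (av G U L σ u).card ≤ ((av G U L σ u).erase c).card + 1 := by
    have := Finset.pred_card_le_card_erase (s := av G U L σ u) (a := c)
    omega
  have h3 : ((av G U L σ u).erase c).card ≤ ((av G U L σ u).erase c \ Dl u).card + (Dl u).card := by
    have := Finset.le_card_sdiff (Dl u) ((av G U L σ u).erase c)
    omega
  unfold Bn
  rw [av_Lc]
  have h4 : s ≤ ((av G U L σ u).erase c \ Dl u).card + (Dl u).card + 1 := by omega
  have h5 : (s : ℝ) ≤ (((av G U L σ u).erase c \ Dl u).card : ℝ) + ((Dl u).card : ℝ) + 1 := by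
    exact_mod_cast h4
  linarith

theorem Bn_pos (hG : Good G U L s) {u : V} (hu : u ∈ U) (hD : (Dl u).card + 2 ≤ s) :
    1 ≤ Bn G U L c Dl σ u := by
  have h := Bn_ge (σ := σ) (c := c) hG hu (by omega : (Dl u).card + 1 ≤ s)
  have h2 : ((Dl u).card : ℝ) + 2 ≤ s := by exact_mod_cast hD
  linarith

/-- the activities without deleted colours are at most `1/(s-1)` -/
theorem wD_le (hG : Good G U L s) (u : V) :
    wD G U L c (fun _ => ∅) σ u ≤ 1 / ((s : ℝ) - 1) := by
  have hs : (2 : ℝ) ≤ s := by exact_mod_cast hG.1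
  unfold wD
  split_ifs with h
  · have h1 := Bn_ge (σ := σ) (c := c) (Dl := fun _ => (∅ : Finset C)) hG h.1
      (by simp only [Finset.card_empty]; exact le_trans (by norm_num) hG.1)
    simp only [Finset.card_empty, Nat.cast_zero, sub_zero] at h1
    exact one_div_le_one_div_of_le (by linarith) h1
  · exact div_nonneg zero_le_one (by linarith)

theorem ms_den_pos (hne : (Col G U (Lc L c) p).Nonempty) :
    0 < ∑ σ ∈ Col G U (Lc L c) p, Zp (rst G U) (wD G U L c Dl σ) :=
  Finset.sum_pos (fun σ _ => Zp_pos wD_nonneg) hne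

theorem ms_add (F F' : (V → C) → ℝ) : ms G U L p c Dl (fun σ => F σ + F' σ) =
    ms G U L p c Dl F + ms G U L p c Dl F' := by
  unfold ms
  rw [← add_div, ← Finset.sum_add_distrib]
  simp only [mul_add]

theorem ms_sub (F F' : (V → C) → ℝ) : ms G U L p c Dl (fun σ => F σ - F' σ) =
    ms G U L p c Dl F - ms G U L p c Dl F' := by
  unfold ms
  rw [← sub_div, ← Finset.sum_sub_distrib]
  simp only [mul_sub]

theorem ms_mul_left (t : ℝ) (F : (V → C) → ℝ) : ms G U L p c Dl (fun σ => t * F σ) =
    t * ms G U L p c Dl F := by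
  unfold ms
  rw [← mul_div_assoc, Finset.mul_sum]
  congr 1
  exact Finset.sum_congr rfl fun S _ => by ring

theorem ms_sum {ι : Type} (T : Finset ι) (F : ι → (V → C) → ℝ) :
    ms G U L p c Dl (fun σ => ∑ i ∈ T, F i σ) = ∑ i ∈ T, ms G U L p c Dl (F i) := by
  unfold ms
  rw [← Finset.sum_div, Finset.sum_comm]
  simp only [Finset.mul_sum]

theorem ms_const (hne : (Col G U (Lc L c) p).Nonempty) (t : ℝ) :
    ms G U L p c Dl (fun _ => t) = t := by
  unfold ms
  rw [← Finset.sum_mul]
  have := (ms_den_pos (Dl := Dl) hne).ne'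
  field_simp

theorem ms_mono {F F' : (V → C) → ℝ} (h : ∀ σ ∈ Col G U (Lc L c) p, F σ ≤ F' σ) :
    ms G U L p c Dl F ≤ ms G U L p c Dl F' := by
  unfold ms
  refine div_le_div_of_nonneg_right (Finset.sum_le_sum fun σ hσ => ?_)
    (Finset.sum_nonneg fun σ _ => (Zp_pos wD_nonneg).le)
  exact mul_le_mul_of_nonneg_left (h σ hσ) (Zp_pos wD_nonneg).le

theorem ms_congr {F F' : (V → C) → ℝ} (h : ∀ σ ∈ Col G U (Lc L c) p, F σ = F' σ) :
    ms G U L p c Dl F = ms G U L p c Dl F' :=
  le_antisymm (ms_mono fun σ hσ => (h σ hσ).le) (ms_mono fun σ hσ => (h σ hσ).ge)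

theorem ms_nonneg {F : (V → C) → ℝ} (h : ∀ σ ∈ Col G U (Lc L c) p, 0 ≤ F σ) :
    0 ≤ ms G U L p c Dl F := by
  unfold ms
  exact div_nonneg (Finset.sum_nonneg fun σ hσ => mul_nonneg (Zp_pos wD_nonneg).le (h σ hσ))
    (Finset.sum_nonneg fun σ _ => (Zp_pos wD_nonneg).le)

theorem abs_ms_le (F : (V → C) → ℝ) :
    |ms G U L p c Dl F| ≤ ms G U L p c Dl (fun σ => |F σ|) := by
  rw [abs_le]
  constructor
  · have := ms_mono (G := G) (U := U) (L := L) (p := p) (c := c) (Dl := Dl)
      (F := fun σ => (-1) * |F σ|) (F' := F) (fun S _ => by linarith [neg_abs_le (F S)])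
    rw [ms_mul_left] at this
    linarith
  · exact ms_mono (fun S _ => le_abs_self _)

/-- a set of nonzero weight -/
theorem of_wD {S : Finset V} (hS : ∀ v ∈ S, wD G U L c Dl σ v ≠ 0) :
    ∀ v ∈ S, v ∈ U ∧ c ∈ L v ∧ σ v ∉ Dl v := by
  intro v hv
  have h := hS v hv
  unfold wD at h
  by_contra hc
  exact h (if_neg hc)

theorem mem_Ic {f : V → C} {v : V} : v ∈ Ic U c f ↔ v ∈ U ∧ f v = c := by
  unfold Ic; rw [Finset.mem_filter]

theorem Ic_rc (hσ : σ ∈ Col G U (Lc L c) p) {S : Finset V} (hS : ∀ v ∈ S, v ∈ U) :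
    Ic U c (rc σ S c) = S := by
  ext v
  rw [mem_Ic]
  unfold rc
  constructor
  · rintro ⟨hv, h⟩
    by_contra hvS
    rw [if_neg hvS] at h
    have := (mem_Col.1 hσ).2.1 v hv
    rw [Lc, Finset.mem_erase] at this
    exact this.1 h
  · intro hv
    exact ⟨hS v hv, by rw [if_pos hv]⟩

theorem rst_adj {u w : V} : (rst G U).Adj u w ↔ G.Adj u w ∧ u ∈ U ∧ w ∈ U := Iff.rfl

/-- the closed neighbourhood in `G[U]` -/
theorem cn_rst {u : V} (hu : u ∈ U) : cn (rst G U) u = insert u (nb G U u) := by
  ext w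
  rw [mem_cn, Finset.mem_insert, mem_nb, rst_adj]
  constructor
  · rintro (h | h)
    · exact Or.inl h
    · exact Or.inr ⟨h.2.2, h.1⟩
  · rintro (h | h)
    · exact Or.inl h
    · exact Or.inr ⟨h.2, hu, h.1⟩

theorem cn_rst_of_notMem {u : V} (hu : u ∉ U) : cn (rst G U) u = {u} := by
  ext w
  rw [mem_cn, Finset.mem_singleton, rst_adj]
  constructor
  · rintro (h | h)
    · exact h
    · exact absurd h.2.1 hu
  · exact Or.inl

theorem card_L_le (u : V) : (L u).card ≤ Fintype.card C := Finset.card_le_univ _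

/-- closed neighbourhoods are smaller than the number of colours -/
theorem card_cn_le (hG : Good G U L s) (hq : 1 ≤ Fintype.card C) (u : V) :
    ((cn (rst G U) u).card : ℝ) ≤ (Fintype.card C : ℝ) := by
  by_cases hu : u ∈ U
  · rw [cn_rst hu]
    have h1 := hG.2 u hu
    have h2 := card_L_le (L := L) u
    have h3 := Finset.card_insert_le u (nb G U u)
    have h4 := hG.1
    exact_mod_cast (by omega : (insert u (nb G U u)).card ≤ Fintype.card C)
  · rw [cn_rst_of_notMem hu, Finset.card_singleton]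
    exact_mod_cast hq

theorem bt_ge (hG : Good G U L s) {v : V} (hv : v ∈ U) : (s : ℝ) ≤ bt G U L p v := by
  have hA : (Col G U L p).Nonempty := Col_nonempty hG p
  unfold bt
  rw [← ev_const hA (s : ℝ)]
  exact ev_mono _ fun f _ => by exact_mod_cast card_av hG hv f

theorem bt_le (hG : Good G U L s) (v : V) : bt G U L p v ≤ (Fintype.card C : ℝ) := by
  have hA : (Col G U L p).Nonempty := Col_nonempty hG p
  unfold bt
  rw [← ev_const hA (Fintype.card C : ℝ)]
  exact ev_mono _ fun f _ => by exact_mod_cast Finset.card_le_univ _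

theorem KF_mono_supp {H : SimpleGraph V} {x y : V → ℝ} (hx : ∀ v, 0 ≤ x v) (hy : ∀ v, 0 ≤ y v)
    {φ ψ : V → ℝ} (h : ∀ v, (x v ≠ 0 ∨ y v ≠ 0) → φ v ≤ ψ v) : KF H x y φ ≤ KF H x y ψ := by
  unfold KF
  refine E2_mono hx hy fun a _ ha b _ hb => Finset.sum_le_sum fun v hv => h v ?_
  rcases Finset.mem_symmDiff.1 (Ks_subset hv) with h1 | h1
  · exact Or.inl (ha v h1.1)
  · exact Or.inr (hb v h1.1)

end basic

end Pool.Agent.Loc26
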