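import Pool.Agent.Lib.MP_26a019_lc.Ex.Loc
import Pool.Agent.Lib.MP_26a019_lc.Ex.GasAll

set_option autoImplicit false
set_option linter.unusedVariables false

/-!
# Part AB, colourings: statements of the modules (MP_26a019_lc, q ≥ (1+ε)Δ, all graphs)

Every `def X : Prop` below is one closed statement. The docstring names the modules which may be
used as hypotheses: prove `theorem s_X (h1 : Y1) (h2 : Y2) : X` in the file `Ex/l_X.lean` (namespace
`Pool.Agent.Loc26`, import this file). All gas modules are proved: `Ex/g_X.lean`, imported by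
`Ex/GasAll.lean` (`s_Thin`, `s_Zlow`, `s_PPf`, `s_CluDet`, `s_KvE`, `gHJ`, `gPPb`, `gInt`, `gKvB`).
Basic lemmas: `Ex/Loc.lean` (`ms_add`, `ms_mono`, `ms_const`, `Bn_ge`, `wD_le`, `Ic_rc`, `of_wD`,
`cn_rst`, `card_cn_le`, `bt_ge`, `bt_le`, ...), `Eps/Basic.lean` (`ev_*`, `mem_Col`, `card_av`,
`Col_nonempty`, `mg_le`, `update_mem`, ...).

Symbols: `q = |C|`, `H = rst G U`, `c` a colour, `σ ∈ Col G U (Lc L c) p`, `w = wD G U L c Dl σ`,
`S` a set in the gas with activities `w`, `f = rc σ S c`. Always `S ⊆ {u ∈ U, c ∈ L u, σ u ∉ Dl u}`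
if the weight of `S` is not `0` (`of_wD`).
-/

open Finset Classical

namespace Pool.Agent.Loc26

open Pool.Agent.Kempe Pool.Agent.KempeMix Pool.Agent.Eps26 Pool.Agent.Gas26
open Pool.Agent.Ex26 (rst ev2 cl ClSmall ClTail AllPoin PartAB)

/-- **ExtS** Exact representation (no hypotheses).
Proof. A term `(σ, S)` of the right side with nonzero weight has `S ⊆ {u ∈ U : c ∈ L u, σ u ∉ Dl u}`
(`of_wD`); then `f = rc σ S c ∈ Col G U L p` (`S` is independent, no other vertex of `U` has the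
colour `c`) and `Ic U c f = S` (`Ic_rc`). Group the terms according to `f`: the right side is
`∑_{f ∈ Col} Ψ f * N f`, `N f = ∑ {gw (wD σ) S : σ ∈ Col G U (Lc L c) p, rc σ S c = f}`, `S = Ic U c f`.
Claim `N f = 1`. Let `A u = av G U (Lc L c) f u \ Dl u`. The neighbours in `U` of `u ∈ S` are not in
`S` (`f` is proper), so for `σ` with `rc σ S c = f` we have `av G U (Lc L c) σ u \ Dl u = A u` for
`u ∈ S`. The `σ ∈ Col G U (Lc L c) p` with `rc σ S c = f` and `σ u ∉ Dl u` on `S` are exactly the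
functions with `σ v = f v` for `v ∉ S` and `σ u ∈ A u` for `u ∈ S`:
`Fintype.piFinset (fun v => if v ∈ S then A v else {f v})`, with `∏_{u∈S} |A u|` elements
(`Fintype.card_piFinset`), and each has the weight `∏_{u∈S} 1/|A u|`; `|A u| ≥ 1` by `Bn_pos`. -/
def ExtS : Prop :=
  ∀ (V C : Type) [Fintype V] [Fintype C] (G : SimpleGraph V) (U : Finset V) (L : V → Finset C)
    (p : V → C) (s : ℕ) (c : C) (Dl : V → Finset C), Good G U L s →
    (∀ u ∈ U, (Dl u).card + 2 ≤ s) → ∀ Ψ : (V → C) → ℝ,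
    ∑ f ∈ Col G U L p, Ψ f =
      ∑ σ ∈ Col G U (Lc L c) p, ∑ S ∈ IS (rst G U), gw (wD G U L c Dl σ) S * Ψ (rc σ S c)

/-- **Ext** (hypothesis `ExtS`). Representation of the uniform law on the colourings.
Proof. `ExtS` for `Ψ` and for `1` (the second gives `|Col G U L p| = ∑_σ Zp`); the inner sum is
`Zp * Eg` (`Zp_pos`). -/
def Ext : Prop :=
  ∀ (V C : Type) [Fintype V] [Fintype C] (G : SimpleGraph V) (U : Finset V) (L : V → Finset C)
    (p : V → C) (s : ℕ) (c : C) (Dl : V → Finset C), Good G U L s →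
    (∀ u ∈ U, (Dl u).card + 2 ≤ s) → ∀ Ψ : (V → C) → ℝ,
    ev (Col G U L p) Ψ =
      ms G U L p c Dl (fun σ => Eg (rst G U) (wD G U L c Dl σ) (fun S => Ψ (rc σ S c)))

/-- **Err1** (hypothesis `Ext`). Proof. `Ext` with `Ψ f = 1[f u ∈ Dl u]`. If `σ u ∈ Dl u` then
`wD σ u = 0`, so `u ∉ S` for all `S` of nonzero weight and `rc σ S c u = σ u ∈ Dl u`. So
`1[σ u ∈ Dl u] ≤ Eg (1[rc σ S c u ∈ Dl u])` (`Eg_mono`, `Eg_const`), and with `ms_mono` the left side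
is at most `ev (1[f u ∈ Dl u]) = ∑_{a ∈ Dl u} mg (Col G U L p) u a ≤ |Dl u| / s` (`mg_le`). -/
def Err1 : Prop :=
  ∀ (V C : Type) [Fintype V] [Fintype C] (G : SimpleGraph V) (U : Finset V) (L : V → Finset C)
    (p : V → C) (s : ℕ) (c : C) (Dl : V → Finset C), Good G U L s →
    (∀ u ∈ U, (Dl u).card + 2 ≤ s) → ∀ u ∈ U,
    ms G U L p c Dl (fun σ => if σ u ∈ Dl u then 1 else 0) ≤ ((Dl u).card : ℝ) / s

/-- **Err2** (hypothesis `Ext`). Proof. `Ext` with `Ψ f = 1[t < |av G U L f u \ Dl u|]`. For all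
`σ` and all `S` of nonzero weight `av G U (Lc L c) σ u ⊆ av G U L (rc σ S c) u` (a colour `a ≠ c` not
used by `σ` on the neighbours of `u` is not used by `rc σ S c`). So
`1[t < Bn σ u] ≤ Eg (Ψ (rc σ · c))` (`Eg_mono`, `Eg_const`). `ms_mono`. -/
def Err2 : Prop :=
  ∀ (V C : Type) [Fintype V] [Fintype C] (G : SimpleGraph V) (U : Finset V) (L : V → Finset C)
    (p : V → C) (s : ℕ) (c : C) (Dl : V → Finset C), Good G U L s →
    (∀ u ∈ U, (Dl u).card + 2 ≤ s) → ∀ u ∈ U, ∀ t : ℝ,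
    ms G U L p c Dl (fun σ => if t < Bn G U L c Dl σ u then 1 else 0) ≤
      ev (Col G U L p) (fun f => if t < ((av G U L f u \ Dl u).card : ℝ) then 1 else 0)

/-- **Low** (hypothesis `Ext`). Every colour of the list is available with probability at least
`e^{-2/ε}`. Proof. `Ext` with the colour `c = a`, `Dl = ∅`, `Ψ f = 1[a ∈ av G U L f u]`. For `S` of
nonzero weight, `rc σ S a` has the colour `a` in `U` exactly on `S` (`Ic_rc`), so
`Ψ (rc σ S a) = 1` if `Disjoint S (nb G U u)`. `Eg w (1[Disjoint S (nb u)]) =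
Zp (off w (nb u)) / Zp w` (`gw_off`) `≥ exp (-∑_{nb u} w)` (`s_Zlow`), `w ≤ 1/(s-1) ≤ 2/s` (`wD_le`),
`|nb u| ≤ |C| ≤ s/ε`. `ms_mono`, `ms_const` (`Col G U (Lc L a) p` is nonempty: `Good G U (Lc L a)
(s-1)`, `3 ≤ s`, `Col_nonempty`). -/
def Low : Prop :=
  ∀ (V C : Type) [Fintype V] [Fintype C] (G : SimpleGraph V) (U : Finset V) (L : V → Finset C)
    (p : V → C) (s : ℕ) (ε : ℝ), 0 < ε → 3 ≤ s → ε * (Fintype.card C : ℝ) ≤ s → Good G U L s →
    ∀ u ∈ U, ∀ a ∈ L u,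
    Real.exp (-(2 / ε)) ≤ ev (Col G U L p) (fun f => if a ∈ av G U L f u then 1 else 0)

/-- **LLav** (no hypotheses). The number of available colours outside `D` and the number of
neighbours with colour `c` are local functions. Proof. Let `f' = update f v a`. `nb`, `av` at `u`
depend only on the colours of the `w ∈ nb G U u` (`u` itself is not in `nb G U u`). If `v ∈ nb G U u`:
`av f' u ⊆ insert (f v) (av f u)`, `av f u ⊆ insert a (av f' u)`, so the cardinalities of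
`av \ D` differ by at most `1`; `nb G U u ∩ Ic U c f` and `nb G U u ∩ Ic U c f'` differ at most by the
element `v`. -/
def LLav : Prop :=
  ∀ (V C : Type) [Fintype V] [Fintype C] (G : SimpleGraph V) (U : Finset V) (L : V → Finset C)
    (u : V) (D : Finset C) (c : C),
    LL G U u (fun f => ((av G U L f u \ D).card : ℝ)) ∧
      LL G U u (fun f => ((nb G U u ∩ Ic U c f).card : ℝ))

/-- **DirL** (no hypotheses). Dirichlet form of powers of local functions. Proof.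
`dir = ∑_{v ∈ U} ev ((h^k - hb v (h^k))^2)`. If `v ∉ nb G U u`, `h (update f v a) = h f` and
`hb v (h^k) = h^k` (`av` is nonempty: `av_pos` or `card_av`), the term is `0`. If `v ∈ nb G U u`,
`h^k f - hb v (h^k) f` is an average over `a ∈ av G U L f v` of `h f ^ k - h (update f v a) ^ k`,
of absolute value at most `k (|h f| + 1)^(k-1)` (`|x^k - y^k| ≤ k |x - y| max(|x|,|y|)^(k-1)`,
`|y| ≤ |x| + 1`); square it. There are at most `|nb G U u| ≤ q` such `v`. -/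
def DirL : Prop :=
  ∀ (V C : Type) [Fintype V] [Fintype C] (G : SimpleGraph V) (U : Finset V) (L : V → Finset C)
    (p : V → C) (s : ℕ), Good G U L s → ∀ u ∈ U, ∀ h : (V → C) → ℝ, LL G U u h → ∀ k : ℕ, 1 ≤ k →
    dir G U L p (fun f => h f ^ k) ≤
      (k : ℝ) ^ 2 * (Fintype.card C : ℝ) *
        ev (Col G U L p) (fun f => (|h f| + 1) ^ (2 * (k - 1)))

/-- **MomS** (hypothesis `DirL`). One step of the moment recursion. Proof. `A = Col G U L p`.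
`ev h^{2k} = vr (h^k) + (ev h^k)^2` (`vr_eq`), `vr (h^k) ≤ P dir (h^k) ≤ T ev ((|h|+1)^{2(k-1)})`,
`T = P k^2 q`. Pointwise `(|x|+1)^{2(k-1)} ≤ 4^{k-1} (x^{2(k-1)} + 1)` (`|x| + 1 ≤ 2 max(|x|,1)`), and
`T' x^{2(k-1)} ≤ x^{2k}/2 + (2T')^k` for `T' = 4^{k-1} T ≥ 0` (if `x^2 ≥ 2T'` the left side is at most
`x^{2k}/2`, else at most `T' (2T')^{k-1}`). So `ev h^{2k} ≤ ev h^{2k} / 2 + (2T')^k + T' + (ev h^k)^2`,
`(2T')^k + T' ≤ (K/2) q^k` with `K = 2 ((2 * 4^(k-1) P k^2)^k + 4^(k-1) P k^2)` (`1 ≤ q`). -/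
def MomS : Prop :=
  ∀ (P : ℝ) (k : ℕ), 0 < P → 1 ≤ k → ∃ K : ℝ, 0 < K ∧
    ∀ (V C : Type) [Fintype V] [Fintype C] (G : SimpleGraph V) (U : Finset V) (L : V → Finset C)
      (p : V → C) (s : ℕ), Good G U L s → Poin G U L p P → ∀ u ∈ U, ∀ h : (V → C) → ℝ, LL G U u h →
      ev (Col G U L p) (fun f => h f ^ (2 * k)) ≤
        2 * (ev (Col G U L p) (fun f => h f ^ k)) ^ 2 + K * (Fintype.card C : ℝ) ^ k

/-- **TailG** (hypothesis `MomS`). Tails of local functions. Proof. `h = g - ev g` is local and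
`ev h = 0`. Induction on `j`: `ev (h^(2^(j+1))) ≤ K_j q^(2^j)`: for `j = 0` `MomS` with `k = 1`; for
`j + 1` `MomS` with `k = 2^(j+1)` and `(K_j q^(2^j))^2 = K_j^2 q^(2^(j+1))`. Take `j = a` (`a ≤ 2^a`):
`1[t q ≤ |h|] ≤ h^(2^(a+1)) / (t q)^(2^(a+1))`, so the left side is at most
`K_a q^(2^a) / (t q)^(2^(a+1)) = K_a t^(-2^(a+1)) q^(-2^a) ≤ K / q^a` (`1 ≤ q`: the list of `u` is not
empty). -/
def TailG : Prop :=
  ∀ (P t : ℝ) (a : ℕ), 0 < P → 0 < t → ∃ K : ℝ, 0 < K ∧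
    ∀ (V C : Type) [Fintype V] [Fintype C] (G : SimpleGraph V) (U : Finset V) (L : V → Finset C)
      (p : V → C) (s : ℕ), Good G U L s → Poin G U L p P → ∀ u ∈ U, ∀ g : (V → C) → ℝ, LL G U u g →
      ev (Col G U L p)
        (fun f => if t * (Fintype.card C : ℝ) ≤ |g f - ev (Col G U L p) g| then 1 else 0) ≤
        K / (Fintype.card C : ℝ) ^ a

/-- **Cheb** (hypotheses `LLav`, `DirL`, `Low`). Proof. `g f = |av f u \ D|` is local (`LLav`) and
`vr g ≤ P dir g ≤ P q` (`DirL` with `k = 1`). `g = |av f u| - ∑_{a ∈ D} 1[a ∈ av f u]`, so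
`ev g ≤ bt u - e^{-2/ε} |D|` (`Low`, `D ⊆ L u`). `bt u / (1+δ) ≥ bt u (1 - δ) ≥ bt u - δ q` (`bt_le`).
So `bt u / (1+δ) < g f` implies `g f - ev g > e^{-2/ε}|D| - δ q ≥ τ q`, and Chebyshev gives
`≤ P q / (τ q)^2`. -/
def Cheb : Prop :=
  ∀ (V C : Type) [Fintype V] [Fintype C] (G : SimpleGraph V) (U : Finset V) (L : V → Finset C)
    (p : V → C) (s : ℕ) (ε δ τ P : ℝ), 0 < ε → 0 ≤ δ → 0 < τ → 0 < P → 3 ≤ s →
    ε * (Fintype.card C : ℝ) ≤ s → Good G U L s → Poin G U L p P → ∀ u ∈ U, ∀ D : Finset C,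
    D ⊆ L u →
    τ * (Fintype.card C : ℝ) + δ * (Fintype.card C : ℝ) ≤ Real.exp (-(2 / ε)) * (D.card : ℝ) →
    ev (Col G U L p)
      (fun f => if bt G U L p u / (1 + δ) < ((av G U L f u \ D).card : ℝ) then 1 else 0) ≤
      P / (τ ^ 2 * (Fintype.card C : ℝ))

/-- **AvC** (hypothesis `Ext`). The three replica inequality averaged over the colourings without
`c`. Proof. For `σ ∈ Col G U (Lc L c) p` apply `gHJ` with `w = wD σ` and
`Tp = {u ∈ U : c ∈ L u, σ u ∉ Dl u, 0 < κ u, κ u * Bn σ u ≤ 1}` (there `w u = 1/Bn σ u ≥ κ u`,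
`Bn ≥ 1 > 0` by `Bn_pos`; `x, y ≤ κ`). By `KF_eq_sum` the left side is `∑_u φ_σ u * P(u ∈ K)` (check
the form of `KF_eq_sum`), linear in `φ_σ`: apply `ms` to both sides (`ms_mono`, `ms_sum`,
`ms_mul_left`, `ms_sub`) and `Ext` with `Ψ f = |cn u ∩ Ic U c f|`, `Ψ f = |Ic U c f ∩ DD x y|`
(`Ic_rc`, `Eg_congr`: for `S` of nonzero weight `Ic U c (rc σ S c) = S`). -/
def AvC : Prop :=
  (∀ (V : Type) [Fintype V], Hineq V) →
  ∀ (V C : Type) [Fintype V] [Fintype C] (G : SimpleGraph V) (U : Finset V) (L : V → Finset C)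
    (p : V → C) (s : ℕ) (c : C) (Dl : V → Finset C) (κ x y : V → ℝ), Good G U L s →
    (∀ u ∈ U, (Dl u).card + 2 ≤ s) → Btw κ x → Btw κ y → Pair x y →
    KF (rst G U) x y (fun u =>
      ms G U L p c Dl (fun σ => if u ∈ U ∧ c ∈ L u ∧ σ u ∉ Dl u ∧ 0 < κ u ∧
        κ u * Bn G U L c Dl σ u ≤ 1 then 1 else 0) -
      ev (Col G U L p) (fun f => ((cn (rst G U) u ∩ Ic U c f).card : ℝ))) ≤
    ev (Col G U L p) (fun f => ((Ic U c f ∩ DD x y).card : ℝ))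

/-- **SumC** (hypotheses `Err1`, `Err2`, `AvC`). Proof. Sum `AvC` over all colours `c`
(`KF_sum`). Right side: `∑_c |Ic U c f ∩ DD| = |U ∩ DD| ≤ |DD|` (every vertex has one colour;
`Col_nonempty`, `ev_const`, `ev_mono`). Left side: `KF_mono_supp`; let `x u ≠ 0` or `y u ≠ 0`, so
`0 < κ u` and `u ∈ U`. `∑_c |cn u ∩ Ic U c f| = |cn u ∩ U| = |nb G U u| + 1` (`cn_rst`). For
`c ∈ L u`: `1[σ u ∉ Dl u ∧ κ u * Bn ≤ 1] ≥ 1 - 1[σ u ∈ Dl u] - 1[1/κ u < Bn]`, so with `ms_const`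
(`Good G U (Lc L c) (s-1)`, `Col_nonempty`), `Err1`, `Err2` the sum over `c` is at least
`|L u| - q |Dl u|/s - q ev (1[1/κ u < |av f u \ Dl u|])` (`|L u| ≤ q`, the error terms are `≥ 0`). -/
def SumC : Prop :=
  (∀ (V : Type) [Fintype V], Hineq V) →
  ∀ (V C : Type) [Fintype V] [Fintype C] (G : SimpleGraph V) (U : Finset V) (L : V → Finset C)
    (p : V → C) (s : ℕ) (Dl : V → Finset C) (κ x y : V → ℝ), 3 ≤ s → Good G U L s →
    (∀ u ∈ U, (Dl u).card + 2 ≤ s) → Btw κ x → Btw κ y → Pair x y → (∀ v, 0 < κ v → v ∈ U) →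
    KF (rst G U) x y (fun u => ((L u).card : ℝ)
      - (Fintype.card C : ℝ) * ((Dl u).card : ℝ) / s
      - (Fintype.card C : ℝ) *
        ev (Col G U L p) (fun f => if 1 / κ u < ((av G U L f u \ Dl u).card : ℝ) then 1 else 0)
      - (((nb G U u).card : ℝ) + 1)) ≤ ((DD x y).card : ℝ)

/-- **AdmP** (hypotheses `SumC`, `Cheb`). The first moment bound `Adm` for the gases of colourings.
Proof. `c1 = e^{-2/ε}`, `γ = ε^2/8`, `δ = c1 γ / 8` (`≤ 1/2`), `τ = c1 γ / 4`. `Dl u ⊆ L u` with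
`|Dl u| = n0 = ⌊γ q⌋` for `u ∈ U` (`Finset.exists_subset_card_eq`; `n0 ≤ s ≤ |L u|`), `∅` for
`u ∉ U`; `n0 + 2 ≤ s` and `n0 ≥ γ q / 2`, `4 ≤ s` for `q ≥ q0`. Let `κ = cap δ`
(`1/κ u = bt u / (1+δ)` on its support). For `u` with `0 < κ u` the function in `SumC` is at least
`|L u| - |nb u| - 1 - q γ q / s - q P/(τ^2 q) ≥ s - 1 - s/8 - P/τ^2 ≥ s/2` (`q^2 γ/s ≤ s/8` because
`ε q ≤ s`; `Cheb`: `τ q + δ q ≤ c1 γ q/2 ≤ c1 n0`; `P/τ^2 ≤ s/8` and `1 ≤ s/8` for `q ≥ q0`). So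
`(s/2) KF x y 1 ≤ |DD x y|` (`KF_mono_supp`, `KF_mul_left`) and `2/s ≤ (2/ε)/q`. (If `q = 0` then
`q0 ≥ 1` excludes it.) -/
def AdmP : Prop :=
  (∀ (V : Type) [Fintype V], Hineq V) →
  ∀ ε : ℝ, 0 < ε → ε ≤ 1 → ∃ δ : ℝ, 0 < δ ∧ δ ≤ 1 / 2 ∧ ∀ P : ℝ, 0 < P → ∃ q0 : ℕ,
    ∀ (V C : Type) [Fintype V] [Fintype C] (G : SimpleGraph V) (U : Finset V) (L : V → Finset C)
      (p : V → C) (s : ℕ), q0 ≤ Fintype.card C → ε * (Fintype.card C : ℝ) ≤ s → Good G U L s →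
      Poin G U L p P → ∀ c : C,
      Adm (rst G U) (cap G U L p c δ) (2 / ε) (Fintype.card C : ℝ)

/-- balls around `k`: `Bl 0 = CN k`, `Bl (i+1) = CN (Bl i)` -/
noncomputable def Bl {V : Type} [Fintype V] (G : SimpleGraph V) (k : Finset V) : ℕ → Finset V
  | 0 => CN G k
  | i + 1 => CN G (Bl G k i)

/-- level of a vertex (distance to `CN k`, capped at `n`) -/
noncomputable def lv {V : Type} [Fintype V] (G : SimpleGraph V) (k : Finset V) (n : ℕ) (v : V) :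
    ℕ := ((Finset.range n).filter (fun i => v ∉ Bl G k i)).card

/-- **Ball** (no hypotheses). Proof. `X ⊆ CN G X` (`self_mem_cn`), so `Bl` is increasing and
`{i < n : v ∉ Bl i}` is an initial segment of `ℕ`: `lv ≤ i ↔ v ∈ Bl i` for `i < n`. If
`v ∈ Bl G k i`, `w ∈ cn G v`, then `w ∈ Bl G k (i+1)`; so `lv` is Lipschitz. Cardinality:
`|CN G X| ≤ ∑_{v∈X} |cn G v| ≤ q |X|`. -/
def Ball : Prop :=
  ∀ (V : Type) [Fintype V] (G : SimpleGraph V) (k : Finset V) (n : ℕ) (q : ℝ), 0 ≤ q →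
    (∀ v, ((cn G v).card : ℝ) ≤ q) →
    Lip G (lv G k n) ∧ (∀ v ∈ CN G k, lv G k n v = 0) ∧
      (∀ i, i < n → ∀ v, lv G k n v ≤ i ↔ v ∈ Bl G k i) ∧
      (∀ i, ((Bl G k i).card : ℝ) ≤ q ^ (i + 1) * (k.card : ℝ)) ∧
      (∀ i j, i ≤ j → Bl G k i ⊆ Bl G k j) ∧
      (∀ i v w, v ∈ Bl G k i → w ∈ cn G v → w ∈ Bl G k (i + 1))

/-- **LocZ** (hypothesis `Ball`). Pattern probabilities of a gas whose activities are close to `zb`
near `k` and arbitrary far away. Proof. `R = Bl G k (r+1)`, `w1 = w` on `R`, `0` elsewhere,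
`w2 = w - w1`. `s_Thin` with `Φ S = 1[S ∩ CN k = kp]` and with `Φ = 1`: for `T ∈ IS G` with
`gw w2 T ≠ 0` we have `T ∩ R = ∅`, so `Φ (T ∪ J) = Φ J` (`CN k ⊆ R`) and
`PP w = (∑_T gw w2 T * Zp z_T * PP z_T) / (∑_T gw w2 T * Zp z_T)`, `z_T = off w1 (CN G T)`. So it
is enough to prove the claim for every `z_T`. For `v ∈ Bl G k r`: `z_T v = w v` (if
`v ∈ CN G T`, an element of `T` would be in `Bl G k (r+1)`). For `v ∈ R`: `z_T v ∈ {0, w v}`; outside
`R` it is `0`. So `Btw κ z_T`, `|z_T v - zb v| ≤ δ zb v ≤ δ K0/q` for `lv G k (r+2) v ≤ r`, and `gInt`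
(`lev = lv G k (r+2)`, `e = δ`) gives `|log PP z_T - log PP zb| ≤ E` with
`E = 2 K0 M |k| (δ + θ^r) + 2 δ |k|` (`|log (w v) - log (zb v)| ≤ 2δ` for `|w v - zb v| ≤ δ zb v`,
`δ ≤ 1/2`; `|kp| ≤ |k|`). `PP > 0` for both (`gPPb`), so `e^{-E} PP zb ≤ PP z_T ≤ e^E PP zb` and
`e^{-E} ≥ 2 - e^E`. -/
def LocZ : Prop :=
  ∀ (V : Type) [Fintype V] (G : SimpleGraph V) (κ : V → ℝ) (K0 M q : ℝ), Cls G κ K0 M q →
  ∀ (zb w : V → ℝ) (k kp : Finset V) (r : ℕ) (δ : ℝ), Btw κ zb → (∀ v, 0 ≤ w v) → 0 ≤ δ →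
    δ ≤ 1 / 2 → kp ⊆ k → kp ∈ IS G → (∀ v ∈ kp, 0 < zb v) →
    (∀ v ∈ Bl G k (r + 1), w v ≤ κ v ∧ |w v - zb v| ≤ δ * zb v) →
    |PP G w k kp - PP G zb k kp| ≤
      (Real.exp (2 * K0 * M * (k.card : ℝ) * (δ + (M / (1 + M)) ^ r) + 2 * δ * (k.card : ℝ)) - 1) *
        PP G zb k kp

/-- **Bad** (hypotheses `Ext`, `LLav`, `TailG`). The activities are close to `1/β` with high
probability. `Dl = ∅`, `B σ = Bn G U L c ∅ σ v`, `w σ v = 1 / B σ`, `β = bt v`. Proof. For `S` of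
nonzero weight and `f = rc σ S c`: `av G U (Lc L c) σ v ⊆ av G U L f v`, and
`av G U L f v ⊆ av G U (Lc L c) σ v ∪ {c} ∪ {σ w : w ∈ nb G U v ∩ S}`, so
`|B σ - A f| ≤ 1 + N f`, `A f = |av G U L f v|`, `N f = |nb G U v ∩ Ic U c f|` (`Ic_rc`).
If `|1/B - 1/β| > δ/β` then `|B - β| > δ B ≥ δ s/2 ≥ δ ε q/2` (`B ≥ s - 1 ≥ s/2`, `Bn_ge`). `ev N =
∑_{w ∈ nb v} mg w c ≤ q/s ≤ 1/ε`. Let `t = δ ε/8` and `q0` so large that `1 + 1/ε ≤ δ ε q/4`: then
`t q ≤ |A f - β|` or `t q ≤ |N f - ev N|`. By `Ext` and `TailG` (both functions are local, `LLav` with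
`D = ∅`: `av \ ∅ = av`) the left side is at most `2 K / q^a`. (`Eg_mono`, `ms_mono` as in `Err2`.) -/
def Bad : Prop :=
  ∀ (ε P δ : ℝ) (a : ℕ), 0 < ε → 0 < P → 0 < δ → ∃ (K : ℝ) (q0 : ℕ), 0 < K ∧
    ∀ (V C : Type) [Fintype V] [Fintype C] (G : SimpleGraph V) (U : Finset V) (L : V → Finset C)
      (p : V → C) (s : ℕ), q0 ≤ Fintype.card C → ε * (Fintype.card C : ℝ) ≤ s → Good G U L s →
      Poin G U L p P → ∀ c : C, ∀ v ∈ U, c ∈ L v →
      ms G U L p c (fun _ => ∅) (fun σ =>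
        if δ / bt G U L p v < |wD G U L c (fun _ => ∅) σ v - 1 / bt G U L p v| then 1 else 0) ≤
        K / (Fintype.card C : ℝ) ^ a

/-- **LocI** (hypotheses `Ext`, `Bad`, `Ball`, `LocZ`). Local law of a colour class.
`H = rst G U`, `zb = cap 0` (`1/bt v` on `V_c = {v ∈ U : c ∈ L v}`), `κ = cap δ`, `P0 = PP H zb k kp`,
`K0 = M = 2/ε`; `Cls H κ K0 M q` holds (`card_cn_le`, `(1+δ)/bt v ≤ 2/s ≤ K0/q` by `bt_ge`).
Proof. (0) If `kp` is not independent in `H` or `kp ⊄ V_c`, both `pm` and `P0` are `0` (a set `S`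
with `S ∩ CN k = kp` contains `kp`). (1) Choose `r` and `δ' ≤ δ` with
`exp (2 K0 M m (δ' + θ^r) + 2 δ' m) - 1 ≤ η/2`, `θ = M/(1+M) < 1`. (2) `Ext` with `Dl = ∅` and `Ic_rc`:
`pm = ms (fun σ => PP H (w σ) k kp)`, `w σ = wD σ`. Call `σ` bad if
`δ'/bt v < |w σ v - 1/bt v|` for some `v ∈ Bl H k (r+1) ∩ V_c`; if `σ` is not bad, `LocZ` with `δ'`
(on `V_c`: `w ≤ (1+δ')/bt ≤ κ`; off `V_c` both activities are `0`) gives `|PP (w σ) - P0| ≤ (η/2) P0`.
(3) For all `σ`: `PP (w σ) ≤ gw (w σ) kp ≤ (2/s)^|kp| ≤ (2/(ε q))^|kp|` (`s_PPf`, `Zp_off_le`, or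
`gPPb` with `K0' = q`; `wD_le`, `s ≥ 2`) and `P0 ≥ gw zb kp * e^{-K0 |k|} ≥ q^{-|kp|} e^{-K0 m}`
(`gPPb`, `bt_le`). So `|PP (w σ) - P0| ≤ (1 + (2/ε)^m e^{K0 m}) P0` (`2/ε ≥ 1`). (4) `ms (1[bad]) ≤
|Bl H k (r+1)| * K/q^(r+3) ≤ m q^(r+2) K / q^(r+3) = m K / q` (`Bad` with `a = r + 3`, `Ball`,
`card_cn_le`). (5) `|pm - P0| ≤ (η/2 + (1 + (2/ε)^m e^{K0 m}) m K/q) P0 ≤ η P0` for `q ≥ q0`. -/
def LocI : Prop :=
  ∀ (ε δ P η : ℝ) (m : ℕ), 0 < ε → ε ≤ 1 → 0 < δ → δ ≤ 1 / 2 → 0 < P → 0 < η → ∃ q0 : ℕ,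
    ∀ (V C : Type) [Fintype V] [Fintype C] (G : SimpleGraph V) (U : Finset V) (L : V → Finset C)
      (p : V → C) (s : ℕ), q0 ≤ Fintype.card C → ε * (Fintype.card C : ℝ) ≤ s → Good G U L s →
      Poin G U L p P → ∀ c : C,
      Adm (rst G U) (cap G U L p c δ) (2 / ε) (Fintype.card C : ℝ) →
      ∀ k kp : Finset V, k.card ≤ m → kp ⊆ k →
      |pm G U L p c k kp - PP (rst G U) (cap G U L p c 0) k kp| ≤
        η * PP (rst G U) (cap G U L p c 0) k kp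

/-- **ClKs** (no hypotheses). The cluster of `Top.lean` in the language of the gas part. Proof.
`DD U c f f' = symmDiff (Ic U c f) (Ic U c f')`; the graphs `rst G D` and `SG (rst G U) a b` with
`D = symmDiff a b ⊆ U` have the same edges; unfold `cl`, `cmp`, `Ks` (`O = {v}`;
`SimpleGraph.Reachable.symm`). -/
def ClKs : Prop :=
  ∀ (V C : Type) [Fintype V] [Fintype C] (G : SimpleGraph V) (U : Finset V) (c : C) (v : V)
    (f f' : V → C), cl G U c v f f' = Ks (rst G U) (Ic U c f) (Ic U c f') {v}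

/-- the possible clusters of `v` -/
noncomputable def Tc {V : Type} [Fintype V] (G : SimpleGraph V) (v : V) : Finset (Finset V) :=
  univ.filter (fun k => k.Nonempty ∧ Ks G k ∅ {v} = k)

/-- **ClSum** (no hypotheses). Sum over the clusters. `ω` is a weight on the sets, zero on the sets
which are not independent. Proof. For `a, b ∈ IS G` let `k = Ks G a b {v}`, `kp = a ∩ k`. If `k = ∅`
the term is `0` (`Φ 0 = 0`). Else `k ∈ Tc G v`, `kp ⊆ k`, and by `s_CluDet` the pairs `(a, b)` with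
`Ks G a b {v} = k`, `a ∩ k = kp` are those with `a ∩ CN k = kp`, `b ∩ CN k = k \ kp`. So the left
side is `∑_{k ∈ Tc} ∑_{kp ⊆ k} ∑_{a,b} ω a ω b Φ |k| 1[a ∩ CN k = kp] 1[b ∩ CN k = k \ kp]`, and the
inner sum factorises. -/
def ClSum : Prop :=
  ∀ (V : Type) [Fintype V] (G : SimpleGraph V) (v : V) (ω : Finset V → ℝ) (Φ : ℕ → ℝ), Φ 0 = 0 →
    (∀ S, S ∉ IS G → ω S = 0) →
    ∑ a : Finset V, ∑ b : Finset V, ω a * ω b * Φ (Ks G a b {v}).card =
      ∑ k ∈ Tc G v, ∑ kp ∈ k.powerset, Φ k.card *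
        ((∑ a : Finset V, if a ∩ CN G k = kp then ω a else 0) *
          (∑ b : Finset V, if b ∩ CN G k = k \ kp then ω b else 0))

/-- **ClG** (hypothesis `ClSum`). The same for two gases. Proof. `ClSum` with
`ω S = if S ∈ IS G then gw z S / Zp G z else 0`. -/
def ClG : Prop :=
  ∀ (V : Type) [Fintype V] (G : SimpleGraph V) (v : V) (z : V → ℝ) (Φ : ℕ → ℝ), Φ 0 = 0 →
    E2 G z z (fun a b => Φ (Ks G a b {v}).card) =
      ∑ k ∈ Tc G v, ∑ kp ∈ k.powerset, Φ k.card * (PP G z k kp * PP G z k (k \ kp))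

/-- **ClC** (hypotheses `ClSum`, `ClKs`). The same for two colourings. Proof. `ClSum` with
`ω S = ev (Col G U L p) (fun f => if Ic U c f = S then 1 else 0)` (for `f ∈ Col G U L p` the set
`Ic U c f` is independent in `rst G U`); `ev2 F (Ic f) (Ic f') = ∑_a ∑_b ω a ω b F a b`. -/
def ClC : Prop :=
  ∀ (V C : Type) [Fintype V] [Fintype C] (G : SimpleGraph V) (U : Finset V) (L : V → Finset C)
    (p : V → C) (c : C) (v : V) (Φ : ℕ → ℝ), Φ 0 = 0 →
    ev2 (Col G U L p) (fun f f' => Φ (cl G U c v f f').card) =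
      ∑ k ∈ Tc (rst G U) v, ∑ kp ∈ k.powerset,
        Φ k.card * (pm G U L p c k kp * pm G U L p c k (k \ kp))

/-- **Sing** (no hypotheses). One vertex. Proof. For an independent set `S` of `H = rst G U` with
`v ∈ S`: `S ∩ CN H {v} = {v}`; this is the first two claims (`Ic U c f` is independent in `H`,
`v ∈ U`). Third: `cl` is nonempty iff `v ∈ DD U c f f'` iff exactly one of `f v = c`, `f' v = c`
holds, probability `2 mg (1 - mg)` (`Col_nonempty`). Fourth: `Ks G a b {v}` is nonempty iff exactly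
one of `v ∈ a`, `v ∈ b` holds. -/
def Sing : Prop :=
  ∀ (V C : Type) [Fintype V] [Fintype C] (G : SimpleGraph V) (U : Finset V) (L : V → Finset C)
    (p : V → C) (s : ℕ) (c : C) (z : V → ℝ), Good G U L s → (∀ u, 0 ≤ z u) → ∀ v ∈ U,
    pm G U L p c {v} {v} = mg (Col G U L p) v c ∧
    PP (rst G U) z {v} {v} = dn (rst G U) z v ∧
    ev2 (Col G U L p) (fun f f' => if 0 < (cl G U c v f f').card then (1 : ℝ) else 0) =
      2 * mg (Col G U L p) v c * (1 - mg (Col G U L p) v c) ∧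
    E2 (rst G U) z z (fun a b => if 0 < (Ks (rst G U) a b {v}).card then (1 : ℝ) else 0) =
      2 * dn (rst G U) z v * (1 - dn (rst G U) z v)

/-- **Cmp** (hypotheses `ClG`, `ClC`, `Sing`). Comparison of the cluster sums: if all local pattern
probabilities of the colour class are `(1 ± η)` times those of the gas `z`, the cluster of `v` for
two colourings is bounded by the cluster for two gases. `g = dn H z v`, `μ = mg v c`,
`pc`, `pg` the probabilities in `ClC`, `ClG`. Proof. `|μ - g| ≤ η g` (`k = kp = {v}`, `Sing`), so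
`g ≤ 2 μ`. (1) `ClC` with `Φ n = if n ≤ m then n else 0`: every term is at most `(1+η)^2 ≤ 4` times
the term of `ClG` with the same `Φ ≤ id`, so the sum is at most `4 E2 |Ks| ≤ 4 E g ≤ 8 E μ`.
(2) `1[m < n] = 1[0 < n] - 1[0 < n ≤ m]`. `ev2 (1[0 < |cl| ≤ m])` is at least `(1-η)^2` times
`E2 (1[0 < |Ks| ≤ m])` (`ClC`, `ClG` with `Φ n = if 0 < n ∧ n ≤ m then 1 else 0`) `=
(1-η)^2 (2 g (1-g) - E2 (1[m < |Ks|]))`. So the claimed quantity is at most
`2 μ (1-μ) - (1-η)^2 (2 g (1-g)) + T g ≤ 2 |μ - g| + (1 - (1-η)^2) 2 g + T g ≤ (6 η + T) g ≤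
(12 η + 2 T) μ` (`μ(1-μ) - g(1-g) = (μ-g)(1-μ-g)`, `0 ≤ μ, g ≤ 1`). -/
def Cmp : Prop :=
  ∀ (V C : Type) [Fintype V] [Fintype C] (G : SimpleGraph V) (U : Finset V) (L : V → Finset C)
    (p : V → C) (s : ℕ) (c : C) (z : V → ℝ) (η E T : ℝ) (m : ℕ), Good G U L s → (∀ u, 0 ≤ z u) →
    0 ≤ η → η ≤ 1 / 2 → 1 ≤ m → 0 ≤ E → 0 ≤ T →
    (∀ k kp : Finset V, k.card ≤ m → kp ⊆ k →
      |pm G U L p c k kp - PP (rst G U) z k kp| ≤ η * PP (rst G U) z k kp) →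
    ∀ v ∈ U, E2 (rst G U) z z (fun a b => ((Ks (rst G U) a b {v}).card : ℝ)) ≤
      E * dn (rst G U) z v →
    E2 (rst G U) z z (fun a b => if m < (Ks (rst G U) a b {v}).card then (1 : ℝ) else 0) ≤
      T * dn (rst G U) z v →
    ev2 (Col G U L p) (fun f f' =>
      if (cl G U c v f f').card ≤ m then ((cl G U c v f f').card : ℝ) else 0) ≤
        8 * E * mg (Col G U L p) v c ∧
    ev2 (Col G U L p) (fun f f' => if m < (cl G U c v f f').card then (1 : ℝ) else 0) ≤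
        (12 * η + 2 * T) * mg (Col G U L p) v c

end Pool.Agent.Loc26
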