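import Pool.Agent.Lib.MP_26a019_lc.Eps.All

set_option autoImplicit false
set_option linter.unusedVariables false

/-!
# q ≥ (1+ε)Δ colours, all graphs: top level

Definitions of the discrepancy clusters of two independent colourings, the interface statements
`PartAB` (cluster bounds), `PartC` (cluster bounds imply spectral independence), `PartD` (spectral
independence implies a Poincaré inequality whose constant does not depend on the number of colours)
and the assembly: induction on the number of vertices, the a priori inequality of `Eps/Apriori.lean`.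
-/

open Finset Classical

namespace Pool.Agent.Ex26

open Pool.Agent.Kempe Pool.Agent.KempeMix Pool.Agent.Eps26

section defs

variable {V C : Type} [Fintype V] [Fintype C]

/-- mean over two independent uniform elements of `A` -/
noncomputable def ev2 (A : Finset (V → C)) (F : (V → C) → (V → C) → ℝ) : ℝ :=
  ev A (fun f => ev A (fun f' => F f f'))

/-- vertices of `U` which have the colour `c` in exactly one of `f`, `f'` -/
noncomputable def DD (U : Finset V) (c : C) (f f' : V → C) : Finset V :=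
  U.filter (fun u => ¬ (f u = c ↔ f' u = c))

/-- the graph `G[D]` (on the vertex type `V`) -/
def rst (G : SimpleGraph V) (D : Finset V) : SimpleGraph V where
  Adj u w := G.Adj u w ∧ u ∈ D ∧ w ∈ D
  symm := ⟨fun u w h => ⟨h.1.symm, h.2.2, h.2.1⟩⟩
  loopless := ⟨fun u h => G.loopless.irrefl u h.1⟩

/-- the component of `v` in `G[D]`; empty if `v ∉ D` -/
noncomputable def cmp (G : SimpleGraph V) (D : Finset V) (v : V) : Finset V :=
  D.filter (fun u => v ∈ D ∧ (rst G D).Reachable v u)

/-- the cluster of `v` for the colour `c` -/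
noncomputable def cl (G : SimpleGraph V) (U : Finset V) (c : C) (v : V) (f f' : V → C) :
    Finset V :=
  cmp G (DD U c f f') v

/-- small clusters have bounded expected size -/
def ClSmall (G : SimpleGraph V) (U : Finset V) (L : V → Finset C) (p : V → C) (m : ℕ)
    (M : ℝ) : Prop :=
  ∀ v ∈ U, ∀ c, ev2 (Col G U L p) (fun f f' =>
    if (cl G U c v f f').card ≤ m then ((cl G U c v f f').card : ℝ) else 0) ≤
      M * mg (Col G U L p) v c

/-- large clusters are rare -/
def ClTail (G : SimpleGraph V) (U : Finset V) (L : V → Finset C) (p : V → C) (m : ℕ)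
    (t : ℝ) : Prop :=
  ∀ v ∈ U, ∀ c, ev2 (Col G U L p) (fun f f' =>
    if m < (cl G U c v f f').card then (1 : ℝ) else 0) ≤ t * mg (Col G U L p) v c

/-- the additive function `∑_{v ∈ U} k v (f v)` -/
noncomputable def FF (U : Finset V) (k : V → C → ℝ) (f : V → C) : ℝ := ∑ v ∈ U, k v (f v)

/-- spectral independence: variances of additive functions -/
def SIx (G : SimpleGraph V) (U : Finset V) (L : V → Finset C) (p : V → C) (K : ℝ) : Prop :=
  ∀ k : V → C → ℝ, vr (Col G U L p) (FF U k) ≤ K * nrm (Col G U L p) U k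

end defs

/-- all instances with at most `n` free vertices satisfy the Poincaré inequality -/
def AllPoin (V C : Type) [Fintype V] [Fintype C] (s n : ℕ) (P : ℝ) : Prop :=
  ∀ (G : SimpleGraph V) (U : Finset V) (L : V → Finset C) (p : V → C), Good G U L s →
    U.card ≤ n → Poin G U L p P

/-- **Part AB** (hard-core gases, consistency, local comparison). -/
def PartAB : Prop :=
  ∀ ε : ℝ, 0 < ε → ∃ M K lam : ℝ, 0 < M ∧ 0 < K ∧ 0 < lam ∧
    ∀ (P η : ℝ) (m : ℕ), 0 < P → 0 < η → ∃ q0 : ℕ,
      ∀ (V C : Type) [Fintype V] [Fintype C] (s n : ℕ), q0 ≤ Fintype.card C →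
        ε * (Fintype.card C : ℝ) ≤ s → AllPoin V C s n P →
        ∀ (G : SimpleGraph V) (U : Finset V) (L : V → Finset C) (p : V → C), Good G U L s →
          U.card ≤ n →
          ClSmall G U L p m M ∧ ClTail G U L p m (K * Real.exp (-(lam * m)) + η)

/-- **Part C** (spectral independence from the cluster bounds). -/
def PartC : Prop :=
  ∀ ε M K lam : ℝ, 0 < ε → 0 < M → 0 < K → 0 < lam → ∃ C1 : ℝ, 0 < C1 ∧
    ∀ P : ℝ, 0 < P → ∃ (m : ℕ) (η : ℝ) (q0 : ℕ), 0 < η ∧
      ∀ (V C : Type) [Fintype V] [Fintype C] (s : ℕ), q0 ≤ Fintype.card C →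
        ε * (Fintype.card C : ℝ) ≤ s →
        ∀ (G : SimpleGraph V) (U : Finset V) (L : V → Finset C) (p : V → C), Good G U L s →
          Poin G U L p P → ClSmall G U L p m M →
          ClTail G U L p m (K * Real.exp (-(lam * m)) + η) → SIx G U L p C1

/-- **Part D** (Poincaré inequality from spectral independence, constant independent of `P`). -/
def PartD : Prop :=
  ∀ ε K : ℝ, 0 < ε → 0 < K → ∃ P1 : ℝ, 1 ≤ P1 ∧
    ∀ P : ℝ, 0 < P → ∃ q0 : ℕ,
      ∀ (V C : Type) [Fintype V] [Fintype C] (s n : ℕ), q0 ≤ Fintype.card C →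
        ε * (Fintype.card C : ℝ) ≤ s → AllPoin V C s n P →
        (∀ (G : SimpleGraph V) (U : Finset V) (L : V → Finset C) (p : V → C), Good G U L s →
          U.card ≤ n → SIx G U L p K) → AllPoin V C s n P1

/-- the main result: Poincaré inequality with a constant depending on `ε` only -/
def MainAll : Prop :=
  ∀ ε : ℝ, 0 < ε → ∃ (P1 : ℝ) (q0 : ℕ), 1 ≤ P1 ∧
    ∀ (V C : Type) [Fintype V] [Fintype C] (s n : ℕ), q0 ≤ Fintype.card C →
      ε * (Fintype.card C : ℝ) ≤ s → AllPoin V C s n P1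

theorem allPoin_mono {V C : Type} [Fintype V] [Fintype C] {s n : ℕ} {P P' : ℝ} (h : P ≤ P')
    (hP : AllPoin V C s n P) : AllPoin V C s n P' := fun G U L p hG hn =>
  poin_mono h (hP G U L p hG hn)

/-- the a priori inequality: one more vertex -/
theorem allPoin_succ {V C : Type} [Fintype V] [Fintype C] {s n : ℕ} {P ε : ℝ} (hε : 0 < ε)
    (hs : ε * (Fintype.card C : ℝ) ≤ s) (hq : 0 < Fintype.card C)
    (hP1 : 1 ≤ P) (hP : AllPoin V C s n P) :
    AllPoin V C s (n + 1) (7 * (1 / ε) ^ 3 * P + P) := by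
  intro G U L p hG hn
  have hq0 : (0 : ℝ) < (Fintype.card C : ℝ) := by exact_mod_cast hq
  have hs2 : (2 : ℝ) ≤ s := by exact_mod_cast hG.1
  have hs0 : (0 : ℝ) < s := by linarith
  rcases U.eq_empty_or_nonempty with rfl | ⟨v, hv⟩
  · exact poin_empty G L p _
  · have h1 : (U.erase v).card ≤ n := by
      rw [Finset.card_erase_of_mem hv]; omega
    have h2 := hP G (U.erase v) L p (good_mono (Finset.erase_subset v U) hG) h1
    have h3 := apriori_proof V C (aprCmp_proof V C) (aprNon_proof V C) (aprAdj_proof V C)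
      (twoSite_proof C) G U L p s v P hG hv hP1 h2
    refine poin_mono ?_ h3
    have h4 : (Fintype.card C : ℝ) / s ≤ 1 / ε := by
      rw [div_le_div_iff₀ hs0 hε]; linarith
    have h5 : ((Fintype.card C : ℝ) / s) ^ 3 ≤ (1 / ε) ^ 3 :=
      pow_le_pow_left₀ (by positivity) h4 3
    nlinarith [mul_le_mul_of_nonneg_right h5 (by linarith : (0 : ℝ) ≤ P)]

theorem mainAll_of (hAB : PartAB) (hC : PartC) (hD : PartD) : MainAll := by
  intro ε hε
  obtain ⟨M, K, lam, hM, hK, hlam, hAB⟩ := hAB ε hε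
  obtain ⟨C1, hC1, hC⟩ := hC ε M K lam hε hM hK hlam
  obtain ⟨P1, hP1, hD⟩ := hD ε C1 hε hC1
  set P : ℝ := 7 * (1 / ε) ^ 3 * P1 + P1 with hPdef
  have hP0 : 0 < P := by rw [hPdef]; positivity
  obtain ⟨m, η, qC, hη, hC⟩ := hC P hP0
  obtain ⟨qA, hAB⟩ := hAB P η m hP0 hη
  obtain ⟨qD, hD⟩ := hD P hP0
  refine ⟨P1, max (max qA qC) (max qD 1), hP1, ?_⟩
  intro V C _ _ s n hq hs
  have hqA : qA ≤ Fintype.card C := le_trans (le_trans (le_max_left _ _) (le_max_left _ _)) hq
  have hqC : qC ≤ Fintype.card C := le_trans (le_trans (le_max_right _ _) (le_max_left _ _)) hq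
  have hqD : qD ≤ Fintype.card C := le_trans (le_trans (le_max_left _ _) (le_max_right _ _)) hq
  have hq1 : 0 < Fintype.card C := le_trans (le_trans (le_max_right _ _) (le_max_right _ _)) hq
  induction n with
  | zero =>
    intro G U L p hG hn
    have : U = ∅ := Finset.card_eq_zero.1 (Nat.le_zero.1 hn)
    subst this
    exact poin_empty G L p _
  | succ n ih =>
    have hall : AllPoin V C s (n + 1) P := allPoin_succ hε hs hq1 hP1 ih
    refine hD V C s (n + 1) hqD hs hall ?_
    intro G U L p hG hn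
    obtain ⟨h1, h2⟩ := hAB V C s (n + 1) hqA hs hall G U L p hG hn
    exact hC V C s hqC hs G U L p hG (hall G U L p hG hn) h1 h2

/-- final form: for every `ε > 0` there are `q0`, `K` such that Glauber dynamics on the proper
colourings of any graph of maximum degree at most `Δ` with `q ≥ (1+ε)Δ`, `q ≥ q0` colours mixes in
`K n^2 log q` steps -/
theorem mix_all (hM : MainAll) (ε : ℝ) (hε : 0 < ε) :
    ∃ (q0 : ℕ) (K : ℝ), ∀ (V C : Type) [Fintype V] [Fintype C] [Nonempty V]
      (G : SimpleGraph V) (Δ : ℕ), (∀ v, (univ.filter (fun u => G.Adj v u)).card ≤ Δ) →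
      (1 + ε) * (Δ : ℝ) ≤ (Fintype.card C : ℝ) → q0 ≤ Fintype.card C →
      ∀ t : ℕ, K * (Fintype.card V : ℝ) ^ 2 * Real.log (Fintype.card C : ℝ) ≤ t →
        ∀ f0 : {f : V → C // f ∈ PC G C}, tvd G C t f0 ≤ 1 / 4 := by
  set e : ℝ := min ε 1 with he
  have he0 : 0 < e := lt_min hε one_pos
  have he1 : e ≤ 1 := min_le_right _ _
  have heε : e ≤ ε := min_le_left _ _
  obtain ⟨P1, q0, hP1, hM⟩ := hM (e / 4) (by positivity)
  refine ⟨max q0 (⌈8 / e⌉₊), 2 * P1, ?_⟩
  intro V C _ _ _ G Δ hΔ hq hq0 t ht f0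
  set q : ℝ := (Fintype.card C : ℝ) with hqdef
  have hq1 : 8 / e ≤ q := by
    have h1 : ⌈8 / e⌉₊ ≤ Fintype.card C := le_trans (le_max_right _ _) hq0
    have h2 : ((⌈8 / e⌉₊ : ℕ) : ℝ) ≤ q := by rw [hqdef]; exact_mod_cast h1
    exact (Nat.le_ceil _).trans h2
  have hq8 : (8 : ℝ) ≤ q := by
    refine le_trans ?_ hq1
    rw [le_div_iff₀ he0]; linarith
  have hqp : 0 < q := by linarith
  have heq : 8 ≤ e * q := by
    rw [div_le_iff₀ he0] at hq1; linarith
  set s : ℕ := ⌊e / 2 * q⌋₊ with hs
  have hs1 : (s : ℝ) ≤ e / 2 * q := Nat.floor_le (by positivity)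
  have hs2 : e / 2 * q < s + 1 := Nat.lt_floor_add_one _
  have hs3 : e / 4 * q ≤ s := by linarith
  have hs4 : 2 ≤ s := by
    have : (2 : ℝ) ≤ (s : ℝ) := by linarith
    exact_mod_cast this
  have hΔs : Δ + s ≤ Fintype.card C := by
    have h1 : (1 + e) * (Δ : ℝ) ≤ q := by
      refine le_trans ?_ hq
      exact mul_le_mul_of_nonneg_right (by linarith) (Nat.cast_nonneg _)
    have h2 : (Δ : ℝ) + s ≤ q := by
      have h3 : (1 + e) * ((Δ : ℝ) + s) ≤ (1 + e) * q := by nlinarith
      exact le_of_mul_le_mul_left h3 (by linarith)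
    have : ((Δ + s : ℕ) : ℝ) ≤ ((Fintype.card C : ℕ) : ℝ) := by push_cast; exact h2
    exact_mod_cast this
  have hG : Good G univ (fun _ => (univ : Finset C)) s := good_univ hs4 hΔ hΔs
  have hP := hM V C s (Fintype.card V) (le_trans (le_max_left _ _) hq0) hs3 G univ
    (fun _ => (univ : Finset C)) f0.1 hG (by rw [Finset.card_univ])
  refine mix_of_poincare G P1 hP1 (aa_of_poin ⟨f0.1, f0.2⟩ hP) t ?_ f0
  refine le_trans ?_ ht
  have hn1 : (1 : ℝ) ≤ (Fintype.card V : ℝ) := by
    exact_mod_cast Fintype.card_pos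
  have hlog0 : 0 ≤ Real.log q := Real.log_nonneg (by linarith)
  have hlog : Real.log (4 * q ^ (Fintype.card V)) ≤ 2 * (Fintype.card V : ℝ) * Real.log q := by
    rw [Real.log_mul (by norm_num) (by positivity), Real.log_pow]
    have h1 : Real.log 4 ≤ Real.log q := Real.log_le_log (by norm_num) (by linarith)
    nlinarith [mul_le_mul_of_nonneg_right hn1 hlog0]
  calc (Fintype.card V : ℝ) * P1 * Real.log (4 * q ^ (Fintype.card V))
      ≤ (Fintype.card V : ℝ) * P1 * (2 * (Fintype.card V : ℝ) * Real.log q) :=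
        mul_le_mul_of_nonneg_left hlog (by positivity)
    _ = 2 * P1 * (Fintype.card V : ℝ) ^ 2 * Real.log q := by ring

end Pool.Agent.Ex26
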