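import Pool.Agent.Lib.MP_26a019_lc.Ex.GasSpec

set_option autoImplicit false
set_option linter.unusedSectionVars false

/-!
# Deterministic description of the cluster of a vertex
-/

open Finset Classical

namespace Pool.Agent.Gas26

variable {V : Type} [Fintype V] {G : SimpleGraph V} {a b k kp : Finset V} {v : V}

theorem g_CluDet_sd (k : Finset V) : symmDiff k ∅ = k := symmDiff_bot k

theorem g_CluDet_memCN {w : V} : w ∈ CN G k ↔ ∃ u ∈ k, w = u ∨ G.Adj u w := by
  unfold CN
  rw [Finset.mem_biUnion]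
  simp only [mem_cn]

theorem g_CluDet_sub : k ⊆ CN G k := fun w hw => g_CluDet_memCN.2 ⟨w, hw, Or.inl rfl⟩

theorem g_CluDet_v (h : (Ks G a b {v}).Nonempty) : v ∈ symmDiff a b := by
  obtain ⟨w, hw⟩ := h
  rw [mem_Ks] at hw
  obtain ⟨_, o, ho, h2, _⟩ := hw
  rw [Finset.mem_singleton] at ho
  rwa [← ho]

theorem g_CluDet_mem (hv : v ∈ symmDiff a b) {w : V} :
    w ∈ Ks G a b {v} ↔ w ∈ symmDiff a b ∧ (SG G a b).Reachable w v := by
  rw [mem_Ks]
  constructor
  · rintro ⟨h1, o, ho, _, h3⟩
    rw [Finset.mem_singleton] at ho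
    rw [ho] at h3
    exact ⟨h1, h3⟩
  · rintro ⟨h1, h2⟩
    exact ⟨h1, v, Finset.mem_singleton_self v, hv, h2⟩

/-- a walk which starts in `k` stays in `k` -/
theorem g_CluDet_stay (hk : ∀ w ∈ CN G k, w ∈ symmDiff a b → w ∈ k) {s t : V}
    (p : (SG G a b).Walk s t) : s ∈ k → t ∈ k := by
  induction p with
  | nil => exact id
  | cons hadj p ih =>
    intro hs
    exact ih (hk _ (g_CluDet_memCN.2 ⟨_, hs, Or.inr hadj.1⟩) hadj.2.2)

theorem g_CluDet_in {w : V} (p : (SG G a b).Walk w v) (hw : w ∈ symmDiff a b)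
    (hv : v ∈ symmDiff a b) : (SG G (Ks G a b {v}) ∅).Reachable w v := by
  induction p with
  | nil => exact SimpleGraph.Reachable.refl _
  | @cons w w' v hadj p ih =>
    have h1 : w' ∈ symmDiff a b := hadj.2.2
    have h2 : w' ∈ Ks G a b {v} := (g_CluDet_mem hv).2 ⟨h1, ⟨p⟩⟩
    have h3 : w ∈ Ks G a b {v} := (g_CluDet_mem hv).2 ⟨hw, ⟨SimpleGraph.Walk.cons hadj p⟩⟩
    refine SimpleGraph.Reachable.trans (SimpleGraph.Adj.reachable ?_) (ih h1 hv)
    exact ⟨hadj.1, by rw [g_CluDet_sd]; exact h3, by rw [g_CluDet_sd]; exact h2⟩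

theorem s_CluDet : S_CluDet := by
  intro V _ G v a b k kp ha hb hne
  rw [mem_IS] at ha hb
  constructor
  · rintro ⟨hK, hkp⟩
    have hv : v ∈ symmDiff a b := g_CluDet_v (by rw [hK]; exact hne)
    have hm : ∀ w, w ∈ k ↔ w ∈ symmDiff a b ∧ (SG G a b).Reachable w v := by
      intro w
      rw [← hK]
      exact g_CluDet_mem hv
    have hvk : v ∈ k := (hm v).2 ⟨hv, SimpleGraph.Reachable.refl _⟩
    -- a vertex of `CN k` in `a ∪ b` is in `k`
    have hcl : ∀ w ∈ CN G k, (w ∈ a ∨ w ∈ b) → w ∈ k := by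
      intro w hw hab
      obtain ⟨u, hu, h | h⟩ := g_CluDet_memCN.1 hw
      · rwa [h]
      have hu' := (hm u).1 hu
      by_cases hwD : w ∈ symmDiff a b
      · refine (hm w).2 ⟨hwD, ?_⟩
        have : (SG G a b).Adj w u := ⟨h.symm, hwD, hu'.1⟩
        exact this.reachable.trans hu'.2
      · exfalso
        rw [Finset.mem_symmDiff] at hwD
        have hwa : w ∈ a := by
          by_contra hwa
          rcases hab with h1 | h1
          · exact hwa h1
          · exact hwD (Or.inr ⟨h1, hwa⟩)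
        have hwb : w ∈ b := by
          by_contra hwb
          exact hwD (Or.inl ⟨hwa, hwb⟩)
        rcases Finset.mem_symmDiff.1 hu'.1 with h1 | h1
        · exact ha u h1.1 w hwa h
        · exact hb u h1.1 w hwb h
    refine ⟨?_, ?_, ?_, ?_⟩
    · apply Finset.Subset.antisymm
      · intro w hw
        have := Ks_subset hw
        rwa [g_CluDet_sd] at this
      · intro w hw
        have hvd : v ∈ symmDiff k ∅ := by rw [g_CluDet_sd]; exact hvk
        rw [g_CluDet_mem hvd, g_CluDet_sd]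
        obtain ⟨h1, ⟨p⟩⟩ := (hm w).1 hw
        have := g_CluDet_in p h1 hv
        rw [hK] at this
        exact ⟨hw, this⟩
    · rw [← hkp]
      exact Finset.inter_subset_right
    · rw [← hkp]
      ext w
      rw [Finset.mem_inter, Finset.mem_inter]
      constructor
      · rintro ⟨h1, h2⟩
        exact ⟨h1, hcl w h2 (Or.inl h1)⟩
      · rintro ⟨h1, h2⟩
        exact ⟨h1, g_CluDet_sub h2⟩
    · rw [← hkp]
      ext w
      rw [Finset.mem_inter, Finset.mem_sdiff, Finset.mem_inter]
      constructor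
      · rintro ⟨h1, h2⟩
        have h3 := hcl w h2 (Or.inr h1)
        refine ⟨h3, fun h4 => ?_⟩
        rcases Finset.mem_symmDiff.1 ((hm w).1 h3).1 with h5 | h5
        · exact h5.2 h1
        · exact h5.2 h4.1
      · rintro ⟨h1, h2⟩
        refine ⟨?_, g_CluDet_sub h1⟩
        rcases Finset.mem_symmDiff.1 ((hm w).1 h1).1 with h5 | h5
        · exact absurd ⟨h5.1, h1⟩ h2
        · exact h5.1
  · rintro ⟨hK, hsub, hA, hB⟩
    have hvk : v ∈ k := by
      have := g_CluDet_v (G := G) (a := k) (b := ∅) (v := v) (by rw [hK]; exact hne)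
      rwa [g_CluDet_sd] at this
    have hkD : k ⊆ symmDiff a b := by
      intro w hw
      have hwC : w ∈ CN G k := g_CluDet_sub hw
      rw [Finset.mem_symmDiff]
      by_cases hwk : w ∈ kp
      · left
        rw [← hA] at hwk
        refine ⟨(Finset.mem_inter.1 hwk).1, fun h => ?_⟩
        have h2 : w ∈ b ∩ CN G k := Finset.mem_inter.2 ⟨h, hwC⟩
        rw [hB, Finset.mem_sdiff, ← hA] at h2
        exact h2.2 hwk
      · right
        have h2 : w ∈ k \ kp := Finset.mem_sdiff.2 ⟨hw, hwk⟩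
        rw [← hB] at h2
        refine ⟨(Finset.mem_inter.1 h2).1, fun h => hwk ?_⟩
        rw [← hA]
        exact Finset.mem_inter.2 ⟨h, hwC⟩
    have hcl : ∀ w ∈ CN G k, w ∈ symmDiff a b → w ∈ k := by
      intro w hw hD
      rcases Finset.mem_symmDiff.1 hD with h | h
      · have : w ∈ a ∩ CN G k := Finset.mem_inter.2 ⟨h.1, hw⟩
        rw [hA] at this
        exact hsub this
      · have : w ∈ b ∩ CN G k := Finset.mem_inter.2 ⟨h.1, hw⟩
        rw [hB] at this
        exact (Finset.mem_sdiff.1 this).1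
    constructor
    · apply Finset.Subset.antisymm
      · intro w hw
        rw [g_CluDet_mem (hkD hvk)] at hw
        obtain ⟨p⟩ := hw.2.symm
        exact g_CluDet_stay hcl p hvk
      · intro w hw
        rw [g_CluDet_mem (hkD hvk)]
        have h1 : w ∈ Ks G k ∅ {v} := by rw [hK]; exact hw
        have hvd : v ∈ symmDiff k ∅ := by rw [g_CluDet_sd]; exact hvk
        rw [g_CluDet_mem hvd] at h1
        refine ⟨hkD hw, h1.2.mono ?_⟩
        intro s t hst
        refine ⟨hst.1, hkD ?_, hkD ?_⟩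
        · have := hst.2.1
          rwa [g_CluDet_sd] at this
        · have := hst.2.2
          rwa [g_CluDet_sd] at this
    · ext w
      rw [Finset.mem_inter]
      constructor
      · rintro ⟨h1, h2⟩
        rw [← hA]
        exact Finset.mem_inter.2 ⟨h1, g_CluDet_sub h2⟩
      · intro h
        refine ⟨?_, hsub h⟩
        rw [← hA] at h
        exact (Finset.mem_inter.1 h).1

end Pool.Agent.Gas26
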