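import Pool.Agent.Lib.MP_26a019_lc.Ex.GasSpec

set_option autoImplicit false

/-!
# KvB: first moment and tail of the cluster of a vertex
-/

open Finset Classical

namespace Pool.Agent.Gas26

theorem g_KvB_num {M : ℝ} (hM : 1 ≤ M) :
    1 / (8 * (M * (M + 2) + 1) ^ 2) ≤ 1 ∧ 0 ≤ 1 / (8 * (M * (M + 2) + 1) ^ 2) ∧
      1 / (2 * (M * (M + 2) + 1) ^ 2) * M ≤ 1 ∧ 0 ≤ 1 / (2 * (M * (M + 2) + 1) ^ 2) := by
  have h1 : 4 ≤ M * (M + 2) + 1 := by nlinarith
  have h2 : M ≤ M * (M + 2) + 1 := by nlinarith
  have h3 : (M * (M + 2) + 1) ≤ (M * (M + 2) + 1) ^ 2 := by nlinarith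
  have h4 : 0 < (M * (M + 2) + 1) ^ 2 := by positivity
  refine ⟨?_, by positivity, ?_, by positivity⟩
  · rw [div_le_one (by positivity)]
    linarith
  · rw [div_mul_eq_mul_div, one_mul, div_le_one (by positivity)]
    linarith

theorem s_KvB : S_KvB := by
  intro hE hExc hDM hDMc hExpM V _ G κ K0 M q hC z v m hz
  obtain ⟨hK0, hM, hq, hκ, hcn, hAdm⟩ := hC
  have hz0 := hz.nonneg
  obtain ⟨hl1, hl0, hm1, hm0⟩ := g_KvB_num hM
  have hbx : Btw κ (off z {v}) := hz.off _
  have hby : Btw κ (off z (cn G v)) := hz.off _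
  have hpair : Pair (off z {v}) (off z (cn G v)) := by
    intro w
    by_cases hw : w ∈ cn G v
    · exact Or.inr (Or.inr (off_of_mem hw))
    · left
      have hwv : w ∉ ({v} : Finset V) := by
        rw [Finset.mem_singleton]
        rintro rfl
        exact hw (self_mem_cn w)
      rw [off_of_notMem hw, off_of_notMem hwv]
  have hsub : DD (off z {v}) (off z (cn G v)) ⊆ cn G v := by
    intro w hw
    by_contra hwc
    have hwv : w ∉ ({v} : Finset V) := by
      rw [Finset.mem_singleton]
      rintro rfl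
      exact hwc (self_mem_cn w)
    rw [mem_DD, off_of_notMem hwc, off_of_notMem hwv] at hw
    exact hw rfl
  have hcard : ((DD (off z {v}) (off z (cn G v))).card : ℝ) ≤ q :=
    le_trans (by exact_mod_cast Finset.card_le_card hsub) (hcn v)
  have hKF : KF G (off z {v}) (off z (cn G v)) (fun _ => 1) ≤ M := by
    rw [KF_one]
    refine (hAdm _ _ hbx hby hpair).trans ?_
    calc M / q * ((DD (off z {v}) (off z (cn G v))).card : ℝ) ≤ M / q * q := by
          gcongr
      _ = M := by field_simp
  have hKF0 : 0 ≤ KF G (off z {v}) (off z (cn G v)) (fun _ => 1) :=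
    KF_nonneg hbx.nonneg hby.nonneg fun _ => zero_le_one
  have ha0 := dn_nonneg (G := G) hz0 v
  have ha1 := dn_le_one (G := G) hz0 v
  set α := dn G z v with hα
  constructor
  · have h1 := hE V G z v (fun n => (n : ℝ)) hz0 (by simp)
    simp only [Nat.cast_add, Nat.cast_one] at h1
    rw [E2_add, E2_const hbx.nonneg hby.nonneg, ← KF_one] at h1
    rw [h1]
    have h2 : 2 * α * (1 - α) ≤ 2 * α := by nlinarith
    calc 2 * α * (1 - α) * (KF G (off z {v}) (off z (cn G v)) (fun _ => 1) + 1)
        ≤ 2 * α * (KF G (off z {v}) (off z (cn G v)) (fun _ => 1) + 1) := by gcongr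
      _ ≤ 2 * α * (M + 1) := by gcongr
      _ = 2 * (1 + M) * α := by ring
  · have h1 := hE V G z v (fun n => if m < n then (1 : ℝ) else 0) hz0 (by simp)
    rw [h1]
    set l := 1 / (8 * (M * (M + 2) + 1) ^ 2) with hl
    have h2 : E2 G (off z {v}) (off z (cn G v))
        (fun a b => if m < (Ks G a b (DD (off z {v}) (off z (cn G v)))).card + 1 then (1 : ℝ)
          else 0) ≤ Real.exp (l * (1 - m)) * Real.exp 1 := by
      calc _ ≤ E2 G (off z {v}) (off z (cn G v)) (fun a b => Real.exp (l * (1 - m)) *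
            Real.exp (l * ((Ks G a b (DD (off z {v}) (off z (cn G v)))).card : ℝ))) := by
            refine E2_mono hbx.nonneg hby.nonneg fun a _ _ b _ _ => ?_
            rw [← Real.exp_add]
            split_ifs with h
            · rw [Real.one_le_exp_iff]
              have h3 : (m : ℝ) ≤ ((Ks G a b (DD (off z {v}) (off z (cn G v)))).card : ℝ) := by
                exact_mod_cast Nat.lt_succ_iff.1 h
              have h4 := mul_nonneg hl0 (sub_nonneg.2 h3)
              nlinarith
            · exact (Real.exp_pos _).le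
        _ = Real.exp (l * (1 - m)) * E2 G (off z {v}) (off z (cn G v)) (fun a b =>
            Real.exp (l * ((Ks G a b (DD (off z {v}) (off z (cn G v)))).card : ℝ))) :=
            E2_mul_left _ _
        _ ≤ Real.exp (l * (1 - m)) * Real.exp 1 := by
            gcongr
            refine (hExpM hExc hDM hDMc V G κ K0 M q ⟨hK0, hM, hq, hκ, hcn, hAdm⟩ _ _ hbx hby
              hpair).trans ?_
            gcongr
            exact (mul_le_mul_of_nonneg_left hKF hm0).trans hm1
    have h3 : Real.exp (l * (1 - m)) * Real.exp 1 ≤ Real.exp 2 * Real.exp (-(l * m)) := by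
      rw [← Real.exp_add, ← Real.exp_add]
      apply Real.exp_le_exp.2
      have h4 : l * (1 - (m : ℝ)) = l - l * m := by ring
      linarith
    have h5 : 0 ≤ Real.exp 2 * Real.exp (-(l * m)) := by positivity
    calc 2 * α * (1 - α) * _ ≤ 2 * α * (1 - α) * (Real.exp 2 * Real.exp (-(l * m))) := by
          apply mul_le_mul_of_nonneg_left (h2.trans h3)
          nlinarith
      _ ≤ 2 * α * (Real.exp 2 * Real.exp (-(l * m))) := by
          apply mul_le_mul_of_nonneg_right _ h5
          nlinarith
      _ = 2 * Real.exp 2 * Real.exp (-(l * m)) * α := by ring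

end Pool.Agent.Gas26
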