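import Pool.Agent.Lib.MP_26a019_lc.Ex.LocSpec

set_option autoImplicit false

/-!
# The two definitions of the cluster agree
-/

open Finset Classical

namespace Pool.Agent.Loc26

open Pool.Agent.Kempe Pool.Agent.KempeMix Pool.Agent.Eps26 Pool.Agent.Gas26
open Pool.Agent.Ex26 (rst ev2 cl)

theorem l_ClKs_DD {V C : Type} [Fintype V] [Fintype C] (U : Finset V) (c : C) (f f' : V → C) :
    Pool.Agent.Ex26.DD U c f f' = symmDiff (Ic U c f) (Ic U c f') := by
  ext u
  rw [Pool.Agent.Ex26.DD, Finset.mem_filter, Finset.mem_symmDiff, mem_Ic, mem_Ic]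
  tauto

theorem s_ClKs : ClKs := by
  intro V C _ _ G U c v f f'
  unfold cl Pool.Agent.Ex26.cmp Ks
  rw [l_ClKs_DD]
  set a := Ic U c f with ha
  set b := Ic U c f' with hb
  have hsub : symmDiff a b ⊆ U := by
    intro u hu
    rcases Finset.mem_symmDiff.1 hu with h | h
    · exact (mem_Ic.1 h.1).1
    · exact (mem_Ic.1 h.1).1
  have hgr : SG (rst G U) a b = rst G (symmDiff a b) := by
    ext u w
    simp only [SG, rst]
    constructor
    · rintro ⟨h1, h2, h3⟩
      exact ⟨h1.1, h2, h3⟩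
    · rintro ⟨h1, h2, h3⟩
      exact ⟨⟨h1, hsub h2, hsub h3⟩, h2, h3⟩
  rw [hgr]
  ext u
  rw [Finset.mem_filter, Finset.mem_filter]
  constructor
  · rintro ⟨hu, hv, hr⟩
    exact ⟨hu, v, Finset.mem_singleton_self v, hv, hr.symm⟩
  · rintro ⟨hu, o, ho, ho2, hr⟩
    rw [Finset.mem_singleton] at ho
    subst ho
    exact ⟨hu, ho2, hr.symm⟩

end Pool.Agent.Loc26
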