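import Pool.Agent.Lib.MP_26a019_lc.Ex.LocSpec

set_option autoImplicit false
set_option linter.unusedVariables false

/-!
# LocZ: pattern probabilities, activities close near `k` and arbitrary far away
-/

open Finset Classical

namespace Pool.Agent.Loc26

open Pool.Agent.Kempe Pool.Agent.KempeMix Pool.Agent.Eps26 Pool.Agent.Gas26
open Pool.Agent.Ex26 (rst ev2 cl ClSmall ClTail AllPoin PartAB)

theorem l_LocZ_log {a b δ : ℝ} (hb : 0 < b) (h0 : 0 ≤ δ) (h1 : δ ≤ 1 / 2)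
    (h : |a - b| ≤ δ * b) : 0 < a ∧ |Real.log a - Real.log b| ≤ 2 * δ := by
  rw [abs_le] at h
  obtain ⟨h2, h3⟩ := h
  have h4 : δ * b ≤ 1 / 2 * b := mul_le_mul_of_nonneg_right h1 hb.le
  have ha : 0 < a := by linarith
  refine ⟨ha, ?_⟩
  rw [abs_le]
  constructor
  · have h5 : Real.log (b / a) ≤ b / a - 1 := Real.log_le_sub_one_of_pos (div_pos hb ha)
    rw [Real.log_div hb.ne' ha.ne'] at h5
    have h6 : b / a - 1 ≤ 2 * δ := by
      rw [sub_le_iff_le_add, div_le_iff₀ ha]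
      nlinarith
    linarith
  · have h5 : Real.log (a / b) ≤ a / b - 1 := Real.log_le_sub_one_of_pos (div_pos ha hb)
    rw [Real.log_div ha.ne' hb.ne'] at h5
    have h6 : a / b - 1 ≤ 2 * δ := by
      rw [sub_le_iff_le_add, div_le_iff₀ hb]
      nlinarith
    linarith

theorem l_LocZ_exp {a b E : ℝ} (ha : 0 < a) (hb : 0 < b)
    (h : |Real.log a - Real.log b| ≤ E) : |a - b| ≤ (Real.exp E - 1) * b := by
  rw [abs_le] at h
  obtain ⟨h2, h3⟩ := h
  have h4 : a ≤ Real.exp E * b := by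
    have h5 : Real.log a ≤ E + Real.log b := by linarith
    have h6 := Real.exp_le_exp.2 h5
    rwa [Real.exp_add, Real.exp_log ha, Real.exp_log hb] at h6
  have h5 : Real.exp (-E) * b ≤ a := by
    have h5 : -E + Real.log b ≤ Real.log a := by linarith
    have h6 := Real.exp_le_exp.2 h5
    rwa [Real.exp_add, Real.exp_log ha, Real.exp_log hb] at h6
  have h6 : 2 ≤ Real.exp E + Real.exp (-E) := by
    have h7 := Real.add_one_le_exp E
    have h8 := Real.add_one_le_exp (-E)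
    linarith
  rw [abs_le]
  constructor
  · nlinarith
  · linarith

theorem l_LocZ_step (hB : Ball) {V : Type} [Fintype V] {G : SimpleGraph V} {κ : V → ℝ}
    {K0 M q : ℝ} (hC : Cls G κ K0 M q) {zb w z : V → ℝ} {k kp : Finset V} {r : ℕ} {δ : ℝ}
    (hzb : Btw κ zb) (hδ0 : 0 ≤ δ) (hδ1 : δ ≤ 1 / 2) (hk : kp ⊆ k) (hI : kp ∈ IS G)
    (hpos : ∀ v ∈ kp, 0 < zb v) (hz : Btw κ z)
    (hd : ∀ v ∈ Bl G k r, |z v - zb v| ≤ δ * zb v) :
    |PP G z k kp - PP G zb k kp| ≤
      (Real.exp (2 * K0 * M * (k.card : ℝ) * (δ + (M / (1 + M)) ^ r) + 2 * δ * (k.card : ℝ)) - 1) *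
        PP G zb k kp := by
  obtain ⟨hK0, hM, hq, hκ, hcn, hadm⟩ := hC
  have hq0 : (0 : ℝ) ≤ q := by linarith
  obtain ⟨b1, b2, b3, b4, b5, b6⟩ := hB V G k (r + 1) q hq0 hcn
  have hkB : ∀ v ∈ k, v ∈ Bl G k r := by
    intro v hv
    refine b5 0 r (Nat.zero_le r) ?_
    show v ∈ CN G k
    unfold CN
    exact Finset.mem_biUnion.2 ⟨v, hv, self_mem_cn v⟩
  have hkp : ∀ v ∈ kp, 0 < z v ∧ |Real.log (z v) - Real.log (zb v)| ≤ 2 * δ := fun v hv =>
    l_LocZ_log (hpos v hv) hδ0 hδ1 (hd v (hkB v (hk hv)))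
  have hsmall : ∀ x : V → ℝ, Btw κ x → ∀ v, 0 ≤ x v ∧ x v ≤ K0 / q := fun x hx v =>
    ⟨(hx v).1, (hx v).2.trans (hκ v).2⟩
  have hppos : ∀ x : V → ℝ, Btw κ x → (∀ v ∈ kp, 0 < x v) → 0 < PP G x k kp := by
    intro x hx hxp
    refine lt_of_lt_of_le ?_ (gPPb V G x k kp K0 q (by linarith) hq (hsmall x hx) hcn hk hI).2
    refine mul_pos ?_ (Real.exp_pos _)
    unfold gw
    exact Finset.prod_pos hxp
  have h1 := hppos z hz fun v hv => (hkp v hv).1
  have h2 := hppos zb hzb hpos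
  refine l_LocZ_exp h1 h2 ?_
  have h3 := gInt V G κ K0 M q ⟨hK0, hM, hq, hκ, hcn, hadm⟩ zb z k kp (lv G k (r + 1)) r δ hzb hz
    b1 b2 hδ0 hk hI (fun v hv => ⟨hpos v hv, (hkp v hv).1⟩) (fun v hv => by
      have h4 : v ∈ Bl G k r := (b3 r (Nat.lt_succ_self r) v).1 hv
      refine (hd v h4).trans ?_
      exact mul_le_mul_of_nonneg_left ((hzb v).2.trans (hκ v).2) hδ0)
  refine h3.trans ?_
  have h4 : ∑ v ∈ kp, |Real.log (z v) - Real.log (zb v)| ≤ 2 * δ * (k.card : ℝ) := by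
    refine (Finset.sum_le_card_nsmul _ _ (2 * δ) fun v hv => (hkp v hv).2).trans ?_
    rw [nsmul_eq_mul]
    have h5 : (kp.card : ℝ) ≤ (k.card : ℝ) := by exact_mod_cast Finset.card_le_card hk
    have h6 : (kp.card : ℝ) * (2 * δ) ≤ (k.card : ℝ) * (2 * δ) :=
      mul_le_mul_of_nonneg_right h5 (by linarith)
    linarith
  linarith

theorem s_LocZ (h : Ball) : LocZ := by
  intro V _ G κ K0 M q hC zb w k kp r δ hzb hw hδ0 hδ1 hk hI hpos hclose
  obtain ⟨hK0, hM, hq, hκ, hcn, hadm⟩ := id hC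
  have hq0 : (0 : ℝ) ≤ q := by linarith
  obtain ⟨_, _, _, _, b5, b6⟩ := h V G k (r + 1) q hq0 hcn
  obtain ⟨R, hR⟩ : ∃ R, R = Bl G k (r + 1) := ⟨_, rfl⟩
  rw [← hR] at hclose
  have hCNR : CN G k ⊆ R := by
    rw [hR]
    exact b5 0 (r + 1) (Nat.zero_le _)
  have hrR : Bl G k r ⊆ R := by
    rw [hR]
    exact b5 r (r + 1) (Nat.le_succ r)
  obtain ⟨w1, hw1⟩ : ∃ w1 : V → ℝ, w1 = fun v => if v ∈ R then w v else 0 := ⟨_, rfl⟩
  obtain ⟨w2, hw2⟩ : ∃ w2 : V → ℝ, w2 = fun v => if v ∈ R then 0 else w v := ⟨_, rfl⟩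
  have hw12 : (fun v => w1 v + w2 v) = w := by
    funext v
    rw [hw1, hw2]
    dsimp only
    by_cases hv : v ∈ R
    · rw [if_pos hv, if_pos hv, add_zero]
    · rw [if_neg hv, if_neg hv, zero_add]
  have hw1n : ∀ v, 0 ≤ w1 v := by
    intro v
    rw [hw1]
    dsimp only
    split_ifs
    · exact hw v
    · exact le_rfl
  have hw2n : ∀ v, 0 ≤ w2 v := by
    intro v
    rw [hw2]
    dsimp only
    split_ifs
    · exact le_rfl
    · exact hw v
  obtain ⟨B, hB⟩ : ∃ B : ℝ, B = (Real.exp (2 * K0 * M * (k.card : ℝ) *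
      (δ + (M / (1 + M)) ^ r) + 2 * δ * (k.card : ℝ)) - 1) * PP G zb k kp := ⟨_, rfl⟩
  rw [← hB]
  -- a set of nonzero weight for `w2` avoids `R`
  have hTR : ∀ T, gw w2 T ≠ 0 → Disjoint T R := by
    intro T hT
    rw [Finset.disjoint_left]
    intro v hv hvR
    apply hT
    unfold gw
    refine Finset.prod_eq_zero hv ?_
    rw [hw2]
    exact if_pos hvR
  have hstep : ∀ T, gw w2 T ≠ 0 →
      |PP G (off w1 (CN G T)) k kp - PP G zb k kp| ≤ B := by
    intro T hT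
    have hd := hTR T hT
    have hz : Btw κ (off w1 (CN G T)) := by
      intro v
      refine ⟨off_nonneg hw1n _ v, ?_⟩
      unfold off
      split_ifs with h1
      · exact (hκ v).1
      · rw [hw1]
        dsimp only
        split_ifs with h2
        · exact (hclose v h2).1
        · exact (hκ v).1
    rw [hB]
    refine l_LocZ_step h hC (w := w) hzb hδ0 hδ1 hk hI hpos hz ?_
    intro v hv
    have hvR : v ∈ R := hrR hv
    have h1 : v ∉ CN G T := by
      intro hvT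
      unfold CN at hvT
      obtain ⟨u, hu, huv⟩ := Finset.mem_biUnion.1 hvT
      have h2 : u ∈ Bl G k (r + 1) := b6 r v u hv (mem_cn_comm.1 huv)
      rw [← hR] at h2
      exact Finset.disjoint_left.1 hd hu h2
    have h2 : off w1 (CN G T) v = w v := by
      rw [off_of_notMem h1, hw1]
      exact if_pos hvR
    rw [h2]
    exact (hclose v hvR).2
  obtain ⟨Φ, hΦ⟩ : ∃ Φ : Finset V → ℝ, Φ = fun S => if S ∩ CN G k = kp then 1 else 0 := ⟨_, rfl⟩
  have hPP : ∀ z : V → ℝ, (∀ v, 0 ≤ z v) →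
      ∑ S ∈ IS G, gw z S * Φ S = PP G z k kp * Zp G z := by
    intro z hz
    have h1 : PP G z k kp = (∑ S ∈ IS G, gw z S * Φ S) / Zp G z := by
      rw [hΦ]
      rfl
    rw [h1, div_mul_cancel₀ _ (Zp_pos hz).ne']
  have hthin := s_Thin V G w1 w2 Φ
  rw [hw12, hPP w hw] at hthin
  have hthin1 := s_Thin V G w1 w2 (fun _ => 1)
  rw [hw12] at hthin1
  simp only [mul_one] at hthin1
  have hZw : Zp G w = ∑ T ∈ IS G, gw w2 T * Zp G (off w1 (CN G T)) := hthin1
  have hnum : PP G w k kp * Zp G w = ∑ T ∈ IS G, gw w2 T *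
      (PP G (off w1 (CN G T)) k kp * Zp G (off w1 (CN G T))) := by
    rw [hthin]
    refine Finset.sum_congr rfl fun T _ => ?_
    by_cases hT : gw w2 T = 0
    · rw [hT, zero_mul, zero_mul]
    · congr 1
      rw [← hPP _ (off_nonneg hw1n _)]
      refine Finset.sum_congr rfl fun J _ => ?_
      congr 1
      rw [hΦ]
      dsimp only
      have h1 : (T ∪ J) ∩ CN G k = J ∩ CN G k := by
        have hd : T ∩ CN G k = ∅ := by
          rw [← Finset.disjoint_iff_inter_eq_empty]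
          exact Finset.disjoint_of_subset_right hCNR (hTR T hT)
        rw [Finset.union_inter_distrib_right, hd, Finset.empty_union]
      rw [h1]
  have hZpos : 0 < Zp G w := Zp_pos hw
  have hdiff : (PP G w k kp - PP G zb k kp) * Zp G w = ∑ T ∈ IS G, gw w2 T *
      Zp G (off w1 (CN G T)) * (PP G (off w1 (CN G T)) k kp - PP G zb k kp) := by
    have h1 : PP G zb k kp * Zp G w = ∑ T ∈ IS G, gw w2 T * Zp G (off w1 (CN G T)) *
        PP G zb k kp := by
      rw [hZw, Finset.mul_sum]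
      exact Finset.sum_congr rfl fun T _ => by ring
    rw [sub_mul, hnum, h1, ← Finset.sum_sub_distrib]
    exact Finset.sum_congr rfl fun T _ => by ring
  have habs : |(PP G w k kp - PP G zb k kp) * Zp G w| ≤ B * Zp G w := by
    rw [hdiff]
    refine (Finset.abs_sum_le_sum_abs _ _).trans ?_
    have h1 : B * Zp G w = ∑ T ∈ IS G, gw w2 T * Zp G (off w1 (CN G T)) * B := by
      rw [hZw, Finset.mul_sum]
      exact Finset.sum_congr rfl fun T _ => by ring
    rw [h1]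
    refine Finset.sum_le_sum fun T _ => ?_
    by_cases hT : gw w2 T = 0
    · rw [hT, zero_mul, zero_mul, zero_mul, abs_zero]
    · have h2 : 0 ≤ gw w2 T * Zp G (off w1 (CN G T)) :=
        mul_nonneg (gw_nonneg hw2n T) (Zp_pos (off_nonneg hw1n _)).le
      rw [abs_mul, abs_of_nonneg h2]
      exact mul_le_mul_of_nonneg_left (hstep T hT) h2
  rw [abs_mul, abs_of_pos hZpos] at habs
  exact le_of_mul_le_mul_right habs hZpos

end Pool.Agent.Loc26
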